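import Mathlib

namespace Pool.Agent.Lib.MP_0813d1_al

open scoped commutatorElement

structure NSeries (G : Type*) [Group G] where
  N : ℕ → Subgroup G
  one : N 1 = ⊤
  anti : Antitone N
  comm : ∀ i j, ⁅N i, N j⁆ ≤ N (i + j)

/-- all we use about the graded Lie ring of an N-series -/
structure GrData {G : Type*} [Group G] (S : NSeries G) (L : Type*) [LieRing L] where
  cls : ℕ → G → L
  proj : ℕ → L →+ L
  cls_mul : ∀ n g h, g ∈ S.N n → h ∈ S.N n → cls n (g * h) = cls n g + cls n h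
  cls_eq_zero : ∀ n g, g ∈ S.N n → (cls n g = 0 ↔ g ∈ S.N (n + 1))
  cls_lie : ∀ i j g h, g ∈ S.N i → h ∈ S.N j → ⁅cls i g, cls j h⁆ = cls (i + j) ⁅g, h⁆
  proj_self : ∀ n g, g ∈ S.N n → proj n (cls n g) = cls n g
  proj_ne : ∀ n m g, g ∈ S.N m → n ≠ m → proj n (cls m g) = 0
  span : AddSubgroup.closure {u | ∃ n g, g ∈ S.N n ∧ u = cls n g} = ⊤
  desc : ∀ (d : ℕ) (f : G → G), (∀ n g, g ∈ S.N n → f g ∈ S.N (n + d)) →
    (∀ n g h, g ∈ S.N n → h ∈ S.N n → (f g * f h)⁻¹ * f (g * h) ∈ S.N (n + d + 1)) →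
    ∃ φ : L →+ L, ∀ n g, g ∈ S.N n → φ (cls n g) = cls (n + d) (f g)

namespace NSeries

variable {G : Type*} [Group G] (S : NSeries G)

theorem comm_mem {i j : ℕ} {g h : G} (hg : g ∈ S.N i) (hh : h ∈ S.N j) :
    ⁅g, h⁆ ∈ S.N (i + j) :=
  S.comm i j (Subgroup.commutator_mem_commutator hg hh)

theorem mem_one (g : G) : g ∈ S.N 1 := by rw [S.one]; trivial

theorem mem_of_le {i j : ℕ} (hij : i ≤ j) {g : G} (hg : g ∈ S.N j) : g ∈ S.N i := S.anti hij hg

theorem mem_zero (g : G) : g ∈ S.N 0 := S.mem_of_le (Nat.zero_le 1) (S.mem_one g)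

theorem comm_mem_succ {n : ℕ} (x : G) {g : G} (hg : g ∈ S.N n) : ⁅x, g⁆ ∈ S.N (n + 1) := by
  have := S.comm_mem (S.mem_one x) hg
  rwa [add_comm] at this

instance normal (n : ℕ) : (S.N n).Normal := ⟨fun g hg x => by
  have h1 : x * g * x⁻¹ = ⁅x, g⁆ * g := by simp [commutatorElement_def]
  rw [h1]
  exact (S.N n).mul_mem (S.mem_of_le (Nat.le_succ n) (S.comm_mem_succ x hg)) hg⟩

/-- the graded piece -/
def Pc (n : ℕ) := S.N n ⧸ (S.N (n + 1)).subgroupOf (S.N n)

instance (n : ℕ) : Group (S.Pc n) := by unfold Pc; infer_instance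

def mkPc (n : ℕ) : S.N n →* S.Pc n := QuotientGroup.mk' _

theorem mkPc_surj (n : ℕ) : Function.Surjective (S.mkPc n) := QuotientGroup.mk'_surjective _

theorem mkPc_eq_one (n : ℕ) (g : S.N n) : S.mkPc n g = 1 ↔ (g : G) ∈ S.N (n + 1) := by
  have : S.mkPc n g = 1 ↔ g ∈ (S.N (n + 1)).subgroupOf (S.N n) := QuotientGroup.eq_one_iff g
  rw [this, Subgroup.mem_subgroupOf]

instance (n : ℕ) : CommGroup (S.Pc n) where
  mul_comm a b := by
    obtain ⟨x, rfl⟩ := S.mkPc_surj n a
    obtain ⟨y, rfl⟩ := S.mkPc_surj n b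
    have h : S.mkPc n ⁅x, y⁆ = 1 := by
      rw [mkPc_eq_one]
      exact S.comm_mem_succ (x : G) y.2
    rw [map_commutatorElement] at h
    exact commutatorElement_eq_one_iff_mul_comm.mp h

/-- the graded group -/
def Gr := DirectSum ℕ (fun n => Additive (S.Pc n))

instance : AddCommGroup S.Gr := by unfold Gr; infer_instance

def ofPc (n : ℕ) : Additive (S.Pc n) →+ S.Gr := DirectSum.of (fun n => Additive (S.Pc n)) n

open Classical in
noncomputable def cls (n : ℕ) (g : G) : S.Gr :=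
  if h : g ∈ S.N n then S.ofPc n (Additive.ofMul (S.mkPc n ⟨g, h⟩)) else 0

theorem cls_def {n : ℕ} {g : G} (h : g ∈ S.N n) :
    S.cls n g = S.ofPc n (Additive.ofMul (S.mkPc n ⟨g, h⟩)) := by
  unfold cls; rw [dif_pos h]

theorem cls_mul {n : ℕ} {g h : G} (hg : g ∈ S.N n) (hh : h ∈ S.N n) :
    S.cls n (g * h) = S.cls n g + S.cls n h := by
  rw [S.cls_def hg, S.cls_def hh, S.cls_def ((S.N n).mul_mem hg hh), ← map_add, ← ofMul_mul,
    ← map_mul]
  rfl

theorem cls_eq_zero {n : ℕ} {g : G} (hg : g ∈ S.N n) : S.cls n g = 0 ↔ g ∈ S.N (n + 1) := by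
  rw [S.cls_def hg, ← (S.ofPc n).map_zero]
  have hinj : Function.Injective (S.ofPc n) := DirectSum.of_injective n
  rw [hinj.eq_iff, ofMul_eq_zero, mkPc_eq_one]

theorem cls_succ {n : ℕ} {g : G} (hg : g ∈ S.N (n + 1)) : S.cls n g = 0 :=
  (S.cls_eq_zero (S.mem_of_le (Nat.le_succ n) hg)).mpr hg

theorem cls_one (n : ℕ) : S.cls n 1 = 0 := S.cls_succ (Subgroup.one_mem _)

theorem cls_inv {n : ℕ} {g : G} (hg : g ∈ S.N n) : S.cls n g⁻¹ = -S.cls n g := by
  have := S.cls_mul hg ((S.N n).inv_mem hg)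
  rw [mul_inv_cancel, cls_one] at this
  exact (neg_eq_of_add_eq_zero_right this.symm).symm

theorem cls_conj {n : ℕ} (x : G) {g : G} (hg : g ∈ S.N n) : S.cls n (x * g * x⁻¹) = S.cls n g := by
  have h1 : x * g * x⁻¹ = ⁅x, g⁆ * g := by simp [commutatorElement_def]
  have h2 := S.comm_mem_succ x hg
  rw [h1, S.cls_mul (S.mem_of_le (Nat.le_succ n) h2) hg, S.cls_succ h2, zero_add]

theorem span : AddSubgroup.closure {u | ∃ n g, g ∈ S.N n ∧ u = S.cls n g} = ⊤ := by
  rw [eq_top_iff]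
  intro x _
  refine DirectSum.induction_on (β := fun n => Additive (S.Pc n)) x (zero_mem _) ?_
    (fun a b ha hb => add_mem ha hb)
  intro n a
  obtain ⟨y, hy⟩ := S.mkPc_surj n (Additive.toMul a)
  apply AddSubgroup.subset_closure
  refine ⟨n, y, y.2, ?_⟩
  rw [S.cls_def y.2]
  change S.ofPc n a = _
  congr 1
  rw [show (⟨(y : G), y.2⟩ : S.N n) = y from rfl, hy]
  rfl

theorem hom_ext {M : Type*} [AddCommGroup M] {φ ψ : S.Gr →+ M}
    (h : ∀ n g, g ∈ S.N n → φ (S.cls n g) = ψ (S.cls n g)) : φ = ψ := by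
  apply AddMonoidHom.eq_of_eqOn_dense S.span
  rintro u ⟨n, g, hg, rfl⟩
  exact h n g hg

theorem exists_lift {M : Type*} [AddCommGroup M] (f : ℕ → G → M)
    (hmul : ∀ n g h, g ∈ S.N n → h ∈ S.N n → f n (g * h) = f n g + f n h)
    (hz : ∀ n g, g ∈ S.N (n + 1) → f n g = 0) :
    ∃ φ : S.Gr →+ M, ∀ n g, g ∈ S.N n → φ (S.cls n g) = f n g := by
  let F : ∀ n, S.N n →* Multiplicative M := fun n =>
    MonoidHom.mk' (fun g => Multiplicative.ofAdd (f n g)) (fun a b => by
      rw [← ofAdd_add, ← hmul n a b a.2 b.2]; rfl)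
  let F' : ∀ n, S.Pc n →* Multiplicative M := fun n =>
    QuotientGroup.lift _ (F n) (fun g hg => by
      rw [Subgroup.mem_subgroupOf] at hg
      change Multiplicative.ofAdd (f n g) = 1
      rw [hz n g hg]; rfl)
  refine ⟨DirectSum.toAddMonoid (fun n => MonoidHom.toAdditiveLeft (F' n)), ?_⟩
  intro n g hg
  rw [S.cls_def hg]
  exact DirectSum.toAddMonoid_of (β := fun n => Additive (S.Pc n)) _ n _

theorem exists_br : ∃ β : S.Gr →+ S.Gr →+ S.Gr, ∀ i j g h, g ∈ S.N i → h ∈ S.N j →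
    β (S.cls i g) (S.cls j h) = S.cls (i + j) ⁅g, h⁆ := by
  have h1 : ∀ i g, ∃ φ : S.Gr →+ S.Gr, g ∈ S.N i → ∀ j h, h ∈ S.N j →
      φ (S.cls j h) = S.cls (i + j) ⁅g, h⁆ := by
    intro i g
    by_cases hg : g ∈ S.N i
    · obtain ⟨φ, hφ⟩ := S.exists_lift (fun j h => S.cls (i + j) ⁅g, h⁆) (by
        intro j h k hh hk
        have e : ⁅g, h * k⁆ = ⁅g, h⁆ * (h * ⁅g, k⁆ * h⁻¹) := by
          simp only [commutatorElement_def]; group
        have hc := S.comm_mem hg hk
        simp only [e]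
        rw [S.cls_mul (S.comm_mem hg hh) ((S.normal _).conj_mem _ hc h), S.cls_conj h hc]) (by
        intro j h hh
        have hc : ⁅g, h⁆ ∈ S.N (i + j + 1) := S.comm_mem (j := j + 1) hg hh
        exact S.cls_succ hc)
      exact ⟨φ, fun _ => hφ⟩
    · exact ⟨0, fun h => absurd h hg⟩
  choose φ hφ using h1
  obtain ⟨β, hβ⟩ := S.exists_lift φ (by
    intro i g g' hg hg'
    apply S.hom_ext
    intro j h hh
    rw [AddMonoidHom.add_apply, hφ i g hg j h hh, hφ i g' hg' j h hh,
      hφ i _ ((S.N i).mul_mem hg hg') j h hh]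
    have e : ⁅g * g', h⁆ = (g * ⁅g', h⁆ * g⁻¹) * ⁅g, h⁆ := by
      simp only [commutatorElement_def]; group
    have hc := S.comm_mem hg' hh
    rw [e, S.cls_mul ((S.normal _).conj_mem _ hc g) (S.comm_mem hg hh), S.cls_conj g hc,
      add_comm]) (by
    intro i g hg
    apply S.hom_ext
    intro j h hh
    rw [hφ i g (S.mem_of_le (Nat.le_succ i) hg) j h hh, AddMonoidHom.zero_apply]
    apply S.cls_succ
    have := S.comm_mem hg hh
    rwa [add_right_comm] at this)
  exact ⟨β, fun i j g h hg hh => by rw [hβ i g hg, hφ i g hg j h hh]⟩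

noncomputable def br : S.Gr →+ S.Gr →+ S.Gr := S.exists_br.choose

theorem br_cls {i j : ℕ} {g h : G} (hg : g ∈ S.N i) (hh : h ∈ S.N j) :
    S.br (S.cls i g) (S.cls j h) = S.cls (i + j) ⁅g, h⁆ := S.exists_br.choose_spec i j g h hg hh

theorem br_anti (x y : S.Gr) : S.br x y = -S.br y x := by
  have : S.br = -S.br.flip := by
    apply S.hom_ext; intro i g hg
    apply S.hom_ext; intro j h hh
    rw [S.br_cls hg hh, AddMonoidHom.neg_apply, AddMonoidHom.neg_apply, AddMonoidHom.flip_apply,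
      S.br_cls hh hg, ← S.cls_inv (S.comm_mem hh hg), commutatorElement_inv, add_comm]
  have h2 := DFunLike.congr_fun (DFunLike.congr_fun this x) y
  simpa using h2

theorem br_self (x : S.Gr) : S.br x x = 0 := by
  have hx : x ∈ AddSubgroup.closure {u | ∃ n g, g ∈ S.N n ∧ u = S.cls n g} := by
    rw [S.span]; trivial
  induction hx using AddSubgroup.closure_induction with
  | mem u hu =>
    obtain ⟨n, g, hg, rfl⟩ := hu
    rw [S.br_cls hg hg, commutatorElement_self, cls_one]
  | zero => simp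
  | add a b _ _ ha hb =>
    simp only [map_add, AddMonoidHom.add_apply, ha, hb]
    rw [S.br_anti a b]; abel
  | neg a _ ha => simp [ha]

theorem jacobi_cls {i j k : ℕ} {a b c : G} (ha : a ∈ S.N i) (hb : b ∈ S.N j) (hc : c ∈ S.N k) :
    S.br (S.br (S.cls i a) (S.cls j b)) (S.cls k c) +
      S.br (S.br (S.cls j b) (S.cls k c)) (S.cls i a) +
      S.br (S.br (S.cls k c) (S.cls i a)) (S.cls j b) = 0 := by
  have hw : ⁅⁅a, b⁆, b * c * b⁻¹⁆ * ⁅⁅b, c⁆, c * a * c⁻¹⁆ * ⁅⁅c, a⁆, a * b * a⁻¹⁆ = 1 := by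
    simp only [commutatorElement_def]; group
  have hc' := (S.normal _).conj_mem _ hc b
  have ha' := (S.normal _).conj_mem _ ha c
  have hb' := (S.normal _).conj_mem _ hb a
  rw [S.br_cls ha hb, S.br_cls hb hc, S.br_cls hc ha]
  conv_lhs => rw [← S.cls_conj b hc, ← S.cls_conj c ha, ← S.cls_conj a hb]
  have m1 := S.comm_mem (S.comm_mem ha hb) hc'
  have m2 := S.comm_mem (S.comm_mem hb hc) ha'
  have m3 := S.comm_mem (S.comm_mem hc ha) hb'
  rw [S.br_cls (S.comm_mem ha hb) hc', S.br_cls (S.comm_mem hb hc) ha',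
    S.br_cls (S.comm_mem hc ha) hb']
  have e2 : j + k + i = i + j + k := by ring
  have e3 : k + i + j = i + j + k := by ring
  rw [e2] at m2 ⊢
  rw [e3] at m3 ⊢
  rw [← S.cls_mul m1 m2, ← S.cls_mul ((S.N _).mul_mem m1 m2) m3, hw, cls_one]

theorem jacobi (x y z : S.Gr) :
    S.br (S.br x y) z + S.br (S.br y z) x + S.br (S.br z x) y = 0 := by
  have hx : x ∈ AddSubgroup.closure {u | ∃ n g, g ∈ S.N n ∧ u = S.cls n g} := by
    rw [S.span]; trivial
  have hy : y ∈ AddSubgroup.closure {u | ∃ n g, g ∈ S.N n ∧ u = S.cls n g} := by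
    rw [S.span]; trivial
  have hz : z ∈ AddSubgroup.closure {u | ∃ n g, g ∈ S.N n ∧ u = S.cls n g} := by
    rw [S.span]; trivial
  induction hx using AddSubgroup.closure_induction with
  | mem u hu =>
    induction hy using AddSubgroup.closure_induction with
    | mem v hv =>
      induction hz using AddSubgroup.closure_induction with
      | mem w hw =>
        obtain ⟨i, a, ha, rfl⟩ := hu
        obtain ⟨j, b, hb, rfl⟩ := hv
        obtain ⟨k, c, hc, rfl⟩ := hw
        exact S.jacobi_cls ha hb hc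
      | zero => simp
      | add a b _ _ ha hb =>
        simp only [map_add, AddMonoidHom.add_apply]
        rw [← add_zero 0]
        nth_rewrite 1 [← ha]
        rw [← hb]; abel
      | neg a _ ha =>
        simp only [map_neg, AddMonoidHom.neg_apply]
        rw [← neg_zero, ← ha]; abel
    | zero => simp
    | add a b _ _ ha hb =>
      simp only [map_add, AddMonoidHom.add_apply]
      rw [← add_zero 0]
      nth_rewrite 1 [← ha]
      rw [← hb]; abel
    | neg a _ ha =>
      simp only [map_neg, AddMonoidHom.neg_apply]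
      rw [← neg_zero, ← ha]; abel
  | zero => simp
  | add a b _ _ ha hb =>
    simp only [map_add, AddMonoidHom.add_apply]
    rw [← add_zero 0]
    nth_rewrite 1 [← ha]
    rw [← hb]; abel
  | neg a _ ha =>
    simp only [map_neg, AddMonoidHom.neg_apply]
    rw [← neg_zero, ← ha]; abel

noncomputable instance lieRing : LieRing S.Gr where
  bracket x y := S.br x y
  add_lie x y z := by
    change S.br (x + y) z = S.br x z + S.br y z
    rw [map_add, AddMonoidHom.add_apply]
  lie_add x y z := by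
    change S.br x (y + z) = S.br x y + S.br x z
    rw [map_add]
  lie_self x := S.br_self x
  leibniz_lie x y z := by
    change S.br x (S.br y z) = S.br (S.br x y) z + S.br y (S.br x z)
    have h := S.jacobi x y z
    rw [S.br_anti (S.br y z) x, S.br_anti (S.br z x) y, S.br_anti z x, map_neg, neg_neg] at h
    rw [← sub_eq_zero, ← neg_eq_zero, ← h]; abel

theorem exists_proj (n : ℕ) : ∃ φ : S.Gr →+ S.Gr, ∀ m g, g ∈ S.N m →
    φ (S.cls m g) = if m = n then S.cls m g else 0 := by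
  apply S.exists_lift (fun m g => if m = n then S.cls m g else 0)
  · intro m g h hg hh
    by_cases e : m = n
    · simp only [if_pos e]; exact S.cls_mul hg hh
    · simp only [if_neg e, add_zero]
  · intro m g hg
    by_cases e : m = n
    · simp only [if_pos e]; exact S.cls_succ hg
    · simp only [if_neg e]

noncomputable def grData : GrData S S.Gr where
  cls := S.cls
  proj n := (S.exists_proj n).choose
  cls_mul _ _ _ hg hh := S.cls_mul hg hh
  cls_eq_zero _ _ hg := S.cls_eq_zero hg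
  cls_lie _ _ _ _ hg hh := S.br_cls hg hh
  proj_self n g hg := by rw [(S.exists_proj n).choose_spec n g hg, if_pos rfl]
  proj_ne n m g hg hne := by rw [(S.exists_proj n).choose_spec m g hg, if_neg (Ne.symm hne)]
  span := S.span
  desc d f h1 h2 := by
    apply S.exists_lift (fun n g => S.cls (n + d) (f g))
    · intro n g h hg hh
      have e : f (g * h) = f g * f h * ((f g * f h)⁻¹ * f (g * h)) := by group
      have m := h2 n g h hg hh
      rw [e, S.cls_mul ((S.N _).mul_mem (h1 n g hg) (h1 n h hh)) (S.mem_of_le (Nat.le_succ _) m),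
        S.cls_succ m, add_zero, S.cls_mul (h1 n g hg) (h1 n h hh)]
    · intro n g hg
      apply S.cls_succ
      have := h1 (n + 1) g hg
      rwa [add_right_comm] at this

end NSeries

theorem exists_grData {G : Type} [Group G] (S : NSeries G) :
    ∃ (L : Type) (_ : LieRing L), Nonempty (GrData S L) :=
  ⟨S.Gr, S.lieRing, ⟨S.grData⟩⟩

end Pool.Agent.Lib.MP_0813d1_al
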