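import Mathlib
import Pool.Agent.Lib.MP_0813d1_al.NSeries

namespace Pool.Agent.Lib.MP_0813d1_al

open scoped commutatorElement

namespace HP

variable {G : Type*} [Group G] (S : NSeries G) (s : ℕ)

/-- polynomial sequences of level `a` and step `s` -/
inductive Q : ℕ → (ℕ → G) → Prop
  | base (a t : ℕ) (g : G) : g ∈ S.N (a + t * s) → Q a (fun n => g ^ (n.choose t))
  | mul (a : ℕ) (f g : ℕ → G) : Q a f → Q a g → Q a (f * g)
  | inv (a : ℕ) (f : ℕ → G) : Q a f → Q a f⁻¹
  | mono (a b : ℕ) (f : ℕ → G) : a ≤ b → Q b f → Q a f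
  | comm (a b : ℕ) (f g : ℕ → G) : Q a f → Q b g → Q (a + b) ⁅f, g⁆

variable {S s}

theorem Q.one (a : ℕ) : Q S s a 1 := by
  have := Q.base (S := S) (s := s) a 0 1 (Subgroup.one_mem _)
  have e : (fun n : ℕ => (1 : G) ^ (n.choose 0)) = 1 := by funext n; simp
  rwa [e] at this

theorem Q.conj {a b : ℕ} {x y : ℕ → G} (hx : Q S s a x) (hy : Q S s b y) :
    Q S s a (y * x * y⁻¹) := by
  have e : y * x * y⁻¹ = ⁅y, x⁆ * x := by simp [commutatorElement_def]
  rw [e]
  exact Q.mul _ _ _ (Q.mono _ _ _ (Nat.le_add_left a b) (Q.comm _ _ _ _ hy hx)) hx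

theorem Q.mem {a : ℕ} {f : ℕ → G} (h : Q S s a f) (n : ℕ) : f n ∈ S.N a := by
  induction h with
  | base a t g hg => exact (S.N a).pow_mem (S.mem_of_le (Nat.le_add_right _ _) hg) _
  | mul a f g _ _ h1 h2 => exact (S.N a).mul_mem h1 h2
  | inv a f _ h1 => exact (S.N a).inv_mem h1
  | mono a b f hab _ h1 => exact S.mem_of_le hab h1
  | comm a b f g _ _ h1 h2 => exact S.comm_mem h1 h2

/-- shift -/
def sh (f : ℕ → G) : ℕ → G := fun n => f (n + 1)

theorem Q.diff {a : ℕ} {f : ℕ → G} (h : Q S s a f) : Q S s (a + s) (f⁻¹ * sh f) := by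
  induction h with
  | base a t g hg =>
    cases t with
    | zero =>
      have e : (fun n : ℕ => g ^ (n.choose 0))⁻¹ * sh (fun n : ℕ => g ^ (n.choose 0)) = 1 := by
        funext n; simp [sh]
      rw [e]; exact Q.one _
    | succ t =>
      have e : (fun n : ℕ => g ^ (n.choose (t + 1)))⁻¹ * sh (fun n : ℕ => g ^ (n.choose (t + 1))) =
          fun n : ℕ => g ^ (n.choose t) := by
        funext n
        simp only [sh, Pi.mul_apply, Pi.inv_apply, Nat.choose_succ_succ', add_comm (n.choose t),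
          pow_add, inv_mul_cancel_left]
      rw [e]
      apply Q.base
      have e2 : a + s + t * s = a + (t + 1) * s := by ring
      rwa [e2]
  | mul a f g hf hg h1 h2 =>
    have e : (f * g)⁻¹ * sh (f * g) = (g⁻¹ * (f⁻¹ * sh f) * g⁻¹⁻¹) * (g⁻¹ * sh g) := by
      funext n; simp only [sh, Pi.mul_apply, Pi.inv_apply]; group
    rw [e]
    exact Q.mul _ _ _ (h1.conj (Q.inv _ _ hg)) h2
  | inv a f hf h1 =>
    have e : f⁻¹⁻¹ * sh f⁻¹ = f * (f⁻¹ * sh f)⁻¹ * f⁻¹ := by
      funext n; simp only [sh, Pi.mul_apply, Pi.inv_apply]; group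
    rw [e]
    exact (Q.inv _ _ h1).conj hf
  | mono a b f hab _ h1 => exact Q.mono _ _ _ (Nat.add_le_add_right hab s) h1
  | comm a b f g hf hg h1 h2 =>
    have e : ⁅f, g⁆⁻¹ * sh ⁅f, g⁆ =
        (⁅f, g⁆⁻¹ * (f * ⁅f⁻¹ * sh f, g * (g⁻¹ * sh g)⁆ * f⁻¹) * ⁅f, g⁆⁻¹⁻¹) *
          (g * ⁅f, g⁻¹ * sh g⁆ * g⁻¹) := by
      funext n
      simp only [sh, commutatorElement_def, Pi.mul_apply, Pi.inv_apply]; group
    rw [e]
    have hgv : Q S s b (g * (g⁻¹ * sh g)) := Q.mul _ _ _ hg (Q.mono _ _ _ (Nat.le_add_right _ _) h2)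
    have k1 := Q.comm _ _ _ _ h1 hgv
    rw [add_right_comm] at k1
    have k2 := Q.comm _ _ _ _ hf h2
    rw [← add_assoc] at k2
    exact Q.mul _ _ _ ((k1.conj hf).conj (Q.inv _ _ (Q.comm _ _ _ _ hf hg))) (k2.conj hg)

theorem Q.mem_of_vanish (m : ℕ) : ∀ {a : ℕ} {f : ℕ → G}, Q S s a f → (∀ i, i < m → f i = 1) →
    f m ∈ S.N (a + m * s) := by
  induction m with
  | zero => intro a f h _; simpa using h.mem 0
  | succ m ih =>
    intro a f h hv
    have h2 := ih h.diff (fun i hi => by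
      simp only [sh, Pi.mul_apply, Pi.inv_apply]
      rw [hv i (by omega), hv (i + 1) (by omega)]; simp)
    simp only [sh, Pi.mul_apply, Pi.inv_apply] at h2
    rw [hv m (by omega), inv_one, one_mul] at h2
    have e2 : a + s + m * s = a + (m + 1) * s := by ring
    rwa [e2] at h2

theorem Q.taylor {p : ℕ} (hp : p.Prime) (T : Subgroup G) {a : ℕ} (hT : S.N (a + p * s) ≤ T)
    (d : ℕ) : ∀ (m : ℕ) {f : ℕ → G}, m + d = p → 1 ≤ m → Q S s a f → (∀ i, i < m → f i = 1) →
    (∀ c ∈ S.N (a + m * s), c ^ p ∈ T) → f p ∈ T := by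
  induction d with
  | zero =>
    intro m f hm _ h hv _
    have : m = p := by omega
    subst this
    exact hT (h.mem_of_vanish m hv)
  | succ d ih =>
    intro m f hm h1 h hv hc
    have hc0 := h.mem_of_vanish m hv
    have hb := Q.base (S := S) (s := s) a m (f m) hc0
    have h2 := ih (m + 1) (by omega) (by omega) (Q.mul _ _ _ (Q.inv _ _ hb) h) (fun i hi => by
      simp only [Pi.mul_apply, Pi.inv_apply]
      rcases Nat.lt_succ_iff_lt_or_eq.mp hi with hi | hi
      · rw [hv i hi, Nat.choose_eq_zero_of_lt hi]; simp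
      · subst hi; simp) (fun c hc' => hc c (S.mem_of_le (by nlinarith) hc'))
    simp only [Pi.mul_apply, Pi.inv_apply] at h2
    obtain ⟨k, hk⟩ := hp.dvd_choose_self (k := m) (by omega) (by omega)
    have h3 : f m ^ p.choose m ∈ T := by
      rw [hk, pow_mul]; exact T.pow_mem (hc _ hc0) k
    have := T.mul_mem h3 h2
    rwa [mul_inv_cancel_left] at this

theorem Q.pow {a : ℕ} {g : G} (hg : g ∈ S.N (a + s)) : Q S s a (fun n => g ^ n) := by
  have := Q.base (S := S) (s := s) a 1 g (by simpa using hg)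
  simpa using this

theorem Q.const {a : ℕ} {g : G} (hg : g ∈ S.N a) : Q S s a (fun _ => g) := by
  have := Q.base (S := S) (s := s) a 0 g (by simpa using hg)
  simpa using this

theorem mul_gen (S : NSeries G) {p : ℕ} (hp : p.Prime) (T : Subgroup G) {j : ℕ}
    (hT : S.N (p * j) ≤ T) (hc : ∀ c ∈ S.N (2 * j), c ^ p ∈ T) {g h : G} (hg : g ∈ S.N j)
    (hh : h ∈ S.N j) : (g ^ p * h ^ p)⁻¹ * (g * h) ^ p ∈ T := by
  have q : Q S j 0 (((fun n => g ^ n) * (fun n => h ^ n))⁻¹ * (fun n => (g * h) ^ n)) :=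
    Q.mul _ _ _ (Q.inv _ _ (Q.mul _ _ _ (Q.pow (by simpa using hg)) (Q.pow (by simpa using hh))))
      (Q.pow (by simpa using (S.N j).mul_mem hg hh))
  have h2 := hp.two_le
  exact Q.taylor hp T (by simpa using hT) (p - 2) 2 (by omega) (by omega) q (fun i hi => by
    interval_cases i <;> simp) (by simpa using hc)

theorem comm_gen (S : NSeries G) {p : ℕ} (hp : p.Prime) (T : Subgroup G) {i j : ℕ}
    (hT : S.N (j + p * i) ≤ T) (hc : ∀ c ∈ S.N (j + 2 * i), c ^ p ∈ T) {g h : G} (hg : g ∈ S.N i)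
    (hh : h ∈ S.N j) : (⁅g ^ p, h⁆)⁻¹ * ⁅g, h⁆ ^ p ∈ T := by
  have q1 : Q S i (0 + j) ⁅(fun n => g ^ n), (fun _ => h)⁆ :=
    Q.comm _ _ _ _ (Q.pow (by simpa using hg)) (Q.const hh)
  rw [zero_add] at q1
  have q : Q S i j (⁅(fun n => g ^ n), (fun _ => h)⁆⁻¹ * (fun n => ⁅g, h⁆ ^ n)) :=
    Q.mul _ _ _ (Q.inv _ _ q1) (Q.pow (by rw [add_comm]; exact S.comm_mem hg hh))
  have h2 := hp.two_le
  exact Q.taylor hp T hT (p - 2) 2 (by omega) (by omega) q (fun i hi => by
    interval_cases i <;> simp [commutatorElement_def, mul_assoc]) hc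

end HP

/-- power structure: `T` generates the series -/
theorem pow_mem_of_gen {G : Type*} [Group G] (S : NSeries G) (p : ℕ) (hp : p.Prime) (h5 : 5 ≤ p)
    (M : ℕ) (hM : ∀ j, M ≤ j → S.N j = S.N M)
    (hgen : ∀ j, 1 ≤ j → S.N j ≤ Subgroup.closure
      ({t | t ∈ S.N j ∧ t ^ p ∈ S.N (j + 3)} ∪
        {t | ∃ g h, g ^ p ∈ S.N 4 ∧ h ∈ S.N (j - 1) ∧ 2 ≤ j ∧ t = ⁅g, h⁆}) ⊔ S.N (j + 1))
    (j : ℕ) (hj : 1 ≤ j) (g : G) (hg : g ∈ S.N j) : g ^ p ∈ S.N (j + 3) := by
  have key : ∀ d j, 1 ≤ j → M ≤ j + d → ∀ g ∈ S.N j, g ^ p ∈ S.N (j + 3) := by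
    intro d
    induction d with
    | zero =>
      intro j _ hMj g hg
      rw [hM (j + 3) (by omega), ← hM j (by omega)]
      exact (S.N j).pow_mem hg p
    | succ d ih =>
      intro j hj hMj g hg
      have ih' : ∀ c ∈ S.N (j + 1), c ^ p ∈ S.N (j + 3) := fun c hc =>
        S.mem_of_le (by omega) (ih (j + 1) (by omega) (by omega) c hc)
      let P : Subgroup G :=
        { carrier := {g | g ∈ S.N j ∧ g ^ p ∈ S.N (j + 3)}
          mul_mem' := by
            rintro a b ⟨ha, ha'⟩ ⟨hb, hb'⟩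
            refine ⟨(S.N j).mul_mem ha hb, ?_⟩
            have := HP.mul_gen S hp (S.N (j + 3)) (S.anti (by nlinarith))
              (fun c hc => ih' c (S.mem_of_le (by omega) hc)) ha hb
            have h2 := (S.N _).mul_mem ((S.N _).mul_mem ha' hb') this
            rwa [mul_inv_cancel_left] at h2
          one_mem' := ⟨Subgroup.one_mem _, by simp⟩
          inv_mem' := by
            rintro a ⟨ha, ha'⟩
            refine ⟨(S.N j).inv_mem ha, ?_⟩
            rw [inv_pow]; exact (S.N _).inv_mem ha' }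
      have hle : S.N j ≤ P := by
        refine (hgen j hj).trans (sup_le ?_ ?_)
        · rw [Subgroup.closure_le]
          rintro t (ht | ⟨x, y, hx, hy, h2, rfl⟩)
          · exact ht
          · have hm := S.comm_mem (S.mem_one x) hy
            rw [show 1 + (j - 1) = j by omega] at hm
            refine ⟨hm, ?_⟩
            have := HP.comm_gen S hp (S.N (j + 3)) (i := 1) (j := j - 1) (S.anti (by omega))
              (fun c hc => ih' c (S.mem_of_le (by omega) hc)) (S.mem_one x) hy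
            have h3 := S.comm_mem hx hy
            rw [show 4 + (j - 1) = j + 3 by omega] at h3
            have h2 := (S.N _).mul_mem h3 this
            rwa [mul_inv_cancel_left] at h2
        · intro c hc
          exact ⟨S.mem_of_le (by omega) hc, ih' c hc⟩
      exact (hle hg).2
  exact key M j hj (by omega) g hg

theorem pow_mul_congr {G : Type*} [Group G] (S : NSeries G) (p : ℕ) (hp : p.Prime) (h5 : 5 ≤ p)
    (hpow : ∀ j, 1 ≤ j → ∀ g ∈ S.N j, g ^ p ∈ S.N (j + 3))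
    (j : ℕ) (hj : 1 ≤ j) (g h : G) (hg : g ∈ S.N j) (hh : h ∈ S.N j) :
    (g ^ p * h ^ p)⁻¹ * (g * h) ^ p ∈ S.N (j + 4) :=
  HP.mul_gen S hp (S.N (j + 4)) (S.anti (by nlinarith))
    (fun c hc => hpow (j + 1) (by omega) c (S.mem_of_le (by omega) hc)) hg hh

theorem pow_comm_congr {G : Type*} [Group G] (S : NSeries G) (p : ℕ) (hp : p.Prime) (h5 : 5 ≤ p)
    (hpow : ∀ j, 1 ≤ j → ∀ g ∈ S.N j, g ^ p ∈ S.N (j + 3))
    (i j : ℕ) (hi : 1 ≤ i) (hj : 1 ≤ j) (g h : G) (hg : g ∈ S.N i) (hh : h ∈ S.N j) :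
    (⁅g ^ p, h⁆)⁻¹ * ⁅g, h⁆ ^ p ∈ S.N (i + j + 4) :=
  have _ := hj
  HP.comm_gen S hp (S.N (i + j + 4)) (S.anti (by nlinarith))
    (fun c hc => hpow (i + j + 1) (by omega) c (S.mem_of_le (by omega) hc)) hg hh

/-- final form used by the assembly -/
theorem exists_pi {G : Type*} [Group G] (S : NSeries G) (p : ℕ) (hp : p.Prime) (h5 : 5 ≤ p)
    (hpow : ∀ j, 1 ≤ j → ∀ g ∈ S.N j, g ^ p ∈ S.N (j + 3))
    {L : Type*} [LieRing L] (D : GrData S L) :
    ∃ π : L →+ L, (∀ n g, 1 ≤ n → g ∈ S.N n → π (D.cls n g) = D.cls (n + 3) (g ^ p)) ∧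
      (∀ a b, π ⁅a, b⁆ = ⁅π a, b⁆) ∧ ∀ a : L, p • a = 0 := by
  have h4 : ∀ g : G, g ^ p ∈ S.N 4 := fun g => hpow 1 le_rfl g (S.mem_one g)
  have hz : ∀ g : G, D.cls 0 g = 0 := fun g => (D.cls_eq_zero 0 g (S.mem_zero g)).mpr (S.mem_one g)
  obtain ⟨π, hπ⟩ := D.desc 3 (fun g => g ^ p) (by
    intro n g hg
    rcases Nat.eq_zero_or_pos n with rfl | hn
    · exact S.mem_of_le (by omega) (h4 g)
    · exact hpow n hn g hg) (by
    intro n g h hg hh
    rcases Nat.eq_zero_or_pos n with rfl | hn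
    · exact (S.N 4).mul_mem ((S.N 4).inv_mem ((S.N 4).mul_mem (h4 g) (h4 h))) (h4 _)
    · exact pow_mul_congr S p hp h5 hpow n hn g h hg hh)
  have hmem : ∀ x : L, x ∈ AddSubgroup.closure {u | ∃ n g, g ∈ S.N n ∧ u = D.cls n g} := by
    intro x; rw [D.span]; trivial
  refine ⟨π, fun n g _ hg => hπ n g hg, ?_, ?_⟩
  · intro a b
    induction hmem a using AddSubgroup.closure_induction with
    | mem u hu =>
      induction hmem b using AddSubgroup.closure_induction with
      | mem v hv =>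
        obtain ⟨i, g, hg, rfl⟩ := hu
        obtain ⟨j, h, hh, rfl⟩ := hv
        rcases Nat.eq_zero_or_pos i with rfl | hi
        · simp [hz]
        rcases Nat.eq_zero_or_pos j with rfl | hj
        · simp [hz]
        have hc := S.comm_mem hg hh
        rw [D.cls_lie i j g h hg hh, hπ _ _ hc, hπ _ _ hg, D.cls_lie _ _ _ _ (hpow i hi g hg) hh]
        have m := pow_comm_congr S p hp h5 hpow i j hi hj g h hg hh
        have m1 := S.comm_mem (hpow i hi g hg) hh
        rw [show i + 3 + j = i + j + 3 by ring] at m1 ⊢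
        have e : ⁅g, h⁆ ^ p = ⁅g ^ p, h⁆ * ((⁅g ^ p, h⁆)⁻¹ * ⁅g, h⁆ ^ p) := by group
        have m2 := S.mem_of_le (Nat.le_succ (i + j + 3)) m
        rw [e, D.cls_mul _ _ _ m1 m2, (D.cls_eq_zero _ _ m2).mpr m, add_zero]
      | zero => simp
      | add x y _ _ hx hy => simp only [lie_add, map_add, hx, hy]
      | neg x _ hx => simp only [lie_neg, map_neg, hx]
    | zero => simp
    | add x y _ _ hx hy => simp only [add_lie, map_add, hx, hy]
    | neg x _ hx => simp only [neg_lie, map_neg, hx]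
  · intro a
    induction hmem a using AddSubgroup.closure_induction with
    | mem u hu =>
      obtain ⟨n, g, hg, rfl⟩ := hu
      rcases Nat.eq_zero_or_pos n with rfl | hn
      · simp [hz]
      have hk : ∀ k : ℕ, k • D.cls n g = D.cls n (g ^ k) := by
        intro k
        induction k with
        | zero =>
          rw [zero_smul, pow_zero, (D.cls_eq_zero n 1 (Subgroup.one_mem _)).mpr (Subgroup.one_mem _)]
        | succ k ih => rw [succ_nsmul, ih, pow_succ, D.cls_mul _ _ _ ((S.N n).pow_mem hg k) hg]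
      rw [hk, D.cls_eq_zero n _ ((S.N n).pow_mem hg p)]
      exact S.mem_of_le (by omega) (hpow n hn g hg)
    | zero => simp
    | add x y _ _ hx hy => rw [smul_add, hx, hy, add_zero]
    | neg x _ hx => rw [smul_neg, hx, neg_zero]

end Pool.Agent.Lib.MP_0813d1_al
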