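import Mathlib

namespace Pool.Agent.Lib.MP_0813d1_al

open scoped commutatorElement

namespace HopfAux

/-- a 2-cocycle with values in an abelian group (trivial action) -/
structure Coc (H A : Type) [Group H] [AddCommGroup A] where
  c : H → H → A
  eq : ∀ g h k, c h k + c g (h * k) = c (g * h) k + c g h

variable {H A : Type} [Group H] [AddCommGroup A]

theorem Coc.one_left (C : Coc H A) (g : H) : C.c 1 g = C.c 1 1 := by
  have := C.eq 1 1 g
  simp only [one_mul] at this
  exact add_left_cancel this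

theorem Coc.one_right (C : Coc H A) (g : H) : C.c g 1 = C.c 1 1 := by
  have := C.eq g 1 1
  simp only [mul_one] at this
  exact (add_right_cancel this).symm

/-- the central extension defined by a cocycle -/
@[ext]
structure Ext (C : Coc H A) where
  g : H
  a : A

variable {C : Coc H A}

instance : Mul (Ext C) := ⟨fun x y => ⟨x.g * y.g, x.a + y.a + C.c x.g y.g⟩⟩
instance : One (Ext C) := ⟨⟨1, -C.c 1 1⟩⟩
instance : Inv (Ext C) := ⟨fun x => ⟨x.g⁻¹, -x.a - C.c x.g⁻¹ x.g - C.c 1 1⟩⟩

@[simp] theorem mul_g (x y : Ext C) : (x * y).g = x.g * y.g := rfl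
@[simp] theorem mul_a (x y : Ext C) : (x * y).a = x.a + y.a + C.c x.g y.g := rfl
@[simp] theorem one_g : (1 : Ext C).g = 1 := rfl
@[simp] theorem one_a : (1 : Ext C).a = -C.c 1 1 := rfl
@[simp] theorem inv_g (x : Ext C) : (x⁻¹).g = x.g⁻¹ := rfl
@[simp] theorem inv_a (x : Ext C) : (x⁻¹).a = -x.a - C.c x.g⁻¹ x.g - C.c 1 1 := rfl

instance : Group (Ext C) := Group.ofLeftAxioms
  (by
    intro x y z
    ext
    · simp [mul_assoc]
    · simp only [mul_a, mul_g]
      have := C.eq x.g y.g z.g
      linear_combination (norm := abel1) -this)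
  (by
    intro x
    ext
    · simp
    · simp only [mul_a, one_a, one_g, C.one_left x.g]; abel)
  (by
    intro x
    ext
    · simp
    · simp only [mul_a, inv_a, inv_g, one_a]; abel)

/-- projection -/
def pr (C : Coc H A) : Ext C →* H where
  toFun x := x.g
  map_one' := rfl
  map_mul' _ _ := rfl

/-- inclusion of the kernel -/
def inc (C : Coc H A) : Multiplicative A →* Ext C where
  toFun a := ⟨1, a.toAdd - C.c 1 1⟩
  map_one' := by ext <;> simp
  map_mul' a b := by
    ext
    · simp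
    · simp only [toAdd_mul, mul_a]; abel

theorem central_of_g {x : Ext C} (hx : x.g = 1) (y : Ext C) : x * y = y * x := by
  ext
  · simp [hx]
  · simp only [mul_a, hx, C.one_left y.g, C.one_right y.g]; abel

theorem inj_of_balanced {F : Type} [Group F] [IsFreeGroup F] (θ : F →* H)
    (hθ : Function.Surjective θ) (s t : F) (hs : θ s = 1) (ht : θ t = 1)
    (hgen : θ.ker ≤ Subgroup.normalClosure {s, t} ⊔ ⁅θ.ker, (⊤ : Subgroup F)⁆)
    (hind : ∀ a b : ℤ, s ^ a * t ^ b ∈ commutator F → a = 0 ∧ b = 0)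
    (C : Coc H A) (hC : AddSubgroup.closure {a | ∃ g h, a = C.c g h} = ⊤)
    (d : A →+ (H →₀ ℤ))
    (hd : ∀ g h, d (C.c g h) = Finsupp.single h 1 - Finsupp.single (g * h) 1 + Finsupp.single g 1)
    (z : A) (hz : d z = 0) : z = 0 := by
  classical
  -- the section
  let σ : (H →₀ ℤ) →+ Additive (Abelianization (Ext C)) :=
    Finsupp.liftAddHom fun g =>
      (zmultiplesHom _ (Additive.ofMul (Abelianization.of (⟨g, 0⟩ : Ext C))))
  have hσ : ∀ g, σ (Finsupp.single g 1) = Additive.ofMul (Abelianization.of (⟨g, 0⟩ : Ext C)) := by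
    intro g; simp [σ]
  let ρ : A →+ Additive (Abelianization (Ext C)) :=
    MonoidHom.toAdditiveRight (Abelianization.of.comp (inc C))
  have hρ : ∀ a, ρ a = Additive.ofMul (Abelianization.of (inc C (Multiplicative.ofAdd a))) := by
    intro a; rfl
  have key : σ.comp d = ρ := by
    apply AddMonoidHom.eq_of_eqOn_dense hC
    rintro _ ⟨g, h, rfl⟩
    simp only [AddMonoidHom.coe_comp, Function.comp_apply, hd, map_add, map_sub, hσ, hρ]
    have e : (⟨g, 0⟩ : Ext C) * ⟨h, 0⟩ =
        inc C (Multiplicative.ofAdd (C.c g h)) * ⟨g * h, 0⟩ := by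
      ext
      · simp [inc]
      · simp [inc, C.one_left (g * h)]
    have e2 := congrArg (fun x => Additive.ofMul (Abelianization.of x)) e
    simp only [map_mul, ofMul_mul] at e2
    linear_combination (norm := abel1) e2
  have h1 : inc C (Multiplicative.ofAdd z) ∈ commutator (Ext C) := by
    have : ρ z = 0 := by rw [← key]; simp [hz]
    rw [hρ] at this
    have h2 : Abelianization.of (inc C (Multiplicative.ofAdd z)) = 1 := this
    rwa [← MonoidHom.mem_ker, Abelianization.ker_of] at h2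
  -- lift θ
  let θ' : F →* Ext C := IsFreeGroup.lift fun x => (⟨θ (IsFreeGroup.of x), 0⟩ : Ext C)
  have hθ' : (pr C).comp θ' = θ := by
    apply IsFreeGroup.ext_hom
    intro x
    simp [θ', pr]
  have hg : ∀ f, (θ' f).g = θ f := fun f => by
    have := congrArg (fun φ : F →* H => φ f) hθ'
    exact this
  have h3 : commutator (Ext C) ≤ (commutator F).map θ' := by
    rw [commutator_def, Subgroup.commutator_le]
    intro x _ y _
    obtain ⟨f, hf⟩ := hθ x.g
    obtain ⟨f', hf'⟩ := hθ y.g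
    refine ⟨⁅f, f'⁆, Subgroup.commutator_mem_commutator (Subgroup.mem_top _) (Subgroup.mem_top _),
      ?_⟩
    have hu : ((θ' f)⁻¹ * x).g = 1 := by simp [hg, hf]
    have hv : ((θ' f')⁻¹ * y).g = 1 := by simp [hg, hf']
    obtain ⟨u, rfl⟩ : ∃ u, x = θ' f * u := ⟨(θ' f)⁻¹ * x, by group⟩
    obtain ⟨v, rfl⟩ : ∃ v, y = θ' f' * v := ⟨(θ' f')⁻¹ * y, by group⟩
    simp only [inv_mul_cancel_left] at hu hv
    have cu := central_of_g hu
    have cv := central_of_g hv
    rw [map_commutatorElement]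
    generalize θ' f = p
    generalize θ' f' = q
    simp only [commutatorElement_def, mul_inv_rev]
    have e1 : p * u * (q * v) = p * q * (u * v) := by
      rw [mul_assoc p u, ← mul_assoc u q, cu q]; group
    have e2 : u⁻¹ * p⁻¹ * (v⁻¹ * q⁻¹) = (u * v)⁻¹ * (p⁻¹ * q⁻¹) := by
      have : p⁻¹ * v⁻¹ = v⁻¹ * p⁻¹ := by
        rw [← mul_inv_rev, ← mul_inv_rev, cv p]
      rw [mul_assoc u⁻¹, ← mul_assoc p⁻¹, this, cu v]; group
    rw [mul_assoc (p * u * (q * v)), e1, e2]; group
  obtain ⟨f, hfc, hf⟩ := h3 h1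
  have hfR : f ∈ θ.ker := by
    rw [MonoidHom.mem_ker, ← hg, hf]; rfl
  have cs : ∀ y, Commute (θ' s) y := fun y => central_of_g (by rw [hg, hs]) y
  have ct : ∀ y, Commute (θ' t) y := fun y => central_of_g (by rw [hg, ht]) y
  let K : Subgroup F :=
    { carrier := {x | ∃ a b : ℤ, θ' x = θ' s ^ a * θ' t ^ b ∧
        Abelianization.of x = Abelianization.of s ^ a * Abelianization.of t ^ b}
      one_mem' := ⟨0, 0, by simp, by simp⟩
      mul_mem' := by
        rintro x y ⟨a, b, h1, h2⟩ ⟨a', b', h1', h2'⟩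
        refine ⟨a + a', b + b', ?_, ?_⟩
        · rw [map_mul, h1, h1', zpow_add, zpow_add]
          have := ((cs (θ' t)).zpow_zpow a' b).eq
          rw [mul_assoc, ← mul_assoc (θ' t ^ b), ← this]; group
        · rw [map_mul, h2, h2', zpow_add, zpow_add]
          exact mul_mul_mul_comm _ _ _ _
      inv_mem' := by
        rintro x ⟨a, b, h1, h2⟩
        refine ⟨-a, -b, ?_, ?_⟩
        · rw [map_inv, h1, ((cs (θ' t)).zpow_zpow a b).eq]; group
        · rw [map_inv, h2, mul_inv, zpow_neg, zpow_neg] }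
  have hKn : K.Normal := ⟨by
    rintro x ⟨a, b, h1, h2⟩ y
    refine ⟨a, b, ?_, ?_⟩
    · rw [map_mul, map_mul, map_inv, h1]
      have : Commute (θ' s ^ a * θ' t ^ b) (θ' y) :=
        ((cs _).zpow_left a).mul_left ((ct _).zpow_left b)
      rw [← this.eq]; group
    · rw [map_mul, map_mul, map_inv, h2, mul_inv_cancel_comm]⟩
  have hK : Subgroup.normalClosure {s, t} ⊔ ⁅θ.ker, (⊤ : Subgroup F)⁆ ≤ K := by
    apply sup_le
    · apply Subgroup.normalClosure_le_normal
      rintro x (rfl | rfl)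
      · exact ⟨1, 0, by simp, by simp⟩
      · exact ⟨0, 1, by simp, by simp⟩
    · rw [Subgroup.commutator_le]
      intro x hx y _
      refine ⟨0, 0, ?_, ?_⟩
      · have : Commute (θ' x) (θ' y) := central_of_g (by rw [hg]; exact hx) _
        simp only [map_commutatorElement, zpow_zero, mul_one]
        exact this.commutator_eq
      · simp only [map_commutatorElement, zpow_zero, mul_one]
        exact (Commute.all _ _).commutator_eq
  obtain ⟨a, b, h4, h5⟩ := hK (hgen hfR)
  have h6 : s ^ a * t ^ b ∈ commutator F := by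
    rw [← Abelianization.ker_of, MonoidHom.mem_ker, map_mul, map_zpow, map_zpow, ← h5,
      ← MonoidHom.mem_ker, Abelianization.ker_of]
    exact hfc
  obtain ⟨rfl, rfl⟩ := hind a b h6
  rw [hf] at h4
  have h7 := congrArg Ext.a h4
  simp only [inc, zpow_zero, mul_one, one_a, MonoidHom.coe_mk, OneHom.coe_mk, toAdd_ofAdd] at h7
  linear_combination (norm := abel1) h7

end HopfAux

open groupHomology in
theorem H2_trivial_of_balanced {F H : Type} [Group F] [IsFreeGroup F] [Group H] (θ : F →* H)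
    (hθ : Function.Surjective θ) (s t : F) (hs : θ s = 1) (ht : θ t = 1)
    (hgen : θ.ker ≤ Subgroup.normalClosure {s, t} ⊔ ⁅θ.ker, (⊤ : Subgroup F)⁆)
    (hind : ∀ a b : ℤ, s ^ a * t ^ b ∈ commutator F → a = 0 ∧ b = 0) :
    Subsingleton (groupHomology (Rep.trivial ℤ H ℤ) 2) := by
  classical
  let B : Submodule ℤ (H × H →₀ ℤ) := boundaries₂ (Rep.trivial ℤ H ℤ)
  let D : (H × H →₀ ℤ) →ₗ[ℤ] (H →₀ ℤ) := (d₂₁ (Rep.trivial ℤ H ℤ)).hom
  have hBD : B ≤ LinearMap.ker D := boundaries₂_le_cycles₂ (Rep.trivial ℤ H ℤ)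
  have hD : ∀ g h : H, D (Finsupp.single (g, h) 1) =
      Finsupp.single h 1 - Finsupp.single (g * h) 1 + Finsupp.single g 1 := by
    intro g h
    exact d₂₁_single (A := Rep.trivial ℤ H ℤ) (g, h) (1 : ℤ)
  have hB : ∀ g h k : H, (Finsupp.single (h, k) 1 - Finsupp.single (g * h, k) 1 +
      Finsupp.single (g, h * k) 1 - Finsupp.single (g, h) 1 : H × H →₀ ℤ) ∈ B := by
    intro g h k
    exact ⟨Finsupp.single (g, h, k) (1 : ℤ), d₃₂_single (A := Rep.trivial ℤ H ℤ) (g, h, k) (1 : ℤ)⟩
  let C : HopfAux.Coc H ((H × H →₀ ℤ) ⧸ B) :=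
    { c := fun g h => B.mkQ (Finsupp.single (g, h) 1)
      eq := by
        intro g h k
        have := (Submodule.Quotient.mk_eq_zero B).2 (hB g h k)
        rw [← Submodule.mkQ_apply, map_sub, map_add, map_sub] at this
        linear_combination (norm := abel1) this }
  have hC : AddSubgroup.closure {a | ∃ g h, a = C.c g h} = ⊤ := by
    rw [eq_top_iff]
    intro a _
    obtain ⟨x, rfl⟩ := B.mkQ_surjective a
    induction x using Finsupp.induction_linear with
    | zero => simp
    | add x y hx hy => rw [map_add]; exact add_mem (hx trivial) (hy trivial)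
    | single p n =>
      have : (Finsupp.single p n : H × H →₀ ℤ) = n • Finsupp.single p 1 := by simp
      rw [this, map_zsmul]
      refine AddSubgroup.zsmul_mem _ (AddSubgroup.subset_closure ?_) n
      exact ⟨p.1, p.2, rfl⟩
  have main : ∀ x : H × H →₀ ℤ, D x = 0 → x ∈ B := by
    intro x hx
    have := HopfAux.inj_of_balanced θ hθ s t hs ht hgen hind C hC
      (B.liftQ D hBD).toAddMonoidHom (fun g h => hD g h) (B.mkQ x) hx
    exact (Submodule.Quotient.mk_eq_zero B).1 this
  refine subsingleton_of_forall_eq 0 fun y => ?_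
  induction y using H2_induction_on with
  | h x => exact (H2π_eq_zero_iff x).2 (main x.1 x.2)

theorem finite_of_fg_nilpotent_torsion {H : Type*} [Group H] [Group.FG H] [Group.IsNilpotent H]
    (h : ∀ g : H, IsOfFinOrder g) : Finite H := by
  refine Group.nilpotent_center_quotient_ind
    (P := fun G _ _ => Group.FG G → (∀ g : G, IsOfFinOrder g) → Finite G) H ?_ ?_
    inferInstance h
  · intro G _ _ _ _
    infer_instance
  · intro G _ _ ih hfg h
    have hq : Finite (G ⧸ Subgroup.center G) := by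
      refine ih inferInstance ?_
      intro g
      obtain ⟨x, rfl⟩ := QuotientGroup.mk'_surjective (Subgroup.center G) g
      exact MonoidHom.isOfFinOrder _ (h x)
    haveI : (Subgroup.center G).FiniteIndex := Subgroup.finiteIndex_of_finite_quotient
    have hc : Group.FG (Subgroup.center G) := Subgroup.fg_of_index_ne_zero _
    have hz : Finite (Subgroup.center G) := by
      let inst : CommGroup (Subgroup.center G) :=
        { (inferInstance : Group (Subgroup.center G)) with
          mul_comm := fun a b => Subtype.ext (Subgroup.mem_center_iff.1 b.2 a.1) }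
      exact @CommGroup.finite_of_fg_isMulTorsion _ inst hc (IsMulTorsion.subgroup h _)
    exact Finite.of_subgroup_quotient (Subgroup.center G)

/-- `gam G i` is the usual `γ_i(G)` for `i ≥ 1`, and `gam G 0 = ⊤`. -/
def gam (G : Type*) [Group G] (i : ℕ) : Subgroup G := (⊤ : Subgroup G).lowerCentralSeries (i - 1)

namespace HopfAux

theorem three_subgroups {G : Type*} [Group G] (A B C N : Subgroup G) [N.Normal]
    (h1 : ⁅⁅B, C⁆, A⁆ ≤ N) (h2 : ⁅⁅C, A⁆, B⁆ ≤ N) : ⁅⁅A, B⁆, C⁆ ≤ N := by
  have e : ∀ X : Subgroup G, X ≤ N ↔ X.map (QuotientGroup.mk' N) = ⊥ := by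
    intro X
    rw [Subgroup.map_eq_bot_iff, QuotientGroup.ker_mk']
  rw [e] at h1 h2 ⊢
  simp only [Subgroup.map_commutator] at h1 h2 ⊢
  exact Subgroup.commutator_commutator_eq_bot_of_rotate h1 h2

theorem gam_succ {G : Type*} [Group G] (i : ℕ) (hi : 1 ≤ i) :
    gam G (i + 1) = ⁅gam G i, (⊤ : Subgroup G)⁆ := by
  obtain ⟨k, rfl⟩ : ∃ k, i = k + 1 := ⟨i - 1, by omega⟩
  rfl

instance gam_normal {G : Type*} [Group G] (i : ℕ) : (gam G i).Normal := by
  unfold gam; infer_instance

end HopfAux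

theorem chain_comm {G : Type*} [Group G] (W : ℕ → Subgroup G) (hn : ∀ i, (W i).Normal)
    (hW : ∀ i, ⁅W i, (⊤ : Subgroup G)⁆ ≤ W (i + 1)) (i r : ℕ) (hr : 1 ≤ r) :
    ⁅W i, gam G r⁆ ≤ W (i + r) := by
  induction r, hr using Nat.le_induction generalizing i with
  | base => exact hW i
  | succ r hr ih =>
    rw [HopfAux.gam_succ r hr, Subgroup.commutator_comm]
    haveI := hn (i + (r + 1))
    apply HopfAux.three_subgroups
    · rw [Subgroup.commutator_comm ⊤]
      refine le_trans (Subgroup.commutator_mono (hW i) le_rfl) ?_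
      have := ih (i + 1)
      rwa [show i + 1 + r = i + (r + 1) by ring] at this
    · exact le_trans (Subgroup.commutator_mono (ih i) le_rfl) (hW (i + r))

theorem gam_comm {G : Type*} [Group G] (i j : ℕ) (hi : 1 ≤ i) (hj : 1 ≤ j) :
    ⁅gam G i, gam G j⁆ ≤ gam G (i + j) := by
  refine chain_comm (gam G) (fun k => HopfAux.gam_normal k) (fun k => ?_) i j hj
  rcases Nat.eq_zero_or_pos k with rfl | hk
  · exact le_top
  · exact (HopfAux.gam_succ k hk).ge

/-- `γ_{i+1}` is generated modulo `γ_{i+2}` by the commutators `[s, g]`, `s` a generator. -/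
theorem gam_succ_le {G : Type*} [Group G] (S : Set G) (hS : Subgroup.closure S = ⊤) (i : ℕ)
    (hi : 1 ≤ i) :
    gam G (i + 1) ≤ Subgroup.closure {u | ∃ s ∈ S, ∃ g ∈ gam G i, u = ⁅s, g⁆} ⊔ gam G (i + 2) := by
  set K := Subgroup.closure {u | ∃ s ∈ S, ∃ g ∈ gam G i, u = ⁅s, g⁆} ⊔ gam G (i + 2) with hK
  have hmem : ∀ x g : G, g ∈ gam G i → ⁅x, g⁆ ∈ gam G (i + 1) := by
    intro x g hg
    rw [HopfAux.gam_succ i hi, Subgroup.commutator_comm]
    exact Subgroup.commutator_mem_commutator (Subgroup.mem_top _) hg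
  have hconj : ∀ x u : G, u ∈ gam G (i + 1) → u ∈ K → x * u * x⁻¹ ∈ K := by
    intro x u hu huK
    have h1 : ⁅x, u⁆ ∈ gam G (i + 2) := by
      rw [HopfAux.gam_succ (i + 1) (by omega), Subgroup.commutator_comm]
      exact Subgroup.commutator_mem_commutator (Subgroup.mem_top _) hu
    have : x * u * x⁻¹ = ⁅x, u⁆ * u := by simp [commutatorElement_def]
    rw [this]
    exact K.mul_mem (Subgroup.mem_sup_right h1) huK
  rw [HopfAux.gam_succ i hi, Subgroup.commutator_comm, Subgroup.commutator_le]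
  intro x hx g hg
  rw [← hS] at hx
  induction hx using Subgroup.closure_induction with
  | mem s hs => exact Subgroup.mem_sup_left (Subgroup.subset_closure ⟨s, hs, g, hg, rfl⟩)
  | one => simp
  | mul x y _ _ hx hy =>
    have : ⁅x * y, g⁆ = x * ⁅y, g⁆ * x⁻¹ * ⁅x, g⁆ := by simp [commutatorElement_def, mul_assoc]
    rw [this]
    exact K.mul_mem (hconj x _ (hmem y g hg) hy) hx
  | inv x _ hx =>
    have : ⁅x⁻¹, g⁆ = x⁻¹ * ⁅x, g⁆⁻¹ * x⁻¹⁻¹ := by simp [commutatorElement_def, mul_assoc]
    rw [this]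
    exact hconj _ _ (inv_mem (hmem x g hg)) (K.inv_mem hx)

end Pool.Agent.Lib.MP_0813d1_al
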