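import Pool.Agent.Lib.MP_0813d1_al.LowDegreeSound
import Pool.Agent.Lib.MP_0813d1_al.LowDegreeData

namespace Pool.Agent.Lib.MP_0813d1_al

open LowDeg in
theorem low_degree {K L : Type*} [Field K] [LieRing L] [LieAlgebra K L]
    (h2 : (2 : K) ≠ 0) (h3 : (3 : K) ≠ 0) (x y : L) (π : L →+ L)
    (hπ : ∀ a b, π ⁅a, b⁆ = ⁅π a, b⁆) (E F H : ℕ → L)
    (hπx : π x = ⁅x, ⁅x, ⁅x, y⁆⁆⁆ + F 4)
    (hπy : π y = ⁅x, ⁅x, ⁅x, y⁆⁆⁆ + ⁅y, ⁅y, ⁅y, x⁆⁆⁆)
    (hπF : π (F 4) = 0)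
    (hxF : ∀ j, 4 ≤ j → j ≤ 12 → Even j → ⁅x, F j⁆ = H (j + 1))
    (hyF : ∀ j, 4 ≤ j → j ≤ 12 → Even j → ⁅y, F j⁆ = 0)
    (hxE : ∀ j, 6 ≤ j → j ≤ 12 → Even j → ⁅x, E j⁆ = 0)
    (hyE : ∀ j, 6 ≤ j → j ≤ 12 → Even j → ⁅y, E j⁆ = -H (j + 1))
    (hxH : ∀ j, 5 ≤ j → j ≤ 12 → Odd j → ⁅x, H j⁆ = -(2 • E (j + 1)))
    (hyH : ∀ j, 5 ≤ j → j ≤ 12 → Odd j → ⁅y, H j⁆ = 2 • F (j + 1))
    (hab : ∀ l l', ⁅word x y l (F 4), word x y l' (F 4)⁆ = 0) :
    H 11 = 0 ∧ ∀ l : List Bool, l.length = 7 →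
      word x y l ⁅x, ⁅x, ⁅x, y⁆⁆⁆ = 0 ∧ word x y l ⁅y, ⁅y, ⁅y, x⁆⁆⁆ = 0 := by
  have _ := hab
  have h6 : ∀ v : L, (6 : ℤ) • v = 0 → v = 0 := by
    intro v hv
    rw [← Int.cast_smul_eq_zsmul K] at hv
    refine (smul_eq_zero.mp hv).resolve_left ?_
    have : ((6 : ℤ) : K) = 2 * 3 := by norm_num
    rw [this]
    exact mul_ne_zero h2 h3
  have xF4 : ⁅x, F 4⁆ = H 5 := hxF 4 (by norm_num) (by norm_num) (by decide)
  have xF6 : ⁅x, F 6⁆ = H 7 := hxF 6 (by norm_num) (by norm_num) (by decide)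
  have xF8 : ⁅x, F 8⁆ = H 9 := hxF 8 (by norm_num) (by norm_num) (by decide)
  have xF10 : ⁅x, F 10⁆ = H 11 := hxF 10 (by norm_num) (by norm_num) (by decide)
  have yF4 : ⁅y, F 4⁆ = 0 := hyF 4 (by norm_num) (by norm_num) (by decide)
  have yF6 : ⁅y, F 6⁆ = 0 := hyF 6 (by norm_num) (by norm_num) (by decide)
  have yF8 : ⁅y, F 8⁆ = 0 := hyF 8 (by norm_num) (by norm_num) (by decide)
  have yF10 : ⁅y, F 10⁆ = 0 := hyF 10 (by norm_num) (by norm_num) (by decide)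
  have xE6 : ⁅x, E 6⁆ = 0 := hxE 6 (by norm_num) (by norm_num) (by decide)
  have xE8 : ⁅x, E 8⁆ = 0 := hxE 8 (by norm_num) (by norm_num) (by decide)
  have xE10 : ⁅x, E 10⁆ = 0 := hxE 10 (by norm_num) (by norm_num) (by decide)
  have yE6 : ⁅y, E 6⁆ = -H 7 := hyE 6 (by norm_num) (by norm_num) (by decide)
  have yE8 : ⁅y, E 8⁆ = -H 9 := hyE 8 (by norm_num) (by norm_num) (by decide)
  have yE10 : ⁅y, E 10⁆ = -H 11 := hyE 10 (by norm_num) (by norm_num) (by decide)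
  have xH5 : ⁅x, H 5⁆ = -(2 • E 6) := hxH 5 (by norm_num) (by norm_num) (by decide)
  have xH7 : ⁅x, H 7⁆ = -(2 • E 8) := hxH 7 (by norm_num) (by norm_num) (by decide)
  have xH9 : ⁅x, H 9⁆ = -(2 • E 10) := hxH 9 (by norm_num) (by norm_num) (by decide)
  have yH5 : ⁅y, H 5⁆ = 2 • F 6 := hyH 5 (by norm_num) (by norm_num) (by decide)
  have yH7 : ⁅y, H 7⁆ = 2 • F 8 := hyH 7 (by norm_num) (by norm_num) (by decide)
  have yH9 : ⁅y, H 9⁆ = 2 • F 10 := hyH 9 (by norm_num) (by norm_num) (by decide)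
  have Hy : Hyp x y (F 4) π := by
    refine ⟨h6, hπ, hπx, hπy, hπF, ?_, ?_⟩
    · simp only [W0, List.mem_cons, List.not_mem_nil, or_false, forall_eq_or_imp, forall_eq, word,
        if_true, Bool.false_eq_true, if_false, xF4, yF4, xH5, yH5, xH7, yH7, xH9, yH9, lie_neg,
        lie_nsmul, xE6, xE8, xE10, yE6, yE8, yF6, yF8, yF10, smul_zero, neg_zero, and_self]
    · simp only [W1, List.mem_cons, List.not_mem_nil, or_false, forall_eq_or_imp, forall_eq, word,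
        if_true, Bool.false_eq_true, if_false, xF4, xH5, yH5, xH7, yH7, xH9, yH9, lie_neg,
        lie_nsmul, yE6, yE8, yE10, xF6, xF8, xF10, smul_neg, neg_neg, and_self]
  have G := glob dat dat_global
  have hP : ∀ m ≤ 11, HP dat x y (F 4) m := fun m hm =>
    (all_sound G Hy 11 (fun n hn => by
      interval_cases n
      exacts [dat_chk0, dat_chk1, dat_chk2, dat_chk3, dat_chk4, dat_chk5, dat_chk6, dat_chk7,
        dat_chk8, dat_chk9, dat_chk10, dat_chk11]) m hm).1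
  refine ⟨?_, fun l hl => ⟨?_, ?_⟩⟩
  · have := word_zero G Hy hP (d := 4) (by norm_num) (v := Data.ez) G.dim4 _ (by simp) dat_goalH
    rw [lin_ez G] at this
    simp only [word, if_true, Bool.false_eq_true, if_false, xF4, xH5, xH7, xH9, lie_neg,
      lie_nsmul, yE6, yE8, yE10, smul_neg, neg_neg] at this
    have h2' : ∀ v : L, 2 • v = 0 → v = 0 := fun v hv => h6 v (by
      have : (6 : ℤ) • v = 3 • (2 • v) := by module
      rw [this, hv, smul_zero])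
    exact h2' _ (h2' _ (h2' _ this))
  · have h := List.all_eq_true.mp dat_goalX l (hl ▸ mem_lists l)
    have := word_zero G Hy hP (d := 1) (by norm_num) (v := Data.ey) (by rw [G.dim1]; simp [Data.ey])
      _ (by simp [hl]) h
    rw [lin_ey G, word_append] at this
    exact this
  · have h := List.all_eq_true.mp dat_goalY l (hl ▸ mem_lists l)
    have := word_zero G Hy hP (d := 1) (by norm_num) (v := Data.ex) (by rw [G.dim1]; simp [Data.ex])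
      _ (by simp [hl]) h
    rw [lin_ex G, word_append] at this
    exact this

end Pool.Agent.Lib.MP_0813d1_al
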