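import Mathlib

namespace Pool.Agent.Lib.MP_0813d1_al

open Polynomial

/-- truncated polynomial ring `F_p[w]/(w^N)` -/
abbrev Tr (p N : ℕ) : Type := AdjoinRoot ((X : (ZMod p)[X]) ^ N)

/-- the class of the variable -/
noncomputable def wv (p N : ℕ) : Tr p N := AdjoinRoot.root _

/-- the ideal `(w^n)` -/
noncomputable def Iw (p N n : ℕ) : Ideal (Tr p N) := Ideal.span {wv p N ^ n}

theorem wv_pow_self (p N : ℕ) : wv p N ^ N = 0 := by
  have := AdjoinRoot.eval₂_root ((X : (ZMod p)[X]) ^ N)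
  simpa [wv] using this

theorem wv_pow_of_le {p N n : ℕ} (h : N ≤ n) : wv p N ^ n = 0 := by
  obtain ⟨k, rfl⟩ := Nat.exists_eq_add_of_le h
  rw [pow_add, wv_pow_self, zero_mul]

/-- substitution `w ↦ u` for any `u` with `u ^ N = 0` -/
noncomputable def subst (p N : ℕ) {B : Type*} [CommRing B] [Algebra (ZMod p) B] (u : B)
    (hu : u ^ N = 0) : Tr p N →ₐ[ZMod p] B :=
  AdjoinRoot.liftAlgHom _ (Algebra.ofId (ZMod p) B) u (by simpa using hu)

@[simp] theorem subst_wv (p N : ℕ) {B : Type*} [CommRing B] [Algebra (ZMod p) B] (u : B)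
    (hu : u ^ N = 0) : subst p N u hu (wv p N) = u := by
  simp [subst, wv]

theorem tr_algHom_ext {p N : ℕ} {B : Type*} [CommRing B] [Algebra (ZMod p) B]
    {f g : Tr p N →ₐ[ZMod p] B} (h : f (wv p N) = g (wv p N)) : f = g :=
  AdjoinRoot.algHom_ext h

/-- the involution `w ↦ -w` -/
noncomputable def iota (p N : ℕ) : Tr p N →ₐ[ZMod p] Tr p N :=
  subst p N (-wv p N) (by rw [neg_pow, wv_pow_self, mul_zero])

@[simp] theorem iota_wv (p N : ℕ) : iota p N (wv p N) = -wv p N := by simp [iota]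

theorem iota_iota (p N : ℕ) (a : Tr p N) : iota p N (iota p N a) = a := by
  have : (iota p N).comp (iota p N) = AlgHom.id _ _ := tr_algHom_ext (by simp)
  exact DFunLike.congr_fun this a

theorem mem_Iw {p N n : ℕ} {a : Tr p N} : a ∈ Iw p N n ↔ ∃ b, a = wv p N ^ n * b := by
  simp only [Iw, Ideal.mem_span_singleton]
  rfl

theorem Iw_anti {p N m n : ℕ} (h : m ≤ n) : Iw p N n ≤ Iw p N m := by
  intro a ha
  obtain ⟨b, rfl⟩ := mem_Iw.1 ha
  obtain ⟨k, rfl⟩ := Nat.exists_eq_add_of_le h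
  exact mem_Iw.2 ⟨wv p N ^ k * b, by ring⟩

theorem mul_mem_Iw {p N m n : ℕ} {a b : Tr p N} (ha : a ∈ Iw p N m) (hb : b ∈ Iw p N n) :
    a * b ∈ Iw p N (m + n) := by
  obtain ⟨c, rfl⟩ := mem_Iw.1 ha
  obtain ⟨d, rfl⟩ := mem_Iw.1 hb
  exact mem_Iw.2 ⟨c * d, by ring⟩

theorem pow_mem_Iw {p N m : ℕ} {a : Tr p N} (ha : a ∈ Iw p N m) (k : ℕ) :
    a ^ k ∈ Iw p N (m * k) := by
  obtain ⟨c, rfl⟩ := mem_Iw.1 ha
  exact mem_Iw.2 ⟨c ^ k, by ring⟩

theorem wv_pow_mem_Iw (p N n : ℕ) : wv p N ^ n ∈ Iw p N n := mem_Iw.2 ⟨1, by ring⟩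

theorem eq_zero_of_mem_Iw {p N n : ℕ} (h : N ≤ n) {a : Tr p N} (ha : a ∈ Iw p N n) : a = 0 := by
  obtain ⟨c, rfl⟩ := mem_Iw.1 ha
  rw [wv_pow_of_le h, zero_mul]

theorem mk_mem_Iw {p N n : ℕ} (h : n ≤ N) (f : (ZMod p)[X]) :
    (AdjoinRoot.mk _ f : Tr p N) ∈ Iw p N n ↔ X ^ n ∣ f := by
  constructor
  · intro hf
    obtain ⟨b, hb⟩ := mem_Iw.1 hf
    obtain ⟨g, rfl⟩ := AdjoinRoot.mk_surjective b
    have h1 : (AdjoinRoot.mk ((X : (ZMod p)[X]) ^ N) (f - X ^ n * g)) = 0 := by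
      rw [map_sub, hb]; simp [wv]
    rw [AdjoinRoot.mk_eq_zero] at h1
    have h2 : (X : (ZMod p)[X]) ^ n ∣ f - X ^ n * g := (pow_dvd_pow _ h).trans h1
    have h3 := dvd_add h2 (dvd_mul_right (X ^ n) g)
    simpa using h3
  · rintro ⟨g, rfl⟩
    exact mem_Iw.2 ⟨AdjoinRoot.mk _ g, by simp [wv]⟩

theorem ann_Iw {p N i : ℕ} (h : i ≤ N) {a : Tr p N} (ha : wv p N ^ i * a = 0) :
    a ∈ Iw p N (N - i) := by
  obtain ⟨g, rfl⟩ := AdjoinRoot.mk_surjective a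
  rw [mk_mem_Iw (Nat.sub_le _ _)]
  have h1 : (AdjoinRoot.mk ((X : (ZMod p)[X]) ^ N) (X ^ i * g)) = 0 := by
    rw [← ha]; simp [wv]
  rw [AdjoinRoot.mk_eq_zero] at h1
  have h2 : (X : (ZMod p)[X]) ^ N = X ^ i * X ^ (N - i) := by
    rw [← pow_add]; congr 1; omega
  rw [h2] at h1
  exact (monic_X_pow i).isRegular.left.dvd_cancel_left.1 h1

instance instFiniteTr (p N : ℕ) [Fact p.Prime] : Finite (Tr p N) := by
  have : Module.Finite (ZMod p) (Tr p N) := (AdjoinRoot.powerBasis' (monic_X_pow N)).finite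
  exact Module.finite_of_finite (ZMod p)

end Pool.Agent.Lib.MP_0813d1_al
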