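import Mathlib
import Pool.Agent.Lib.MP_0813d1_al.Trunc

namespace Pool.Agent.Lib.MP_0813d1_al

open Polynomial

abbrev Mat (R : Type*) := Matrix (Fin 2) (Fin 2) R
abbrev Au (p N : ℕ) := Tr p N ≃ₐ[ZMod p] Tr p N

variable {p N : ℕ}

/-- all entries lie in `(w^n)` -/
def InI (n : ℕ) (X : Mat (Tr p N)) : Prop := ∀ r c, X r c ∈ Iw p N n

theorem InI.zero (n : ℕ) : InI n (0 : Mat (Tr p N)) := fun _ _ => Ideal.zero_mem _

theorem InI.add {n : ℕ} {X Y : Mat (Tr p N)} (hX : InI n X) (hY : InI n Y) : InI n (X + Y) :=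
  fun r c => Ideal.add_mem _ (hX r c) (hY r c)

theorem InI.neg {n : ℕ} {X : Mat (Tr p N)} (hX : InI n X) : InI n (-X) :=
  fun r c => neg_mem (hX r c)

theorem InI.sub {n : ℕ} {X Y : Mat (Tr p N)} (hX : InI n X) (hY : InI n Y) : InI n (X - Y) :=
  fun r c => Ideal.sub_mem _ (hX r c) (hY r c)

theorem InI.mono {m n : ℕ} {X : Mat (Tr p N)} (hX : InI n X) (h : m ≤ n) : InI m X :=
  fun r c => Iw_anti h (hX r c)

theorem InI.mul {m n : ℕ} {X Y : Mat (Tr p N)} (hX : InI m X) (hY : InI n Y) :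
    InI (m + n) (X * Y) := by
  intro r c
  rw [Matrix.mul_apply]
  exact Ideal.sum_mem _ fun k _ => mul_mem_Iw (hX r k) (hY k c)

theorem mem_Iw_zero (a : Tr p N) : a ∈ Iw p N 0 := mem_Iw.2 ⟨a, by simp⟩

theorem InI.zero_level (X : Mat (Tr p N)) : InI 0 X := fun _ _ => mem_Iw_zero _

theorem InI.mul_left {n : ℕ} {Y : Mat (Tr p N)} (X : Mat (Tr p N)) (hY : InI n Y) :
    InI n (X * Y) := by simpa using (InI.zero_level X).mul hY

theorem InI.mul_right {n : ℕ} {X : Mat (Tr p N)} (hX : InI n X) (Y : Mat (Tr p N)) :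
    InI n (X * Y) := by simpa using hX.mul (InI.zero_level Y)

theorem InI.pow {n : ℕ} {X : Mat (Tr p N)} (hX : InI n X) (k : ℕ) : InI (n * k) (X ^ k) := by
  induction k with
  | zero => exact InI.zero_level _
  | succ k ih => rw [pow_succ, Nat.mul_succ]; exact ih.mul hX

theorem InI.eq_zero {n : ℕ} {X : Mat (Tr p N)} (hX : InI n X) (h : N ≤ n) : X = 0 := by
  ext r c; exact eq_zero_of_mem_Iw h (hX r c)

theorem algHom_sub_mem {k : ℕ} (f : Tr p N →ₐ[ZMod p] Tr p N)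
    (h : f (wv p N) - wv p N ∈ Iw p N k) (a : Tr p N) : f a - a ∈ Iw p N k := by
  obtain ⟨g, rfl⟩ := AdjoinRoot.mk_surjective a
  induction g using Polynomial.induction_on with
  | C c =>
    have : (AdjoinRoot.mk ((X : (ZMod p)[X]) ^ N) (C c)) = algebraMap (ZMod p) (Tr p N) c := rfl
    rw [this, AlgHom.commutes]; simp
  | add g g' hg hg' =>
    rw [map_add, map_add]
    have := Ideal.add_mem _ hg hg'
    have e : ∀ a b c d : Tr p N, a + b - (c + d) = a - c + (b - d) := by intros; ring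
    rw [e]; exact this
  | monomial n c hn =>
    rw [pow_succ, ← mul_assoc, map_mul, map_mul]
    have hw : (AdjoinRoot.mk ((X : (ZMod p)[X]) ^ N) X) = wv p N := rfl
    rw [hw]
    set b := AdjoinRoot.mk ((X : (ZMod p)[X]) ^ N) (C c * X ^ n)
    have e : f b * f (wv p N) - b * wv p N =
        (f b - b) * f (wv p N) + b * (f (wv p N) - wv p N) := by ring
    rw [e]
    exact Ideal.add_mem _ (Ideal.mul_mem_right _ _ hn) (Ideal.mul_mem_left _ _ h)

theorem pow_sub_pow_mem {k : ℕ} (hk : 1 ≤ k) (u : Tr p N) (h : u - wv p N ∈ Iw p N k) (n : ℕ) :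
    u ^ (n + 1) - wv p N ^ (n + 1) ∈ Iw p N (n + k) := by
  have hu : u ∈ Iw p N 1 := by
    have := Ideal.add_mem _ (Iw_anti hk h) (wv_pow_mem_Iw p N 1)
    simpa using this
  induction n with
  | zero => simpa using h
  | succ n ih =>
    have e : u ^ (n + 1 + 1) - wv p N ^ (n + 1 + 1) =
        (u ^ (n + 1) - wv p N ^ (n + 1)) * u + wv p N ^ (n + 1) * (u - wv p N) := by ring
    rw [e]
    refine Ideal.add_mem _ ?_ (mul_mem_Iw (wv_pow_mem_Iw p N _) h)
    have := mul_mem_Iw ih hu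
    exact Iw_anti (by omega) this

theorem algHom_sub_mem' {k n : ℕ} (hk : 1 ≤ k) (f : Tr p N →ₐ[ZMod p] Tr p N)
    (h : f (wv p N) - wv p N ∈ Iw p N k) {a : Tr p N} (ha : a ∈ Iw p N (n + 1)) :
    f a - a ∈ Iw p N (n + k) := by
  obtain ⟨b, rfl⟩ := mem_Iw.1 ha
  have e : f (wv p N ^ (n + 1) * b) - wv p N ^ (n + 1) * b =
      (f (wv p N) ^ (n + 1) - wv p N ^ (n + 1)) * f b + wv p N ^ (n + 1) * (f b - b) := by
    rw [map_mul, map_pow]; ring
  rw [e]
  refine Ideal.add_mem _ (Ideal.mul_mem_right _ _ (pow_sub_pow_mem hk _ h n)) ?_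
  exact Iw_anti (by omega) (mul_mem_Iw (wv_pow_mem_Iw p N _) (algHom_sub_mem f h b))

theorem algHom_mem_Iw (f : Tr p N →ₐ[ZMod p] Tr p N) (h : f (wv p N) ∈ Iw p N 1) {n : ℕ}
    {a : Tr p N} (ha : a ∈ Iw p N n) : f a ∈ Iw p N n := by
  obtain ⟨b, rfl⟩ := mem_Iw.1 ha
  rw [map_mul, map_pow]
  exact Ideal.mul_mem_right _ _ (by simpa using pow_mem_Iw h n)

theorem natCast_p_eq_zero : ((p : ℕ) : Tr p N) = 0 := by
  have : ((p : ℕ) : Tr p N) = algebraMap (ZMod p) (Tr p N) ((p : ℕ) : ZMod p) :=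
    (map_natCast _ _).symm
  rw [this, ZMod.natCast_self, map_zero]

theorem add_pow_p [Fact p.Prime] (x y : Tr p N) : (x + y) ^ p = x ^ p + y ^ p := by
  obtain ⟨r, hr⟩ := exists_add_pow_prime_eq (Fact.out : p.Prime) x y
  rw [hr, natCast_p_eq_zero]; ring

theorem add_pow_q [Fact p.Prime] (a : ℕ) (x y : Tr p N) :
    (x + y) ^ p ^ a = x ^ p ^ a + y ^ p ^ a := by
  induction a with
  | zero => simp
  | succ a ih => rw [pow_succ, pow_mul, pow_mul, pow_mul, ih, add_pow_p]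

/-- the `q`-power map, `q = p^a` -/
noncomputable def phi (p N a : ℕ) [Fact p.Prime] : Tr p N →+* Tr p N where
  toFun x := x ^ p ^ a
  map_one' := one_pow _
  map_mul' _ _ := mul_pow _ _ _
  map_zero' := zero_pow (pow_ne_zero _ (Fact.out : p.Prime).ne_zero)
  map_add' := add_pow_q a

theorem phi_apply [Fact p.Prime] (a : ℕ) (x : Tr p N) : phi p N a x = x ^ p ^ a := rfl

theorem phi_mem [Fact p.Prime] (a : ℕ) {n : ℕ} {x : Tr p N} (h : x ∈ Iw p N n) :
    phi p N a x ∈ Iw p N (n * p ^ a) := pow_mem_Iw h _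

theorem exists_lead (n : ℕ) {a : Tr p N} (ha : a ∈ Iw p N n) :
    ∃ c : ZMod p, a - wv p N ^ n * algebraMap (ZMod p) (Tr p N) c ∈ Iw p N (n + 1) := by
  obtain ⟨b, rfl⟩ := mem_Iw.1 ha
  obtain ⟨g, rfl⟩ := AdjoinRoot.mk_surjective b
  refine ⟨g.coeff 0, mem_Iw.2 ⟨AdjoinRoot.mk _ g.divX, ?_⟩⟩
  have h1 : (AdjoinRoot.mk ((X : (ZMod p)[X]) ^ N) g) =
      wv p N * AdjoinRoot.mk _ g.divX + algebraMap (ZMod p) (Tr p N) (g.coeff 0) := by
    conv_lhs => rw [← X_mul_divX_add g]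
    rw [map_add, map_mul]; rfl
  rw [h1]; ring

theorem lead_eq_zero {n : ℕ} (hn : n < N) {c : ZMod p}
    (h : wv p N ^ n * algebraMap (ZMod p) (Tr p N) c ∈ Iw p N (n + 1)) : c = 0 := by
  have h1 : wv p N ^ n * algebraMap (ZMod p) (Tr p N) c =
      AdjoinRoot.mk ((X : (ZMod p)[X]) ^ N) (X ^ n * C c) := by
    rw [map_mul, map_pow]; rfl
  rw [h1, mk_mem_Iw hn, X_pow_dvd_iff] at h
  simpa using h n (by omega)

theorem isUnit_of_sub_one_mem {u : Tr p N} (h : u - 1 ∈ Iw p N 1) : IsUnit u := by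
  have h1 : IsNilpotent (u - 1) :=
    ⟨N, eq_zero_of_mem_Iw le_rfl (by simpa using pow_mem_Iw h N)⟩
  simpa using h1.isUnit_add_one

theorem iota_mem {n : ℕ} {a : Tr p N} (ha : a ∈ Iw p N n) : iota p N a ∈ Iw p N n :=
  algHom_mem_Iw _ (by simpa using neg_mem (wv_pow_mem_Iw p N 1)) ha

theorem iota_lead {n : ℕ} {a : Tr p N} {c : ZMod p}
    (h : a - wv p N ^ n * algebraMap (ZMod p) (Tr p N) c ∈ Iw p N (n + 1)) :
    iota p N a - (-1) ^ n * (wv p N ^ n * algebraMap (ZMod p) (Tr p N) c) ∈ Iw p N (n + 1) := by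
  have := iota_mem h
  rw [map_sub, map_mul, map_pow, iota_wv, AlgHom.commutes, neg_pow] at this
  simpa [mul_assoc] using this

theorem two_isUnit [Fact p.Prime] (hp : p ≠ 2) : IsUnit (2 : Tr p N) := by
  have h2 : (2 : ZMod p) ≠ 0 := by
    intro h
    have : ((2 : ℕ) : ZMod p) = 0 := by exact_mod_cast h
    rw [ZMod.natCast_eq_zero_iff] at this
    exact hp ((Nat.prime_dvd_prime_iff_eq Fact.out Nat.prime_two).1 this)
  have := (IsUnit.mk0 _ h2).map (algebraMap (ZMod p) (Tr p N))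
  simpa [map_ofNat] using this

theorem mem_of_two_mul_mem [Fact p.Prime] (hp : p ≠ 2) {n : ℕ} {a : Tr p N}
    (h : 2 * a ∈ Iw p N n) : a ∈ Iw p N n :=
  (Ideal.unit_mul_mem_iff_mem _ (two_isUnit hp)).1 h

/-- an element of parity opposite to `n` lying in `I_n` lies in `I_(n+1)` -/
theorem mem_succ_of_parity [Fact p.Prime] (hp : p ≠ 2) {n : ℕ} {a : Tr p N} (ha : a ∈ Iw p N n)
    (h : iota p N a = -((-1) ^ n * a)) : a ∈ Iw p N (n + 1) := by
  obtain ⟨c, hc⟩ := exists_lead n ha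
  have h1 := iota_lead hc
  rw [h] at h1
  have h2 := Ideal.mul_mem_left _ ((-1) ^ n) h1
  have h3 : ((-1 : Tr p N) ^ n) * (-1) ^ n = 1 := by rw [← mul_pow]; simp
  apply mem_of_two_mul_mem hp
  have e : 2 * a = (a - wv p N ^ n * algebraMap (ZMod p) (Tr p N) c) -
      (-1) ^ n * (-((-1) ^ n * a) - (-1) ^ n * (wv p N ^ n * algebraMap (ZMod p) (Tr p N) c)) := by
    linear_combination (-(a + wv p N ^ n * algebraMap (ZMod p) (Tr p N) c)) * h3
  rw [e]
  exact Ideal.sub_mem _ hc h2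

theorem bijective_of_level_two [Fact p.Prime] (f : Tr p N →ₐ[ZMod p] Tr p N)
    (h : f (wv p N) - wv p N ∈ Iw p N 2) : Function.Bijective f := by
  rw [← Finite.injective_iff_bijective, injective_iff_map_eq_zero]
  intro a ha
  have key : ∀ n, a ∈ Iw p N (n + 1) := by
    intro n
    induction n with
    | zero =>
      have := algHom_sub_mem f h a
      rw [ha, zero_sub] at this
      exact Iw_anti (by omega) (neg_mem_iff.1 this)
    | succ n ih =>
      have := algHom_sub_mem' (by omega) f h ih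
      rw [ha, zero_sub] at this
      exact neg_mem_iff.1 this
  exact eq_zero_of_mem_Iw (Nat.le_succ N) (key N)

/-- reduction `Tr p N → Tr p M` -/
noncomputable def red (p : ℕ) {N M : ℕ} (h : M ≤ N) : Tr p N →ₐ[ZMod p] Tr p M :=
  subst p N (wv p M) (wv_pow_of_le h)

@[simp] theorem red_wv {M : ℕ} (h : M ≤ N) : red p h (wv p N) = wv p M := by simp [red]

theorem red_mk {M : ℕ} (h : M ≤ N) (g : (ZMod p)[X]) :
    red p h (AdjoinRoot.mk _ g) = AdjoinRoot.mk _ g := by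
  induction g using Polynomial.induction_on with
  | C c => exact (red p h).commutes c
  | add g g' hg hg' => rw [map_add, map_add, map_add, hg, hg']
  | monomial n c hn =>
    rw [pow_succ, ← mul_assoc, map_mul, map_mul, hn, map_mul (AdjoinRoot.mk _) (C c * X ^ n)]
    congr 1
    exact red_wv h

theorem red_surjective {M : ℕ} (h : M ≤ N) : Function.Surjective (red p h) := by
  intro b
  obtain ⟨g, rfl⟩ := AdjoinRoot.mk_surjective b
  exact ⟨_, red_mk h g⟩

theorem red_mem_iff {M : ℕ} (h : M ≤ N) {i : ℕ} (hi : i ≤ M) (a : Tr p N) :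
    red p h a ∈ Iw p M i ↔ a ∈ Iw p N i := by
  obtain ⟨g, rfl⟩ := AdjoinRoot.mk_surjective a
  rw [red_mk, mk_mem_Iw hi, mk_mem_Iw (hi.trans h)]

theorem red_eq_zero {M : ℕ} (h : M ≤ N) {i : ℕ} (hi : M ≤ i) {a : Tr p N} (ha : a ∈ Iw p N i) :
    red p h a = 0 :=
  eq_zero_of_mem_Iw le_rfl ((red_mem_iff h le_rfl a).2 (Iw_anti hi ha))

theorem red_iota {M : ℕ} (h : M ≤ N) (a : Tr p N) :
    red p h (iota p N a) = iota p M (red p h a) := by
  have : (red p h).comp (iota p N) = (iota p M).comp (red p h) := tr_algHom_ext (by simp)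
  exact DFunLike.congr_fun this a

theorem exists_odd_lift [Fact p.Prime] (hp : p ≠ 2) {M : ℕ} (h : M ≤ N) {i : ℕ} {b : Tr p M}
    (hb : b ∈ Iw p M i) (hodd : iota p M b = -b) :
    ∃ a ∈ Iw p N i, iota p N a = -a ∧ red p h a = b := by
  obtain ⟨c, rfl⟩ := mem_Iw.1 hb
  obtain ⟨c, rfl⟩ := red_surjective h c
  obtain ⟨k, hk⟩ := (two_isUnit (N := N) hp).exists_left_inv
  have hk' : iota p N k = k := by
    have h1 : iota p N k * 2 = 1 := by
      have := congrArg (iota p N) hk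
      simpa [map_ofNat] using this
    linear_combination k * h1 - iota p N k * hk
  have hm : wv p N ^ i * c ∈ Iw p N i := mem_Iw.2 ⟨c, rfl⟩
  refine ⟨k * (wv p N ^ i * c - iota p N (wv p N ^ i * c)),
    Ideal.mul_mem_left _ _ (Ideal.sub_mem _ hm (iota_mem hm)), ?_, ?_⟩
  · rw [map_mul, map_sub, iota_iota, hk']; ring
  · have h1 : red p h k * 2 = 1 := by
      have := congrArg (red p h) hk
      simpa [map_ofNat] using this
    have h2 : red p h (wv p N ^ i * c) = wv p M ^ i * red p h c := by simp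
    rw [map_mul, map_sub, red_iota, h2, hodd]
    linear_combination (wv p M ^ i * red p h c) * h1

theorem exists_even_lift [Fact p.Prime] (hp : p ≠ 2) {M : ℕ} (h : M ≤ N) {i : ℕ} {b : Tr p M}
    (hb : b ∈ Iw p M i) (hev : iota p M b = b) :
    ∃ a ∈ Iw p N i, iota p N a = a ∧ red p h a = b := by
  obtain ⟨c, rfl⟩ := mem_Iw.1 hb
  obtain ⟨c, rfl⟩ := red_surjective h c
  obtain ⟨k, hk⟩ := (two_isUnit (N := N) hp).exists_left_inv
  have hk' : iota p N k = k := by
    have h1 : iota p N k * 2 = 1 := by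
      have := congrArg (iota p N) hk
      simpa [map_ofNat] using this
    linear_combination k * h1 - iota p N k * hk
  have hm : wv p N ^ i * c ∈ Iw p N i := mem_Iw.2 ⟨c, rfl⟩
  refine ⟨k * (wv p N ^ i * c + iota p N (wv p N ^ i * c)),
    Ideal.mul_mem_left _ _ (Ideal.add_mem _ hm (iota_mem hm)), ?_, ?_⟩
  · rw [map_mul, map_add, iota_iota, hk']; ring
  · have h1 : red p h k * 2 = 1 := by
      have := congrArg (red p h) hk
      simpa [map_ofNat] using this
    have h2 : red p h (wv p N ^ i * c) = wv p M ^ i * red p h c := by simp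
    rw [map_mul, map_add, red_iota, h2, hev]
    linear_combination (wv p M ^ i * red p h c) * h1

end Pool.Agent.Lib.MP_0813d1_al
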