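import Mathlib
import Pool.Agent.Lib.MP_0813d1_al.Model1

namespace Pool.Agent.Lib.MP_0813d1_al

open scoped commutatorElement

variable {p N : ℕ}

/-- `SL_2(A) ⋊ Aut(A)` -/
@[ext] structure TM (p N : ℕ) where
  m : Mat (Tr p N)
  g : Au p N
  det : m.det = 1

theorem map_det_au (g : Au p N) (X : Mat (Tr p N)) : (g.mapMatrix X).det = g X.det := by
  simp [Matrix.det_fin_two]

theorem mapMatrix_mul_apply (g g' : Au p N) (X : Mat (Tr p N)) :
    (g * g').mapMatrix X = g.mapMatrix (g'.mapMatrix X) := by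
  ext r c; simp

theorem mapMatrix_one_apply (X : Mat (Tr p N)) : (1 : Au p N).mapMatrix X = X := by
  ext r c; simp

noncomputable instance : Mul (TM p N) where
  mul u v := ⟨u.m * u.g.mapMatrix v.m, u.g * v.g, by
    rw [Matrix.det_mul, map_det_au, u.det, v.det]; simp⟩

noncomputable instance : One (TM p N) where
  one := ⟨1, 1, Matrix.det_one⟩

noncomputable instance : Inv (TM p N) where
  inv u := ⟨(u.g⁻¹).mapMatrix u.m.adjugate, u.g⁻¹, by
    rw [map_det_au, Matrix.det_adjugate, u.det]; simp⟩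

theorem TM.mul_m (u v : TM p N) : (u * v).m = u.m * u.g.mapMatrix v.m := rfl
theorem TM.mul_g (u v : TM p N) : (u * v).g = u.g * v.g := rfl
theorem TM.one_m : (1 : TM p N).m = 1 := rfl
theorem TM.one_g : (1 : TM p N).g = 1 := rfl
theorem TM.inv_m (u : TM p N) : (u⁻¹).m = (u.g⁻¹).mapMatrix u.m.adjugate := rfl
theorem TM.inv_g (u : TM p N) : (u⁻¹).g = u.g⁻¹ := rfl

theorem TM.adj_mul (u : TM p N) : u.m.adjugate * u.m = 1 := by
  rw [Matrix.adjugate_mul, u.det, one_smul]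

theorem TM.mul_adj (u : TM p N) : u.m * u.m.adjugate = 1 := by
  rw [Matrix.mul_adjugate, u.det, one_smul]

noncomputable instance : Group (TM p N) := Group.ofLeftAxioms
  (fun u v z => TM.ext
    (by simp only [TM.mul_m, TM.mul_g, map_mul, mapMatrix_mul_apply, mul_assoc])
    (by simp only [TM.mul_g, mul_assoc]))
  (fun u => TM.ext (by simp only [TM.mul_m, TM.one_m, TM.one_g, mapMatrix_one_apply, one_mul])
    (by simp only [TM.mul_g, TM.one_g, one_mul]))
  (fun u => TM.ext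
    (by simp only [TM.mul_m, TM.inv_m, TM.inv_g, TM.one_m]
        rw [← map_mul, u.adj_mul, map_one])
    (by simp only [TM.mul_g, TM.inv_g, TM.one_g, inv_mul_cancel]))

variable [Fact p.Prime]

structure IsQ (a : ℕ) (u : TM p N) : Prop where
  lev : InI 1 (u.m - 1)
  p00 : iota p N (u.m 0 0) = u.m 0 0
  p01 : iota p N (u.m 0 1) = -u.m 0 1
  p10 : iota p N (u.m 1 0) = -u.m 1 0
  p11 : iota p N (u.m 1 1) = u.m 1 1
  gi : ∀ x, u.g (iota p N x) = iota p N (u.g x)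
  gw : u.g (wv p N) ∈ Iw p N 1
  eq : phi p N a (u.m 0 0) * u.g (wv p N) + phi p N a (u.m 0 1) =
    wv p N * (phi p N a (u.m 1 0) * u.g (wv p N) + phi p N a (u.m 1 1))

theorem au_phi (a : ℕ) (g : Au p N) (x : Tr p N) : g (phi p N a x) = phi p N a (g x) := by
  simp [phi_apply]

omit [Fact p.Prime] in
theorem InI.map {n : ℕ} {X : Mat (Tr p N)} (hX : InI n X) (g : Au p N)
    (hg : g (wv p N) ∈ Iw p N 1) : InI n (g.mapMatrix X) :=
  fun r c => algHom_mem_Iw (g : Tr p N →ₐ[ZMod p] Tr p N) hg (hX r c)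

omit [Fact p.Prime] in
theorem InI.mul_sub_one {n : ℕ} {X Y : Mat (Tr p N)} (hX : InI n (X - 1)) (hY : InI n (Y - 1)) :
    InI n (X * Y - 1) := by
  have e : X * Y - 1 = (X - 1) * Y + (Y - 1) := by noncomm_ring
  rw [e]; exact (hX.mul_right _).add hY

omit [Fact p.Prime] in
theorem InI.map_sub_one {n : ℕ} {X : Mat (Tr p N)} (hX : InI n (X - 1)) (g : Au p N)
    (hg : g (wv p N) ∈ Iw p N 1) : InI n (g.mapMatrix X - 1) := by
  have := hX.map g hg
  rwa [map_sub, map_one] at this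

theorem IsQ.mul {a : ℕ} {u v : TM p N} (hu : IsQ a u) (hv : IsQ a v) : IsQ a (u * v) where
  lev := hu.lev.mul_sub_one (hv.lev.map_sub_one _ hu.gw)
  p00 := by
    simp [TM.mul_m, Matrix.mul_apply, ← hu.gi, hu.p00, hu.p01, hv.p00, hv.p10]
  p01 := by
    simp [TM.mul_m, Matrix.mul_apply, ← hu.gi, hu.p00, hu.p01, hv.p01, hv.p11]; ring
  p10 := by
    simp [TM.mul_m, Matrix.mul_apply, ← hu.gi, hu.p10, hu.p11, hv.p00, hv.p10]; ring
  p11 := by
    simp [TM.mul_m, Matrix.mul_apply, ← hu.gi, hu.p10, hu.p11, hv.p01, hv.p11]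
  gi := fun x => by simp [TM.mul_g, hu.gi, hv.gi]
  gw := by
    rw [TM.mul_g, AlgEquiv.mul_apply]
    exact algHom_mem_Iw (u.g : Tr p N →ₐ[ZMod p] Tr p N) hu.gw hv.gw
  eq := by
    have h1 := congrArg u.g hv.eq
    simp only [map_add, map_mul, au_phi] at h1
    have h2 := hu.eq
    simp only [TM.mul_m, TM.mul_g, Matrix.mul_apply, Fin.sum_univ_two, AlgEquiv.mapMatrix_apply,
      Matrix.map_apply, map_add, map_mul, AlgEquiv.mul_apply]
    linear_combination (phi p N a (u.m 0 0) - wv p N * phi p N a (u.m 1 0)) * h1 +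
      (phi p N a (u.g (v.m 1 0)) * u.g (v.g (wv p N)) + phi p N a (u.g (v.m 1 1))) * h2

theorem IsQ.one (a : ℕ) : IsQ a (1 : TM p N) where
  lev := by rw [TM.one_m, sub_self]; exact InI.zero _
  p00 := by simp [TM.one_m]
  p01 := by simp [TM.one_m]
  p10 := by simp [TM.one_m]
  p11 := by simp [TM.one_m]
  gi := fun x => by simp [TM.one_g]
  gw := by simpa [TM.one_g] using wv_pow_mem_Iw p N 1
  eq := by simp [TM.one_m, TM.one_g]

theorem IsQ.pow {a : ℕ} {u : TM p N} (hu : IsQ a u) (k : ℕ) : IsQ a (u ^ k) := by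
  induction k with
  | zero => simpa using IsQ.one a
  | succ k ih => rw [pow_succ]; exact ih.mul hu

instance : Finite (Au p N) :=
  Finite.of_injective (fun g : Au p N => (g : Tr p N → Tr p N)) DFunLike.coe_injective

instance : Finite (TM p N) :=
  Finite.of_injective (fun u : TM p N => (u.m, u.g)) fun _ _ h =>
    TM.ext (congrArg Prod.fst h) (congrArg Prod.snd h)

theorem IsQ.inv {a : ℕ} {u : TM p N} (hu : IsQ a u) : IsQ a u⁻¹ := by
  have h1 : u⁻¹ = u ^ (orderOf u - 1) := by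
    rw [inv_eq_iff_mul_eq_one, ← pow_succ', Nat.sub_add_cancel (orderOf_pos u), pow_orderOf_eq_one]
  rw [h1]; exact hu.pow _

/-- the model group -/
def Qs (p N a : ℕ) [Fact p.Prime] : Subgroup (TM p N) where
  carrier := {u | IsQ a u}
  mul_mem' := IsQ.mul
  one_mem' := IsQ.one a
  inv_mem' := IsQ.inv

variable {a : ℕ}

theorem Qs.isQ (u : Qs p N a) : IsQ a u.1 := u.2

omit [Fact p.Prime] in
theorem InI.adj_sub_one {n : ℕ} {u : TM p N} (h : InI n (u.m - 1)) :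
    InI n (u.m.adjugate - 1) := by
  have e : u.m.adjugate - 1 = -(u.m.adjugate * (u.m - 1)) := by
    rw [mul_sub, u.adj_mul]; noncomm_ring
  rw [e]; exact (h.mul_left _).neg

/-- the congruence filtration -/
def Qn (p N a : ℕ) [Fact p.Prime] (n : ℕ) : Subgroup (Qs p N a) where
  carrier := {u | InI n (u.1.m - 1)}
  mul_mem' := fun {u v} hu hv => InI.mul_sub_one hu (InI.map_sub_one hv _ (Qs.isQ u).gw)
  one_mem' := by
    change InI n ((1 : TM p N).m - 1)
    rw [TM.one_m, sub_self]; exact InI.zero _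
  inv_mem' := fun {u} hu => InI.map_sub_one (InI.adj_sub_one hu) _ (Qs.isQ u⁻¹).gw

theorem mem_Qn {n : ℕ} {u : Qs p N a} : u ∈ Qn p N a n ↔ InI n (u.1.m - 1) := Iff.rfl

theorem mem_Qn_one (u : Qs p N a) : u ∈ Qn p N a 1 := (Qs.isQ u).lev

theorem Qn_anti {m n : ℕ} (h : m ≤ n) : Qn p N a n ≤ Qn p N a m := fun _ hu => InI.mono hu h

theorem Qn_gw {i : ℕ} {u : Qs p N a} (hu : u ∈ Qn p N a i) :
    u.1.g (wv p N) - wv p N ∈ Iw p N (i * p ^ a) := by
  have h := (Qs.isQ u).eq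
  have h00 := phi_mem a (hu 0 0)
  have h01 := phi_mem a (hu 0 1)
  have h10 := phi_mem a (hu 1 0)
  have h11 := phi_mem a (hu 1 1)
  simp only [Matrix.sub_apply, Matrix.one_apply_eq, map_sub, map_one, ne_eq, zero_ne_one,
    not_false_eq_true, Matrix.one_apply_ne, sub_zero, one_ne_zero] at h00 h01 h10 h11
  have e : u.1.g (wv p N) - wv p N =
      -(u.1.g (wv p N)) * (phi p N a (u.1.m 0 0) - 1) - phi p N a (u.1.m 0 1) +
        (wv p N * u.1.g (wv p N)) * phi p N a (u.1.m 1 0) +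
        wv p N * (phi p N a (u.1.m 1 1) - 1) := by
    linear_combination h
  rw [e]
  exact Ideal.add_mem _ (Ideal.add_mem _ (Ideal.sub_mem _ (Ideal.mul_mem_left _ _ h00) h01)
    (Ideal.mul_mem_left _ _ h10)) (Ideal.mul_mem_left _ _ h11)

theorem one_le_q : 1 ≤ p ^ a := Nat.one_le_pow _ _ (Fact.out : p.Prime).pos

theorem Qn_twist {i n : ℕ} (hi : 1 ≤ i) {u : Qs p N a} (hu : u ∈ Qn p N a i) {X : Mat (Tr p N)}
    (hX : InI (n + 1) X) : InI (n + i * p ^ a) (u.1.g.mapMatrix X - X) := fun r c =>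
  algHom_sub_mem' (Nat.mul_pos hi one_le_q) (u.1.g : Tr p N →ₐ[ZMod p] Tr p N) (Qn_gw hu) (hX r c)

theorem Qn_twist' {i n : ℕ} (hi : 1 ≤ i) {u : Qs p N a} (hu : u ∈ Qn p N a i) {X : Mat (Tr p N)}
    (hX : InI (n + 1) (X - 1)) : InI (n + i * p ^ a) (u.1.g.mapMatrix X - X) := by
  have := Qn_twist hi hu hX
  rwa [map_sub, map_one, sub_sub_sub_cancel_right] at this

theorem eq_one_of_mem_Qn {n : ℕ} (hn : N ≤ n) {u : Qs p N a} (hu : u ∈ Qn p N a n) : u = 1 := by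
  have h1 : u.1.m = 1 := sub_eq_zero.1 (InI.eq_zero hu hn)
  have h2 := Qn_gw hu
  have h3 : u.1.g (wv p N) = wv p N :=
    sub_eq_zero.1 (eq_zero_of_mem_Iw (hn.trans (Nat.le_mul_of_pos_right _ one_le_q)) h2)
  have h4 : (u.1.g : Tr p N →ₐ[ZMod p] Tr p N) = AlgHom.id _ _ := tr_algHom_ext h3
  refine Subtype.ext (TM.ext h1 ?_)
  ext x
  exact DFunLike.congr_fun h4 x

/-- `w^i • M` -/
noncomputable def cM (N i : ℕ) (M : Mat (ZMod p)) : Mat (Tr p N) :=
  wv p N ^ i • M.map (algebraMap (ZMod p) (Tr p N))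

theorem cM_apply (i : ℕ) (M : Mat (ZMod p)) (r c : Fin 2) :
    cM N i M r c = wv p N ^ i * algebraMap (ZMod p) (Tr p N) (M r c) := rfl

theorem cM_mem (i : ℕ) (M : Mat (ZMod p)) : InI i (cM N i M) := fun _ _ => mem_Iw.2 ⟨_, rfl⟩

theorem cM_zero (i : ℕ) : cM N i (0 : Mat (ZMod p)) = 0 := by
  ext r c; simp [cM_apply]

theorem cM_add (i : ℕ) (M M' : Mat (ZMod p)) : cM N i (M + M') = cM N i M + cM N i M' := by
  ext r c; simp [cM_apply, mul_add]

theorem cM_neg (i : ℕ) (M : Mat (ZMod p)) : cM N i (-M) = -cM N i M := by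
  ext r c; simp [cM_apply]

theorem cM_sub (i : ℕ) (M M' : Mat (ZMod p)) : cM N i (M - M') = cM N i M - cM N i M' := by
  ext r c; simp [cM_apply, mul_sub]

theorem cM_mul (i j : ℕ) (M M' : Mat (ZMod p)) :
    cM N (i + j) (M * M') = cM N i M * cM N j M' := by
  ext r c; simp [cM_apply, Matrix.mul_apply]; ring

/-- `u = 1 + w^i M` modulo `w^(i+1)` -/
def Lead (i : ℕ) (u : Qs p N a) (M : Mat (ZMod p)) : Prop := InI (i + 1) (u.1.m - 1 - cM N i M)

theorem Lead.mem {i : ℕ} {u : Qs p N a} {M : Mat (ZMod p)} (h : Lead i u M) : u ∈ Qn p N a i := by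
  have := (InI.mono h (Nat.le_succ i)).add (cM_mem i M)
  rwa [sub_add_cancel] at this

theorem lead_zero_iff {i : ℕ} {u : Qs p N a} : Lead i u 0 ↔ u ∈ Qn p N a (i + 1) := by
  rw [Lead, cM_zero, sub_zero]; rfl

theorem Lead.mul (hq : 2 ≤ p ^ a) {i : ℕ} (hi : 1 ≤ i) {u v : Qs p N a} {M M' : Mat (ZMod p)}
    (hu : Lead i u M) (hv : Lead i v M') : Lead i (u * v) (M + M') := by
  obtain ⟨k, rfl⟩ : ∃ k, i = k + 1 := ⟨i - 1, by omega⟩
  have h1 : InI (k + 1 + 1) (u.1.g.mapMatrix v.1.m - v.1.m) :=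
    (Qn_twist' hi hu.mem hv.mem).mono (by nlinarith)
  have h2 : InI (k + 1 + 1) ((u.1.m - 1) * (u.1.g.mapMatrix v.1.m - 1)) :=
    (InI.mul hu.mem (InI.map_sub_one hv.mem _ (Qs.isQ u).gw)).mono (by omega)
  have e : (u * v).1.m - 1 - cM N (k + 1) (M + M') =
      (u.1.m - 1) * (u.1.g.mapMatrix v.1.m - 1) + (u.1.g.mapMatrix v.1.m - v.1.m) +
        (u.1.m - 1 - cM N (k + 1) M) + (v.1.m - 1 - cM N (k + 1) M') := by
    rw [cM_add, Subgroup.coe_mul, TM.mul_m]; noncomm_ring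
  unfold Lead
  rw [e]
  exact ((h2.add h1).add hu).add hv

theorem exists_lead_mat {i : ℕ} {u : Qs p N a} (hu : u ∈ Qn p N a i) : ∃ M, Lead i u M := by
  choose f hf using fun r c => exists_lead i (hu r c)
  exact ⟨Matrix.of f, fun r c => hf r c⟩

theorem Lead.unique {i : ℕ} (hi : i < N) {u : Qs p N a} {M M' : Mat (ZMod p)}
    (h : Lead i u M) (h' : Lead i u M') : M = M' := by
  have h1 := InI.sub h' h
  rw [sub_sub_sub_cancel_left, ← cM_sub] at h1
  ext r c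
  exact sub_eq_zero.1 (lead_eq_zero hi (h1 r c))

theorem Lead.congr {i : ℕ} {u : Qs p N a} {M M' : Mat (ZMod p)} (h : Lead i u M) (e : M = M') :
    Lead i u M' := e ▸ h

theorem Lead.of_sub {i : ℕ} {u : Qs p N a} {M M' : Mat (ZMod p)} (h : Lead i u M)
    (e : InI (i + 1) (cM N i (M - M'))) : Lead i u M' := by
  have := InI.add h e
  rw [cM_sub] at this
  have e2 : u.1.m - 1 - cM N i M + (cM N i M - cM N i M') = u.1.m - 1 - cM N i M' := by abel
  rwa [e2] at this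

theorem Lead.one (i : ℕ) : Lead i (1 : Qs p N a) 0 := lead_zero_iff.2 (one_mem _)

theorem Lead.inv (hq : 2 ≤ p ^ a) {i : ℕ} (hi : 1 ≤ i) {u : Qs p N a} {M : Mat (ZMod p)}
    (hu : Lead i u M) : Lead i u⁻¹ (-M) := by
  obtain ⟨M', hM'⟩ := exists_lead_mat (inv_mem hu.mem)
  have h1 := Lead.mul hq hi hM' hu
  rw [inv_mul_cancel] at h1
  have h2 := InI.sub (Lead.one (p := p) (N := N) (a := a) i) h1
  rw [sub_sub_sub_cancel_left, cM_zero, sub_zero] at h2
  exact hM'.of_sub (by rwa [sub_neg_eq_add])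

theorem Lead.pow (hq : 2 ≤ p ^ a) {i : ℕ} (hi : 1 ≤ i) {u : Qs p N a} {M : Mat (ZMod p)}
    (hu : Lead i u M) (k : ℕ) : Lead i (u ^ k) (k • M) := by
  induction k with
  | zero => simpa using Lead.one i
  | succ k ih => rw [pow_succ, succ_nsmul]; exact ih.mul hq hi hu

theorem Lead.div_mem (hq : 2 ≤ p ^ a) {i : ℕ} (hi : 1 ≤ i) {u v : Qs p N a} {M : Mat (ZMod p)}
    (hu : Lead i u M) (hv : Lead i v M) : u⁻¹ * v ∈ Qn p N a (i + 1) := by
  have := (hu.inv hq hi).mul hq hi hv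
  rw [neg_add_cancel] at this
  exact lead_zero_iff.1 this

theorem lead_comm' (hq : 3 ≤ p ^ a) {i j : ℕ} (hi : 1 ≤ i) (hj : 1 ≤ j) {u v : Qs p N a}
    {M M' : Mat (ZMod p)} (hu : Lead i u M) (hv : Lead j v M') :
    Lead (i + j) ((v * u)⁻¹ * (u * v)) (M * M' - M' * M) := by
  obtain ⟨k, rfl⟩ : ∃ k, i = k + 1 := ⟨i - 1, by omega⟩
  obtain ⟨l, rfl⟩ : ∃ l, j = l + 1 := ⟨j - 1, by omega⟩
  set P := (u * v).1.m with hP
  set P' := (v * u).1.m with hP'
  set n := k + 1 + (l + 1) with hn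
  have h1 : InI (n + 1) (u.1.g.mapMatrix v.1.m - v.1.m) :=
    (Qn_twist' hi hu.mem hv.mem).mono (by nlinarith)
  have h2 : InI (n + 1) (v.1.g.mapMatrix u.1.m - u.1.m) :=
    (Qn_twist' hj hv.mem hu.mem).mono (by nlinarith)
  have h3 : InI (n + 1) ((u.1.m - 1 - cM N (k + 1) M) * (v.1.m - 1)) :=
    (InI.mul hu hv.mem).mono (by omega)
  have h4 : InI (n + 1) (cM N (k + 1) M * (v.1.m - 1 - cM N (l + 1) M')) :=
    (InI.mul (cM_mem _ _) hv).mono (by omega)
  have h5 : InI (n + 1) ((v.1.m - 1 - cM N (l + 1) M') * (u.1.m - 1)) :=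
    (InI.mul hv hu.mem).mono (by omega)
  have h6 : InI (n + 1) (cM N (l + 1) M' * (u.1.m - 1 - cM N (k + 1) M)) :=
    (InI.mul (cM_mem _ _) hu).mono (by omega)
  have hC : cM N n (M * M' - M' * M) =
      cM N (k + 1) M * cM N (l + 1) M' - cM N (l + 1) M' * cM N (k + 1) M := by
    rw [cM_sub, hn, cM_mul, add_comm (k + 1), cM_mul]
  have hD : InI (n + 1) (P - P' - cM N n (M * M' - M' * M)) := by
    have e : P - P' - cM N n (M * M' - M' * M) =
        u.1.m * (u.1.g.mapMatrix v.1.m - v.1.m) - v.1.m * (v.1.g.mapMatrix u.1.m - u.1.m) +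
          ((u.1.m - 1 - cM N (k + 1) M) * (v.1.m - 1) +
            cM N (k + 1) M * (v.1.m - 1 - cM N (l + 1) M')) -
          ((v.1.m - 1 - cM N (l + 1) M') * (u.1.m - 1) +
            cM N (l + 1) M' * (u.1.m - 1 - cM N (k + 1) M)) := by
      rw [hC, hP, hP', Subgroup.coe_mul, Subgroup.coe_mul, TM.mul_m, TM.mul_m]; noncomm_ring
    rw [e]
    exact (((h1.mul_left _).sub (h2.mul_left _)).add (h3.add h4)).sub (h5.add h6)
  have hD' : InI n (P - P') := by
    have := (hD.mono (Nat.le_succ n)).add (cM_mem n (M * M' - M' * M))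
    rwa [sub_add_cancel] at this
  have hA : InI 1 (P'.adjugate - 1) := InI.adj_sub_one (mem_Qn_one (v * u))
  have hAP : P'.adjugate * P' = 1 := (v * u).1.adj_mul
  have hX : InI (n + 1) (P'.adjugate * P - 1 - cM N n (M * M' - M' * M)) := by
    have e : P'.adjugate * P - 1 - cM N n (M * M' - M' * M) =
        (P'.adjugate - 1) * (P - P') + (P - P' - cM N n (M * M' - M' * M)) := by
      rw [← hAP]; noncomm_ring [hAP]
    rw [e]
    exact ((hA.mul hD').mono (by omega)).add hD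
  have hX' : InI (k + 1 + l + 1) (P'.adjugate * P - 1) := by
    have := (hX.mono (Nat.le_succ n)).add (cM_mem n (M * M' - M' * M))
    rw [sub_add_cancel] at this
    exact this.mono (by omega)
  have hT : InI (n + 1) (((v * u)⁻¹).1.g.mapMatrix (P'.adjugate * P) - P'.adjugate * P) :=
    (Qn_twist' le_rfl (mem_Qn_one ((v * u)⁻¹)) hX').mono (by omega)
  have e : ((v * u)⁻¹ * (u * v)).1.m - 1 - cM N n (M * M' - M' * M) =
      (((v * u)⁻¹).1.g.mapMatrix (P'.adjugate * P) - P'.adjugate * P) +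
        (P'.adjugate * P - 1 - cM N n (M * M' - M' * M)) := by
    rw [Subgroup.coe_mul, TM.mul_m, map_mul]
    have : ((v * u)⁻¹).1.m = ((v * u)⁻¹).1.g.mapMatrix P'.adjugate := rfl
    rw [this]; abel
  unfold Lead
  rw [e]
  exact hT.add hX

theorem Lead.comm (hq : 3 ≤ p ^ a) {i j : ℕ} (hi : 1 ≤ i) (hj : 1 ≤ j) {u v : Qs p N a}
    {M M' : Mat (ZMod p)} (hu : Lead i u M) (hv : Lead j v M') :
    Lead (i + j) ⁅u, v⁆ (M * M' - M' * M) := by
  have := lead_comm' hq hi hj (hu.inv (by omega) hi) (hv.inv (by omega) hj)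
  have e : (v⁻¹ * u⁻¹)⁻¹ * (u⁻¹ * v⁻¹) = ⁅u, v⁆ := by rw [commutatorElement_def]; group
  rw [e] at this
  exact this.congr (by noncomm_ring)

theorem comm_mem_Qn (hq : 3 ≤ p ^ a) {i j : ℕ} (hi : 1 ≤ i) (hj : 1 ≤ j) {u v : Qs p N a}
    (hu : u ∈ Qn p N a i) (hv : v ∈ Qn p N a j) : ⁅u, v⁆ ∈ Qn p N a (i + j) := by
  obtain ⟨M, hM⟩ := exists_lead_mat hu
  obtain ⟨M', hM'⟩ := exists_lead_mat hv
  exact (hM.comm hq hi hj hM').mem

theorem Qn_normal (hq : 3 ≤ p ^ a) (i : ℕ) : (Qn p N a i).Normal := by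
  refine ⟨fun u hu v => ?_⟩
  rcases Nat.eq_zero_or_pos i with rfl | hi
  · exact Qn_anti (Nat.zero_le 1) (mem_Qn_one _)
  · have h1 := comm_mem_Qn hq le_rfl hi (mem_Qn_one v) hu
    have e : v * u * v⁻¹ = ⁅v, u⁆ * u := by rw [commutatorElement_def]; group
    rw [e]
    exact mul_mem (Qn_anti (by omega) h1) hu

theorem pow_m_sub {i : ℕ} (hi : 1 ≤ i) {u : Qs p N a} (hu : u ∈ Qn p N a i) (k : ℕ) :
    InI (i - 1 + i * p ^ a) ((u ^ k).1.m - u.1.m ^ k) := by
  induction k with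
  | zero => simpa [TM.one_m] using InI.zero _
  | succ k ih =>
    have h1 : InI (i - 1 + 1) (u.1.m - 1) := InI.mono hu (by omega)
    have h2 := Qn_twist' hi (pow_mem hu k) h1
    have e : (u ^ (k + 1)).1.m - u.1.m ^ (k + 1) =
        (u ^ k).1.m * ((u ^ k).1.g.mapMatrix u.1.m - u.1.m) +
          ((u ^ k).1.m - u.1.m ^ k) * u.1.m := by
      rw [pow_succ, Subgroup.coe_mul, TM.mul_m, pow_succ]; noncomm_ring
    rw [e]
    exact (h2.mul_left _).add (ih.mul_right _)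

theorem pow_p_mem_Qn (h5 : 5 ≤ p) (hq : 5 ≤ p ^ a) {i : ℕ} (hi : 1 ≤ i) {u : Qs p N a}
    (hu : u ∈ Qn p N a i) : u ^ p ∈ Qn p N a (i + 4) := by
  have h1 := (pow_m_sub hi hu p).mono (show i + 4 ≤ i - 1 + i * p ^ a by
    obtain ⟨k, rfl⟩ : ∃ k, i = k + 1 := ⟨i - 1, by omega⟩
    simp only [Nat.add_sub_cancel]; nlinarith)
  have h2 := (InI.pow hu p).mono (show i + 4 ≤ i * p by nlinarith)
  obtain ⟨r, hr⟩ := (Commute.one_right (u.1.m - 1)).exists_add_pow_prime_eq (Fact.out : p.Prime)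
  have h3 : ((p : ℕ) : Mat (Tr p N)) = 0 := by
    rw [← map_natCast (algebraMap (Tr p N) (Mat (Tr p N))), natCast_p_eq_zero, map_zero]
  rw [sub_add_cancel, h3, one_pow] at hr
  have e : (u ^ p).1.m - 1 = ((u ^ p).1.m - u.1.m ^ p) + (u.1.m - 1) ^ p := by
    rw [hr]; noncomm_ring
  rw [mem_Qn, e]
  exact h1.add h2

end Pool.Agent.Lib.MP_0813d1_al
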