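import Mathlib
import Pool.Agent.Lib.MP_0813d1_al.Model2

namespace Pool.Agent.Lib.MP_0813d1_al

open scoped commutatorElement

variable {p N a : ℕ} [Fact p.Prime]

theorem exists_Q (hq : 2 ≤ p ^ a) (X : Mat (Tr p N)) (hdet : X.det = 1) (lev : InI 1 (X - 1))
    (p00 : iota p N (X 0 0) = X 0 0) (p01 : iota p N (X 0 1) = -X 0 1)
    (p10 : iota p N (X 1 0) = -X 1 0) (p11 : iota p N (X 1 1) = X 1 1) :
    ∃ u : Qs p N a, u.1.m = X := by
  have h00 := phi_mem a (lev 0 0)
  have h01 := phi_mem a (lev 0 1)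
  have h10 := phi_mem a (lev 1 0)
  have h11 := phi_mem a (lev 1 1)
  simp only [Matrix.sub_apply, Matrix.one_apply_eq, map_sub, map_one, ne_eq, zero_ne_one,
    not_false_eq_true, Matrix.one_apply_ne, sub_zero, one_ne_zero, one_mul] at h00 h01 h10 h11
  have hw := wv_pow_mem_Iw p N 1
  rw [pow_one] at hw
  set A := phi p N a (X 0 0) with hA
  set B := phi p N a (X 0 1) with hB
  set C := phi p N a (X 1 0) with hC
  set D := phi p N a (X 1 1) with hD
  have iphi : ∀ x, iota p N (phi p N a x) = phi p N a (iota p N x) := by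
    intro x; simp [phi_apply]
  have iA : iota p N A = A := by rw [hA, iphi, p00]
  have iB : iota p N B = -B := by rw [hB, iphi, p01, map_neg]
  have iC : iota p N C = -C := by rw [hC, iphi, p10, map_neg]
  have iD : iota p N D = D := by rw [hD, iphi, p11]
  have hden : A - wv p N * C - 1 ∈ Iw p N 2 := by
    have e : A - wv p N * C - 1 = (A - 1) - wv p N * C := by ring
    rw [e]
    exact Ideal.sub_mem _ (Iw_anti hq h00) (Ideal.mul_mem_left _ _ (Iw_anti hq h10))
  obtain ⟨k, hk⟩ := (isUnit_of_sub_one_mem (Iw_anti (by omega) hden)).exists_left_inv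
  have hk1 : k - 1 ∈ Iw p N 2 := by
    have e : k - 1 = -k * (A - wv p N * C - 1) := by linear_combination hk
    rw [e]; exact Ideal.mul_mem_left _ _ hden
  have ik : iota p N k = k := by
    have h1 := congrArg (iota p N) hk
    simp only [map_mul, map_sub, iA, iC, iota_wv, map_one] at h1
    linear_combination k * h1 - iota p N k * hk
  set W := (wv p N * D - B) * k with hW
  have hW2 : W - wv p N ∈ Iw p N 2 := by
    have e : W - wv p N = (wv p N * k) * (D - 1) - k * B + wv p N * (k - 1) := by rw [hW]; ring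
    rw [e]
    exact Ideal.add_mem _ (Ideal.sub_mem _ (Ideal.mul_mem_left _ _ (Iw_anti hq h11))
      (Ideal.mul_mem_left _ _ (Iw_anti hq h01))) (Ideal.mul_mem_left _ _ hk1)
  have hW1 : W ∈ Iw p N 1 := by
    simpa using Ideal.add_mem _ (Iw_anti (by omega) hW2) hw
  have hWN : W ^ N = 0 := eq_zero_of_mem_Iw le_rfl (by simpa using pow_mem_Iw hW1 N)
  have iW : iota p N W = -W := by
    rw [hW]; simp only [map_mul, map_sub, iB, iD, ik, iota_wv]; ring
  let f := subst p N W hWN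
  have hf : f (wv p N) = W := subst_wv _ _ _ _
  let g : Au p N := AlgEquiv.ofBijective f (bijective_of_level_two f (by rw [hf]; exact hW2))
  have hg : ∀ x, g x = f x := fun _ => rfl
  refine ⟨⟨⟨X, g, hdet⟩, lev, p00, p01, p10, p11, ?_, ?_, ?_⟩, rfl⟩
  · intro x
    have : f.comp (iota p N) = (iota p N).comp f := tr_algHom_ext (by simp [hf, iW])
    exact DFunLike.congr_fun this x
  · change g _ ∈ _
    rw [hg, hf]; exact hW1
  · change A * g _ + B = _ * (C * g _ + D)
    rw [hg, hf, hW]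
    linear_combination (wv p N * D - B) * hk

theorem exists_eQ (hq : 2 ≤ p ^ a) {b : Tr p N} (hb : b ∈ Iw p N 1) (hodd : iota p N b = -b) :
    ∃ u : Qs p N a, u.1.m = !![1, b; 0, 1] := by
  refine exists_Q hq _ (by simp [Matrix.det_fin_two]) ?_ (by simp) (by simpa) (by simp) (by simp)
  intro r c
  fin_cases r <;> fin_cases c <;> simp [hb]

theorem exists_fQ (hq : 2 ≤ p ^ a) {b : Tr p N} (hb : b ∈ Iw p N 1) (hodd : iota p N b = -b) :
    ∃ u : Qs p N a, u.1.m = !![1, 0; b, 1] := by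
  refine exists_Q hq _ (by simp [Matrix.det_fin_two]) ?_ (by simp) (by simp) (by simpa) (by simp)
  intro r c
  fin_cases r <;> fin_cases c <;> simp [hb]

theorem exists_hQ (hq : 2 ≤ p ^ a) {v v' : Tr p N} (hvv : v * v' = 1) (hv : v - 1 ∈ Iw p N 1)
    (hev : iota p N v = v) : ∃ u : Qs p N a, u.1.m = !![v, 0; 0, v'] := by
  have h1 : iota p N v' = v' := by
    have := congrArg (iota p N) hvv
    rw [map_mul, hev, map_one] at this
    linear_combination v' * this - iota p N v' * hvv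
  have h2 : v' - 1 ∈ Iw p N 1 := by
    have e : v' - 1 = -v' * (v - 1) := by linear_combination hvv
    rw [e]; exact Ideal.mul_mem_left _ _ hv
  refine exists_Q hq _ (by simp [Matrix.det_fin_two, hvv]) ?_ (by simpa) (by simp) (by simp)
    (by simpa)
  intro r c
  fin_cases r <;> fin_cases c <;> simp [hv, h2]

/-- admissible leading matrices in degree `i` -/
def Shape (i : ℕ) (M : Mat (ZMod p)) : Prop :=
  (Odd i → M 0 0 = 0 ∧ M 1 1 = 0) ∧ (Even i → M 0 1 = 0 ∧ M 1 0 = 0 ∧ M 1 1 = -M 0 0)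

theorem exists_lead_shape (hp : p ≠ 2) {i : ℕ} (hi : 1 ≤ i) {u : Qs p N a}
    (hu : u ∈ Qn p N a i) : ∃ M, Shape i M ∧ Lead i u M := by
  have hQ := Qs.isQ u
  have h00 := hu 0 0
  have h01 := hu 0 1
  have h10 := hu 1 0
  have h11 := hu 1 1
  simp only [Matrix.sub_apply, Matrix.one_apply_eq, ne_eq, zero_ne_one,
    not_false_eq_true, Matrix.one_apply_ne, sub_zero, one_ne_zero] at h00 h01 h10 h11
  rcases Nat.even_or_odd i with he | ho
  · obtain ⟨c, hc⟩ := exists_lead i h00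
    have hs : ((-1 : Tr p N)) ^ i = 1 := he.neg_one_pow
    have k01 := mem_succ_of_parity hp h01 (by rw [hs, one_mul, hQ.p01])
    have k10 := mem_succ_of_parity hp h10 (by rw [hs, one_mul, hQ.p10])
    have hdet := u.1.det
    rw [Matrix.det_fin_two] at hdet
    have k11 : u.1.m 1 1 - 1 + wv p N ^ i * algebraMap (ZMod p) (Tr p N) c ∈ Iw p N (i + 1) := by
      have e : u.1.m 1 1 - 1 + wv p N ^ i * algebraMap (ZMod p) (Tr p N) c =
          u.1.m 0 1 * u.1.m 1 0 - (u.1.m 0 0 - 1) * (u.1.m 1 1 - 1) -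
            (u.1.m 0 0 - 1 - wv p N ^ i * algebraMap (ZMod p) (Tr p N) c) := by
        linear_combination hdet
      rw [e]
      exact Ideal.sub_mem _ (Ideal.sub_mem _ (Iw_anti (by omega) (mul_mem_Iw h01 h10))
        (Iw_anti (by omega) (mul_mem_Iw h00 h11))) hc
    refine ⟨!![c, 0; 0, -c], ⟨fun ho => absurd he (Nat.not_even_iff_odd.2 ho), fun _ => by simp⟩, ?_⟩
    intro r s
    fin_cases r <;> fin_cases s <;> simp [cM_apply, hc, k01, k10, k11, -AdjoinRoot.algebraMap_eq]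
  · obtain ⟨b, hb⟩ := exists_lead i h01
    obtain ⟨c, hc⟩ := exists_lead i h10
    have hs : ((-1 : Tr p N)) ^ i = -1 := ho.neg_one_pow
    have k00 := mem_succ_of_parity hp h00 (by rw [hs, map_sub, hQ.p00]; simp)
    have k11 := mem_succ_of_parity hp h11 (by rw [hs, map_sub, hQ.p11]; simp)
    refine ⟨!![0, b; c, 0], ⟨fun _ => by simp, fun he => absurd he (Nat.not_even_iff_odd.2 ho)⟩, ?_⟩
    intro r s
    fin_cases r <;> fin_cases s <;> simp [cM_apply, hb, hc, k00, k11, -AdjoinRoot.algebraMap_eq]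

def mE (p : ℕ) : Mat (ZMod p) := !![0, 1; 0, 0]
def mF (p : ℕ) : Mat (ZMod p) := !![0, 0; 1, 0]
def mH (p : ℕ) : Mat (ZMod p) := !![1, 0; 0, -1]

theorem two_ne_zero_zmod (hp : p ≠ 2) : (2 : ZMod p) ≠ 0 := by
  intro h
  have : ((2 : ℕ) : ZMod p) = 0 := by exact_mod_cast h
  rw [ZMod.natCast_eq_zero_iff] at this
  exact hp ((Nat.prime_dvd_prime_iff_eq Fact.out Nat.prime_two).1 this)

theorem Shape.odd_eq {i : ℕ} {M : Mat (ZMod p)} (h : Shape i M) (hi : Odd i) :
    M = M 0 1 • mE p + M 1 0 • mF p := by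
  obtain ⟨h1, h2⟩ := h.1 hi
  ext r s
  fin_cases r <;> fin_cases s <;> simp [mE, mF, h1, h2]

theorem Shape.even_eq {i : ℕ} {M : Mat (ZMod p)} (h : Shape i M) (hi : Even i) :
    M = M 0 0 • mH p := by
  obtain ⟨h1, h2, h3⟩ := h.2 hi
  ext r s
  fin_cases r <;> fin_cases s <;> simp [mH, h1, h2, h3]

theorem shape_odd {i : ℕ} (hi : Odd i) (b c : ZMod p) : Shape i (b • mE p + c • mF p) :=
  ⟨fun _ => by simp [mE, mF], fun he => absurd he (Nat.not_even_iff_odd.2 hi)⟩

theorem shape_even {i : ℕ} (hi : Even i) (c : ZMod p) : Shape i (c • mH p) :=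
  ⟨fun ho => absurd hi (Nat.not_even_iff_odd.2 ho), fun _ => by simp [mH]⟩

theorem mE_mF : mE p * mF p - mF p * mE p = mH p := by
  ext r s; fin_cases r <;> fin_cases s <;> simp [mE, mF, mH]

theorem mE_mH : mE p * mH p - mH p * mE p = -(2 • mE p) := by
  ext r s; fin_cases r <;> fin_cases s <;> simp [mE, mH]; ring

theorem mF_mH : mF p * mH p - mH p * mF p = 2 • mF p := by
  ext r s; fin_cases r <;> fin_cases s <;> simp [mF, mH]; ring

theorem Shape.step (hp : p ≠ 2) {i : ℕ} {M : Mat (ZMod p)} (h : Shape (i + 1) M) :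
    ∃ M₁ M₂, Shape i M₁ ∧ Shape i M₂ ∧
      M = (mE p * M₁ - M₁ * mE p) + (mF p * M₂ - M₂ * mF p) ∧
      (Odd i → M₂ = 0 ∧ ∃ c : ZMod p, M₁ = c • mF p) := by
  rcases Nat.even_or_odd i with he | ho
  · have h1 := h.odd_eq he.add_one
    have h2 := two_ne_zero_zmod hp
    refine ⟨(-(M 0 1 / 2)) • mH p, (M 1 0 / 2) • mH p, shape_even he _, shape_even he _, ?_,
      fun ho => absurd he (Nat.not_even_iff_odd.2 ho)⟩
    rw [h1]
    ext r s
    fin_cases r <;> fin_cases s <;> simp [mE, mF, mH] <;> field_simp <;> ring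
  · have h1 := h.even_eq ho.add_one
    refine ⟨M 0 0 • mF p, 0, by simpa using shape_odd ho 0 (M 0 0),
      by simpa using shape_odd (p := p) ho 0 0, ?_, fun _ => ⟨rfl, _, rfl⟩⟩
    rw [h1]
    ext r s
    fin_cases r <;> fin_cases s <;> simp [mE, mF, mH]

theorem Lead.smul (hq : 2 ≤ p ^ a) {i : ℕ} (hi : 1 ≤ i) {u : Qs p N a} {M : Mat (ZMod p)}
    (hu : Lead i u M) (c : ZMod p) : Lead i (u ^ c.val) (c • M) := by
  refine (hu.pow hq hi c.val).congr ?_
  rw [← Nat.cast_smul_eq_nsmul (ZMod p), ZMod.natCast_zmod_val]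

theorem lead_e {i : ℕ} {u : Qs p N a} (hu : u.1.m = !![1, wv p N ^ i; 0, 1]) :
    Lead i u (mE p) := by
  intro r s
  fin_cases r <;> fin_cases s <;> simp [hu, cM_apply, mE]

theorem lead_f {i : ℕ} {u : Qs p N a} (hu : u.1.m = !![1, 0; wv p N ^ i, 1]) :
    Lead i u (mF p) := by
  intro r s
  fin_cases r <;> fin_cases s <;> simp [hu, cM_apply, mF]

theorem lead_h {i : ℕ} (hi : 1 ≤ i) {u : Qs p N a} {v v' : Tr p N} (hu : u.1.m = !![v, 0; 0, v'])
    {c : ZMod p} (hv : v - 1 - wv p N ^ i * algebraMap (ZMod p) (Tr p N) c ∈ Iw p N (i + 1)) :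
    Lead i u (c • mH p) := by
  have hdet := u.1.det
  rw [hu] at hdet
  simp only [Matrix.det_fin_two_of, mul_zero, sub_zero] at hdet
  have h1 : v - 1 ∈ Iw p N i := by
    have := Ideal.add_mem _ (Iw_anti (Nat.le_succ i) hv)
      (mem_Iw.2 ⟨algebraMap (ZMod p) (Tr p N) c, rfl⟩)
    simpa using this
  have h2 : v' - 1 ∈ Iw p N i := by
    have e : v' - 1 = -v' * (v - 1) := by linear_combination hdet
    rw [e]; exact Ideal.mul_mem_left _ _ h1
  have h3 : v' - 1 + wv p N ^ i * algebraMap (ZMod p) (Tr p N) c ∈ Iw p N (i + 1) := by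
    have e : v' - 1 + wv p N ^ i * algebraMap (ZMod p) (Tr p N) c =
        -((v - 1) * (v' - 1)) - (v - 1 - wv p N ^ i * algebraMap (ZMod p) (Tr p N) c) := by
      linear_combination hdet
    rw [e]
    exact Ideal.sub_mem _ (neg_mem (Iw_anti (by omega) (mul_mem_Iw h1 h2))) hv
  intro r s
  fin_cases r <;> fin_cases s <;> simp [hu, cM_apply, mH, hv, h3, -AdjoinRoot.algebraMap_eq]

/-- reduction of the matrix part -/
noncomputable def redM {M : ℕ} (h : M ≤ N) (u : Qs p N a) : Mat (Tr p M) :=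
  (red p h).mapMatrix u.1.m

theorem redM_det {M : ℕ} (h : M ≤ N) (u : Qs p N a) : (redM h u).det = 1 := by
  have := u.1.det
  rw [Matrix.det_fin_two] at this ⊢
  have h1 := congrArg (red p h) this
  simpa [redM] using h1

theorem redM_one {M : ℕ} (h : M ≤ N) : redM h (1 : Qs p N a) = 1 := map_one _

theorem redM_mul {M : ℕ} (h : M ≤ N) {i j : ℕ} (hi : 1 ≤ i) {u v : Qs p N a}
    (hu : u ∈ Qn p N a i) (hv : v ∈ Qn p N a (j + 1)) (hM : M ≤ j + i * p ^ a) :
    redM h (u * v) = redM h u * redM h v := by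
  have h1 := Qn_twist' hi hu hv
  have h2 : (red p h).mapMatrix (u.1.g.mapMatrix v.1.m - v.1.m) = 0 := by
    ext r c
    exact red_eq_zero h hM (h1 r c)
  rw [map_sub, sub_eq_zero] at h2
  rw [redM, Subgroup.coe_mul, TM.mul_m, map_mul, h2]; rfl

theorem redM_sub_one_iff {M : ℕ} (h : M ≤ N) {i : ℕ} (hi : i ≤ M) (u : Qs p N a) :
    InI i (redM h u - 1) ↔ u ∈ Qn p N a i := by
  have e : redM h u - 1 = (red p h).mapMatrix (u.1.m - 1) := by rw [map_sub, map_one]; rfl
  rw [e, mem_Qn]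
  exact forall_congr' fun r => forall_congr' fun c => red_mem_iff h hi _

theorem redM_eq {M : ℕ} (h : M ≤ N) {u : Qs p N a} {b c d e : Tr p N}
    (hu : u.1.m = !![b, c; d, e]) :
    redM h u = !![red p h b, red p h c; red p h d, red p h e] := by
  ext r s
  fin_cases r <;> fin_cases s <;> simp [redM, hu]

theorem exists_embedding {G : Type*} [Group G] {μ n : ℕ} (hμ : 1 ≤ μ)
    (α : G →* Au p N) (β : G → Tr p N) (h1 : ∀ σ, β σ ∈ Iw p N μ)
    (h2 : ∀ σ, iota p N (β σ) = -β σ) (h3 : ∀ σ, α σ (wv p N) = wv p N + β σ ^ (p ^ a))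
    (h4 : ∀ σ τ, β (σ * τ) = β σ + α σ (β τ)) (h5 : ∀ σ, β σ ∈ Iw p N n → σ = 1) :
    ∃ f : G →* Qs p N a, (∀ σ, f σ ∈ Qn p N a μ) ∧ ∀ σ, f σ ∈ Qn p N a n → σ = 1 := by
  have hβ1 : β 1 = 0 := by
    have := h4 1 1
    simpa using this
  let f0 : G →* TM p N :=
    { toFun := fun σ => ⟨!![1, -β σ; 0, 1], α σ, by simp [Matrix.det_fin_two]⟩
      map_one' := TM.ext (by
        ext r s; fin_cases r <;> fin_cases s <;> simp [TM.one_m, hβ1]) (map_one α)
      map_mul' := fun σ τ => TM.ext (by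
        ext r s
        fin_cases r <;> fin_cases s <;> simp [TM.mul_m, Matrix.mul_apply, h4]) (map_mul α σ τ) }
  have hm : ∀ σ, (f0 σ).m = !![1, -β σ; 0, 1] := fun _ => rfl
  have hg : ∀ σ, (f0 σ).g = α σ := fun _ => rfl
  have hlev : ∀ σ k, β σ ∈ Iw p N k ↔ InI k ((f0 σ).m - 1) := by
    intro σ k
    constructor
    · intro h r s
      fin_cases r <;> fin_cases s <;> simp [hm, h]
    · intro h
      simpa [hm] using h 0 1
  have hw := wv_pow_mem_Iw p N 1
  rw [pow_one] at hw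
  have hQ : ∀ σ, f0 σ ∈ Qs p N a := by
    intro σ
    refine ⟨(hlev σ 1).1 (Iw_anti hμ (h1 σ)), by simp [hm], by simp [hm, h2], by simp [hm],
      by simp [hm], ?_, ?_, ?_⟩
    · intro x
      have : (α σ : Tr p N →ₐ[ZMod p] Tr p N).comp (iota p N) =
          (iota p N).comp (α σ : Tr p N →ₐ[ZMod p] Tr p N) := by
        apply tr_algHom_ext
        have e := map_neg (phi p N a) (β σ)
        simp only [phi_apply] at e
        simp [h3, h2, e]; ring
      exact DFunLike.congr_fun this x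
    · rw [hg, h3]
      exact Ideal.add_mem _ hw
        (Iw_anti (Nat.mul_pos hμ one_le_q) (pow_mem_Iw (h1 σ) _))
    · simp [hm, hg, h3]
      rw [phi_apply]; ring
  refine ⟨f0.codRestrict _ hQ, fun σ => (hlev σ μ).1 (h1 σ), fun σ h => h5 σ ((hlev σ n).2 h)⟩

end Pool.Agent.Lib.MP_0813d1_al
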