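import Mathlib

set_option autoImplicit false

namespace Pool.Agent.Lib.MP_0813d1_al

section Serre
variable (K : Type*) {L : Type*} [Field K] [LieRing L] [LieAlgebra K L]

/-- `sE l` = e t^l, degree 2l+1 -/
def sE (x y : L) : ℕ → L
  | 0 => x
  | l + 1 => (2 : K)⁻¹ • ⁅⁅x, y⁆, sE x y l⁆

/-- `sF l` = f t^(l+1), degree 2l+1 -/
def sF (x y : L) : ℕ → L
  | 0 => y
  | l + 1 => -((2 : K)⁻¹ • ⁅⁅x, y⁆, sF x y l⁆)

/-- `sH l` = h t^(l+1), degree 2l+2 -/
def sH (x y : L) (l : ℕ) : L := ⁅x, sF K x y l⁆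

/-- `sC l` central, degree 2l+2 -/
def sC (x y : L) : ℕ → L
  | 0 => 0
  | l + 1 => ⁅sE K x y 1, sF K x y l⁆ - sH K x y (l + 1)

namespace SerreAux

variable {K}

theorem cancel_nat (n : ℕ) (hn : (n : K) ≠ 0) {v : L} (h : n • v = 0) : v = 0 := by
  have h1 : (n : K) • v = 0 := by rw [Nat.cast_smul_eq_nsmul]; exact h
  exact (smul_eq_zero.1 h1).resolve_left hn

theorem cancel_two (h2 : (2 : K) ≠ 0) {v w : L} (h : 2 • v = 2 • w) : v = w := by
  have : v - w = 0 := cancel_nat (K := K) 2 (by simpa using h2) (by rw [smul_sub, h, sub_self])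
  exact sub_eq_zero.1 this

theorem hE (h2 : (2 : K) ≠ 0) (x y : L) (l : ℕ) :
    ⁅sH K x y 0, sE K x y l⁆ = 2 • sE K x y (l + 1) := by
  have : (2 : ℕ) • sE K x y (l + 1) = (2 : K) • sE K x y (l + 1) := by
    rw [two_smul, two_smul]
  rw [this]
  simp only [sH, sF, sE, smul_smul, mul_inv_cancel₀ h2, one_smul]

theorem hF (h2 : (2 : K) ≠ 0) (x y : L) (l : ℕ) :
    ⁅sH K x y 0, sF K x y l⁆ = -(2 • sF K x y (l + 1)) := by
  have : (2 : ℕ) • sF K x y (l + 1) = (2 : K) • sF K x y (l + 1) := by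
    rw [two_smul, two_smul]
  rw [this]
  simp only [sH, sF, smul_neg, smul_smul, mul_inv_cancel₀ h2, one_smul, neg_neg]

theorem cenE {x y c : L} (hx : ⁅x, c⁆ = 0) (hy : ⁅y, c⁆ = 0) (l : ℕ) : ⁅sE K x y l, c⁆ = 0 := by
  have hh : ⁅⁅x, y⁆, c⁆ = 0 := by rw [lie_lie, hx, hy]; simp
  induction l with
  | zero => exact hx
  | succ l ih => simp only [sE, smul_lie]; rw [lie_lie ⁅x, y⁆, ih, hh]; simp

theorem cenF {x y c : L} (hx : ⁅x, c⁆ = 0) (hy : ⁅y, c⁆ = 0) (l : ℕ) : ⁅sF K x y l, c⁆ = 0 := by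
  have hh : ⁅⁅x, y⁆, c⁆ = 0 := by rw [lie_lie, hx, hy]; simp
  induction l with
  | zero => exact hy
  | succ l ih => simp only [sF, neg_lie, smul_lie]; rw [lie_lie ⁅x, y⁆, ih, hh]; simp

theorem cenH {x y c : L} (hx : ⁅x, c⁆ = 0) (hy : ⁅y, c⁆ = 0) (l : ℕ) : ⁅sH K x y l, c⁆ = 0 := by
  rw [sH, lie_lie, hx, cenF hx hy]; simp

variable (K) in
/-- even-degree statements at level `n` -/
structure P (x y : L) (n : ℕ) : Prop where
  ee : ∀ i j, i + j = n → ⁅sE K x y i, sE K x y j⁆ = 0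
  ff : ∀ i j, i + j = n → ⁅sF K x y i, sF K x y j⁆ = 0
  ef : ∀ i j, i + j = n → ⁅sE K x y i, sF K x y j⁆ = sH K x y n + i • sC K x y n
  hh : ∀ i j, i + j + 1 = n → ⁅sH K x y i, sH K x y j⁆ = (2 * (i + 1)) • sC K x y n
  t : (n + 1) • sC K x y n = 0

variable (K) in
/-- odd-degree statements at level `n` -/
structure Q (x y : L) (n : ℕ) : Prop where
  he : ∀ i j, i + j = n → ⁅sH K x y i, sE K x y j⁆ = 2 • sE K x y (n + 1)
  hf : ∀ i j, i + j = n → ⁅sH K x y i, sF K x y j⁆ = -(2 • sF K x y (n + 1))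
  cx : ⁅x, sC K x y n⁆ = 0
  cy : ⁅y, sC K x y n⁆ = 0

theorem alt_zero (G : ℕ → L) (n : ℕ)
    (h1 : ∀ i j, i + j + 1 = n → ⁅G (i + 1), G j⁆ + ⁅G i, G (j + 1)⁆ = 0)
    (h0 : ⁅G 0, G n⁆ = 0) : ∀ i j, i + j = n → ⁅G i, G j⁆ = 0 := by
  intro i
  induction i with
  | zero => intro j hj; obtain rfl : j = n := by omega
            exact h0
  | succ i ih =>
    intro j hj
    have := h1 i j (by omega)
    rw [ih (j + 1) (by omega), add_zero] at this
    exact this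

theorem stepEE (h2 : (2 : K) ≠ 0) (G : ℕ → L) (h k : L) (ε : ℤ) (hε : ε * ε = 1) (n : ℕ)
    (hG : ∀ l, ⁅h, G l⁆ = ε • (2 • G (l + 1)))
    (hk : ∀ l, l + 2 ≤ n → ⁅k, G l⁆ = ε • (2 • G (l + 2)))
    (h01 : ⁅G 0, G 1⁆ = 0)
    (ih : ∀ i j, i + j < n → ⁅G i, G j⁆ = 0) : ∀ i j, i + j = n → ⁅G i, G j⁆ = 0 := by
  have canc : ∀ v : L, ε • (2 • v) = 0 → v = 0 := by
    intro v hv
    have : ε • ε • (2 • v) = 0 := by rw [hv, smul_zero]
    rw [smul_smul, hε, one_smul] at this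
    exact cancel_nat (K := K) 2 (by simpa using h2) this
  have h1 : ∀ i j, i + j + 1 = n → ⁅G (i + 1), G j⁆ + ⁅G i, G (j + 1)⁆ = 0 := by
    intro i j hij
    have e : ⁅h, ⁅G i, G j⁆⁆ = 0 := by rw [ih i j (by omega), lie_zero]
    rw [leibniz_lie, hG, hG] at e
    apply canc
    rw [← e]
    simp only [zsmul_lie, nsmul_lie, lie_zsmul, lie_nsmul, smul_add]
  refine alt_zero G n h1 ?_
  rcases n with _ | _ | n
  · simp
  · exact h01
  · have e : ⁅k, ⁅G 0, G n⁆⁆ = 0 := by rw [ih 0 n (by omega), lie_zero]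
    rw [leibniz_lie, hk 0 (by omega), hk n (by omega)] at e
    have e2 : ⁅G 2, G n⁆ + ⁅G 0, G (n + 2)⁆ = 0 := by
      apply canc
      rw [← e]
      simp only [zsmul_lie, nsmul_lie, lie_zsmul, lie_nsmul, smul_add]
    have a := h1 0 (n + 1) (by omega)
    have b := h1 1 n (by omega)
    apply cancel_nat (K := K) 2 (by simpa using h2)
    rw [two_smul]
    have : ⁅G 0, G (n + 2)⁆ + ⁅G 0, G (n + 2)⁆ =
        (⁅G 2, G n⁆ + ⁅G 0, G (n + 2)⁆) + (⁅G 1, G (n + 1)⁆ + ⁅G 0, G (n + 2)⁆)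
          - (⁅G 2, G n⁆ + ⁅G 1, G (n + 1)⁆) := by abel
    rw [show n + 1 + 1 = n + 2 from rfl, this, e2]
    simp only [zero_add] at a b ⊢
    rw [a, b, sub_zero]

theorem stepP (h2 : (2 : K) ≠ 0) (x y : L)
    (hx : ⁅x, ⁅x, ⁅x, y⁆⁆⁆ = 0) (hy : ⁅y, ⁅y, ⁅y, x⁆⁆⁆ = 0) (n : ℕ)
    (ihP : ∀ m, m < n → P K x y m) (ihQ : ∀ m, m < n → Q K x y m) : P K x y n := by
  have ee : ∀ i j, i + j = n → ⁅sE K x y i, sE K x y j⁆ = 0 := by
    refine stepEE h2 (sE K x y) (sH K x y 0) (sH K x y 1) 1 (by norm_num) n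
      (fun l => by rw [hE h2, one_smul]) (fun l hl => ?_) ?_
      (fun i j hij => (ihP _ hij).ee i j rfl)
    · rw [(ihQ (l + 1) (by omega)).he 1 l (by omega), one_smul]
    · simp only [sE, lie_smul]
      rw [← lie_skew ⁅x, y⁆ x, lie_neg, hx]; simp
  have ff : ∀ i j, i + j = n → ⁅sF K x y i, sF K x y j⁆ = 0 := by
    refine stepEE h2 (sF K x y) (sH K x y 0) (sH K x y 1) (-1) (by norm_num) n
      (fun l => by rw [hF h2, neg_one_smul]) (fun l hl => ?_) ?_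
      (fun i j hij => (ihP _ hij).ff i j rfl)
    · rw [(ihQ (l + 1) (by omega)).hf 1 l (by omega), neg_one_smul]
    · simp only [sF, lie_neg, lie_smul]
      rw [← lie_skew ⁅x, y⁆ y, ← lie_skew x y, lie_neg y ⁅y, x⁆, neg_neg, hy]; simp
  have ef : ∀ i j, i + j = n → ⁅sE K x y i, sF K x y j⁆ = sH K x y n + i • sC K x y n := by
    rcases n with _ | n
    · intro i j hij
      obtain rfl : i = 0 := by omega
      obtain rfl : j = 0 := by omega
      simp [sH, sE]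
    · have key : ∀ i j, i + j = n → 2 • ⁅sE K x y (i + 1), sF K x y j⁆ =
          2 • ⁅sE K x y i, sF K x y (j + 1)⁆ + ⁅sH K x y 0, sH K x y n⁆ := by
        intro i j hij
        have e := congrArg (fun u => ⁅sH K x y 0, u⁆) ((ihP n (by omega)).ef i j hij)
        rw [leibniz_lie, hE h2, hF h2, lie_add, lie_nsmul,
          cenH (ihQ n (by omega)).cx (ihQ n (by omega)).cy, smul_zero, add_zero] at e
        rw [← e]
        simp only [nsmul_lie, lie_neg, lie_nsmul]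
        abel
      have k0 : ⁅sH K x y 0, sH K x y n⁆ = 2 • sC K x y (n + 1) := by
        have := key 0 n (by omega)
        simp only [sC, smul_sub]
        rw [this]
        simp only [sH, sE]
        abel
      intro i
      induction i with
      | zero => intro j hj; obtain rfl : j = n + 1 := by omega
                simp [sH, sE]
      | succ i ih =>
        intro j hj
        apply cancel_two h2
        rw [key i j (by omega), ih (j + 1) (by omega), k0]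
        module
  have hh : ∀ i j, i + j + 1 = n →
      ⁅sH K x y i, sH K x y j⁆ = (2 * (i + 1)) • sC K x y n := by
    intro i j hij
    have e : sH K x y j = ⁅sE K x y 0, sF K x y j⁆ := rfl
    rw [e, leibniz_lie, (ihQ i (by omega)).he i 0 rfl, (ihQ (i + j) (by omega)).hf i j rfl,
      nsmul_lie, lie_neg, lie_nsmul, ef (i + 1) j (by omega), ef 0 (i + j + 1) (by omega)]
    module
  refine ⟨ee, ff, ef, hh, ?_⟩
  rcases n with _ | n
  · simp [sC]
  · have a := hh 0 n (by omega)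
    have b := hh n 0 (by omega)
    rw [← lie_skew, a] at b
    apply cancel_nat (K := K) 2 (by simpa using h2)
    have : 2 • (n + 1 + 1) • sC K x y (n + 1) =
        (2 * (n + 1)) • sC K x y (n + 1) + (2 * (0 + 1)) • sC K x y (n + 1) := by module
    rw [this, ← b]; simp

theorem stepQ (h2 : (2 : K) ≠ 0) (h3 : (3 : K) ≠ 0) (x y : L) (n : ℕ)
    (ihP : ∀ m, m ≤ n → P K x y m) (ihQ : ∀ m, m < n → Q K x y m) : Q K x y n := by
  have small : n ≤ 2 → sC K x y n = 0 := by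
    intro hn
    have t := (ihP n le_rfl).t
    interval_cases n
    · rfl
    · exact cancel_nat (K := K) 2 (by simpa using h2) t
    · exact cancel_nat (K := K) 3 (by simpa using h3) t
  have jE : ∀ a b c, a + b + c = n →
      ⁅sE K x y a, ⁅sE K x y b, sF K x y c⁆⁆ = ⁅sE K x y b, ⁅sE K x y a, sF K x y c⁆⁆ := by
    intro a b c h
    rw [leibniz_lie, (ihP (a + b) (by omega)).ee a b rfl, zero_lie, zero_add]
  have jF : ∀ a b c, a + b + c = n →
      ⁅sF K x y a, ⁅sE K x y c, sF K x y b⁆⁆ = ⁅sF K x y b, ⁅sE K x y c, sF K x y a⁆⁆ := by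
    intro a b c h
    rw [← lie_skew (sE K x y c) (sF K x y b), ← lie_skew (sE K x y c) (sF K x y a), lie_neg,
      lie_neg, leibniz_lie, (ihP (a + b) (by omega)).ff a b rfl, zero_lie, zero_add]
  have vE : ∀ a b c, a + b + c = n → 1 ≤ a →
      ⁅sE K x y a, ⁅sE K x y b, sF K x y c⁆⁆ = ⁅sE K x y a, sH K x y (b + c)⁆ := by
    intro a b c h ha
    rw [(ihP (b + c) (by omega)).ef b c rfl, lie_add, lie_nsmul,
      cenE (ihQ (b + c) (by omega)).cx (ihQ (b + c) (by omega)).cy, smul_zero, add_zero]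
  have vF : ∀ a b c, a + b + c = n → 1 ≤ a →
      ⁅sF K x y a, ⁅sE K x y c, sF K x y b⁆⁆ = ⁅sF K x y a, sH K x y (c + b)⁆ := by
    intro a b c h ha
    rw [(ihP (c + b) (by omega)).ef c b rfl, lie_add, lie_nsmul,
      cenF (ihQ (c + b) (by omega)).cx (ihQ (c + b) (by omega)).cy, smul_zero, add_zero]
  have uE : ∀ b c, b + c = n → 1 ≤ b →
      ⁅sE K x y b, sH K x y c⁆ = ⁅x, sH K x y n⁆ + b • ⁅x, sC K x y n⁆ := by
    intro b c h hb
    have e := jE 0 b c (by omega)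
    rw [vE b 0 c (by omega) hb, (ihP n le_rfl).ef b c h, lie_add, lie_nsmul, zero_add] at e
    exact e.symm
  have uF : ∀ b c, b + c = n → 1 ≤ b →
      ⁅sF K x y b, sH K x y c⁆ = ⁅y, sH K x y n⁆ + c • ⁅y, sC K x y n⁆ := by
    intro b c h hb
    have e := jF 0 b c (by omega)
    rw [vF b 0 c (by omega) hb, (ihP n le_rfl).ef c b (by omega), lie_add, lie_nsmul,
      add_zero] at e
    exact e.symm
  have cx : ⁅x, sC K x y n⁆ = 0 := by
    by_cases hn : n ≤ 2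
    · rw [small hn, lie_zero]
    · obtain ⟨c, rfl⟩ : ∃ c, n = c + 3 := ⟨n - 3, by omega⟩
      have e := jE 1 2 c (by omega)
      rw [vE 1 2 c (by omega) (by omega), vE 2 1 c (by omega) (by omega),
        uE 1 (2 + c) (by omega) (by omega), uE 2 (1 + c) (by omega) (by omega)] at e
      have e2 := add_left_cancel e
      rw [one_smul, two_smul] at e2
      simpa using e2
  have cy : ⁅y, sC K x y n⁆ = 0 := by
    by_cases hn : n ≤ 2
    · rw [small hn, lie_zero]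
    · obtain ⟨c, rfl⟩ : ∃ c, n = c + 3 := ⟨n - 3, by omega⟩
      have e := jF 1 2 c (by omega)
      rw [vF 1 2 c (by omega) (by omega), vF 2 1 c (by omega) (by omega),
        uF 1 (c + 2) (by omega) (by omega), uF 2 (c + 1) (by omega) (by omega)] at e
      have e2 := add_left_cancel e
      rw [show c + 2 = (c + 1) + 1 from rfl, succ_nsmul _ (c + 1)] at e2
      simpa using e2
  have wE : ∀ i j, i + j = n → ⁅sE K x y j, sH K x y i⁆ = ⁅x, sH K x y n⁆ := by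
    intro i j h
    rcases j with _ | j
    · obtain rfl : i = n := by omega
      rfl
    · rw [uE (j + 1) i (by omega) (by omega), cx, smul_zero, add_zero]
  have wF : ∀ i j, i + j = n → ⁅sF K x y j, sH K x y i⁆ = ⁅y, sH K x y n⁆ := by
    intro i j h
    rcases j with _ | j
    · obtain rfl : i = n := by omega
      rfl
    · rw [uF (j + 1) i (by omega) (by omega), cy, smul_zero, add_zero]
  refine ⟨fun i j h => ?_, fun i j h => ?_, cx, cy⟩
  · rw [← lie_skew, wE i j h, ← wE 0 n (by omega), lie_skew, hE h2]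
  · rw [← lie_skew, wF i j h, ← wF 0 n (by omega), lie_skew, hF h2]

theorem all (h2 : (2 : K) ≠ 0) (h3 : (3 : K) ≠ 0) (x y : L)
    (hx : ⁅x, ⁅x, ⁅x, y⁆⁆⁆ = 0) (hy : ⁅y, ⁅y, ⁅y, x⁆⁆⁆ = 0) (n : ℕ) :
    P K x y n ∧ Q K x y n := by
  induction n using Nat.strong_induction_on with
  | _ n ih =>
    have hP := stepP h2 x y hx hy n (fun m hm => (ih m hm).1) (fun m hm => (ih m hm).2)
    refine ⟨hP, stepQ h2 h3 x y n (fun m hm => ?_) (fun m hm => (ih m hm).2)⟩
    rcases hm.lt_or_eq with hm | rfl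
    · exact (ih m hm).1
    · exact hP

end SerreAux

theorem serre (h2 : (2 : K) ≠ 0) (h3 : (3 : K) ≠ 0) (x y : L)
    (hx : ⁅x, ⁅x, ⁅x, y⁆⁆⁆ = 0) (hy : ⁅y, ⁅y, ⁅y, x⁆⁆⁆ = 0) :
    (∀ i j, ⁅sE K x y i, sE K x y j⁆ = 0) ∧
    (∀ i j, ⁅sF K x y i, sF K x y j⁆ = 0) ∧
    (∀ i j, ⁅sE K x y i, sF K x y j⁆ = sH K x y (i + j) + i • sC K x y (i + j)) ∧
    (∀ i j, ⁅sH K x y i, sE K x y j⁆ = 2 • sE K x y (i + j + 1)) ∧
    (∀ i j, ⁅sH K x y i, sF K x y j⁆ = -(2 • sF K x y (i + j + 1))) ∧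
    (∀ i j, ⁅sH K x y i, sH K x y j⁆ = (2 * (i + 1)) • sC K x y (i + j + 1)) ∧
    (∀ l, ⁅x, sC K x y l⁆ = 0 ∧ ⁅y, sC K x y l⁆ = 0) ∧
    (∀ l, (l + 1) • sC K x y l = 0) := by
  have A := SerreAux.all h2 h3 x y hx hy
  exact ⟨fun i j => (A _).1.ee i j rfl, fun i j => (A _).1.ff i j rfl,
    fun i j => (A _).1.ef i j rfl, fun i j => (A _).2.he i j rfl, fun i j => (A _).2.hf i j rfl,
    fun i j => (A _).1.hh i j rfl, fun l => ⟨(A l).2.cx, (A l).2.cy⟩, fun l => (A l).1.t⟩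

end Serre

end Pool.Agent.Lib.MP_0813d1_al
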