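import Mathlib

namespace Pool.Agent.Lib.MP_0813d1_al

open scoped commutatorElement

open Matrix in
structure SymSetup (p : ℕ) (R : Type*) [CommRing R] (Γ : Type*) [Group Γ] where
  w : R
  ι : R →+* R
  j : ℕ
  L : ℕ
  ρ : Γ →* Matrix.SpecialLinearGroup (Fin 2) R
  j_pos : 1 ≤ j
  ι_w : ι w = -w
  ι_ι : ∀ a, ι (ι a) = a
  nil : w ^ (L + 1) = 0
  ann : ∀ i a, i ≤ L + 1 → w ^ i * a = 0 → a ∈ Ideal.span {w ^ (L + 1 - i)}
  cen : ∀ g g', ρ g = 1 → Commute g g'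
  pgrp : ∀ g, ρ g = 1 → ∃ k, g ^ p ^ k = 1
  exE : ∀ a ∈ Ideal.span {w ^ (2 * j)}, ι a = -a →
    ∃ g, (ρ g : Matrix (Fin 2) (Fin 2) R) = !![1, a; 0, 1]
  exF : ∀ a ∈ Ideal.span {w ^ (2 * j)}, ι a = -a →
    ∃ g, (ρ g : Matrix (Fin 2) (Fin 2) R) = !![1, 0; a, 1]
  exH : ∀ v v', v * v' = 1 → v - 1 ∈ Ideal.span {w ^ (2 * j)} → ι v = v →
    ∃ g, (ρ g : Matrix (Fin 2) (Fin 2) R) = !![v, 0; 0, v']
  tv : ∀ i i' g g', L + 1 ≤ i + i' →
    (∀ r c, ((ρ g : Matrix (Fin 2) (Fin 2) R) - 1) r c ∈ Ideal.span {w ^ i}) →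
    (∀ r c, ((ρ g' : Matrix (Fin 2) (Fin 2) R) - 1) r c ∈ Ideal.span {w ^ i'}) → Commute g g'

namespace Symb

variable {p : ℕ} {R : Type*} [CommRing R] {Γ : Type*} [Group Γ]

abbrev SL2 (R : Type*) [CommRing R] := Matrix.SpecialLinearGroup (Fin 2) R

def eM (a : R) : SL2 R := ⟨!![1, a; 0, 1], by simp [Matrix.det_fin_two]⟩

def fM (a : R) : SL2 R := ⟨!![1, 0; a, 1], by simp [Matrix.det_fin_two]⟩

def dM0 (v : Rˣ) : SL2 R := ⟨!![(v : R), 0; 0, ((v⁻¹ : Rˣ) : R)], by simp [Matrix.det_fin_two]⟩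

theorem eM_add (a b : R) : eM (a + b) = eM a * eM b := by
  ext i k
  fin_cases i <;> fin_cases k <;>
    simp [eM, Matrix.SpecialLinearGroup.coe_mul, Matrix.mul_apply, Fin.sum_univ_two, add_comm]

theorem fM_add (a b : R) : fM (a + b) = fM a * fM b := by
  ext i k
  fin_cases i <;> fin_cases k <;>
    simp [fM, Matrix.SpecialLinearGroup.coe_mul, Matrix.mul_apply, Fin.sum_univ_two]

theorem dM0_mul (v u : Rˣ) : dM0 (v * u) = dM0 v * dM0 u := by
  ext i k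
  fin_cases i <;> fin_cases k <;>
    simp [dM0, Matrix.SpecialLinearGroup.coe_mul, Matrix.mul_apply, Fin.sum_univ_two, mul_comm]

def dM : Rˣ →* SL2 R := MonoidHom.mk' dM0 dM0_mul

theorem dM_eM (v : Rˣ) (a : R) : dM v * eM a = eM ((v : R) ^ 2 * a) * dM v := by
  ext i k
  fin_cases i <;> fin_cases k <;>
    simp [dM, dM0, eM, Matrix.SpecialLinearGroup.coe_mul, Matrix.mul_apply, Fin.sum_univ_two]
  linear_combination (-(v : R) * a) * v.mul_inv

theorem dM_fM (v : Rˣ) (a : R) : dM v⁻¹ * fM a = fM ((v : R) ^ 2 * a) * dM v⁻¹ := by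
  ext i k
  fin_cases i <;> fin_cases k <;>
    simp [dM, dM0, fM, Matrix.SpecialLinearGroup.coe_mul, Matrix.mul_apply, Fin.sum_univ_two,
      -map_inv]
  linear_combination (-(v : R) * a) * v.mul_inv

theorem eM_fM (a b : R) (u : Rˣ) (hu : (u : R) = 1 + a * b) :
    eM a * fM b = fM (b * ((u⁻¹ : Rˣ) : R)) * dM u * eM (a * ((u⁻¹ : Rˣ) : R)) := by
  have h := u.mul_inv
  ext i k
  fin_cases i <;> fin_cases k <;>
    simp [dM, dM0, eM, fM, Matrix.SpecialLinearGroup.coe_mul, Matrix.mul_apply, Fin.sum_univ_two]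
  · exact hu.symm
  · linear_combination (-a) * h
  · linear_combination (-1) * h + ((u⁻¹ : Rˣ) : R) * hu

variable (S : SymSetup p R Γ)

/-- the ideal `(w^n)` -/
def I (n : ℕ) : Ideal R := Ideal.span {S.w ^ n}

variable {S}

theorem mem_I {n : ℕ} {a : R} : a ∈ I S n ↔ ∃ b, a = S.w ^ n * b := by
  simp only [I, Ideal.mem_span_singleton]
  rfl

theorem I_anti {m n : ℕ} (h : m ≤ n) {a : R} (ha : a ∈ I S n) : a ∈ I S m := by
  obtain ⟨b, rfl⟩ := mem_I.1 ha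
  obtain ⟨k, rfl⟩ := Nat.exists_eq_add_of_le h
  exact mem_I.2 ⟨S.w ^ k * b, by ring⟩

theorem mul_mem_I {m n : ℕ} {a b : R} (ha : a ∈ I S m) (hb : b ∈ I S n) :
    a * b ∈ I S (m + n) := by
  obtain ⟨c, rfl⟩ := mem_I.1 ha
  obtain ⟨d, rfl⟩ := mem_I.1 hb
  exact mem_I.2 ⟨c * d, by ring⟩

theorem pow_mem_I {m n : ℕ} (h : m ≤ n) : S.w ^ n ∈ I S m :=
  I_anti h (mem_I.2 ⟨1, by ring⟩)

theorem w_pow_eq_zero {n : ℕ} (h : S.L + 1 ≤ n) : S.w ^ n = 0 := by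
  obtain ⟨k, rfl⟩ := Nat.exists_eq_add_of_le h
  rw [pow_add, S.nil, zero_mul]

theorem ι_mem_I {n : ℕ} {a : R} (ha : a ∈ I S n) : S.ι a ∈ I S n := by
  obtain ⟨b, rfl⟩ := mem_I.1 ha
  exact mem_I.2 ⟨(-1) ^ n * S.ι b, by rw [map_mul, map_pow, S.ι_w, neg_pow]; ring⟩

theorem ι_w_even (i : ℕ) : S.ι (S.w ^ (2 * i)) = S.w ^ (2 * i) := by
  rw [map_pow, S.ι_w, pow_mul, pow_mul, neg_sq]

theorem ι_w_odd (i : ℕ) : S.ι (S.w ^ (2 * i + 1)) = -S.w ^ (2 * i + 1) := by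
  rw [pow_succ, map_mul, ι_w_even, S.ι_w]; ring

variable (S) in
/-- odd elements of `I n` -/
def Od (n : ℕ) (a : R) : Prop := S.ι a = -a ∧ a ∈ I S n

variable (S) in
/-- even elements of `I n` -/
def Ev (n : ℕ) (a : R) : Prop := S.ι a = a ∧ a ∈ I S n

theorem Od.add {n : ℕ} {a b : R} (ha : Od S n a) (hb : Od S n b) : Od S n (a + b) :=
  ⟨by rw [map_add, ha.1, hb.1]; ring, add_mem ha.2 hb.2⟩

theorem Od.neg {n : ℕ} {a : R} (ha : Od S n a) : Od S n (-a) :=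
  ⟨by rw [map_neg, ha.1], neg_mem ha.2⟩

theorem Od.zero (n : ℕ) : Od S n (0 : R) := ⟨by simp, zero_mem _⟩

theorem Od.mul_ev {n : ℕ} {a c : R} (ha : Od S n a) (hc : S.ι c = c) : Od S n (a * c) :=
  ⟨by rw [map_mul, ha.1, hc]; ring, Ideal.mul_mem_right _ _ ha.2⟩

theorem Od.ev_mul {n : ℕ} {a c : R} (ha : Od S n a) (hc : S.ι c = c) : Od S n (c * a) := by
  rw [mul_comm]; exact ha.mul_ev hc

theorem Od.anti {m n : ℕ} {a : R} (ha : Od S n a) (h : m ≤ n) : Od S m a :=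
  ⟨ha.1, I_anti h ha.2⟩

theorem Od.mul_od {m n : ℕ} {a b : R} (ha : Od S m a) (hb : Od S n b) : Ev S (m + n) (a * b) :=
  ⟨by rw [map_mul, ha.1, hb.1]; ring, mul_mem_I ha.2 hb.2⟩

theorem Ev.anti {m n : ℕ} {a : R} (ha : Ev S n a) (h : m ≤ n) : Ev S m a :=
  ⟨ha.1, I_anti h ha.2⟩

theorem Ev.neg {n : ℕ} {a : R} (ha : Ev S n a) : Ev S n (-a) :=
  ⟨by rw [map_neg, ha.1], neg_mem ha.2⟩

theorem Ev.mul_ev {n : ℕ} {a c : R} (ha : Ev S n a) (hc : S.ι c = c) : Ev S n (a * c) :=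
  ⟨by rw [map_mul, ha.1, hc], Ideal.mul_mem_right _ _ ha.2⟩

theorem Ev.pow {n i : ℕ} (h : n ≤ 2 * i) : Ev S n (S.w ^ (2 * i)) :=
  ⟨ι_w_even i, pow_mem_I h⟩

theorem Od.pow {n i : ℕ} (h : n ≤ 2 * i + 1) : Od S n (S.w ^ (2 * i + 1)) :=
  ⟨ι_w_odd i, pow_mem_I h⟩

theorem exists_half (hp : p.Prime) (hp2 : p ≠ 2) [CharP R p] :
    ∃ k : ℕ, (2 : R) * (k : R) = 1 := by
  obtain ⟨k, hk⟩ := hp.odd_of_ne_two hp2
  refine ⟨k + 1, ?_⟩
  have h : ((p : ℕ) : R) = 0 := CharP.cast_eq_zero R p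
  rw [hk] at h
  push_cast at h ⊢
  linear_combination h

theorem Od.div (hp : p.Prime) (hp2 : p ≠ 2) [CharP R p] {n i : ℕ} {a : R}
    (ha : Od S (n + 2 * i) a) : ∃ a', Od S n a' ∧ a = S.w ^ (2 * i) * a' := by
  obtain ⟨k, hk⟩ := exists_half (R := R) hp hp2
  obtain ⟨b, hb⟩ := mem_I.1 ha.2
  have h0 : S.w ^ n * b ∈ I S n := mem_I.2 ⟨b, rfl⟩
  have h1 : a = S.w ^ (2 * i) * (S.w ^ n * b) := by rw [hb]; ring
  have h2 : -a = S.w ^ (2 * i) * S.ι (S.w ^ n * b) := by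
    rw [← ha.1]; conv_lhs => rw [h1, map_mul, ι_w_even]
  refine ⟨(k : R) * (S.w ^ n * b - S.ι (S.w ^ n * b)), ⟨?_, ?_⟩, ?_⟩
  · rw [map_mul, map_natCast, map_sub, S.ι_ι]; ring
  · exact Ideal.mul_mem_left _ _ (sub_mem h0 (ι_mem_I h0))
  · linear_combination (-a) * hk + (k : R) * h1 - (k : R) * h2

theorem ι_inv {v : Rˣ} (hv : S.ι v = v) : S.ι ((v⁻¹ : Rˣ) : R) = ((v⁻¹ : Rˣ) : R) := by
  have h : S.ι ((v⁻¹ : Rˣ) : R) * (v : R) = 1 := by
    rw [← hv, ← map_mul, Units.inv_mul, map_one]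
  have h2 := v.mul_inv
  linear_combination ((v⁻¹ : Rˣ) : R) * h - S.ι ((v⁻¹ : Rˣ) : R) * h2

variable (S) in
/-- even units congruent to one modulo `w^n` -/
def Tn (n : ℕ) : Subgroup Rˣ where
  carrier := {v | S.ι v = v ∧ (v : R) - 1 ∈ I S n}
  one_mem' := ⟨by simp, by simp⟩
  mul_mem' := by
    rintro a b ⟨ha, ha'⟩ ⟨hb, hb'⟩
    refine ⟨by simp [ha, hb], ?_⟩
    have : ((a * b : Rˣ) : R) - 1 = ((a : R) - 1) * b + ((b : R) - 1) := by push_cast; ring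
    rw [this]
    exact add_mem (Ideal.mul_mem_right _ _ ha') hb'
  inv_mem' := by
    rintro a ⟨ha, ha'⟩
    refine ⟨ι_inv ha, ?_⟩
    have : ((a⁻¹ : Rˣ) : R) - 1 = ((a : R) - 1) * (-((a⁻¹ : Rˣ) : R)) := by
      linear_combination a.mul_inv
    rw [this]
    exact Ideal.mul_mem_right _ _ ha'

theorem mem_Tn {n : ℕ} {v : Rˣ} : v ∈ Tn S n ↔ S.ι v = v ∧ (v : R) - 1 ∈ I S n := Iff.rfl

theorem isNilpotent_of_mem_I {n : ℕ} (hn : 1 ≤ n) {c : R} (hc : c ∈ I S n) : IsNilpotent c := by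
  obtain ⟨b, rfl⟩ := mem_I.1 (I_anti hn hc)
  exact ⟨S.L + 1, by rw [mul_pow, pow_one, S.nil, zero_mul]⟩

theorem exists_unit {n : ℕ} (hn : 1 ≤ n) {c : R} (hc : Ev S n c) :
    ∃ v ∈ Tn S n, (v : R) = 1 + c := by
  have h : IsUnit (1 + c) := (isNilpotent_of_mem_I hn hc.2).isUnit_one_add
  refine ⟨h.unit, ⟨?_, ?_⟩, rfl⟩
  · simp [hc.1]
  · simpa using hc.2

theorem exists_sqrt (hp : p.Prime) (hp2 : p ≠ 2) [CharP R p] :
    ∃ N : ℕ, ∀ n, 1 ≤ n → ∀ v ∈ Tn S n, v ^ (2 * N) = v := by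
  have : Fact p.Prime := ⟨hp⟩
  obtain ⟨k, hk⟩ := (hp.odd_of_ne_two hp2).pow (n := S.L + 1)
  refine ⟨k + 1, fun n hn v hv => ?_⟩
  have h1 : (v : R) ^ (p ^ (S.L + 1)) = 1 := by
    obtain ⟨b, hb⟩ := mem_I.1 (I_anti hn hv.2)
    have : (v : R) = 1 + S.w ^ 1 * b := by linear_combination hb
    rw [this, add_pow_char_pow, one_pow, mul_pow, pow_one,
      w_pow_eq_zero (Nat.lt_pow_self hp.one_lt).le, zero_mul, add_zero]
  have h2 : v ^ (p ^ (S.L + 1)) = 1 := by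
    ext; simpa using h1
  have : 2 * (k + 1) = p ^ (S.L + 1) + 1 := by omega
  rw [this, pow_succ, h2, one_mul]

/-! ### lifts -/

theorem exists_central {g g' : Γ} (h : S.ρ g = S.ρ g') : ∃ z, S.ρ z = 1 ∧ g' = z * g :=
  ⟨g' * g⁻¹, by simp [h], by simp⟩

theorem conj_congr {t t' : Γ} (h : S.ρ t = S.ρ t') (g : Γ) : t * g * t⁻¹ = t' * g * t'⁻¹ := by
  obtain ⟨z, hz, rfl⟩ := exists_central h
  have := (S.cen z (t * g * t⁻¹) hz).eq
  calc t * g * t⁻¹ = (t * g * t⁻¹ * z) * z⁻¹ := by group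
    _ = (z * (t * g * t⁻¹)) * z⁻¹ := by rw [this]
    _ = _ := by group

theorem comm_congr {g g' h h' : Γ} (hg : S.ρ g = S.ρ g') (hh : S.ρ h = S.ρ h') :
    ⁅g, h⁆ = ⁅g', h'⁆ := by
  have h1 : ⁅g, h⁆ = ⁅g', h⁆ := by
    rw [commutatorElement_def, commutatorElement_def, conj_congr hg]
  have h2 : ⁅h, g'⁆ = ⁅h', g'⁆ := by
    rw [commutatorElement_def, commutatorElement_def, conj_congr hh]
  rw [h1, ← commutatorElement_inv h, h2, commutatorElement_inv]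

theorem comm_mul_left {g h k : Γ} (hz : S.ρ ⁅h, k⁆ = 1) : ⁅g * h, k⁆ = ⁅g, k⁆ * ⁅h, k⁆ := by
  have h1 := (S.cen _ g hz).eq
  have h2 := (S.cen _ ⁅g, k⁆ hz).eq
  rw [← h2]
  calc ⁅g * h, k⁆ = (g * ⁅h, k⁆) * (k * g⁻¹ * k⁻¹) := by simp only [commutatorElement_def]; group
    _ = _ := by rw [← h1]; simp only [commutatorElement_def]; group

theorem comm_mul_right {g h k : Γ} (hz : S.ρ ⁅g, k⁆ = 1) : ⁅g, h * k⁆ = ⁅g, h⁆ * ⁅g, k⁆ := by
  have h1 := (S.cen _ h hz).eq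
  calc ⁅g, h * k⁆ = ⁅g, h⁆ * (h * ⁅g, k⁆) * h⁻¹ := by simp only [commutatorElement_def]; group
    _ = _ := by rw [← h1]; group

theorem eq_one_of_pow_eq_one (hp : p.Prime) {z : Γ} (hz : S.ρ z = 1) {n : ℕ} (hn : ¬ p ∣ n)
    (h : z ^ n = 1) : z = 1 := by
  obtain ⟨k, hk⟩ := S.pgrp z hz
  have h1 := orderOf_dvd_of_pow_eq_one h
  have h2 := orderOf_dvd_of_pow_eq_one hk
  have hc : Nat.Coprime (p ^ k) n := Nat.Coprime.pow_left k ((Nat.Prime.coprime_iff_not_dvd hp).2 hn)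
  exact orderOf_eq_one_iff.1 (Nat.eq_one_of_dvd_coprimes hc h2 h1)

variable (S) in
/-- congruence level of a matrix -/
def Lev (i : ℕ) (A : SL2 R) : Prop :=
  ∀ r c, ((A : Matrix (Fin 2) (Fin 2) R) - 1) r c ∈ I S i

theorem lev_eM {i : ℕ} {a : R} (h : a ∈ I S i) : Lev S i (eM a) := by
  intro r c
  fin_cases r <;> fin_cases c <;> simp [eM, h]

theorem lev_fM {i : ℕ} {a : R} (h : a ∈ I S i) : Lev S i (fM a) := by
  intro r c
  fin_cases r <;> fin_cases c <;> simp [fM, h]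

theorem lev_dM {i : ℕ} {v : Rˣ} (h : v ∈ Tn S i) : Lev S i (dM v) := by
  have h1 := h.2
  have h2 := (inv_mem h).2
  intro r c
  fin_cases r <;> fin_cases c <;> simp [dM, dM0, h1, h2]

theorem commute_of_lev {i i' : ℕ} {g g' : Γ} (h : S.L + 1 ≤ i + i') (hg : Lev S i (S.ρ g))
    (hg' : Lev S i' (S.ρ g')) : Commute g g' := S.tv i i' g g' h hg hg'

theorem exists_dM {v : Rˣ} (hv : v ∈ Tn S (2 * S.j)) : ∃ g, S.ρ g = dM v := by
  obtain ⟨g, hg⟩ := S.exH v ((v⁻¹ : Rˣ) : R) v.mul_inv hv.2 hv.1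
  exact ⟨g, Subtype.ext hg⟩

variable (S) in
/-- one of the two root subgroups, with the torus parametrised accordingly -/
structure Root where
  ε : R → SL2 R
  δ : Rˣ →* SL2 R
  ε_add : ∀ a b, ε (a + b) = ε a * ε b
  conj : ∀ v a, δ v * ε a = ε ((v : R) ^ 2 * a) * δ v
  exε : ∀ a, Od S (2 * S.j) a → ∃ g, S.ρ g = ε a
  exδ : ∀ v ∈ Tn S (2 * S.j), ∃ g, S.ρ g = δ v
  levε : ∀ i a, a ∈ I S i → Lev S i (ε a)
  levδ : ∀ i v, v ∈ Tn S i → Lev S i (δ v)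

variable (S) in
def rootE : Root S where
  ε := eM
  δ := dM
  ε_add := eM_add
  conj := dM_eM
  exε := fun a ha => by
    obtain ⟨g, hg⟩ := S.exE a ha.2 ha.1
    exact ⟨g, Subtype.ext hg⟩
  exδ := fun _ hv => exists_dM hv
  levε := fun _ _ h => lev_eM h
  levδ := fun _ _ h => lev_dM h

variable (S) in
def rootF : Root S where
  ε := fM
  δ := dM.comp invMonoidHom
  ε_add := fM_add
  conj := dM_fM
  exε := fun a ha => by
    obtain ⟨g, hg⟩ := S.exF a ha.2 ha.1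
    exact ⟨g, Subtype.ext hg⟩
  exδ := fun _ hv => exists_dM (inv_mem hv)
  levε := fun _ _ h => lev_fM h
  levδ := fun _ _ h => lev_dM (inv_mem h)

namespace Root

variable (D : Root S)

theorem ε_zero : D.ε 0 = 1 := by
  have h := D.ε_add 0 0
  rw [add_zero] at h
  exact mul_left_cancel (a := D.ε 0) (by rw [← h, mul_one])

theorem ε_neg (a : R) : D.ε (-a) = (D.ε a)⁻¹ := by
  rw [eq_inv_iff_mul_eq_one, ← D.ε_add, neg_add_cancel, ε_zero]

theorem conj' (v : Rˣ) (a : R) : D.δ v * D.ε a * (D.δ v)⁻¹ = D.ε ((v : R) ^ 2 * a) := by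
  rw [D.conj, mul_inv_cancel_right]

theorem ρ_comm {g g' : Γ} {a a' : R} (hg : S.ρ g = D.ε a) (hg' : S.ρ g' = D.ε a') :
    S.ρ ⁅g, g'⁆ = 1 := by
  rw [map_commutatorElement, hg, hg', commutatorElement_eq_one_iff_mul_comm, ← D.ε_add,
    ← D.ε_add, add_comm]

theorem ρ_commδ {g g' : Γ} {v u : Rˣ} (hg : S.ρ g = D.δ v) (hg' : S.ρ g' = D.δ u) :
    S.ρ ⁅g, g'⁆ = 1 := by
  rw [map_commutatorElement, hg, hg', commutatorElement_eq_one_iff_mul_comm, ← map_mul,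
    ← map_mul, mul_comm]

theorem comm_scale (hp : p.Prime) (hp2 : p ≠ 2) [CharP R p] {v : Rˣ} (hv : v ∈ Tn S (2 * S.j))
    {a a' : R} {g g' k k' : Γ} (hg : S.ρ g = D.ε a) (hg' : S.ρ g' = D.ε a')
    (hk : S.ρ k = D.ε (v * a)) (hk' : S.ρ k' = D.ε (v * a')) : ⁅k, k'⁆ = ⁅g, g'⁆ := by
  obtain ⟨N, hN⟩ := exists_sqrt (S := S) hp hp2
  have hj := S.j_pos
  obtain ⟨t, ht⟩ := D.exδ (v ^ N) (pow_mem hv N)
  have hv2 : ((v ^ N : Rˣ) : R) ^ 2 = v := by
    rw [← Units.val_pow_eq_pow_val, ← pow_mul, mul_comm, hN _ (by omega) v hv]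
  have h1 : S.ρ k = S.ρ (t * g * t⁻¹) := by
    rw [map_mul, map_mul, map_inv, ht, hg, conj', hv2, hk]
  have h2 : S.ρ k' = S.ρ (t * g' * t⁻¹) := by
    rw [map_mul, map_mul, map_inv, ht, hg', conj', hv2, hk']
  rw [comm_congr h1 h2, ← conjugate_commutatorElement,
    ← (S.cen _ t (D.ρ_comm hg hg')).eq, mul_inv_cancel_right]

theorem commute_lifts (hp : p.Prime) (hp2 : p ≠ 2) [CharP R p] {a a' : R}
    (ha : Od S (4 * S.j) a) (ha' : Od S (4 * S.j) a') {g g' : Γ} (hg : S.ρ g = D.ε a)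
    (hg' : S.ρ g' = D.ε a') : Commute g g' := by
  have hj := S.j_pos
  obtain ⟨b, hb, hab⟩ := Od.div hp hp2 (n := 2 * S.j) (i := S.j) (a := a)
    (by rwa [show 2 * S.j + 2 * S.j = 4 * S.j by ring])
  obtain ⟨b', hb', hab'⟩ := Od.div hp hp2 (n := 2 * S.j) (i := S.j) (a := a')
    (by rwa [show 2 * S.j + 2 * S.j = 4 * S.j by ring])
  obtain ⟨k, hk⟩ := D.exε b hb
  obtain ⟨k', hk'⟩ := D.exε b' hb'
  obtain ⟨v, hv, hv1⟩ := exists_unit (S := S) (n := 2 * S.j) (by omega) (Ev.pow le_rfl)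
  obtain ⟨u, hu, hu1⟩ := exists_unit (S := S) (n := 2 * S.j) (by omega) (Ev.pow le_rfl).neg
  have hgi : S.ρ g⁻¹ = D.ε (-a) := by rw [map_inv, hg, ε_neg]
  have hgi' : S.ρ g'⁻¹ = D.ε (-a') := by rw [map_inv, hg', ε_neg]
  have e1 : ⁅k * g, k' * g'⁆ = ⁅k, k'⁆ := D.comm_scale hp hp2 hv hk hk'
    (by rw [map_mul, hk, hg, ← D.ε_add, hv1, hab]; congr 1; ring)
    (by rw [map_mul, hk', hg', ← D.ε_add, hv1, hab']; congr 1; ring)
  have e2 : ⁅k * g⁻¹, k' * g'⁻¹⁆ = ⁅k, k'⁆ := D.comm_scale hp hp2 hu hk hk'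
    (by rw [map_mul, hk, hgi, ← D.ε_add, hu1, hab]; congr 1; ring)
    (by rw [map_mul, hk', hgi', ← D.ε_add, hu1, hab']; congr 1; ring)
  have hkg' : S.ρ (k' * g') = D.ε (b' + a') := by rw [map_mul, hk', hg', D.ε_add]
  have hkgi' : S.ρ (k' * g'⁻¹) = D.ε (b' + -a') := by rw [map_mul, hk', hgi', D.ε_add]
  rw [comm_mul_left (D.ρ_comm hg hkg'), comm_mul_right (D.ρ_comm hk hg'),
    comm_mul_right (D.ρ_comm hg hg')] at e1
  rw [comm_mul_left (D.ρ_comm hgi hkgi'), comm_mul_right (D.ρ_comm hk hgi'),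
    comm_mul_right (D.ρ_comm hgi hgi')] at e2
  have i1 : ⁅k, g'⁻¹⁆ = ⁅k, g'⁆⁻¹ := by
    rw [eq_inv_iff_mul_eq_one, ← comm_mul_right (D.ρ_comm hk hg')]; simp
  have i2 : ⁅g⁻¹, k'⁆ = ⁅g, k'⁆⁻¹ := by
    rw [eq_inv_iff_mul_eq_one, ← comm_mul_left (D.ρ_comm hg hk')]; simp
  have i3 : ⁅g⁻¹, g'⁻¹⁆ = ⁅g, g'⁆ := by
    have j1 : ⁅g⁻¹, g'⁻¹⁆ = ⁅g, g'⁻¹⁆⁻¹ := by
      rw [eq_inv_iff_mul_eq_one, ← comm_mul_left (D.ρ_comm hg hgi')]; simp
    have j2 : ⁅g, g'⁻¹⁆ = ⁅g, g'⁆⁻¹ := by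
      rw [eq_inv_iff_mul_eq_one, ← comm_mul_right (D.ρ_comm hg hg')]; simp
    rw [j1, j2, inv_inv]
  rw [i1, i2, i3] at e2
  have c1 := (S.cen _ ⁅g, k'⁆ (D.ρ_comm hk hg')).eq
  have f1 : ⁅k, g'⁆ * ⁅g, k'⁆ * ⁅g, g'⁆ = 1 :=
    mul_left_cancel (a := ⁅k, k'⁆) (by rw [mul_one]; conv_rhs => rw [← e1]
                                       group)
  have f2 : (⁅k, g'⁆ * ⁅g, k'⁆)⁻¹ * ⁅g, g'⁆ = 1 :=
    mul_left_cancel (a := ⁅k, k'⁆) (by rw [mul_one, c1]; conv_rhs => rw [← e2]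
                                       group)
  have f3 : ⁅g, g'⁆ ^ 2 = 1 := by
    have : ⁅k, g'⁆ * ⁅g, k'⁆ = ⁅g, g'⁆ := (inv_mul_eq_one.1 f2)
    rw [this] at f1
    rw [pow_two, f1]
  have := eq_one_of_pow_eq_one hp (D.ρ_comm hg hg')
    (fun h => hp2 ((Nat.prime_dvd_prime_iff_eq hp Nat.prime_two).1 h)) f3
  exact commutatorElement_eq_one_iff_commute.1 this

theorem exists_x (hp : p.Prime) (hp2 : p ≠ 2) [CharP R p] :
    ∃ x : R → Γ, (∀ a, Od S (6 * S.j) a → S.ρ (x a) = D.ε a) ∧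
      (∀ a b, Od S (6 * S.j) a → Od S (6 * S.j) b → x (a + b) = x a * x b) ∧
      (∀ (t : Γ) (v : Rˣ) (a : R), S.ι v = v → S.ρ t = D.δ v → Od S (6 * S.j) a →
        t * x a * t⁻¹ = x ((v : R) ^ 2 * a)) := by
  classical
  have hj := S.j_pos
  obtain ⟨N, hN⟩ := exists_sqrt (S := S) hp hp2
  obtain ⟨v0, hv0, hv1⟩ := exists_unit (S := S) (n := 2 * S.j) (by omega) (Ev.pow le_rfl)
  obtain ⟨t0, ht0⟩ := D.exδ (v0 ^ N) (pow_mem hv0 N)
  have hv2 : ((v0 ^ N : Rˣ) : R) ^ 2 = 1 + S.w ^ (2 * S.j) := by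
    rw [← Units.val_pow_eq_pow_val, ← pow_mul, mul_comm, hN _ (by omega) v0 hv0, hv1]
  let IsX : Γ → R → Prop := fun g a => ∃ a' g', Od S (4 * S.j) a' ∧ a = S.w ^ (2 * S.j) * a' ∧
    S.ρ g' = D.ε a' ∧ g = ⁅t0, g'⁆
  have hex : ∀ a, Od S (6 * S.j) a → ∃ g, IsX g a := by
    intro a ha
    obtain ⟨a', ha', haa⟩ := Od.div hp hp2 (n := 4 * S.j) (i := S.j) (a := a)
      (by rwa [show 4 * S.j + 2 * S.j = 6 * S.j by ring])
    obtain ⟨g', hg'⟩ := D.exε a' (ha'.anti (by omega))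
    exact ⟨_, a', g', ha', haa, hg', rfl⟩
  have hlift : ∀ g a, IsX g a → S.ρ g = D.ε a := by
    rintro g a ⟨a', g', -, rfl, hg', rfl⟩
    rw [commutatorElement_def, map_mul, map_mul, map_mul, map_inv, map_inv, ht0, hg', conj', hv2,
      ← ε_neg, ← D.ε_add]
    congr 1; ring
  have huniq : ∀ g1 g2 a, IsX g1 a → IsX g2 a → g1 = g2 := by
    rintro g1 g2 a ⟨a1, k1, ha1, e1, hk1, rfl⟩ ⟨a2, k2, ha2, e2, hk2, rfl⟩
    have hd : a2 - a1 ∈ I S (S.L + 1 - 2 * S.j) := by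
      by_cases h : 2 * S.j ≤ S.L + 1
      · exact S.ann _ _ h (by linear_combination e1 - e2)
      · rw [show S.L + 1 - 2 * S.j = 0 by omega]
        exact mem_I.2 ⟨a2 - a1, by ring⟩
    have hk : S.ρ (k1⁻¹ * k2) = D.ε (a2 - a1) := by
      rw [map_mul, map_inv, hk1, hk2, ← ε_neg, ← D.ε_add]; congr 1; ring
    have hc : Commute t0 (k1⁻¹ * k2) :=
      commute_of_lev (S := S) (i := 2 * S.j) (i' := S.L + 1 - 2 * S.j) (by omega)
        (by rw [ht0]; exact D.levδ _ _ (pow_mem hv0 N)) (by rw [hk]; exact D.levε _ _ hd)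
    have hz : ⁅t0, k1⁻¹ * k2⁆ = 1 := commutatorElement_eq_one_iff_commute.2 hc
    have : k2 = k1 * (k1⁻¹ * k2) := by group
    rw [this, comm_mul_right (S := S) (by rw [hz, map_one]), hz, mul_one]
  let x : R → Γ := fun a => if h : ∃ g, IsX g a then h.choose else 1
  have hx : ∀ a, Od S (6 * S.j) a → IsX (x a) a := by
    intro a ha
    simp only [x, dif_pos (hex a ha)]
    exact (hex a ha).choose_spec
  refine ⟨x, fun a ha => hlift _ _ (hx a ha), fun a b ha hb => ?_, fun t v a hv ht ha => ?_⟩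
  · refine huniq _ _ _ (hx _ (ha.add hb)) ?_
    have hlb := hlift _ _ (hx b hb)
    obtain ⟨a1, k1, ha1, e1, hk1, f1⟩ := hx a ha
    obtain ⟨a2, k2, ha2, e2, hk2, f2⟩ := hx b hb
    refine ⟨a1 + a2, k1 * k2, ha1.add ha2, by rw [e1, e2]; ring,
      by rw [map_mul, hk1, hk2, D.ε_add], ?_⟩
    have hc := (D.commute_lifts hp hp2 ha1 (hb.anti (by omega)) hk1 hlb).eq
    calc x a * x b = ⁅t0, k1⁆ * (x b * k1) * k1⁻¹ := by rw [f1]; group
      _ = ⁅t0, k1⁆ * (k1 * ⁅t0, k2⁆) * k1⁻¹ := by rw [← hc, f2]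
      _ = _ := by simp only [commutatorElement_def]; group
  · have hv' : S.ι ((v : R) ^ 2) = (v : R) ^ 2 := by rw [map_pow, hv]
    refine huniq _ _ _ ?_ (hx _ (ha.ev_mul hv'))
    obtain ⟨a1, k1, ha1, e1, hk1, f1⟩ := hx a ha
    refine ⟨(v : R) ^ 2 * a1, t * k1 * t⁻¹, ha1.ev_mul hv', by rw [e1]; ring,
      by rw [map_mul, map_mul, map_inv, ht, hk1, conj'], ?_⟩
    rw [f1, conjugate_commutatorElement]
    refine comm_congr (S := S) ?_ rfl
    rw [map_mul, map_mul, map_inv, ht, ht0, ← map_mul, mul_comm v, map_mul, mul_inv_cancel_right]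

theorem out_fixed (hp : p.Prime) (hp2 : p ≠ 2) [CharP R p] (κ : Γ →* Γ) {c : R}
    (hc : S.ι c = -c) (hκ : ∀ g, S.ρ (κ g) = D.ε c * S.ρ g * (D.ε c)⁻¹) {t t' : Γ} {v u : Rˣ}
    (hv : v ∈ Tn S (6 * S.j)) (hu : u ∈ Tn S (6 * S.j)) (ht : S.ρ t = D.δ v)
    (ht' : S.ρ t' = D.δ u) : κ ⁅t, t'⁆ = ⁅t, t'⁆ := by
  obtain ⟨x, hx1, hx2, hx3⟩ := D.exists_x hp hp2
  have hod : ∀ v ∈ Tn S (6 * S.j), Od S (6 * S.j) (((v : R) ^ 2 - 1) * -c) := by
    intro v hv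
    have h2 := pow_mem hv 2
    refine ⟨?_, Ideal.mul_mem_right _ _ (by simpa using h2.2)⟩
    rw [map_mul, map_sub, map_pow, hv.1, map_neg, hc, map_one]; ring
  have hk : ∀ t v, v ∈ Tn S (6 * S.j) → S.ρ t = D.δ v →
      S.ρ (κ t) = S.ρ (x (((v : R) ^ 2 - 1) * -c) * t) := by
    intro t v hv ht
    rw [hκ, map_mul, hx1 _ (hod v hv), ht, ← ε_neg, mul_assoc, D.conj, ← mul_assoc, ← D.ε_add]
    congr 2; ring
  rw [map_commutatorElement, comm_congr (hk t v hv ht) (hk t' u hu ht')]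
  have ob := hod v hv
  have ob' := hod u hu
  obtain ⟨b, hb⟩ : ∃ b, b = ((v : R) ^ 2 - 1) * -c := ⟨_, rfl⟩
  obtain ⟨b', hb'⟩ : ∃ b', b' = ((u : R) ^ 2 - 1) * -c := ⟨_, rfl⟩
  rw [← hb] at ob ⊢
  rw [← hb'] at ob' ⊢
  have hv' : S.ι ((v : R) ^ 2) = (v : R) ^ 2 := by rw [map_pow, hv.1]
  have hu' : S.ι ((u : R) ^ 2) = (u : R) ^ 2 := by rw [map_pow, hu.1]
  have e1 : x b * t * (x b' * t') = x (b + (v : R) ^ 2 * b') * (t * t') := by
    rw [hx2 _ _ ob (ob'.ev_mul hv'), ← hx3 t v b' hv.1 ht ob']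
    simp only [mul_assoc, inv_mul_cancel_left]
  have e2 : x b' * t' * (x b * t) = x (b + (v : R) ^ 2 * b') * (t' * t) := by
    rw [show b + (v : R) ^ 2 * b' = b' + (u : R) ^ 2 * b by rw [hb, hb']; ring,
      hx2 _ _ ob' (ob.ev_mul hu'), ← hx3 t' u b hu.1 ht' ob]
    simp only [mul_assoc, inv_mul_cancel_left]
  have hz := (S.cen _ (x (b + (v : R) ^ 2 * b')) (D.ρ_commδ ht ht')).eq
  calc ⁅x b * t, x b' * t'⁆ = (x b * t * (x b' * t')) * (x b' * t' * (x b * t))⁻¹ := by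
        simp only [commutatorElement_def]; group
    _ = x (b + (v : R) ^ 2 * b') * ⁅t, t'⁆ * (x (b + (v : R) ^ 2 * b'))⁻¹ := by
        rw [e1, e2]; simp only [commutatorElement_def, mul_inv_rev, mul_assoc]
    _ = _ := by rw [← hz, mul_inv_cancel_right]

end Root

/-! ### the symbol calculus -/

variable (S) in
/-- the central kernel as a commutative group -/
def Z : Type _ := S.ρ.ker

instance : CommGroup (Z S) :=
  { (inferInstance : Group S.ρ.ker) with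
    mul_comm := fun a b => Subtype.ext (S.cen a.1 b.1 a.2).eq }

def ζ : Z S →* Γ := S.ρ.ker.subtype

theorem ζ_inj : Function.Injective (ζ : Z S → Γ) := Subtype.val_injective

theorem ρ_ζ (z : Z S) : S.ρ (ζ z) = 1 := z.2

theorem ζ_comm (z : Z S) (g : Γ) : ζ z * g = g * ζ z := (S.cen _ g (ρ_ζ z)).eq

variable (S) in
abbrev T := Tn S (2 * S.j)

noncomputable def H (v : T S) : Γ := (exists_dM v.2).choose

theorem ρ_H (v : T S) : S.ρ (H v) = dM (v : Rˣ) := (exists_dM v.2).choose_spec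

noncomputable def β0 (v u : T S) : Z S :=
  ⟨⁅H v, H u⁆, (rootE S).ρ_commδ (ρ_H v) (ρ_H u)⟩

theorem ζ_β0 (v u : T S) : ζ (β0 v u) = ⁅H v, H u⁆ := rfl

theorem β0_mul_left (v v' u : T S) : β0 (v * v') u = β0 v u * β0 v' u := by
  apply ζ_inj
  rw [map_mul, ζ_β0, ζ_β0, ζ_β0, ← comm_mul_left (ρ_ζ (β0 v' u))]
  exact comm_congr (by rw [map_mul, ρ_H, ρ_H, ρ_H, ← map_mul]; rfl) rfl

theorem β0_mul_right (v u u' : T S) : β0 v (u * u') = β0 v u * β0 v u' := by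
  apply ζ_inj
  rw [map_mul, ζ_β0, ζ_β0, ζ_β0, ← comm_mul_right (ρ_ζ (β0 v u'))]
  exact comm_congr rfl (by rw [map_mul, ρ_H, ρ_H, ρ_H, ← map_mul]; rfl)

noncomputable def β : T S →* T S →* Z S :=
  MonoidHom.mk' (fun v => MonoidHom.mk' (β0 v) (β0_mul_right v))
    (fun v v' => by ext u; exact β0_mul_left v v' u)

theorem ζ_β (v u : T S) {t t' : Γ} (ht : S.ρ t = dM (v : Rˣ)) (ht' : S.ρ t' = dM (u : Rˣ)) :
    ζ (β v u) = ⁅t, t'⁆ :=
  comm_congr (by rw [ρ_H, ht]) (by rw [ρ_H, ht'])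

theorem β_self (v : T S) : β v v = 1 := by
  apply ζ_inj
  rw [ζ_β v v (ρ_H v) (ρ_H v)]; simp

open Classical in
noncomputable def U (c : R) : T S :=
  if h : Ev S (2 * S.j) c then
    ⟨(exists_unit (by have := S.j_pos; omega) h).choose,
      (exists_unit (by have := S.j_pos; omega) h).choose_spec.1⟩ else 1

/-- value of an element of `T` -/
def val (v : T S) : R := ((v : Rˣ) : R)

theorem val_U {c : R} (h : Ev S (2 * S.j) c) : val (U c : T S) = 1 + c := by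
  simp only [val, U, dif_pos h]
  exact (exists_unit (by have := S.j_pos; omega) h).choose_spec.2

theorem val_mul (v u : T S) : val (v * u) = val v * val u := by simp [val]

theorem val_pow (v : T S) (k : ℕ) : val (v ^ k) = val v ^ k := by simp [val]

theorem val_mul_inv (v : T S) : val v * val v⁻¹ = 1 := by simp [val]

theorem val_inj {v u : T S} (h : val v = val u) : v = u := Subtype.ext (Units.ext h)

theorem ι_val (v : T S) : S.ι (val v) = val v := v.2.1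

theorem Od.mul_val {n : ℕ} {a : R} (ha : Od S n a) (v : T S) : Od S n (a * val v) :=
  ha.mul_ev (ι_val v)

theorem ev_of_od {a b : R} (ha : Od S (6 * S.j) a) (hb : Od S (6 * S.j) b) :
    Ev S (2 * S.j) (a * b) := (ha.mul_od hb).anti (by omega)

theorem U_eq {c : R} (h : Ev S (2 * S.j) c) {v : T S} (hv : val v = 1 + c) : U c = v :=
  val_inj (by rw [val_U h, hv])

variable (S) in
/-- canonical lifts of the two root subgroups -/
structure XY where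
  x : R → Γ
  y : R → Γ
  N : ℕ
  hN : ∀ v : T S, v ^ (2 * N) = v
  x_lift : ∀ a, Od S (6 * S.j) a → S.ρ (x a) = eM a
  y_lift : ∀ a, Od S (6 * S.j) a → S.ρ (y a) = fM a
  x_add : ∀ a b, Od S (6 * S.j) a → Od S (6 * S.j) b → x (a + b) = x a * x b
  y_add : ∀ a b, Od S (6 * S.j) a → Od S (6 * S.j) b → y (a + b) = y a * y b
  x_conj : ∀ (t : Γ) (v : T S) (a : R), S.ρ t = dM (v : Rˣ) → Od S (6 * S.j) a →
    t * x a = x (val v ^ 2 * a) * t
  y_conj : ∀ (t : Γ) (v : T S) (a : R), S.ρ t = dM (v : Rˣ) → Od S (6 * S.j) a →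
    t * y a = y (val v⁻¹ ^ 2 * a) * t

theorem exists_XY (hp : p.Prime) (hp2 : p ≠ 2) [CharP R p] : Nonempty (XY S) := by
  obtain ⟨x, hx1, hx2, hx3⟩ := (rootE S).exists_x hp hp2
  obtain ⟨y, hy1, hy2, hy3⟩ := (rootF S).exists_x hp hp2
  obtain ⟨N, hN⟩ := exists_sqrt (S := S) hp hp2
  have hj := S.j_pos
  refine ⟨⟨x, y, N, fun v => Subtype.ext (hN _ (by omega) v v.2), hx1, hy1, hx2, hy2,
    fun t v a ht ha => ?_, fun t v a ht ha => ?_⟩⟩
  · rw [val, ← hx3 t v a v.2.1 ht ha, inv_mul_cancel_right]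
  · rw [val, ← hy3 t (v⁻¹ : T S) a (v⁻¹).2.1 (by simpa [rootF] using ht) ha, inv_mul_cancel_right]

namespace XY

variable (X : XY S)

theorem x_zero : X.x 0 = 1 := by
  have h := X.x_add 0 0 (Od.zero _) (Od.zero _)
  rw [add_zero] at h
  exact mul_left_cancel (a := X.x 0) (by rw [← h, mul_one])

noncomputable def h (a b : R) : Γ :=
  (X.y (b * val (U (a * b) : T S)⁻¹))⁻¹ * X.x a * X.y b * (X.x (a * val (U (a * b) : T S)⁻¹))⁻¹

theorem xy (a b : R) : X.x a * X.y b =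
    X.y (b * val (U (a * b) : T S)⁻¹) * X.h a b * X.x (a * val (U (a * b) : T S)⁻¹) := by
  simp only [h, mul_assoc, mul_inv_cancel_left, inv_mul_cancel, mul_one]

theorem ρ_h {a b : R} (ha : Od S (6 * S.j) a) (hb : Od S (6 * S.j) b) :
    S.ρ (X.h a b) = dM ((U (a * b) : T S) : Rˣ) := by
  have e := eM_fM a b ((U (a * b) : T S) : Rˣ) (val_U (ev_of_od ha hb))
  have e2 := congrArg S.ρ (X.xy a b)
  rw [map_mul, map_mul, map_mul, X.x_lift _ ha, X.y_lift _ hb, X.x_lift _ (ha.mul_val _),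
    X.y_lift _ (hb.mul_val _), e] at e2
  exact (mul_left_cancel (mul_right_cancel e2)).symm

theorem h_zero {b : R} : X.h 0 b = 1 := by
  have : (U ((0 : R) * b) : T S) = 1 := U_eq (by simpa using ⟨by simp, zero_mem _⟩) (by simp [val])
  rw [h, this]
  simp [X.x_zero, val]

theorem hA {a b c : R} (ha : Od S (6 * S.j) a) (hb : Od S (6 * S.j) b)
    (hc : Od S (6 * S.j) c) :
    X.h (a + c) b = X.h c (b * val (U (a * b) : T S)⁻¹) * X.h a b := by
  set u : T S := U (a * b) with hu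
  set V : T S := U ((a + c) * b) with hV
  have hu1 : val u = 1 + a * b := val_U (ev_of_od ha hb)
  have hV1 : val V = 1 + (a + c) * b := val_U (ev_of_od (ha.add hc) hb)
  have iu := val_mul_inv u
  have iV := val_mul_inv V
  have hb1 := hb.mul_val u⁻¹
  have hu' : (U (c * (b * val u⁻¹)) : T S) = V * u⁻¹ := U_eq (ev_of_od hc hb1) (by
    rw [val_mul]; linear_combination val u⁻¹ * hV1 - val u⁻¹ * hu1 + iu)
  have hinv : val (V * u⁻¹)⁻¹ = val V⁻¹ * val u := by rw [← val_mul]; congr 1; simp [mul_comm]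
  have e1 := X.xy (a + c) b
  have e2 := X.xy a b
  have e3 := X.xy c (b * val u⁻¹)
  rw [hu', hinv] at e3
  rw [← hV] at e1
  rw [← hu] at e2
  have hk : Od S (6 * S.j) (val u⁻¹ ^ 2 * (c * (val V⁻¹ * val u))) :=
    (hc.mul_ev (by rw [map_mul, ι_val, ι_val])).ev_mul (by rw [map_pow, ι_val])
  have e4 := X.x_conj _ u _ (X.ρ_h ha hb) hk
  rw [show val u ^ 2 * (val u⁻¹ ^ 2 * (c * (val V⁻¹ * val u))) = c * (val V⁻¹ * val u) by
    linear_combination (c * (val V⁻¹ * val u) * (val u * val u⁻¹ + 1)) * iu] at e4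
  have e5 := X.x_add _ _ hk (ha.mul_val u⁻¹)
  rw [show val u⁻¹ ^ 2 * (c * (val V⁻¹ * val u)) + a * val u⁻¹ = (a + c) * val V⁻¹ by
    linear_combination (val u⁻¹ * c * val V⁻¹ + (a + c) * val V⁻¹) * iu - a * val u⁻¹ * iV
      + a * val u⁻¹ * val V⁻¹ * hV1 - (a + c) * val u⁻¹ * val V⁻¹ * hu1] at e5
  rw [show b * val u⁻¹ * (val V⁻¹ * val u) = b * val V⁻¹ by
    linear_combination b * val V⁻¹ * iu] at e3
  rw [add_comm a c, X.x_add _ _ hc ha, add_comm c a, mul_assoc, e2, ← mul_assoc, ← mul_assoc, e3,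
    mul_assoc _ _ (X.h a b), ← e4, e5] at e1
  simp only [mul_assoc] at e1
  have e6 := mul_left_cancel e1
  simp only [← mul_assoc] at e6
  exact (mul_right_cancel (mul_right_cancel e6)).symm

theorem hB {a b d : R} (ha : Od S (6 * S.j) a) (hb : Od S (6 * S.j) b)
    (hd : Od S (6 * S.j) d) :
    X.h a (b + d) = X.h a b * X.h (a * val (U (a * b) : T S)⁻¹) d := by
  set u : T S := U (a * b) with hu
  set V : T S := U (a * (b + d)) with hV
  have hu1 : val u = 1 + a * b := val_U (ev_of_od ha hb)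
  have hV1 : val V = 1 + a * (b + d) := val_U (ev_of_od ha (hb.add hd))
  have iu := val_mul_inv u
  have iV := val_mul_inv V
  have ha1 := ha.mul_val u⁻¹
  have hu' : (U (a * val u⁻¹ * d) : T S) = V * u⁻¹ := U_eq (ev_of_od ha1 hd) (by
    rw [val_mul]; linear_combination val u⁻¹ * hV1 - val u⁻¹ * hu1 + iu)
  have hinv : val (V * u⁻¹)⁻¹ = val V⁻¹ * val u := by rw [← val_mul]; congr 1; simp [mul_comm]
  have e1 := X.xy a (b + d)
  have e2 := X.xy a b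
  have e3 := X.xy (a * val u⁻¹) d
  rw [hu', hinv] at e3
  rw [← hV] at e1
  rw [← hu] at e2
  have hk : Od S (6 * S.j) (d * (val V⁻¹ * val u)) :=
    hd.mul_ev (by rw [map_mul, ι_val, ι_val])
  have e4 := X.y_conj _ u _ (X.ρ_h ha hb) hk
  have e5 := X.y_add _ _ (hb.mul_val u⁻¹) (hk.ev_mul (c := val u⁻¹ ^ 2) (by rw [map_pow, ι_val]))
  rw [show b * val u⁻¹ + val u⁻¹ ^ 2 * (d * (val V⁻¹ * val u)) = (b + d) * val V⁻¹ by
    linear_combination (val u⁻¹ * d * val V⁻¹ + (b + d) * val V⁻¹) * iu - b * val u⁻¹ * iV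
      + b * val u⁻¹ * val V⁻¹ * hV1 - (b + d) * val u⁻¹ * val V⁻¹ * hu1] at e5
  rw [show a * val u⁻¹ * (val V⁻¹ * val u) = a * val V⁻¹ by
    linear_combination a * val V⁻¹ * iu] at e3
  rw [X.y_add _ _ hb hd, ← mul_assoc, e2, mul_assoc _ _ (X.y d), e3, e5] at e1
  simp only [mul_assoc] at e1
  have e6 := mul_left_cancel e1
  rw [← mul_assoc (X.h a b), e4, mul_assoc] at e6
  have e7 := mul_left_cancel e6
  rw [← mul_assoc] at e7
  exact (mul_right_cancel e7).symm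

/-- the square root of the commutator pairing -/
noncomputable def β' : T S →* T S →* Z S := (β (S := S)) ^ X.N

theorem β'_apply (v u : T S) : X.β' v u = β v u ^ X.N := by simp [β']

theorem β'_sq (v u : T S) : X.β' v u ^ 2 = β v u := by
  rw [β'_apply, ← pow_mul, mul_comm, ← map_pow, X.hN]

theorem β'_self (v : T S) : X.β' v v = 1 := by rw [β'_apply, β_self, one_pow]

theorem hC {a b : R} (ha : Od S (6 * S.j) a) (hb : Od S (6 * S.j) b) (v : T S) :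
    X.h (a * val v) (b * val v⁻¹) = ζ (X.β' v (U (a * b))) * X.h a b := by
  have iv := val_mul_inv v
  have hs : val (v ^ X.N) ^ 2 = val v := by rw [← val_pow, ← pow_mul, mul_comm, X.hN]
  have hs' : val (v ^ X.N)⁻¹ ^ 2 = val v⁻¹ := by
    rw [← inv_pow, ← val_pow, ← pow_mul, mul_comm, X.hN]
  have ht := ρ_H (v ^ X.N)
  set t := H (v ^ X.N)
  have hx : ∀ c, Od S (6 * S.j) c → X.x (c * val v) = t * X.x c * t⁻¹ := fun c hc => by
    rw [X.x_conj t _ c ht hc, hs, mul_inv_cancel_right, mul_comm]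
  have hy : ∀ c, Od S (6 * S.j) c → X.y (c * val v⁻¹) = t * X.y c * t⁻¹ := fun c hc => by
    rw [X.y_conj t _ c ht hc, hs', mul_inv_cancel_right, mul_comm]
  have hβ : ζ (X.β' v (U (a * b))) = ⁅t, X.h a b⁆ := by
    rw [← ζ_β _ _ ht (X.ρ_h ha hb), β'_apply, map_pow β, MonoidHom.pow_apply]
  have hab : a * val v * (b * val v⁻¹) = a * b := by linear_combination a * b * iv
  rw [hβ, commutatorElement_def, inv_mul_cancel_right]
  simp only [h]
  rw [hab, mul_right_comm b, mul_right_comm a, hx _ ha, hy _ hb, hx _ (ha.mul_val _),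
    hy _ (hb.mul_val _)]
  simp only [mul_inv_rev, mul_assoc, inv_inv, inv_mul_cancel_left]

theorem hA' {a b c : R} (ha : Od S (6 * S.j) a) (hb : Od S (6 * S.j) b)
    (hc : Od S (6 * S.j) c) :
    X.h (a + c * val (U (a * b) : T S)) b =
      ζ (X.β' (U (a * b)) (U (c * b))) * X.h c b * X.h a b := by
  rw [X.hA ha hb (hc.mul_val _), X.hC hc hb]

theorem hB' {a b d : R} (ha : Od S (6 * S.j) a) (hb : Od S (6 * S.j) b)
    (hd : Od S (6 * S.j) d) :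
    X.h a (b + d * val (U (a * b) : T S)) =
      ζ (X.β' (U (a * b)) (U (a * d)))⁻¹ * X.h a b * X.h a d := by
  have := X.hC ha hd (U (a * b))⁻¹
  rw [inv_inv] at this
  rw [X.hB ha hb (hd.mul_val _), this, ← mul_assoc, ← ζ_comm, map_inv X.β', MonoidHom.inv_apply]

theorem pow_left {a b : R} (ha : Od S (6 * S.j) a) (hb : Od S (6 * S.j) b) (k : ℕ) :
    X.h (a * ∑ i ∈ Finset.range k, (1 + a * b) ^ i) b = X.h a b ^ k := by
  have hu1 : val (U (a * b) : T S) = 1 + a * b := val_U (ev_of_od ha hb)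
  induction k with
  | zero => simp [X.h_zero]
  | succ k ih =>
    have hσ : Od S (6 * S.j) (a * ∑ i ∈ Finset.range k, (1 + a * b) ^ i) :=
      ha.mul_ev (by simp only [map_sum, map_pow, ← hu1, ι_val])
    have e := X.hA' ha hb hσ
    have hU : (U (a * (∑ i ∈ Finset.range k, (1 + a * b) ^ i) * b) : T S) = U (a * b) ^ k :=
      U_eq (ev_of_od hσ hb) (by
        rw [val_pow, hu1]
        linear_combination (-1) * mul_geom_sum (1 + a * b) k)
    rw [hU, map_pow, X.β'_self, one_pow, map_one, one_mul, ih, hu1] at e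
    rw [pow_succ, ← e, Finset.sum_range_succ', pow_zero]
    congr 1
    simp only [pow_succ, ← Finset.sum_mul]; ring

theorem pow_right {a b : R} (ha : Od S (6 * S.j) a) (hb : Od S (6 * S.j) b) (k : ℕ) :
    X.h a (b * ∑ i ∈ Finset.range k, (1 + a * b) ^ i) = X.h a b ^ k := by
  have hu1 : val (U (a * b) : T S) = 1 + a * b := val_U (ev_of_od ha hb)
  induction k with
  | zero =>
    have h0 := X.hB' ha (Od.zero _) (Od.zero _)
    have : (U (a * 0) : T S) = 1 := U_eq (by simpa using ⟨by simp, zero_mem _⟩) (by simp [val])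
    rw [this] at h0
    simp only [zero_mul, add_zero, map_one, inv_one, one_mul] at h0
    simpa using mul_left_cancel (a := X.h a 0) (show X.h a 0 * X.h a 0 = X.h a 0 * 1 by
      rw [← h0, mul_one])
  | succ k ih =>
    have hσ : Od S (6 * S.j) (b * ∑ i ∈ Finset.range k, (1 + a * b) ^ i) :=
      hb.mul_ev (by simp only [map_sum, map_pow, ← hu1, ι_val])
    have e := X.hB' ha hb hσ
    have hU : (U (a * (b * ∑ i ∈ Finset.range k, (1 + a * b) ^ i)) : T S) = U (a * b) ^ k :=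
      U_eq (ev_of_od ha hσ) (by
        rw [val_pow, hu1]
        linear_combination (-1) * mul_geom_sum (1 + a * b) k)
    rw [hU, map_pow, X.β'_self, one_pow, inv_one, map_one, one_mul, ih, hu1] at e
    rw [pow_succ', ← e, Finset.sum_range_succ', pow_zero]
    congr 1
    simp only [pow_succ, ← Finset.sum_mul]; ring

theorem geom_char (hp : p.Prime) [CharP R p] (c : R) :
    ∑ i ∈ Finset.range p, (1 + c) ^ i = c ^ (p - 1) := by
  have : Fact p.Prime := ⟨hp⟩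
  let _ : Algebra (ZMod p) R := ZMod.algebra R p
  have h : (∑ i ∈ Finset.range p, (1 + Polynomial.X : Polynomial (ZMod p)) ^ i) =
      Polynomial.X ^ (p - 1) := by
    apply mul_left_cancel₀ (Polynomial.X_ne_zero (R := ZMod p))
    have h1 := mul_geom_sum (1 + Polynomial.X : Polynomial (ZMod p)) p
    rw [add_pow_char, one_pow] at h1
    rw [← pow_succ', Nat.sub_add_cancel hp.one_le]
    linear_combination h1
  have := congrArg (Polynomial.aeval c) h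
  simpa using this

theorem pow_p_left (hp : p.Prime) [CharP R p] {a b : R} (ha : Od S (6 * S.j) a)
    (hb : Od S (6 * S.j) b) : X.h (a * (a * b) ^ (p - 1)) b = X.h a b ^ p := by
  rw [← X.pow_left ha hb p, geom_char hp]

theorem pow_p_right (hp : p.Prime) [CharP R p] {a b : R} (ha : Od S (6 * S.j) a)
    (hb : Od S (6 * S.j) b) : X.h a (b * (a * b) ^ (p - 1)) = X.h a b ^ p := by
  rw [← X.pow_right ha hb p, geom_char hp]

noncomputable def Θ (n c : R) : Z S :=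
  X.β' (U n) (U (n * c) * (U (-c))⁻¹) * X.β' (U (n * c)) (U (-c))

theorem theta {a b n : R} (ha : Od S (6 * S.j) a) (hb : Od S (6 * S.j) b)
    (hn : Ev S (2 * S.j) n) : X.h (a * n) b = ζ (X.Θ n (a * b)) * X.h a (b * n) := by
  have hc := ev_of_od ha hb
  set u : T S := U (-(a * b)) with hu
  set v : T S := U n with hv
  set r : T S := U (n * (a * b)) with hr
  have hu1 : val u = 1 + -(a * b) := val_U hc.neg
  have hv1 : val v = 1 + n := val_U hn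
  have hr1 : val r = 1 + n * (a * b) := val_U (hn.mul_ev hc.1)
  have iu := val_mul_inv u
  have iv := val_mul_inv v
  have hb1 := hb.mul_val u⁻¹
  have hbn := hb.mul_ev hn.1
  have e1 := X.hA ha.neg hb (ha.mul_val v)
  have e2 := X.hA ha.neg hb ha
  rw [neg_mul, ← hu] at e1 e2
  rw [neg_add_cancel, X.h_zero] at e2
  rw [show -a + a * val v = a * n by rw [hv1]; ring] at e1
  have e3 := X.hC ha (hb1.mul_val v) v
  rw [show b * val u⁻¹ * val v * val v⁻¹ = b * val u⁻¹ by linear_combination b * val u⁻¹ * iv,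
    U_eq (v := r * u⁻¹) (ev_of_od ha (hb1.mul_val v)) (by
      rw [val_mul, hr1, hv1]; linear_combination iu - val u⁻¹ * hu1)] at e3
  have e4 := X.hB' ha hbn hb1
  rw [show a * (b * n) = n * (a * b) by ring, ← hr,
    U_eq (v := u⁻¹) (ev_of_od ha hb1) (by linear_combination iu - val u⁻¹ * hu1),
    show b * n + b * val u⁻¹ * val r = b * val u⁻¹ * val v by
      rw [hr1, hv1]; linear_combination (-(b * n)) * iu + b * n * val u⁻¹ * hu1,
    map_inv (X.β' r), inv_inv] at e4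
  rw [e1, e3, e4, Θ, map_mul ζ, ← hv, ← hr, ← hu]
  simp only [mul_assoc]
  rw [← e2, mul_one]

/-- the obstruction in degree `k` -/
noncomputable def th (k : ℕ) : Z S :=
  X.Θ (S.w ^ (2 * (S.j + 1))) (S.w ^ (2 * (k - S.j - 1))) *
    (X.Θ (S.w ^ (2 * S.j)) (S.w ^ (2 * (k - S.j))))⁻¹

theorem step {i i' : ℕ} (hi : 4 * S.j ≤ i) (hi' : 3 * S.j ≤ i') :
    X.h (S.w ^ (2 * (i + 1) + 1)) (S.w ^ (2 * i' + 1)) =
      ζ (X.th (i + i' + 2)) * X.h (S.w ^ (2 * i + 1)) (S.w ^ (2 * (i' + 1) + 1)) := by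
  obtain ⟨q, rfl⟩ : ∃ q, i = q + S.j := ⟨i - S.j, by omega⟩
  have ha : Od S (6 * S.j) (S.w ^ (2 * q + 1)) := Od.pow (by omega)
  have hb : Od S (6 * S.j) (S.w ^ (2 * i' + 1)) := Od.pow (by omega)
  have hb' : Od S (6 * S.j) (S.w ^ (2 * (i' + 1) + 1)) := Od.pow (by omega)
  have e1 := X.theta ha hb (Ev.pow (i := S.j + 1) (by omega))
  have e2 := X.theta ha hb' (Ev.pow (i := S.j) (by omega))
  simp only [← pow_add] at e1 e2
  rw [show 2 * q + 1 + 2 * (S.j + 1) = 2 * (q + S.j + 1) + 1 by ring,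
    show 2 * q + 1 + (2 * i' + 1) = 2 * (q + S.j + i' + 2 - S.j - 1) by omega] at e1
  rw [show 2 * q + 1 + 2 * S.j = 2 * (q + S.j) + 1 by ring,
    show 2 * q + 1 + (2 * (i' + 1) + 1) = 2 * (q + S.j + i' + 2 - S.j) by omega,
    show 2 * (i' + 1) + 1 + 2 * S.j = 2 * i' + 1 + 2 * (S.j + 1) by ring] at e2
  rw [e1, e2, th, map_mul, map_inv, mul_assoc, inv_mul_cancel_left]

theorem iter (n : ℕ) {i i' : ℕ} (hi : 4 * S.j ≤ i) (hi' : 3 * S.j ≤ i') :
    X.h (S.w ^ (2 * (i + n) + 1)) (S.w ^ (2 * i' + 1)) =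
      ζ (X.th (i + i' + 1 + n) ^ n) * X.h (S.w ^ (2 * i + 1)) (S.w ^ (2 * (i' + n) + 1)) := by
  induction n generalizing i' with
  | zero => simp
  | succ n ih =>
    rw [← add_assoc, X.step (by omega) hi', ih (by omega), ← mul_assoc, ← map_mul, pow_succ' (X.th _),
      show i + n + i' + 2 = i + i' + 1 + (n + 1) by ring,
      show i + (i' + 1) + 1 + n = i + i' + 1 + (n + 1) by ring,
      show i' + 1 + n = i' + (n + 1) by ring]

theorem th_pow_eq_one (hp : p.Prime) [CharP R p] {k : ℕ} (hk : 7 * S.j + 1 ≤ k) :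
    X.th (k * p) ^ (k * (p - 1)) = 1 := by
  obtain ⟨i', rfl⟩ : ∃ i', k = 4 * S.j + i' + 1 := ⟨k - 4 * S.j - 1, by omega⟩
  have ha : Od S (6 * S.j) (S.w ^ (2 * (4 * S.j) + 1)) := Od.pow (by omega)
  have hb : Od S (6 * S.j) (S.w ^ (2 * i' + 1)) := Od.pow (by omega)
  have e1 := X.pow_p_left hp ha hb
  have e2 := X.pow_p_right hp ha hb
  have e3 := X.iter ((4 * S.j + i' + 1) * (p - 1)) (i := 4 * S.j) (i' := i') le_rfl (by omega)
  simp only [← pow_add, ← pow_mul] at e1 e2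
  obtain ⟨q, rfl⟩ : ∃ q, p = q + 1 := ⟨p - 1, (Nat.sub_add_cancel hp.one_le).symm⟩
  simp only [Nat.add_sub_cancel] at *
  rw [show 2 * (4 * S.j + (4 * S.j + i' + 1) * q) + 1 =
      2 * (4 * S.j) + 1 + (2 * (4 * S.j) + 1 + (2 * i' + 1)) * q by ring, e1,
    show 2 * (i' + (4 * S.j + i' + 1) * q) + 1 =
      2 * i' + 1 + (2 * (4 * S.j) + 1 + (2 * i' + 1)) * q by ring, e2,
    show 4 * S.j + i' + 1 + (4 * S.j + i' + 1) * q = (4 * S.j + i' + 1) * (q + 1) by ring] at e3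
  apply ζ_inj
  rw [map_one]
  exact (mul_right_cancel (e3.symm.trans (one_mul _).symm))

theorem th_mul_p (hp : p.Prime) [CharP R p] {k : ℕ} (hk : 7 * S.j + 2 ≤ k) :
    X.th (k * p) = X.th k ^ p := by
  obtain ⟨i', rfl⟩ : ∃ i', k = 4 * S.j + i' + 2 := ⟨k - 4 * S.j - 2, by omega⟩
  have ha : Od S (6 * S.j) (S.w ^ (2 * (4 * S.j) + 1)) := Od.pow (by omega)
  have ha' : Od S (6 * S.j) (S.w ^ (2 * (4 * S.j + 1) + 1)) := Od.pow (by omega)
  have hb : Od S (6 * S.j) (S.w ^ (2 * i' + 1)) := Od.pow (by omega)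
  have hb' : Od S (6 * S.j) (S.w ^ (2 * (i' + 1) + 1)) := Od.pow (by omega)
  have e1 := X.pow_p_left hp ha' hb
  have e2 := X.pow_p_left hp ha hb'
  have e3 := X.step (i := 4 * S.j) (i' := i') le_rfl (by omega)
  have e4 := X.step (i := 4 * S.j + (4 * S.j + i' + 2) * (p - 1)) (i' := i') (by omega) (by omega)
  have e5 := congrArg (· ^ p) e3
  simp only [← pow_add, ← pow_mul] at e1 e2
  rw [(show Commute _ _ from ζ_comm _ _).mul_pow, ← e1, ← e2, ← map_pow] at e5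
  obtain ⟨q, rfl⟩ : ∃ q, p = q + 1 := ⟨p - 1, (Nat.sub_add_cancel hp.one_le).symm⟩
  simp only [Nat.add_sub_cancel] at *
  rw [show 2 * (4 * S.j + (4 * S.j + i' + 2) * q + 1) + 1 =
      2 * (4 * S.j + 1) + 1 + (2 * (4 * S.j + 1) + 1 + (2 * i' + 1)) * q by ring,
    show 2 * (4 * S.j + (4 * S.j + i' + 2) * q) + 1 =
      2 * (4 * S.j) + 1 + (2 * (4 * S.j) + 1 + (2 * (i' + 1) + 1)) * q by ring, e5,
    show 4 * S.j + (4 * S.j + i' + 2) * q + i' + 2 = (4 * S.j + i' + 2) * (q + 1) by ring] at e4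
  exact (ζ_inj (mul_right_cancel e4)).symm

theorem th_mul_pow (hp : p.Prime) [CharP R p] {k : ℕ} (hk : 7 * S.j + 2 ≤ k) (e : ℕ) :
    X.th (k * p ^ e) = X.th k ^ p ^ e := by
  induction e with
  | zero => simp
  | succ e ih =>
    rw [pow_succ, ← mul_assoc, X.th_mul_p hp (hk.trans (Nat.le_mul_of_pos_right _
      (pow_pos hp.pos e))), ih, pow_mul]

theorem th_l (hp : p.Prime) [CharP R p] {l : ℕ} (hpl : p ∣ l)
    (hcase : ((∀ g, S.ρ g = 1 → g ^ p = 1) ∧ p * (8 * S.j + 8) ≤ l) ∨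
      p ^ 3 * (8 * S.j + 8) ^ 2 ≤ l) : X.th l = 1 := by
  rcases hcase with ⟨h1, h2⟩ | h2
  · obtain ⟨k, rfl⟩ := hpl
    have hk : 8 * S.j + 8 ≤ k := Nat.le_of_mul_le_mul_left h2 hp.pos
    rw [mul_comm, X.th_mul_p hp (by omega)]
    apply ζ_inj
    rw [map_pow, h1 _ (ρ_ζ _), map_one]
  · have hl0 : l ≠ 0 := by
      have : 0 < p ^ 3 * (8 * S.j + 8) ^ 2 := by have := hp.pos; positivity
      omega
    obtain ⟨a, k, hk, rfl⟩ := Nat.exists_eq_pow_mul_and_not_dvd hl0 p hp.ne_one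
    have hk0 : 0 < k := Nat.pos_of_ne_zero (by rintro rfl; simp at hk)
    have hex : ∃ b, 8 * S.j + 8 ≤ k * p ^ b :=
      ⟨8 * S.j + 8, (Nat.lt_pow_self hp.one_lt).le.trans (Nat.le_mul_of_pos_left _ hk0)⟩
    classical
    have hb := Nat.find_spec hex
    have hab : 2 * Nat.find hex + 1 ≤ a := by
      rcases Nat.eq_zero_or_pos (Nat.find hex) with h0 | h0
      · rw [h0]
        by_contra h
        have : a = 0 := by omega
        rw [this, pow_zero, one_mul] at hpl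
        exact hk hpl
      · obtain ⟨c, hc⟩ : ∃ c, Nat.find hex = c + 1 := ⟨_, (Nat.sub_add_cancel h0).symm⟩
        have hm := Nat.find_min hex (show c < Nat.find hex by omega)
        rw [not_le] at hm
        have hm2 : p ^ c < 8 * S.j + 8 := lt_of_le_of_lt (Nat.le_mul_of_pos_left _ hk0) hm
        have h3 : p ^ (2 * c + 3) * k ≤ p ^ a * k := by
          calc p ^ (2 * c + 3) * k = p ^ 3 * ((k * p ^ c) * p ^ c) := by ring
            _ ≤ p ^ 3 * (8 * S.j + 8) ^ 2 := by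
              rw [pow_two]; exact Nat.mul_le_mul_left _ (Nat.mul_le_mul hm.le hm2.le)
            _ ≤ _ := h2
        have := (Nat.pow_le_pow_iff_right hp.one_lt).1 (Nat.le_of_mul_le_mul_right h3 hk0)
        omega
    set b := Nat.find hex
    obtain ⟨e, rfl⟩ : ∃ e, a = b + 1 + b + e := ⟨a - (b + 1 + b), by omega⟩
    have h1 := X.th_pow_eq_one hp (k := k * p ^ b) (by omega)
    have h3 : X.th (k * p ^ b * p) ^ p ^ b = 1 := by
      apply ζ_inj
      rw [map_one]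
      refine eq_one_of_pow_eq_one hp (ρ_ζ _) (n := k * (p - 1)) ?_ ?_
      · rw [hp.dvd_mul, not_or]
        refine ⟨hk, fun h => ?_⟩
        have := Nat.le_of_dvd (by have := hp.two_le; omega) h
        have := hp.pos
        omega
      · rw [← map_pow, ← pow_mul, show p ^ b * (k * (p - 1)) = k * p ^ b * (p - 1) by ring, h1,
          map_one]
    rw [show p ^ (b + 1 + b + e) * k = k * p ^ b * p * p ^ (b + e) by ring,
      X.th_mul_pow hp (le_trans (by omega) (Nat.le_mul_of_pos_right _ hp.pos)), pow_add,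
      pow_mul, h3, one_pow]

theorem top {l r : ℕ} (hL : S.L = 2 * l) (hth : X.th l = 1)
    (hr : S.j ≤ r) (hr' : r + (8 * S.j + 8) ≤ l) :
    β (U (S.w ^ (2 * r)) : T S) (U (-S.w ^ (2 * (l - r)))) = 1 := by
  have hj := S.j_pos
  obtain ⟨i', rfl⟩ : ∃ i', l = 4 * S.j + i' + 1 + r := ⟨l - 4 * S.j - 1 - r, by omega⟩
  have ha : Od S (6 * S.j) (S.w ^ (2 * (4 * S.j) + 1)) := Od.pow (by omega)
  have hb : Od S (6 * S.j) (S.w ^ (2 * i' + 1)) := Od.pow (by omega)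
  have e1 := X.theta ha hb (Ev.pow (i := r) (by omega))
  have e2 := X.iter r (i := 4 * S.j) (i' := i') le_rfl (by omega)
  simp only [← pow_add] at e1
  rw [hth, one_pow, show 2 * (4 * S.j + r) + 1 = 2 * (4 * S.j) + 1 + 2 * r by ring, e1,
    show 2 * (i' + r) + 1 = 2 * i' + 1 + 2 * r by ring] at e2
  have e3 := ζ_inj (mul_right_cancel e2)
  rw [show 2 * (4 * S.j) + 1 + (2 * i' + 1) = 2 * (4 * S.j + i' + 1 + r - r) by omega, Θ,
    ← pow_add] at e3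
  set n := 2 * r + 2 * (4 * S.j + i' + 1 + r - r) with hn
  have hn' : n = 2 * (4 * S.j + i' + 1 + r) := by omega
  have hq : ((U (S.w ^ n) : T S) : Rˣ) ∈ Tn S S.L := by
    refine ⟨(U (S.w ^ n) : T S).2.1, ?_⟩
    have := val_U (S := S) (c := S.w ^ n) (by rw [hn']; exact Ev.pow (by omega))
    rw [val] at this
    rw [this, add_sub_cancel_left]
    exact pow_mem_I (by omega)
  have hz : ∀ v : T S, β v (U (S.w ^ n)) = 1 ∧ β (U (S.w ^ n)) v = 1 := by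
    intro v
    have hc : Commute (H v) (H (U (S.w ^ n) : T S)) :=
      commute_of_lev (S := S) (i := 2 * S.j) (i' := S.L) (by omega)
        (by rw [ρ_H]; exact lev_dM v.2) (by rw [ρ_H]; exact lev_dM hq)
    constructor
    · apply ζ_inj
      rw [ζ_β _ _ (ρ_H _) (ρ_H _), map_one, commutatorElement_eq_one_iff_commute.2 hc]
    · apply ζ_inj
      rw [ζ_β _ _ (ρ_H _) (ρ_H _), map_one, commutatorElement_eq_one_iff_commute.2 hc.symm]
  rw [map_mul, map_inv, X.β'_apply _ (U (S.w ^ n)), X.β'_apply (U (S.w ^ n)), (hz _).1, (hz _).2,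
    one_pow, one_mul, mul_one, inv_eq_one] at e3
  rw [← X.β'_sq, e3, one_pow]

end XY

theorem exists_unit_of_diag {g : Γ} {v v' : R}
    (h : (S.ρ g : Matrix (Fin 2) (Fin 2) R) = !![v, 0; 0, v']) :
    ∃ u : Rˣ, (u : R) = v ∧ S.ρ g = dM u := by
  have hd := (S.ρ g).2
  rw [h, Matrix.det_fin_two_of] at hd
  have hd' : v * v' = 1 := by linear_combination hd
  exact ⟨⟨v, v', hd', by rw [mul_comm, hd']⟩, rfl, Subtype.ext h⟩

end Symb

open Symb in
theorem SymSetup.top_comm {p : ℕ} {R : Type*} [CommRing R] {Γ : Type*} [Group Γ]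
    (hp : p.Prime) (hp2 : p ≠ 2) [CharP R p] (S : SymSetup p R Γ) (l r : ℕ) (hL : S.L = 2 * l)
    (hpl : p ∣ l)
    (hcase : ((∀ g, S.ρ g = 1 → g ^ p = 1) ∧ p * (8 * S.j + 8) ≤ l) ∨
      p ^ 3 * (8 * S.j + 8) ^ 2 ≤ l)
    (hr : S.j ≤ r) (hr' : r + (8 * S.j + 8) ≤ l) (t t' : Γ) (v' u' : R)
    (ht : (S.ρ t : Matrix (Fin 2) (Fin 2) R) = !![1 + S.w ^ (2 * r), 0; 0, v'])
    (ht' : (S.ρ t' : Matrix (Fin 2) (Fin 2) R) = !![1 - S.w ^ (2 * (l - r)), 0; 0, u']) :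
    Commute t t' := by
  obtain ⟨X⟩ := exists_XY (S := S) hp hp2
  have h := X.top hL (X.th_l hp hpl hcase) hr hr'
  obtain ⟨v, hv, hv'⟩ := exists_unit_of_diag ht
  obtain ⟨u, hu, hu'⟩ := exists_unit_of_diag ht'
  have e1 : v = (U (S.w ^ (2 * r)) : T S) :=
    Units.ext (by rw [hv]; exact (val_U (Ev.pow (by omega))).symm)
  have e2 : u = (U (-S.w ^ (2 * (l - r))) : T S) :=
    Units.ext (by rw [hu, sub_eq_add_neg]; exact (val_U (Ev.pow (by omega)).neg).symm)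
  rw [← commutatorElement_eq_one_iff_commute, ← ζ_β _ _ (e1 ▸ hv') (e2 ▸ hu'), h, map_one]

open Symb in
theorem SymSetup.out_fixed {p : ℕ} {R : Type*} [CommRing R] {Γ : Type*} [Group Γ]
    (hp : p.Prime) (hp2 : p ≠ 2) [CharP R p] (S : SymSetup p R Γ) (κ : Γ →* Γ)
    (c : R) (hc : S.ι c = -c) (hc1 : c ∈ Ideal.span {S.w}) (A : Matrix.SpecialLinearGroup (Fin 2) R)
    (hA : (A : Matrix (Fin 2) (Fin 2) R) = !![1, c; 0, 1] ∨
      (A : Matrix (Fin 2) (Fin 2) R) = !![1, 0; c, 1])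
    (hκ : ∀ g, S.ρ (κ g) = A * S.ρ g * A⁻¹) (t t' : Γ) (v v' u u' : R)
    (hv : v - 1 ∈ Ideal.span {S.w ^ (6 * S.j)}) (hu : u - 1 ∈ Ideal.span {S.w ^ (6 * S.j)})
    (hvι : S.ι v = v) (huι : S.ι u = u)
    (ht : (S.ρ t : Matrix (Fin 2) (Fin 2) R) = !![v, 0; 0, v'])
    (ht' : (S.ρ t' : Matrix (Fin 2) (Fin 2) R) = !![u, 0; 0, u']) :
    κ ⁅t, t'⁆ = ⁅t, t'⁆ := by
  obtain ⟨v, rfl, h1⟩ := exists_unit_of_diag ht
  obtain ⟨u, rfl, h2⟩ := exists_unit_of_diag ht'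
  have hv' : v ∈ Tn S (6 * S.j) := ⟨hvι, hv⟩
  have hu' : u ∈ Tn S (6 * S.j) := ⟨huι, hu⟩
  rcases hA with hA | hA
  · obtain rfl : A = eM c := Subtype.ext hA
    exact (rootE S).out_fixed hp hp2 κ hc hκ hv' hu' h1 h2
  · obtain rfl : A = fM c := Subtype.ext hA
    exact (rootF S).out_fixed hp hp2 κ hc hκ (inv_mem hv') (inv_mem hu')
      (by simpa [rootF] using h1) (by simpa [rootF] using h2)

end Pool.Agent.Lib.MP_0813d1_al
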