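import Mathlib

namespace Pool.Agent.Lib.MP_0813d1_al.Univ

/-- A discrete valuation, given through its filtration `F n = {x | n ≤ v x}`. -/
structure Filt (L : Type*) [CommRing L] where
  F : ℤ → AddSubgroup L
  anti : ∀ a b, a ≤ b → F b ≤ F a
  mul_mem : ∀ a b x y, x ∈ F a → y ∈ F b → x * y ∈ F (a + b)
  mul_not : ∀ a b x y, x ∈ F a → x ∉ F (a + 1) → y ∈ F b → y ∉ F (b + 1) →
    x * y ∉ F (a + b + 1)
  exh : ∀ x, ∃ a, x ∈ F a
  sep : ∀ x, (∀ a, x ∈ F a) → x = 0
  one_mem : (1 : L) ∈ F 0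
  one_not : (1 : L) ∉ F 1

namespace Filt

section Ring
variable {L : Type*} [CommRing L] (S : Filt L)

/-- `x` has valuation exactly `a` -/
def Ex (a : ℤ) (x : L) : Prop := x ∈ S.F a ∧ x ∉ S.F (a + 1)

variable {S}

theorem mono {a b : ℤ} {x : L} (hx : x ∈ S.F b) (h : a ≤ b) : x ∈ S.F a := S.anti a b h hx

theorem mul {a b c : ℤ} {x y : L} (hx : x ∈ S.F a) (hy : y ∈ S.F b) (h : c ≤ a + b) :
    x * y ∈ S.F c := mono (S.mul_mem a b x y hx hy) h

theorem Ex.ne_zero {a : ℤ} {x : L} (h : S.Ex a x) : x ≠ 0 := by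
  rintro rfl
  exact h.2 (zero_mem _)

theorem Ex.mul {a b : ℤ} {x y : L} (hx : S.Ex a x) (hy : S.Ex b y) : S.Ex (a + b) (x * y) :=
  ⟨S.mul_mem a b x y hx.1 hy.1, S.mul_not a b x y hx.1 hx.2 hy.1 hy.2⟩

theorem Ex.congr {a b : ℤ} {x : L} (hx : S.Ex a x) (h : a = b) : S.Ex b x := h ▸ hx

theorem Ex.le {a b : ℤ} {x : L} (hx : S.Ex a x) (h : x ∈ S.F b) : b ≤ a := by
  by_contra hc
  exact hx.2 (mono h (by omega))

theorem Ex.unique {a b : ℤ} {x : L} (hx : S.Ex a x) (h : S.Ex b x) : a = b :=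
  le_antisymm (h.le hx.1) (hx.le h.1)

theorem Ex.add {a : ℤ} {x y : L} (hx : S.Ex a x) (hy : y ∈ S.F (a + 1)) : S.Ex a (x + y) := by
  refine ⟨add_mem hx.1 (mono hy (by omega)), fun h => hx.2 ?_⟩
  have := sub_mem h hy
  simpa using this

theorem Ex.neg {a : ℤ} {x : L} (hx : S.Ex a x) : S.Ex a (-x) :=
  ⟨neg_mem hx.1, fun h => hx.2 (by simpa using neg_mem h)⟩

theorem ex_one : S.Ex 0 (1 : L) := ⟨S.one_mem, by simpa using S.one_not⟩

theorem exists_ex {x : L} (hx : x ≠ 0) : ∃ a, S.Ex a x := by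
  have h1 : ∃ b, x ∉ S.F b := by
    by_contra hc
    push Not at hc
    exact hx (S.sep x hc)
  obtain ⟨b, hb⟩ := h1
  have h2 : ∃ c : ℤ, ∀ z : ℤ, x ∈ S.F z → z ≤ c := by
    refine ⟨b, fun z hz => ?_⟩
    by_contra hc
    exact hb (mono hz (by omega))
  obtain ⟨a, ha, hmax⟩ := Int.exists_greatest_of_bdd h2 (S.exh x)
  refine ⟨a, ha, fun h => ?_⟩
  have := hmax _ h
  omega

theorem pow_mem {a : ℤ} {x : L} (hx : x ∈ S.F a) (k : ℕ) : x ^ k ∈ S.F (k * a) := by
  induction k with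
  | zero => simpa using S.one_mem
  | succ k ih =>
    rw [pow_succ]
    exact mul ih hx (by push_cast; linarith)

theorem Ex.pow {a : ℤ} {x : L} (hx : S.Ex a x) (k : ℕ) : S.Ex (k * a) (x ^ k) := by
  induction k with
  | zero => simpa using ex_one
  | succ k ih =>
    rw [pow_succ]
    exact (ih.mul hx).congr (by push_cast; ring)

theorem mem_of_pow_mem {a : ℤ} {x : L} {k : ℕ} (hk : 0 < k) (h : x ^ k ∈ S.F (k * a)) :
    x ∈ S.F a := by
  by_cases hx : x = 0
  · subst hx; exact zero_mem _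
  obtain ⟨b, hb⟩ := exists_ex (S := S) hx
  have h1 := (hb.pow k).le h
  have h2 : (0 : ℤ) < k := by exact_mod_cast hk
  exact mono hb.1 (le_of_mul_le_mul_left h1 h2)

theorem isDomain (S : Filt L) : IsDomain L := by
  have hn : Nontrivial L := ⟨⟨1, 0, (ex_one (S := S)).ne_zero⟩⟩
  have hz : NoZeroDivisors L := ⟨fun {x y} h => by
    by_contra hc
    push Not at hc
    obtain ⟨a, ha⟩ := exists_ex (S := S) hc.1
    obtain ⟨b, hb⟩ := exists_ex (S := S) hc.2
    exact (ha.mul hb).ne_zero h⟩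
  exact NoZeroDivisors.to_isDomain L

theorem natCast_mem (n : ℕ) : (n : L) ∈ S.F 0 := by
  induction n with
  | zero => simp
  | succ n ih => push_cast; exact add_mem ih S.one_mem

theorem exists_bound {ι : Type*} [Finite ι] (f : ι → L) : ∃ c : ℕ, ∀ i, f i ∈ S.F (-c) := by
  choose a ha using fun i => S.exh (f i)
  obtain ⟨c, hc⟩ := (Set.finite_range fun i => (-a i).toNat).bddAbove
  refine ⟨c, fun i => mono (ha i) ?_⟩
  have := hc (Set.mem_range_self i)
  have h2 := Int.self_le_toNat (-a i)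
  have h3 : ((-a i).toNat : ℤ) ≤ c := by exact_mod_cast this
  omega

theorem mem_of_mul_mem {a b : ℤ} {x y : L} (hx : S.Ex a x) (h : x * y ∈ S.F (a + b)) :
    y ∈ S.F b := by
  by_cases hy : y = 0
  · subst hy; exact zero_mem _
  obtain ⟨c, hc⟩ := exists_ex (S := S) hy
  have := (hx.mul hc).le h
  exact mono hc.1 (by omega)

end Ring

section Field
variable {L : Type*} [Field L] {S : Filt L}

theorem Ex.inv {a : ℤ} {x : L} (hx : S.Ex a x) : S.Ex (-a) x⁻¹ := by
  obtain ⟨b, hb⟩ := exists_ex (S := S) (inv_ne_zero hx.ne_zero)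
  have h1 := hx.mul hb
  rw [mul_inv_cancel₀ hx.ne_zero] at h1
  have := h1.unique ex_one
  exact hb.congr (by omega)

theorem Ex.zpow {a : ℤ} {x : L} (hx : S.Ex a x) (k : ℤ) : S.Ex (k * a) (x ^ k) := by
  obtain ⟨n, rfl | rfl⟩ := k.eq_nat_or_neg
  · simpa using hx.pow n
  · rw [zpow_neg, zpow_natCast]
    exact (hx.pow n).inv.congr (by ring)

end Field

end Filt

/-- the order filtration of Laurent series -/
noncomputable def laurent (K : Type*) [Field K] : Filt (HahnSeries ℤ K) where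
  F n :=
    { carrier := {x | (n : WithTop ℤ) ≤ x.orderTop}
      zero_mem' := by simp
      add_mem' := fun {x y} hx hy => by
        simp only [Set.mem_ofPred_eq] at hx hy ⊢
        exact le_trans (le_min hx hy) HahnSeries.min_orderTop_le_orderTop_add
      neg_mem' := fun {x} hx => by simpa using hx }
  anti a b h x hx := by
    change ((a : ℤ) : WithTop ℤ) ≤ x.orderTop
    change ((b : ℤ) : WithTop ℤ) ≤ x.orderTop at hx
    exact le_trans (WithTop.coe_le_coe.2 h) hx
  mul_mem a b x y hx hy := by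
    change ((a + b : ℤ) : WithTop ℤ) ≤ (x * y).orderTop
    rw [HahnSeries.orderTop_mul, WithTop.coe_add]
    exact add_le_add hx hy
  mul_not a b x y _ hx _ hy h := by
    change ((a + b + 1 : ℤ) : WithTop ℤ) ≤ (x * y).orderTop at h
    change ¬ ((a + 1 : ℤ) : WithTop ℤ) ≤ x.orderTop at hx
    change ¬ ((b + 1 : ℤ) : WithTop ℤ) ≤ y.orderTop at hy
    rw [HahnSeries.orderTop_mul] at h
    generalize x.orderTop = u at h hx
    generalize y.orderTop = v at h hy
    induction u using WithTop.recTopCoe with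
    | top => simp at hx
    | coe u =>
      induction v using WithTop.recTopCoe with
      | top => simp at hy
      | coe v =>
        rw [← WithTop.coe_add, WithTop.coe_le_coe] at h
        rw [WithTop.coe_le_coe] at hx hy
        omega
  exh x := by
    by_cases hx : x = 0
    · exact ⟨0, by simp [hx]⟩
    · exact ⟨x.order, (HahnSeries.order_eq_orderTop_of_ne_zero hx).le⟩
  sep x h := by
    by_contra hx
    have h1 : ((x.order + 1 : ℤ) : WithTop ℤ) ≤ x.orderTop := h (x.order + 1)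
    rw [← HahnSeries.order_eq_orderTop_of_ne_zero hx, WithTop.coe_le_coe] at h1
    omega
  one_mem := by
    change ((0 : ℤ) : WithTop ℤ) ≤ (1 : HahnSeries ℤ K).orderTop
    simp
  one_not := by
    change ¬ ((1 : ℤ) : WithTop ℤ) ≤ (1 : HahnSeries ℤ K).orderTop
    simp

theorem laurent_mem {K : Type*} [Field K] {n : ℤ} {x : HahnSeries ℤ K} :
    x ∈ (laurent K).F n ↔ ∀ j < n, x.coeff j = 0 := by
  change ((n : ℤ) : WithTop ℤ) ≤ x.orderTop ↔ _
  rw [HahnSeries.le_orderTop_iff_forall]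
  simp only [WithTop.coe_lt_coe]

theorem laurent_ex (K : Type*) [Field K] (n : ℤ) :
    (laurent K).Ex n (HahnSeries.single n (1 : K)) := by
  constructor
  · rw [laurent_mem]
    intro j hj
    exact HahnSeries.coeff_single_of_ne (by omega)
  · rw [laurent_mem]
    intro h
    have := h n (by omega)
    simp at this

theorem laurent_res (p : ℕ) [Fact p.Prime] (x : HahnSeries ℤ (ZMod p))
    (hx : x ∈ (laurent (ZMod p)).F 0) : ∃ c : ℕ, x - c ∈ (laurent (ZMod p)).F 1 := by
  refine ⟨(x.coeff 0).val, ?_⟩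
  rw [laurent_mem] at hx ⊢
  intro j hj
  have h1 : (((x.coeff 0).val : ℕ) : HahnSeries ℤ (ZMod p)) = HahnSeries.C (x.coeff 0) := by
    rw [← map_natCast (HahnSeries.C : ZMod p →+* HahnSeries ℤ (ZMod p))]
    simp
  rw [h1, HahnSeries.coeff_sub, HahnSeries.C_apply]
  by_cases h0 : j = 0
  · subst h0; simp
  · rw [HahnSeries.coeff_single_of_ne h0, hx j (by omega), sub_zero]

theorem laurent_charP (p : ℕ) [Fact p.Prime] : CharP (HahnSeries ℤ (ZMod p)) p :=
  charP_of_injective_ringHom (HahnSeries.C : ZMod p →+* HahnSeries ℤ (ZMod p)).injective p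

end Pool.Agent.Lib.MP_0813d1_al.Univ
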