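import Mathlib
import Pool.Agent.Lib.MP_0813d1_al.UniversalAux1

namespace Pool.Agent.Lib.MP_0813d1_al.Univ

open Polynomial

section AS
variable {K : Type} [Field K] (p : ℕ) [hp : Fact p.Prime] (f : K)

/-- the Artin-Schreier polynomial -/
noncomputable def asPoly (p : ℕ) (f : K) : K[X] := X ^ p - (X + C f)

theorem asPoly_deg_lt : (X + C f : K[X]).degree < p := by
  rw [degree_X_add_C]
  exact_mod_cast hp.out.one_lt

theorem asPoly_monic : (asPoly p f).Monic := monic_X_pow_sub (asPoly_deg_lt p f)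

theorem asPoly_degree : (asPoly p f).degree = p := by
  unfold asPoly
  rw [degree_sub_eq_left_of_degree_lt (by rw [degree_X_pow]; exact asPoly_deg_lt p f),
    degree_X_pow]

/-- the Artin-Schreier algebra -/
abbrev AS (p : ℕ) (f : K) : Type := AdjoinRoot (asPoly p f)

/-- the root -/
noncomputable def th (p : ℕ) (f : K) : AS p f := AdjoinRoot.root _

/-- the inclusion -/
noncomputable def inc (p : ℕ) (f : K) : K →+* AS p f := AdjoinRoot.of _

omit hp in
theorem eval₂_asPoly {B : Type*} [CommRing B] (φ : K →+* B) (x : B) :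
    eval₂ φ x (asPoly p f) = x ^ p - (x + φ f) := by
  unfold asPoly
  rw [eval₂_sub, eval₂_add, eval₂_X_pow, eval₂_X, eval₂_C]

omit hp in
theorem th_pow : th p f ^ p = th p f + inc p f f := by
  have h : eval₂ (inc p f) (th p f) (X ^ p - (X + C f)) = 0 := AdjoinRoot.eval₂_root (asPoly p f)
  rw [eval₂_sub, eval₂_add, eval₂_X_pow, eval₂_X, eval₂_C] at h
  exact sub_eq_zero.1 h

/-- coordinates in the power basis -/
noncomputable def co (i : ℕ) : AS p f →+ K :=
  ((lcoeff K i).comp (AdjoinRoot.modByMonicHom (asPoly_monic p f))).toAddMonoidHom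

theorem co_mk (i : ℕ) (P : K[X]) :
    co p f i (AdjoinRoot.mk _ P) = (P %ₘ asPoly p f).coeff i := rfl

theorem co_term (a : K) {i : ℕ} (hi : i < p) (j : ℕ) :
    co p f j (inc p f a * th p f ^ i) = if i = j then a else 0 := by
  have h1 : inc p f a * th p f ^ i = AdjoinRoot.mk (asPoly p f) (monomial i a) := by
    rw [← C_mul_X_pow_eq_monomial]
    simp [inc, th]
  rw [h1, co_mk, (modByMonic_eq_self_iff (asPoly_monic p f)).2, coeff_monomial]
  rw [asPoly_degree]
  exact lt_of_le_of_lt (degree_monomial_le _ _) (by exact_mod_cast hi)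

theorem co_ge (x : AS p f) {j : ℕ} (hj : p ≤ j) : co p f j x = 0 := by
  obtain ⟨P, rfl⟩ := AdjoinRoot.mk_surjective x
  rw [co_mk]
  apply coeff_eq_zero_of_degree_lt
  have := degree_modByMonic_lt P (asPoly_monic p f)
  rw [asPoly_degree] at this
  exact lt_of_lt_of_le this (by exact_mod_cast hj)

theorem expand (x : AS p f) :
    x = ∑ i ∈ Finset.range p, inc p f (co p f i x) * th p f ^ i := by
  have h1 := AdjoinRoot.mk_leftInverse (asPoly_monic p f) x
  set P := AdjoinRoot.modByMonicHom (asPoly_monic p f) x with hP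
  have h2 : P.natDegree < p := by
    obtain ⟨Q, rfl⟩ := AdjoinRoot.mk_surjective x
    have h3 := degree_modByMonic_lt Q (asPoly_monic p f)
    rw [asPoly_degree] at h3
    rw [hP, AdjoinRoot.modByMonicHom_mk]
    by_cases h0 : Q %ₘ asPoly p f = 0
    · rw [h0]; simpa using hp.out.pos
    · exact (natDegree_lt_iff_degree_lt h0).2 h3
  have h4 := P.as_sum_range_C_mul_X_pow' h2
  conv_lhs => rw [← h1, h4]
  rw [map_sum]
  refine Finset.sum_congr rfl fun i _ => ?_
  simp only [map_mul, AdjoinRoot.mk_C, map_pow, AdjoinRoot.mk_X]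
  rfl

variable (S : Filt K) (m : ℕ)

/-- the extended filtration -/
def MF (n : ℤ) : AddSubgroup (AS p f) where
  carrier := {x | ∀ i : ℕ, ∃ k : ℤ, co p f i x ∈ S.F k ∧ n + i * m ≤ p * k}
  zero_mem' := fun i => ⟨|n + i * m|, by simp, by
    have h1 : (1 : ℤ) ≤ p := by exact_mod_cast hp.out.one_lt.le
    have h2 := le_abs_self (n + i * m)
    have h3 := abs_nonneg (n + i * m)
    nlinarith⟩
  add_mem' := fun {x y} hx hy i => by
    obtain ⟨k, hk, hk'⟩ := hx i
    obtain ⟨l, hl, hl'⟩ := hy i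
    rcases le_total k l with h | h
    · exact ⟨k, by rw [map_add]; exact add_mem hk (Filt.mono hl h), hk'⟩
    · exact ⟨l, by rw [map_add]; exact add_mem (Filt.mono hk h) hl, hl'⟩
  neg_mem' := fun {x} hx i => by
    obtain ⟨k, hk, hk'⟩ := hx i
    exact ⟨k, by rw [map_neg]; exact neg_mem hk, hk'⟩

variable {p f S m}

theorem mem_MF {n : ℤ} {x : AS p f} :
    x ∈ MF p f S m n ↔ ∀ i : ℕ, ∃ k : ℤ, co p f i x ∈ S.F k ∧ n + i * m ≤ p * k := Iff.rfl

theorem MF_mono {a b : ℤ} (h : a ≤ b) {x : AS p f} (hx : x ∈ MF p f S m b) :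
    x ∈ MF p f S m a := fun i => by
  obtain ⟨k, hk, hk'⟩ := hx i
  exact ⟨k, hk, by omega⟩

theorem term_mem0 {n k : ℤ} {a : K} {i : ℕ} (hi : i < p) (ha : a ∈ S.F k)
    (h : n + i * m ≤ p * k) : inc p f a * th p f ^ i ∈ MF p f S m n := fun j => by
  rw [co_term p f a hi]
  by_cases hij : i = j
  · subst hij
    exact ⟨k, by simpa using ha, h⟩
  · rw [if_neg hij]
    obtain ⟨l, _, hl⟩ := (MF p f S m n).zero_mem j
    exact ⟨l, zero_mem _, hl⟩

omit hp in
theorem term_split (a : K) (j : ℕ) : inc p f a * th p f ^ (p + j) =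
    inc p f a * th p f ^ (j + 1) + inc p f (a * f) * th p f ^ j := by
  rw [pow_add, th_pow, map_mul]; ring

theorem term_mem (hf : f ∈ S.F (-m)) (i : ℕ) : ∀ {n k : ℤ} {a : K}, a ∈ S.F k →
    n + i * m ≤ p * k → inc p f a * th p f ^ i ∈ MF p f S m n := by
  induction i using Nat.strong_induction_on with
  | _ i ih =>
    intro n k a ha h
    by_cases hi : i < p
    · exact term_mem0 hi ha h
    obtain ⟨j, rfl⟩ := Nat.exists_eq_add_of_le (not_lt.1 hi)
    have h2 := hp.out.two_le
    have h2' : (2 : ℤ) ≤ p := by exact_mod_cast h2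
    have hm : (0 : ℤ) ≤ m := by positivity
    rw [term_split]
    push_cast at h
    refine add_mem (ih (j + 1) (by omega) ha ?_)
      (ih j (by omega) (Filt.mul ha hf le_rfl) ?_)
    · push_cast; nlinarith
    · nlinarith

theorem term_not (hf : S.Ex (-m) f) (hm : 0 < m) (i : ℕ) : ∀ {n k : ℤ} {a : K}, S.Ex k a →
    n + i * m = p * k → inc p f a * th p f ^ i ∉ MF p f S m (n + 1) := by
  induction i using Nat.strong_induction_on with
  | _ i ih =>
    intro n k a ha h
    have h2 := hp.out.two_le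
    have h2' : (2 : ℤ) ≤ p := by exact_mod_cast h2
    by_cases hi : i < p
    · intro hc
      obtain ⟨l, hl, hl'⟩ := hc i
      rw [co_term p f a hi, if_pos rfl] at hl
      have := ha.le hl
      nlinarith
    obtain ⟨j, rfl⟩ := Nat.exists_eq_add_of_le (not_lt.1 hi)
    have hm' : (1 : ℤ) ≤ m := by exact_mod_cast hm
    rw [term_split]
    push_cast at h
    intro hc
    have h3 : inc p f a * th p f ^ (j + 1) ∈ MF p f S m (n + 1) :=
      term_mem hf.1 (j + 1) ha.1 (by push_cast; nlinarith)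
    have h4 := sub_mem hc h3
    rw [add_sub_cancel_left] at h4
    exact ih j (by omega) (ha.mul hf) (by linarith) h4

theorem MF_induction {n : ℤ} {x : AS p f} (hx : x ∈ MF p f S m n) (P : AS p f → Prop)
    (h0 : P 0) (hadd : ∀ y z, P y → P z → P (y + z))
    (hterm : ∀ (i : ℕ) (k : ℤ) (a : K), a ∈ S.F k → n + i * m ≤ p * k →
      P (inc p f a * th p f ^ i)) : P x := by
  rw [expand p f x]
  refine Finset.sum_induction _ P hadd h0 fun i _ => ?_
  obtain ⟨k, hk, hk'⟩ := hx i
  exact hterm i k _ hk hk'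

theorem MF_mul (hf : f ∈ S.F (-m)) {a b : ℤ} {x y : AS p f} (hx : x ∈ MF p f S m a)
    (hy : y ∈ MF p f S m b) : x * y ∈ MF p f S m (a + b) := by
  refine MF_induction hx (fun x => x * y ∈ MF p f S m (a + b)) (by simp)
    (fun u v hu hv => by rw [add_mul]; exact add_mem hu hv) fun i k c hc hk => ?_
  refine MF_induction hy (fun y => inc p f c * th p f ^ i * y ∈ MF p f S m (a + b)) (by simp)
    (fun u v hu hv => by rw [mul_add]; exact add_mem hu hv) fun j l d hd hl => ?_
  have h1 : inc p f c * th p f ^ i * (inc p f d * th p f ^ j) =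
      inc p f (c * d) * th p f ^ (i + j) := by rw [map_mul]; ring
  rw [h1]
  exact term_mem hf _ (Filt.mul hc hd le_rfl) (by push_cast; linarith)

theorem MF_lead (hpm : ¬ p ∣ m) {n : ℤ} {x : AS p f} (hx : x ∈ MF p f S m n)
    (hx' : x ∉ MF p f S m (n + 1)) :
    ∃ (i : ℕ) (k : ℤ) (a : K), i < p ∧ S.Ex k a ∧ n + i * m = p * k ∧
      x - inc p f a * th p f ^ i ∈ MF p f S m (n + 1) := by
  rw [mem_MF] at hx'
  push Not at hx'
  obtain ⟨i, hi⟩ := hx'
  obtain ⟨k, hk, hk'⟩ := hx i
  have h1 := hi k hk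
  have h2' : (2 : ℤ) ≤ p := by exact_mod_cast hp.out.two_le
  have h3 : co p f i x ∉ S.F (k + 1) := fun h => by
    have := hi _ h
    nlinarith
  have hip : i < p := by
    by_contra hc
    exact h3 (by rw [co_ge p f x (not_lt.1 hc)]; exact zero_mem _)
  refine ⟨i, k, co p f i x, hip, ⟨hk, h3⟩, by omega, fun j => ?_⟩
  rw [map_sub, co_term p f _ hip]
  obtain ⟨l0, _, hl0⟩ := (MF p f S m (n + 1)).zero_mem j
  by_cases hij : i = j
  · subst hij
    exact ⟨l0, by simp, hl0⟩
  rw [if_neg hij, sub_zero]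
  by_cases hjp : j < p
  · obtain ⟨l, hl, hl'⟩ := hx j
    refine ⟨l, hl, ?_⟩
    by_contra hc
    have h4 : (p : ℤ) ∣ ((i : ℤ) - j) * m := ⟨k - l, by
      have e1 : n + i * m = p * k := by omega
      have e2 : n + j * m = p * l := by omega
      linear_combination e1 - e2⟩
    have hpz : Prime (p : ℤ) := Nat.prime_iff_prime_int.1 hp.out
    rcases hpz.dvd_or_dvd h4 with h5 | h5
    · have h6 := Int.eq_zero_of_abs_lt_dvd h5 (by
        rw [abs_lt]; constructor <;> omega)
      omega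
    · exact hpm (by exact_mod_cast h5)
  · rw [co_ge p f x (not_lt.1 hjp)]
    exact ⟨l0, zero_mem _, hl0⟩

/-- the extension of the valuation to the Artin-Schreier algebra -/
def extF (hf : S.Ex (-m) f) (hm : 0 < m) (hpm : ¬ p ∣ m) : Filt (AS p f) where
  F := MF p f S m
  anti _ _ h _ hx := MF_mono h hx
  mul_mem _ _ _ _ hx hy := MF_mul hf.1 hx hy
  mul_not a b x y hx hx' hy hy' h := by
    obtain ⟨i, k, c, -, hc, hk, hr⟩ := MF_lead hpm hx hx'
    obtain ⟨j, l, d, -, hd, hl, hs⟩ := MF_lead hpm hy hy'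
    have ht : inc p f c * th p f ^ i ∈ MF p f S m a := term_mem hf.1 _ hc.1 hk.le
    have h1 : inc p f (c * d) * th p f ^ (i + j) = x * y -
        ((x - inc p f c * th p f ^ i) * y +
          (inc p f c * th p f ^ i) * (y - inc p f d * th p f ^ j)) := by
      rw [map_mul]; ring
    refine term_not (p := p) hf hm (i + j) (n := a + b) (hc.mul hd) (by push_cast; linarith) ?_
    rw [h1]
    refine sub_mem h (add_mem (MF_mono (by omega) (MF_mul hf.1 hr hy))
      (MF_mono (by omega) (MF_mul hf.1 ht hs)))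
  exh x := by
    rw [expand p f x]
    refine Finset.sum_induction _ (fun x => ∃ a, x ∈ MF p f S m a) ?_ ⟨0, zero_mem _⟩ ?_
    · rintro u v ⟨a, ha⟩ ⟨b, hb⟩
      exact ⟨min a b, add_mem (MF_mono (min_le_left _ _) ha) (MF_mono (min_le_right _ _) hb)⟩
    · intro i _
      obtain ⟨k, hk⟩ := S.exh (co p f i x)
      exact ⟨p * k - i * m, term_mem hf.1 _ hk (by omega)⟩
  sep x h := by
    rw [expand p f x]
    refine Finset.sum_eq_zero fun i _ => ?_
    have h1 : co p f i x = 0 := S.sep _ fun a => by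
      obtain ⟨k, hk, hk'⟩ := h (p * a - i * m) i
      have h2' : (2 : ℤ) ≤ p := by exact_mod_cast hp.out.two_le
      exact Filt.mono hk (by nlinarith)
    rw [h1, map_zero, zero_mul]
  one_mem := by
    have := term_mem (p := p) (f := f) hf.1 0 (n := 0) S.one_mem (by simp)
    simpa using this
  one_not := by
    have := term_not (p := p) hf hm 0 (n := 0) (Filt.ex_one (S := S)) (by simp)
    simpa using this

@[simp] theorem extF_F (hf : S.Ex (-m) f) (hm : 0 < m) (hpm : ¬ p ∣ m) (n : ℤ) :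
    (extF hf hm hpm).F n = MF p f S m n := rfl

theorem as_irreducible (hf : S.Ex (-m) f) (hm : 0 < m) (hpm : ¬ p ∣ m) :
    Irreducible (asPoly p f) := by
  have h1 : IsDomain (K[X] ⧸ Ideal.span {asPoly p f}) := (extF hf hm hpm).isDomain
  have h2 := (Ideal.Quotient.isDomain_iff_prime _).1 h1
  exact ((Ideal.span_singleton_prime (asPoly_monic p f).ne_zero).1 h2).irreducible

theorem inc_mem (hf : f ∈ S.F (-m)) {n : ℤ} {x : K} (hx : x ∈ S.F n) :
    inc p f x ∈ MF p f S m (p * n) := by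
  have := term_mem (p := p) hf 0 (n := p * n) hx (by simp)
  simpa using this

theorem cocycle_mem {A : K} (h : A ^ p - A ∈ S.F (-m)) :
    ∃ c : ℤ, A ∈ S.F c ∧ -(m : ℤ) ≤ p * c := by
  have h2 : (2 : ℤ) ≤ p := by exact_mod_cast hp.out.two_le
  by_cases h0 : A = 0
  · exact ⟨0, by simp [h0], by simp⟩
  obtain ⟨c, hc⟩ := Filt.exists_ex (S := S) h0
  refine ⟨c, hc.1, ?_⟩
  by_cases hc0 : 0 ≤ c
  · have : (0 : ℤ) ≤ m := by positivity
    nlinarith
  · have h3 : S.Ex (p * c) (A ^ p + -A) :=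
      (hc.pow p).add (neg_mem (Filt.mono hc.1 (by nlinarith)))
    exact h3.le (by simpa [sub_eq_add_neg] using h)

end AS

theorem as_ext {K : Type} [Field K] (p : ℕ) [hp : Fact p.Prime] [CharP K p] (S : Filt K) (m : ℕ)
    (f : K) (hf : S.Ex (-m) f) (hm : 0 < m) (hpm : ¬ p ∣ m)
    (hres : ∀ x ∈ S.F 0, ∃ c : ℕ, x - c ∈ S.F 1)
    {G : Type} [Group G] (act : G → K →+* K) (h1 : ∀ x, act 1 x = x)
    (hmul : ∀ g h x, act (g * h) x = act g (act h x))
    (hF : ∀ g n x, x ∈ S.F n → act g x ∈ S.F n)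
    (A : G → K) (hA : ∀ g h, A (g * h) = A g + act g (A h))
    (hAf : ∀ g, act g f - f = A g ^ p - A g) :
    ∃ (L : Type) (_ : Field L) (_ : CharP L p) (T : Filt L) (ι : K →+* L) (θ : L)
      (act' : G → L →+* L),
      θ ^ p = θ + ι f ∧ T.Ex (-m) θ ∧ (∀ n x, x ∈ S.F n → ι x ∈ T.F (p * n)) ∧
      (∀ n x, S.Ex n x → T.Ex (p * n) (ι x)) ∧
      (∀ x ∈ T.F 0, ∃ c : ℕ, x - c ∈ T.F 1) ∧ (∀ x, act' 1 x = x) ∧
      (∀ g h x, act' (g * h) x = act' g (act' h x)) ∧
      (∀ g n x, x ∈ T.F n → act' g x ∈ T.F n) ∧ (∀ g x, act' g (ι x) = ι (act g x)) ∧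
      ∀ g, act' g θ = θ + ι (A g) := by
  have : Fact (Irreducible (asPoly p f)) := ⟨as_irreducible hf hm hpm⟩
  have hc : CharP (AS p f) p := charP_of_injective_ringHom (inc p f).injective p
  have hroot : ∀ g, eval₂ ((inc p f).comp (act g)) (th p f + inc p f (A g)) (asPoly p f) = 0 := by
    intro g
    rw [eval₂_asPoly, add_pow_char, th_pow]
    have h2 := congrArg (inc p f) (hAf g)
    simp only [map_sub, map_pow] at h2
    rw [RingHom.comp_apply]
    linear_combination -h2
  let act' : G → AS p f →+* AS p f := fun g => AdjoinRoot.lift _ _ (hroot g)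
  have hι : ∀ g x, act' g (inc p f x) = inc p f (act g x) := fun g x =>
    AdjoinRoot.lift_of (hroot g)
  have hθ : ∀ g, act' g (th p f) = th p f + inc p f (A g) := fun g =>
    AdjoinRoot.lift_root (hroot g)
  have hext : ∀ φ ψ : AS p f →+* AS p f, (∀ x, φ (inc p f x) = ψ (inc p f x)) →
      φ (th p f) = ψ (th p f) → φ = ψ := fun φ ψ h h' =>
    AdjoinRoot.ringHom_ext (RingHom.ext h) h'
  have hA1 : A 1 = 0 := by
    have := hA 1 1
    rw [mul_one, h1] at this
    simpa using this
  have hθex : (extF hf hm hpm).Ex (-m) (th p f) := by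
    constructor
    · have := term_mem (p := p) hf.1 1 (n := -m) S.one_mem (by simp)
      simpa using this
    · have := term_not (p := p) hf hm 1 (n := -m) (Filt.ex_one (S := S)) (by simp)
      simpa using this
  refine ⟨AS p f, inferInstance, hc, extF hf hm hpm, inc p f, th p f, act', th_pow p f, hθex,
    fun n x hx => inc_mem hf.1 hx, fun n x hx => ⟨inc_mem hf.1 hx.1, ?_⟩, ?_, ?_, ?_, ?_, hι, hθ⟩
  · have := term_not (p := p) hf hm 0 (n := p * n) hx (by simp)
    simpa using this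
  · intro x hx
    by_cases hx1 : x ∈ MF p f S m (0 + 1)
    · exact ⟨0, by simpa using hx1⟩
    obtain ⟨i, k, a, hi, ha, hk, hr⟩ := MF_lead hpm hx hx1
    have h3 : p ∣ i * m := by
      have : (p : ℤ) ∣ i * m := ⟨k, by linarith⟩
      exact_mod_cast this
    have h4 : i = 0 := by
      rcases (Nat.Prime.dvd_mul hp.out).1 h3 with h | h
      · exact Nat.eq_zero_of_dvd_of_lt h hi
      · exact absurd h hpm
    subst h4
    have h2 : (2 : ℤ) ≤ p := by exact_mod_cast hp.out.two_le
    have h5 : k = 0 := by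
      have : (p : ℤ) * k = 0 := by simpa using hk.symm
      rcases mul_eq_zero.1 this with h | h
      · omega
      · exact h
    subst h5
    obtain ⟨c, hc⟩ := hres a ha.1
    refine ⟨c, ?_⟩
    have h6 : inc p f (a - c) ∈ MF p f S m 1 := MF_mono (by omega) (inc_mem hf.1 hc)
    have h7 := add_mem hr h6
    have h8 : x - inc p f a * th p f ^ 0 + inc p f (a - c) = x - c := by simp
    rw [h8] at h7
    exact h7
  · intro x
    have : act' 1 = RingHom.id _ := hext _ _ (fun x => by simp [hι, h1]) (by simp [hθ, hA1])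
    rw [this]; rfl
  · intro g h x
    have : act' (g * h) = (act' g).comp (act' h) :=
      hext _ _ (fun x => by simp [hι, hmul]) (by simp [hθ, hι, hA, add_assoc])
    rw [this]; rfl
  · intro g n x hx
    refine MF_induction hx (fun x => act' g x ∈ MF p f S m n) (by simp)
      (fun u v hu hv => by rw [map_add]; exact add_mem hu hv) fun i k a ha hk => ?_
    rw [map_mul, map_pow, hι, hθ]
    obtain ⟨c, hc, hc'⟩ := cocycle_mem (p := p) (S := S) (m := m) (A := A g)
      (by rw [← hAf]; exact sub_mem (hF g _ _ hf.1) hf.1)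
    have h2 : th p f + inc p f (A g) ∈ (extF hf hm hpm).F (-m) :=
      add_mem hθex.1 (MF_mono hc' (inc_mem hf.1 hc))
    exact Filt.mul (S := extF hf hm hpm) (inc_mem hf.1 (hF g _ _ ha)) (Filt.pow_mem h2 i)
      (by linarith)

end Pool.Agent.Lib.MP_0813d1_al.Univ
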