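import Mathlib

namespace Pool.Agent.Lib.MP_0813d1_al.Univ

theorem exists_trace_one {K : Type} [Field K] {H : Type} [Group H] [Fintype H]
    (act : H → K →+* K) (h1 : ∀ x, act 1 x = x)
    (hmul : ∀ g h x, act (g * h) x = act g (act h x))
    (hinj : ∀ g, (∀ x, act g x = x) → g = 1) : ∃ e, ∑ h, act h e = 1 := by
  have hi : Function.Injective fun h : H => (act h : K →* K) := by
    intro g h hgh
    have h2 : ∀ x, act g x = act h x := fun x => DFunLike.congr_fun hgh x
    have h3 : h⁻¹ * g = 1 := hinj _ fun x => by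
      rw [hmul, h2, ← hmul, inv_mul_cancel, h1]
    exact (inv_mul_eq_one.1 h3).symm
  have hl := (linearIndependent_monoidHom K K).comp _ hi
  rw [Fintype.linearIndependent_iff] at hl
  have h4 : ∃ e0, ∑ h, act h e0 ≠ 0 := by
    by_contra hc
    push Not at hc
    have := hl (fun _ => 1) (by
      funext x
      simpa using hc x) 1
    exact one_ne_zero this
  obtain ⟨e0, he0⟩ := h4
  have h5 : ∀ g, act g (∑ h, act h e0) = ∑ h, act h e0 := by
    intro g
    rw [map_sum]
    exact Fintype.sum_equiv (Equiv.mulLeft g) _ _ fun h => by simp [hmul]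
  refine ⟨e0 / ∑ h, act h e0, ?_⟩
  simp only [map_div₀, h5]
  rw [← Finset.sum_div, div_self he0]

theorem exists_chi {G : Type} [Group G] (p : ℕ) (z : G) (hz : ∀ g, z * g = g * z)
    (ho : orderOf z = p) : ∃ χ : G → ZMod p, ∀ g, χ (z * g) = χ g + 1 := by
  have h1 : ∀ g : G, ∃ k : ℤ,
      z ^ k = ((QuotientGroup.mk g : G ⧸ Subgroup.zpowers z).out)⁻¹ * g := by
    intro g
    have h2 : (QuotientGroup.mk ((QuotientGroup.mk g : G ⧸ Subgroup.zpowers z).out) :
        G ⧸ Subgroup.zpowers z) = QuotientGroup.mk g := QuotientGroup.out_eq' _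
    exact Subgroup.mem_zpowers_iff.1 (QuotientGroup.eq.1 h2)
  choose k hk using h1
  refine ⟨fun g => (k g : ZMod p), fun g => ?_⟩
  have h3 : (QuotientGroup.mk (z * g) : G ⧸ Subgroup.zpowers z) = QuotientGroup.mk g := by
    rw [hz]
    exact QuotientGroup.mk_mul_of_mem g (Subgroup.mem_zpowers z)
  have h4 : z ^ k (z * g) = z ^ (k g + 1) := by
    rw [hk, h3, zpow_add_one, hk, hz, mul_assoc]
  rw [zpow_eq_zpow_iff_modEq, ho] at h4
  have := (ZMod.intCast_eq_intCast_iff _ _ _).2 h4
  simpa using this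

theorem exists_cocycle {K : Type} [Field K] (p : ℕ) [hp : Fact p.Prime] [CharP K p]
    {G H : Type} [Group G] [Finite G] [Group H] [Finite H] (π : G →* H)
    (hπ : Function.Surjective π) (z : G) (hz : ∀ g, z * g = g * z) (ho : orderOf z = p)
    (hker : ∀ g, π g = 1 ↔ g ∈ Subgroup.zpowers z)
    (act : H → K →+* K) (h1 : ∀ x, act 1 x = x)
    (hmul : ∀ g h x, act (g * h) x = act g (act h x))
    (hinj : ∀ g, (∀ x, act g x = x) → g = 1) :
    ∃ (A : G → K) (b : K), (∀ g h, A (g * h) = A g + act (π g) (A h)) ∧ A z = 1 ∧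
      ∀ g, act (π g) b - b = A g ^ p - A g := by
  have := Fintype.ofFinite H
  obtain ⟨e, he⟩ := exists_trace_one act h1 hmul hinj
  obtain ⟨χ, hχ⟩ := exists_chi p z hz ho
  let φ : ZMod p →+* K := ZMod.castHom (dvd_refl p) K
  have hφ : ∀ h c, act h (φ c) = φ c := fun h c =>
    DFunLike.congr_fun (RingHom.ext_zmod ((act h).comp φ) φ) c
  let σ : H → G := Function.surjInv hπ
  have hσ : ∀ h, π (σ h) = h := Function.surjInv_eq hπ
  have hπz : π z = 1 := (hker z).2 (Subgroup.mem_zpowers z)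
  have hfib : ∀ x y, π x = π y → ∃ k : ℕ, x = z ^ k * y := by
    intro x y hxy
    have h2 : x * y⁻¹ ∈ Subgroup.zpowers z := (hker _).1 (by simp [hxy])
    rw [← mem_powers_iff_mem_zpowers] at h2
    obtain ⟨k, hk⟩ := h2
    exact ⟨k, by simp only at hk; rw [hk]; simp⟩
  have hχk : ∀ (k : ℕ) g, χ (z ^ k * g) = χ g + k := by
    intro k g
    induction k with
    | zero => simp
    | succ k ih => rw [pow_succ', mul_assoc, hχ, ih]; push_cast; ring
  have hc : ∀ g x y, π x = π y → χ (g * x) - χ x = χ (g * y) - χ y := by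
    intro g x y hxy
    obtain ⟨k, rfl⟩ := hfib x y hxy
    have h3 : g * (z ^ k * y) = z ^ k * (g * y) := by
      have : Commute (z ^ k) g := (show Commute z g from hz g).pow_left k
      rw [← mul_assoc, ← this.eq, mul_assoc]
    rw [h3, hχk, hχk]; ring
  let A : G → K := fun g => ∑ h, φ (χ (g * σ h) - χ (σ h)) * act (π g * h) e
  have hA : ∀ g g', A (g * g') = A g + act (π g) (A g') := by
    intro g g'
    have h4 : A g = ∑ h, φ (χ (g * (g' * σ h)) - χ (g' * σ h)) * act (π g * (π g' * h)) e := by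
      symm
      refine Fintype.sum_equiv (Equiv.mulLeft (π g')) _ _ fun h => ?_
      simp only [Equiv.coe_mulLeft]
      rw [hc g (g' * σ h) (σ (π g' * h)) (by simp [hσ])]
    rw [h4]
    simp only [A, map_sum, map_mul, hφ, ← hmul, mul_assoc]
    rw [← Finset.sum_add_distrib]
    refine Finset.sum_congr rfl fun h _ => ?_
    rw [← add_mul, ← map_add]
    congr 2
    ring
  have hAz : A z = 1 := by
    simp only [A, hχ, hπz, one_mul, add_sub_cancel_left, map_one]
    exact he
  have hAk : ∀ (k : ℕ) g, A (z ^ k * g) ^ p - A (z ^ k * g) = A g ^ p - A g := by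
    intro k g
    induction k with
    | zero => simp
    | succ k ih =>
      rw [pow_succ', mul_assoc, hA, hAz, hπz, h1, add_pow_char, one_pow, ← ih]; ring
  refine ⟨A, -∑ h, (A (σ h) ^ p - A (σ h)) * act h e, hA, hAz, fun g => ?_⟩
  have h5 : ∑ h, (A (σ h) ^ p - A (σ h)) * act h e =
      ∑ h, (A (g * σ h) ^ p - A (g * σ h)) * act (π g * h) e := by
    symm
    refine Fintype.sum_equiv (Equiv.mulLeft (π g)) _ _ fun h => ?_
    simp only [Equiv.coe_mulLeft]
    obtain ⟨k, hk⟩ := hfib (g * σ h) (σ (π g * h)) (by simp [hσ])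
    rw [hk, hAk]
  have h6 : ∑ h, act (π g * h) e = 1 := by
    rw [← he]
    exact Fintype.sum_equiv (Equiv.mulLeft (π g)) _ _ fun h => rfl
  rw [map_neg, sub_neg_eq_add, map_sum]
  conv_lhs => arg 2; rw [h5]
  rw [neg_add_eq_sub, ← Finset.sum_sub_distrib, ← mul_one (A g ^ p - A g), ← h6, Finset.mul_sum]
  refine Finset.sum_congr rfl fun h _ => ?_
  rw [map_mul, map_sub, map_pow, ← hmul, hA, add_pow_char]
  ring

end Pool.Agent.Lib.MP_0813d1_al.Univ
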