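import Mathlib
import Pool.Agent.Lib.MP_0813d1_al.UniversalAux2
import Pool.Agent.Lib.MP_0813d1_al.UniversalAux3

namespace Pool.Agent.Lib.MP_0813d1_al.Univ

/-- the invariant carried along the Artin-Schreier tower -/
def Inv (p : ℕ) (G : Type) [Group G] (q : ℕ) (ρ D : ℤ) : Prop :=
  ∃ (L : Type) (_ : Field L) (_ : CharP L p) (S : Filt L) (act : G → L →+* L) (s ξ τ : L) (r : ℤ),
    (∀ x ∈ S.F 0, ∃ c : ℕ, x - c ∈ S.F 1) ∧ (∀ x, act 1 x = x) ∧
    (∀ g h x, act (g * h) x = act g (act h x)) ∧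
    (∀ g, (∀ x, act g x = x) → g = 1) ∧ (∀ g n x, x ∈ S.F n → act g x ∈ S.F n) ∧
    (∀ g, act g s = s) ∧ S.Ex (Nat.card G) s ∧ (∀ g, act g (ξ ^ q + τ) = ξ ^ q + τ) ∧
    S.Ex r τ ∧ ((q : ℤ) * Nat.card G ∣ r - ρ) ∧ ∀ g, act g τ - τ ∈ S.F (r + D)

theorem inv_base (p : ℕ) [Fact p.Prime] (G : Type) [Group G] [Subsingleton G] (q : ℕ)
    (ρ D : ℤ) : Inv p G q ρ D := by
  have hc : Nat.card G = 1 := Nat.card_of_subsingleton (1 : G)
  refine ⟨HahnSeries ℤ (ZMod p), inferInstance, laurent_charP p, laurent (ZMod p),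
    fun _ => RingHom.id _, HahnSeries.single 1 1, 0, HahnSeries.single ρ 1, ρ,
    laurent_res p, fun _ => rfl, fun _ _ _ => rfl, fun g _ => Subsingleton.elim _ _,
    fun _ _ _ h => h, fun _ => rfl, ?_, fun _ => rfl, laurent_ex _ _, by simp, fun _ => by simp⟩
  rw [hc]
  exact laurent_ex _ _

/-- `W x = x + x^p + ... + x^(p^(n-1))` -/
def W {R : Type*} [CommRing R] (p n : ℕ) (x : R) : R := ∑ i ∈ Finset.range n, x ^ p ^ i

theorem W_map {R R' : Type*} [CommRing R] [CommRing R'] (φ : R →+* R') (p n : ℕ) (x : R) :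
    φ (W p n x) = W p n (φ x) := by simp [W]

theorem W_succ {R : Type*} [CommRing R] (p n : ℕ) (x : R) :
    W p (n + 1) x = W p n x + x ^ p ^ n := Finset.sum_range_succ _ _

theorem W_add {R : Type*} [CommRing R] (p : ℕ) [Fact p.Prime] [CharP R p] (n : ℕ) (x y : R) :
    W p n (x + y) = W p n x + W p n y := by
  simp [W, add_pow_char_pow, Finset.sum_add_distrib]

theorem W_pow {R : Type*} [CommRing R] (p : ℕ) [Fact p.Prime] [CharP R p] (n k : ℕ) (x : R) :
    W p n x ^ p ^ k = W p n (x ^ p ^ k) := by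
  induction n with
  | zero => simp [W, (Fact.out : p.Prime).ne_zero]
  | succ n ih => rw [W_succ, W_succ, add_pow_char_pow, ih, ← pow_mul, ← pow_mul, mul_comm]

theorem W_tele {R : Type*} [CommRing R] (p : ℕ) (n : ℕ) (x : R) :
    W p n (x ^ p) + x = W p n x + x ^ p ^ n := by
  induction n with
  | zero => simp [W]
  | succ n ih =>
    rw [W_succ, W_succ, ← pow_mul, ← pow_succ']
    linear_combination ih

theorem as_iter {R : Type*} [CommRing R] (p : ℕ) [Fact p.Prime] [CharP R p] (n : ℕ) {θ u : R}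
    (h : θ ^ p = θ + u) : θ ^ p ^ n = θ + W p n u := by
  have h1 := W_tele p n θ
  rw [h, W_add] at h1
  linear_combination -h1

theorem W_mem {K L : Type*} [CommRing K] [CommRing L] {S : Filt K} {T : Filt L} (ι : K →+* L)
    {p : ℕ} (hp : 1 ≤ p) (hι : ∀ n x, x ∈ S.F n → ι x ∈ T.F (p * n)) (a : ℕ) {y : ℤ}
    (hy : 0 ≤ y) {x : K} (hx : x ∈ S.F (-y)) : ι (W p a x) ∈ T.F (-((p ^ a : ℕ) * y)) := by
  unfold W
  rw [map_sum]
  refine sum_mem fun i hi => Filt.mono (hι _ _ (Filt.pow_mem hx (p ^ i))) ?_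
  have h1 : p ^ (i + 1) ≤ p ^ a := Nat.pow_le_pow_right hp (Finset.mem_range.1 hi)
  have h2 : ((p ^ (i + 1) : ℕ) : ℤ) ≤ (p ^ a : ℕ) := by exact_mod_cast h1
  have h3 := mul_le_mul_of_nonneg_right h2 hy
  push_cast at h3 ⊢
  rw [pow_succ] at h3
  linarith

theorem inv_step (p : ℕ) [hp : Fact p.Prime]
    {G H : Type} [Group G] [Finite G] [Group H] [Finite H] (π : G →* H)
    (hπ : Function.Surjective π) (z : G) (hz : ∀ g, z * g = g * z) (ho : orderOf z = p)
    (hker : ∀ g, π g = 1 ↔ g ∈ Subgroup.zpowers z) (hcard : Nat.card G = p * Nat.card H)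
    (a : ℕ) (ρ D : ℤ) (hρ : ¬ (p : ℤ) ∣ ρ) (hH : Inv p H (p ^ (a + 1)) ρ D) :
    Inv p G (p ^ a) ρ D := by
  obtain ⟨K, _, _, S, act, s, ξ0, τ0, r0, hres, h1, hmul, hinj, hF, hs, hsv, hκ0, hτ0, hr0,
    hD0⟩ := hH
  obtain ⟨A, b, hA, hAz, hAb⟩ := exists_cocycle p π hπ z hz ho hker act h1 hmul hinj
  obtain ⟨c, hc⟩ := Filt.exists_bound (S := S) (Sum.elim A ![ξ0, b])
  have hcA : ∀ g, A g ∈ S.F (-c) := fun g => hc (Sum.inl g)
  have hcξ : ξ0 ∈ S.F (-c) := hc (Sum.inr 0)
  have hcb : b ∈ S.F (-c) := hc (Sum.inr 1)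
  set M := Nat.card H with hM
  have hM1 : 1 ≤ M := Nat.card_pos
  set q := p ^ a with hq
  have hq1 : 1 ≤ q := Nat.one_le_pow _ _ hp.out.pos
  have hp2 := hp.out.two_le
  have hpq : p ^ (a + 1) = q * p := pow_succ _ _
  set j : ℕ := q * c + p * c + D.natAbs + r0.natAbs + 1 with hj
  set y : ℤ := c + j * M with hy
  have hy0 : 0 ≤ y := by positivity
  have hkey : (q : ℤ) * y + p * c + |D| + 1 ≤ (q * p : ℕ) * (j * M) - r0 := by
    have e1 : j ≤ q * (j * M) := le_trans (Nat.le_mul_of_pos_right j hM1)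
      (Nat.le_mul_of_pos_left _ hq1)
    have e2 : q * (j * M) * 2 ≤ q * (j * M) * p := Nat.mul_le_mul_left _ hp2
    have e3 : (j : ℤ) = q * c + p * c + |D| + |r0| + 1 := by rw [hj]; push_cast; rfl
    have e4 := le_abs_self r0
    zify at e1 e2
    push_cast
    rw [hy]
    nlinarith
  obtain ⟨m, hm⟩ : ∃ m : ℕ, (m : ℤ) = (q * p : ℕ) * (j * M) - r0 := by
    refine ⟨_, Int.toNat_of_nonneg ?_⟩
    have : (0 : ℤ) ≤ (q : ℤ) * y + p * c + |D| + 1 := by positivity
    linarith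
  rw [← hm] at hkey
  have hqy : y ≤ q * y := le_mul_of_one_le_left hy0 (by exact_mod_cast hq1)
  have hpc : (0 : ℤ) ≤ p * c := by positivity
  have hDa := le_abs_self D
  have hDa0 := abs_nonneg D
  have hmρ : ((q : ℤ) * p * M) ∣ -(m : ℤ) - ρ := by
    have e1 : -(m : ℤ) - ρ = (r0 - ρ) - (q * p * M) * j := by rw [hm]; push_cast; ring
    rw [e1]
    refine dvd_sub ?_ (dvd_mul_right _ _)
    rw [hpq] at hr0
    simpa using hr0
  have hpm : ¬ p ∣ m := by
    intro h
    have e1 : (p : ℤ) ∣ m := by exact_mod_cast h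
    have e2 : (p : ℤ) ∣ -(m : ℤ) - ρ := Dvd.dvd.trans ⟨q * M, by ring⟩ hmρ
    apply hρ
    have e3 := dvd_add e2 e1
    have e4 : -(m : ℤ) - ρ + m = -ρ := by ring
    rwa [e4, dvd_neg] at e3
  have hm0 : 0 < m := by
    have : (0 : ℤ) < m := by linarith
    exact_mod_cast this
  -- rescaling
  set w : K := s⁻¹ ^ j with hw
  have hwv : S.Ex (-(j * M)) w := (hsv.inv.pow j).congr (by ring)
  have hwf : ∀ h, act h w = w := fun h => by rw [hw, map_pow, map_inv₀, hs]
  set ξ : K := ξ0 * w with hξ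
  set τ : K := τ0 * w ^ (q * p) with hτ
  have hξv : ξ ∈ S.F (-y) := Filt.mul hcξ hwv.1 (by rw [hy]; linarith)
  have hbv : b ∈ S.F (-y) := Filt.mono hcb (by
    have : (0 : ℤ) ≤ j * M := by positivity
    rw [hy]; linarith)
  have hτv : S.Ex (-m) τ := (hτ0.mul (hwv.pow (q * p))).congr (by rw [hm]; ring)
  have hκ : ∀ h, act h (ξ ^ (q * p) + τ) = ξ ^ (q * p) + τ := by
    intro h
    have e1 : ξ ^ (q * p) + τ = (ξ0 ^ (q * p) + τ0) * w ^ (q * p) := by rw [hξ, hτ]; ring
    rw [e1, map_mul, map_pow, hwf, ← hpq, hκ0]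
  have hD : ∀ h, act h τ - τ ∈ S.F (-m + D) := by
    intro h
    have e1 : act h τ - τ = (act h τ0 - τ0) * w ^ (q * p) := by
      rw [hτ, map_mul, map_pow, hwf]; ring
    rw [e1]
    exact Filt.mul (hD0 h) (hwv.pow (q * p)).1 (by rw [hm]; push_cast; linarith)
  have hfv : S.Ex (-m) ((ξ + b) + τ) := by
    rw [add_comm]
    exact hτv.add (Filt.mono (add_mem hξv hbv) (by linarith))
  set η : K := W p (a + 1) ξ with hη
  have hηp : η ^ p - η = ξ ^ (q * p) - ξ := by
    have e1 := W_pow p (a + 1) 1 ξ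
    have e2 := W_tele p (a + 1) ξ
    rw [pow_one] at e1
    rw [hη, e1, ← hpq]
    linear_combination e2
  obtain ⟨L, _, _, T, ι, θ, act', hθp, hθv, hι, hιx, hres', h1', hmul', hF', hact, hθ⟩ :=
    as_ext p S m ((ξ + b) + τ) hfv hm0 hpm hres (fun g : G => act (π g))
      (fun x => by simp [h1]) (fun g h x => by simp [hmul]) (fun g => hF (π g))
      (fun g => A g + (η - act (π g) η))
      (fun g h => by
        simp only [hA, map_mul, hmul, map_add, map_sub]; ring)
      (fun g => by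
        have e1 := congrArg (act (π g)) hηp
        have e2 := hκ (π g)
        have e3 := hAb g
        simp only [map_sub, map_add, map_pow] at e1 e2 ⊢
        rw [add_pow_char, sub_pow_char]
        linear_combination e3 + e2 - hηp + e1)
  have hp1 : 1 ≤ p := hp.out.one_lt.le
  refine ⟨L, inferInstance, inferInstance, T, act', ι s, θ + ι (W p a (ξ ^ p)),
    -θ - ι (W p a (ξ + b)), -m, hres', h1', hmul', ?_, hF', ?_, ?_, ?_, ?_, ?_, ?_⟩
  · intro g hg
    have e1 : π g = 1 := hinj _ fun x => ι.injective (by rw [← hact, hg])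
    have e2 := (hker g).1 e1
    rw [← mem_powers_iff_mem_zpowers] at e2
    obtain ⟨k, rfl⟩ := e2
    have hπz : π z = 1 := (hker z).2 (Subgroup.mem_zpowers z)
    have e3 : ∀ k : ℕ, A (z ^ k) = k := by
      intro k
      induction k with
      | zero =>
        have := hA 1 1
        rw [mul_one, map_one, h1] at this
        simpa using this
      | succ k ih => rw [pow_succ', hA, hAz, hπz, h1, ih]; push_cast; ring
    have e4 := hθ (z ^ k)
    simp only at e1 hg
    rw [hg, e1, h1, e3, sub_self, add_zero, map_natCast, left_eq_add,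
      CharP.cast_eq_zero_iff L p] at e4
    exact orderOf_dvd_iff_pow_eq_one.1 (ho ▸ e4)
  · intro g
    rw [hact, hs]
  · exact (hιx _ _ hsv).congr (by rw [hcard]; push_cast; ring)
  · intro g
    have e1 : (θ + ι (W p a (ξ ^ p))) ^ q + (-θ - ι (W p a (ξ + b))) =
        ι (W p a (ξ ^ (q * p) + τ)) := by
      rw [hq, add_pow_char_pow, as_iter p a hθp, ← map_pow, W_pow, ← W_map, W_add _ _ (ξ + b),
        W_add _ _ _ τ, ← pow_mul, mul_comm p, map_add, map_add]
      ring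
    rw [e1, hact, W_map, hκ]
  · rw [sub_eq_add_neg]
    exact hθv.neg.add (neg_mem (Filt.mono (W_mem ι hp1 hι a hy0 (add_mem hξv hbv))
      (by rw [← hq]; linarith)))
  · rw [hcard]
    push_cast
    rw [← mul_assoc]
    exact hmρ
  · intro g
    have e1 : act' g (-θ - ι (W p a (ξ + b))) - (-θ - ι (W p a (ξ + b))) =
        -ι (A g) - ι (W p a ξ) + ι (W p a (act (π g) ξ)) - ι (ξ ^ q - act (π g) ξ ^ q)
          - ι (W p a (act (π g) (ξ + b))) + ι (W p a (ξ + b)) := by
      rw [map_sub, map_neg, hθ, hact, W_map (act (π g)), hη, W_map (act (π g)), W_succ, W_succ,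
        ← hq]
      simp only [map_add, map_sub]
      ring
    have e2 : ∀ x ∈ S.F (-y), ι (W p a x) ∈ T.F (-m + D) := fun x hx =>
      Filt.mono (W_mem ι hp1 hι a hy0 hx) (by rw [← hq]; linarith)
    have e3 : ι (ξ ^ q - act (π g) ξ ^ q) ∈ T.F (-m + D) := by
      refine Filt.mem_of_pow_mem hp.out.pos ?_
      rw [← map_pow]
      refine hι _ _ ?_
      have e4 := hκ (π g)
      rw [map_add, map_pow] at e4
      have e5 : (ξ ^ q - act (π g) ξ ^ q) ^ p = act (π g) τ - τ := by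
        rw [sub_pow_char, ← pow_mul, ← pow_mul]
        linear_combination -e4
      rw [e5]
      exact hD _
    rw [e1]
    refine add_mem (sub_mem (sub_mem (add_mem (sub_mem (neg_mem ?_) (e2 _ hξv))
      (e2 _ (hF _ _ _ hξv))) e3) (e2 _ (hF _ _ _ (add_mem hξv hbv)))) (e2 _ (add_mem hξv hbv))
    exact Filt.mono (hι _ _ (hcA g)) (by linarith)

theorem inv_all (p : ℕ) [hp : Fact p.Prime] (ρ D : ℤ) (hρ : ¬ (p : ℤ) ∣ ρ) (n : ℕ) :
    ∀ (G : Type) [Group G] [Finite G], Nat.card G = p ^ n → ∀ a, Inv p G (p ^ a) ρ D := by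
  induction n with
  | zero =>
    intro G _ _ hG a
    have : Subsingleton G := (Nat.card_eq_one_iff_unique.1 (by simpa using hG)).1
    exact inv_base p G _ ρ D
  | succ n ih =>
    intro G _ _ hG a
    have hpG : IsPGroup p G := IsPGroup.of_card hG
    have hnt : Nontrivial G := by
      rw [← Finite.one_lt_card_iff_nontrivial, hG]
      exact Nat.one_lt_pow (by omega) hp.out.one_lt
    have hZ : Nontrivial (Subgroup.center G) := hpG.center_nontrivial
    have hdvd : p ∣ Nat.card (Subgroup.center G) := by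
      obtain ⟨k, hk0, hk⟩ := (hpG.to_subgroup (Subgroup.center G)).nontrivial_iff_card.1 hZ
      rw [hk]
      exact dvd_pow_self p hk0.ne'
    obtain ⟨z0, hz0⟩ := exists_prime_orderOf_dvd_card' p hdvd
    have hz : ∀ g : G, (z0 : G) * g = g * z0 := fun g =>
      (Subgroup.mem_center_iff.1 z0.2 g).symm
    have ho : orderOf (z0 : G) = p := by rw [Subgroup.orderOf_coe, hz0]
    have hN : (Subgroup.zpowers (z0 : G)).Normal := ⟨by
      rintro _ ⟨k, rfl⟩ g
      have : Commute g ((z0 : G) ^ k) := (show Commute g z0 from (hz g).symm).zpow_right k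
      simp only
      rw [this.eq, mul_assoc, mul_inv_cancel, mul_one]
      exact ⟨k, rfl⟩⟩
    have hcard : Nat.card G = p * Nat.card (G ⧸ Subgroup.zpowers (z0 : G)) := by
      rw [Subgroup.card_eq_card_quotient_mul_card_subgroup (Subgroup.zpowers (z0 : G)),
        Nat.card_zpowers, ho, mul_comm]
    have hQ : Nat.card (G ⧸ Subgroup.zpowers (z0 : G)) = p ^ n := by
      rw [hG, pow_succ'] at hcard
      exact (Nat.eq_of_mul_eq_mul_left hp.out.pos hcard).symm
    exact inv_step p (QuotientGroup.mk' _) (QuotientGroup.mk'_surjective _) (z0 : G) hz ho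
      (fun g => QuotientGroup.eq_one_iff g) hcard a ρ D hρ (ih _ hQ (a + 1))

end Pool.Agent.Lib.MP_0813d1_al.Univ
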