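import Mathlib
import Pool.Agent.Lib.MP_0813d1_al.Trunc
import Pool.Agent.Lib.MP_0813d1_al.UniversalAux4

namespace Pool.Agent.Lib.MP_0813d1_al

open Polynomial

namespace Univ

section Red
variable (p : ℕ) [hp : Fact p.Prime] {L : Type} [Field L] [CharP L p]

/-- evaluation of a polynomial over the prime field -/
noncomputable def ev (u : L) : (ZMod p)[X] →+* L :=
  eval₂RingHom (ZMod.castHom (dvd_refl p) L) u

@[simp] theorem ev_X (u : L) : ev p u X = u := by simp [ev]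

theorem ev_C (u : L) (c : ZMod p) : ev p u (C c) = ZMod.castHom (dvd_refl p) L c := by simp [ev]

theorem map_ev (φ : L →+* L) (u : L) (P : (ZMod p)[X]) : φ (ev p u P) = ev p (φ u) P := by
  simp only [ev, coe_eval₂RingHom, hom_eval₂]
  rw [RingHom.ext_zmod (φ.comp _) (ZMod.castHom (dvd_refl p) L)]

variable {p} {S : Filt L}

theorem cast_mem (c : ZMod p) : ZMod.castHom (dvd_refl p) L c ∈ S.F 0 := by
  rw [← ZMod.natCast_zmod_val c, map_natCast]
  exact Filt.natCast_mem _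

theorem cast_eq_zero {c : ZMod p} (h : ZMod.castHom (dvd_refl p) L c ∈ S.F 1) : c = 0 := by
  by_contra hc
  have := Filt.mul h (cast_mem (S := S) c⁻¹) (c := 1) (by simp)
  rw [← map_mul, mul_inv_cancel₀ hc, map_one] at this
  exact S.one_not this

theorem ev_mem {u : L} (hu : u ∈ S.F 0) (P : (ZMod p)[X]) : ev p u P ∈ S.F 0 := by
  induction P using Polynomial.induction_on' with
  | add P Q hP hQ => rw [map_add]; exact add_mem hP hQ
  | monomial n c =>
    rw [← C_mul_X_pow_eq_monomial, map_mul, map_pow, ev_X, ev_C]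
    exact Filt.mul (cast_mem c) (Filt.pow_mem hu n) (by simp)

theorem ev_mem_of_dvd {t : L} (ht : S.Ex 1 t) {n : ℕ} {P : (ZMod p)[X]} (h : X ^ n ∣ P) :
    ev p t P ∈ S.F n := by
  obtain ⟨Q, rfl⟩ := h
  rw [map_mul, map_pow, ev_X]
  exact Filt.mul (Filt.pow_mem ht.1 n) (ev_mem (Filt.mono ht.1 (by omega)) Q) (by simp)

theorem dvd_of_ev_mem {t : L} (ht : S.Ex 1 t) (n : ℕ) {P : (ZMod p)[X]}
    (h : ev p t P ∈ S.F n) : X ^ n ∣ P := by
  induction n with
  | zero => simp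
  | succ n ih =>
    obtain ⟨Q, rfl⟩ := ih (Filt.mono h (by push_cast; omega))
    rw [map_mul, map_pow, ev_X] at h
    have h1 : ev p t Q ∈ S.F 1 := Filt.mem_of_mul_mem (ht.pow n) (by simpa using h)
    have h2 : ev p t Q = ev p t (divX Q) * t + ZMod.castHom (dvd_refl p) L (Q.coeff 0) := by
      conv_lhs => rw [← divX_mul_X_add Q]
      rw [map_add, map_mul, ev_X, ev_C]
    have h3 : ev p t (divX Q) * t ∈ S.F 1 :=
      Filt.mul (ev_mem (Filt.mono ht.1 (by omega)) _) ht.1 (by simp)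
    have h4 := sub_mem h1 h3
    rw [h2, add_sub_cancel_left] at h4
    rw [pow_succ]
    exact mul_dvd_mul_left _ (X_dvd_iff.2 (cast_eq_zero h4))

theorem exists_approx {t : L} (ht : S.Ex 1 t) (hres : ∀ x ∈ S.F 0, ∃ c : ℕ, x - c ∈ S.F 1)
    (n : ℕ) : ∀ x ∈ S.F 0, ∃ P : (ZMod p)[X], x - ev p t P ∈ S.F n := by
  induction n with
  | zero => exact fun x hx => ⟨0, by simpa using hx⟩
  | succ n ih =>
    intro x hx
    obtain ⟨c, hc⟩ := hres x hx
    obtain ⟨P, hP⟩ := ih ((x - c) * t⁻¹) (Filt.mul hc ht.inv.1 (by simp))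
    refine ⟨(c : (ZMod p)[X]) + X * P, ?_⟩
    have h1 : x - ev p t ((c : (ZMod p)[X]) + X * P) = t * ((x - c) * t⁻¹ - ev p t P) := by
      have := ht.ne_zero
      rw [map_add, map_mul, ev_X, map_natCast]
      field_simp
      ring
    rw [h1]
    exact Filt.mul ht.1 hP (by push_cast; omega)

variable (p S) in
/-- `y` is the image of `x` under the reduction `t ↦ w ^ 2` -/
def Rel (t : L) (N : ℕ) (x : L) (y : Tr p N) : Prop :=
  ∃ P : (ZMod p)[X], x - ev p t P ∈ S.F N ∧ y = aeval (wv p N ^ 2) P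

variable {t : L} {N : ℕ}

theorem aeval_eq_zero_of_dvd {P : (ZMod p)[X]} (h : X ^ N ∣ P) : aeval (wv p N ^ 2) P = 0 := by
  obtain ⟨Q, rfl⟩ := h
  rw [map_mul, map_pow, aeval_X, ← pow_mul, wv_pow_of_le (by omega), zero_mul]

theorem Rel.unique (ht : S.Ex 1 t) {x : L} {y y' : Tr p N} (h : Rel p S t N x y)
    (h' : Rel p S t N x y') : y = y' := by
  obtain ⟨P, hP, rfl⟩ := h
  obtain ⟨Q, hQ, rfl⟩ := h'
  have h1 : ev p t (P - Q) ∈ S.F N := by
    have := sub_mem hQ hP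
    rw [map_sub]
    convert this using 1
    ring
  have := aeval_eq_zero_of_dvd (dvd_of_ev_mem ht N h1)
  rwa [map_sub, sub_eq_zero] at this

theorem Rel.congr {x x' : L} {y : Tr p N} (h : Rel p S t N x y) (h' : x' - x ∈ S.F N) :
    Rel p S t N x' y := by
  obtain ⟨P, hP, rfl⟩ := h
  refine ⟨P, ?_, rfl⟩
  have := add_mem h' hP
  simpa using this

theorem Rel.add {x x' : L} {y y' : Tr p N} (h : Rel p S t N x y) (h' : Rel p S t N x' y') :
    Rel p S t N (x + x') (y + y') := by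
  obtain ⟨P, hP, rfl⟩ := h
  obtain ⟨Q, hQ, rfl⟩ := h'
  refine ⟨P + Q, ?_, by simp⟩
  have := add_mem hP hQ
  rw [map_add]
  convert this using 1
  ring

theorem Rel.mem0 (ht : S.Ex 1 t) {x : L} {y : Tr p N} (h : Rel p S t N x y) : x ∈ S.F 0 := by
  obtain ⟨P, hP, rfl⟩ := h
  have := add_mem (Filt.mono hP (by positivity : (0 : ℤ) ≤ N))
    (ev_mem (Filt.mono ht.1 (by omega)) P)
  simpa using this

theorem Rel.mul (ht : S.Ex 1 t) {x x' : L} {y y' : Tr p N} (h : Rel p S t N x y)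
    (h' : Rel p S t N x' y') : Rel p S t N (x * x') (y * y') := by
  have h0 := h'.mem0 ht
  obtain ⟨P, hP, rfl⟩ := h
  obtain ⟨Q, hQ, rfl⟩ := h'
  refine ⟨P * Q, ?_, by simp⟩
  have h1 : x * x' - ev p t (P * Q) = (x - ev p t P) * x' + ev p t P * (x' - ev p t Q) := by
    rw [map_mul]; ring
  rw [h1]
  exact add_mem (Filt.mul hP h0 (by simp))
    (Filt.mul (ev_mem (Filt.mono ht.1 (by omega)) P) hQ (by simp))

theorem rel_ev (P : (ZMod p)[X]) : Rel p S t N (ev p t P) (aeval (wv p N ^ 2) P) :=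
  ⟨P, by simp, rfl⟩

theorem rel_one : Rel p S t N 1 1 := by simpa using rel_ev (p := p) (S := S) (t := t) (N := N) 1

theorem rel_t : Rel p S t N t (wv p N ^ 2) := by
  simpa using rel_ev (p := p) (S := S) (t := t) (N := N) X

theorem Rel.pow (ht : S.Ex 1 t) {x : L} {y : Tr p N} (h : Rel p S t N x y) (k : ℕ) :
    Rel p S t N (x ^ k) (y ^ k) := by
  induction k with
  | zero => simpa using rel_one
  | succ k ih => rw [pow_succ, pow_succ]; exact ih.mul ht h

theorem Rel.ev (ht : S.Ex 1 t) {x : L} {y : Tr p N} (h : Rel p S t N x y) (P : (ZMod p)[X]) :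
    Rel p S t N (ev p x P) (aeval y P) := by
  induction P using Polynomial.induction_on' with
  | add P Q hP hQ => rw [map_add, map_add]; exact hP.add hQ
  | monomial n c =>
    rw [← C_mul_X_pow_eq_monomial, map_mul, map_pow, ev_X, map_mul, map_pow, aeval_X]
    refine Rel.mul ht ?_ (h.pow ht n)
    have := rel_ev (p := p) (S := S) (t := t) (N := N) (C c)
    rw [ev_C, aeval_C] at this
    rwa [ev_C, aeval_C]

theorem Rel.iota {x : L} {y : Tr p N} (h : Rel p S t N x y) : iota p N y = y := by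
  obtain ⟨P, -, rfl⟩ := h
  rw [← aeval_algHom_apply]
  simp

theorem Rel.mem (ht : S.Ex 1 t) {x : L} {y : Tr p N} (h : Rel p S t N x y) {k : ℕ}
    (hx : x ∈ S.F k) : y ∈ Iw p N k := by
  obtain ⟨P, hP, rfl⟩ := h
  rcases le_total k N with hk | hk
  · have h1 := sub_mem hx (Filt.mono hP (by exact_mod_cast hk))
    rw [sub_sub_cancel] at h1
    obtain ⟨Q, rfl⟩ := dvd_of_ev_mem ht k h1
    exact mem_Iw.2 ⟨wv p N ^ k * aeval (wv p N ^ 2) Q, by simp; ring⟩
  · have h1 := sub_mem (Filt.mono hx (by exact_mod_cast hk)) hP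
    rw [sub_sub_cancel] at h1
    rw [aeval_eq_zero_of_dvd (dvd_of_ev_mem ht N h1)]
    exact zero_mem _

theorem Rel.mem_of (ht : S.Ex 1 t) {x : L} {y : Tr p N} (h : Rel p S t N x y) {k : ℕ}
    (hk : 2 * k + 2 ≤ N) (hy : wv p N * y ∈ Iw p N (2 * k + 2)) : x ∈ S.F (k + 1) := by
  obtain ⟨P, hP, rfl⟩ := h
  have h1 : wv p N * aeval (wv p N ^ 2) P = AdjoinRoot.mk _ (X * Polynomial.expand _ 2 P) := by
    rw [← expand_aeval, map_mul, AdjoinRoot.mk_X, wv, AdjoinRoot.aeval_eq]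
  rw [h1, mk_mem_Iw hk, X_pow_dvd_iff] at hy
  have h2 : X ^ (k + 1) ∣ P := by
    rw [X_pow_dvd_iff]
    intro d hd
    have := hy (2 * d + 1) (by omega)
    rwa [coeff_X_mul, coeff_expand_mul' (by omega)] at this
  have h3 := add_mem (Filt.mono hP (by omega : ((k + 1 : ℕ) : ℤ) ≤ N)) (ev_mem_of_dvd ht h2)
  simpa using h3

end Red

theorem finish (p : ℕ) [hp : Fact p.Prime] {L : Type} [Field L] [CharP L p] (S : Filt L)
    {G : Type} [Group G] [Finite G] (act : G → L →+* L) (q h μ : ℕ) (hq : q = 2 * h + 1)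
    (hres : ∀ x ∈ S.F 0, ∃ c : ℕ, x - c ∈ S.F 1)
    (hF : ∀ g n x, x ∈ S.F n → act g x ∈ S.F n) (hinj : ∀ g, (∀ x, act g x = x) → g = 1)
    (t : L) (ht : S.Ex 1 t) (U B : G → L) (hU0 : ∀ g, U g ∈ S.F 0) (hU1 : U 1 = 1)
    (hUt : ∀ g, act g t = U g ^ 2 * t) (hU : ∀ g g', U (g * g') = U g * act g (U g'))
    (hB0 : ∀ g, B g ∈ S.F μ) (hBU : ∀ g, U g = 1 + B g ^ q * t ^ h)
    (hB : ∀ g g', B (g * g') = B g + U g * act g (B g')) :
    ∃ n : ℕ, ∀ N : ℕ, ∃ (α : G →* (Tr p N ≃ₐ[ZMod p] Tr p N)) (β : G → Tr p N),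
      (∀ σ, β σ ∈ Iw p N μ) ∧ (∀ σ, iota p N (β σ) = -β σ) ∧
      (∀ σ, α σ (wv p N) = wv p N + β σ ^ q) ∧
      (∀ σ τ, β (σ * τ) = β σ + α σ (β τ)) ∧
      (n ≤ N → ∀ σ, β σ ∈ Iw p N n → σ = 1) := by
  have hne : ∀ g, B g = 0 → g = 1 := by
    intro g hg
    have h1 : act g t = t := by
      rw [hUt, hBU, hg, hq]; simp
    have h2 : ∀ x ∈ S.F 0, act g x = x := by
      intro x hx
      rw [← sub_eq_zero]
      refine S.sep _ fun a => ?_
      obtain ⟨P, hP⟩ := exists_approx (p := p) ht hres a.toNat x hx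
      have h3 := sub_mem (hF g _ _ hP) hP
      rw [map_sub, map_ev, h1, sub_sub_sub_cancel_right] at h3
      exact Filt.mono h3 (Int.self_le_toNat a)
    refine hinj g fun x => ?_
    by_cases hx : x = 0
    · simp [hx]
    obtain ⟨a, ha⟩ := Filt.exists_ex (S := S) hx
    rcases le_total 0 a with h0 | h0
    · exact h2 x (Filt.mono ha.1 h0)
    · have := h2 x⁻¹ (Filt.mono ha.inv.1 (by omega))
      rwa [map_inv₀, inv_inj] at this
  have hk : ∀ g, ∃ k : ℕ, B g ∈ S.F (k + 1) → g = 1 := by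
    intro g
    by_cases hg : B g = 0
    · exact ⟨0, fun _ => hne g hg⟩
    obtain ⟨a, ha⟩ := Filt.exists_ex (S := S) hg
    refine ⟨a.toNat, fun h' => absurd (ha.le h') ?_⟩
    have := Int.self_le_toNat a
    omega
  choose k hk using hk
  obtain ⟨k0, hk0⟩ := (Set.finite_range k).bddAbove
  refine ⟨2 * k0 + 2, fun N => ?_⟩
  have hex : ∀ x ∈ S.F 0, ∃ y, Rel p S t N x y := fun x hx => by
    obtain ⟨P, hP⟩ := exists_approx (p := p) ht hres N x hx
    exact ⟨_, P, hP, rfl⟩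
  choose u hu using fun g => hex (U g) (hU0 g)
  choose c hc using fun g => hex (B g) (Filt.mono (hB0 g) (by positivity))
  let α0 : G → (Tr p N →ₐ[ZMod p] Tr p N) := fun g =>
    subst p N (u g * wv p N) (by rw [mul_pow, wv_pow_self, mul_zero])
  have hα0 : ∀ g, α0 g (wv p N) = u g * wv p N := fun g => subst_wv _ _ _ _
  have hrel : ∀ g x y, Rel p S t N x y → Rel p S t N (act g x) (α0 g y) := by
    rintro g x _ ⟨P, hP, rfl⟩
    have h1 : Rel p S t N (act g t) (α0 g (wv p N ^ 2)) := by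
      rw [hUt, map_pow, hα0, mul_pow]
      exact ((hu g).pow ht 2).mul ht rel_t
    rw [← aeval_algHom_apply]
    refine (h1.ev ht P).congr ?_
    rw [← map_ev, ← map_sub]
    exact hF g _ _ hP
  have hone : α0 1 = 1 := tr_algHom_ext (by
    have : u 1 = 1 := (hu 1).unique ht (hU1 ▸ rel_one)
    rw [hα0, this]; simp)
  have hmul : ∀ g g', α0 (g * g') = α0 g * α0 g' := fun g g' => tr_algHom_ext (by
    have : u (g * g') = u g * α0 g (u g') :=
      (hu _).unique ht (hU g g' ▸ (hu g).mul ht (hrel g _ _ (hu g')))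
    rw [AlgHom.mul_apply, hα0, hα0, map_mul, hα0, this]; ring)
  have hcomp : ∀ φ ψ : Tr p N →ₐ[ZMod p] Tr p N, φ * ψ = φ.comp ψ := fun _ _ => rfl
  let α1 : G → (Tr p N ≃ₐ[ZMod p] Tr p N) := fun g =>
    AlgEquiv.ofAlgHom (α0 g) (α0 g⁻¹)
      (by rw [← hcomp, ← hmul, mul_inv_cancel, hone]; rfl)
      (by rw [← hcomp, ← hmul, inv_mul_cancel, hone]; rfl)
  have hα1 : ∀ g x, α1 g x = α0 g x := fun g x => rfl
  refine ⟨MonoidHom.mk' α1 fun g g' => AlgEquiv.ext fun x => ?_, fun g => wv p N * c g,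
    fun g => Ideal.mul_mem_left _ _ ((hc g).mem ht (hB0 g)), fun g => ?_, fun g => ?_,
    fun g g' => ?_, fun hN g hg => ?_⟩
  · rw [AlgEquiv.mul_apply, hα1, hα1, hα1, hmul, AlgHom.mul_apply]
  · rw [map_mul, iota_wv, (hc g).iota, neg_mul]
  · have h1 : u g = 1 + c g ^ q * (wv p N ^ 2) ^ h :=
      (hu g).unique ht (hBU g ▸ rel_one.add (((hc g).pow ht q).mul ht (rel_t.pow ht h)))
    rw [MonoidHom.mk'_apply, hα1, hα0, h1, hq]
    ring
  · have h1 : c (g * g') = c g + u g * α0 g (c g') :=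
      (hc _).unique ht (hB g g' ▸ (hc g).add ((hu g).mul ht (hrel g _ _ (hc g'))))
    rw [MonoidHom.mk'_apply, hα1, map_mul, hα0]
    simp only [h1]
    ring
  · have h1 := (hc g).mem_of ht hN hg
    have h2 : k g ≤ k0 := hk0 (Set.mem_range_self g)
    exact hk g (Filt.mono h1 (by omega))

end Univ

open Univ in
theorem universality (p : ℕ) [Fact p.Prime] (hp : p ≠ 2) (a μ : ℕ) (G : Type) [Group G]
    [Finite G] (hG : IsPGroup p G) :
    ∃ n : ℕ, ∀ N : ℕ, ∃ (α : G →* (Tr p N ≃ₐ[ZMod p] Tr p N)) (β : G → Tr p N),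
      (∀ σ, β σ ∈ Iw p N μ) ∧ (∀ σ, iota p N (β σ) = -β σ) ∧
      (∀ σ, α σ (wv p N) = wv p N + β σ ^ (p ^ a)) ∧
      (∀ σ τ, β (σ * τ) = β σ + α σ (β τ)) ∧
      (n ≤ N → ∀ σ, β σ ∈ Iw p N n → σ = 1) := by
  have hpp : p.Prime := Fact.out
  have hodd : Odd p := hpp.odd_of_ne_two hp
  obtain ⟨n, hn⟩ := hG.exists_card_eq
  obtain ⟨h, hh⟩ : Odd (p ^ a) := hodd.pow
  obtain ⟨ρ0, hρ0⟩ : Odd (p * (p ^ a * p ^ n)) := hodd.mul (hodd.pow.mul hodd.pow)
  have hρ : ¬ (p : ℤ) ∣ ((ρ0 : ℤ) + 1) := by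
    intro hd
    have h1 : (p : ℤ) ∣ 2 * ((ρ0 : ℤ) + 1) - p * (p ^ a * p ^ n) :=
      dvd_sub (Dvd.dvd.mul_left hd 2) (dvd_mul_right _ _)
    have h2 : 2 * ((ρ0 : ℤ) + 1) - p * (p ^ a * p ^ n) = 1 := by
      zify at hρ0
      linarith
    rw [h2] at h1
    have : p ∣ 1 := by exact_mod_cast h1
    exact hpp.one_lt.ne' (Nat.dvd_one.1 this)
  obtain ⟨L, _, _, S, act, s, ξ, τ, r, hres, h1, hmul, hinj, hF, hs, hsv, hκ, hτ, ⟨l, hl⟩, hD⟩ :=
    inv_all p (ρ0 + 1) (h + (p ^ a : ℕ) * μ) hρ n G hn a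
  set q := p ^ a with hq
  set σ : L := s ^ (-(p : ℤ) - 2 * l) with hσ
  have hσv : S.Ex ((-(p : ℤ) - 2 * l) * Nat.card G) σ := hsv.zpow _
  have hσf : ∀ g, act g σ = σ := fun g => by rw [hσ, map_zpow₀, hs]
  have hσ0 := hσv.ne_zero
  have hτ0 := hτ.ne_zero
  have hτ1 : ∀ g, act g τ ≠ 0 := fun g => (_root_.map_ne_zero _).2 hτ0
  have ht : S.Ex 1 (τ ^ 2 * σ ^ q) := ((hτ.pow 2).mul (hσv.pow q)).congr (by
    rw [← hn] at hρ0
    zify at hρ0
    push_cast
    linear_combination 2 * hl - hρ0)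
  have hb : ∀ g, (ξ - act g ξ) ^ q = act g τ - τ := fun g => by
    have e1 := hκ g
    rw [map_add, map_pow] at e1
    rw [hq, sub_pow_char_pow, ← hq]
    linear_combination -e1
  have hBU : ∀ g, act g τ / τ = 1 + ((ξ - act g ξ) / (σ ^ h * τ)) ^ q * (τ ^ 2 * σ ^ q) ^ h := by
    intro g
    rw [div_pow, hb, hh]
    field_simp
    ring
  have hU1 : ∀ g, act g τ / τ - 1 ∈ S.F (h + q * μ) := fun g => by
    have e1 : act g τ / τ - 1 = (act g τ - τ) * τ⁻¹ := by field_simp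
    rw [e1]
    exact Filt.mul (hD g) hτ.inv.1 (by linarith)
  refine finish p S act q h μ hh hres hF hinj _ ht (fun g => act g τ / τ)
    (fun g => (ξ - act g ξ) / (σ ^ h * τ)) (fun g => ?_) (by simp [h1, hτ0]) (fun g => ?_)
    (fun g g' => ?_) (fun g => ?_) hBU (fun g g' => ?_)
  · have := add_mem (Filt.mono (hU1 g) (by positivity : (0 : ℤ) ≤ h + q * μ)) S.one_mem
    simpa using this
  · rw [map_mul, map_pow, map_pow, hσf]
    field_simp
  · have := hτ1 g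
    rw [map_div₀, hmul]
    field_simp
  · have e1 := hU1 g
    rw [hBU, add_sub_cancel_left, mul_comm (_ ^ q)] at e1
    refine Filt.mem_of_pow_mem (k := q) (by omega) (Filt.mem_of_mul_mem (ht.pow h) ?_)
    simpa using e1
  · have := hτ1 g
    rw [map_div₀, map_sub, map_mul, map_pow, hσf, hmul]
    field_simp
    ring

end Pool.Agent.Lib.MP_0813d1_al
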