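import Mathlib
import Pool.Agent.Lib.MP_0813d1_al.Model3
import Pool.Agent.Lib.MP_0813d1_al.HallPetrescu
import Pool.Agent.Lib.MP_0813d1_al.Serre
import Pool.Agent.Lib.MP_0813d1_al.Universal
import Pool.Agent.Lib.MP_0813d1_al.Hopf
import Pool.Agent.Lib.MP_0813d1_al.Symbols
import Pool.Agent.Lib.MP_0813d1_al.LowDegree

namespace Pool.Agent.Lib.MP_0813d1_al

open scoped commutatorElement

abbrev Fr : Type := FreeGroup Bool
def gX : Fr := FreeGroup.of true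
def gY : Fr := FreeGroup.of false
def SX : Fr := ⁅gX, ⁅gX, ⁅gX, gY⁆⁆⁆
def SY : Fr := ⁅gY, ⁅gY, ⁅gY, gX⁆⁆⁆

theorem closure_XY : Subgroup.closure ({gX, gY} : Set Fr) = ⊤ := by
  rw [← FreeGroup.closure_range_of]
  congr 1
  ext g
  simp only [Set.mem_insert_iff, Set.mem_singleton_iff, Set.mem_range, Bool.exists_bool, gX, gY]
  constructor
  · rintro (h | h)
    · exact Or.inr h.symm
    · exact Or.inl h.symm
  · rintro (h | h)
    · exact Or.inr h.symm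
    · exact Or.inl h.symm

section general
variable {G : Type*} [Group G]

theorem gam_zero : gam G 0 = ⊤ := rfl
theorem gam_one : gam G 1 = ⊤ := rfl

instance gam_normal (i : ℕ) : (gam G i).Normal := by unfold gam; infer_instance

theorem gam_anti {i j : ℕ} (h : i ≤ j) : gam G j ≤ gam G i :=
  Subgroup.lowerCentralSeries_antitone _ (by omega)

theorem gam_succ {i : ℕ} (hi : 1 ≤ i) : gam G (i + 1) = ⁅gam G i, ⊤⁆ := by
  obtain ⟨k, rfl⟩ : ∃ k, i = k + 1 := ⟨i - 1, by omega⟩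
  rfl

theorem comm_mem_gam {i j : ℕ} (hi : 1 ≤ i) (hj : 1 ≤ j) {g h : G} (hg : g ∈ gam G i)
    (hh : h ∈ gam G j) : ⁅g, h⁆ ∈ gam G (i + j) :=
  gam_comm i j hi hj (Subgroup.commutator_mem_commutator hg hh)

theorem comm_mem_gam_succ {j : ℕ} (hj : 1 ≤ j) (g : G) {h : G} (hh : h ∈ gam G j) :
    ⁅g, h⁆ ∈ gam G (j + 1) := by
  rw [add_comm]; exact comm_mem_gam le_rfl hj (Subgroup.mem_top g) hh

/-- elements centralizing `C` modulo `T` -/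
def cmod (C T : Subgroup G) [hT : T.Normal] : Subgroup G where
  carrier := {g | ∀ c ∈ C, ⁅g, c⁆ ∈ T}
  one_mem' := fun c _ => by simp
  mul_mem' := fun {g h} hg hh c hc => by
    have e : ⁅g * h, c⁆ = g * ⁅h, c⁆ * g⁻¹ * ⁅g, c⁆ := by
      simp only [commutatorElement_def]; group
    rw [e]; exact T.mul_mem (hT.conj_mem _ (hh c hc) g) (hg c hc)
  inv_mem' := fun {g} hg c hc => by
    have e : ⁅g⁻¹, c⁆ = g⁻¹ * (⁅g, c⁆)⁻¹ * g⁻¹⁻¹ := by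
      simp only [commutatorElement_def]; group
    rw [e]; exact hT.conj_mem _ (T.inv_mem (hg c hc)) _

theorem mem_cmod {C T : Subgroup G} [T.Normal] {g : G} :
    g ∈ cmod C T ↔ ∀ c ∈ C, ⁅g, c⁆ ∈ T := Iff.rfl

theorem le_cmod_iff {A C T : Subgroup G} [T.Normal] : A ≤ cmod C T ↔ ⁅A, C⁆ ≤ T := by
  rw [Subgroup.commutator_le]; rfl

theorem comm_sup_le {A B C T : Subgroup G} [T.Normal] (h1 : ⁅A, C⁆ ≤ T) (h2 : ⁅B, C⁆ ≤ T) :
    ⁅A ⊔ B, C⁆ ≤ T :=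
  le_cmod_iff.1 (sup_le (le_cmod_iff.2 h1) (le_cmod_iff.2 h2))

theorem comm_sup_le' {A B C T : Subgroup G} [T.Normal] (h1 : ⁅C, A⁆ ≤ T) (h2 : ⁅C, B⁆ ≤ T) :
    ⁅C, A ⊔ B⁆ ≤ T := by
  rw [Subgroup.commutator_comm] at h1 h2 ⊢
  exact comm_sup_le h1 h2

theorem comm_swap_mem {T : Subgroup G} {g h : G} (H : ⁅g, h⁆ ∈ T) : ⁅h, g⁆ ∈ T := by
  rw [← commutatorElement_inv]; exact T.inv_mem H

theorem comm_mem_left {T : Subgroup G} [hT : T.Normal] {g : G} (hg : g ∈ T) (h : G) :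
    ⁅g, h⁆ ∈ T := by
  have e : ⁅g, h⁆ = g * (h * g⁻¹ * h⁻¹) := by simp only [commutatorElement_def]; group
  rw [e]; exact T.mul_mem hg (hT.conj_mem _ (T.inv_mem hg) _)

theorem comm_mem_right {T : Subgroup G} [T.Normal] (g : G) {h : G} (hh : h ∈ T) :
    ⁅g, h⁆ ∈ T := comm_swap_mem (comm_mem_left hh g)

end general

variable {p N a : ℕ} [Fact p.Prime]

theorem map_gam_le (hq : 3 ≤ p ^ a) (pr : Fr →* Qs p N a) (i : ℕ) {g : Fr} (hg : g ∈ gam Fr i) :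
    pr g ∈ Qn p N a i := by
  induction i generalizing g with
  | zero => exact Qn_anti (Nat.zero_le 1) (mem_Qn_one _)
  | succ i ih =>
    rcases Nat.eq_zero_or_pos i with rfl | hi
    · exact mem_Qn_one _
    · rw [gam_succ hi] at hg
      have : ⁅gam Fr i, ⊤⁆ ≤ (Qn p N a (i + 1)).comap pr := by
        rw [Subgroup.commutator_le]
        intro g hg h _
        rw [Subgroup.mem_comap, map_commutatorElement]
        exact comm_mem_Qn hq hi le_rfl (ih hg) (mem_Qn_one _)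
      exact this hg

theorem surj_of_shapes (hp : p ≠ 2) (hq : 3 ≤ p ^ a) (pr : Fr →* Qs p N a) (K : ℕ → Subgroup Fr)
    (hK : ∀ i, K (i + 1) ≤ K i) (i0 : ℕ) (hi0 : 1 ≤ i0)
    (h : ∀ i, i0 ≤ i → ∀ M, Shape i M → ∃ f ∈ K i, Lead i (pr f) M) (i : ℕ) (hi : i0 ≤ i)
    (u : Qs p N a) (hu : u ∈ Qn p N a i) : ∃ f ∈ K i, pr f = u := by
  induction hd : N - i generalizing i u with
  | zero => exact ⟨1, one_mem _, by rw [map_one, eq_one_of_mem_Qn (by omega) hu]⟩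
  | succ d ih =>
    obtain ⟨M, hM, hl⟩ := exists_lead_shape hp (hi0.trans hi) hu
    obtain ⟨f, hf, hfl⟩ := h i hi M hM
    obtain ⟨f', hf', e⟩ := ih (i + 1) (by omega) _ (hfl.div_mem (by omega) (hi0.trans hi) hl)
      (by omega)
    exact ⟨f * f', mul_mem hf (hK i hf'), by rw [map_mul, e]; group⟩

theorem shapes_step (hp : p ≠ 2) (hq : 3 ≤ p ^ a) (pr : Fr →* Qs p N a)
    (hx : Lead 1 (pr gX) (mE p)) (hy : Lead 1 (pr gY) (mF p)) {K K' : Subgroup Fr} {i : ℕ}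
    (hi : 1 ≤ i) (hK : ∀ f ∈ K, ⁅gX, f⁆ ∈ K' ∧ ⁅gY, f⁆ ∈ K')
    (h : ∀ M, Shape i M → ∃ f ∈ K, Lead i (pr f) M) :
    ∀ M, Shape (i + 1) M → ∃ f ∈ K', Lead (i + 1) (pr f) M := by
  intro M hM
  obtain ⟨M₁, M₂, h1, h2, e, -⟩ := hM.step hp
  obtain ⟨f₁, hf₁, l₁⟩ := h M₁ h1
  obtain ⟨f₂, hf₂, l₂⟩ := h M₂ h2
  refine ⟨⁅gX, f₁⁆ * ⁅gY, f₂⁆, mul_mem (hK _ hf₁).1 (hK _ hf₂).2, ?_⟩
  rw [map_mul, map_commutatorElement, map_commutatorElement, e, add_comm i 1]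
  exact (hx.comm hq le_rfl hi l₁).mul (by omega) (by omega) (hy.comm hq le_rfl hi l₂)

theorem shapes_step_odd (hp : p ≠ 2) (hq : 3 ≤ p ^ a) (pr : Fr →* Qs p N a)
    (hx : Lead 1 (pr gX) (mE p)) {K K' : Subgroup Fr} {i : ℕ}
    (hi : Odd i) (hK : ∀ f ∈ K, ⁅gX, f⁆ ∈ K') {z : Fr} (hz : z ∈ K) (hl : Lead i (pr z) (mF p)) :
    ∀ M, Shape (i + 1) M → ∃ f ∈ K', Lead (i + 1) (pr f) M := by
  intro M hM
  obtain ⟨M₁, M₂, -, -, e, h⟩ := hM.step hp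
  obtain ⟨rfl, c, rfl⟩ := h hi
  refine ⟨⁅gX, z ^ c.val⁆, hK _ (pow_mem hz _), ?_⟩
  rw [map_commutatorElement, map_pow, e, add_comm i 1]
  exact (hx.comm hq le_rfl hi.pos (hl.smul (by omega) hi.pos c)).congr (by simp)

theorem gam_shapes (hp : p ≠ 2) (hq : 3 ≤ p ^ a) (pr : Fr →* Qs p N a)
    (hx : Lead 1 (pr gX) (mE p)) (hy : Lead 1 (pr gY) (mF p)) (i : ℕ) (hi : 1 ≤ i) :
    ∀ M, Shape i M → ∃ f ∈ gam Fr i, Lead i (pr f) M := by
  induction i, hi using Nat.le_induction with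
  | base =>
    intro M hM
    refine ⟨gX ^ (M 0 1).val * gY ^ (M 1 0).val, Subgroup.mem_top _, ?_⟩
    rw [map_mul, map_pow, map_pow]
    exact ((hx.smul (by omega) le_rfl _).mul (by omega) le_rfl (hy.smul (by omega) le_rfl _)).congr
      (hM.odd_eq odd_one).symm
  | succ i hi ih =>
    exact shapes_step hp hq pr hx hy hi
      (fun f hf => ⟨comm_mem_gam_succ hi _ hf, comm_mem_gam_succ hi _ hf⟩) ih

theorem gam_surj (hp : p ≠ 2) (hq : 3 ≤ p ^ a) (pr : Fr →* Qs p N a)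
    (hx : Lead 1 (pr gX) (mE p)) (hy : Lead 1 (pr gY) (mF p)) {i : ℕ} (hi : 1 ≤ i)
    {u : Qs p N a} (hu : u ∈ Qn p N a i) : ∃ f ∈ gam Fr i, pr f = u :=
  surj_of_shapes hp hq pr (gam Fr) (fun _ => gam_anti (Nat.le_succ _)) 1 le_rfl
    (gam_shapes hp hq pr hx hy) i hi u hu

/-- the presentation data -/
structure Dat (p N a n : ℕ) [Fact p.Prime] where
  pr : Fr →* Qs p N a
  s1 : Fr
  s2 : Fr
  w1 : Fr
  w2 : Fr
  h5 : 5 ≤ p
  hq : 5 ≤ p ^ a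
  hn : 5 ≤ n
  hno : Odd n
  hx : (pr gX).1.m = !![1, wv p N; 0, 1]
  hy : (pr gY).1.m = !![1, 0; wv p N, 1]
  hw1 : w1 ∈ gam Fr 5
  hw2 : w2 ∈ gam Fr 5
  e1 : s1 = (gX ^ p)⁻¹ * SX * w1
  e2 : s2 = (gY ^ p)⁻¹ * SX * SY * w2
  z1 : Lead n (pr s1⁻¹) (mF p)
  z2 : pr s2 = 1

theorem SX_mem : SX ∈ gam Fr 4 :=
  comm_mem_gam_succ (j := 3) (by omega) _ (comm_mem_gam_succ (j := 2) (by omega) _
    (comm_mem_gam_succ (j := 1) le_rfl _ (Subgroup.mem_top _)))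

theorem SY_mem : SY ∈ gam Fr 4 :=
  comm_mem_gam_succ (j := 3) (by omega) _ (comm_mem_gam_succ (j := 2) (by omega) _
    (comm_mem_gam_succ (j := 1) le_rfl _ (Subgroup.mem_top _)))

theorem exists_dat (h5 : 5 ≤ p) (hq : 5 ≤ p ^ a) (n : ℕ) (hn : 5 ≤ n) (hno : Odd n) :
    Nonempty (Dat p N a n) := by
  have hp : p ≠ 2 := by omega
  have hw := wv_pow_mem_Iw p N 1
  rw [pow_one] at hw
  obtain ⟨x, hx⟩ := exists_eQ (N := N) (a := a) (by omega) hw (iota_wv p N)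
  obtain ⟨y, hy⟩ := exists_fQ (N := N) (a := a) (by omega) hw (iota_wv p N)
  obtain ⟨z, hz⟩ := exists_fQ (N := N) (a := a) (by omega)
    (Iw_anti (show 1 ≤ n by omega) (wv_pow_mem_Iw p N n))
    (by rw [map_pow, iota_wv, hno.neg_pow])
  let pr : Fr →* Qs p N a := FreeGroup.lift fun b => if b then x else y
  have hX : pr gX = x := by simp [pr, gX]
  have hY : pr gY = y := by simp [pr, gY]
  have lx : Lead 1 (pr gX) (mE p) := lead_e (by rw [hX, hx, pow_one])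
  have ly : Lead 1 (pr gY) (mF p) := lead_f (by rw [hY, hy, pow_one])
  have lz : Lead n z (mF p) := lead_f hz
  have hq3 : 3 ≤ p ^ a := by omega
  have hSX : pr SX ∈ Qn p N a 5 := by
    have := lx.comm hq3 le_rfl (by omega) (lx.comm hq3 le_rfl (by omega)
      (lx.comm hq3 le_rfl le_rfl ly))
    rw [← lead_zero_iff]
    simp only [SX, map_commutatorElement]
    refine this.congr ?_
    ext r s; fin_cases r <;> fin_cases s <;> simp [mE, mF]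
  have hSY : pr SY ∈ Qn p N a 5 := by
    have := ly.comm hq3 le_rfl (by omega) (ly.comm hq3 le_rfl (by omega)
      (ly.comm hq3 le_rfl le_rfl lx))
    rw [← lead_zero_iff]
    simp only [SY, map_commutatorElement]
    refine this.congr ?_
    ext r s; fin_cases r <;> fin_cases s <;> simp [mE, mF]
  have hxp : pr gX ^ p ∈ Qn p N a 5 := pow_p_mem_Qn h5 hq le_rfl (mem_Qn_one _)
  have hyp : pr gY ^ p ∈ Qn p N a 5 := pow_p_mem_Qn h5 hq le_rfl (mem_Qn_one _)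
  have hz5 : z ∈ Qn p N a 5 := Qn_anti hn lz.mem
  obtain ⟨w1, hw1, e1⟩ := gam_surj hp hq3 pr lx ly (by omega)
    (mul_mem (mul_mem (inv_mem hSX) hxp) (inv_mem hz5))
  obtain ⟨w2, hw2, e2⟩ := gam_surj hp hq3 pr lx ly (by omega)
    (mul_mem (mul_mem (inv_mem hSY) (inv_mem hSX)) hyp)
  refine ⟨⟨pr, _, _, w1, w2, h5, hq, hn, hno, by rw [hX, hx], by rw [hY, hy], hw1, hw2, rfl, rfl,
    ?_, ?_⟩⟩
  · have : pr ((gX ^ p)⁻¹ * SX * w1)⁻¹ = z := by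
      simp only [map_mul, map_inv, map_pow, e1]; group
    rw [this]; exact lz
  · simp only [map_mul, map_inv, map_pow, e2]; group

namespace Dat
variable {n : ℕ} (D : Dat p N a n)

theorem hp2 (D : Dat p N a n) : p ≠ 2 := by have := D.h5; omega
theorem hq3 (D : Dat p N a n) : 3 ≤ p ^ a := by have := D.hq; omega
theorem hq2 (D : Dat p N a n) : 2 ≤ p ^ a := by have := D.hq; omega
theorem lx : Lead 1 (D.pr gX) (mE p) := lead_e (by rw [D.hx, pow_one])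
theorem ly : Lead 1 (D.pr gY) (mF p) := lead_f (by rw [D.hy, pow_one])

def R : Subgroup Fr := Subgroup.normalClosure {D.s1, D.s2} ⊔ gam Fr N

instance : D.R.Normal := by unfold R; infer_instance

noncomputable def Qc (i : ℕ) : Subgroup Fr := (Qn p N a i).comap D.pr

instance (i : ℕ) : (D.Qc i).Normal := (Qn_normal D.hq3 i).comap _

theorem mem_Qc {i : ℕ} {g : Fr} : g ∈ D.Qc i ↔ D.pr g ∈ Qn p N a i := Iff.rfl

theorem Qc_anti {i j : ℕ} (h : i ≤ j) : D.Qc j ≤ D.Qc i := fun _ hg => Qn_anti h hg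

theorem gam_le_Qc (i : ℕ) : gam Fr i ≤ D.Qc i := fun _ hg => map_gam_le D.hq3 D.pr i hg

theorem comm_mem_Qc {i j : ℕ} (hi : 1 ≤ i) (hj : 1 ≤ j) {g h : Fr} (hg : g ∈ D.Qc i)
    (hh : h ∈ D.Qc j) : ⁅g, h⁆ ∈ D.Qc (i + j) := by
  rw [mem_Qc, map_commutatorElement]; exact comm_mem_Qn D.hq3 hi hj hg hh

theorem Qc_le_ker {i : ℕ} (h : N ≤ i) : D.Qc i ≤ D.pr.ker := fun _ hg => eq_one_of_mem_Qn h hg

theorem ker_le_Qc (i : ℕ) : D.pr.ker ≤ D.Qc i := fun g hg => by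
  rw [mem_Qc, (MonoidHom.mem_ker).1 hg]; exact one_mem _

theorem s1_mem_R : D.s1 ∈ D.R :=
  Subgroup.mem_sup_left (Subgroup.subset_normalClosure (by simp))

theorem s2_mem_R : D.s2 ∈ D.R :=
  Subgroup.mem_sup_left (Subgroup.subset_normalClosure (by simp))

theorem gam_le_R {i : ℕ} (h : N ≤ i) : gam Fr i ≤ D.R := (gam_anti h).trans le_sup_right

theorem R_le_Qc : D.R ≤ D.Qc n := by
  refine sup_le (Subgroup.normalClosure_le_normal ?_) ?_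
  · rintro g (rfl | rfl)
    · have : D.s1⁻¹ ∈ D.Qc n := D.z1.mem
      simpa using this
    · exact D.ker_le_Qc n D.z2
  · exact (D.gam_le_Qc N).trans ((D.Qc_le_ker le_rfl).trans (D.ker_le_Qc n))

noncomputable def Rj (j : ℕ) : Subgroup Fr := D.R ⊓ D.Qc (n + j - 4)

instance (j : ℕ) : (D.Rj j).Normal := by unfold Rj; infer_instance

theorem Rj_anti {i j : ℕ} (h : i ≤ j) : D.Rj j ≤ D.Rj i :=
  inf_le_inf_left _ (D.Qc_anti (by omega))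

noncomputable def Fj (j : ℕ) : Subgroup Fr := gam Fr j ⊔ D.Rj j

instance (j : ℕ) : (D.Fj j).Normal := by unfold Fj; infer_instance

theorem gam_le_Fj (j : ℕ) : gam Fr j ≤ D.Fj j := le_sup_left
theorem Rj_le_Fj (j : ℕ) : D.Rj j ≤ D.Fj j := le_sup_right

theorem Fj_anti {i j : ℕ} (h : i ≤ j) : D.Fj j ≤ D.Fj i :=
  sup_le_sup (gam_anti h) (D.Rj_anti h)

theorem Fj_one : D.Fj 1 = ⊤ := eq_top_iff.2 (D.gam_le_Fj 1)
theorem Fj_zero : D.Fj 0 = ⊤ := eq_top_iff.2 (D.gam_le_Fj 0)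
theorem mem_Fj_one (g : Fr) : g ∈ D.Fj 1 := by rw [D.Fj_one]; trivial

theorem Fj_le_Qc (j : ℕ) : D.Fj j ≤ D.Qc j :=
  sup_le (D.gam_le_Qc j) (inf_le_right.trans (D.Qc_anti (by have := D.hn; omega)))

theorem comm_mem_Rj {i j : ℕ} (hi : 1 ≤ i) {g r : Fr} (hg : g ∈ D.Qc i) (hr : r ∈ D.Rj j) :
    ⁅g, r⁆ ∈ D.Rj (i + j) := by
  have := D.hn
  exact ⟨comm_mem_right g hr.1, D.Qc_anti (by omega) (D.comm_mem_Qc hi (by omega) hg hr.2)⟩

theorem comm_Rj_Rj {i j : ℕ} {r r' : Fr} (hr : r ∈ D.Rj i) (hr' : r' ∈ D.Rj j) :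
    ⁅r, r'⁆ ∈ D.Rj (i + j + 1) := by
  have := D.hn
  exact ⟨comm_mem_right r hr'.1,
    D.Qc_anti (by omega) (D.comm_mem_Qc (by omega) (by omega) hr.2 hr'.2)⟩

theorem Fj_comm (i j : ℕ) : ⁅D.Fj i, D.Fj j⁆ ≤ D.Fj (i + j) := by
  rcases Nat.eq_zero_or_pos i with rfl | hi
  · rw [zero_add]; exact Subgroup.commutator_le_right _ _
  rcases Nat.eq_zero_or_pos j with rfl | hj
  · exact Subgroup.commutator_le_left _ _
  refine comm_sup_le (comm_sup_le' ((gam_comm i j hi hj).trans (D.gam_le_Fj _)) ?_) ?_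
  · rw [Subgroup.commutator_le]
    intro g hg r hr
    exact D.Rj_le_Fj _ (D.comm_mem_Rj hi (D.gam_le_Qc i hg) hr)
  · rw [Subgroup.commutator_le]
    intro r hr g hg
    rw [add_comm]
    exact comm_swap_mem (D.Rj_le_Fj _ (D.comm_mem_Rj hj (D.Fj_le_Qc j hg) hr))

noncomputable def NS : NSeries Fr where
  N := D.Fj
  one := D.Fj_one
  anti := fun _ _ h => D.Fj_anti h
  comm := D.Fj_comm

theorem comm_mem_Fj {i j : ℕ} {g h : Fr} (hg : g ∈ D.Fj i) (hh : h ∈ D.Fj j) :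
    ⁅g, h⁆ ∈ D.Fj (i + j) := D.Fj_comm i j (Subgroup.commutator_mem_commutator hg hh)

theorem Fj_eq {j : ℕ} (h : N ≤ j) : D.Fj j = D.R ⊓ D.pr.ker := by
  have := D.hn
  apply le_antisymm
  · exact le_inf (sup_le (D.gam_le_R h) inf_le_left) ((D.Fj_le_Qc j).trans (D.Qc_le_ker h))
  · exact (inf_le_inf_left _ (D.ker_le_Qc _)).trans (D.Rj_le_Fj j)

theorem s1_mem_R4 : D.s1 ∈ D.Rj 4 := ⟨D.s1_mem_R, D.R_le_Qc D.s1_mem_R⟩

theorem s2_mem_Rj (j : ℕ) : D.s2 ∈ D.Rj j := ⟨D.s2_mem_R, D.ker_le_Qc _ D.z2⟩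

theorem gX_pow : gX ^ p = SX * D.w1 * D.s1⁻¹ := by rw [D.e1]; group

theorem gY_pow : gY ^ p = SX * SY * D.w2 * D.s2⁻¹ := by rw [D.e2]; group

theorem gX_pow_mem : gX ^ p ∈ D.Fj 4 := by
  rw [D.gX_pow]
  exact mul_mem (mul_mem (D.gam_le_Fj 4 SX_mem) (D.gam_le_Fj 4 (gam_anti (by omega) D.hw1)))
    (inv_mem (D.Rj_le_Fj 4 D.s1_mem_R4))

theorem gY_pow_mem : gY ^ p ∈ D.Fj 4 := by
  rw [D.gY_pow]
  exact mul_mem (mul_mem (mul_mem (D.gam_le_Fj 4 SX_mem) (D.gam_le_Fj 4 SY_mem))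
    (D.gam_le_Fj 4 (gam_anti (by omega) D.hw2))) (inv_mem (D.Rj_le_Fj 4 (D.s2_mem_Rj 4)))

theorem Rj_pow {j : ℕ} {r : Fr} (hr : r ∈ D.Rj j) : r ^ p ∈ D.Rj (j + 4) := by
  have := D.hn
  refine ⟨pow_mem hr.1 _, ?_⟩
  have h1 := pow_p_mem_Qn D.h5 D.hq (show 1 ≤ n + j - 4 by omega) hr.2
  rw [← map_pow] at h1
  exact D.Qc_anti (by omega) h1

theorem Fj_pow (j : ℕ) (hj : 1 ≤ j) (g : Fr) (hg : g ∈ D.Fj j) : g ^ p ∈ D.Fj (j + 3) := by
  refine pow_mem_of_gen D.NS p Fact.out D.h5 N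
    (fun j hj => (D.Fj_eq hj).trans (D.Fj_eq le_rfl).symm) ?_ j hj g hg
  intro j hj
  refine sup_le ?_ ?_
  · rcases Nat.eq_or_lt_of_le hj with rfl | hj2
    · rw [gam_one, ← closure_XY]
      refine le_sup_of_le_left (Subgroup.closure_mono ?_)
      rintro g (rfl | rfl)
      · exact Or.inl ⟨D.mem_Fj_one _, D.gX_pow_mem⟩
      · exact Or.inl ⟨D.mem_Fj_one _, D.gY_pow_mem⟩
    · obtain ⟨i, rfl⟩ : ∃ i, j = i + 1 := ⟨j - 1, by omega⟩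
      refine (gam_succ_le _ closure_XY i (by omega)).trans
        (sup_le_sup (Subgroup.closure_mono ?_) (D.gam_le_Fj _))
      rintro u ⟨s, hs, g, hg, rfl⟩
      refine Or.inr ⟨s, g, ?_, D.gam_le_Fj i hg, hj2, rfl⟩
      rcases hs with rfl | rfl
      · exact D.gX_pow_mem
      · exact D.gY_pow_mem
  · intro r hr
    refine Subgroup.mem_sup_left (Subgroup.subset_closure (Or.inl ⟨D.Rj_le_Fj j hr, ?_⟩))
    exact D.Rj_le_Fj _ (D.Rj_anti (by omega) (D.Rj_pow hr))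

theorem Fj_pow_pow (j : ℕ) (hj : 1 ≤ j) (g : Fr) (hg : g ∈ D.Fj j) (k : ℕ) :
    g ^ p ^ k ∈ D.Fj (j + 3 * k) := by
  induction k with
  | zero => simpa using hg
  | succ k ih => rw [pow_succ, pow_mul]; exact D.Fj_pow (j + 3 * k) (by omega) _ ih

theorem R_shapes (i : ℕ) (hi : n + 1 ≤ i) : ∀ M, Shape i M → ∃ r ∈ D.R, Lead i (D.pr r) M := by
  induction i, hi using Nat.le_induction with
  | base =>
    exact shapes_step_odd D.hp2 D.hq3 D.pr D.lx D.hno (fun f hf => comm_mem_right _ hf)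
      (inv_mem D.s1_mem_R) D.z1
  | succ i hi ih =>
    exact shapes_step D.hp2 D.hq3 D.pr D.lx D.ly (by omega)
      (fun f hf => ⟨comm_mem_right _ hf, comm_mem_right _ hf⟩) ih

theorem gam_surj' {i : ℕ} (hi : 1 ≤ i) {u : Qs p N a} (hu : u ∈ Qn p N a i) :
    ∃ f ∈ gam Fr i, D.pr f = u := gam_surj D.hp2 D.hq3 D.pr D.lx D.ly hi hu

/-- kernel of `pr` in `F_j` -/
noncomputable def V (j : ℕ) : Subgroup Fr := D.Fj j ⊓ D.pr.ker

instance (j : ℕ) : (D.V j).Normal := by unfold V; infer_instance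

theorem V_anti {i j : ℕ} (h : i ≤ j) : D.V j ≤ D.V i := inf_le_inf_right _ (D.Fj_anti h)

theorem comm_mem_V {i j : ℕ} {g v : Fr} (hg : g ∈ D.Fj i) (hv : v ∈ D.V j) :
    ⁅g, v⁆ ∈ D.V (i + j) := ⟨D.comm_mem_Fj hg hv.1, comm_mem_right g hv.2⟩

theorem split {m i : ℕ} (hi : 1 ≤ i) (hmi : m ≤ i) {g : Fr} (hg : g ∈ D.Fj m) (hQ : g ∈ D.Qc i) :
    ∃ f ∈ gam Fr i, ∃ v ∈ D.V m, g = f * v := by
  obtain ⟨f, hf, e⟩ := D.gam_surj' hi hQ
  have h1 : f⁻¹ * g ∈ D.Fj m := mul_mem (inv_mem (D.Fj_anti hmi (D.gam_le_Fj i hf))) hg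
  refine ⟨f, hf, f⁻¹ * g, ⟨h1, ?_⟩, by group⟩
  change f⁻¹ * g ∈ D.pr.ker
  rw [MonoidHom.mem_ker, map_mul, map_inv, e, inv_mul_cancel]

theorem R_comm_ker {r v : Fr} (hr : r ∈ D.R) (hv : v ∈ D.pr.ker) (j : ℕ) : ⁅v, r⁆ ∈ D.Fj j :=
  D.Rj_le_Fj j ⟨comm_mem_right v hr, D.ker_le_Qc _ (comm_mem_left hv r)⟩

end Dat

end Pool.Agent.Lib.MP_0813d1_al
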