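import Mathlib
import Pool.Agent.Lib.MP_0813d1_al.Asm1

namespace Pool.Agent.Lib.MP_0813d1_al

open scoped commutatorElement

namespace GrData
variable {G : Type*} [Group G] {S : NSeries G} {L : Type*} [LieRing L] (Gd : GrData S L)

theorem cls_succ {n : ℕ} {g : G} (hg : g ∈ S.N (n + 1)) : Gd.cls n g = 0 :=
  (Gd.cls_eq_zero n g (S.anti (Nat.le_succ n) hg)).2 hg

theorem cls_one (n : ℕ) : Gd.cls n 1 = 0 := Gd.cls_succ (one_mem _)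

theorem cls_inv {n : ℕ} {g : G} (hg : g ∈ S.N n) : Gd.cls n g⁻¹ = -Gd.cls n g := by
  have := Gd.cls_mul n g⁻¹ g (inv_mem hg) hg
  rw [inv_mul_cancel, Gd.cls_one] at this
  exact eq_neg_of_add_eq_zero_left this.symm

theorem cls_pow {n : ℕ} {g : G} (hg : g ∈ S.N n) (k : ℕ) : Gd.cls n (g ^ k) = k • Gd.cls n g := by
  induction k with
  | zero => simp [Gd.cls_one]
  | succ k ih => rw [pow_succ, Gd.cls_mul n _ _ (pow_mem hg k) hg, ih, succ_nsmul]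

theorem div_mem_of_cls_eq {n : ℕ} {g h : G} (hg : g ∈ S.N n) (hh : h ∈ S.N n)
    (e : Gd.cls n g = Gd.cls n h) : g⁻¹ * h ∈ S.N (n + 1) := by
  rw [← Gd.cls_eq_zero n _ (mul_mem (inv_mem hg) hh), Gd.cls_mul n _ _ (inv_mem hg) hh,
    Gd.cls_inv hg, e, neg_add_cancel]

theorem cls_eq_of_div_mem {n : ℕ} {g h : G} (hg : g ∈ S.N n) (hh : h ∈ S.N n)
    (e : g⁻¹ * h ∈ S.N (n + 1)) : Gd.cls n g = Gd.cls n h := by
  have := Gd.cls_succ e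
  rw [Gd.cls_mul n _ _ (inv_mem hg) hh, Gd.cls_inv hg] at this
  exact neg_add_eq_zero.1 this

theorem cls_zero (g : G) : Gd.cls 0 g = 0 := Gd.cls_succ (S.mem_one g)

end GrData

variable {p N a n : ℕ} [Fact p.Prime]

namespace Dat

variable (D : Dat p N a n) {L : Type*} [LieRing L] (Gd : GrData D.NS L)

theorem gam_cls_induction (A : ℕ → AddSubgroup L) (hx : Gd.cls 1 gX ∈ A 1) (hy : Gd.cls 1 gY ∈ A 1)
    (hA : ∀ j u, 1 ≤ j → u ∈ A j → ⁅Gd.cls 1 gX, u⁆ ∈ A (j + 1) ∧ ⁅Gd.cls 1 gY, u⁆ ∈ A (j + 1))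
    (j : ℕ) (hj : 1 ≤ j) (g : Fr) (hg : g ∈ gam Fr j) : Gd.cls j g ∈ A j := by
  let B : ℕ → Subgroup Fr := fun j =>
    { carrier := {g | g ∈ D.Fj j ∧ Gd.cls j g ∈ A j}
      one_mem' := ⟨one_mem _, by rw [Gd.cls_one]; exact zero_mem _⟩
      mul_mem' := fun {g h} hg hh => ⟨mul_mem hg.1 hh.1, by
        rw [Gd.cls_mul j g h hg.1 hh.1]; exact add_mem hg.2 hh.2⟩
      inv_mem' := fun {g} hg => ⟨inv_mem hg.1, by rw [Gd.cls_inv hg.1]; exact neg_mem hg.2⟩ }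
  suffices h : gam Fr j ≤ B j from (h hg).2
  clear hg g
  induction j, hj using Nat.le_induction with
  | base =>
    rw [gam_one, ← closure_XY, Subgroup.closure_le]
    rintro g (rfl | rfl)
    · exact ⟨D.mem_Fj_one _, hx⟩
    · exact ⟨D.mem_Fj_one _, hy⟩
  | succ j hj ih =>
    refine (gam_succ_le _ closure_XY j hj).trans (sup_le ?_ ?_)
    · rw [Subgroup.closure_le]
      rintro u ⟨s, hs, g, hg, rfl⟩
      refine ⟨D.gam_le_Fj _ (comm_mem_gam_succ hj _ hg), ?_⟩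
      rw [add_comm j 1, ← Gd.cls_lie 1 j s g (D.mem_Fj_one _) (D.gam_le_Fj j hg), add_comm 1 j]
      rcases hs with rfl | rfl
      · exact (hA j _ hj (ih hg).2).1
      · exact (hA j _ hj (ih hg).2).2
    · intro g hg
      refine ⟨D.gam_le_Fj _ (gam_anti (by omega) hg), ?_⟩
      rw [Gd.cls_succ (D.gam_le_Fj _ hg)]; exact zero_mem _

theorem cls_split {j : ℕ} {g : Fr} (hg : g ∈ D.Fj j) :
    ∃ f ∈ gam Fr j, ∃ r ∈ D.Rj j, Gd.cls j g = Gd.cls j f + Gd.cls j r := by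
  obtain ⟨f, hf, r, hr, rfl⟩ := Subgroup.mem_sup_of_normal_right.1 hg
  exact ⟨f, hf, r, hr, Gd.cls_mul j f r (D.gam_le_Fj j hf) (D.Rj_le_Fj j hr)⟩

/-- class of an element of `R_j` with prescribed leading matrix -/
def IsMod (j : ℕ) (M : Mat (ZMod p)) (u : L) : Prop :=
  ∃ r ∈ D.R, Lead (n + j - 4) (D.pr r) M ∧ u = Gd.cls j r

variable {D Gd}

theorem mem_Rj_of_lead {j : ℕ} {r : Fr} {M : Mat (ZMod p)} (hr : r ∈ D.R)
    (h : Lead (n + j - 4) (D.pr r) M) : r ∈ D.Rj j := ⟨hr, h.mem⟩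

theorem IsMod.unique {j : ℕ} {M : Mat (ZMod p)} {u u' : L} (h : D.IsMod Gd j M u)
    (h' : D.IsMod Gd j M u') : u = u' := by
  obtain ⟨r, hr, l, rfl⟩ := h
  obtain ⟨r', hr', l', rfl⟩ := h'
  have := D.hn
  refine Gd.cls_eq_of_div_mem (D.Rj_le_Fj j (mem_Rj_of_lead hr l))
    (D.Rj_le_Fj j (mem_Rj_of_lead hr' l')) (D.Rj_le_Fj _ ⟨D.R.mul_mem (D.R.inv_mem hr) hr', ?_⟩)
  have h1 := l.div_mem D.hq2 (by omega) l'
  rw [← map_inv, ← map_mul] at h1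
  exact D.Qc_anti (by omega) h1

theorem IsMod.zero (j : ℕ) : D.IsMod Gd j 0 0 :=
  ⟨1, one_mem _, by rw [map_one]; exact Lead.one _, (Gd.cls_one j).symm⟩

theorem IsMod.congr {j : ℕ} {M M' : Mat (ZMod p)} {u : L} (h : D.IsMod Gd j M u) (e : M = M') :
    D.IsMod Gd j M' u := e ▸ h

theorem IsMod.add {j : ℕ} {M M' : Mat (ZMod p)} {u u' : L} (h : D.IsMod Gd j M u)
    (h' : D.IsMod Gd j M' u') : D.IsMod Gd j (M + M') (u + u') := by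
  obtain ⟨r, hr, l, rfl⟩ := h
  obtain ⟨r', hr', l', rfl⟩ := h'
  have := D.hn
  refine ⟨r * r', mul_mem hr hr', ?_, (Gd.cls_mul j _ _ (D.Rj_le_Fj j (mem_Rj_of_lead hr l))
    (D.Rj_le_Fj j (mem_Rj_of_lead hr' l'))).symm⟩
  rw [map_mul]; exact l.mul D.hq2 (by omega) l'

theorem IsMod.neg {j : ℕ} {M : Mat (ZMod p)} {u : L} (h : D.IsMod Gd j M u) :
    D.IsMod Gd j (-M) (-u) := by
  obtain ⟨r, hr, l, rfl⟩ := h
  have := D.hn
  refine ⟨r⁻¹, inv_mem hr, ?_, (Gd.cls_inv (D.Rj_le_Fj j (mem_Rj_of_lead hr l))).symm⟩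
  rw [map_inv]; exact l.inv D.hq2 (by omega)

theorem IsMod.nsmul {j : ℕ} {M : Mat (ZMod p)} {u : L} (h : D.IsMod Gd j M u) (k : ℕ) :
    D.IsMod Gd j (k • M) (k • u) := by
  induction k with
  | zero => simpa using IsMod.zero j
  | succ k ih => rw [succ_nsmul, succ_nsmul]; exact ih.add h

theorem IsMod.lie {j : ℕ} {M M₁ : Mat (ZMod p)} {u : L} (h : D.IsMod Gd j M u) {s : Fr}
    (hs : Lead 1 (D.pr s) M₁) : D.IsMod Gd (j + 1) (M₁ * M - M * M₁) ⁅Gd.cls 1 s, u⁆ := by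
  obtain ⟨r, hr, l, rfl⟩ := h
  have := D.hn
  refine ⟨⁅s, r⁆, comm_mem_right _ hr, ?_, ?_⟩
  · rw [map_commutatorElement, show n + (j + 1) - 4 = 1 + (n + j - 4) by omega]
    exact hs.comm D.hq3 le_rfl (by omega) l
  · rw [Gd.cls_lie 1 j s r (D.mem_Fj_one _) (D.Rj_le_Fj j (mem_Rj_of_lead hr l)), add_comm]

theorem IsMod.lie_mod {i j : ℕ} {M M' : Mat (ZMod p)} {u u' : L} (h : D.IsMod Gd i M u)
    (h' : D.IsMod Gd j M' u') : ⁅u, u'⁆ = 0 := by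
  obtain ⟨r, hr, l, rfl⟩ := h
  obtain ⟨r', hr', l', rfl⟩ := h'
  rw [Gd.cls_lie i j r r' (D.Rj_le_Fj i (mem_Rj_of_lead hr l))
    (D.Rj_le_Fj j (mem_Rj_of_lead hr' l'))]
  exact Gd.cls_succ (D.Rj_le_Fj _ (D.comm_Rj_Rj (mem_Rj_of_lead hr l) (mem_Rj_of_lead hr' l')))

theorem IsMod.word {j : ℕ} {M : Mat (ZMod p)} {u : L} (h : D.IsMod Gd j M u) (l : List Bool) :
    ∃ M', D.IsMod Gd (j + l.length) M' (word (Gd.cls 1 gX) (Gd.cls 1 gY) l u) := by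
  induction l with
  | nil => exact ⟨M, h⟩
  | cons b l ih =>
    obtain ⟨M', h'⟩ := ih
    cases b
    · exact ⟨_, h'.lie D.ly⟩
    · exact ⟨_, h'.lie D.lx⟩

theorem exists_isMod {j : ℕ} (hj : 5 ≤ j) {M : Mat (ZMod p)} (hM : Shape (n + j - 4) M) :
    ∃ u, D.IsMod Gd j M u := by
  obtain ⟨r, hr, l⟩ := D.R_shapes _ (by omega) M hM
  exact ⟨_, r, hr, l, rfl⟩

theorem isMod_of_mem {j : ℕ} {r : Fr} (hr : r ∈ D.Rj j) :
    ∃ M, Shape (n + j - 4) M ∧ D.IsMod Gd j M (Gd.cls j r) := by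
  have := D.hn
  obtain ⟨M, hM, l⟩ := exists_lead_shape D.hp2 (show 1 ≤ n + j - 4 by omega) hr.2
  exact ⟨M, hM, r, hr.1, l, rfl⟩

variable (D Gd)

theorem cls_SX : Gd.cls 4 SX =
    ⁅Gd.cls 1 gX, ⁅Gd.cls 1 gX, ⁅Gd.cls 1 gX, Gd.cls 1 gY⁆⁆⁆ := by
  have h2 : ⁅gX, gY⁆ ∈ D.Fj 2 := D.comm_mem_Fj (i := 1) (j := 1) (D.mem_Fj_one _) (D.mem_Fj_one _)
  have h3 : ⁅gX, ⁅gX, gY⁆⁆ ∈ D.Fj 3 := D.comm_mem_Fj (i := 1) (j := 2) (D.mem_Fj_one _) h2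
  rw [Gd.cls_lie 1 1 _ _ (D.mem_Fj_one _) (D.mem_Fj_one _), Gd.cls_lie 1 2 _ _ (D.mem_Fj_one _) h2,
    Gd.cls_lie 1 3 _ _ (D.mem_Fj_one _) h3]
  rfl

theorem cls_SY : Gd.cls 4 SY =
    ⁅Gd.cls 1 gY, ⁅Gd.cls 1 gY, ⁅Gd.cls 1 gY, Gd.cls 1 gX⁆⁆⁆ := by
  have h2 : ⁅gY, gX⁆ ∈ D.Fj 2 := D.comm_mem_Fj (i := 1) (j := 1) (D.mem_Fj_one _) (D.mem_Fj_one _)
  have h3 : ⁅gY, ⁅gY, gX⁆⁆ ∈ D.Fj 3 := D.comm_mem_Fj (i := 1) (j := 2) (D.mem_Fj_one _) h2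
  rw [Gd.cls_lie 1 1 _ _ (D.mem_Fj_one _) (D.mem_Fj_one _), Gd.cls_lie 1 2 _ _ (D.mem_Fj_one _) h2,
    Gd.cls_lie 1 3 _ _ (D.mem_Fj_one _) h3]
  rfl

theorem low [LieAlgebra (ZMod p) L] :
    (∀ u, D.IsMod Gd 11 (mH p) u → u = 0) ∧ ∀ l : List Bool, l.length = 7 →
      word (Gd.cls 1 gX) (Gd.cls 1 gY) l (Gd.cls 4 SX) = 0 ∧
      word (Gd.cls 1 gX) (Gd.cls 1 gY) l (Gd.cls 4 SY) = 0 := by
  obtain ⟨π, hπ, hπl, -⟩ := exists_pi D.NS p Fact.out D.h5 D.Fj_pow Gd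
  have hn := D.hn
  have hno := D.hno
  have h3 : (3 : ZMod p) ≠ 0 := by
    intro h
    have : ((3 : ℕ) : ZMod p) = 0 := by exact_mod_cast h
    rw [ZMod.natCast_eq_zero_iff] at this
    have := Nat.le_of_dvd (by omega) this
    have := D.h5
    omega
  have z4 : D.IsMod Gd 4 (mF p) (Gd.cls 4 D.s1⁻¹) := ⟨_, inv_mem D.s1_mem_R, D.z1, rfl⟩
  have hodd : ∀ j, 4 ≤ j → Even j → Odd (n + j - 4) := by
    rintro j hj ⟨k, rfl⟩
    obtain ⟨m, rfl⟩ := hno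
    exact ⟨m + k - 2, by omega⟩
  have heven : ∀ j, 4 ≤ j → Odd j → Even (n + j - 4) := by
    rintro j hj ⟨k, rfl⟩
    obtain ⟨m, rfl⟩ := hno
    exact ⟨m + k - 1, by omega⟩
  have hE : ∀ j, ∃ u, 5 ≤ j → Even j → D.IsMod Gd j (mE p) u := by
    intro j
    by_cases h : 5 ≤ j ∧ Even j
    · obtain ⟨u, hu⟩ := exists_isMod (D := D) (Gd := Gd) h.1 (M := mE p)
        (by simpa using shape_odd (p := p) (hodd j (by omega) h.2) 1 0)
      exact ⟨u, fun _ _ => hu⟩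
    · exact ⟨0, fun h1 h2 => absurd ⟨h1, h2⟩ h⟩
  have hH : ∀ j, ∃ u, 5 ≤ j → Odd j → D.IsMod Gd j (mH p) u := by
    intro j
    by_cases h : 5 ≤ j ∧ Odd j
    · obtain ⟨u, hu⟩ := exists_isMod (D := D) (Gd := Gd) h.1 (M := mH p)
        (by simpa using shape_even (p := p) (heven j (by omega) h.2) 1)
      exact ⟨u, fun _ _ => hu⟩
    · exact ⟨0, fun h1 h2 => absurd ⟨h1, h2⟩ h⟩
  have hF : ∀ j, ∃ u, (4 ≤ j → Even j → D.IsMod Gd j (mF p) u) := by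
    intro j
    by_cases h4 : j = 4
    · subst h4; exact ⟨_, fun _ _ => z4⟩
    by_cases h : 5 ≤ j ∧ Even j
    · obtain ⟨u, hu⟩ := exists_isMod (D := D) (Gd := Gd) h.1 (M := mF p)
        (by simpa using shape_odd (p := p) (hodd j (by omega) h.2) 0 1)
      exact ⟨u, fun _ _ => hu⟩
    · exact ⟨0, fun h1 h2 => absurd ⟨by omega, h2⟩ h⟩
  choose E hE using hE
  choose H hH using hH
  choose F hF using hF
  have hF4 : F 4 = Gd.cls 4 D.s1⁻¹ := (hF 4 le_rfl (by decide)).unique z4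
  have m1 := D.mem_Fj_one
  have s14 : D.s1⁻¹ ∈ D.Fj 4 := inv_mem (D.Rj_le_Fj 4 D.s1_mem_R4)
  have hSX : SX ∈ D.Fj 4 := D.gam_le_Fj 4 SX_mem
  have hSY : SY ∈ D.Fj 4 := D.gam_le_Fj 4 SY_mem
  have w15 : D.w1 ∈ D.Fj 5 := D.gam_le_Fj 5 D.hw1
  have w25 : D.w2 ∈ D.Fj 5 := D.gam_le_Fj 5 D.hw2
  have key := low_degree (K := ZMod p) (two_ne_zero_zmod D.hp2) h3 (Gd.cls 1 gX) (Gd.cls 1 gY) π hπl
    E F H
    (by
      rw [hπ 1 _ le_rfl (m1 _), D.gX_pow, hF4, ← D.cls_SX Gd,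
        Gd.cls_mul 4 _ _ (mul_mem hSX (D.Fj_anti (by omega) w15)) s14,
        Gd.cls_mul 4 _ _ hSX (D.Fj_anti (by omega) w15), Gd.cls_succ w15, add_zero])
    (by
      have s25 : D.s2⁻¹ ∈ D.Fj 5 := inv_mem (D.Rj_le_Fj 5 (D.s2_mem_Rj 5))
      rw [hπ 1 _ le_rfl (m1 _), D.gY_pow, ← D.cls_SX Gd, ← D.cls_SY Gd,
        Gd.cls_mul 4 _ _ (mul_mem (mul_mem hSX hSY) (D.Fj_anti (by omega) w25))
          (D.Fj_anti (by omega) s25),
        Gd.cls_mul 4 _ _ (mul_mem hSX hSY) (D.Fj_anti (by omega) w25), Gd.cls_succ w25,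
        Gd.cls_succ s25, Gd.cls_mul 4 _ _ hSX hSY, add_zero, add_zero])
    (by
      rw [hF4, hπ 4 _ (by omega) s14]
      exact Gd.cls_succ (D.Rj_le_Fj 8 (D.Rj_pow (inv_mem D.s1_mem_R4))))
    (fun j h1 _ h2 => (((hF j h1 h2).lie D.lx).congr mE_mF).unique (hH _ (by omega) h2.add_one))
    (fun j h1 _ h2 => (((hF j h1 h2).lie D.ly).congr (sub_self _)).unique (IsMod.zero _))
    (fun j h1 _ h2 => (((hE j (by omega) h2).lie D.lx).congr (sub_self _)).unique (IsMod.zero _))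
    (fun j h1 _ h2 => (((hE j (by omega) h2).lie D.ly).congr
      (by rw [← mE_mF, neg_sub])).unique (hH _ (by omega) h2.add_one).neg)
    (fun j h1 _ h2 => (((hH j h1 h2).lie D.lx).congr mE_mH).unique
      ((hE _ (by omega) h2.add_one).nsmul 2).neg)
    (fun j h1 _ h2 => (((hH j h1 h2).lie D.ly).congr mF_mH).unique
      ((hF _ (by omega) h2.add_one).nsmul 2))
    (fun l l' => by
      obtain ⟨M, hM⟩ := (hF 4 le_rfl (by decide)).word l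
      obtain ⟨M', hM'⟩ := (hF 4 le_rfl (by decide)).word l'
      exact hM.lie_mod hM')
  rw [D.cls_SX Gd, D.cls_SY Gd]
  exact ⟨fun u hu => (hu.unique (hH 11 (by omega) (by decide))).trans key.1, key.2⟩

include Gd in
theorem Rj_le_succ [LieAlgebra (ZMod p) L] (j : ℕ) (hj : 11 ≤ j) : D.Rj j ≤ D.Fj (j + 1) := by
  have hn := D.hn
  induction j, hj using Nat.le_induction with
  | base =>
    intro r hr
    obtain ⟨M, hM, h⟩ := isMod_of_mem (Gd := Gd) hr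
    have he : Even (n + 11 - 4) := by
      obtain ⟨m, hm⟩ := D.hno
      exact ⟨m + 4, by omega⟩
    obtain ⟨u, hu⟩ := exists_isMod (D := D) (Gd := Gd) (j := 11) (by omega) (M := mH p)
      (by simpa using shape_even (p := p) he 1)
    have h0 := (D.low Gd).1 u hu
    have h1 := (hu.nsmul (M 0 0).val).congr (show _ = M by
      rw [← Nat.cast_smul_eq_nsmul (ZMod p), ZMod.natCast_zmod_val]; exact (hM.even_eq he).symm)
    rw [h0, smul_zero] at h1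
    exact (Gd.cls_eq_zero 11 r (D.Rj_le_Fj _ hr)).1 (h.unique h1)
  | succ j hj ih =>
    intro r hr
    obtain ⟨M, hM, h⟩ := isMod_of_mem (Gd := Gd) hr
    rw [show n + (j + 1) - 4 = n + j - 4 + 1 by omega] at hM
    obtain ⟨M₁, M₂, h1, h2, e, -⟩ := hM.step D.hp2
    obtain ⟨u₁, hu₁⟩ := exists_isMod (D := D) (Gd := Gd) (j := j) (by omega) h1
    obtain ⟨u₂, hu₂⟩ := exists_isMod (D := D) (Gd := Gd) (j := j) (by omega) h2
    have hz : ∀ {M u}, D.IsMod Gd j M u → u = 0 := by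
      rintro M u ⟨r, hr, l, rfl⟩
      exact Gd.cls_succ (ih (mem_Rj_of_lead hr l))
    have h3 := ((hu₁.lie D.lx).add (hu₂.lie D.ly)).congr e.symm
    rw [hz hu₁, hz hu₂, lie_zero, lie_zero, add_zero] at h3
    exact (Gd.cls_eq_zero _ r (D.Rj_le_Fj _ hr)).1 (h.unique h3)

end Dat

end Pool.Agent.Lib.MP_0813d1_al
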