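import Mathlib
import Pool.Agent.Lib.MP_0813d1_al.Asm2

namespace Pool.Agent.Lib.MP_0813d1_al

open scoped commutatorElement

section naturality
variable {K L L' : Type*} [Field K] [LieRing L] [LieAlgebra K L] [LieRing L'] [LieAlgebra K L']

theorem map_sE (f : L →ₗ⁅K⁆ L') (x y : L) (l : ℕ) : f (sE K x y l) = sE K (f x) (f y) l := by
  induction l with
  | zero => rfl
  | succ l ih => simp only [sE, map_smul, LieHom.map_lie, ih]

theorem map_sF (f : L →ₗ⁅K⁆ L') (x y : L) (l : ℕ) : f (sF K x y l) = sF K (f x) (f y) l := by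
  induction l with
  | zero => rfl
  | succ l ih => simp only [sF, map_neg, map_smul, LieHom.map_lie, ih]

theorem map_sH (f : L →ₗ⁅K⁆ L') (x y : L) (l : ℕ) : f (sH K x y l) = sH K (f x) (f y) l := by
  simp only [sH, LieHom.map_lie, map_sF]

theorem map_sC (f : L →ₗ⁅K⁆ L') (x y : L) (l : ℕ) : f (sC K x y l) = sC K (f x) (f y) l := by
  cases l with
  | zero => simp [sC]
  | succ l => simp only [sC, map_sub, LieHom.map_lie, map_sE, map_sF, map_sH]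

theorem sF_lie_central {x y c : L} (hx : ⁅x, c⁆ = 0) (hy : ⁅y, c⁆ = 0) (l : ℕ) :
    ⁅sF K x y l, c⁆ = 0 := by
  induction l with
  | zero => exact hy
  | succ l ih => simp [sF, lie_lie, hx, hy, ih]

theorem sH_lie_central {x y c : L} (hx : ⁅x, c⁆ = 0) (hy : ⁅y, c⁆ = 0) (l : ℕ) :
    ⁅sH K x y l, c⁆ = 0 := by
  simp [sH, lie_lie, hx, sF_lie_central hx hy]

theorem sC_lie_central {x y c : L} (hx : ⁅x, c⁆ = 0) (hy : ⁅y, c⁆ = 0) (l : ℕ) :
    ⁅sC K x y l, c⁆ = 0 := by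
  cases l with
  | zero => simp [sC]
  | succ l => simp [sC, sE, lie_lie, hx, hy, sF_lie_central hx hy, sH_lie_central hx hy]

/-- quotient map as a morphism of Lie algebras -/
def mkLie (J : LieIdeal K L) : L →ₗ⁅K⁆ L ⧸ J :=
  { J.toSubmodule.mkQ with map_lie' := fun {_ _} => rfl }

theorem mkLie_eq_zero (J : LieIdeal K L) (u : L) : mkLie J u = 0 ↔ u ∈ J :=
  LieSubmodule.Quotient.mk_eq_zero' (N := J)

end naturality

variable {p N a n : ℕ} [Fact p.Prime]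

theorem zmod_smul_eq {L : Type*} [AddCommGroup L] [Module (ZMod p) L] (c : ZMod p) (u : L) :
    c • u = c.val • u := by
  rw [← Nat.cast_smul_eq_nsmul (ZMod p), ZMod.natCast_zmod_val]

namespace Dat

variable (D : Dat p N a n) {L : Type*} [LieRing L] (Gd : GrData D.NS L)

/-- class of an element of `F_j` with prescribed leading matrix -/
def IsW (j : ℕ) (M : Mat (ZMod p)) (u : L) : Prop :=
  ∃ g ∈ D.Fj j, Lead j (D.pr g) M ∧ u = Gd.cls j g

variable {D Gd}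

theorem IsW.congr {j : ℕ} {M M' : Mat (ZMod p)} {u : L} (h : D.IsW Gd j M u) (e : M = M') :
    D.IsW Gd j M' u := e ▸ h

theorem IsW.zero (j : ℕ) : D.IsW Gd j 0 0 :=
  ⟨1, one_mem _, by rw [map_one]; exact Lead.one _, (Gd.cls_one j).symm⟩

theorem IsW.add {j : ℕ} (hj : 1 ≤ j) {M M' : Mat (ZMod p)} {u u' : L} (h : D.IsW Gd j M u)
    (h' : D.IsW Gd j M' u') : D.IsW Gd j (M + M') (u + u') := by
  obtain ⟨r, hr, l, rfl⟩ := h
  obtain ⟨r', hr', l', rfl⟩ := h'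
  exact ⟨r * r', mul_mem hr hr', by rw [map_mul]; exact l.mul D.hq2 hj l',
    (Gd.cls_mul j _ _ hr hr').symm⟩

theorem IsW.neg {j : ℕ} (hj : 1 ≤ j) {M : Mat (ZMod p)} {u : L} (h : D.IsW Gd j M u) :
    D.IsW Gd j (-M) (-u) := by
  obtain ⟨r, hr, l, rfl⟩ := h
  exact ⟨r⁻¹, inv_mem hr, by rw [map_inv]; exact l.inv D.hq2 hj, (Gd.cls_inv hr).symm⟩

theorem IsW.smul [LieAlgebra (ZMod p) L] {j : ℕ} (hj : 1 ≤ j) {M : Mat (ZMod p)} {u : L}
    (h : D.IsW Gd j M u) (c : ZMod p) : D.IsW Gd j (c • M) (c • u) := by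
  obtain ⟨r, hr, l, rfl⟩ := h
  exact ⟨r ^ c.val, pow_mem hr _, by rw [map_pow]; exact l.smul D.hq2 hj c,
    by rw [Gd.cls_pow hr, zmod_smul_eq]⟩

theorem IsW.lie {i j : ℕ} (hi : 1 ≤ i) (hj : 1 ≤ j) {M M' : Mat (ZMod p)} {u u' : L}
    (h : D.IsW Gd i M u) (h' : D.IsW Gd j M' u') : D.IsW Gd (i + j) (M * M' - M' * M) ⁅u, u'⁆ := by
  obtain ⟨r, hr, l, rfl⟩ := h
  obtain ⟨r', hr', l', rfl⟩ := h'
  exact ⟨⁅r, r'⁆, D.comm_mem_Fj hr hr', by rw [map_commutatorElement]; exact l.comm D.hq3 hi hj l',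
    Gd.cls_lie i j _ _ hr hr'⟩

theorem IsW.proj {j : ℕ} {M : Mat (ZMod p)} {u : L} (h : D.IsW Gd j M u) : Gd.proj j u = u := by
  obtain ⟨r, hr, -, rfl⟩ := h
  exact Gd.proj_self j r hr

theorem IsW.unique {j : ℕ} (hj : 1 ≤ j) (hN : j < N) {M M' : Mat (ZMod p)} {u : L}
    (h : D.IsW Gd j M u) (h' : D.IsW Gd j M' u) : M = M' := by
  obtain ⟨r, hr, l, rfl⟩ := h
  obtain ⟨r', hr', l', e⟩ := h'
  have h1 : D.pr (r⁻¹ * r') ∈ Qn p N a (j + 1) := D.Fj_le_Qc _ (Gd.div_mem_of_cls_eq hr hr' e)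
  have h2 := l.mul D.hq2 hj (lead_zero_iff.2 h1)
  rw [← map_mul, mul_inv_cancel_left, add_zero] at h2
  exact h2.unique hN l'

theorem isW_of_mem {j : ℕ} {g : Fr} (hg : g ∈ D.Fj j) : ∃ M, D.IsW Gd j M (Gd.cls j g) := by
  obtain ⟨M, l⟩ := exists_lead_mat (D.Fj_le_Qc j hg)
  exact ⟨M, g, hg, l, rfl⟩

variable (D Gd)

theorem isW_x : D.IsW Gd 1 (mE p) (Gd.cls 1 gX) := ⟨_, D.mem_Fj_one _, D.lx, rfl⟩
theorem isW_y : D.IsW Gd 1 (mF p) (Gd.cls 1 gY) := ⟨_, D.mem_Fj_one _, D.ly, rfl⟩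

theorem isW_h1 : D.IsW Gd 2 (mH p) ⁅Gd.cls 1 gX, Gd.cls 1 gY⁆ :=
  ((D.isW_x Gd).lie le_rfl le_rfl (D.isW_y Gd)).congr mE_mF

variable [LieAlgebra (ZMod p) L]

theorem isW_sE (l : ℕ) :
    D.IsW Gd (2 * l + 1) (mE p) (sE (ZMod p) (Gd.cls 1 gX) (Gd.cls 1 gY) l) := by
  induction l with
  | zero => exact D.isW_x Gd
  | succ l ih =>
    have := ((D.isW_h1 Gd).lie (by omega) (by omega) ih).smul (by omega) (2 : ZMod p)⁻¹
    rw [show 2 * (l + 1) + 1 = 2 + (2 * l + 1) by ring]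
    refine this.congr ?_
    have h2 := two_ne_zero_zmod D.hp2
    rw [← neg_sub, mE_mH, neg_neg, ← Nat.cast_smul_eq_nsmul (ZMod p), smul_smul]
    simp [inv_mul_cancel₀ h2]

theorem isW_sF (l : ℕ) :
    D.IsW Gd (2 * l + 1) (mF p) (sF (ZMod p) (Gd.cls 1 gX) (Gd.cls 1 gY) l) := by
  induction l with
  | zero => exact D.isW_y Gd
  | succ l ih =>
    have := (((D.isW_h1 Gd).lie (by omega) (by omega) ih).smul (by omega) (2 : ZMod p)⁻¹).neg
      (by omega)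
    rw [show 2 * (l + 1) + 1 = 2 + (2 * l + 1) by ring]
    refine this.congr ?_
    have h2 := two_ne_zero_zmod D.hp2
    rw [← neg_sub, mF_mH, smul_neg, neg_neg, ← Nat.cast_smul_eq_nsmul (ZMod p), smul_smul]
    simp [inv_mul_cancel₀ h2]

theorem isW_sH (l : ℕ) :
    D.IsW Gd (2 * l + 2) (mH p) (sH (ZMod p) (Gd.cls 1 gX) (Gd.cls 1 gY) l) := by
  rw [show 2 * l + 2 = 1 + (2 * l + 1) by ring]
  exact ((D.isW_x Gd).lie le_rfl (by omega) (D.isW_sF Gd l)).congr mE_mF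

theorem isW_sC (l : ℕ) :
    D.IsW Gd (2 * l + 2) 0 (sC (ZMod p) (Gd.cls 1 gX) (Gd.cls 1 gY) l) := by
  cases l with
  | zero => exact IsW.zero _
  | succ l =>
    have h1 := (D.isW_sE Gd 1).lie (by omega) (by omega) (D.isW_sF Gd l)
    rw [show 2 * 1 + 1 + (2 * l + 1) = 2 * (l + 1) + 2 by ring] at h1
    have := h1.add (by omega) ((D.isW_sH Gd (l + 1)).neg (by omega))
    rw [← sub_eq_add_neg, ← sub_eq_add_neg, mE_mF, sub_self] at this
    exact this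

/-- generators of the ideal `J` -/
def Jgen : Set L :=
  {u | ∃ l, u = word (Gd.cls 1 gX) (Gd.cls 1 gY) l (Gd.cls 4 SX) ∨
    u = word (Gd.cls 1 gX) (Gd.cls 1 gY) l (Gd.cls 4 SY)} ∪ {u | ∃ j, ∃ r ∈ D.Rj j, u = Gd.cls j r}

theorem lie_R_mem {j : ℕ} {r : Fr} (hr : r ∈ D.Rj j) (m : L) :
    ⁅m, Gd.cls j r⁆ ∈ Submodule.span (ZMod p) (D.Jgen Gd) := by
  have hm : m ∈ AddSubgroup.closure {u | ∃ n g, g ∈ D.NS.N n ∧ u = Gd.cls n g} := by
    rw [Gd.span]; trivial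
  induction hm using AddSubgroup.closure_induction with
  | mem u hu =>
    obtain ⟨i, g, hg, rfl⟩ := hu
    rcases Nat.eq_zero_or_pos i with rfl | hi
    · rw [Gd.cls_zero, zero_lie]; exact zero_mem _
    · rw [Gd.cls_lie i j g r hg (D.Rj_le_Fj j hr)]
      exact Submodule.subset_span (Or.inr ⟨_, _, D.comm_mem_Rj hi (D.Fj_le_Qc i hg) hr, rfl⟩)
  | zero => rw [zero_lie]; exact zero_mem _
  | add u v _ _ hu hv => rw [add_lie]; exact add_mem hu hv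
  | neg u _ hu => rw [neg_lie]; exact neg_mem hu

theorem lie_mem_J (u m : L) (hm : m ∈ Submodule.span (ZMod p) (D.Jgen Gd)) :
    ⁅u, m⁆ ∈ Submodule.span (ZMod p) (D.Jgen Gd) := by
  let P : AddSubgroup L :=
    { carrier := {u | ∀ m ∈ Submodule.span (ZMod p) (D.Jgen Gd),
        ⁅u, m⁆ ∈ Submodule.span (ZMod p) (D.Jgen Gd)}
      zero_mem' := fun m _ => by rw [zero_lie]; exact zero_mem _
      add_mem' := fun {u v} hu hv m hm => by rw [add_lie]; exact add_mem (hu m hm) (hv m hm)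
      neg_mem' := fun {u} hu m hm => by rw [neg_lie]; exact neg_mem (hu m hm) }
  have hgen : ∀ b : Bool, (if b then Gd.cls 1 gX else Gd.cls 1 gY) ∈ P := by
    intro b m hm
    induction hm using Submodule.span_induction with
    | mem m hm =>
      rcases hm with ⟨l, rfl | rfl⟩ | ⟨j, r, hr, rfl⟩
      · exact Submodule.subset_span (Or.inl ⟨b :: l, Or.inl rfl⟩)
      · exact Submodule.subset_span (Or.inl ⟨b :: l, Or.inr rfl⟩)
      · exact D.lie_R_mem Gd hr _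
    | zero => rw [lie_zero]; exact zero_mem _
    | add m m' _ _ h h' => rw [lie_add]; exact add_mem h h'
    | smul c m _ h => rw [lie_smul]; exact Submodule.smul_mem _ _ h
  have hlie : ∀ u v, u ∈ P → v ∈ P → ⁅u, v⁆ ∈ P := by
    intro u v hu hv m hm
    rw [lie_lie]
    exact sub_mem (hu _ (hv m hm)) (hv _ (hu m hm))
  have hall : ∀ u, u ∈ P := by
    intro u
    have hu : u ∈ AddSubgroup.closure {u | ∃ n g, g ∈ D.NS.N n ∧ u = Gd.cls n g} := by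
      rw [Gd.span]; trivial
    refine (AddSubgroup.closure_le P).2 ?_ hu
    rintro _ ⟨j, g, hg, rfl⟩
    rcases Nat.eq_zero_or_pos j with rfl | hj
    · rw [Gd.cls_zero]; exact zero_mem P
    obtain ⟨f, hf, r, hr, e⟩ := D.cls_split Gd hg
    rw [e]
    refine add_mem (D.gam_cls_induction Gd (fun _ => P) (hgen true) (hgen false)
      (fun _ u _ hu => ⟨hlie _ _ (hgen true) hu, hlie _ _ (hgen false) hu⟩) j hj f hf) ?_
    intro m _
    rw [← lie_skew]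
    exact neg_mem (D.lie_R_mem Gd hr m)
  exact hall u m hm

/-- the ideal `J` -/
def J : LieIdeal (ZMod p) L :=
  { Submodule.span (ZMod p) (D.Jgen Gd) with lie_mem := fun {u m} hm => D.lie_mem_J Gd u m hm }

theorem mem_J {u : L} : u ∈ D.J Gd ↔ u ∈ Submodule.span (ZMod p) (D.Jgen Gd) := Iff.rfl

omit [LieAlgebra (ZMod p) L] in
theorem word_homog {g : Fr} {j : ℕ} (hg : g ∈ D.Fj j) (l : List Bool) :
    ∃ f ∈ D.Fj (j + l.length), word (Gd.cls 1 gX) (Gd.cls 1 gY) l (Gd.cls j g) =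
      Gd.cls (j + l.length) f := by
  induction l with
  | nil => exact ⟨g, hg, rfl⟩
  | cons b l ih =>
    obtain ⟨f, hf, e⟩ := ih
    have key : ∀ s : Fr, ∃ f' ∈ D.Fj (j + (l.length + 1)),
        ⁅Gd.cls 1 s, Gd.cls (j + l.length) f⁆ = Gd.cls (j + (l.length + 1)) f' := by
      intro s
      rw [show j + (l.length + 1) = 1 + (j + l.length) by ring]
      exact ⟨_, D.comm_mem_Fj (D.mem_Fj_one s) hf, Gd.cls_lie _ _ _ _ (D.mem_Fj_one s) hf⟩
    cases b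
    · simpa [word, e] using key gY
    · simpa [word, e] using key gX

omit [LieAlgebra (ZMod p) L] in
theorem word_long {x y u : L} (h : ∀ l : List Bool, l.length = 7 → word x y l u = 0)
    (l : List Bool) (hl : 7 ≤ l.length) : word x y l u = 0 := by
  induction l with
  | nil => simp at hl
  | cons b l ih =>
    rcases Nat.eq_or_lt_of_le hl with h7 | h7
    · exact h _ h7.symm
    · rw [word, ih (by simpa using Nat.lt_succ_iff.1 h7), lie_zero]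

theorem proj_J {j : ℕ} (hj : 11 ≤ j) {u : L} (hu : u ∈ D.J Gd) : Gd.proj j u = 0 := by
  rw [mem_J] at hu
  have hw : ∀ {g : Fr}, g ∈ D.Fj 4 → (∀ l : List Bool, l.length = 7 →
      word (Gd.cls 1 gX) (Gd.cls 1 gY) l (Gd.cls 4 g) = 0) → ∀ l,
      Gd.proj j (word (Gd.cls 1 gX) (Gd.cls 1 gY) l (Gd.cls 4 g)) = 0 := by
    intro g hg h l
    by_cases hl : 7 ≤ l.length
    · rw [word_long h l hl, map_zero]
    · obtain ⟨f, hf, e⟩ := D.word_homog Gd hg l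
      rw [e]; exact Gd.proj_ne _ _ _ hf (by omega)
  induction hu using Submodule.span_induction with
  | mem m hm =>
    rcases hm with ⟨l, rfl | rfl⟩ | ⟨i, r, hr, rfl⟩
    · exact hw (D.gam_le_Fj 4 SX_mem) (fun l hl => ((D.low Gd).2 l hl).1) l
    · exact hw (D.gam_le_Fj 4 SY_mem) (fun l hl => ((D.low Gd).2 l hl).2) l
    · by_cases hi : 11 ≤ i
      · rw [Gd.cls_succ (D.Rj_le_succ Gd i hi hr), map_zero]
      · exact Gd.proj_ne _ _ _ (D.Rj_le_Fj i hr) (by omega)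
  | zero => exact map_zero _
  | add m m' _ _ h h' => rw [map_add, h, h', add_zero]
  | smul c m _ h => rw [zmod_smul_eq, map_nsmul, h, smul_zero]

theorem eq_of_mk_eq {j : ℕ} (hj : 11 ≤ j) {M M' : Mat (ZMod p)} {u u' : L} (h : D.IsW Gd j M u)
    (h' : D.IsW Gd j M' u') (e : mkLie (D.J Gd) u = mkLie (D.J Gd) u') : u = u' := by
  have h1 : u - u' ∈ D.J Gd := by rw [← mkLie_eq_zero, map_sub, e, sub_self]
  have h2 := D.proj_J Gd hj h1
  rwa [map_sub, h.proj, h'.proj, sub_eq_zero] at h2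

theorem serre_x : ⁅mkLie (D.J Gd) (Gd.cls 1 gX), ⁅mkLie (D.J Gd) (Gd.cls 1 gX),
    ⁅mkLie (D.J Gd) (Gd.cls 1 gX), mkLie (D.J Gd) (Gd.cls 1 gY)⁆⁆⁆ = 0 := by
  rw [← LieHom.map_lie, ← LieHom.map_lie, ← LieHom.map_lie, ← D.cls_SX Gd, mkLie_eq_zero]
  exact Submodule.subset_span (Or.inl ⟨[], Or.inl rfl⟩)

theorem serre_y : ⁅mkLie (D.J Gd) (Gd.cls 1 gY), ⁅mkLie (D.J Gd) (Gd.cls 1 gY),
    ⁅mkLie (D.J Gd) (Gd.cls 1 gY), mkLie (D.J Gd) (Gd.cls 1 gX)⁆⁆⁆ = 0 := by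
  rw [← LieHom.map_lie, ← LieHom.map_lie, ← LieHom.map_lie, ← D.cls_SY Gd, mkLie_eq_zero]
  exact Submodule.subset_span (Or.inl ⟨[], Or.inr rfl⟩)

theorem three_ne (D : Dat p N a n) : (3 : ZMod p) ≠ 0 := by
  intro h
  have : ((3 : ℕ) : ZMod p) = 0 := by exact_mod_cast h
  rw [ZMod.natCast_eq_zero_iff] at this
  have := Nat.le_of_dvd (by omega) this
  have := D.h5
  omega

theorem span_mk (j : ℕ) (hj : 1 ≤ j) (g : Fr) (hg : g ∈ D.Fj j) :
    (∀ l, j = 2 * l + 1 → ∃ b c : ZMod p, mkLie (D.J Gd) (Gd.cls j g) =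
      mkLie (D.J Gd) (b • sE (ZMod p) (Gd.cls 1 gX) (Gd.cls 1 gY) l +
        c • sF (ZMod p) (Gd.cls 1 gX) (Gd.cls 1 gY) l)) ∧
    (∀ l, j = 2 * l + 2 → ∃ b c : ZMod p, mkLie (D.J Gd) (Gd.cls j g) =
      mkLie (D.J Gd) (b • sH (ZMod p) (Gd.cls 1 gX) (Gd.cls 1 gY) l +
        c • sC (ZMod p) (Gd.cls 1 gX) (Gd.cls 1 gY) l)) := by
  set φ := mkLie (D.J Gd) with hφ
  set x := φ (Gd.cls 1 gX) with hx
  set y := φ (Gd.cls 1 gY) with hy
  obtain ⟨hEE, hFF, hEF, hHE, hHF, -, hC, -⟩ :=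
    serre (ZMod p) (two_ne_zero_zmod D.hp2) D.three_ne x y (D.serre_x Gd) (D.serre_y Gd)
  simp only [map_add, map_smul, map_sE, map_sF, map_sH, map_sC, ← hx, ← hy]
  let A : ℕ → AddSubgroup L := fun j =>
    { carrier := {u | (∀ l, j = 2 * l + 1 → ∃ b c : ZMod p,
          φ u = b • sE (ZMod p) x y l + c • sF (ZMod p) x y l) ∧
        (∀ l, j = 2 * l + 2 → ∃ b c : ZMod p,
          φ u = b • sH (ZMod p) x y l + c • sC (ZMod p) x y l)}
      zero_mem' := ⟨fun _ _ => ⟨0, 0, by simp⟩, fun _ _ => ⟨0, 0, by simp⟩⟩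
      add_mem' := fun {u v} hu hv => by
        constructor
        · intro l hl
          obtain ⟨b, c, e⟩ := hu.1 l hl
          obtain ⟨b', c', e'⟩ := hv.1 l hl
          exact ⟨b + b', c + c', by rw [map_add, e, e']; module⟩
        · intro l hl
          obtain ⟨b, c, e⟩ := hu.2 l hl
          obtain ⟨b', c', e'⟩ := hv.2 l hl
          exact ⟨b + b', c + c', by rw [map_add, e, e']; module⟩
      neg_mem' := fun {u} hu => by
        constructor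
        · intro l hl
          obtain ⟨b, c, e⟩ := hu.1 l hl
          exact ⟨-b, -c, by rw [map_neg, e]; module⟩
        · intro l hl
          obtain ⟨b, c, e⟩ := hu.2 l hl
          exact ⟨-b, -c, by rw [map_neg, e]; module⟩ }
  obtain ⟨f, hf, r, hr, e⟩ := D.cls_split Gd hg
  have hr0 : φ (Gd.cls j r) = 0 :=
    (mkLie_eq_zero _ _).2 (Submodule.subset_span (Or.inr ⟨j, r, hr, rfl⟩))
  rw [e, map_add, hr0, add_zero]
  refine D.gam_cls_induction Gd A ?_ ?_ ?_ j hj f hf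
  · refine ⟨fun l hl => ?_, fun l hl => by omega⟩
    obtain rfl : l = 0 := by omega
    exact ⟨1, 0, by simp [sE, hx]⟩
  · refine ⟨fun l hl => ?_, fun l hl => by omega⟩
    obtain rfl : l = 0 := by omega
    exact ⟨0, 1, by simp [sF, hy]⟩
  · intro j u hj hu
    have e0 : sE (ZMod p) x y 0 = x := rfl
    have f0 : sF (ZMod p) x y 0 = y := rfl
    refine ⟨⟨fun l hl => ?_, fun l hl => ?_⟩, ⟨fun l hl => ?_, fun l hl => ?_⟩⟩
    · obtain ⟨k, rfl⟩ : ∃ k, l = k + 1 := ⟨l - 1, by omega⟩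
      obtain ⟨b, c, e⟩ := hu.2 k (by omega)
      have h1 := hHE k 0
      rw [e0, add_zero] at h1
      refine ⟨-(2 * b), 0, ?_⟩
      rw [LieHom.map_lie, e, ← hx, lie_add, lie_smul, lie_smul, (hC k).1, ← lie_skew, h1]
      module
    · obtain ⟨b, c, e⟩ := hu.1 l (by omega)
      have h1 := hEE 0 l
      rw [e0] at h1
      refine ⟨c, 0, ?_⟩
      rw [LieHom.map_lie, e, ← hx, lie_add, lie_smul, lie_smul, h1, sH]
      module
    · obtain ⟨k, rfl⟩ : ∃ k, l = k + 1 := ⟨l - 1, by omega⟩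
      obtain ⟨b, c, e⟩ := hu.2 k (by omega)
      have h1 := hHF k 0
      rw [f0, add_zero] at h1
      refine ⟨0, 2 * b, ?_⟩
      rw [LieHom.map_lie, e, ← hy, lie_add, lie_smul, lie_smul, (hC k).2, ← lie_skew, h1]
      module
    · obtain ⟨b, c, e⟩ := hu.1 l (by omega)
      have h1 := hFF 0 l
      have h2 := hEF l 0
      rw [f0] at h1 h2
      rw [add_zero] at h2
      refine ⟨-b, -(b * l), ?_⟩
      rw [LieHom.map_lie, e, ← hy, lie_add, lie_smul, lie_smul, h1, ← lie_skew, h2,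
        ← Nat.cast_smul_eq_nsmul (ZMod p)]
      module

theorem span_odd {l : ℕ} (hl : 11 ≤ 2 * l + 1) {g : Fr} (hg : g ∈ D.Fj (2 * l + 1)) :
    ∃ b c : ZMod p, Gd.cls (2 * l + 1) g = b • sE (ZMod p) (Gd.cls 1 gX) (Gd.cls 1 gY) l +
        c • sF (ZMod p) (Gd.cls 1 gX) (Gd.cls 1 gY) l := by
  obtain ⟨b, c, e⟩ := (D.span_mk Gd _ (by omega) g hg).1 l rfl
  obtain ⟨M, hM⟩ := isW_of_mem (Gd := Gd) hg
  exact ⟨b, c, D.eq_of_mk_eq Gd hl hM
    (((D.isW_sE Gd l).smul (by omega) b).add (by omega) ((D.isW_sF Gd l).smul (by omega) c)) e⟩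

theorem span_even {l : ℕ} (hl : 11 ≤ 2 * l + 2) {g : Fr} (hg : g ∈ D.Fj (2 * l + 2)) :
    ∃ b c : ZMod p, Gd.cls (2 * l + 2) g = b • sH (ZMod p) (Gd.cls 1 gX) (Gd.cls 1 gY) l +
        c • sC (ZMod p) (Gd.cls 1 gX) (Gd.cls 1 gY) l := by
  obtain ⟨b, c, e⟩ := (D.span_mk Gd _ (by omega) g hg).2 l rfl
  obtain ⟨M, hM⟩ := isW_of_mem (Gd := Gd) hg
  exact ⟨b, c, D.eq_of_mk_eq Gd hl hM
    (((D.isW_sH Gd l).smul (by omega) b).add (by omega) ((D.isW_sC Gd l).smul (by omega) c)) e⟩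

theorem span_even' {l : ℕ} (hl : 11 ≤ 2 * l + 2) (hN : 2 * l + 2 < N) {g : Fr}
    (hg : g ∈ D.Fj (2 * l + 2)) {α : ZMod p} (hα : Lead (2 * l + 2) (D.pr g) (α • mH p)) :
    ∃ c : ZMod p, Gd.cls (2 * l + 2) g = α • sH (ZMod p) (Gd.cls 1 gX) (Gd.cls 1 gY) l +
        c • sC (ZMod p) (Gd.cls 1 gX) (Gd.cls 1 gY) l := by
  obtain ⟨b, c, e⟩ := D.span_even Gd hl hg
  have h1 := ((D.isW_sH Gd l).smul (by omega) b).add (by omega) ((D.isW_sC Gd l).smul (by omega) c)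
  rw [← e] at h1
  have h2 := IsW.unique (by omega) hN h1 ⟨g, hg, hα, rfl⟩
  have h3 : b = α := by simpa [mH] using congrFun (congrFun h2 0) 0
  exact ⟨c, h3 ▸ e⟩

theorem sC_torsion {l : ℕ} (hl : 11 ≤ 2 * l + 2) :
    ((l + 1 : ℕ) : ZMod p) • sC (ZMod p) (Gd.cls 1 gX) (Gd.cls 1 gY) l = 0 := by
  refine D.eq_of_mk_eq Gd hl ((D.isW_sC Gd l).smul (by omega) _) (IsW.zero _) ?_
  rw [map_smul, map_sC, map_zero, Nat.cast_smul_eq_nsmul]
  exact (serre (ZMod p) (two_ne_zero_zmod D.hp2) D.three_ne _ _ (D.serre_x Gd)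
    (D.serre_y Gd)).2.2.2.2.2.2.2 l

theorem lie_torus {i j : ℕ} (hl : 11 ≤ 2 * (i + j + 1) + 2) (α β α' β' : ZMod p) :
    ⁅α • sH (ZMod p) (Gd.cls 1 gX) (Gd.cls 1 gY) i + β • sC (ZMod p) (Gd.cls 1 gX) (Gd.cls 1 gY) i,
      α' • sH (ZMod p) (Gd.cls 1 gX) (Gd.cls 1 gY) j +
        β' • sC (ZMod p) (Gd.cls 1 gX) (Gd.cls 1 gY) j⁆ =
      (α * α' * (2 * (i + 1 : ℕ))) • sC (ZMod p) (Gd.cls 1 gX) (Gd.cls 1 gY) (i + j + 1) := by
  have h1 := (((D.isW_sH Gd i).smul (by omega) α).add (by omega)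
    ((D.isW_sC Gd i).smul (by omega) β)).lie (by omega) (by omega)
    (((D.isW_sH Gd j).smul (by omega) α').add (by omega) ((D.isW_sC Gd j).smul (by omega) β'))
  rw [show 2 * i + 2 + (2 * j + 2) = 2 * (i + j + 1) + 2 by ring] at h1
  refine D.eq_of_mk_eq Gd hl h1 ((D.isW_sC Gd _).smul (by omega) _) ?_
  obtain ⟨-, -, -, -, -, hHH, hC, -⟩ :=
    serre (ZMod p) (two_ne_zero_zmod D.hp2) D.three_ne _ _ (D.serre_x Gd) (D.serre_y Gd)
  simp only [LieHom.map_lie, map_add, map_smul, map_sH, map_sC, add_lie, lie_add, smul_lie,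
    lie_smul]
  rw [hHH, sH_lie_central (hC j).1 (hC j).2, sC_lie_central (hC j).1 (hC j).2,
    ← lie_skew (sC _ _ _ i), sH_lie_central (hC i).1 (hC i).2, ← Nat.cast_smul_eq_nsmul (ZMod p)]
  push_cast
  module

end Dat

end Pool.Agent.Lib.MP_0813d1_al
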