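import Mathlib
import Pool.Agent.Lib.MP_0813d1_al.Asm4

namespace Pool.Agent.Lib.MP_0813d1_al

open scoped commutatorElement

variable {p N a n : ℕ} [Fact p.Prime]

theorem comm_mem_of_gens {T : Subgroup Fr} [hT : T.Normal] {c : Fr} (hx : ⁅gX, c⁆ ∈ T)
    (hy : ⁅gY, c⁆ ∈ T) (g : Fr) : ⁅c, g⁆ ∈ T := by
  let Z : Subgroup Fr :=
    { carrier := {g | ⁅g, c⁆ ∈ T}
      one_mem' := by simp
      mul_mem' := fun {g h} hg hh => by
        have e : ⁅g * h, c⁆ = g * ⁅h, c⁆ * g⁻¹ * ⁅g, c⁆ := by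
          simp only [commutatorElement_def]; group
        change ⁅g * h, c⁆ ∈ T
        rw [e]; exact T.mul_mem (hT.conj_mem _ hh g) hg
      inv_mem' := fun {g} hg => by
        have e : ⁅g⁻¹, c⁆ = g⁻¹ * (⁅g, c⁆)⁻¹ * g⁻¹⁻¹ := by
          simp only [commutatorElement_def]; group
        change ⁅g⁻¹, c⁆ ∈ T
        rw [e]; exact hT.conj_mem _ (T.inv_mem hg) _ }
  have h : (⊤ : Subgroup Fr) ≤ Z := by
    rw [← closure_XY, Subgroup.closure_le]
    rintro s (rfl | rfl)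
    · exact hx
    · exact hy
  exact comm_swap_mem (h (Subgroup.mem_top g))

namespace Dat

variable (D : Dat p N a n)

theorem redM_mul' {M : ℕ} (hM : M ≤ N) (hq : M ≤ p ^ a) (u v : Qs p N a) :
    redM hM (u * v) = redM hM u * redM hM v :=
  redM_mul hM (i := 1) (j := 0) le_rfl (mem_Qn_one u) (mem_Qn_one v) (by omega)

/-- conjugation on `F_m / F_(L+1)` -/
noncomputable def conjG (m L : ℕ) (s : Fr) : D.Gam m L →* D.Gam m L :=
  QuotientGroup.map _ _ (MulAut.conjNormal (H := D.Fj m) s).toMonoidHom fun g hg => by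
    change s * (g : Fr) * s⁻¹ ∈ D.Fj (L + 1)
    exact Subgroup.Normal.conj_mem inferInstance (g : Fr) (Subgroup.mem_subgroupOf.1 hg) s

theorem conjG_mk (m L : ℕ) (s : Fr) (g : D.Fj m) :
    D.conjG m L s (QuotientGroup.mk g) =
      QuotientGroup.mk (⟨s * g * s⁻¹, Subgroup.Normal.conj_mem inferInstance _ g.2 _⟩ : D.Fj m) :=
  rfl

theorem out_central {j L i i' : ℕ} (hj : 1 ≤ j) (hL : L + 1 ≤ N) (hq : L + 1 ≤ p ^ a)
    (hcen : ⁅D.V (2 * j), D.Fj (2 * j)⁆ ≤ D.Fj (L + 1)) (hi : 3 * j ≤ i) (hi' : 3 * j ≤ i')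
    {t t' : Fr} (ht : t ∈ D.Fj (2 * i)) (ht' : t' ∈ D.Fj (2 * i')) {c c' : ZMod p}
    {v v' : Tr p N}
    (hm : (D.pr t).1.m = !![1 + wv p N ^ (2 * i) * algebraMap (ZMod p) (Tr p N) c, 0; 0, v])
    (hm' : (D.pr t').1.m = !![1 + wv p N ^ (2 * i') * algebraMap (ZMod p) (Tr p N) c', 0; 0, v'])
    (g : Fr) : ⁅⁅t, t'⁆, g⁆ ∈ D.Fj (L + 1) := by
  have htw : L + 1 ≤ 2 * j - 1 + 2 * j * p ^ a := by
    have : p ^ a ≤ 2 * j * p ^ a := Nat.le_mul_of_pos_left _ (by omega)
    omega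
  have key : ∀ s : Fr, ((D.pr s).1.m = !![1, wv p N; 0, 1] ∨ (D.pr s).1.m = !![1, 0; wv p N, 1]) →
      ⁅s, ⁅t, t'⁆⁆ ∈ D.Fj (L + 1) := by
    intro s hs
    have h1 := (D.setup hj hL htw hcen).out_fixed Fact.out D.hp2 (D.conjG (2 * j) L s)
      (wv p (L + 1)) (iota_wv _ _) (Ideal.mem_span_singleton_self _)
      ⟨redM hL (D.pr s), redM_det hL _⟩
      (by
        rcases hs with hs | hs
        · exact Or.inl ((redM_eq hL hs).trans (by simp))
        · exact Or.inr ((redM_eq hL hs).trans (by simp)))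
      (by
        intro g
        obtain ⟨g, rfl⟩ := QuotientGroup.mk_surjective g
        rw [eq_mul_inv_iff_mul_eq]
        apply Subtype.ext
        change redM hL (D.pr (s * g * s⁻¹)) * redM hL (D.pr s) =
          redM hL (D.pr s) * redM hL (D.pr g)
        rw [← redM_mul' hL hq, ← redM_mul' hL hq, ← map_mul, ← map_mul, inv_mul_cancel_right])
      (QuotientGroup.mk ⟨t, D.Fj_anti (by omega) ht⟩)
      (QuotientGroup.mk ⟨t', D.Fj_anti (by omega) ht'⟩)
      (1 + wv p (L + 1) ^ (2 * i) * algebraMap (ZMod p) _ c) (red p hL v)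
      (1 + wv p (L + 1) ^ (2 * i') * algebraMap (ZMod p) _ c') (red p hL v')
      (by
        rw [add_sub_cancel_left]
        exact Iw_anti (show 6 * j ≤ 2 * i by omega) (mem_Iw.2 ⟨_, rfl⟩))
      (by
        rw [add_sub_cancel_left]
        exact Iw_anti (show 6 * j ≤ 2 * i' by omega) (mem_Iw.2 ⟨_, rfl⟩))
      (by
        change iota p (L + 1) _ = _
        rw [map_add, map_one, map_mul, AlgHom.commutes, map_pow, iota_wv, Even.neg_pow (by simp)])
      (by
        change iota p (L + 1) _ = _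
        rw [map_add, map_one, map_mul, AlgHom.commutes, map_pow, iota_wv, Even.neg_pow (by simp)])
      (by
        refine (D.rho_mk _ hL htw _).trans ((redM_eq hL hm).trans ?_)
        simp [-AdjoinRoot.algebraMap_eq])
      (by
        refine (D.rho_mk _ hL htw _).trans ((redM_eq hL hm').trans ?_)
        simp [-AdjoinRoot.algebraMap_eq])
    have h2 := QuotientGroup.eq.1 (show D.conjG (2 * j) L s (QuotientGroup.mk
      ⁅(⟨t, D.Fj_anti (by omega) ht⟩ : D.Fj (2 * j)), (⟨t', D.Fj_anti (by omega) ht'⟩ : D.Fj (2 * j))⁆) =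
      QuotientGroup.mk
      ⁅(⟨t, D.Fj_anti (by omega) ht⟩ : D.Fj (2 * j)), (⟨t', D.Fj_anti (by omega) ht'⟩ : D.Fj (2 * j))⁆
      from h1)
    change (s * ⁅t, t'⁆ * s⁻¹)⁻¹ * ⁅t, t'⁆ ∈ D.Fj (L + 1) at h2
    have e : ⁅s, ⁅t, t'⁆⁆ = ⁅t, t'⁆ * ((s * ⁅t, t'⁆ * s⁻¹)⁻¹ * ⁅t, t'⁆)⁻¹ * ⁅t, t'⁆⁻¹ := by
      rw [commutatorElement_def s]; group
    rw [e]
    exact Subgroup.Normal.conj_mem inferInstance _ (inv_mem h2) _
  exact comm_mem_of_gens (key _ (Or.inl D.hx)) (key _ (Or.inr D.hy)) g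

theorem torus_comm_mem {L : ℕ} (hL : L + 1 ≤ N) (hq : L + 1 ≤ p ^ a) {t t' : Fr}
    {u v u' v' : Tr p N} (hm : (D.pr t).1.m = !![u, 0; 0, v])
    (hm' : (D.pr t').1.m = !![u', 0; 0, v']) : ⁅t, t'⁆ ∈ D.Qc (L + 1) := by
  rw [mem_Qc, ← redM_sub_one_iff hL le_rfl]
  have h1 : redM hL (D.pr ⁅t, t'⁆) * redM hL (D.pr (t' * t)) = redM hL (D.pr (t' * t)) := by
    rw [← redM_mul' hL hq, ← map_mul, show ⁅t, t'⁆ * (t' * t) = t * t' by
      rw [commutatorElement_def]; group, map_mul, map_mul, redM_mul' hL hq, redM_mul' hL hq,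
      redM_eq hL hm, redM_eq hL hm']
    ext r s; fin_cases r <;> fin_cases s <;> simp [Matrix.mul_apply, mul_comm]
  have h2 : redM hL (D.pr (t' * t)) * redM hL (D.pr (t' * t)⁻¹) = 1 := by
    rw [← redM_mul' hL hq, ← map_mul, mul_inv_cancel, map_one, redM_one]
  have h3 : redM hL (D.pr ⁅t, t'⁆) = 1 := by
    rw [← mul_one (redM hL (D.pr ⁅t, t'⁆)), ← h2, ← mul_assoc, h1]
  rw [h3, sub_self]; exact InI.zero _

theorem cent {L : ℕ} (hL : L + 1 ≤ N) (hq : L + 1 ≤ p ^ a) (i : ℕ) (hi : 36 ≤ i) :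
    ⁅D.V (2 * p * i), (⊤ : Subgroup Fr)⁆ ≤ D.Fj (L + 1) := by
  have h5 := D.h5
  induction hd : L + 1 - i generalizing i with
  | zero =>
    refine (Subgroup.commutator_le_left _ _).trans (inf_le_left.trans (D.Fj_anti ?_))
    nlinarith [show L + 1 ≤ i by omega]
  | succ d ih =>
    have ih' := ih (i + 1) (by omega) (by omega)
    rcases le_or_gt (L + 1) (2 * p * i) with hbig | hsmall
    · exact (Subgroup.commutator_le_left _ _).trans (inf_le_left.trans (D.Fj_anti hbig))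
    let W : ℕ → Subgroup Fr := fun k =>
      if k ≤ i then D.V (2 * p * (k + 1)) ⊔ D.Fj (L + 1) else D.Fj (L + 1)
    have hWn : ∀ k, (W k).Normal := by
      intro k; simp only [W]; split_ifs <;> infer_instance
    have hW : ∀ k, ⁅W k, (⊤ : Subgroup Fr)⁆ ≤ W (k + 1) := by
      intro k
      have := hWn (k + 1)
      have hF : D.Fj (L + 1) ≤ W (k + 1) := by
        simp only [W]; split_ifs
        · exact le_sup_right
        · exact le_rfl
      have hF' : ⁅D.Fj (L + 1), (⊤ : Subgroup Fr)⁆ ≤ W (k + 1) :=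
        (Subgroup.commutator_le_left _ _).trans hF
      by_cases hk : k ≤ i
      · have e : W k = D.V (2 * p * (k + 1)) ⊔ D.Fj (L + 1) := if_pos hk
        rw [e]
        refine comm_sup_le ?_ hF'
        by_cases hk' : k + 1 ≤ i
        · have e' : W (k + 1) = D.V (2 * p * (k + 1 + 1)) ⊔ D.Fj (L + 1) := if_pos hk'
          rw [e']
          refine le_sup_of_le_left (le_trans ?_ (D.V_succ_le (by omega)))
          rw [Subgroup.commutator_le]
          intro v hv g _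
          rw [add_comm]
          exact comm_swap_mem (D.comm_mem_V (D.mem_Fj_one g) hv)
        · obtain rfl : k = i := by omega
          exact ih'.trans hF
      · have e : W k = D.Fj (L + 1) := if_neg hk
        rw [e]; exact hF'
    set j := i / 2 + 6 with hj
    have hcen : ⁅D.V (2 * j), D.Fj (2 * j)⁆ ≤ D.Fj (L + 1) := by
      apply D.V_comm_Fj
      have h1 : D.V (2 * j) ≤ W 0 := by
        have e : W 0 = D.V (2 * p * (0 + 1)) ⊔ D.Fj (L + 1) := if_pos (Nat.zero_le i)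
        rw [e]
        refine le_sup_of_le_left ?_
        rcases le_or_gt (2 * j) (2 * p * (0 + 1)) with h | h
        · refine D.V_step (by omega) h ?_
          intro k h1 h2 h3
          have := Nat.le_of_dvd (by omega) h3
          omega
        · exact D.V_anti h.le
      have h2 := chain_comm W hWn hW 0 (2 * j) (by omega)
      have e : W (0 + 2 * j) = D.Fj (L + 1) := if_neg (by omega)
      rw [e] at h2
      exact (Subgroup.commutator_mono h1 le_rfl).trans h2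
    obtain ⟨r, hr1, hr2, hpr⟩ : ∃ r, 2 * i ≤ r ∧ r ≤ 2 * i + 1 ∧ ¬ p ∣ r := by
      by_cases h : p ∣ 2 * i
      · refine ⟨2 * i + 1, by omega, le_rfl, fun h' => ?_⟩
        have := Nat.le_of_dvd one_pos ((Nat.dvd_add_right h).1 h')
        omega
      · exact ⟨2 * i, le_rfl, by omega, h⟩
    have hl : 5 * i ≤ p * i := Nat.mul_le_mul_right _ h5
    obtain ⟨t, ht, v, hm, hlt⟩ := D.exists_torus (i := r) (by omega) 1
    obtain ⟨t', ht', v', hm', hlt'⟩ := D.exists_torus (i := p * i - r) (by omega) 1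
    have hZ := D.out_central (by omega) hL hq hcen (by omega) (by omega) ht ht' hm hm'
    rw [← le_cmod_iff]
    intro g hg
    rw [mul_assoc] at hg hsmall
    obtain ⟨k, hk⟩ := D.T2 (by omega) (by omega) hpr ht ht' one_ne_zero one_ne_zero hlt hlt' hg
    have hQ : (⁅t, t'⁆ ^ k)⁻¹ * g ∈ D.Qc (L + 1) :=
      mul_mem (inv_mem (pow_mem (D.torus_comm_mem hL hq hm hm') k))
        (D.ker_le_Qc _ hg.2)
    obtain ⟨f, hf, w, hw, e⟩ := D.split (by omega) (by omega) hk hQ
    have e' : g = ⁅t, t'⁆ ^ k * (f * w) := by rw [← e]; group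
    rw [e']
    have hZ' : ⁅t, t'⁆ ∈ cmod ⊤ (D.Fj (L + 1)) := fun c _ => hZ c
    refine mul_mem (pow_mem hZ' k) (mul_mem ?_ ?_)
    · exact fun c _ => comm_mem_left (D.gam_le_Fj _ hf) c
    · rw [← mul_assoc] at hw
      exact le_cmod_iff.2 ih' (D.V_succ_le (by omega) hw)

/-- the constants -/
def l0 (p : ℕ) : ℕ := p ^ 3 * (8 * (36 * p) + 8) ^ 2

omit [Fact p.Prime] in
theorem l0_ge (h5 : 5 ≤ p) : 9 * (36 * p) + 9 ≤ l0 p := by
  have h1 : 2 ≤ p ^ 3 := le_trans (by omega) (Nat.le_self_pow (by omega) p)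
  have h2 : 8 * (36 * p) + 8 ≤ (8 * (36 * p) + 8) ^ 2 := Nat.le_self_pow (by omega) _
  calc 9 * (36 * p) + 9 ≤ 2 * (8 * (36 * p) + 8) := by omega
    _ ≤ l0 p := Nat.mul_le_mul h1 h2

theorem kill (hq : 16 * p * (l0 p + 1) + 1 ≤ p ^ a) (k : ℕ) (hk : 2 * l0 p ≤ k) :
    D.V k ≤ D.Fj (k + 1) := by
  have h5 := D.h5
  have hl0 := l0_ge h5
  induction k using Nat.strong_induction_on with
  | _ k ih =>
  by_cases hd : 2 * p ∣ k
  swap
  · exact D.T1 (by omega) hd
  rcases le_or_gt N k with hN | hN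
  · exact D.V_le_of_ge hN _
  obtain ⟨c, rfl⟩ := hd
  rw [mul_assoc] at *
  set l := p * c with hl
  have hpl : p ∣ l := Dvd.intro _ rfl
  rcases le_or_gt (2 * l + 1) (p ^ a) with h1 | h1
  · have hc := D.cent (L := 2 * l) hN h1 36 le_rfl
    refine D.top_kill (j := 36 * p) (r := 36 * p + 1) (by omega) hN ?_ ?_ hpl
      (Or.inr (by unfold l0 at hk; omega)) (by omega) (by omega) (by omega) ?_
    · have : p ^ a ≤ 2 * (36 * p) * p ^ a := Nat.le_mul_of_pos_left _ (by omega)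
      omega
    · rw [show 2 * (36 * p) = 2 * p * 36 by ring]
      exact (Subgroup.commutator_mono le_rfl le_top).trans hc
    · intro h
      have := Nat.le_of_dvd one_pos ((Nat.dvd_add_right (Dvd.intro_left 36 rfl)).1 h)
      omega
  · have hp0 : 0 < 8 * p := by omega
    have h2 : l0 p + 1 ≤ l / (8 * p) := by
      rw [Nat.le_div_iff_mul_le hp0]; nlinarith
    obtain ⟨j, hj⟩ : ∃ j, l / (8 * p) = j + 1 := ⟨l / (8 * p) - 1, by omega⟩
    have h3 : 8 * p * (j + 1) ≤ l := by rw [← hj]; exact Nat.mul_div_le _ _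
    have h4 : l < 8 * p * (j + 2) := by
      have := Nat.lt_mul_div_succ l hp0
      rwa [hj] at this
    have hV : D.V (2 * j) ≤ D.V (2 * l) := by
      have : ∀ k', 2 * j ≤ k' → k' ≤ 2 * l → D.V (2 * j) ≤ D.V k' := by
        intro k' h1
        induction k', h1 using Nat.le_induction with
        | base => exact fun _ => le_rfl
        | succ k' h1 ih' =>
          intro h2'
          exact (ih' (by omega)).trans (le_inf (ih k' (by omega) (by omega)) inf_le_right)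
      exact this _ (by nlinarith) le_rfl
    obtain ⟨r, hr1, hr2, hpr⟩ : ∃ r, j ≤ r ∧ r ≤ j + 1 ∧ ¬ p ∣ r := by
      by_cases h : p ∣ j
      · refine ⟨j + 1, by omega, le_rfl, fun h' => ?_⟩
        have := Nat.le_of_dvd one_pos ((Nat.dvd_add_right h).1 h')
        omega
      · exact ⟨j, le_rfl, by omega, h⟩
    refine D.top_kill (j := j) (r := r) (by omega) hN ?_ ?_ hpl (Or.inl ⟨?_, by nlinarith⟩) hr1
      (by omega) (by nlinarith) hpr
    · have h6 : 16 * p ≤ p ^ a := by nlinarith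
      have h7 : 2 * j * (16 * p) ≤ 2 * j * p ^ a := Nat.mul_le_mul_left _ h6
      have h8 : 2 ≤ j := by omega
      have : 16 * p * (j + 2) ≤ 2 * j * (16 * p) := by nlinarith
      nlinarith [Nat.zero_le (2 * j - 1)]
    · refine le_trans (Subgroup.commutator_mono (hV.trans inf_le_left) le_rfl)
        ((D.Fj_comm _ _).trans (D.Fj_anti (by omega)))
    · intro v hv
      exact D.Fj_anti (by omega) (D.Fj_pow _ (by omega) v (hV hv).1)

theorem V_le_R (hq : 16 * p * (l0 p + 1) + 1 ≤ p ^ a) {k : ℕ} (hk : 2 * l0 p ≤ k) :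
    D.V k ≤ D.R := by
  have : ∀ k', k ≤ k' → D.V k ≤ D.V k' := by
    intro k' h1
    induction k', h1 using Nat.le_induction with
    | base => exact le_rfl
    | succ k' h1 ih => exact ih.trans (le_inf (D.kill hq k' (by omega)) inf_le_right)
  intro g hg
  have h1 := (this (k + N) (by omega) hg).1
  rw [D.Fj_eq (by omega)] at h1
  exact h1.1

theorem gam_le_R' (hq : 16 * p * (l0 p + 1) + 1 ≤ p ^ a) (hN : N = n + 2 * l0 p + 1) :
    gam Fr (n + 2 * l0 p) ≤ D.R := by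
  have hn := D.hn
  have hl0 := l0_ge D.h5
  let K : ℕ → Subgroup Fr := fun k => gam Fr (n + k) ⊓ (D.V (k + 1) ⊔ D.R)
  have hK : ∀ (k : ℕ) (s : Fr), ∀ f ∈ K k, ⁅s, f⁆ ∈ K (k + 1) := by
    intro k s f hf
    refine ⟨comm_mem_gam_succ (j := n + k) (by omega) s hf.1, ?_⟩
    have : ⁅(⊤ : Subgroup Fr), D.V (k + 1) ⊔ D.R⁆ ≤ D.V (k + 1 + 1) ⊔ D.R := by
      refine comm_sup_le' (le_sup_of_le_left ?_)
        (le_sup_of_le_right (Subgroup.commutator_le_right _ _))
      rw [Subgroup.commutator_le]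
      intro g _ v hv
      rw [add_comm]
      exact D.comm_mem_V (D.mem_Fj_one g) hv
    exact this (Subgroup.commutator_mem_commutator (Subgroup.mem_top s) hf.2)
  obtain ⟨z, hz, ez⟩ := D.gam_surj' (by omega) D.z1.mem
  have hz0 : z ∈ K 0 := by
    refine ⟨hz, ?_⟩
    have e : z = z * D.s1 * D.s1⁻¹ := by group
    change z ∈ D.V (0 + 1) ⊔ D.R
    rw [e]
    refine mul_mem (Subgroup.mem_sup_left ⟨D.mem_Fj_one _, ?_⟩)
      (Subgroup.mem_sup_right (inv_mem D.s1_mem_R))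
    change z * D.s1 ∈ D.pr.ker
    rw [MonoidHom.mem_ker, map_mul, ez, ← map_mul, inv_mul_cancel, map_one]
  have hsh : ∀ k, 1 ≤ k → ∀ M, Shape (n + k) M → ∃ f ∈ K k, Lead (n + k) (D.pr f) M := by
    intro k hk
    induction k, hk using Nat.le_induction with
    | base =>
      exact shapes_step_odd D.hp2 D.hq3 D.pr D.lx D.hno (hK 0 gX) hz0 (by rw [ez]; exact D.z1)
    | succ k hk ih =>
      exact shapes_step D.hp2 D.hq3 D.pr D.lx D.ly (i := n + k) (by omega)
        (fun f hf => ⟨hK k _ f hf, hK k _ f hf⟩) ih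
  intro g hg
  obtain ⟨M, hM, hl⟩ := exists_lead_shape D.hp2 (by omega) (D.gam_le_Qc _ hg)
  obtain ⟨f, hf, hfl⟩ := hsh (2 * l0 p) (by omega) M hM
  have hfR : f ∈ D.R := (sup_le (D.V_le_R hq (by omega)) le_rfl) hf.2
  have h1 : f⁻¹ * g ∈ D.V (n + 2 * l0 p) := by
    refine ⟨D.gam_le_Fj _ (mul_mem (inv_mem hf.1) hg), D.Qc_le_ker (i := n + 2 * l0 p + 1)
      (by omega) ?_⟩
    rw [mem_Qc, map_mul, map_inv]
    exact hfl.div_mem D.hq2 (by omega) hl
  simpa using mul_mem hfR (D.V_le_R hq (by omega) h1)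

end Dat

end Pool.Agent.Lib.MP_0813d1_al
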