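import Mathlib
import Pool.Agent.Lib.MP_0813d1_al.Asm5

namespace Pool.Agent.Lib.MP_0813d1_al

open scoped commutatorElement

variable {p N a n : ℕ} [Fact p.Prime]

/-- exponent sum of one generator -/
def expo (b : Bool) : Fr →* Multiplicative ℤ :=
  FreeGroup.lift fun c => if c = b then Multiplicative.ofAdd 1 else 1

theorem expo_gam (b : Bool) {i : ℕ} (hi : 2 ≤ i) {g : Fr} (hg : g ∈ gam Fr i) : expo b g = 1 :=
  Abelianization.commutator_subset_ker (expo b) (gam_anti hi hg)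

namespace Dat

variable (D : Dat p N a n)

theorem indep (x y : ℤ) (h : D.s1 ^ x * D.s2 ^ y ∈ commutator Fr) : x = 0 ∧ y = 0 := by
  have h1 := Abelianization.commutator_subset_ker (expo true) h
  have h2 := Abelianization.commutator_subset_ker (expo false) h
  have hp : (p : ℤ) ≠ 0 := by exact_mod_cast (Fact.out : p.Prime).ne_zero
  rw [MonoidHom.mem_ker, map_mul, map_zpow, map_zpow, D.e1, D.e2] at h1 h2
  simp only [map_mul, map_inv, map_pow, expo_gam _ (by omega) SX_mem, expo_gam _ (by omega) SY_mem,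
    expo_gam _ (by omega) D.hw1, expo_gam _ (by omega) D.hw2, mul_one] at h1 h2
  have h3 := congrArg Multiplicative.toAdd h1
  have h4 := congrArg Multiplicative.toAdd h2
  simp [expo, gX, gY] at h3 h4
  have := (Fact.out : p.Prime).ne_zero
  exact ⟨by tauto, by tauto⟩

include D in
theorem embed (hq : 16 * p * (l0 p + 1) + 1 ≤ p ^ a) (hN : N = n + 2 * l0 p + 1) {G : Type}
    [Group G] (f : G →* Qs p N a) (h1 : ∀ σ, f σ ∈ Qn p N a (2 * l0 p))
    (h2 : ∀ σ, f σ ∈ Qn p N a n → σ = 1) :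
    ∃ (H : Type) (_ : Group H) (_ : Finite H), IsPGroup p H ∧
      Subsingleton (groupHomology (Rep.trivial ℤ H ℤ) 2) ∧
      ∃ φ : G →* H, Function.Injective φ := by
  have hn := D.hn
  have hl0 := l0_ge D.h5
  have hP : IsPGroup p (Fr ⧸ D.R) := by
    intro g
    obtain ⟨g, rfl⟩ := QuotientGroup.mk_surjective g
    refine ⟨N, ?_⟩
    rw [← QuotientGroup.mk_pow, QuotientGroup.eq_one_iff]
    have := D.Fj_pow_pow 1 le_rfl g (D.mem_Fj_one g) N
    rw [D.Fj_eq (by omega)] at this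
    exact this.1
  have hnil : Group.IsNilpotent (Fr ⧸ D.R) := by
    rw [Subgroup.nilpotent_iff_lowerCentralSeries]
    refine ⟨N - 1, ?_⟩
    have e : (⊤ : Subgroup (Fr ⧸ D.R)) = (⊤ : Subgroup Fr).map (QuotientGroup.mk' D.R) :=
      (Subgroup.map_top_of_surjective _ (QuotientGroup.mk'_surjective _)).symm
    rw [e, ← Subgroup.map_lowerCentralSeries, Subgroup.map_eq_bot_iff, QuotientGroup.ker_mk']
    exact D.gam_le_R le_rfl
  have hfin : Finite (Fr ⧸ D.R) := finite_of_fg_nilpotent_torsion fun g => by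
    obtain ⟨k, hk⟩ := hP g
    exact isOfFinOrder_iff_pow_eq_one.2 ⟨_, pow_pos (Fact.out : p.Prime).pos k, hk⟩
  refine ⟨Fr ⧸ D.R, inferInstance, hfin, hP, ?_, ?_⟩
  · refine H2_trivial_of_balanced (QuotientGroup.mk' D.R) (QuotientGroup.mk'_surjective _) D.s1 D.s2
      ((QuotientGroup.eq_one_iff _).2 D.s1_mem_R) ((QuotientGroup.eq_one_iff _).2 D.s2_mem_R) ?_
      D.indep
    rw [QuotientGroup.ker_mk']
    refine sup_le_sup_left ?_ _
    have e : gam Fr N = ⁅gam Fr (n + 2 * l0 p), ⊤⁆ := by rw [hN, gam_succ (by omega)]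
    rw [e]
    exact Subgroup.commutator_mono (D.gam_le_R' hq hN) le_rfl
  · choose g hg eg using fun σ => D.gam_surj' (by omega) (h1 σ)
    let φ : G →* Fr ⧸ D.R := MonoidHom.mk' (fun σ => QuotientGroup.mk (g σ)) fun σ τ => by
      rw [← QuotientGroup.mk_mul, QuotientGroup.eq]
      refine D.V_le_R hq le_rfl ⟨D.gam_le_Fj _ (mul_mem (inv_mem (hg _)) (mul_mem (hg _) (hg _))), ?_⟩
      change (g (σ * τ))⁻¹ * (g σ * g τ) ∈ D.pr.ker
      rw [MonoidHom.mem_ker, map_mul, map_mul, map_inv, eg, eg, eg, map_mul, inv_mul_cancel]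
    refine ⟨φ, (injective_iff_map_eq_one φ).2 fun σ hσ => h2 σ ?_⟩
    rw [← eg]
    exact D.R_le_Qc ((QuotientGroup.eq_one_iff _).1 hσ)

end Dat

theorem main_ge_five (p : ℕ) [Fact p.Prime] (h5 : 5 ≤ p) (G : Type) [Group G] [Finite G]
    (hG : IsPGroup p G) :
    ∃ (H : Type) (_ : Group H) (_ : Finite H), IsPGroup p H ∧
      Subsingleton (groupHomology (Rep.trivial ℤ H ℤ) 2) ∧
      ∃ φ : G →* H, Function.Injective φ := by
  have hl0 := Dat.l0_ge h5
  set a := 16 * p * (Dat.l0 p + 1) + 1 with ha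
  have hq : a ≤ p ^ a := (Nat.lt_pow_self (by omega)).le
  have ha5 : 5 ≤ a := by nlinarith
  obtain ⟨n0, hn0⟩ := universality p (by omega) a (2 * Dat.l0 p) G hG
  obtain ⟨α, β, h1, h2, h3, h4, h5'⟩ := hn0 (2 * n0 + 5 + 2 * Dat.l0 p + 1)
  obtain ⟨f, hf1, hf2⟩ := exists_embedding (a := a) (n := 2 * n0 + 5) (by omega) α β h1 h2 h3 h4
    (fun σ h => h5' (by omega) σ (Iw_anti (by omega) h))
  obtain ⟨D⟩ := exists_dat (N := 2 * n0 + 5 + 2 * Dat.l0 p + 1) (a := a) h5 (by omega)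
    (2 * n0 + 5) (by omega) ⟨n0 + 2, by ring⟩
  exact D.embed hq rfl f hf1 hf2

end Pool.Agent.Lib.MP_0813d1_al
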