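import Pool.Agent.Lib.MP_0813d1_al.PCWords

namespace Pool.Agent.Lib.MP_0813d1_al.PC

def D3 : Data where
  p := 3
  c := 20
  defs :=
    [(2, 1, 0), (1, 0, 0), (2, 2, 0), (2, 2, 1), (2, 4, 0), (2, 4, 1), (2, 6, 0), (2, 7, 0), (2,
    7, 1), (2, 9, 1), (2, 10, 0), (2, 11, 0), (2, 11, 1), (2, 12, 0), (2, 12, 1), (2, 13, 0), (2,
    13, 1), (2, 14, 0), (2, 15, 1), (2, 16, 1), (2, 17, 1), (2, 18, 0), (2, 18, 1), (2, 19, 0),
    (2, 19, 1), (2, 22, 0), (2, 22, 1), (2, 23, 1), (2, 24, 0), (2, 25, 1), (2, 27, 1), (2, 29,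
    0), (2, 29, 1), (2, 30, 0), (2, 30, 1), (2, 31, 0), (2, 31, 1), (2, 32, 0), (2, 32, 1), (2,
    33, 0), (2, 33, 1), (2, 34, 0), (2, 35, 1), (2, 37, 1), (2, 39, 1), (2, 42, 0), (2, 42, 1),
    (2, 43, 0), (2, 43, 1), (2, 46, 0), (2, 46, 1), (2, 47, 1), (2, 48, 0), (2, 51, 1), (2, 53,
    0), (2, 53, 1), (2, 54, 0), (2, 54, 1), (2, 55, 0), (2, 55, 1), (2, 56, 1), (2, 58, 1), (2,
    60, 1), (2, 62, 0), (2, 62, 1), (2, 65, 1), (2, 66, 0), (2, 67, 0), (2, 67, 1), (2, 69, 1)]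
  wts :=
    [1, 1, 2, 2, 3, 3, 4, 4, 5, 5, 5, 6, 6, 7, 7, 7, 7, 8, 8, 8, 8, 8, 9, 9, 9, 9, 9, 10, 10, 10,
    10, 10, 11, 11, 11, 11, 11, 11, 11, 12, 12, 12, 12, 12, 12, 12, 13, 13, 13, 13, 13, 14, 14,
    14, 14, 15, 15, 15, 15, 15, 16, 16, 16, 16, 17, 17, 17, 18, 18, 19, 19, 20]
  s1 :=
    [(3, 1), (6, 1), (9, 1), (11, 2), (13, 1), (14, 2), (15, 1), (16, 1), (17, 1), (18, 2), (24,
    2), (25, 2), (26, 1), (29, 2), (31, 1), (32, 2), (33, 1), (34, 2), (35, 1), (37, 2), (39, 2),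
    (40, 2), (41, 2), (43, 1), (44, 1), (45, 1), (46, 1), (47, 2), (48, 1), (49, 2), (50, 2), (51,
    1), (52, 1), (53, 1), (56, 1), (57, 2), (59, 1), (60, 2), (63, 1), (66, 2), (67, 1), (68, 1),
    (69, 2), (70, 1)]
  s2 :=
    [(6, 2), (9, 2), (12, 1), (13, 1), (15, 1), (17, 2), (18, 1), (21, 1), (23, 1), (24, 1), (25,
    1), (26, 1), (30, 2), (32, 1), (33, 1), (37, 1), (38, 2), (39, 2), (40, 1), (41, 2), (44, 1),
    (47, 1), (48, 1), (49, 2), (51, 1), (52, 2), (54, 1), (55, 1), (56, 2), (57, 1), (58, 2), (61,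
    2), (62, 2), (64, 1), (65, 1), (66, 2), (68, 2), (70, 2), (71, 1)]
  md :=
    [(0, 0), (1, 0), (1, 1), (2, 1), (4, 0), (4, 1), (5, 1), (7, 0), (7, 1), (8, 1), (10, 0), (10,
    1), (11, 1), (13, 0), (13, 1), (14, 1), (16, 0), (16, 1), (17, 1), (19, 0), (19, 1), (20, 1),
    (22, 0), (22, 1), (23, 1), (25, 0), (25, 1)]
  rels :=
    [(0, 1, []), (3, 0, [(4, 1), (5, 1), (6, 1), (7, 2), (8, 1), (9, 1), (12, 1), (13, 1), (14,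
    2), (15, 1), (16, 2), (17, 1), (18, 1), (21, 1), (22, 1), (23, 2), (24, 1), (25, 2), (26, 1),
    (27, 1)]), (3, 1, [(6, 2)]), (5, 0, [(8, 2), (10, 1), (13, 2), (14, 1), (17, 2), (19, 1), (22,
    2), (23, 1), (26, 2)]), (6, 0, [(7, 1), (8, 2), (9, 2), (12, 2), (13, 2), (14, 1), (15, 2),
    (16, 1), (17, 2), (18, 2), (21, 2), (22, 2), (23, 1), (24, 2), (25, 1), (26, 2), (27, 2)]),
    (9, 0, [(10, 1), (11, 2), (13, 1), (14, 2), (15, 2), (18, 2), (19, 2), (20, 1), (22, 2), (23,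
    1), (24, 2), (25, 1), (26, 2), (27, 2)]), (12, 0, [(13, 1), (14, 2), (15, 1), (16, 2), (17,
    1), (18, 2), (19, 1), (20, 2), (22, 1), (23, 2), (25, 1), (26, 2), (27, 2)])]

end Pool.Agent.Lib.MP_0813d1_al.PC
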