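/-! A collector for polycyclic presentations, written for evaluation by the kernel.
Words are natural numbers, the exponent of letter `i` being digit `i` in base `2 ^ β`. -/

namespace Pool.Agent.Lib.MP_0813d1_al.PC

structure Tab where
  F : Nat
  ent : Nat → Nat → Nat
  msk : Nat → Nat
  act : Nat → Nat
  pw : Nat → Nat
  g : Nat → Nat
  him : Nat → Nat
  pg : Nat → Nat

abbrev Op := Nat → Nat → Nat
abbrev CL := Op → Nat → Nat → Nat → Nat

/-- `F` if `r = F`, otherwise `f r a` -/
noncomputable def grd (F : Nat) (f : Nat → Nat → Nat) (r a : Nat) : Nat :=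
  Bool.rec (motive := fun _ => Nat) (f r a) F (Nat.beq r F)

/-- one step of the conjugation loop -/
noncomputable def cstp (add : Op) (nxt : Nat → Nat) (m : Nat) (T : Tab) (ih : CL) (mul : Op)
    (kt r a : Nat) : Nat :=
  Nat.rec (motive := fun _ => Nat) r
    (fun kh _ => Nat.rec (motive := fun _ => Nat) (ih mul kt (add r (T.ent kt kh)) (nxt a))
        (fun _ _ => grd T.F (ih mul kt) (mul r (T.ent kt kh)) (nxt a))
        (Nat.land r (T.msk kh)))
    (Nat.mod (Nat.sub a (nxt a)) m)

def tag (_h ka : Nat) : Nat := Nat.succ ka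

noncomputable def conjA (cl : CL) (mul : Op) (kt h ka : Nat) : Nat := cl mul kt 0 (tag h ka)

noncomputable def conj1 (cl : CL) (T : Tab) (mul : Op) (kt lo a : Nat) : Nat :=
  Nat.rec (motive := fun _ => Nat) lo
    (fun ka _ => Nat.rec (motive := fun _ => Nat) T.F
      (fun h _ => grd T.F mul (conjA cl mul kt h ka) (Nat.sub lo a))
      (Nat.succ (Nat.mod a 1000000007)))
    a

/-- conjugate of the word `lo` (all letters after `t`) by the letter `t` -/
noncomputable def conj (cl : CL) (T : Tab) (mul : Op) (kt lo : Nat) : Nat :=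
  conj1 cl T mul kt lo (Nat.land lo (T.act kt))

noncomputable def mfin (T : Tab) (mul : Op) (kt c hi : Nat) : Nat :=
  Bool.rec (motive := fun _ => Nat) (Nat.add hi c)
    (grd T.F Nat.add (mul (T.pw kt) c) (Nat.sub hi (T.pg kt)))
    (Nat.ble (T.pg kt) hi)

/-- product of the word `u` with the letter `t`; `hi` is the part of `u` up to the letter `t` -/
noncomputable def mgen (cl : CL) (T : Tab) (mul : Op) (kt u hi : Nat) : Nat :=
  grd T.F (mfin T mul kt) (conj cl T mul kt (Nat.sub u hi)) (Nat.add hi (T.g kt))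

/-- one step of the multiplication loop -/
noncomputable def mstp (add : Op) (nxt : Nat → Nat) (m : Nat) (T : Tab) (cl : CL) (ih : Op → Op)
    (mul : Op) (u v : Nat) : Nat :=
  Nat.rec (motive := fun _ => Nat) u
    (fun kt _ => Nat.rec (motive := fun _ => Nat) (add u v)
        (fun _ _ => grd T.F (ih mul) (mgen cl T mul kt u (Nat.land u (T.him kt))) (nxt v))
        (Nat.land u (T.msk kt)))
    (Nat.mod (Nat.sub v (nxt v)) m)

/-- conjugate by the letter `t` of a word `x` that starts with the letter `K` -/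
noncomputable def conjTop (cl : CL) (T : Tab) (mul : Op) (kK kt x : Nat) : Nat :=
  Bool.rec (motive := fun _ => Nat) T.F
    (grd T.F (fun c e => mul e c) (conj cl T mul kt (Nat.sub x (T.g kK))) (T.ent kt kK))
    (Nat.beq (Nat.land x (T.him kK)) (T.g kK))

noncomputable def bind (F a : Nat) (f : Nat → Bool) : Bool :=
  Bool.rec (motive := fun _ => Bool) (f a) false (Nat.beq a F)

noncomputable def chkC (cl : CL) (T : Tab) (mul : Op) (kK ki ka kb : Nat) : Bool :=
  bind T.F (conjTop cl T mul kK kb (T.ent ka kK)) fun l =>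
    bind T.F (conjTop cl T mul kK ka (T.ent kb kK)) fun r0 =>
      bind T.F (conjTop cl T mul kK ki r0) fun r => Nat.beq l r

noncomputable def powTop (cl : CL) (T : Tab) (mul : Op) (kK ka : Nat) (e : Nat) : Nat :=
  Nat.rec (motive := fun _ => Nat) (T.g kK)
    (fun _ l => grd T.F (fun l _ => conjTop cl T mul kK ka l) l 0) e

noncomputable def chkP (cl : CL) (T : Tab) (mul : Op) (p kK ki ka : Nat) : Bool :=
  bind T.F (powTop cl T mul kK ka p) fun l => Nat.beq l (T.ent ki kK)

structure Par where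
  p : Nat
  β : Nat
  n : Nat
  N : Nat
  nd : Nat
  c : Nat
  m : Nat
  w : Nat → Nat
  cut : Nat → Nat
  M : Nat → Nat
  lv : Nat → Nat
  df : Nat → Nat × Nat × Nat
  add : Op
  nxt : Nat → Nat
  nrm : Nat → Bool
  T : Tab
  cl : CL
  mul : Op

inductive IsCL (add : Op) (nxt : Nat → Nat) (m : Nat) (T : Tab) : CL → Prop
  | base : IsCL add nxt m T fun _ _ _ _ => T.F
  | step {ih : CL} : IsCL add nxt m T ih → IsCL add nxt m T (cstp add nxt m T ih)

inductive IsML (add : Op) (nxt : Nat → Nat) (m : Nat) (T : Tab) (cl : CL) : (Op → Op) → Prop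
  | base : IsML add nxt m T cl fun _ _ _ => T.F
  | step {ih : Op → Op} : IsML add nxt m T cl ih → IsML add nxt m T cl (mstp add nxt m T cl ih)

inductive IsMul (F : Nat) (ml : Op → Op) : Op → Prop
  | base : IsMul F ml fun _ _ => F
  | step {mu : Op} : IsMul F ml mu → IsMul F ml (ml mu)

namespace Par

variable (P : Par)

def B : Nat := 2 ^ P.β
/-- the word consisting of the letter `i` -/
def u (i : Nat) : Nat := P.B ^ i
def key (i : Nat) : Nat := P.B ^ i % P.m - 1
def E (t h : Nat) : Nat := P.T.ent (P.key t) (P.key h)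
def W (t : Nat) : Nat := P.T.pw (P.key t)

/-- check of the conjugation relation of the letter `j` by the letter `i` -/
noncomputable def chkT (j i : Nat) : Bool :=
  Bool.rec (motive := fun _ => Bool) true
    (Bool.rec (motive := fun _ => Bool)
      (Nat.blt j (P.cut (P.df i).2.1) && Nat.blt j (P.cut (P.df i).2.2) &&
        chkC P.cl P.T P.mul (P.key j) (P.key i) (P.key (P.df i).2.1) (P.key (P.df i).2.2))
      (Nat.blt j (P.cut (P.df i).2.1) &&
        chkP P.cl P.T P.mul P.p (P.key j) (P.key i) (P.key (P.df i).2.1))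
      (Nat.beq (P.df i).1 1))
    (Nat.blt j (P.cut i))

def dOK (δ : Nat) : Bool := P.nrm δ && Nat.beq (δ % P.u P.nd) 0

/-- associativity check -/
noncomputable def chkA (e : Nat × Nat × Nat × Nat) : Bool :=
  P.nrm e.1 && P.nrm e.2.1 && P.nrm e.2.2.1 && P.dOK e.2.2.2 &&
    bind P.T.F (P.mul e.1 e.2.1) fun a => bind P.T.F (P.mul a e.2.2.1) fun l =>
      bind P.T.F (P.mul e.2.1 e.2.2.1) fun b => bind P.T.F (P.mul e.1 b) fun r =>
        Nat.beq l (P.add r e.2.2.2)

/-- `u * v ^ e` -/
noncomputable def mulPow (u v e : Nat) : Nat :=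
  Nat.rec (motive := fun _ => Nat) u (fun _ l => grd P.T.F P.mul l v) e

/-- `u` times the product of the `f i ^ e` over the list -/
noncomputable def mulW (f : Nat → Nat) (l : List (Nat × Nat)) : Nat → Nat :=
  List.rec (motive := fun _ => Nat → Nat) (fun u => u)
    (fun q _ ih u => ih (P.mulPow u (f q.1) q.2)) l

/-- letters as words; `0` outside the range -/
def let1 (i : Nat) : Nat := cond (Nat.blt i P.n) (P.u i) 0

def gx (b : Nat) : Nat := cond (Nat.beq b 0) (P.u 0) (P.u 1)

noncomputable def chkMd (ms : List Nat) (k : Nat) (d : Nat × Nat) : Bool :=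
  Nat.blt d.1 k && P.nrm (ms.getD k 0) &&
    bind P.T.F (P.mul (P.gx d.2) (ms.getD d.1 0)) fun a => bind P.T.F (P.mul a (ms.getD k 0)) fun l =>
      bind P.T.F (P.mul (ms.getD d.1 0) (P.gx d.2)) fun r => Nat.beq l r

noncomputable def chkRel (ms : List Nat) (r : Nat × Nat × List (Nat × Nat)) (δ : Nat) : Bool :=
  P.dOK δ && bind P.T.F (P.mul (P.gx r.2.1) (ms.getD r.1 0)) fun a =>
    bind P.T.F (P.mulW (fun q => ms.getD q 0) r.2.2 a) fun l =>
      bind P.T.F (P.mul (ms.getD r.1 0) (P.gx r.2.1)) fun s => Nat.beq s (P.add l δ)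

/-- linear combination with the base four digits of `cf` as coefficients -/
noncomputable def comb (l : List Nat) : Nat → Nat :=
  List.rec (motive := fun _ => Nat → Nat) (fun _ => 0)
    (fun δ _ ih cf => Nat.rec (motive := fun _ => Nat) (ih (Nat.div cf 4))
      (fun _ s => P.add s δ) (Nat.mod cf 4)) l

end Par

def nxt2 (a : Nat) : Nat := Nat.land a (Nat.sub a 1)

def nrm2 (F a : Nat) : Bool := Nat.blt a F

def add3b (o s : Nat) : Nat :=
  Nat.sub s (Nat.mul 3 (Nat.land (Nat.shiftRight (Nat.add s o) 2) o))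

def add3 (o x y : Nat) : Nat := add3b o (Nat.add x y)

def nxt3b (a b : Nat) : Nat := Nat.sub a (Nat.sub b (Nat.land b (Nat.sub b 1)))

def nxt3 (o a : Nat) : Nat := nxt3b a (Nat.land (Nat.lor a (Nat.shiftRight a 1)) o)

def nrm3 (o a : Nat) : Bool :=
  Nat.beq (Nat.land a (Nat.mul 3 o)) a && Nat.beq (Nat.land (Nat.land a (Nat.shiftRight a 1)) o) 0

end Pool.Agent.Lib.MP_0813d1_al.PC
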