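import Mathlib
import Pool.Agent.Lib.MP_0813d1_al.NSeries

namespace Pool.Agent.Lib.MP_0813d1_al.PC

open scoped commutatorElement

variable {Γ Δ : Type*} [Group Γ] [Group Δ]

/-- the commutator `g⁻¹ h⁻¹ g h` -/
def cm (g h : Γ) : Γ := g⁻¹ * h⁻¹ * g * h

/-- one step of the definition of the polycyclic generators: `(1, a, _)` is the `p`-th power of
generator `a`, `(2, a, b)` is the commutator of the generators `a` and `b` -/
def kstep (p : ℕ) (acc : List Γ) (d : ℕ × ℕ × ℕ) : List Γ :=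
  acc ++ [if d.1 = 1 then acc.getD d.2.1 1 ^ p else cm (acc.getD d.2.1 1) (acc.getD d.2.2 1)]

def kapL (p : ℕ) (defs : List (ℕ × ℕ × ℕ)) (x y : Γ) : List Γ := defs.foldl (kstep p) [x, y]

/-- the polycyclic generators as elements of the group -/
def kap (p : ℕ) (defs : List (ℕ × ℕ × ℕ)) (x y : Γ) (i : ℕ) : Γ := (kapL p defs x y).getD i 1

/-- value of a word given as a list of pairs (letter, exponent) -/
def evw (κ : ℕ → Γ) (w : List (ℕ × ℕ)) : Γ := (w.map fun q => κ q.1 ^ q.2).prod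

def gen (x y : Γ) (b : ℕ) : Γ := if b = 0 then x else y

def mstep (x y : Γ) (acc : List Γ) (d : ℕ × ℕ) : List Γ :=
  acc ++ [cm (acc.getD d.1 1) (gen x y d.2)]

def muL (md : List (ℕ × ℕ)) (x y z : Γ) : List Γ := md.foldl (mstep x y) [z]

/-- iterated commutators of `z` with the generators -/
def mu (md : List (ℕ × ℕ)) (x y z : Γ) (k : ℕ) : Γ := (muL md x y z).getD k 1

/-- the module relation `[mu j, gen b] = word in the mu` -/
def relw (md : List (ℕ × ℕ)) (x y z : Γ) (r : ℕ × ℕ × List (ℕ × ℕ)) : Γ :=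
  (evw (mu md x y z) r.2.2)⁻¹ * cm (mu md x y z r.1) (gen x y r.2.1)

/-- the data of a presentation certificate -/
structure Data where
  p : ℕ
  c : ℕ
  defs : List (ℕ × ℕ × ℕ)
  wts : List ℕ
  s1 : List (ℕ × ℕ)
  s2 : List (ℕ × ℕ)
  md : List (ℕ × ℕ)
  rels : List (ℕ × ℕ × List (ℕ × ℕ))

namespace Data

variable (D : Data)

def k (x y : Γ) : ℕ → Γ := kap D.p D.defs x y

/-- hypotheses of a certificate: `z` is the first relator, `y ^ p = s2` is the second one -/
structure Hyp (S : NSeries Γ) (x y z : Γ) : Prop where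
  pow : ∀ j g, g ∈ S.N j → g ^ D.p ∈ S.N (j + 1)
  gen : Subgroup.closure {x, y} = ⊤
  h1 : z⁻¹ * evw (D.k x y) D.s1 ∈ S.N (D.c + 1)
  h2 : (evw (D.k x y) D.s2)⁻¹ * y ^ D.p ∈ S.N (D.c + 1)
  h3 : z ^ D.p ∈ S.N (D.c + 1)
  h4 : ∀ r ∈ D.rels, relw D.md x y z r ∈ S.N (D.c + 1)

/-- the subgroup generated by the generators of weight at least `j` -/
def A (S : NSeries Γ) (x y : Γ) (j : ℕ) : Subgroup Γ :=
  Subgroup.closure {g | ∃ i, i < D.wts.length ∧ j ≤ D.wts.getD i 0 ∧ g = D.k x y i} ⊔ S.N (D.c + 1)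

/-- conclusion of a certificate: the `A j` form a `p`-central series -/
structure Concl (S : NSeries Γ) (x y : Γ) : Prop where
  one : D.A S x y 1 = ⊤
  comm : ∀ j, ⁅D.A S x y j, ⊤⁆ ≤ D.A S x y (j + 1)
  pow : ∀ j g, g ∈ D.A S x y j → g ^ D.p ∈ D.A S x y (j + 1)

/-- the statement proved by the certificate -/
def Cert : Prop :=
  ∀ (Γ : Type) [Group Γ] (S : NSeries Γ) (x y z : Γ), D.Hyp S x y z → D.Concl S x y

end Data

theorem map_cm (f : Γ →* Δ) (g h : Γ) : f (cm g h) = cm (f g) (f h) := by simp [cm]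

theorem map_getD (f : Γ →* Δ) (l : List Γ) (i : ℕ) : f (l.getD i 1) = (l.map f).getD i 1 := by
  rw [← map_one f, List.getD_map]

theorem map_kstep (f : Γ →* Δ) (p : ℕ) (acc : List Γ) (d : ℕ × ℕ × ℕ) :
    (kstep p acc d).map f = kstep p (acc.map f) d := by
  unfold kstep
  rw [List.map_append, List.map_singleton]
  split_ifs
  · rw [map_pow, map_getD]
  · rw [map_cm, map_getD, map_getD]

theorem map_kapL (f : Γ →* Δ) (p : ℕ) (defs : List (ℕ × ℕ × ℕ)) (x y : Γ) :
    (kapL p defs x y).map f = kapL p defs (f x) (f y) := by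
  have : ∀ acc : List Γ, (defs.foldl (kstep p) acc).map f = defs.foldl (kstep p) (acc.map f) := by
    induction defs with
    | nil => intro acc; rfl
    | cons d l ih => intro acc; rw [List.foldl_cons, List.foldl_cons, ih, map_kstep]
  exact this _

theorem map_kap (f : Γ →* Δ) (p : ℕ) (defs : List (ℕ × ℕ × ℕ)) (x y : Γ) (i : ℕ) :
    f (kap p defs x y i) = kap p defs (f x) (f y) i := by
  unfold kap; rw [map_getD, map_kapL]

theorem map_evw (f : Γ →* Δ) (κ : ℕ → Γ) (w : List (ℕ × ℕ)) :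
    f (evw κ w) = evw (fun i => f (κ i)) w := by
  unfold evw; rw [map_list_prod, List.map_map]; congr 1; simp [Function.comp_def]

theorem map_gen (f : Γ →* Δ) (x y : Γ) (b : ℕ) : f (gen x y b) = gen (f x) (f y) b := by
  unfold gen; split_ifs <;> rfl

theorem map_mstep (f : Γ →* Δ) (x y : Γ) (acc : List Γ) (d : ℕ × ℕ) :
    (mstep x y acc d).map f = mstep (f x) (f y) (acc.map f) d := by
  unfold mstep
  rw [List.map_append, List.map_singleton, map_cm, map_getD, map_gen]

theorem map_mu (f : Γ →* Δ) (md : List (ℕ × ℕ)) (x y z : Γ) (k : ℕ) :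
    f (mu md x y z k) = mu md (f x) (f y) (f z) k := by
  have : ∀ acc : List Γ, (md.foldl (mstep x y) acc).map f =
      md.foldl (mstep (f x) (f y)) (acc.map f) := by
    induction md with
    | nil => intro acc; rfl
    | cons d l ih => intro acc; rw [List.foldl_cons, List.foldl_cons, ih, map_mstep]
  unfold mu muL; rw [map_getD, this]; rfl

theorem map_relw (f : Γ →* Δ) (md : List (ℕ × ℕ)) (x y z : Γ) (r : ℕ × ℕ × List (ℕ × ℕ)) :
    f (relw md x y z r) = relw md (f x) (f y) (f z) r := by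
  unfold relw
  rw [map_mul, map_inv, map_evw, map_cm, map_mu, map_gen]
  simp only [map_mu]

theorem Data.map_k (D : Data) (f : Γ →* Δ) (x y : Γ) (i : ℕ) :
    f (D.k x y i) = D.k (f x) (f y) i := map_kap f _ _ _ _ _

end Pool.Agent.Lib.MP_0813d1_al.PC
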