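import Mathlib
import Pool.Agent.Lib.MP_0813d1_al.PCWords
import Pool.Agent.Lib.MP_0813d1_al.PCDefs

namespace Pool.Agent.Lib.MP_0813d1_al.PC

/-- digit `i` in base `B` -/
def dig (B x i : ℕ) : ℕ := x / B ^ i % B

/-- words: `N` digits, all less than `p` -/
def Nrm (p B N x : ℕ) : Prop := x < B ^ N ∧ ∀ i, dig B x i < p

def AddOK (p B N : ℕ) (add : Op) : Prop :=
  ∀ x y, Nrm p B N x → Nrm p B N y →
    add x y < B ^ N ∧ ∀ i, dig B (add x y) i = (dig B x i + dig B y i) % p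

def NxtOK (p B N : ℕ) (nxt : ℕ → ℕ) : Prop :=
  nxt 0 = 0 ∧ ∀ a, Nrm p B N a → a ≠ 0 → ∃ h, B ^ h ∣ a ∧ dig B a h ≠ 0 ∧ nxt a = a - B ^ h

def NrmOK (p B N : ℕ) (nrm : ℕ → Bool) : Prop := ∀ a, nrm a = true → Nrm p B N a

/-- the number all of whose `N` digits are one -/
def ones (B N : ℕ) : ℕ := ∑ i ∈ Finset.range N, B ^ i

namespace Par

variable (P : Par) {Q : Type*} [Group Q]

def Nr (x : ℕ) : Prop := Nrm P.p P.B P.N x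

/-- value of the letters `a, ..., a + l - 1` of a word -/
def evR (κ : ℕ → Q) (a l x : ℕ) : Q := ((List.range' a l).map fun i => κ i ^ dig P.B x i).prod

/-- value of a word -/
def ev (κ : ℕ → Q) (x : ℕ) : Q := P.evR κ 0 P.N x

/-- the right side of the defining relation of the letter or tail `k` -/
def Wd (k : ℕ) : ℕ := if (P.df k).1 = 1 then P.W (P.df k).2.1 else P.E (P.df k).2.2 (P.df k).2.1

structure OK : Prop where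
  p2 : 2 ≤ P.p
  pB : P.p ≤ P.B
  nd2 : 2 ≤ P.nd
  ndn : P.nd ≤ P.n
  nN : P.n < P.N
  add_ok : AddOK P.p P.B P.N P.add
  nxt_ok : NxtOK P.p P.B P.N P.nxt
  nrm_ok : NrmOK P.p P.B P.N P.nrm
  cl_ok : IsCL P.add P.nxt P.m P.T P.cl
  mul_ok : ∃ ml, IsML P.add P.nxt P.m P.T P.cl ml ∧ IsMul P.T.F ml P.mul
  key_ne : ∀ h < P.N, P.B ^ h % P.m ≠ 0
  g_eq : ∀ h < P.N, P.T.g (P.key h) = P.B ^ h
  him_eq : ∀ h < P.N, P.T.him (P.key h) = P.B ^ (h + 1) - 1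
  pg_eq : ∀ h < P.N, P.T.pg (P.key h) = P.p * P.B ^ h
  msk_eq : ∀ h < P.N, P.T.msk (P.key h) = P.B ^ P.M h - P.B ^ h
  M_ok : ∀ h < P.N, h ≤ P.M h ∧ P.nd ≤ P.M h ∧ P.M h < P.N ∧ (P.nd ≤ h → P.M h = h) ∧
    P.c < P.w h + P.w (P.M h)
  act_eq : ∀ t < P.n, P.T.act (P.key t) = P.B ^ P.cut t - P.B ^ (t + 1)
  cut_ok : ∀ t < P.n, t < P.cut t ∧ P.cut t ≤ P.n ∧ P.c < P.w t + P.w (P.cut t)
  w_mono : ∀ i < P.N, i + 1 < P.N → P.w i ≤ P.w (i + 1)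
  w0 : P.w 0 = 1
  w1 : P.w 1 = 1
  wn : ∀ i < P.N, P.w i ≤ P.c ∧ (P.n ≤ i → P.w i = P.c)
  E_ok : ∀ h < P.n, ∀ t < h, h < P.cut t →
    P.nrm (P.E t h) = true ∧ P.E t h % P.B ^ (h + 1) = P.B ^ h
  W_ok : ∀ t < P.nd, P.nrm (P.W t) = true ∧ P.W t % P.B ^ (t + 1) = 0
  df_ok : ∀ k < P.N, 2 ≤ k → (P.df k).2.1 < k ∧ (P.df k).2.1 < P.n ∧
    (if (P.df k).1 = 1 then (P.df k).2.1 < P.nd
      else (P.df k).2.2 < 2 ∧ (P.df k).2.2 < (P.df k).2.1 ∧ (P.df k).2.1 < P.cut (P.df k).2.2) ∧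
    (if k < P.n then P.w k ≤ P.w (P.df k).2.1 + 1 ∧
        P.Wd k = (if (P.df k).1 = 1 then 0 else P.B ^ (P.df k).2.1) + P.B ^ k
      else P.Wd k / P.B ^ P.n = P.B ^ (k - P.n))
  cov2 : ∀ a < P.n, ∀ b < 2, b < a → a < P.cut b →
    ∃ k < P.N, 2 ≤ k ∧ (P.df k).1 ≠ 1 ∧ (P.df k).2.1 = a ∧ (P.df k).2.2 = b
  cov1 : ∀ a < P.nd, ∃ k < P.N, 2 ≤ k ∧ (P.df k).1 = 1 ∧ (P.df k).2.1 = a
  deep : ∀ i < P.n, P.nd ≤ i → (P.df i).1 ≠ 1 ∧ P.c < 2 * P.w (P.df i).2.1 ∧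
    (P.nd ≤ (P.df i).2.1 ∨ P.W (P.df i).2.1 % P.B ^ P.n = 0)
  lv_ok : ∀ a < P.n, P.lv a ≤ P.n ∧ (P.lv a < P.n → P.w a < P.w (P.lv a)) ∧
    (a < P.nd → P.W a % P.B ^ P.lv a = 0) ∧
    ∀ b < 2, b < a → a < P.cut b → (P.E b a - P.B ^ a) % P.B ^ P.lv a = 0

/-- the relations known for the letters from `K` on -/
structure Ctx (κ : ℕ → Q) (K : ℕ) : Prop where
  comm : ∀ i j, i < P.N → j < P.N → P.c < P.w i + P.w j → Commute (κ i) (κ j)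
  dpow : ∀ i, P.nd ≤ i → i < P.N → κ i ^ P.p = 1
  pow : ∀ t, t < P.nd → κ t ^ P.p = P.ev κ (P.W t)
  conj : ∀ t h, t < h → h < P.n → K ≤ h → h < P.cut t → (κ t)⁻¹ * κ h * κ t = P.ev κ (P.E t h)

def MulOK (κ : ℕ → Q) (K : ℕ) (mul : Op) : Prop :=
  ∀ u v, P.Nr u → P.Nr v → P.B ^ K ∣ v → mul u v = P.T.F ∨
    (P.Nr (mul u v) ∧ P.ev κ (mul u v) = P.ev κ u * P.ev κ v ∧
      ∀ k, P.B ^ k ∣ u → P.B ^ k ∣ v → P.B ^ k ∣ mul u v)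

/-- the parameters describe the data -/
structure Match (D : Data) : Prop where
  p : D.p = P.p
  c : D.c = P.c
  ld : D.defs.length + 2 = P.n
  lw : D.wts.length = P.n
  df : ∀ k < P.n, 2 ≤ k → D.defs.getD (k - 2) (0, 0, 0) = P.df k
  w : ∀ k < P.n, D.wts.getD k 0 = P.w k

structure Crt where
  eqs : List (ℕ × ℕ × ℕ × ℕ)
  ms : List ℕ
  rd : List ℕ
  dz : ℕ
  k0 : ℕ
  cf : ℕ → ℕ

/-- the list of all words shown to be trivial -/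
def Crt.all (C : Crt) : List ℕ := P.u C.k0 :: C.dz :: (C.rd ++ C.eqs.map fun e => e.2.2.2)

structure CrtOK (D : Data) (C : Crt) : Prop where
  eqs : ∀ e ∈ C.eqs, P.chkA e = true
  lm : C.ms.length = D.md.length + 1
  m0 : P.mulW P.let1 D.s1 0 = C.ms.getD 0 0 ∧ C.ms.getD 0 0 ≠ P.T.F
  md : ∀ k < D.md.length, P.chkMd C.ms (k + 1) (D.md.getD k (0, 0)) = true
  lr : C.rd.length = D.rels.length
  rel : ∀ k < D.rels.length, P.chkRel C.ms (D.rels.getD k (0, 0, [])) (C.rd.getD k 0) = true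
  dz : P.mulPow 0 (C.ms.getD 0 0) P.p = C.dz ∧ C.dz ≠ P.T.F ∧ P.dOK C.dz = true
  k0 : P.n ≤ C.k0 ∧ C.k0 < P.N ∧ (P.df C.k0).1 = 1 ∧ (P.df C.k0).2.1 = 1 ∧
    P.mulW P.let1 D.s2 0 = P.W 1 % P.B ^ P.n ∧ P.W 1 % P.B ^ P.n ≠ P.T.F
  rank : ∀ k < P.N, P.n ≤ k → P.comb (Crt.all P C) (C.cf k) = P.u k

def T1OK : Prop := ∀ j < P.n, ∀ i < j, 2 ≤ i → P.chkT j i = true

variable {Γ : Type*} [Group Γ]

/-- letters and tails as elements of the group: the tail `k` is the error of its relation -/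
noncomputable def kh (D : Data) (x y : Γ) (k : ℕ) : Γ :=
  if k < P.n then D.k x y k
  else (P.evR (D.k x y) 0 P.n (P.Wd k))⁻¹ *
    (if (P.df k).1 = 1 then D.k x y (P.df k).2.1 ^ P.p
      else (D.k x y (P.df k).2.2)⁻¹ * D.k x y (P.df k).2.1 * D.k x y (P.df k).2.2)

/-- the same in the quotient by a term of the series -/
noncomputable def kq (D : Data) (S : NSeries Γ) (x y : Γ) (s k : ℕ) : Γ ⧸ S.N s :=
  QuotientGroup.mk (P.kh D x y k)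

end Par

end Pool.Agent.Lib.MP_0813d1_al.PC
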