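import Mathlib
import Pool.Agent.Lib.MP_0813d1_al.PCSpec

namespace Pool.Agent.Lib.MP_0813d1_al.PC

variable {B : ℕ}

theorem dig_lt (hB : 2 ≤ B) (x i : ℕ) : dig B x i < B := Nat.mod_lt _ (by omega)

theorem dig_zero (B i : ℕ) : dig B 0 i = 0 := by simp [dig]

theorem dig_at_zero (B x : ℕ) : dig B x 0 = x % B := by simp [dig]

theorem dig_succ (B x i : ℕ) : dig B x (i + 1) = dig B (x / B) i := by
  rw [dig, dig, Nat.div_div_eq_div_mul, pow_succ']

theorem dig_step_zero {d : ℕ} (hd : d < B) (y : ℕ) : dig B (d + B * y) 0 = d := by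
  rw [dig_at_zero, Nat.add_mul_mod_self_left, Nat.mod_eq_of_lt hd]

theorem dig_step_succ {d : ℕ} (hd : d < B) (y i : ℕ) : dig B (d + B * y) (i + 1) = dig B y i := by
  rw [dig_succ, Nat.add_mul_div_left _ _ (by omega), Nat.div_eq_of_lt hd, zero_add]

/-- splitting off the top digit -/
theorem mod_pow_succ_eq (hB : 2 ≤ B) (x t : ℕ) :
    x % B ^ (t + 1) = x % B ^ t + dig B x t * B ^ t := by
  rw [Nat.mod_pow_succ, dig, mul_comm]

theorem le_of_dig (hB : 2 ≤ B) {x y : ℕ} (h : ∀ i, dig B x i ≤ dig B y i) : x ≤ y := by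
  have key : ∀ k, x % B ^ k ≤ y % B ^ k := by
    intro k
    induction k with
    | zero => simp [Nat.mod_one]
    | succ k ih =>
      rw [mod_pow_succ_eq hB, mod_pow_succ_eq hB]
      exact Nat.add_le_add ih (Nat.mul_le_mul_right _ (h k))
  have := key x
  rw [Nat.mod_eq_of_lt (Nat.lt_pow_self (by omega))] at this
  exact this.trans (Nat.mod_le _ _)

theorem dig_ext (hB : 2 ≤ B) {x y : ℕ} (h : ∀ i, dig B x i = dig B y i) : x = y :=
  le_antisymm (le_of_dig hB fun i => (h i).le) (le_of_dig hB fun i => (h i).ge)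

theorem dig_div (hB : 2 ≤ B) (x k i : ℕ) : dig B (x / B ^ k) i = dig B x (i + k) := by
  rw [dig, dig, Nat.div_div_eq_div_mul, ← pow_add, add_comm]

theorem dig_add_of_lt (hB : 2 ≤ B) {x y k : ℕ} (hx : x < B ^ k) (hy : B ^ k ∣ y) (i : ℕ) :
    dig B (x + y) i = if i < k then dig B x i else dig B y i := by
  obtain ⟨z, rfl⟩ := hy
  split_ifs with h
  · obtain ⟨j, rfl⟩ := Nat.exists_eq_add_of_lt h
    have : B ^ (i + j + 1) * z = B ^ i * (B * (B ^ j * z)) := by ring
    rw [this, dig, dig, Nat.add_mul_div_left _ _ (by positivity), Nat.add_mul_mod_self_left]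
  · obtain ⟨j, rfl⟩ := Nat.exists_eq_add_of_le' (not_lt.mp h)
    rw [← dig_div hB, ← dig_div hB, Nat.add_mul_div_left _ _ (by positivity),
      Nat.div_eq_of_lt hx, zero_add, Nat.mul_div_cancel_left _ (by positivity)]

theorem dig_mod (hB : 2 ≤ B) (x k i : ℕ) :
    dig B (x % B ^ k) i = if i < k then dig B x i else 0 := by
  have h0 : x % B ^ k < B ^ k := Nat.mod_lt _ (by positivity)
  split_ifs with h
  · have := dig_add_of_lt hB h0 (Dvd.intro (x / B ^ k) rfl) i
    rw [Nat.mod_add_div, if_pos h] at this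
    exact this.symm
  · rw [dig, Nat.div_eq_of_lt (h0.trans_le (Nat.pow_le_pow_right (by omega) (not_lt.mp h))),
      Nat.zero_mod]

theorem dig_sub_mod (hB : 2 ≤ B) (x k i : ℕ) :
    dig B (x - x % B ^ k) i = if i < k then 0 else dig B x i := by
  have h0 : x % B ^ k < B ^ k := Nat.mod_lt _ (by positivity)
  have e : x - x % B ^ k = B ^ k * (x / B ^ k) := by
    have := Nat.mod_add_div x (B ^ k)
    omega
  rw [e]
  split_ifs with h
  · have := dig_add_of_lt hB (x := 0) (k := k) (by positivity) (Dvd.intro (x / B ^ k) rfl) i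
    rwa [zero_add, if_pos h, dig_zero] at this
  · have := dig_add_of_lt hB h0 (Dvd.intro (x / B ^ k) rfl) i
    rw [Nat.mod_add_div, if_neg h] at this
    exact this.symm

theorem dvd_iff_dig (hB : 2 ≤ B) (x k : ℕ) : B ^ k ∣ x ↔ ∀ i < k, dig B x i = 0 := by
  rw [Nat.dvd_iff_mod_eq_zero]
  constructor
  · intro h i hi
    have := dig_mod hB x k i
    rw [h, if_pos hi, dig_zero] at this
    exact this.symm
  · intro h
    refine dig_ext hB fun i => ?_
    rw [dig_mod hB, dig_zero]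
    split_ifs with hi
    · exact h i hi
    · rfl

theorem lt_iff_dig (hB : 2 ≤ B) (x k : ℕ) : x < B ^ k ↔ ∀ i, k ≤ i → dig B x i = 0 := by
  constructor
  · intro h i hi
    have := dig_mod hB x k i
    rwa [Nat.mod_eq_of_lt h, if_neg (not_lt.mpr hi)] at this
  · intro h
    have : x % B ^ k = x := by
      refine dig_ext hB fun i => ?_
      rw [dig_mod hB]
      split_ifs with hi
      · rfl
      · exact (h i (not_lt.mp hi)).symm
    rw [← this]
    exact Nat.mod_lt _ (by positivity)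

theorem dig_mul_pow (hB : 2 ≤ B) {d : ℕ} (hd : d < B) (k i : ℕ) :
    dig B (d * B ^ k) i = if i = k then d else 0 := by
  rcases lt_or_ge i k with h | h
  · rw [if_neg h.ne]
    exact (dvd_iff_dig hB _ k).mp (Dvd.intro_left d rfl) i h
  · obtain ⟨j, rfl⟩ := Nat.exists_eq_add_of_le' h
    rw [← dig_div hB, Nat.mul_div_cancel _ (by positivity)]
    rcases j with _ | j
    · rw [dig_at_zero, Nat.mod_eq_of_lt hd, zero_add, if_pos rfl]
    · rw [dig_succ, Nat.div_eq_of_lt hd, dig_zero, if_neg (by omega)]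

theorem dig_pow (hB : 2 ≤ B) (k i : ℕ) : dig B (B ^ k) i = if i = k then 1 else 0 := by
  have := dig_mul_pow hB (d := 1) (by omega) k i
  rwa [one_mul] at this

theorem pow_le_of_dig (hB : 2 ≤ B) {a h : ℕ} (ha : dig B a h ≠ 0) : B ^ h ≤ a :=
  not_lt.mp fun h' => ha ((lt_iff_dig hB a h).mp h' h le_rfl)

theorem dig_add_of_no_carry {x y : ℕ} (h : ∀ i, dig B x i + dig B y i < B) (i : ℕ) :
    dig B (x + y) i = dig B x i + dig B y i := by
  induction i generalizing x y with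
  | zero =>
    have := h 0
    rw [dig_at_zero, dig_at_zero] at this
    rw [dig_at_zero, dig_at_zero, dig_at_zero, Nat.add_mod, Nat.mod_eq_of_lt this]
  | succ i ih =>
    have h0 := h 0
    rw [dig_at_zero, dig_at_zero] at h0
    have e : x + y = (x % B + y % B) + B * (x / B + y / B) := by
      have h1 := Nat.mod_add_div x B
      have h2 := Nat.mod_add_div y B
      rw [mul_add]
      omega
    rw [e, dig_step_succ h0, ih fun j => by rw [← dig_succ, ← dig_succ]; exact h _, dig_succ,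
      dig_succ]

theorem dig_sub_of_le (hB : 2 ≤ B) {x a : ℕ} (h : ∀ i, dig B a i ≤ dig B x i) (i : ℕ) :
    dig B (x - a) i = dig B x i - dig B a i := by
  have split : ∀ {x a : ℕ}, (∀ i, dig B a i ≤ dig B x i) →
      x - a = (x % B - a % B) + B * (x / B - a / B) := by
    intro x a h
    have h0 := h 0
    rw [dig_at_zero, dig_at_zero] at h0
    have h3 : a / B ≤ x / B := Nat.div_le_div_right (le_of_dig hB h)
    have h1 := Nat.mod_add_div x B
    have h2 := Nat.mod_add_div a B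
    have h4 := Nat.mul_le_mul_left B h3
    rw [Nat.mul_sub]
    omega
  have hlt : ∀ x a : ℕ, x % B - a % B < B := fun x a =>
    (Nat.sub_le _ _).trans_lt (Nat.mod_lt _ (by omega))
  induction i generalizing x a with
  | zero => rw [split h, dig_step_zero (hlt x a), dig_at_zero, dig_at_zero]
  | succ i ih =>
    rw [split h, dig_step_succ (hlt x a), ih fun j => by rw [← dig_succ, ← dig_succ]; exact h _,
      dig_succ, dig_succ]

theorem dig_sub_pow (hB : 2 ≤ B) {a h : ℕ} (ha : dig B a h ≠ 0) (i : ℕ) :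
    dig B (a - B ^ h) i = if i = h then dig B a h - 1 else dig B a i := by
  rw [dig_sub_of_le hB, dig_pow hB]
  · split_ifs with hi
    · rw [hi]
    · rfl
  · intro j
    rw [dig_pow hB]
    split_ifs with hj
    · rw [hj]
      omega
    · omega

theorem dig_add_pow (hB : 2 ≤ B) {a h : ℕ} (ha : dig B a h + 1 < B) (i : ℕ) :
    dig B (a + B ^ h) i = if i = h then dig B a h + 1 else dig B a i := by
  rw [dig_add_of_no_carry, dig_pow hB]
  · split_ifs with hi
    · rw [hi]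
    · rfl
  · intro j
    rw [dig_pow hB]
    split_ifs with hj
    · rwa [hj]
    · exact dig_lt hB a j

theorem land_low (β x a : ℕ) : Nat.land x ((2 ^ β) ^ a - 1) = x % (2 ^ β) ^ a := by
  rw [← pow_mul]
  exact Nat.and_two_pow_sub_one_eq_mod x _

theorem land_mask (x : ℕ) {A C : ℕ} (h : C ≤ A) :
    x &&& (2 ^ A - 2 ^ C) = x % 2 ^ A - x % 2 ^ A % 2 ^ C := by
  have e1 : 2 ^ A - 2 ^ C = 2 ^ C * (2 ^ (A - C) - 1) := by
    rw [Nat.mul_sub, mul_one, ← pow_add, Nat.add_sub_cancel' h]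
  have e2 : x % 2 ^ A - x % 2 ^ A % 2 ^ C = 2 ^ C * (x % 2 ^ A / 2 ^ C) := by
    have := Nat.mod_add_div (x % 2 ^ A) (2 ^ C)
    omega
  rw [e1, e2]
  apply Nat.eq_of_testBit_eq
  intro i
  rw [Nat.testBit_and, Nat.testBit_two_pow_mul, Nat.testBit_two_pow_mul,
    Nat.testBit_two_pow_sub_one, Nat.testBit_div_two_pow, Nat.testBit_mod_two_pow]
  by_cases h1 : C ≤ i
  · rw [Nat.sub_add_cancel h1]
    by_cases h2 : i < A
    · simp [h1, h2, show i - C < A - C by omega]
    · simp [h2, show ¬ i - C < A - C by omega]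
  · simp [h1]

theorem dig_land_mask {β : ℕ} (hβ : 2 ≤ 2 ^ β) (x : ℕ) {a b : ℕ} (h : b ≤ a) (i : ℕ) :
    dig (2 ^ β) (Nat.land x ((2 ^ β) ^ a - (2 ^ β) ^ b)) i =
      if b ≤ i ∧ i < a then dig (2 ^ β) x i else 0 := by
  have := land_mask x (Nat.mul_le_mul_left β h)
  rw [pow_mul, pow_mul] at this
  rw [Nat.land_eq, this, dig_sub_mod hβ, dig_mod hβ]
  by_cases h1 : i < b
  · rw [if_pos h1, if_neg (by omega)]
  · rw [if_neg h1]
    by_cases h2 : i < a
    · rw [if_pos h2, if_pos (by omega)]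
    · rw [if_neg h2, if_neg (by omega)]

/-- removing a sub-word -/
theorem dig_sub_of_sub (hB : 2 ≤ B) {x a : ℕ} (h : ∀ i, dig B a i = dig B x i ∨ dig B a i = 0)
    (i : ℕ) : dig B (x - a) i = dig B x i - dig B a i :=
  dig_sub_of_le hB (fun j => by have := h j; omega) i

theorem land_step (β : ℕ) {d e : ℕ} (hd : d < 2 ^ β) (he : e < 2 ^ β) (x y : ℕ) :
    (d + 2 ^ β * x) &&& (e + 2 ^ β * y) = (d &&& e) + 2 ^ β * (x &&& y) := by
  have h0 : 0 < 2 ^ β := by positivity
  rw [← Nat.mod_add_div ((d + 2 ^ β * x) &&& (e + 2 ^ β * y)) (2 ^ β), Nat.and_mod_two_pow,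
    Nat.and_div_two_pow, Nat.add_mul_mod_self_left, Nat.add_mul_mod_self_left,
    Nat.add_mul_div_left _ _ h0, Nat.add_mul_div_left _ _ h0, Nat.mod_eq_of_lt hd,
    Nat.mod_eq_of_lt he, Nat.div_eq_of_lt hd, Nat.div_eq_of_lt he, zero_add, zero_add]

theorem lor_step (β : ℕ) {d e : ℕ} (hd : d < 2 ^ β) (he : e < 2 ^ β) (x y : ℕ) :
    (d + 2 ^ β * x) ||| (e + 2 ^ β * y) = (d ||| e) + 2 ^ β * (x ||| y) := by
  have h0 : 0 < 2 ^ β := by positivity
  rw [← Nat.mod_add_div ((d + 2 ^ β * x) ||| (e + 2 ^ β * y)) (2 ^ β), Nat.or_mod_two_pow,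
    Nat.or_div_two_pow, Nat.add_mul_mod_self_left, Nat.add_mul_mod_self_left,
    Nat.add_mul_div_left _ _ h0, Nat.add_mul_div_left _ _ h0, Nat.mod_eq_of_lt hd,
    Nat.mod_eq_of_lt he, Nat.div_eq_of_lt hd, Nat.div_eq_of_lt he, zero_add, zero_add]

theorem land8 {d e : ℕ} (hd : d < 8) (he : e < 8) (x y : ℕ) :
    (d + 8 * x) &&& (e + 8 * y) = (d &&& e) + 8 * (x &&& y) := land_step 3 hd he x y

theorem lor8 {d e : ℕ} (hd : d < 8) (he : e < 8) (x y : ℕ) :
    (d + 8 * x) ||| (e + 8 * y) = (d ||| e) + 8 * (x ||| y) := lor_step 3 hd he x y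

theorem land2 {d e : ℕ} (hd : d < 2) (he : e < 2) (x y : ℕ) :
    (d + 2 * x) &&& (e + 2 * y) = (d &&& e) + 2 * (x &&& y) := land_step 1 hd he x y

theorem addOK2 (N : ℕ) : AddOK 2 (2 ^ 1) N Nat.xor := by
  intro x y hx hy
  rw [pow_one]
  refine ⟨Nat.xor_lt_two_pow hx.1 hy.1, fun i => ?_⟩
  simp only [dig, ← Nat.toNat_testBit, Nat.xor_eq, Nat.testBit_xor]
  cases x.testBit i <;> cases y.testBit i <;> rfl

theorem low2 (a : ℕ) (ha : a ≠ 0) :
    ∃ h, 2 ^ h ∣ a ∧ dig 2 a h ≠ 0 ∧ a &&& (a - 1) = a - 2 ^ h := by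
  induction a using Nat.strong_induction_on with
  | _ a ih =>
    rcases Nat.even_or_odd' a with ⟨c, rfl | rfl⟩
    · obtain ⟨h, h1, h2, h3⟩ := ih c (by omega) (by omega)
      refine ⟨h + 1, ?_, ?_, ?_⟩
      · rw [pow_succ']
        exact Nat.mul_dvd_mul_left 2 h1
      · rwa [dig_succ, Nat.mul_div_cancel_left _ (by norm_num)]
      · have := land2 (d := 0) (e := 1) (by norm_num) (by norm_num) c (c - 1)
        rw [zero_add, show 1 + 2 * (c - 1) = 2 * c - 1 by omega, h3] at this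
        rw [this, pow_succ']
        simp [Nat.mul_sub]
    · refine ⟨0, by simp, by rw [dig_at_zero]; omega, ?_⟩
      have := land2 (d := 1) (e := 0) (by norm_num) (by norm_num) c c
      rw [zero_add, add_comm 1, Nat.and_self] at this
      simpa using this

theorem nxtOK2 (N : ℕ) : NxtOK 2 (2 ^ 1) N nxt2 :=
  ⟨rfl, fun a _ ha => low2 a ha⟩

theorem nrmOK2 (N F : ℕ) (h : F = 2 ^ N) : NrmOK 2 (2 ^ 1) N (nrm2 F) := by
  intro a ha
  subst h
  exact ⟨Nat.blt_eq.mp ha, fun i => dig_lt le_rfl a i⟩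

theorem ones_eq (N : ℕ) : 7 * ones 8 N + 1 = 8 ^ N := by
  induction N with
  | zero => rfl
  | succ N ih =>
    rw [ones, Finset.sum_range_succ, ← ones, pow_succ]
    omega

theorem o_succ {N o : ℕ} (h : 7 * o + 1 = 8 ^ (N + 1)) : ∃ o', 7 * o' + 1 = 8 ^ N ∧ o = 1 + 8 * o' := by
  have := ones_eq N
  rw [pow_succ] at h
  exact ⟨_, this, by omega⟩

theorem add3_aux (N : ℕ) : ∀ o s : ℕ, 7 * o + 1 = 8 ^ N → s < 8 ^ N → (∀ i, dig 8 s i ≤ 4) →
    3 * ((s + o) / 4 &&& o) ≤ s ∧ ∀ i, dig 8 (s - 3 * ((s + o) / 4 &&& o)) i = dig 8 s i % 3 := by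
  induction N with
  | zero =>
    intro o s ho hs _
    obtain rfl : s = 0 := by omega
    obtain rfl : o = 0 := by omega
    simp [dig_zero]
  | succ N ih =>
    intro o s ho hs hd
    obtain ⟨o, ho', rfl⟩ := o_succ ho
    obtain ⟨t, s, ht8, rfl⟩ : ∃ t s', t < 8 ∧ s = t + 8 * s' := ⟨s % 8, s / 8, by omega, by omega⟩
    have ht : t ≤ 4 := by
      have := hd 0
      rwa [dig_step_zero ht8] at this
    obtain ⟨h1, h2⟩ := ih o s ho' (by rw [pow_succ] at hs; omega) fun i => by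
      have := hd (i + 1)
      rwa [dig_step_succ ht8] at this
    have e : (t + 8 * s + (1 + 8 * o)) / 4 =
        ((t + 1) / 4 + 2 * ((s + o) % 4)) + 8 * ((s + o) / 4) := by omega
    rw [e, land8 (by omega) (by norm_num), Nat.and_one_is_mod]
    set g := (s + o) / 4 &&& o
    have e2 : t + 8 * s - 3 * (((t + 1) / 4 + 2 * ((s + o) % 4)) % 2 + 8 * g) =
        t % 3 + 8 * (s - 3 * g) := by omega
    refine ⟨by omega, fun i => ?_⟩
    rw [e2]
    rcases i with _ | i
    · rw [dig_step_zero (by omega), dig_step_zero ht8]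
    · rw [dig_step_succ (by omega), dig_step_succ ht8, h2]

theorem addOK3 (N o : ℕ) (h : 7 * o + 1 = 8 ^ N) : AddOK 3 (2 ^ 3) N (add3 o) := by
  intro x y hx hy
  change add3 o x y < 8 ^ N ∧ ∀ i, dig 8 (add3 o x y) i = (dig 8 x i + dig 8 y i) % 3
  have hx1 : x < 8 ^ N := hx.1
  have hy1 : y < 8 ^ N := hy.1
  have hx2 : ∀ i, dig 8 x i < 3 := hx.2
  have hy2 : ∀ i, dig 8 y i < 3 := hy.2
  have hs := dig_add_of_no_carry (B := 8) (x := x) (y := y) fun i => by
    have := hx2 i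
    have := hy2 i
    omega
  have hlt : x + y < 8 ^ N := (lt_iff_dig (by norm_num) _ _).mpr fun i hi => by
    rw [hs, (lt_iff_dig (by norm_num) _ _).mp hx1 i hi, (lt_iff_dig (by norm_num) _ _).mp hy1 i hi]
  have e : add3 o x y = x + y - 3 * ((x + y + o) / 4 &&& o) := by
    change x + y - 3 * ((x + y + o) >>> 2 &&& o) = _
    rw [Nat.shiftRight_eq_div_pow]
  obtain ⟨-, h2⟩ := add3_aux N o (x + y) h hlt fun i => by
    have := hx2 i
    have := hy2 i
    rw [hs]
    omega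
  rw [e]
  exact ⟨(Nat.sub_le _ _).trans_lt hlt, fun i => by rw [h2, hs]⟩

theorem half8 (d a : ℕ) : (d + 8 * a) / 2 = (d / 2 + 4 * (a % 2)) + 8 * (a / 2) := by omega

theorem nxt3_aux (N : ℕ) : ∀ o a : ℕ, 7 * o + 1 = 8 ^ N → a < 8 ^ N → (∀ i, dig 8 a i < 3) →
    a ≠ 0 → ∃ h, 8 ^ h ∣ a ∧ dig 8 a h ≠ 0 ∧
      ((a ||| a / 2) &&& o) - (((a ||| a / 2) &&& o) &&& (((a ||| a / 2) &&& o) - 1)) = 8 ^ h := by
  induction N with
  | zero =>
    intro o a _ hs _ h0
    omega
  | succ N ih =>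
    intro o a ho hs hd h0
    obtain ⟨o, ho', rfl⟩ := o_succ ho
    obtain ⟨d, a, hd8, rfl⟩ : ∃ d a', d < 8 ∧ a = d + 8 * a' := ⟨a % 8, a / 8, by omega, by omega⟩
    have hd3 : d < 3 := by
      have := hd 0
      rwa [dig_step_zero hd8] at this
    have ha2 : a % 2 < 2 := by omega
    rw [half8, lor8 hd8 (by omega),
      land8 (Nat.or_lt_two_pow (n := 3) hd8 (by omega)) (by norm_num)]
    set c := (a ||| a / 2) &&& o with hc
    by_cases hd0 : d = 0
    · subst hd0
      obtain ⟨h, h1, h2, h3⟩ := ih o a ho' (by rw [pow_succ] at hs; omega)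
        (fun i => by have := hd (i + 1); rwa [dig_step_succ hd8] at this) (by omega)
      rw [← hc] at h3
      have e : (0 ||| (0 / 2 + 4 * (a % 2))) &&& 1 = 0 := by
        generalize a % 2 = r at ha2
        interval_cases r <;> rfl
      have hc0 : c ≠ 0 := by
        intro h4
        rw [h4] at h3
        have : 0 < 8 ^ h := by positivity
        simp at h3
        omega
      refine ⟨h + 1, ?_, by rwa [dig_step_succ hd8], ?_⟩
      · rw [zero_add, pow_succ']
        exact Nat.mul_dvd_mul_left 8 h1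
      · rw [e, show 0 + 8 * c - 1 = 7 + 8 * (c - 1) by omega, land8 (by norm_num) (by norm_num),
          pow_succ', ← h3, Nat.mul_sub]
        simp
    · have e : (d ||| (d / 2 + 4 * (a % 2))) &&& 1 = 1 := by
        generalize a % 2 = r at ha2
        interval_cases d
        · exact absurd rfl hd0
        · interval_cases r <;> rfl
        · interval_cases r <;> rfl
      refine ⟨0, by simp, by rwa [dig_step_zero hd8], ?_⟩
      rw [e, show 1 + 8 * c - 1 = 0 + 8 * c by omega, land8 (by norm_num) (by norm_num),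
        Nat.and_self]
      simp

theorem nxtOK3 (N o : ℕ) (h : 7 * o + 1 = 8 ^ N) : NxtOK 3 (2 ^ 3) N (nxt3 o) := by
  refine ⟨Nat.zero_sub _, fun a ha h0 => ?_⟩
  obtain ⟨k, h1, h2, h3⟩ := nxt3_aux N o a h ha.1 ha.2 h0
  refine ⟨k, h1, h2, ?_⟩
  change a - (((a ||| a >>> 1) &&& o) - (((a ||| a >>> 1) &&& o) &&&
    (((a ||| a >>> 1) &&& o) - 1))) = a - 8 ^ k
  rw [Nat.shiftRight_one, h3]

theorem nrm3_aux (N : ℕ) : ∀ o a : ℕ, 7 * o + 1 = 8 ^ N → a &&& (3 * o) = a →
    (a &&& a / 2) &&& o = 0 → a < 8 ^ N ∧ ∀ i, dig 8 a i < 3 := by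
  induction N with
  | zero =>
    intro o a ho h1 _
    obtain rfl : o = 0 := by omega
    obtain rfl : a = 0 := by simpa using h1.symm
    simp [dig_zero]
  | succ N ih =>
    intro o a ho h1 h2
    obtain ⟨o, ho', rfl⟩ := o_succ ho
    obtain ⟨d, a, hd8, rfl⟩ : ∃ d a', d < 8 ∧ a = d + 8 * a' := ⟨a % 8, a / 8, by omega, by omega⟩
    have ha2 : a % 2 < 2 := by omega
    rw [show 3 * (1 + 8 * o) = 3 + 8 * (3 * o) by ring, land8 hd8 (by norm_num)] at h1
    rw [half8, land8 hd8 (by omega), land8 (Nat.and_le_left.trans_lt hd8) (by norm_num)] at h2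
    have h3 : d &&& 3 ≤ 3 := Nat.and_le_right
    obtain ⟨h4, h5⟩ := ih o a ho' (by omega) (by omega)
    have h6 : d &&& 3 = d := by omega
    have h7 : (d &&& (d / 2 + 4 * (a % 2))) &&& 1 = 0 := by omega
    have hd3 : d < 3 := by
      by_contra h8
      obtain rfl : d = 3 := by omega
      generalize a % 2 = r at ha2 h7
      interval_cases r <;> simp at h7
    refine ⟨by rw [pow_succ]; omega, fun i => ?_⟩
    rcases i with _ | i
    · rwa [dig_step_zero hd8]
    · rw [dig_step_succ hd8]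
      exact h5 i

theorem nrmOK3 (N o : ℕ) (h : 7 * o + 1 = 8 ^ N) : NrmOK 3 (2 ^ 3) N (nrm3 o) := by
  intro a ha
  rw [nrm3, Bool.and_eq_true, Nat.beq_eq, Nat.beq_eq] at ha
  refine nrm3_aux N o a h ha.1 ?_
  rw [← Nat.shiftRight_one]
  exact ha.2

end Pool.Agent.Lib.MP_0813d1_al.PC
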