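import Mathlib
import Pool.Agent.Lib.MP_0813d1_al.PCDigits
import Pool.Agent.Lib.MP_0813d1_al.PC3Words
import Pool.Agent.Lib.MP_0813d1_al.PC3Tab

namespace Pool.Agent.Lib.MP_0813d1_al.PC.T3

set_option synthInstance.maxSize 2000

theorem P_ok : P.OK where
  p2 := by decide +kernel
  pB := by decide +kernel
  nd2 := by decide +kernel
  ndn := by decide +kernel
  nN := by decide +kernel
  add_ok := addOK3 _ _ (by decide +kernel)
  nxt_ok := nxtOK3 _ _ (by decide +kernel)
  nrm_ok := nrmOK3 _ _ (by decide +kernel)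
  cl_ok := cl_ok
  mul_ok := mul_ok
  key_ne := by decide +kernel
  g_eq := by decide +kernel
  him_eq := by decide +kernel
  pg_eq := by decide +kernel
  msk_eq := by decide +kernel
  M_ok := by decide +kernel
  act_eq := by decide +kernel
  cut_ok := by decide +kernel
  w_mono := by decide +kernel
  w0 := by decide +kernel
  w1 := by decide +kernel
  wn := by decide +kernel
  E_ok := by decide +kernel
  W_ok := by decide +kernel
  df_ok := by decide +kernel
  cov2 := by decide +kernel
  cov1 := by decide +kernel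
  deep := by decide +kernel
  lv_ok := by decide +kernel

theorem P_match : P.Match D3 where
  p := by decide +kernel
  c := by decide +kernel
  ld := by decide +kernel
  lw := by decide +kernel
  df := by decide +kernel
  w := by decide +kernel

noncomputable def C : Par.Crt := ⟨eqs.flatten, ms, rd, dz, k0, cf⟩

theorem C_lm : C.ms.length = D3.md.length + 1 := by decide +kernel

theorem C_m0 : P.mulW P.let1 D3.s1 0 = C.ms.getD 0 0 ∧ C.ms.getD 0 0 ≠ P.T.F := by
  decide +kernel

theorem C_md : ∀ k < D3.md.length, P.chkMd C.ms (k + 1) (D3.md.getD k (0, 0)) = true := by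
  decide +kernel

theorem C_lr : C.rd.length = D3.rels.length := by decide +kernel

theorem C_rel : ∀ k < D3.rels.length,
    P.chkRel C.ms (D3.rels.getD k (0, 0, [])) (C.rd.getD k 0) = true := by decide +kernel

theorem C_dz : P.mulPow 0 (C.ms.getD 0 0) P.p = C.dz ∧ C.dz ≠ P.T.F ∧ P.dOK C.dz = true := by
  decide +kernel

theorem C_k0 : P.n ≤ C.k0 ∧ C.k0 < P.N ∧ (P.df C.k0).1 = 1 ∧ (P.df C.k0).2.1 = 1 ∧
    P.mulW P.let1 D3.s2 0 = P.W 1 % P.B ^ P.n ∧ P.W 1 % P.B ^ P.n ≠ P.T.F := by decide +kernel

theorem C_rank : ∀ k < P.N, P.n ≤ k → P.comb (Par.Crt.all P C) (C.cf k) = P.u k := by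
  decide +kernel

theorem cover : covL 3 2 chs.flatten = P.n := by decide +kernel

end Pool.Agent.Lib.MP_0813d1_al.PC.T3
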