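import Mathlib
import Pool.Agent.Lib.MP_0813d1_al.PCDigits

namespace Pool.Agent.Lib.MP_0813d1_al.PC.Par

variable {P : Par} {Q : Type*} [Group Q] {κ : ℕ → Q}

theorem OK.hB (hP : P.OK) : 2 ≤ P.B := hP.p2.trans hP.pB

theorem OK.w_le (hP : P.OK) {i j : ℕ} (h : i ≤ j) (hj : j < P.N) : P.w i ≤ P.w j := by
  induction j, h using Nat.le_induction with
  | base => exact le_rfl
  | succ j _ ih => exact (ih (by omega)).trans (hP.w_mono j (by omega) hj)

theorem evR_congr' {κ' : ℕ → Q} {a l x y : ℕ}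
    (h : ∀ i, a ≤ i → i < a + l → κ i ^ dig P.B x i = κ' i ^ dig P.B y i) :
    P.evR κ a l x = P.evR κ' a l y :=
  congrArg List.prod (List.map_congr_left fun i hi =>
    h i (List.mem_range'_1.mp hi).1 (List.mem_range'_1.mp hi).2)

theorem evR_congr {a l x y : ℕ} (h : ∀ i, a ≤ i → i < a + l → dig P.B x i = dig P.B y i) :
    P.evR κ a l x = P.evR κ a l y := evR_congr' fun i h1 h2 => by rw [h i h1 h2]

theorem evR_congr_left {κ' : ℕ → Q} {a l : ℕ} (x : ℕ) (h : ∀ i, a ≤ i → i < a + l → κ i = κ' i) :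
    P.evR κ a l x = P.evR κ' a l x := evR_congr' fun i h1 h2 => by rw [h i h1 h2]

theorem evR_mem {a l x : ℕ} (H : Subgroup Q)
    (h : ∀ i, a ≤ i → i < a + l → dig P.B x i = 0 ∨ κ i ∈ H) : P.evR κ a l x ∈ H := by
  refine list_prod_mem fun q hq => ?_
  obtain ⟨i, hi, rfl⟩ := List.mem_map.mp hq
  rcases h i (List.mem_range'_1.mp hi).1 (List.mem_range'_1.mp hi).2 with e | e
  · rw [e, pow_zero]; exact one_mem H
  · exact pow_mem e _

theorem evR_eq_one {a l x : ℕ} (h : ∀ i, a ≤ i → i < a + l → dig P.B x i = 0 ∨ κ i = 1) :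
    P.evR κ a l x = 1 :=
  Subgroup.mem_bot.mp (evR_mem ⊥ fun i h1 h2 => (h i h1 h2).imp_right Subgroup.mem_bot.mpr)

theorem evR_add (a l l' x : ℕ) :
    P.evR κ a (l + l') x = P.evR κ a l x * P.evR κ (a + l) l' x := by
  rw [evR, evR, evR, ← List.range'_append_1, List.map_append, List.prod_append]

theorem evR_one (a x : ℕ) : P.evR κ a 1 x = κ a ^ dig P.B x a := by simp [evR]

theorem map_evR {Q' : Type*} [Group Q'] (f : Q →* Q') (a l x : ℕ) :
    f (P.evR κ a l x) = P.evR (fun i => f (κ i)) a l x := by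
  rw [evR, evR, map_list_prod, List.map_map]
  exact congrArg List.prod (List.map_congr_left fun i _ => map_pow f _ _)

theorem commute_evR {q : Q} {a l : ℕ} (x : ℕ) (h : ∀ i, a ≤ i → i < a + l → Commute q (κ i)) :
    Commute q (P.evR κ a l x) :=
  Subgroup.mem_centralizer_iff.mp (evR_mem (Subgroup.centralizer {q}) fun i h1 h2 =>
    Or.inr (Subgroup.mem_centralizer_iff.mpr fun _ hq => hq ▸ h i h1 h2)) q rfl

theorem evR_mul {a l x y z : ℕ}
    (hc : ∀ i j, a ≤ i → i < a + l → a ≤ j → j < a + l → Commute (κ i) (κ j))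
    (h : ∀ i, a ≤ i → i < a + l → κ i ^ dig P.B z i = κ i ^ dig P.B x i * κ i ^ dig P.B y i) :
    P.evR κ a l z = P.evR κ a l x * P.evR κ a l y := by
  induction l with
  | zero => simp [evR]
  | succ l ih =>
    have h1 : Commute (κ (a + l) ^ dig P.B x (a + l)) (P.evR κ a l y) :=
      (commute_evR y fun i h1 h2 => hc _ i (by omega) (by omega) h1 (by omega)).pow_left _
    rw [evR_add, evR_add, evR_add, evR_one, evR_one, evR_one, h _ (by omega) (by omega),
      ih (fun i j h1 h2 h3 h4 => hc i j h1 (by omega) h3 (by omega))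
        fun i h1 h2 => h i h1 (by omega), h1.symm.mul_mul_mul_comm]

theorem ev_split {k : ℕ} (hk : k ≤ P.N) (x : ℕ) :
    P.ev κ x = P.evR κ 0 k x * P.evR κ k (P.N - k) x := by
  have := evR_add (P := P) (κ := κ) 0 k (P.N - k) x
  rwa [Nat.add_sub_cancel' hk, zero_add] at this

theorem evR_split {a k : ℕ} (ha : a ≤ k) (hk : k ≤ P.N) (x : ℕ) :
    P.evR κ a (P.N - a) x = P.evR κ a (k - a) x * P.evR κ k (P.N - k) x := by
  have := evR_add (P := P) (κ := κ) a (k - a) (P.N - k) x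
  rwa [Nat.add_sub_cancel' ha, show k - a + (P.N - k) = P.N - a by omega] at this

theorem ev_zero : P.ev κ 0 = 1 := evR_eq_one fun _ _ _ => Or.inl (dig_zero _ _)

theorem nr_zero (hP : P.OK) : P.Nr 0 :=
  ⟨pow_pos (by linarith [hP.hB]) _, fun i => by rw [dig_zero]; linarith [hP.p2]⟩

theorem nr_pow (hP : P.OK) {k : ℕ} (hk : k < P.N) : P.Nr (P.B ^ k) :=
  ⟨Nat.pow_lt_pow_right hP.hB hk, fun i => by
    have := hP.p2
    rw [dig_pow hP.hB]; split_ifs <;> omega⟩

theorem ev_pow (hP : P.OK) {k : ℕ} (hk : k < P.N) : P.ev κ (P.B ^ k) = κ k := by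
  rw [ev_split hk.le, evR_split (Nat.le_succ k) hk, Nat.succ_sub (le_refl k), Nat.sub_self,
    evR_one, evR_eq_one, evR_eq_one, dig_pow hP.hB, if_pos rfl, pow_one, one_mul, mul_one] <;>
    exact fun i h1 h2 => Or.inl (by rw [dig_pow hP.hB, if_neg (by omega)])

/-- concatenation -/
theorem ev_add_of_lt (hP : P.OK) {x y k : ℕ} (hx : x < P.B ^ k) (hy : P.B ^ k ∣ y) :
    P.ev κ (x + y) = P.ev κ x * P.ev κ y := by
  have h1 := dig_add_of_lt hP.hB hx hy
  have h2 := (lt_iff_dig hP.hB x k).mp hx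
  have h3 := (dvd_iff_dig hP.hB y k).mp hy
  rcases le_total k P.N with hk | hk
  · rw [ev_split hk, ev_split hk x, ev_split hk y,
      evR_congr (a := 0) (y := x) fun i _ h => by rw [h1, if_pos (by omega)],
      evR_congr (a := k) (x := x + y) (y := y) fun i h _ => by rw [h1, if_neg (by omega)],
      evR_eq_one (a := k) (x := x) fun i h _ => Or.inl (h2 i h),
      evR_eq_one (a := 0) (x := y) fun i _ h => Or.inl (h3 i (by omega)), mul_one, one_mul]
  · rw [ev, ev, ev, evR_eq_one (x := y) fun i _ h => Or.inl (h3 i (by omega)), mul_one]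
    exact evR_congr fun i _ h => by rw [h1, if_pos (by omega)]

theorem nr_of_dig (hP : P.OK) {x : ℕ} (h1 : ∀ i, P.N ≤ i → dig P.B x i = 0)
    (h2 : ∀ i, dig P.B x i < P.p) : P.Nr x := ⟨(lt_iff_dig hP.hB x _).mpr h1, h2⟩

theorem Nr.top (hP : P.OK) {x : ℕ} (h : P.Nr x) {i : ℕ} (hi : P.N ≤ i) : dig P.B x i = 0 :=
  (lt_iff_dig hP.hB x _).mp h.1 i hi

theorem nr_add_of_lt (hP : P.OK) {x y k : ℕ} (hx : x < P.B ^ k) (hy : P.B ^ k ∣ y) (nx : P.Nr x)
    (ny : P.Nr y) : P.Nr (x + y) := by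
  refine nr_of_dig hP (fun i hi => ?_) fun i => ?_ <;> rw [dig_add_of_lt hP.hB hx hy] <;> split_ifs
  exacts [nx.top hP hi, ny.top hP hi, nx.2 i, ny.2 i]

theorem nr_of_dig_le (hP : P.OK) {x y : ℕ} (ny : P.Nr y) (h : ∀ i, dig P.B x i ≤ dig P.B y i) :
    P.Nr x :=
  nr_of_dig hP (fun i hi => Nat.le_zero.mp ((h i).trans_eq (ny.top hP hi)))
    fun i => (h i).trans_lt (ny.2 i)

/-- removing the first letter -/
theorem ev_sub_pow (hP : P.OK) {a h : ℕ} (hh : h < P.N) (h1 : P.B ^ h ∣ a) (h2 : dig P.B a h ≠ 0) :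
    P.ev κ a = κ h * P.ev κ (a - P.B ^ h) := by
  have h3 := (dvd_iff_dig hP.hB a h).mp h1
  have h4 := dig_sub_pow hP.hB h2
  rw [ev_split hh.le, ev_split hh.le, evR_split (Nat.le_succ h) hh, evR_split (Nat.le_succ h) hh,
    Nat.succ_sub (le_refl h), Nat.sub_self, evR_one, evR_one,
    evR_eq_one (a := 0) (x := a) fun i _ h => Or.inl (h3 i (by omega)),
    evR_eq_one (a := 0) fun i _ h => Or.inl (by rw [h4, if_neg (by omega), h3 i (by omega)]),
    evR_congr (x := a - P.B ^ h) (y := a) fun i h _ => by rw [h4, if_neg (by omega)],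
    h4, if_pos rfl, one_mul, one_mul, ← mul_assoc, ← pow_succ', Nat.sub_add_cancel (by omega)]

theorem nr_add (hP : P.OK) {x y : ℕ} (nx : P.Nr x) (ny : P.Nr y) : P.Nr (P.add x y) :=
  ⟨(hP.add_ok x y nx ny).1, fun i => by
    rw [(hP.add_ok x y nx ny).2]; exact Nat.mod_lt _ (by linarith [hP.p2])⟩

theorem dvd_add' (hP : P.OK) {x y k : ℕ} (nx : P.Nr x) (ny : P.Nr y) (hx : P.B ^ k ∣ x)
    (hy : P.B ^ k ∣ y) : P.B ^ k ∣ P.add x y :=
  (dvd_iff_dig hP.hB _ k).mpr fun i hi => by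
    rw [(hP.add_ok x y nx ny).2, (dvd_iff_dig hP.hB x k).mp hx i hi,
      (dvd_iff_dig hP.hB y k).mp hy i hi, Nat.zero_mod]

/-- the shortcut: `u` has no letter in `[g, M g)` and `v` starts at `g` -/
theorem ev_add_short (hP : P.OK) {K : ℕ} (hc : P.Ctx κ K) {u v g : ℕ} (hg : g < P.N) (nu : P.Nr u)
    (nv : P.Nr v) (hv : P.B ^ g ∣ v) (hu : ∀ i, g ≤ i → i < P.M g → dig P.B u i = 0) :
    P.ev κ (P.add u v) = P.ev κ u * P.ev κ v := by
  obtain ⟨m1, m2, m3, -, m5⟩ := hP.M_ok g hg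
  have h1 := (hP.add_ok u v nu nv).2
  have h2 := (dvd_iff_dig hP.hB v g).mp hv
  have hcm : ∀ i j, g ≤ i → i < P.N → P.M g ≤ j → j < P.N → Commute (κ i) (κ j) :=
    fun i j a1 a2 a3 a4 => hc.comm i j a2 a4 (by linarith [hP.w_le a1 a2, hP.w_le a3 a4])
  have h3 : Commute (P.evR κ (P.M g) (P.N - P.M g) u) (P.evR κ g (P.M g - g) v) :=
    commute_evR v fun i a1 a2 => (commute_evR u fun j a3 a4 =>
      hcm i j a1 (by omega) a3 (by omega)).symm
  rw [ev_split hg.le, ev_split hg.le u, ev_split hg.le v, evR_split m1 m3.le, evR_split m1 m3.le u,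
    evR_split m1 m3.le v,
    evR_congr (a := 0) (y := u) fun i _ h => by
      rw [h1, h2 i (by omega), add_zero, Nat.mod_eq_of_lt (nu.2 i)],
    evR_congr (a := g) (x := P.add u v) (y := v) fun i a1 a2 => by
      rw [h1, hu i a1 (by omega), zero_add, Nat.mod_eq_of_lt (nv.2 i)],
    evR_mul (a := P.M g) (z := P.add u v) (x := u) (y := v)
      (fun i j a1 a2 a3 a4 => hcm i j (by omega) (by omega) a3 (by omega))
      fun i a1 a2 => by
        rw [h1, ← pow_eq_pow_mod _ (hc.dpow i (by omega) (by omega)), pow_add],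
    evR_eq_one (a := g) (x := u) fun i a1 a2 => Or.inl (hu i a1 (by omega)),
    evR_eq_one (a := 0) (x := v) fun i _ h => Or.inl (h2 i (by omega)), one_mul, one_mul,
    mul_assoc, h3.left_comm]

theorem ev_add_deep (hP : P.OK) {K : ℕ} (hc : P.Ctx κ K) {u v : ℕ} (nu : P.Nr u) (nv : P.Nr v)
    (hv : P.B ^ P.nd ∣ v) : P.ev κ (P.add u v) = P.ev κ u * P.ev κ v := by
  have h := hP.ndn.trans_lt hP.nN
  refine ev_add_short hP hc h nu nv hv fun i h1 h2 => ?_
  rw [(hP.M_ok _ h).2.2.2.1 le_rfl] at h2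
  omega

end Pool.Agent.Lib.MP_0813d1_al.PC.Par
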