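import Mathlib
import Pool.Agent.Lib.MP_0813d1_al.PCEv

namespace Pool.Agent.Lib.MP_0813d1_al.PC

theorem grd_eq_cb (F : ℕ) (f : ℕ → ℕ → ℕ) (r a : ℕ) :
    grd F f r a = if r = F then F else f r a := by
  unfold grd
  by_cases h : r = F
  · have hb : Nat.beq r F = true := Nat.beq_eq ▸ h
    rw [if_pos h, hb]
  · rw [if_neg h]
    cases hb : Nat.beq r F with
    | false => rfl
    | true => exact absurd (Nat.eq_of_beq_eq_true hb) h

theorem rec_ite_cb (a b x : ℕ) :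
    (Nat.rec (motive := fun _ => ℕ) a (fun _ _ => b) x : ℕ) = if x = 0 then a else b := by
  cases x <;> simp

theorem cstp_zero_cb (add : Op) (nxt : ℕ → ℕ) (m : ℕ) (T : Tab) (ih : CL) (mul : Op)
    (kt r a : ℕ) (h : (a - nxt a) % m = 0) : cstp add nxt m T ih mul kt r a = r := by
  unfold cstp
  have h' : Nat.mod (Nat.sub a (nxt a)) m = 0 := h
  rw [h']
  rfl

theorem cstp_succ_cb (add : Op) (nxt : ℕ → ℕ) (m : ℕ) (T : Tab) (ih : CL) (mul : Op)
    (kt r a kh : ℕ) (h : (a - nxt a) % m = kh + 1) :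
    cstp add nxt m T ih mul kt r a =
      if Nat.land r (T.msk kh) = 0 then ih mul kt (add r (T.ent kt kh)) (nxt a)
      else grd T.F (ih mul kt) (mul r (T.ent kt kh)) (nxt a) := by
  unfold cstp
  have h' : Nat.mod (Nat.sub a (nxt a)) m = kh + 1 := h
  rw [h', ← rec_ite_cb]

theorem mstp_zero_cb (add : Op) (nxt : ℕ → ℕ) (m : ℕ) (T : Tab) (cl : CL) (ih : Op → Op) (mul : Op)
    (u v : ℕ) (h : (v - nxt v) % m = 0) : mstp add nxt m T cl ih mul u v = u := by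
  unfold mstp
  have h' : Nat.mod (Nat.sub v (nxt v)) m = 0 := h
  rw [h']
  rfl

theorem mstp_succ_cb (add : Op) (nxt : ℕ → ℕ) (m : ℕ) (T : Tab) (cl : CL) (ih : Op → Op) (mul : Op)
    (u v kt : ℕ) (h : (v - nxt v) % m = kt + 1) :
    mstp add nxt m T cl ih mul u v =
      if Nat.land u (T.msk kt) = 0 then add u v
      else grd T.F (ih mul) (mgen cl T mul kt u (Nat.land u (T.him kt))) (nxt v) := by
  unfold mstp
  have h' : Nat.mod (Nat.sub v (nxt v)) m = kt + 1 := h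
  rw [h', ← rec_ite_cb]

theorem conj1_eq_cb (cl : CL) (T : Tab) (mul : Op) (kt lo a : ℕ) :
    conj1 cl T mul kt lo a = if a = 0 then lo else grd T.F mul (cl mul kt 0 a) (lo - a) := by
  cases a with
  | zero => rfl
  | succ ka => rw [if_neg (Nat.succ_ne_zero ka)]; rfl

theorem mfin_eq_cb (T : Tab) (mul : Op) (kt c hi : ℕ) :
    mfin T mul kt c hi =
      if T.pg kt ≤ hi then grd T.F Nat.add (mul (T.pw kt) c) (hi - T.pg kt) else hi + c := by
  unfold mfin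
  by_cases h : T.pg kt ≤ hi
  · rw [if_pos h, Nat.ble_eq_true_of_le h]; rfl
  · rw [if_neg h]
    cases hb : Nat.ble (T.pg kt) hi with
    | false => rfl
    | true => exact absurd (Nat.le_of_ble_eq_true hb) h

theorem mgen_eq_cb (cl : CL) (T : Tab) (mul : Op) (kt u hi : ℕ) :
    mgen cl T mul kt u hi =
      grd T.F (mfin T mul kt) (conj cl T mul kt (u - hi)) (hi + T.g kt) := rfl

theorem conjTop_eq_cb (cl : CL) (T : Tab) (mul : Op) (kK kt x : ℕ) :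
    conjTop cl T mul kK kt x =
      if Nat.land x (T.him kK) = T.g kK then
        grd T.F (fun c e => mul e c) (conj cl T mul kt (x - T.g kK)) (T.ent kt kK)
      else T.F := by
  unfold conjTop
  by_cases h : Nat.land x (T.him kK) = T.g kK
  · have hb : Nat.beq (Nat.land x (T.him kK)) (T.g kK) = true := Nat.beq_eq ▸ h
    rw [if_pos h, hb]; rfl
  · rw [if_neg h]
    cases hb : Nat.beq (Nat.land x (T.him kK)) (T.g kK) with
    | false => rfl
    | true => exact absurd (Nat.eq_of_beq_eq_true hb) h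

namespace Par

variable {P : Par} {Q : Type*} [Group Q] {κ : ℕ → Q}

/-- specification of the conjugation loop -/
def CLOK_cb (P : Par) (κ : ℕ → Q) (K : ℕ) (cl : CL) : Prop :=
  ∀ mul, P.MulOK κ K mul → ∀ t, t < P.n → ∀ r a, P.Nr r → P.Nr a → P.B ^ K ∣ a →
    (∀ i, dig P.B a i ≠ 0 → t < i ∧ i < P.cut t) →
    cl mul (P.key t) r a = P.T.F ∨
      (P.Nr (cl mul (P.key t) r a) ∧
        P.ev κ (cl mul (P.key t) r a) = P.ev κ r * ((κ t)⁻¹ * P.ev κ a * κ t) ∧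
        ∀ k, P.B ^ k ∣ r → P.B ^ k ∣ a → P.B ^ k ∣ cl mul (P.key t) r a)

theorem le_of_dvd_dig_cb (hP : P.OK) {a h k : ℕ} (h1 : P.B ^ k ∣ a) (h2 : dig P.B a h ≠ 0) :
    k ≤ h := by
  by_contra hlt
  exact h2 ((dvd_iff_dig hP.hB a k).1 h1 h (by omega))

theorem lt_N_of_dig_cb (hP : P.OK) {a h : ℕ} (na : P.Nr a) (h2 : dig P.B a h ≠ 0) : h < P.N := by
  by_contra hlt
  exact h2 ((lt_iff_dig hP.hB a P.N).1 na.1 h (by omega))

/-- the first letter of a nonempty word -/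
theorem first_letter_cb (hP : P.OK) {a : ℕ} (na : P.Nr a) (ha : a ≠ 0) :
    ∃ h, h < P.N ∧ P.B ^ h ∣ a ∧ dig P.B a h ≠ 0 ∧ P.nxt a = a - P.B ^ h ∧
      (a - P.nxt a) % P.m = P.key h + 1 := by
  obtain ⟨h, h1, h2, h3⟩ := hP.nxt_ok.2 a na ha
  have hN := lt_N_of_dig_cb hP na h2
  refine ⟨h, hN, h1, h2, h3, ?_⟩
  have hle := pow_le_of_dig hP.hB h2
  have : a - P.nxt a = P.B ^ h := by rw [h3]; omega
  rw [this]
  have := hP.key_ne h hN
  unfold key
  omega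

theorem nxt_zero_mod_cb (_hP : P.OK) : (0 - P.nxt 0) % P.m = 0 := by simp

theorem nr_sub_pow_cb (hP : P.OK) {a h : ℕ} (na : P.Nr a) (h2 : dig P.B a h ≠ 0) :
    P.Nr (a - P.B ^ h) := by
  refine nr_of_dig_le hP na fun i => ?_
  rw [dig_sub_pow hP.hB h2]
  split_ifs with hi
  · subst hi; omega
  · exact le_rfl

theorem mask_zero_cb (hP : P.OK) {r h : ℕ} (hh : h < P.N)
    (hz : Nat.land r (P.T.msk (P.key h)) = 0) :
    ∀ i, h ≤ i → i < P.M h → dig P.B r i = 0 := by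
  intro i h1 h2
  rw [hP.msk_eq h hh] at hz
  have := dig_land_mask (β := P.β) hP.hB r (hP.M_ok h hh).1 i
  rw [if_pos ⟨h1, h2⟩] at this
  have hz' : Nat.land r ((2 ^ P.β) ^ P.M h - (2 ^ P.β) ^ h) = 0 := hz
  rw [hz', dig_zero] at this
  exact this.symm

theorem E_dvd_cb (hP : P.OK) {t h : ℕ} (hh : h < P.n) (ht : t < h) (hc : h < P.cut t) :
    P.B ^ h ∣ P.E t h := by
  have h1 := (hP.E_ok h hh t ht hc).2
  have h2 := Nat.div_add_mod (P.E t h) (P.B ^ (h + 1))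
  rw [h1] at h2
  rw [← h2]
  exact dvd_add (Dvd.dvd.mul_right (pow_dvd_pow _ (Nat.le_succ h)) _) dvd_rfl

theorem clok_step_cb (hP : P.OK) {K : ℕ} (hc : P.Ctx κ K) {ih : CL} (hih : P.CLOK_cb κ K ih) :
    P.CLOK_cb κ K (cstp P.add P.nxt P.m P.T ih) := by
  intro mul hmul t ht r a nr na hK hdig
  by_cases ha : a = 0
  · subst ha
    rw [cstp_zero_cb _ _ _ _ _ _ _ _ _ (nxt_zero_mod_cb hP)]
    right
    refine ⟨nr, ?_, fun k hk _ => hk⟩
    rw [ev_zero]; group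
  obtain ⟨h, hN, h1, h2, h3, h4⟩ := first_letter_cb hP na ha
  obtain ⟨hth, hcut⟩ := hdig h h2
  have hn : h < P.n := lt_of_lt_of_le hcut (hP.cut_ok t ht).2.1
  have hKh : K ≤ h := le_of_dvd_dig_cb hP hK h2
  have nE : P.Nr (P.E t h) := hP.nrm_ok _ (hP.E_ok h hn t hth hcut).1
  have dE : P.B ^ h ∣ P.E t h := E_dvd_cb hP hn hth hcut
  have eE := hc.conj t h hth hn hKh hcut
  have na' : P.Nr (a - P.B ^ h) := nr_sub_pow_cb hP na h2
  have hK' : P.B ^ K ∣ a - P.B ^ h := Nat.dvd_sub hK (pow_dvd_pow _ hKh)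
  have hdig' : ∀ i, dig P.B (a - P.B ^ h) i ≠ 0 → t < i ∧ i < P.cut t := by
    intro i hi
    rw [dig_sub_pow hP.hB h2] at hi
    split_ifs at hi with hih
    · subst hih; exact ⟨hth, hcut⟩
    · exact hdig i hi
  have key : ∀ r', P.Nr r' → P.ev κ r' = P.ev κ r * P.ev κ (P.E t h) →
      (∀ k, P.B ^ k ∣ r → P.B ^ k ∣ P.E t h → P.B ^ k ∣ r') →
      ih mul (P.key t) r' (a - P.B ^ h) = P.T.F ∨
        (P.Nr (ih mul (P.key t) r' (a - P.B ^ h)) ∧
          P.ev κ (ih mul (P.key t) r' (a - P.B ^ h)) =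
            P.ev κ r * ((κ t)⁻¹ * P.ev κ a * κ t) ∧
          ∀ k, P.B ^ k ∣ r → P.B ^ k ∣ a → P.B ^ k ∣ ih mul (P.key t) r' (a - P.B ^ h)) := by
    intro r' nr' er' dr'
    rcases hih mul hmul t ht r' (a - P.B ^ h) nr' na' hK' hdig' with hF | ⟨g1, g2, g3⟩
    · exact Or.inl hF
    · right
      refine ⟨g1, ?_, fun k k1 k2 => ?_⟩
      · rw [g2, er', ← eE, ev_sub_pow hP hN h1 h2]; group
      · have hk : k ≤ h := le_of_dvd_dig_cb hP k2 h2
        exact g3 k (dr' k k1 ((pow_dvd_pow _ hk).trans dE)) (Nat.dvd_sub k2 (pow_dvd_pow _ hk))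
  have hE : P.T.ent (P.key t) (P.key h) = P.E t h := rfl
  rw [cstp_succ_cb _ _ _ _ _ _ _ _ _ _ h4, h3, hE]
  split_ifs with hz
  · exact key _ (nr_add hP nr nE) (ev_add_short hP hc hN nr nE dE (mask_zero_cb hP hN hz))
      fun k k1 k2 => dvd_add' hP nr nE k1 k2
  · rw [grd_eq_cb]
    split_ifs with hF
    · exact Or.inl rfl
    · rcases hmul r (P.E t h) nr nE ((pow_dvd_pow _ hKh).trans dE) with hF' | ⟨g1, g2, g3⟩
      · exact absurd hF' hF
      · exact key _ g1 g2 g3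

theorem clok_of_isCL_cb (hP : P.OK) {K : ℕ} (hc : P.Ctx κ K) {cl : CL}
    (h : IsCL P.add P.nxt P.m P.T cl) : P.CLOK_cb κ K cl := by
  induction h with
  | base => intro mul _ t _ r a _ _ _ _; exact Or.inl rfl
  | step _ ih => exact clok_step_cb hP hc ih

theorem nr_mod_cb (hP : P.OK) {x : ℕ} (nx : P.Nr x) (k : ℕ) : P.Nr (x % P.B ^ k) := by
  refine nr_of_dig_le hP nx fun i => ?_
  rw [dig_mod hP.hB]
  split_ifs <;> omega

theorem nr_sub_mod_cb (hP : P.OK) {x : ℕ} (nx : P.Nr x) (k : ℕ) : P.Nr (x - x % P.B ^ k) := by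
  refine nr_of_dig_le hP nx fun i => ?_
  rw [dig_sub_mod hP.hB]
  split_ifs <;> omega

theorem dvd_mod_pow_cb (hP : P.OK) {x j : ℕ} (h : P.B ^ j ∣ x) (k : ℕ) : P.B ^ j ∣ x % P.B ^ k := by
  rw [dvd_iff_dig hP.hB] at h ⊢
  intro i hi
  rw [dig_mod hP.hB]
  split_ifs
  · exact h i hi
  · rfl

theorem ev_split_cb (hP : P.OK) (x k : ℕ) :
    P.ev κ x = P.ev κ (x % P.B ^ k) * P.ev κ (x - x % P.B ^ k) := by
  have hpos : 0 < P.B ^ k := pow_pos (by have := hP.hB; omega) k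
  rw [← ev_add_of_lt hP (Nat.mod_lt x hpos) (Nat.dvd_sub_mod x)]
  congr 1
  have := Nat.mod_le x (P.B ^ k)
  omega

theorem comm_rest_cb (hP : P.OK) {K : ℕ} (hc : P.Ctx κ K) {t x : ℕ} (ht : t < P.n)
    (hx : P.B ^ P.cut t ∣ x) : Commute (κ t) (P.ev κ x) := by
  have hmem : P.ev κ x ∈ Subgroup.centralizer {κ t} := by
    refine evR_mem _ fun i _ hi => ?_
    by_cases hci : i < P.cut t
    · exact Or.inl ((dvd_iff_dig hP.hB x _).1 hx i hci)
    · right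
      rw [Subgroup.mem_centralizer_singleton_iff]
      have h1 := hP.cut_ok t ht
      have h2 := hP.nN
      have h3 : P.w (P.cut t) ≤ P.w i := hP.w_le (by omega) (by omega)
      exact (hc.comm i t (by omega) (by omega) (by omega)).eq
  exact (Subgroup.mem_centralizer_singleton_iff.1 hmem).symm

theorem conj_gen_cb (hP : P.OK) {K : ℕ} (hc : P.Ctx κ K) {mul : Op} (hmul : P.MulOK κ K mul)
    {t lo : ℕ} (ht : t < P.n) (nl : P.Nr lo) (h1 : P.B ^ K ∣ lo) (h2 : P.B ^ (t + 1) ∣ lo) :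
    conj P.cl P.T mul (P.key t) lo = P.T.F ∨
      (P.Nr (conj P.cl P.T mul (P.key t) lo) ∧
        P.ev κ (conj P.cl P.T mul (P.key t) lo) = (κ t)⁻¹ * P.ev κ lo * κ t ∧
        ∀ k, P.B ^ k ∣ lo → P.B ^ k ∣ conj P.cl P.T mul (P.key t) lo) := by
  have hcut := hP.cut_ok t ht
  have ha : Nat.land lo (P.T.act (P.key t)) = lo % P.B ^ P.cut t := by
    rw [hP.act_eq t ht]
    refine dig_ext hP.hB fun i => ?_
    have := dig_land_mask (β := P.β) hP.hB lo (show t + 1 ≤ P.cut t from hcut.1) i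
    refine this.trans ?_
    rw [dig_mod hP.hB]
    by_cases hi : i < P.cut t
    · rw [if_pos hi]
      split_ifs with hi'
      · rfl
      · exact ((dvd_iff_dig hP.hB lo _).1 h2 i (by omega)).symm
    · rw [if_neg hi, if_neg (fun h => hi h.2)]
  have hrest : P.B ^ P.cut t ∣ lo - lo % P.B ^ P.cut t := Nat.dvd_sub_mod lo
  have hcomm := comm_rest_cb hP hc ht hrest
  have hsplit := ev_split_cb (κ := κ) hP lo (P.cut t)
  unfold conj
  rw [ha, conj1_eq_cb]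
  split_ifs with h0
  · right
    refine ⟨nl, ?_, fun k hk => hk⟩
    rw [h0, Nat.sub_zero] at hcomm
    rw [mul_assoc, ← hcomm.eq]; group
  rw [grd_eq_cb]
  split_ifs with hF
  · exact Or.inl rfl
  have hdig : ∀ i, dig P.B (lo % P.B ^ P.cut t) i ≠ 0 → t < i ∧ i < P.cut t := by
    intro i hi
    rw [dig_mod hP.hB] at hi
    split_ifs at hi with hi'
    · exact ⟨le_of_dvd_dig_cb hP h2 hi, hi'⟩
    · exact absurd rfl hi
  rcases clok_of_isCL_cb hP hc hP.cl_ok mul hmul t ht 0 _ (nr_zero hP) (nr_mod_cb hP nl _)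
    (dvd_mod_pow_cb hP h1 _) hdig with hF' | ⟨g1, g2, g3⟩
  · exact absurd hF' hF
  rcases hmul _ _ g1 (nr_sub_mod_cb hP nl (P.cut t)) (Nat.dvd_sub h1 (dvd_mod_pow_cb hP h1 _)) with
    hF' | ⟨e1, e2, e3⟩
  · exact Or.inl hF'
  right
  refine ⟨e1, ?_, fun k hk => ?_⟩
  · rw [e2, g2, ev_zero, one_mul]
    conv_rhs => rw [hsplit]
    rw [mul_assoc _ (κ t), hcomm.eq]; group
  · exact e3 k (g3 k (dvd_zero _) (dvd_mod_pow_cb hP hk _)) (Nat.dvd_sub hk (dvd_mod_pow_cb hP hk _))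

theorem nr_mul_pow_cb (hP : P.OK) {d t : ℕ} (hd : d < P.p) (ht : t < P.N) : P.Nr (d * P.B ^ t) := by
  have hdB : d < P.B := lt_of_lt_of_le hd hP.pB
  refine ⟨(lt_iff_dig hP.hB _ _).2 fun i hi => ?_, fun i => ?_⟩
  · rw [dig_mul_pow hP.hB hdB, if_neg (by omega)]
  · rw [dig_mul_pow hP.hB hdB]
    have := hP.p2
    split_ifs <;> omega

theorem ev_mul_pow_cb (hP : P.OK) {d t : ℕ} (hd : d < P.B) (ht : t < P.N) :
    P.ev κ (d * P.B ^ t) = κ t ^ d := by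
  induction d with
  | zero => rw [zero_mul, ev_zero, pow_zero]
  | succ d ih =>
    have h2 : dig P.B ((d + 1) * P.B ^ t) t ≠ 0 := by
      rw [dig_mul_pow hP.hB hd, if_pos rfl]; omega
    rw [ev_sub_pow hP ht (Dvd.intro_left _ rfl) h2, add_mul, one_mul, Nat.add_sub_cancel,
      ih (by omega), pow_succ']

theorem mgen_ok_cb (hP : P.OK) {K : ℕ} (hc : P.Ctx κ K) {mul : Op} (hmul : P.MulOK κ K mul)
    {t u : ℕ} (ht : t < P.nd) (hK : K ≤ t) (nu : P.Nr u) :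
    mgen P.cl P.T mul (P.key t) u (Nat.land u (P.T.him (P.key t))) = P.T.F ∨
      (P.Nr (mgen P.cl P.T mul (P.key t) u (Nat.land u (P.T.him (P.key t)))) ∧
        P.ev κ (mgen P.cl P.T mul (P.key t) u (Nat.land u (P.T.him (P.key t)))) =
          P.ev κ u * κ t ∧
        ∀ k, k ≤ t → P.B ^ k ∣ u →
          P.B ^ k ∣ mgen P.cl P.T mul (P.key t) u (Nat.land u (P.T.him (P.key t)))) := by
  have hn : t < P.n := lt_of_lt_of_le ht hP.ndn
  have hN : t < P.N := hn.trans hP.nN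
  have hB := hP.hB
  have hhi : Nat.land u (P.T.him (P.key t)) = u % P.B ^ (t + 1) := by
    rw [hP.him_eq t hN]; exact land_low P.β u (t + 1)
  have hpos : 0 < P.B ^ t := pow_pos (by omega) t
  have hlow : u % P.B ^ t < P.B ^ t := Nat.mod_lt u hpos
  have hd : dig P.B u t < P.p := nu.2 t
  have hpB := hP.pB
  have hsp := mod_pow_succ_eq hB u t
  have dlo : P.B ^ (t + 1) ∣ u - u % P.B ^ (t + 1) := Nat.dvd_sub_mod u
  have dlK : P.B ^ K ∣ u - u % P.B ^ (t + 1) := (pow_dvd_pow _ (by omega)).trans dlo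
  have hev : P.ev κ u = P.ev κ (u % P.B ^ t) * κ t ^ dig P.B u t *
      P.ev κ (u - u % P.B ^ (t + 1)) := by
    rw [ev_split_cb hP u (t + 1)]
    congr 1
    rw [hsp, ev_add_of_lt hP hlow (Dvd.intro_left _ rfl), ev_mul_pow_cb hP (by omega) hN]
  rw [hhi, mgen_eq_cb, grd_eq_cb]
  split_ifs with hF
  · exact Or.inl rfl
  rcases conj_gen_cb hP hc hmul hn (nr_sub_mod_cb hP nu (t + 1)) dlK dlo with hF' | ⟨g1, g2, g3⟩
  · exact absurd hF' hF
  set c := conj P.cl P.T mul (P.key t) (u - u % P.B ^ (t + 1)) with hcdef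
  have hsum : u % P.B ^ (t + 1) + P.B ^ t = u % P.B ^ t + (dig P.B u t + 1) * P.B ^ t := by
    rw [hsp]; ring
  rw [mfin_eq_cb, hP.g_eq t hN, hP.pg_eq t hN, hsum]
  split_ifs with hle
  · have hp : dig P.B u t + 1 = P.p := by
      by_contra hne
      have h1 : dig P.B u t + 2 ≤ P.p := by omega
      have h2 : (dig P.B u t + 2) * P.B ^ t ≤ P.p * P.B ^ t := Nat.mul_le_mul_right _ h1
      have h3 : (dig P.B u t + 2) * P.B ^ t = (dig P.B u t + 1) * P.B ^ t + P.B ^ t := by ring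
      omega
    rw [hp, Nat.add_sub_cancel, grd_eq_cb]
    split_ifs with hF2
    · exact Or.inl rfl
    have nW : P.Nr (P.W t) := hP.nrm_ok _ (hP.W_ok t ht).1
    have dW : P.B ^ (t + 1) ∣ P.W t := Nat.dvd_of_mod_eq_zero (hP.W_ok t ht).2
    rcases hmul (P.W t) c nW g1 (g3 K dlK) with hF' | ⟨e1, e2, e3⟩
    · exact absurd hF' hF2
    have dm : P.B ^ t ∣ mul (P.W t) c :=
      (pow_dvd_pow _ (Nat.le_succ t)).trans (e3 _ dW (g3 _ dlo))
    right
    change P.Nr (mul (P.W t) c + u % P.B ^ t) ∧ P.ev κ (mul (P.W t) c + u % P.B ^ t) = _ ∧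
      ∀ k, k ≤ t → P.B ^ k ∣ u → P.B ^ k ∣ mul (P.W t) c + u % P.B ^ t
    rw [add_comm (mul (P.W t) c)]
    refine ⟨nr_add_of_lt hP hlow dm (nr_mod_cb hP nu t) e1, ?_, fun k hk k1 => ?_⟩
    · rw [ev_add_of_lt hP hlow dm, e2, ← hc.pow t ht, g2, ← hp, pow_succ]
      conv_rhs => rw [hev]
      group
    · exact dvd_add (dvd_mod_pow_cb hP k1 t) ((pow_dvd_pow _ hk).trans dm)
  · have hp : dig P.B u t + 1 < P.p := by
      by_contra hne
      have h1 : P.p ≤ dig P.B u t + 1 := by omega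
      have h2 : P.p * P.B ^ t ≤ (dig P.B u t + 1) * P.B ^ t := Nat.mul_le_mul_right _ h1
      exact hle (h2.trans (Nat.le_add_left _ _))
    have hlt : u % P.B ^ t + (dig P.B u t + 1) * P.B ^ t < P.B ^ (t + 1) := by
      have h2 : P.p * P.B ^ t ≤ P.B * P.B ^ t := Nat.mul_le_mul_right _ hpB
      rw [pow_succ' P.B t]
      omega
    have dc : P.B ^ (t + 1) ∣ c := g3 _ dlo
    right
    refine ⟨nr_add_of_lt hP hlt dc (nr_add_of_lt hP hlow (Dvd.intro_left _ rfl) (nr_mod_cb hP nu t)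
      (nr_mul_pow_cb hP hp hN)) g1, ?_, fun k hk k1 => ?_⟩
    · rw [ev_add_of_lt hP hlt dc, ev_add_of_lt hP hlow (Dvd.intro_left _ rfl),
        ev_mul_pow_cb hP (by omega) hN, g2, pow_succ]
      conv_rhs => rw [hev]
      group
    · exact dvd_add (dvd_add (dvd_mod_pow_cb hP k1 t) (Dvd.dvd.mul_left (pow_dvd_pow _ hk) _))
        ((pow_dvd_pow _ (by omega)).trans dc)

theorem mlok_step_cb (hP : P.OK) {K : ℕ} (hc : P.Ctx κ K) {ih : Op → Op} {mul : Op}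
    (hmul : P.MulOK κ K mul) (hih : P.MulOK κ K (ih mul)) :
    P.MulOK κ K (mstp P.add P.nxt P.m P.T P.cl ih mul) := by
  intro u v nu nv hK
  by_cases hv : v = 0
  · subst hv
    rw [mstp_zero_cb _ _ _ _ _ _ _ _ _ (nxt_zero_mod_cb hP)]
    right
    exact ⟨nu, by rw [ev_zero, mul_one], fun k hk _ => hk⟩
  obtain ⟨t, hN, h1, h2, h3, h4⟩ := first_letter_cb hP nv hv
  have hKt : K ≤ t := le_of_dvd_dig_cb hP hK h2
  rw [mstp_succ_cb _ _ _ _ _ _ _ _ _ _ h4, h3]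
  split_ifs with hz
  · right
    exact ⟨nr_add hP nu nv, ev_add_short hP hc hN nu nv h1 (mask_zero_cb hP hN hz),
      fun k k1 k2 => dvd_add' hP nu nv k1 k2⟩
  have ht : t < P.nd := by
    by_contra hge
    apply hz
    rw [hP.msk_eq t hN, (hP.M_ok t hN).2.2.2.1 (by omega), Nat.sub_self]
    exact Nat.and_zero u
  rw [grd_eq_cb]
  split_ifs with hF
  · exact Or.inl rfl
  rcases mgen_ok_cb hP hc hmul ht hKt nu with hF' | ⟨g1, g2, g3⟩
  · exact absurd hF' hF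
  rcases hih _ _ g1 (nr_sub_pow_cb hP nv h2) (Nat.dvd_sub hK (pow_dvd_pow _ hKt)) with
    hF' | ⟨e1, e2, e3⟩
  · exact Or.inl hF'
  right
  refine ⟨e1, ?_, fun k k1 k2 => ?_⟩
  · rw [e2, g2, ev_sub_pow hP hN h1 h2, mul_assoc]
  · have hk : k ≤ t := le_of_dvd_dig_cb hP k2 h2
    exact e3 k (g3 k hk k1) (Nat.dvd_sub k2 (pow_dvd_pow _ hk))

theorem mlok_of_isML_cb (hP : P.OK) {K : ℕ} (hc : P.Ctx κ K) {ml : Op → Op}
    (h : IsML P.add P.nxt P.m P.T P.cl ml) : ∀ mul, P.MulOK κ K mul → P.MulOK κ K (ml mul) := by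
  induction h with
  | base => intro mul _ u v _ _ _; exact Or.inl rfl
  | step _ ih => intro mul hmul; exact mlok_step_cb hP hc hmul (ih mul hmul)

theorem mulok_of_isMul_cb (hP : P.OK) {K : ℕ} (hc : P.Ctx κ K) {ml : Op → Op}
    (h : IsML P.add P.nxt P.m P.T P.cl ml) {mu : Op} (hm : IsMul P.T.F ml mu) :
    P.MulOK κ K mu := by
  induction hm with
  | base => intro u v _ _ _; exact Or.inl rfl
  | step _ ih => exact mlok_of_isML_cb hP hc h _ ih

theorem mul_ok (hP : P.OK) {K : ℕ} (hc : P.Ctx κ K) : P.MulOK κ K P.mul := by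
  obtain ⟨ml, h1, h2⟩ := hP.mul_ok
  exact mulok_of_isMul_cb hP hc h1 h2

theorem conj_ok (hP : P.OK) {K : ℕ} (hc : P.Ctx κ K) {t lo : ℕ} (ht : t < P.n) (nl : P.Nr lo)
    (h1 : P.B ^ K ∣ lo) (h2 : P.B ^ (t + 1) ∣ lo) :
    conj P.cl P.T P.mul (P.key t) lo = P.T.F ∨
      (P.Nr (conj P.cl P.T P.mul (P.key t) lo) ∧
        P.ev κ (conj P.cl P.T P.mul (P.key t) lo) = (κ t)⁻¹ * P.ev κ lo * κ t ∧
        ∀ k, P.B ^ k ∣ lo → P.B ^ k ∣ conj P.cl P.T P.mul (P.key t) lo) :=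
  conj_gen_cb hP hc (mul_ok hP hc) ht nl h1 h2

theorem conjTop_ok (hP : P.OK) {K : ℕ} (hc : P.Ctx κ (K + 1)) {t x : ℕ} (ht : t < K)
    (hK : K < P.n) (hcut : K < P.cut t) (nx : P.Nr x) :
    conjTop P.cl P.T P.mul (P.key K) (P.key t) x = P.T.F ∨
      (P.Nr (conjTop P.cl P.T P.mul (P.key K) (P.key t) x) ∧ ∃ r : Q, P.ev κ x = κ K * r ∧
        P.ev κ (conjTop P.cl P.T P.mul (P.key K) (P.key t) x) =
          P.ev κ (P.E t K) * ((κ t)⁻¹ * r * κ t)) := by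
  have hN : K < P.N := hK.trans hP.nN
  have hhi : Nat.land x (P.T.him (P.key K)) = x % P.B ^ (K + 1) := by
    rw [hP.him_eq K hN]; exact land_low P.β x (K + 1)
  rw [conjTop_eq_cb, hhi, hP.g_eq K hN]
  split_ifs with hx
  swap
  · exact Or.inl rfl
  have dlo : P.B ^ (K + 1) ∣ x - P.B ^ K := hx ▸ Nat.dvd_sub_mod x
  have nlo : P.Nr (x - P.B ^ K) := hx ▸ nr_sub_mod_cb hP nx (K + 1)
  have hev : P.ev κ x = κ K * P.ev κ (x - P.B ^ K) := by
    rw [ev_split_cb hP x (K + 1), hx, ev_pow hP hN]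
  rw [grd_eq_cb]
  split_ifs with hF
  · exact Or.inl rfl
  rcases conj_ok hP hc (ht.trans hK) nlo dlo ((pow_dvd_pow _ (by omega)).trans dlo) with
    hF' | ⟨g1, g2, g3⟩
  · exact absurd hF' hF
  have nE : P.Nr (P.E t K) := hP.nrm_ok _ (hP.E_ok K hK t ht hcut).1
  rcases mul_ok hP hc (P.E t K) _ nE g1 (g3 _ dlo) with hF' | ⟨e1, e2, _⟩
  · exact Or.inl hF'
  right
  exact ⟨e1, _, hev, by rw [← g2]; exact e2⟩

end Par

end Pool.Agent.Lib.MP_0813d1_al.PC
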