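import Mathlib
import Pool.Agent.Lib.MP_0813d1_al.PCColl

namespace Pool.Agent.Lib.MP_0813d1_al.PC

open scoped commutatorElement

section Fold

variable {Γ : Type*} [Group Γ]

theorem kstep_length_cc (p : ℕ) (acc : List Γ) (d : ℕ × ℕ × ℕ) :
    (kstep p acc d).length = acc.length + 1 := by simp [kstep]

theorem kstep_getD_lt_cc (p : ℕ) (acc : List Γ) (d : ℕ × ℕ × ℕ) {i : ℕ} (hi : i < acc.length) :
    (kstep p acc d).getD i 1 = acc.getD i 1 := by
  unfold kstep
  rw [List.getD_append _ _ _ _ hi]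

theorem kstep_getD_last_cc (p : ℕ) (acc : List Γ) (d : ℕ × ℕ × ℕ) :
    (kstep p acc d).getD acc.length 1 =
      if d.1 = 1 then acc.getD d.2.1 1 ^ p else cm (acc.getD d.2.1 1) (acc.getD d.2.2 1) := by
  unfold kstep
  rw [List.getD_append_right _ _ _ _ le_rfl, Nat.sub_self]
  rfl

theorem fold_length_cc (p : ℕ) (defs : List (ℕ × ℕ × ℕ)) :
    ∀ acc : List Γ, (defs.foldl (kstep p) acc).length = acc.length + defs.length := by
  induction defs with
  | nil => intro acc; rfl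
  | cons d l ih => intro acc; rw [List.foldl_cons, ih, kstep_length_cc, List.length_cons]; omega

theorem fold_getD_lt_cc (p : ℕ) (defs : List (ℕ × ℕ × ℕ)) :
    ∀ (acc : List Γ) (i : ℕ), i < acc.length →
      (defs.foldl (kstep p) acc).getD i 1 = acc.getD i 1 := by
  induction defs with
  | nil => intro acc i _; rfl
  | cons d l ih =>
    intro acc i hi
    rw [List.foldl_cons, ih _ i (by rw [kstep_length_cc]; omega), kstep_getD_lt_cc _ _ _ hi]

theorem fold_getD_def_cc (p : ℕ) (defs : List (ℕ × ℕ × ℕ)) :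
    ∀ (acc : List Γ) (j : ℕ) (d : ℕ × ℕ × ℕ), j < defs.length → defs.getD j (0, 0, 0) = d →
      d.2.1 < acc.length + j → (d.1 ≠ 1 → d.2.2 < acc.length + j) →
      (defs.foldl (kstep p) acc).getD (acc.length + j) 1 =
        if d.1 = 1 then (defs.foldl (kstep p) acc).getD d.2.1 1 ^ p
        else cm ((defs.foldl (kstep p) acc).getD d.2.1 1)
          ((defs.foldl (kstep p) acc).getD d.2.2 1) := by
  induction defs with
  | nil => intro acc j d hj; simp at hj
  | cons e l ih =>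
    intro acc j d hj hd h1 h2
    cases j with
    | zero =>
      have he : e = d := hd
      subst he
      rw [Nat.add_zero] at h1 h2 ⊢
      rw [fold_getD_lt_cc p (e :: l) acc _ h1, List.foldl_cons,
        fold_getD_lt_cc p l _ _ (by rw [kstep_length_cc]; omega), kstep_getD_last_cc]
      split_ifs with h
      · rfl
      · rw [fold_getD_lt_cc p l _ _ (by rw [kstep_length_cc]; have := h2 h; omega),
          kstep_getD_lt_cc _ _ _ (h2 h)]
    | succ j =>
      have := ih (kstep p acc e) j d (by simpa using hj) (by simpa using hd)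
        (by rw [kstep_length_cc]; omega) (fun h => by rw [kstep_length_cc]; have := h2 h; omega)
      rw [kstep_length_cc, show acc.length + 1 + j = acc.length + (j + 1) by omega] at this
      rw [List.foldl_cons]
      exact this

end Fold

theorem bind_true_cc {F a : ℕ} {f : ℕ → Bool} (h : bind F a f = true) : a ≠ F ∧ f a = true := by
  unfold bind at h
  cases hb : Nat.beq a F with
  | true => rw [hb] at h; cases h
  | false =>
    rw [hb] at h
    refine ⟨fun e => ?_, h⟩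
    rw [e, Nat.beq_refl] at hb
    cases hb

theorem powTop_succ_cc (cl : CL) (T : Tab) (mul : Op) (kK ka e : ℕ) :
    powTop cl T mul kK ka (e + 1) =
      if powTop cl T mul kK ka e = T.F then T.F
      else conjTop cl T mul kK ka (powTop cl T mul kK ka e) := by
  rw [← grd_eq_cb T.F (fun l _ => conjTop cl T mul kK ka l) (powTop cl T mul kK ka e) 0]
  rfl

namespace Par

variable {P : Par} {D : Data} {Γ : Type*} [Group Γ]

theorem k_zero (x y : Γ) : D.k x y 0 = x :=
  fold_getD_lt_cc D.p D.defs [x, y] 0 (by simp)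

theorem k_one (x y : Γ) : D.k x y 1 = y :=
  fold_getD_lt_cc D.p D.defs [x, y] 1 (by simp)

theorem k_ge (hD : P.Match D) (x y : Γ) {k : ℕ} (hk : P.n ≤ k) : D.k x y k = 1 := by
  refine List.getD_eq_default _ _ ?_
  have := hD.ld
  unfold kapL
  rw [fold_length_cc]
  simp only [List.length_cons, List.length_nil]
  omega

theorem k_def (hP : P.OK) (hD : P.Match D) (x y : Γ) {k : ℕ} (h2 : 2 ≤ k) (hk : k < P.n) :
    D.k x y k = if (P.df k).1 = 1 then D.k x y (P.df k).2.1 ^ P.p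
      else cm (D.k x y (P.df k).2.1) (D.k x y (P.df k).2.2) := by
  obtain ⟨a1, -, a3, -⟩ := hP.df_ok k (hk.trans hP.nN) h2
  have hl := hD.ld
  have e : ([x, y] : List Γ).length + (k - 2) = k := by
    simp only [List.length_cons, List.length_nil]; omega
  have := fold_getD_def_cc D.p D.defs [x, y] (k - 2) (P.df k) (by omega) (hD.df k hk h2)
    (by rw [e]; exact a1) (fun h => by rw [if_neg h] at a3; rw [e]; omega)
  rw [e] at this
  rw [← hD.p]
  exact this

theorem k_mem (hP : P.OK) (hD : P.Match D) (S : NSeries Γ)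
    (hp : ∀ j g, g ∈ S.N j → g ^ D.p ∈ S.N (j + 1)) (x y : Γ) {k : ℕ} (hk : k < P.n) :
    D.k x y k ∈ S.N (P.w k) := by
  induction k using Nat.strong_induction_on with
  | _ k ih =>
    by_cases h0 : k = 0
    · rw [h0, hP.w0]; exact S.mem_one _
    by_cases h1 : k = 1
    · rw [h1, hP.w1]; exact S.mem_one _
    have h2 : 2 ≤ k := by omega
    obtain ⟨a1, a2, -, a4⟩ := hP.df_ok k (hk.trans hP.nN) h2
    rw [if_pos hk] at a4
    rw [k_def hP hD x y h2 hk]
    refine S.mem_of_le a4.1 ?_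
    split_ifs
    · rw [← hD.p]; exact hp _ _ (ih _ a1 a2)
    · have := S.comm_mem (inv_mem (ih _ a1 a2)) (S.mem_one (D.k x y (P.df k).2.2)⁻¹)
      simpa [cm, commutatorElement_def] using this

section Abstract

variable {Q : Type*} [Group Q] {κ : ℕ → Q}

/-- the defining relations -/
structure Rel_cc (P : Par) (κ : ℕ → Q) : Prop where
  comm : ∀ i j, i < P.N → j < P.N → P.c < P.w i + P.w j → Commute (κ i) (κ j)
  tpow : ∀ k, P.n ≤ k → k < P.N → κ k ^ P.p = 1
  defp : ∀ k, k < P.N → 2 ≤ k → (P.df k).1 = 1 → κ (P.df k).2.1 ^ P.p = P.ev κ (P.Wd k)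
  defc : ∀ k, k < P.N → 2 ≤ k → (P.df k).1 ≠ 1 →
    (κ (P.df k).2.2)⁻¹ * κ (P.df k).2.1 * κ (P.df k).2.2 = P.ev κ (P.Wd k)

theorem Rel_cc.pow (hP : P.OK) (h : P.Rel_cc κ) (t : ℕ) (ht : t < P.nd) :
    κ t ^ P.p = P.ev κ (P.W t) := by
  obtain ⟨k, k1, k2, k3, k4⟩ := hP.cov1 t ht
  have := h.defp k k1 k2 k3
  rwa [Wd, if_pos k3, k4] at this

theorem Rel_cc.conj01 (hP : P.OK) (h : P.Rel_cc κ) {t j : ℕ} (ht : t < 2) (htj : t < j)
    (hj : j < P.n) (hc : j < P.cut t) : (κ t)⁻¹ * κ j * κ t = P.ev κ (P.E t j) := by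
  obtain ⟨k, k1, k2, k3, k4, k5⟩ := hP.cov2 j hj t ht htj hc
  have := h.defc k k1 k2 k3
  rwa [Wd, if_neg k3, k4, k5] at this

theorem Rel_cc.letp (hP : P.OK) (h : P.Rel_cc κ) {k : ℕ} (h2 : 2 ≤ k) (hk : k < P.n)
    (h1 : (P.df k).1 = 1) : κ (P.df k).2.1 ^ P.p = κ k := by
  have hN := hk.trans hP.nN
  obtain ⟨-, -, -, a4⟩ := hP.df_ok k hN h2
  rw [if_pos hk, if_pos h1, zero_add] at a4
  rw [h.defp k hN h2 h1, a4.2, ev_pow hP hN]

theorem Rel_cc.letc (hP : P.OK) (h : P.Rel_cc κ) {k : ℕ} (h2 : 2 ≤ k) (hk : k < P.n)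
    (h1 : (P.df k).1 ≠ 1) :
    (κ (P.df k).2.2)⁻¹ * κ (P.df k).2.1 * κ (P.df k).2.2 = κ (P.df k).2.1 * κ k := by
  have hN := hk.trans hP.nN
  obtain ⟨a1, -, -, a4⟩ := hP.df_ok k hN h2
  rw [if_pos hk, if_neg h1] at a4
  rw [h.defc k hN h2 h1, a4.2, ev_add_of_lt hP (Nat.pow_lt_pow_right hP.hB a1) dvd_rfl,
    ev_pow hP hN, ev_pow hP (a1.trans hN)]

theorem one_le_w_cc (hP : P.OK) {i : ℕ} (hi : i < P.N) : 1 ≤ P.w i := by
  rw [← hP.w0]; exact hP.w_le (Nat.zero_le i) hi

theorem Rel_cc.dpow (hP : P.OK) (h : P.Rel_cc κ) (i : ℕ) (h1 : P.nd ≤ i) (h2 : i < P.N) :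
    κ i ^ P.p = 1 := by
  induction i using Nat.strong_induction_on with
  | _ i ih =>
    by_cases hn : P.n ≤ i
    · exact h.tpow i hn h2
    have hi : i < P.n := by omega
    have h2i : 2 ≤ i := hP.nd2.trans h1
    obtain ⟨d1, d2, d3⟩ := hP.deep i hi h1
    obtain ⟨a1, a2, a3, -⟩ := hP.df_ok i h2 h2i
    rw [if_neg d1] at a3
    have e := h.letc hP h2i hi d1
    have hw := hP.w_le a1.le h2
    have hc : Commute (κ (P.df i).2.1) (κ i) := h.comm _ _ (a1.trans h2) h2 (by omega)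
    have hb : Commute (κ (P.df i).2.2) (κ (P.df i).2.1 ^ P.p) := by
      by_cases hd : P.nd ≤ (P.df i).2.1
      · rw [ih _ a1 hd (a1.trans h2)]; exact Commute.one_right _
      · have h0 := d3.resolve_left hd
        rw [h.pow hP _ (by omega)]
        have hz := (dvd_iff_dig hP.hB _ _).1 (Nat.dvd_of_mod_eq_zero h0)
        have hmem : P.ev κ (P.W (P.df i).2.1) ∈ Subgroup.centralizer {κ (P.df i).2.2} := by
          refine evR_mem _ fun j _ hj => ?_
          by_cases hjn : j < P.n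
          · exact Or.inl (hz j hjn)
          · right
            rw [Subgroup.mem_centralizer_singleton_iff]
            have w1 := (hP.wn j (by omega)).2 (by omega)
            have w2 := one_le_w_cc hP (i := (P.df i).2.2) (by omega)
            exact (h.comm j _ (by omega) (by omega) (by omega)).eq
        exact (Subgroup.mem_centralizer_singleton_iff.1 hmem).symm
    have e2 : ((κ (P.df i).2.2)⁻¹ * κ (P.df i).2.1 * κ (P.df i).2.2) ^ P.p =
        κ (P.df i).2.1 ^ P.p := by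
      have := conj_pow (i := P.p) (a := (κ (P.df i).2.2)⁻¹) (b := κ (P.df i).2.1)
      rw [inv_inv] at this
      rw [this, mul_assoc, ← hb.eq, inv_mul_cancel_left]
    rw [e, hc.mul_pow] at e2
    exact mul_eq_left.mp e2

theorem conjTop_full_cc (hP : P.OK) {K : ℕ} (hc : P.Ctx κ (K + 1)) {t x : ℕ} (ht : t < K)
    (hK : K < P.n) (hcut : K < P.cut t) (nx : P.Nr x)
    (he : (κ t)⁻¹ * κ K * κ t = P.ev κ (P.E t K))
    (hF : conjTop P.cl P.T P.mul (P.key K) (P.key t) x ≠ P.T.F) :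
    P.Nr (conjTop P.cl P.T P.mul (P.key K) (P.key t) x) ∧
      P.ev κ (conjTop P.cl P.T P.mul (P.key K) (P.key t) x) = (κ t)⁻¹ * P.ev κ x * κ t := by
  rcases conjTop_ok hP hc ht hK hcut nx with h | ⟨h1, r, h2, h3⟩
  · exact absurd h hF
  · refine ⟨h1, ?_⟩
    rw [h3, h2, ← he]; group

theorem powTop_ok_cc (hP : P.OK) {K : ℕ} (hc : P.Ctx κ (K + 1)) {t : ℕ} (ht : t < K)
    (hK : K < P.n) (hcut : K < P.cut t) (he : (κ t)⁻¹ * κ K * κ t = P.ev κ (P.E t K)) (e : ℕ)
    (hF : powTop P.cl P.T P.mul (P.key K) (P.key t) e ≠ P.T.F) :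
    P.Nr (powTop P.cl P.T P.mul (P.key K) (P.key t) e) ∧
      P.ev κ (powTop P.cl P.T P.mul (P.key K) (P.key t) e) = (κ t ^ e)⁻¹ * κ K * κ t ^ e := by
  have hN := hK.trans hP.nN
  induction e with
  | zero =>
    have e0 : powTop P.cl P.T P.mul (P.key K) (P.key t) 0 = P.B ^ K := hP.g_eq K hN
    rw [e0]
    exact ⟨nr_pow hP hN, by rw [ev_pow hP hN]; simp⟩
  | succ e ih =>
    rw [powTop_succ_cc] at hF ⊢
    split_ifs at hF ⊢ with h
    · exact absurd rfl hF
    obtain ⟨i1, i2⟩ := ih h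
    obtain ⟨j1, j2⟩ := conjTop_full_cc hP hc ht hK hcut i1 he hF
    refine ⟨j1, ?_⟩
    rw [j2, i2, pow_succ]; group

theorem Rel_cc.conj_top (hP : P.OK) (hT : P.T1OK) (h : P.Rel_cc κ) {K : ℕ}
    (hc : P.Ctx κ (K + 1)) (hK : K < P.n) (t : ℕ) (ht : t < K) (hcut : K < P.cut t) :
    (κ t)⁻¹ * κ K * κ t = P.ev κ (P.E t K) := by
  induction t using Nat.strong_induction_on with
  | _ t ih =>
    by_cases h2 : t < 2
    · exact h.conj01 hP h2 ht hK hcut
    have h2' : 2 ≤ t := by omega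
    have htn : t < P.n := ht.trans hK
    have hchk := hT K hK t ht h2'
    obtain ⟨a1, a2, a3, -⟩ := hP.df_ok t (htn.trans hP.nN) h2'
    unfold chkT at hchk
    rw [Nat.blt_eq.mpr hcut] at hchk
    by_cases h1 : (P.df t).1 = 1
    · have hb : Nat.beq (P.df t).1 1 = true := Nat.beq_eq ▸ h1
      rw [hb] at hchk
      have hchk' : (Nat.blt K (P.cut (P.df t).2.1) &&
        chkP P.cl P.T P.mul P.p (P.key K) (P.key t) (P.key (P.df t).2.1)) = true := hchk
      rw [Bool.and_eq_true, Nat.blt_eq] at hchk'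
      obtain ⟨c1, c2⟩ := hchk'
      obtain ⟨c3, c4⟩ := bind_true_cc c2
      have c5 : powTop P.cl P.T P.mul (P.key K) (P.key (P.df t).2.1) P.p = P.E t K :=
        Nat.eq_of_beq_eq_true c4
      have := (powTop_ok_cc hP hc (a1.trans ht) hK c1 (ih _ a1 (a1.trans ht) c1) P.p c3).2
      rw [c5, h.letp hP h2' htn h1] at this
      exact this.symm
    · have hb : Nat.beq (P.df t).1 1 = false := by
        cases hb : Nat.beq (P.df t).1 1 with
        | false => rfl
        | true => exact absurd (Nat.eq_of_beq_eq_true hb) h1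
      rw [hb] at hchk
      rw [if_neg h1] at a3
      have hchk' : (Nat.blt K (P.cut (P.df t).2.1) && Nat.blt K (P.cut (P.df t).2.2) &&
        chkC P.cl P.T P.mul (P.key K) (P.key t) (P.key (P.df t).2.1) (P.key (P.df t).2.2)) =
          true := hchk
      rw [Bool.and_eq_true, Bool.and_eq_true, Nat.blt_eq, Nat.blt_eq] at hchk'
      obtain ⟨⟨c1, c2⟩, c3⟩ := hchk'
      obtain ⟨l1, c4⟩ := bind_true_cc c3
      obtain ⟨l2, c5⟩ := bind_true_cc c4
      obtain ⟨l3, c6⟩ := bind_true_cc c5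
      have c7 := Nat.eq_of_beq_eq_true c6
      have ha : (P.df t).2.1 < K := a1.trans ht
      have hb' : (P.df t).2.2 < K := a3.2.1.trans ha
      have ea := ih _ a1 ha c1
      have eb := ih _ (a3.2.1.trans a1) hb' c2
      have na : P.Nr (P.E (P.df t).2.1 K) := hP.nrm_ok _ (hP.E_ok K hK _ ha c1).1
      have nb : P.Nr (P.E (P.df t).2.2 K) := hP.nrm_ok _ (hP.E_ok K hK _ hb' c2).1
      obtain ⟨-, m1⟩ := conjTop_full_cc hP hc hb' hK c2 na eb l1
      obtain ⟨n2, m2⟩ := conjTop_full_cc hP hc ha hK c1 nb ea l2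
      rcases conjTop_ok hP hc ht hK hcut n2 with hF | ⟨-, r, m3, m4⟩
      · exact absurd hF l3
      have e := h.letc hP h2' htn h1
      have m5 : P.ev κ (P.E t K) * ((κ t)⁻¹ * r * κ t) =
          (κ (P.df t).2.2)⁻¹ * P.ev κ (P.E (P.df t).2.1 K) * κ (P.df t).2.2 := by
        rw [← m4, ← m1]
        exact congrArg (P.ev κ) c7.symm
      rw [m3, ← eb] at m2
      rw [← ea] at m5
      have e' : κ t = (κ (P.df t).2.1)⁻¹ *
          ((κ (P.df t).2.2)⁻¹ * κ (P.df t).2.1 * κ (P.df t).2.2) := by rw [e]; group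
      have r' : r = (κ K)⁻¹ * ((κ (P.df t).2.1)⁻¹ *
          ((κ (P.df t).2.2)⁻¹ * κ K * κ (P.df t).2.2) * κ (P.df t).2.1) := by rw [← m2]; group
      have m6 := eq_mul_inv_of_mul_eq m5
      rw [m6, r']
      generalize κ (P.df t).2.1 = a at *
      generalize κ (P.df t).2.2 = b at *
      rw [e']
      group

theorem Rel_cc.ctx (hP : P.OK) (hT : P.T1OK) (h : P.Rel_cc κ) : P.Ctx κ 0 := by
  have key : ∀ d K, K + d = P.n → P.Ctx κ K := by
    intro d
    induction d with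
    | zero =>
      intro K hK
      exact ⟨h.comm, h.dpow hP, h.pow hP, fun t j _ h1 h2 _ => by omega⟩
    | succ d ih =>
      intro K hK
      have hc := ih (K + 1) (by omega)
      refine ⟨h.comm, h.dpow hP, h.pow hP, fun t j h1 h2 h3 h4 => ?_⟩
      by_cases hj : j = K
      · subst hj; exact h.conj_top hP hT hc h2 t h1 h4
      · exact hc.conj t j h1 h2 (by omega) h4
  exact key P.n 0 (zero_add _)

theorem ev_tail_cc (hP : P.OK) {k x : ℕ} (h1 : P.n ≤ k) (h2 : k < P.N)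
    (hx : x / P.B ^ P.n = P.B ^ (k - P.n)) : P.ev κ x = P.evR κ 0 P.n x * κ k := by
  have hn := hP.nN.le
  have e1 := ev_split (κ := κ) hn (P.B ^ k)
  rw [ev_pow hP h2, evR_eq_one (a := 0) fun i _ hi =>
    Or.inl (by rw [dig_pow hP.hB, if_neg (by omega)]), one_mul] at e1
  rw [ev_split hn x, e1]
  congr 1
  refine evR_congr fun i hi _ => ?_
  have := dig_div hP.hB x P.n (i - P.n)
  rw [hx, Nat.sub_add_cancel hi, dig_pow hP.hB] at this
  rw [← this, dig_pow hP.hB]
  by_cases hik : i = k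
  · rw [if_pos hik, if_pos (by omega)]
  · rw [if_neg hik, if_neg (by omega)]

end Abstract

/-- if all tails lie in the term `s`, all relations hold modulo the term `s + 1` -/
theorem ctx_of_tails (hP : P.OK) (hD : P.Match D) (hT : P.T1OK) (S : NSeries Γ)
    (hp : ∀ j g, g ∈ S.N j → g ^ D.p ∈ S.N (j + 1)) (x y : Γ) {s : ℕ} (hs : s ≤ P.c)
    (h : ∀ k, P.n ≤ k → k < P.N → P.kh D x y k ∈ S.N s) : P.Ctx (P.kq D S x y (s + 1)) 0 := by
  let f : Γ →* Γ ⧸ S.N (s + 1) := QuotientGroup.mk' _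
  have hf : ∀ k, P.kq D S x y (s + 1) k = f (P.kh D x y k) := fun _ => rfl
  have hlet : ∀ k, k < P.n → P.kq D S x y (s + 1) k = f (D.k x y k) := fun k hk => by
    rw [hf, kh, if_pos hk]
  have hone : ∀ g, g ∈ S.N (s + 1) → f g = 1 := fun g hg => (QuotientGroup.eq_one_iff g).mpr hg
  have hcom : ∀ g g' : Γ, ⁅g, g'⁆ ∈ S.N (s + 1) → Commute (f g) (f g') := fun g g' hg => by
    have := hone _ hg
    rw [map_commutatorElement] at this
    exact commutatorElement_eq_one_iff_commute.mp this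
  have hev : ∀ w, f (P.evR (D.k x y) 0 P.n w) = P.evR (P.kq D S x y (s + 1)) 0 P.n w := fun w => by
    rw [map_evR]
    exact evR_congr_left w fun i _ hi => (hlet i (by omega)).symm
  refine Rel_cc.ctx hP hT ⟨fun i j hi hj hw => ?_, fun k h1 h2 => ?_, fun k h1 h2 h3 => ?_,
    fun k h1 h2 h3 => ?_⟩
  · by_cases hjn : P.n ≤ j
    · rw [hf, hf]; exact hcom _ _ (S.comm_mem_succ _ (h j hjn hj))
    by_cases hin : P.n ≤ i
    · rw [hf, hf]; exact (hcom _ _ (S.comm_mem_succ _ (h i hin hi))).symm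
    rw [hlet i (by omega), hlet j (by omega)]
    exact hcom _ _ (S.mem_of_le (by omega) (S.comm_mem (k_mem hP hD S hp x y (k := i) (by omega))
      (k_mem hP hD S hp x y (k := j) (by omega))))
  · rw [hf, ← map_pow, ← hD.p]
    exact hone _ (hp _ _ (h k h1 h2))
  · obtain ⟨a1, a2, -, a4⟩ := hP.df_ok k h1 h2
    rw [hlet _ a2]
    by_cases hk : k < P.n
    · rw [if_pos hk, if_pos h3, zero_add] at a4
      rw [a4.2, ev_pow hP h1, hlet k hk, k_def hP hD x y h2 hk, if_pos h3, map_pow]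
    · rw [if_neg hk] at a4
      rw [ev_tail_cc hP (by omega) h1 a4, ← hev, hf k, kh, if_neg hk, if_pos h3, ← map_mul,
        mul_inv_cancel_left, map_pow]
  · obtain ⟨a1, a2, a3, a4⟩ := hP.df_ok k h1 h2
    rw [if_neg h3] at a3
    rw [hlet _ a2, hlet _ (a3.2.1.trans a2)]
    by_cases hk : k < P.n
    · rw [if_pos hk, if_neg h3] at a4
      rw [a4.2, ev_add_of_lt hP (Nat.pow_lt_pow_right hP.hB a1) dvd_rfl, ev_pow hP h1,
        ev_pow hP (a1.trans h1), hlet _ a2, hlet k hk, k_def hP hD x y h2 hk, if_neg h3, map_cm, cm]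
      group
    · rw [if_neg hk] at a4
      rw [ev_tail_cc hP (by omega) h1 a4, ← hev, hf k, kh, if_neg hk, if_neg h3, ← map_mul f,
        mul_inv_cancel_left, map_mul, map_mul, map_inv]

end Par

end Pool.Agent.Lib.MP_0813d1_al.PC
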