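import Mathlib
import Pool.Agent.Lib.MP_0813d1_al.PCCtx

namespace Pool.Agent.Lib.MP_0813d1_al.PC.Par

open scoped commutatorElement

section abstract

variable {P : Par} {Q : Type*} [Group Q] {κ : ℕ → Q}

theorem concl_central {H : Subgroup Q} [H.Normal] {T : Set Q} {x y : Q} {p : ℕ}
    (hg : Subgroup.closure {x, y} = ⊤)
    (h : ∀ s ∈ T, cm s x ∈ H ∧ cm s y ∈ H ∧ s ^ p ∈ H) {g : Q} (hT : g ∈ Subgroup.closure T) :
    (∀ q, ⁅g, q⁆ ∈ H) ∧ g ^ p ∈ H := by
  let f := QuotientGroup.mk' H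
  have hk : ∀ a, f a = 1 ↔ a ∈ H := fun a => QuotientGroup.eq_one_iff a
  have hc : ∀ a b, cm a b ∈ H → Commute (f a) (f b) := fun a b hab => by
    have h1 := (hk _).2 hab
    rw [map_cm, cm] at h1
    have h2 : f a * f b = f b * f a * ((f a)⁻¹ * (f b)⁻¹ * f a * f b) := by group
    rw [h1, mul_one] at h2
    exact h2
  have key : (∀ q, Commute (f g) (f q)) ∧ f g ^ p = 1 := by
    induction hT using Subgroup.closure_induction with
    | mem s hs =>
      refine ⟨fun q => ?_, by rw [← map_pow, hk]; exact (h s hs).2.2⟩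
      have hq : q ∈ Subgroup.closure {x, y} := hg ▸ Subgroup.mem_top q
      induction hq using Subgroup.closure_induction with
      | mem t ht =>
        rcases ht with rfl | rfl
        · exact hc _ _ (h s hs).1
        · exact hc _ _ (h s hs).2.1
      | one => rw [map_one]; exact Commute.one_right _
      | mul a b _ _ ha hb => rw [map_mul]; exact ha.mul_right hb
      | inv a _ ha => rw [map_inv]; exact ha.inv_right
    | one => simp
    | mul a b _ _ ha hb =>
      rw [map_mul]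
      exact ⟨fun q => (ha.1 q).mul_left (hb.1 q), by rw [(ha.1 b).mul_pow, ha.2, hb.2, mul_one]⟩
    | inv a _ ha =>
      rw [map_inv]
      exact ⟨fun q => (ha.1 q).inv_left, by rw [inv_pow, ha.2, inv_one]⟩
  refine ⟨fun q => (hk _).1 ?_, (hk _).1 (by rw [map_pow]; exact key.2)⟩
  rw [map_commutatorElement]
  exact commutatorElement_eq_one_iff_commute.2 (key.1 q)

variable (P κ) in
/-- the subgroup generated by the letters with the property `s` -/
def conclG (s : ℕ → Prop) : Subgroup Q := Subgroup.closure {g | ∃ i, i < P.n ∧ s i ∧ g = κ i}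

theorem conclG_mono {s t : ℕ → Prop} (h : ∀ i, i < P.n → s i → t i) :
    P.conclG κ s ≤ P.conclG κ t :=
  Subgroup.closure_mono fun _ ⟨i, h1, h2, h3⟩ => ⟨i, h1, h i h1 h2, h3⟩

theorem concl_ev_mem (hP : P.OK) (ht : ∀ k, P.n ≤ k → k < P.N → κ k = 1) {a x : ℕ} (ha : a < P.n)
    (hx : x % P.B ^ P.lv a = 0) : P.ev κ x ∈ P.conclG κ fun i => P.w a + 1 ≤ P.w i := by
  refine evR_mem _ fun i _ hi => ?_
  rw [zero_add] at hi
  by_cases h1 : i < P.lv a
  · exact Or.inl ((dvd_iff_dig hP.hB x _).1 (Nat.dvd_of_mod_eq_zero hx) i h1)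
  by_cases h2 : i < P.n
  · refine Or.inr (Subgroup.subset_closure ⟨i, h2, ?_, rfl⟩)
    exact ((hP.lv_ok a ha).2.1 (by omega)).trans_le (hP.w_le (by omega) hi)
  · exact Or.inr (by rw [ht i (by omega) hi]; exact one_mem _)

theorem concl_cm_lt (hP : P.OK) (hc : P.Ctx κ 0) (ht : ∀ k, P.n ≤ k → k < P.N → κ k = 1)
    {a b : ℕ} (ha : a < P.n) (hb : b < 2) (hba : b < a) :
    cm (κ a) (κ b) ∈ P.conclG κ fun i => P.w a + 1 ≤ P.w i := by
  have hN := hP.nN
  by_cases h : a < P.cut b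
  · have h1 := hc.conj b a hba ha (Nat.zero_le _) h
    have h2 := (hP.E_ok a ha b hba h).2
    have h3 : ∀ i, i < a + 1 → dig P.B (P.E b a) i = if i = a then 1 else 0 := fun i hi => by
      rw [← dig_pow hP.hB, ← h2, dig_mod hP.hB, if_pos hi]
    rw [ev_sub_pow hP (h := a) (by omega) ((dvd_iff_dig hP.hB _ _).2 fun i hi => by
      rw [h3 i (by omega), if_neg hi.ne]) (by rw [h3 a (by omega), if_pos rfl]; omega)] at h1
    have h4 : cm (κ a) (κ b) = (κ a)⁻¹ * ((κ b)⁻¹ * κ a * κ b) := by rw [cm]; group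
    rw [h4, h1, inv_mul_cancel_left]
    exact concl_ev_mem hP ht ha ((hP.lv_ok a ha).2.2.2 b hb hba h)
  · have h1 := (hP.cut_ok b (by omega)).2.2
    have h2 := hP.w_le (i := P.cut b) (j := a) (by omega) (by omega)
    have h3 := hc.comm a b (by omega) (by omega) (by omega)
    have h4 : cm (κ a) (κ b) = (κ a)⁻¹ * (κ b)⁻¹ * (κ a * κ b) := by rw [cm]; group
    rw [h4, h3.eq]
    simp

theorem concl_gen (hP : P.OK) (hc : P.Ctx κ 0) (ht : ∀ k, P.n ≤ k → k < P.N → κ k = 1)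
    {a : ℕ} (ha : a < P.n) {H : Subgroup Q}
    (hH : (P.conclG κ fun i => P.w a + 1 ≤ P.w i) ≤ H) :
    cm (κ a) (κ 0) ∈ H ∧ cm (κ a) (κ 1) ∈ H ∧ κ a ^ P.p ∈ H := by
  have h2 : 2 ≤ P.n := hP.nd2.trans hP.ndn
  have hN := hP.nN
  have hs : ∀ g : Q, cm g g ∈ H := fun g => by simp [cm]
  refine ⟨?_, ?_, ?_⟩
  · rcases Nat.eq_zero_or_pos a with rfl | h
    · exact hs _
    · exact hH (concl_cm_lt hP hc ht ha (by omega) h)
  · rcases lt_trichotomy a 1 with h | rfl | h
    · obtain rfl : a = 0 := by omega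
      have h3 := concl_cm_lt hP hc ht (a := 1) (b := 0) (by omega) (by omega) (by omega)
      rw [hP.w1, ← hP.w0] at h3
      have h4 : cm (κ 0) (κ 1) = (cm (κ 1) (κ 0))⁻¹ := by simp only [cm]; group
      rw [h4]
      refine inv_mem (hH ?_)
      simpa only [hP.w0] using h3
    · exact hs _
    · exact hH (concl_cm_lt hP hc ht ha (by omega) h)
  · by_cases h : a < P.nd
    · rw [hc.pow a h]
      exact hH (concl_ev_mem hP ht ha ((hP.lv_ok a ha).2.2.1 h))
    · rw [hc.dpow a (by omega) (by omega)]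
      exact one_mem _

theorem concl_le_succ (hP : P.OK) {a b : ℕ} (ha : a < P.n) (hb : b ≤ a) :
    (P.conclG κ fun i => P.w a + 1 ≤ P.w i) ≤ P.conclG κ fun i => b + 1 ≤ i :=
  conclG_mono fun i _ h => by
    by_contra hlt
    have := hP.w_le (i := i) (j := a) (by omega) (ha.trans hP.nN)
    omega

theorem concl_bot : (P.conclG κ fun i => P.n ≤ i) = ⊥ := by
  rw [conclG, Subgroup.closure_eq_bot_iff]
  rintro _ ⟨i, h1, h2, -⟩
  omega

theorem concl_normal_aux (hP : P.OK) (hc : P.Ctx κ 0) (ht : ∀ k, P.n ≤ k → k < P.N → κ k = 1)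
    (hg : Subgroup.closure {κ 0, κ 1} = ⊤) (d : ℕ) :
    ∀ a, a + d = P.n → (P.conclG κ fun i => a ≤ i).Normal := by
  induction d with
  | zero =>
    intro a ha
    obtain rfl : a = P.n := ha
    rw [concl_bot]
    infer_instance
  | succ d ih =>
    intro a ha
    have := ih (a + 1) (by omega)
    refine ⟨fun g hg' q => ?_⟩
    have h1 := (concl_central (H := P.conclG κ fun i => a + 1 ≤ i) (p := P.p) hg (by
      rintro _ ⟨i, h1, h2, rfl⟩
      exact concl_gen hP hc ht h1 (concl_le_succ hP h1 h2)) hg').1 q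
    have h2 : q * g * q⁻¹ = ⁅g, q⁆⁻¹ * g := by simp only [commutatorElement_def]; group
    rw [h2]
    exact mul_mem (inv_mem (conclG_mono (fun i _ h => by omega) h1)) hg'

theorem concl_cut (hP : P.OK) (j : ℕ) : ∃ a ≤ P.n, ∀ i < P.n, (j ≤ P.w i ↔ a ≤ i) := by
  classical
  have h : ∃ a, P.n ≤ a ∨ j ≤ P.w a := ⟨P.n, Or.inl le_rfl⟩
  refine ⟨Nat.find h, Nat.find_min' h (Or.inl le_rfl), fun i hi =>
    ⟨fun h1 => Nat.find_min' h (Or.inr h1), fun h1 => ?_⟩⟩
  rcases Nat.find_spec h with h2 | h2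
  · omega
  · exact h2.trans (hP.w_le h1 (hi.trans hP.nN))

theorem concl_eq {j a : ℕ} (h : ∀ i < P.n, (j ≤ P.w i ↔ a ≤ i)) :
    (P.conclG κ fun i => j ≤ P.w i) = P.conclG κ fun i => a ≤ i :=
  le_antisymm (conclG_mono fun i hi => (h i hi).1) (conclG_mono fun i hi => (h i hi).2)

theorem concl_step (hP : P.OK) (hc : P.Ctx κ 0) (ht : ∀ k, P.n ≤ k → k < P.N → κ k = 1)
    (hg : Subgroup.closure {κ 0, κ 1} = ⊤) (j : ℕ) {g : Q}
    (h : g ∈ P.conclG κ fun i => j ≤ P.w i) :
    (∀ q, ⁅g, q⁆ ∈ P.conclG κ fun i => j + 1 ≤ P.w i) ∧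
      g ^ P.p ∈ P.conclG κ fun i => j + 1 ≤ P.w i := by
  obtain ⟨a, ha, h1⟩ := concl_cut hP (j + 1)
  have : (P.conclG κ fun i => j + 1 ≤ P.w i).Normal := by
    rw [concl_eq h1]
    exact concl_normal_aux hP hc ht hg (P.n - a) a (by omega)
  refine concl_central hg ?_ h
  rintro _ ⟨i, h2, h3, rfl⟩
  exact concl_gen hP hc ht h2 (conclG_mono fun _ _ _ => by omega)

theorem concl_nf (hP : P.OK) (hc : P.Ctx κ 0) (ht : ∀ k, P.n ≤ k → k < P.N → κ k = 1)
    (hg : Subgroup.closure {κ 0, κ 1} = ⊤) (d : ℕ) :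
    ∀ a, a + d = P.n → ∀ g ∈ P.conclG κ fun i => a ≤ i, ∃ e : ℕ → ℕ, (∀ i, e i < P.p) ∧
      (∀ i, i < a ∨ P.n ≤ i → e i = 0) ∧ ((List.range' a d).map fun i => κ i ^ e i).prod = g := by
  have hp := hP.p2
  induction d with
  | zero =>
    intro a ha g h
    obtain rfl : a = P.n := ha
    rw [concl_bot, Subgroup.mem_bot] at h
    exact ⟨fun _ => 0, fun _ => lt_of_lt_of_le two_pos hp, fun _ _ => rfl, by simp [h]⟩
  | succ d ih =>
    intro a ha g h
    have hn := concl_normal_aux hP hc ht hg d (a + 1) (by omega)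
    have h1 : (P.conclG κ fun i => a ≤ i) ≤
        Subgroup.zpowers (κ a) ⊔ P.conclG κ fun i => a + 1 ≤ i := by
      rw [conclG, Subgroup.closure_le]
      rintro _ ⟨i, h1, h2, rfl⟩
      rcases h2.eq_or_lt with rfl | h2
      · exact Subgroup.mem_sup_left (Subgroup.mem_zpowers _)
      · exact Subgroup.mem_sup_right (Subgroup.subset_closure ⟨i, h1, h2, rfl⟩)
    obtain ⟨_, ⟨z, rfl⟩, u, hu, rfl⟩ := Subgroup.mem_sup_of_normal_right.1 (h1 h)
    have h2 := (concl_gen hP hc ht (a := a) (by omega) (concl_le_succ hP (by omega) le_rfl)).2.2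
    obtain ⟨e, e1, e2, e3⟩ := ih (a + 1) (by omega) _
      (mul_mem (zpow_mem h2 (z / P.p)) hu)
    have h3 := Int.emod_nonneg z (b := P.p) (by omega)
    have h4 := Int.emod_lt_of_pos z (b := P.p) (by omega)
    refine ⟨Function.update e a (z % P.p).toNat, fun i => ?_, fun i hi => ?_, ?_⟩
    · by_cases hi : i = a
      · rw [hi, Function.update_self]; omega
      · rw [Function.update_of_ne hi]; exact e1 i
    · rw [Function.update_of_ne (by omega)]
      exact e2 i (by omega)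
    · rw [List.range'_succ, List.map_cons, List.prod_cons, Function.update_self,
        List.map_congr_left (g := fun i => κ i ^ e i) fun i hi => by
          rw [Function.update_of_ne (by have := (List.mem_range'_1.1 hi).1; omega)], e3,
        ← zpow_natCast, ← zpow_natCast, Int.toNat_of_nonneg h3, ← zpow_mul, ← mul_assoc,
        ← zpow_add, Int.emod_add_mul_ediv]

end abstract

variable {P : Par} {D : Data} {Γ : Type*} [Group Γ]

theorem concl_kq {S : NSeries Γ} {x y : Γ} {s i : ℕ} (hi : i < P.n) :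
    P.kq D S x y s i = QuotientGroup.mk' (S.N s) (D.k x y i) := by
  rw [kq, kh, if_pos hi]; rfl

theorem concl_mem_A (hD : P.Match D) {S : NSeries Γ} {x y : Γ} {j : ℕ} {g : Γ} :
    g ∈ D.A S x y j ↔ QuotientGroup.mk' (S.N (P.c + 1)) g ∈
      P.conclG (P.kq D S x y (P.c + 1)) fun i => j ≤ P.w i := by
  rw [Data.A, hD.c]
  nth_rewrite 1 [← QuotientGroup.ker_mk' (S.N (P.c + 1))]
  rw [← Subgroup.comap_map_eq, Subgroup.mem_comap, MonoidHom.map_closure, conclG, hD.lw]
  congr! 2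
  ext q
  constructor
  · rintro ⟨_, ⟨i, h1, h2, rfl⟩, rfl⟩
    exact ⟨i, h1, hD.w i h1 ▸ h2, (concl_kq h1).symm⟩
  · rintro ⟨i, h1, h2, rfl⟩
    exact ⟨_, ⟨i, h1, (hD.w i h1).symm ▸ h2, rfl⟩, (concl_kq h1).symm⟩

theorem concl_top (hP : P.OK) {S : NSeries Γ} {x y : Γ} (hg : Subgroup.closure {x, y} = ⊤)
    (s : ℕ) : Subgroup.closure {P.kq D S x y s 0, P.kq D S x y s 1} = ⊤ := by
  have h2 : 2 ≤ P.n := hP.nd2.trans hP.ndn
  rw [concl_kq (by omega), concl_kq (by omega), k_zero, k_one, ← Set.image_pair,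
    ← MonoidHom.map_closure, hg]
  exact Subgroup.map_top_of_surjective _ (QuotientGroup.mk'_surjective _)

theorem concl_of_ctx (hP : P.OK) (hD : P.Match D) {S : NSeries Γ} {x y : Γ}
    (hg : Subgroup.closure {x, y} = ⊤) (hc : P.Ctx (P.kq D S x y (P.c + 1)) 0)
    (ht : ∀ k, P.n ≤ k → k < P.N → P.kq D S x y (P.c + 1) k = 1) : D.Concl S x y := by
  have h2 : 2 ≤ P.n := hP.nd2.trans hP.ndn
  have hg' := concl_top (D := D) (S := S) hP hg (P.c + 1)
  refine ⟨eq_top_iff.2 fun g _ => (concl_mem_A hD).2 ?_, fun j => ?_, fun j g h => ?_⟩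
  · refine (eq_top_iff.1 hg').trans ((Subgroup.closure_le _).2 ?_) (Subgroup.mem_top _)
    rintro _ (rfl | rfl)
    · exact Subgroup.subset_closure ⟨0, by omega, hP.w0.ge, rfl⟩
    · exact Subgroup.subset_closure ⟨1, by omega, hP.w1.ge, rfl⟩
  · refine Subgroup.commutator_le.2 fun g h q _ => (concl_mem_A hD).2 ?_
    rw [map_commutatorElement]
    exact (concl_step hP hc ht hg' j ((concl_mem_A hD).1 h)).1 _
  · rw [concl_mem_A hD, map_pow, hD.p]
    exact (concl_step hP hc ht hg' j ((concl_mem_A hD).1 h)).2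

/-- normal forms: every element of `A j` is a word in the letters of weight at least `j` -/
theorem normal_form (hP : P.OK) (hD : P.Match D) {S : NSeries Γ} {x y : Γ}
    (hg : Subgroup.closure {x, y} = ⊤) (hc : P.Ctx (P.kq D S x y (P.c + 1)) 0)
    (ht : ∀ k, P.n ≤ k → k < P.N → P.kq D S x y (P.c + 1) k = 1) (j : ℕ) {g : Γ}
    (h : g ∈ D.A S x y j) :
    ∃ e : ℕ → ℕ, (∀ i, e i < P.p) ∧ (∀ i, P.w i < j → e i = 0) ∧
      (((List.range P.n).map fun i => D.k x y i ^ e i).prod)⁻¹ * g ∈ S.N (P.c + 1) := by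
  obtain ⟨a, ha, h1⟩ := concl_cut hP j
  obtain ⟨d, hd⟩ := Nat.exists_eq_add_of_le ha
  rw [concl_mem_A hD, concl_eq h1] at h
  obtain ⟨e, e1, e2, e3⟩ := concl_nf hP hc ht (concl_top hP hg _) d a hd.symm _ h
  refine ⟨e, e1, fun i hi => e2 i ?_, QuotientGroup.eq.1 ?_⟩
  · by_contra hcon
    have := (h1 i (by omega)).2 (by omega)
    omega
  · change QuotientGroup.mk' _ _ = QuotientGroup.mk' _ _
    rw [← e3, map_list_prod, List.map_map, List.range_eq_range', hd, ← List.range'_append_1,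
      List.map_append, List.prod_append, zero_add, List.prod_eq_one, one_mul]
    · refine congrArg List.prod (List.map_congr_left fun i hi => ?_)
      have := (List.mem_range'_1.1 hi).2
      rw [concl_kq (by omega), Function.comp_apply, map_pow]
    · intro q hq
      obtain ⟨i, hi, rfl⟩ := List.mem_map.1 hq
      have := (List.mem_range'_1.1 hi).2
      rw [Function.comp_apply, e2 i (Or.inl (by omega)), pow_zero, map_one]

end Pool.Agent.Lib.MP_0813d1_al.PC.Par
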