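import Mathlib
import Pool.Agent.Lib.MP_0813d1_al.PCCtx

namespace Pool.Agent.Lib.MP_0813d1_al.PC.Par

variable {P : Par} {D : Data} {Γ : Type*} [Group Γ]

theorem tl_grd (F : ℕ) (f : ℕ → ℕ → ℕ) (r a : ℕ) :
    grd F f r a = if r = F then F else f r a := by
  unfold grd
  by_cases h : r = F
  · rw [if_pos h, (Nat.beq_eq ▸ h : Nat.beq r F = true)]
  · rw [if_neg h]
    have : Nat.beq r F = false := by
      cases hb : Nat.beq r F
      · rfl
      · exact absurd (Nat.eq_of_beq_eq_true hb) h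
    rw [this]

theorem tl_bind {F a : ℕ} {f : ℕ → Bool} (h : bind F a f = true) : a ≠ F ∧ f a = true := by
  unfold bind at h
  cases hb : Nat.beq a F
  · rw [hb] at h
    exact ⟨Nat.ne_of_beq_eq_false hb, h⟩
  · rw [hb] at h
    exact absurd h Bool.false_ne_true

section
variable {Q : Type*} [Group Q] {κ : ℕ → Q}

theorem tl_mul (hP : P.OK) (hc : P.Ctx κ 0) {u v : ℕ} (nu : P.Nr u) (nv : P.Nr v)
    (h : P.mul u v ≠ P.T.F) : P.Nr (P.mul u v) ∧ P.ev κ (P.mul u v) = P.ev κ u * P.ev κ v := by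
  rcases mul_ok hP hc u v nu nv (by simp) with h1 | h1
  · exact absurd h1 h
  · exact ⟨h1.1, h1.2.1⟩

theorem mulPow_ok (hP : P.OK) (hc : P.Ctx κ 0) {u v : ℕ} {g : Q} (e : ℕ)
    (hu : u = P.T.F ∨ (P.Nr u ∧ P.ev κ u = g)) (nv : P.Nr v) :
    P.mulPow u v e = P.T.F ∨ (P.Nr (P.mulPow u v e) ∧ P.ev κ (P.mulPow u v e) = g * P.ev κ v ^ e) := by
  induction e with
  | zero =>
    change u = P.T.F ∨ (P.Nr u ∧ P.ev κ u = g * P.ev κ v ^ 0)
    rw [pow_zero, mul_one]
    exact hu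
  | succ e ih =>
    have e1 : P.mulPow u v (e + 1) = grd P.T.F P.mul (P.mulPow u v e) v := rfl
    rw [e1, tl_grd]
    by_cases h : P.mulPow u v e = P.T.F
    · left; rw [if_pos h]
    · rw [if_neg h]
      rcases ih with ih | ih
      · exact absurd ih h
      · by_cases h2 : P.mul (P.mulPow u v e) v = P.T.F
        · exact Or.inl h2
        · obtain ⟨a, b⟩ := tl_mul hP hc ih.1 nv h2
          exact Or.inr ⟨a, by rw [b, ih.2, pow_succ, mul_assoc]⟩

theorem mulW_ok (hP : P.OK) (hc : P.Ctx κ 0) (f : ℕ → ℕ) (hf : ∀ i, P.Nr (f i))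
    (l : List (ℕ × ℕ)) {u : ℕ} {g : Q} (hu : u = P.T.F ∨ (P.Nr u ∧ P.ev κ u = g)) :
    P.mulW f l u = P.T.F ∨ (P.Nr (P.mulW f l u) ∧
      P.ev κ (P.mulW f l u) = g * evw (fun i => P.ev κ (f i)) l) := by
  induction l generalizing u g with
  | nil =>
    change u = P.T.F ∨ (P.Nr u ∧ P.ev κ u = g * evw (fun i => P.ev κ (f i)) [])
    simpa [evw] using hu
  | cons q l ih =>
    have e1 : P.mulW f (q :: l) u = P.mulW f l (P.mulPow u (f q.1) q.2) := rfl
    have e2 : evw (fun i => P.ev κ (f i)) (q :: l) =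
        P.ev κ (f q.1) ^ q.2 * evw (fun i => P.ev κ (f i)) l := by simp [evw]
    rw [e1, e2, ← mul_assoc]
    exact ih (mulPow_ok hP hc q.2 hu (hf q.1))

/-- words in the deep letters with trivial value -/
def Triv (P : Par) (κ : ℕ → Q) (d : ℕ) : Prop := P.Nr d ∧ P.B ^ P.nd ∣ d ∧ P.ev κ d = 1

theorem triv_add (hP : P.OK) (hc : P.Ctx κ 0) {a b : ℕ} (ha : Triv P κ a) (hb : Triv P κ b) :
    Triv P κ (P.add a b) :=
  ⟨nr_add hP ha.1 hb.1, dvd_add' hP ha.1 hb.1 ha.2.1 hb.2.1, by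
    rw [ev_add_deep hP hc ha.1 hb.1 hb.2.1, ha.2.2, hb.2.2, one_mul]⟩

theorem triv_comb (hP : P.OK) (hc : P.Ctx κ 0) (l : List ℕ) (hl : ∀ d ∈ l, Triv P κ d) (cf : ℕ) :
    Triv P κ (P.comb l cf) := by
  induction l generalizing cf with
  | nil => exact ⟨nr_zero hP, dvd_zero _, ev_zero⟩
  | cons δ l ih =>
    have e1 : P.comb (δ :: l) cf = Nat.rec (motive := fun _ => ℕ) (P.comb l (Nat.div cf 4))
        (fun _ s => P.add s δ) (Nat.mod cf 4) := rfl
    rw [e1]
    generalize Nat.mod cf 4 = m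
    induction m with
    | zero => exact ih (fun d hd => hl d (List.mem_cons_of_mem _ hd)) _
    | succ m ihm => exact triv_add hP hc ihm (hl δ List.mem_cons_self)

theorem tl_dOK (hP : P.OK) {δ : ℕ} (h : P.dOK δ = true) : P.Nr δ ∧ P.B ^ P.nd ∣ δ := by
  unfold dOK at h
  rw [Bool.and_eq_true] at h
  exact ⟨hP.nrm_ok _ h.1, Nat.dvd_of_mod_eq_zero (Nat.eq_of_beq_eq_true h.2)⟩

theorem triv_chkA (hP : P.OK) (hc : P.Ctx κ 0) {e : ℕ × ℕ × ℕ × ℕ} (h : P.chkA e = true) :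
    Triv P κ e.2.2.2 := by
  unfold chkA at h
  simp only [Bool.and_eq_true] at h
  obtain ⟨⟨⟨⟨n1, n2⟩, n3⟩, n4⟩, h⟩ := h
  have m1 := hP.nrm_ok _ n1
  have m2 := hP.nrm_ok _ n2
  have m3 := hP.nrm_ok _ n3
  obtain ⟨m4, d4⟩ := tl_dOK hP n4
  obtain ⟨a1, h⟩ := tl_bind h
  obtain ⟨a2, h⟩ := tl_bind h
  obtain ⟨a3, h⟩ := tl_bind h
  obtain ⟨a4, h⟩ := tl_bind h
  have h := Nat.eq_of_beq_eq_true h
  obtain ⟨b1, c1⟩ := tl_mul hP hc m1 m2 a1
  obtain ⟨_, c2⟩ := tl_mul hP hc b1 m3 a2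
  obtain ⟨b3, c3⟩ := tl_mul hP hc m2 m3 a3
  obtain ⟨b4, c4⟩ := tl_mul hP hc m1 b3 a4
  refine ⟨m4, d4, ?_⟩
  rw [h, ev_add_deep hP hc b4 m4 d4, c4, c3, c1, ← mul_assoc] at c2
  exact mul_eq_left.mp c2

end

section
variable (x y : Γ)

theorem ms_len (md : List (ℕ × ℕ)) (acc : List Γ) :
    (md.foldl (mstep x y) acc).length = acc.length + md.length := by
  induction md generalizing acc with
  | nil => rfl
  | cons d l ih =>
    rw [List.foldl_cons, ih, List.length_cons]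
    simp only [mstep, List.length_append, List.length_singleton]
    omega

theorem ms_pre (md : List (ℕ × ℕ)) (acc : List Γ) {i : ℕ} (hi : i < acc.length) :
    (md.foldl (mstep x y) acc).getD i 1 = acc.getD i 1 := by
  induction md generalizing acc with
  | nil => rfl
  | cons d l ih =>
    rw [List.foldl_cons, ih _ (by simp only [mstep, List.length_append]; omega)]
    unfold mstep
    rw [List.getD_append _ _ _ _ hi]

theorem ms_at (md : List (ℕ × ℕ)) (acc : List Γ) {k : ℕ} (hk : k < md.length)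
    (h : (md.getD k (0, 0)).1 < acc.length + k) :
    (md.foldl (mstep x y) acc).getD (acc.length + k) 1 =
      cm ((md.foldl (mstep x y) acc).getD (md.getD k (0, 0)).1 1) (gen x y (md.getD k (0, 0)).2) := by
  induction md generalizing acc k with
  | nil => simp at hk
  | cons d l ih =>
    have hl : (mstep x y acc d).length = acc.length + 1 := by simp [mstep]
    cases k with
    | zero =>
      rw [List.getD_cons_zero] at h ⊢
      rw [Nat.add_zero] at h ⊢
      rw [ms_pre x y (d :: l) acc h, List.foldl_cons, ms_pre x y l _ (by omega)]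
      unfold mstep
      rw [List.getD_append_right _ _ _ _ le_rfl, Nat.sub_self, List.getD_cons_zero]
    | succ k =>
      rw [List.getD_cons_succ] at h ⊢
      rw [List.foldl_cons]
      have e : acc.length + (k + 1) = (mstep x y acc d).length + k := by omega
      rw [e] at h ⊢
      exact ih _ (by simpa using hk) h

theorem mu_zero (md : List (ℕ × ℕ)) (z : Γ) : mu md x y z 0 = z := by
  unfold mu muL
  rw [ms_pre x y md [z] (by simp), List.getD_cons_zero]

theorem mu_succ (md : List (ℕ × ℕ)) (z : Γ) {k : ℕ} (hk : k < md.length)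
    (h : (md.getD k (0, 0)).1 < k + 1) :
    mu md x y z (k + 1) = cm (mu md x y z (md.getD k (0, 0)).1) (gen x y (md.getD k (0, 0)).2) := by
  have := ms_at x y md [z] hk (by simpa [add_comm] using h)
  rw [List.length_singleton, add_comm] at this
  exact this

theorem mu_ge (md : List (ℕ × ℕ)) (z : Γ) {k : ℕ} (hk : md.length + 1 ≤ k) :
    mu md x y z k = 1 := by
  unfold mu muL
  apply List.getD_eq_default
  rw [ms_len, List.length_singleton]
  omega

end

theorem kq_lt (S : NSeries Γ) (x y : Γ) (s : ℕ) {k : ℕ} (hk : k < P.n) :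
    P.kq D S x y s k = QuotientGroup.mk (D.k x y k) := by
  unfold kq kh
  rw [if_pos hk]

theorem nr_let1 (hP : P.OK) (i : ℕ) : P.Nr (P.let1 i) := by
  unfold let1
  by_cases h : i < P.n
  · rw [(Nat.blt_eq ▸ h : Nat.blt i P.n = true), cond_true]
    exact nr_pow hP (h.trans hP.nN)
  · have : Nat.blt i P.n = false := by
      cases hb : Nat.blt i P.n
      · rfl
      · exact absurd (Nat.blt_eq ▸ hb) h
    rw [this, cond_false]
    exact nr_zero hP

theorem ev_let1 (hP : P.OK) (hD : P.Match D) (S : NSeries Γ) (x y : Γ) (s i : ℕ) :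
    P.ev (P.kq D S x y s) (P.let1 i) = QuotientGroup.mk (D.k x y i) := by
  unfold let1
  by_cases h : i < P.n
  · rw [(Nat.blt_eq ▸ h : Nat.blt i P.n = true), cond_true]
    unfold u
    rw [ev_pow hP (h.trans hP.nN), kq_lt S x y s h]
  · have : Nat.blt i P.n = false := by
      cases hb : Nat.blt i P.n
      · rfl
      · exact absurd (Nat.blt_eq ▸ hb) h
    rw [this, cond_false, ev_zero, k_ge hD x y (not_lt.mp h), QuotientGroup.mk_one]

theorem ev_gx (hP : P.OK) (S : NSeries Γ) (x y : Γ) (s b : ℕ) :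
    P.Nr (P.gx b) ∧ P.ev (P.kq D S x y s) (P.gx b) = QuotientGroup.mk (gen x y b) := by
  have h2 : 2 ≤ P.n := hP.nd2.trans hP.ndn
  have hN := hP.nN
  unfold gx gen u
  by_cases h : b = 0
  · rw [(Nat.beq_eq ▸ h : Nat.beq b 0 = true), cond_true, if_pos h]
    exact ⟨nr_pow hP (by omega), by rw [ev_pow hP (by omega), kq_lt S x y s (by omega), k_zero]⟩
  · have : Nat.beq b 0 = false := by
      cases hb : Nat.beq b 0
      · rfl
      · exact absurd (Nat.eq_of_beq_eq_true hb) h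
    rw [this, cond_false, if_neg h]
    exact ⟨nr_pow hP (by omega), by rw [ev_pow hP (by omega), kq_lt S x y s (by omega), k_one]⟩

theorem ev_word (hP : P.OK) (hD : P.Match D) {S : NSeries Γ} {x y : Γ} {s : ℕ}
    (hc : P.Ctx (P.kq D S x y s) 0) (l : List (ℕ × ℕ)) (h : P.mulW P.let1 l 0 ≠ P.T.F) :
    P.Nr (P.mulW P.let1 l 0) ∧
      P.ev (P.kq D S x y s) (P.mulW P.let1 l 0) = QuotientGroup.mk (evw (D.k x y) l) := by
  rcases mulW_ok hP hc P.let1 (nr_let1 hP) l (u := 0) (g := 1)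
    (Or.inr ⟨nr_zero hP, ev_zero⟩) with h1 | h1
  · exact absurd h1 h
  · refine ⟨h1.1, ?_⟩
    rw [h1.2, one_mul]
    simp only [ev_let1 hP hD]
    exact (map_evw (QuotientGroup.mk' (S.N s)) (D.k x y) l).symm

theorem tl_le (hD : P.Match D) (S : NSeries Γ) {s : ℕ} (hs : s ≤ P.c) {g : Γ}
    (hg : g ∈ S.N (D.c + 1)) : g ∈ S.N (s + 1) :=
  S.mem_of_le (by rw [hD.c]; omega) hg

/-- the words `ms` represent the iterated commutators -/
theorem ev_ms (hP : P.OK) (hD : P.Match D) {C : Crt} (hC : P.CrtOK D C) {S : NSeries Γ}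
    {x y z : Γ} (h : D.Hyp S x y z) {s : ℕ} (hs : s ≤ P.c) (hc : P.Ctx (P.kq D S x y (s + 1)) 0)
    (k : ℕ) : P.Nr (C.ms.getD k 0) ∧ P.ev (P.kq D S x y (s + 1)) (C.ms.getD k 0) =
      QuotientGroup.mk (mu D.md x y z k) := by
  induction k using Nat.strong_induction_on with
  | _ k ih =>
    cases k with
    | zero =>
      obtain ⟨e1, e2⟩ := hC.m0
      rw [← e1] at e2 ⊢
      obtain ⟨a, b⟩ := ev_word hP hD hc D.s1 e2
      refine ⟨a, ?_⟩
      rw [b, mu_zero]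
      exact (QuotientGroup.eq.mpr (tl_le hD S hs h.h1)).symm
    | succ k =>
      by_cases hk : k < D.md.length
      · have hm := hC.md k hk
        unfold chkMd at hm
        simp only [Bool.and_eq_true] at hm
        obtain ⟨⟨l1, n1⟩, hm⟩ := hm
        have l1 : (D.md.getD k (0, 0)).1 < k + 1 := Nat.blt_eq ▸ l1
        have m1 := hP.nrm_ok _ n1
        obtain ⟨a1, hm⟩ := tl_bind hm
        obtain ⟨a2, hm⟩ := tl_bind hm
        obtain ⟨a3, hm⟩ := tl_bind hm
        have hm := Nat.eq_of_beq_eq_true hm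
        obtain ⟨p1, p2⟩ := ih _ l1
        obtain ⟨g1, g2⟩ := ev_gx (D := D) hP S x y (s + 1) (D.md.getD k (0, 0)).2
        obtain ⟨b1, c1⟩ := tl_mul hP hc g1 p1 a1
        obtain ⟨_, c2⟩ := tl_mul hP hc b1 m1 a2
        obtain ⟨_, c3⟩ := tl_mul hP hc p1 g1 a3
        refine ⟨m1, ?_⟩
        rw [hm, c3, c1, p2, g2] at c2
        rw [mu_succ x y D.md z hk l1]
        unfold cm
        simp only [QuotientGroup.mk_mul, QuotientGroup.mk_inv]
        rw [mul_assoc, c2]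
        group
      · have e : C.ms.getD (k + 1) 0 = 0 := List.getD_eq_default _ _ (by rw [hC.lm]; omega)
        rw [e, mu_ge x y D.md z (by omega), ev_zero, QuotientGroup.mk_one]
        exact ⟨nr_zero hP, rfl⟩

theorem triv_rel (hP : P.OK) (hD : P.Match D) {C : Crt} (hC : P.CrtOK D C) {S : NSeries Γ}
    {x y z : Γ} (h : D.Hyp S x y z) {s : ℕ} (hs : s ≤ P.c) (hc : P.Ctx (P.kq D S x y (s + 1)) 0)
    {r : ℕ × ℕ × List (ℕ × ℕ)} (hr : r ∈ D.rels) {δ : ℕ} (hm : P.chkRel C.ms r δ = true) :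
    Triv P (P.kq D S x y (s + 1)) δ := by
  unfold chkRel at hm
  rw [Bool.and_eq_true] at hm
  obtain ⟨n4, hm⟩ := hm
  obtain ⟨m4, d4⟩ := tl_dOK hP n4
  obtain ⟨a1, hm⟩ := tl_bind hm
  obtain ⟨a2, hm⟩ := tl_bind hm
  obtain ⟨a3, hm⟩ := tl_bind hm
  have hm := Nat.eq_of_beq_eq_true hm
  have hms := ev_ms hP hD hC h hs hc
  obtain ⟨p1, p2⟩ := hms r.1
  obtain ⟨g1, g2⟩ := ev_gx (D := D) hP S x y (s + 1) r.2.1
  obtain ⟨b1, c1⟩ := tl_mul hP hc g1 p1 a1
  obtain ⟨_, c3⟩ := tl_mul hP hc p1 g1 a3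
  rcases mulW_ok hP hc (fun q => C.ms.getD q 0) (fun i => (hms i).1) r.2.2
    (Or.inr ⟨b1, c1⟩) with h1 | ⟨b2, c2⟩
  · exact absurd h1 a2
  refine ⟨m4, d4, ?_⟩
  rw [hm, ev_add_deep hP hc b2 m4 d4, c2, p2, g2] at c3
  simp only [fun i => (hms i).2] at c3
  have e : evw (fun i => (QuotientGroup.mk (mu D.md x y z i) : Γ ⧸ S.N (s + 1))) r.2.2 =
      QuotientGroup.mk (evw (mu D.md x y z) r.2.2) :=
    (map_evw (QuotientGroup.mk' (S.N (s + 1))) _ _).symm
  rw [e] at c3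
  have h4 : (QuotientGroup.mk (relw D.md x y z r) : Γ ⧸ S.N (s + 1)) = 1 :=
    (QuotientGroup.eq_one_iff _).mpr (tl_le hD S hs (h.h4 r hr))
  rw [← h4]
  unfold relw cm
  simp only [QuotientGroup.mk_mul, QuotientGroup.mk_inv]
  rw [mul_assoc _ _ (QuotientGroup.mk (gen x y r.2.1) : Γ ⧸ S.N (s + 1)), ← c3]
  group

theorem triv_k0 (hP : P.OK) (hD : P.Match D) {C : Crt} (hC : P.CrtOK D C) {S : NSeries Γ}
    {x y z : Γ} (h : D.Hyp S x y z) {s : ℕ} (hs : s ≤ P.c) (hc : P.Ctx (P.kq D S x y (s + 1)) 0) :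
    Triv P (P.kq D S x y (s + 1)) (P.u C.k0) := by
  obtain ⟨k1, k2, k3, k4, k5, k6⟩ := hC.k0
  have hn := hP.ndn
  have hB := hP.hB
  refine ⟨nr_pow hP k2, pow_dvd_pow _ (by omega), ?_⟩
  unfold u
  rw [ev_pow hP k2]
  rw [← k5] at k6
  obtain ⟨_, b⟩ := ev_word hP hD hc D.s2 k6
  rw [k5] at b
  have e1 : P.ev (P.kq D S x y (s + 1)) (P.W 1 % P.B ^ P.n) =
      QuotientGroup.mk (P.evR (D.k x y) 0 P.n (P.W 1)) := by
    unfold ev
    have eN : P.N = P.n + (P.N - P.n) := by omega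
    rw [eN, evR_add, evR_eq_one (a := 0 + P.n) (fun i hi _ => Or.inl (by
      rw [dig_mod hB, if_neg (by omega)])), mul_one,
      evR_congr (y := P.W 1) (fun i _ hi => by rw [dig_mod hB, if_pos (by omega)]),
      evR_congr_left (κ' := fun i => QuotientGroup.mk' (S.N (s + 1)) (D.k x y i)) _
        (fun i _ hi => kq_lt S x y (s + 1) (by omega)), ← map_evR]
    rfl
  have e2 : (QuotientGroup.mk (evw (D.k x y) D.s2) : Γ ⧸ S.N (s + 1)) =
      QuotientGroup.mk (y ^ D.p) := QuotientGroup.eq.mpr (tl_le hD S hs h.h2)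
  unfold kq kh Wd
  rw [if_neg (by omega), if_pos k3, if_pos k3, k4, k_one, QuotientGroup.mk_mul,
    QuotientGroup.mk_inv, ← e1, b, e2, hD.p, inv_mul_cancel]

theorem triv_all (hP : P.OK) (hD : P.Match D) {C : Crt} (hC : P.CrtOK D C) {S : NSeries Γ}
    {x y z : Γ} (h : D.Hyp S x y z) {s : ℕ} (hs : s ≤ P.c) (hc : P.Ctx (P.kq D S x y (s + 1)) 0) :
    ∀ d ∈ Crt.all P C, Triv P (P.kq D S x y (s + 1)) d := by
  intro d hd
  unfold Crt.all at hd
  rw [List.mem_cons, List.mem_cons, List.mem_append] at hd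
  rcases hd with rfl | rfl | hd | hd
  · exact triv_k0 hP hD hC h hs hc
  · obtain ⟨z1, z2, z3⟩ := hC.dz
    obtain ⟨m4, d4⟩ := tl_dOK hP z3
    refine ⟨m4, d4, ?_⟩
    obtain ⟨p1, p2⟩ := ev_ms hP hD hC h hs hc 0
    rcases mulPow_ok hP hc (u := 0) (g := 1) P.p (Or.inr ⟨nr_zero hP, ev_zero⟩) p1 with h1 | h1
    · exact absurd (z1.symm.trans h1) z2
    · rw [← z1, h1.2, p2, mu_zero, one_mul, ← QuotientGroup.mk_pow, ← hD.p]
      exact (QuotientGroup.eq_one_iff _).mpr (tl_le hD S hs h.h3)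
  · obtain ⟨k, hk, rfl⟩ := List.getElem_of_mem hd
    have hk' : k < D.rels.length := hC.lr ▸ hk
    have hm := hC.rel k hk'
    rw [List.getD_eq_getElem _ _ hk, List.getD_eq_getElem _ _ hk'] at hm
    exact triv_rel hP hD hC h hs hc (List.getElem_mem hk') hm
  · obtain ⟨e, he, rfl⟩ := List.mem_map.mp hd
    exact triv_chkA hP hc (hC.eqs e he)

theorem tails_step (hP : P.OK) (hD : P.Match D) {C : Crt} (hC : P.CrtOK D C) {S : NSeries Γ}
    {x y z : Γ} (h : D.Hyp S x y z) {s : ℕ} (hs : s ≤ P.c) (hc : P.Ctx (P.kq D S x y (s + 1)) 0)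
    (k : ℕ) (h1 : P.n ≤ k) (h2 : k < P.N) : P.kh D x y k ∈ S.N (s + 1) := by
  have t := (triv_comb hP hc _ (triv_all hP hD hC h hs hc) (C.cf k)).2.2
  rw [hC.rank k h2 h1] at t
  unfold u at t
  rw [ev_pow hP h2] at t
  exact (QuotientGroup.eq_one_iff _).mp t

theorem final_ctx (hP : P.OK) (hD : P.Match D) (hT : P.T1OK) {C : Crt} (hC : P.CrtOK D C)
    {S : NSeries Γ} {x y z : Γ} (h : D.Hyp S x y z) :
    P.Ctx (P.kq D S x y (P.c + 1)) 0 ∧
      ∀ k, P.n ≤ k → k < P.N → P.kq D S x y (P.c + 1) k = 1 := by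
  have key : ∀ s, s ≤ P.c → ∀ k, P.n ≤ k → k < P.N → P.kh D x y k ∈ S.N s := by
    intro s
    induction s with
    | zero => exact fun _ k _ _ => S.mem_zero _
    | succ s ih =>
      intro hs
      have hs' : s ≤ P.c := by omega
      exact tails_step hP hD hC h hs' (ctx_of_tails hP hD hT S h.pow x y hs' (ih hs'))
  have hc := ctx_of_tails hP hD hT S h.pow x y le_rfl (key P.c le_rfl)
  exact ⟨hc, fun k h1 h2 =>
    (QuotientGroup.eq_one_iff _).mpr (tails_step hP hD hC h le_rfl hc k h1 h2)⟩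

end Pool.Agent.Lib.MP_0813d1_al.PC.Par
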