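import Mathlib
import Pool.Agent.Lib.MP_0813d1_al.PCTails
import Pool.Agent.Lib.MP_0813d1_al.PCConcl
import Pool.Agent.Lib.MP_0813d1_al.PC3Stat
import Pool.Agent.Lib.MP_0813d1_al.PC3Chk0
import Pool.Agent.Lib.MP_0813d1_al.PC3Chk1

namespace Pool.Agent.Lib.MP_0813d1_al.PC.T3

theorem eqs_ok : ∀ l ∈ eqs, allL P.chkA l = true := by
  simp only [eqs, List.forall_mem_cons, List.not_mem_nil, false_imp_iff, implies_true, and_true]
  exact ⟨eq0_ok, eq1_ok, eq2_ok⟩

theorem chs_ok : ∀ l ∈ chs, allL (chkCh P) l = true := by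
  simp only [chs, List.forall_mem_cons, List.not_mem_nil, false_imp_iff, implies_true, and_true]
  exact ⟨ch0_ok, ch1_ok, ch2_ok, ch3_ok, ch4_ok, ch5_ok⟩

theorem C_ok : P.CrtOK D3 C where
  eqs := fun e he => by
    obtain ⟨l, hl, hel⟩ := List.mem_flatten.1 he
    exact allL_sound (eqs_ok l hl) e hel
  lm := C_lm
  m0 := C_m0
  md := C_md
  lr := C_lr
  rel := C_rel
  dz := C_dz
  k0 := C_k0
  rank := C_rank

theorem T1_ok : P.T1OK := fun j hj i hi h2 => by
  obtain ⟨ch, hch, rfl, h3, h4⟩ := covL_sound cover j (by omega) hj i (fun _ => h2) h2 hi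
  obtain ⟨l, hl, hel⟩ := List.mem_flatten.1 hch
  exact rng_sound (allL_sound (chs_ok l hl) ch hel) i h3 h4

theorem cert : D3.Cert := fun _ _ _ _ _ _ h =>
  have hf := Par.final_ctx P_ok P_match T1_ok C_ok h
  Par.concl_of_ctx P_ok P_match h.gen hf.1 hf.2

end Pool.Agent.Lib.MP_0813d1_al.PC.T3
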