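import Mathlib
import Pool.Agent.Lib.MP_0813d1_al.Serre

namespace Pool.Agent.Lib.MP_0813d1_al

section Serre
variable (K : Type*) {L : Type*} [Field K] [LieRing L] [LieAlgebra K L]

namespace SerreAux

variable {K}

theorem stepQ3 (h2 : (2 : K) ≠ 0) (x y : L) (h3 : sC K x y 2 = 0) (n : ℕ)
    (ihP : ∀ m, m ≤ n → P K x y m) (ihQ : ∀ m, m < n → Q K x y m) : Q K x y n := by
  have small : n ≤ 2 → sC K x y n = 0 := by
    intro hn
    have t := (ihP n le_rfl).t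
    interval_cases n
    · rfl
    · exact cancel_nat (K := K) 2 (by simpa using h2) t
    · exact h3
  have jE : ∀ a b c, a + b + c = n →
      ⁅sE K x y a, ⁅sE K x y b, sF K x y c⁆⁆ = ⁅sE K x y b, ⁅sE K x y a, sF K x y c⁆⁆ := by
    intro a b c h
    rw [leibniz_lie, (ihP (a + b) (by omega)).ee a b rfl, zero_lie, zero_add]
  have jF : ∀ a b c, a + b + c = n →
      ⁅sF K x y a, ⁅sE K x y c, sF K x y b⁆⁆ = ⁅sF K x y b, ⁅sE K x y c, sF K x y a⁆⁆ := by
    intro a b c h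
    rw [← lie_skew (sE K x y c) (sF K x y b), ← lie_skew (sE K x y c) (sF K x y a), lie_neg,
      lie_neg, leibniz_lie, (ihP (a + b) (by omega)).ff a b rfl, zero_lie, zero_add]
  have vE : ∀ a b c, a + b + c = n → 1 ≤ a →
      ⁅sE K x y a, ⁅sE K x y b, sF K x y c⁆⁆ = ⁅sE K x y a, sH K x y (b + c)⁆ := by
    intro a b c h ha
    rw [(ihP (b + c) (by omega)).ef b c rfl, lie_add, lie_nsmul,
      cenE (ihQ (b + c) (by omega)).cx (ihQ (b + c) (by omega)).cy, smul_zero, add_zero]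
  have vF : ∀ a b c, a + b + c = n → 1 ≤ a →
      ⁅sF K x y a, ⁅sE K x y c, sF K x y b⁆⁆ = ⁅sF K x y a, sH K x y (c + b)⁆ := by
    intro a b c h ha
    rw [(ihP (c + b) (by omega)).ef c b rfl, lie_add, lie_nsmul,
      cenF (ihQ (c + b) (by omega)).cx (ihQ (c + b) (by omega)).cy, smul_zero, add_zero]
  have uE : ∀ b c, b + c = n → 1 ≤ b →
      ⁅sE K x y b, sH K x y c⁆ = ⁅x, sH K x y n⁆ + b • ⁅x, sC K x y n⁆ := by
    intro b c h hb
    have e := jE 0 b c (by omega)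
    rw [vE b 0 c (by omega) hb, (ihP n le_rfl).ef b c h, lie_add, lie_nsmul, zero_add] at e
    exact e.symm
  have uF : ∀ b c, b + c = n → 1 ≤ b →
      ⁅sF K x y b, sH K x y c⁆ = ⁅y, sH K x y n⁆ + c • ⁅y, sC K x y n⁆ := by
    intro b c h hb
    have e := jF 0 b c (by omega)
    rw [vF b 0 c (by omega) hb, (ihP n le_rfl).ef c b (by omega), lie_add, lie_nsmul,
      add_zero] at e
    exact e.symm
  have cx : ⁅x, sC K x y n⁆ = 0 := by
    by_cases hn : n ≤ 2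
    · rw [small hn, lie_zero]
    · obtain ⟨c, rfl⟩ : ∃ c, n = c + 3 := ⟨n - 3, by omega⟩
      have e := jE 1 2 c (by omega)
      rw [vE 1 2 c (by omega) (by omega), vE 2 1 c (by omega) (by omega),
        uE 1 (2 + c) (by omega) (by omega), uE 2 (1 + c) (by omega) (by omega)] at e
      have e2 := add_left_cancel e
      rw [one_smul, two_smul] at e2
      simpa using e2
  have cy : ⁅y, sC K x y n⁆ = 0 := by
    by_cases hn : n ≤ 2
    · rw [small hn, lie_zero]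
    · obtain ⟨c, rfl⟩ : ∃ c, n = c + 3 := ⟨n - 3, by omega⟩
      have e := jF 1 2 c (by omega)
      rw [vF 1 2 c (by omega) (by omega), vF 2 1 c (by omega) (by omega),
        uF 1 (c + 2) (by omega) (by omega), uF 2 (c + 1) (by omega) (by omega)] at e
      have e2 := add_left_cancel e
      rw [show c + 2 = (c + 1) + 1 from rfl, succ_nsmul _ (c + 1)] at e2
      simpa using e2
  have wE : ∀ i j, i + j = n → ⁅sE K x y j, sH K x y i⁆ = ⁅x, sH K x y n⁆ := by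
    intro i j h
    rcases j with _ | j
    · obtain rfl : i = n := by omega
      rfl
    · rw [uE (j + 1) i (by omega) (by omega), cx, smul_zero, add_zero]
  have wF : ∀ i j, i + j = n → ⁅sF K x y j, sH K x y i⁆ = ⁅y, sH K x y n⁆ := by
    intro i j h
    rcases j with _ | j
    · obtain rfl : i = n := by omega
      rfl
    · rw [uF (j + 1) i (by omega) (by omega), cy, smul_zero, add_zero]
  refine ⟨fun i j h => ?_, fun i j h => ?_, cx, cy⟩
  · rw [← lie_skew, wE i j h, ← wE 0 n (by omega), lie_skew, hE h2]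
  · rw [← lie_skew, wF i j h, ← wF 0 n (by omega), lie_skew, hF h2]

theorem all3 (h2 : (2 : K) ≠ 0) (x y : L) (h3 : sC K x y 2 = 0)
    (hx : ⁅x, ⁅x, ⁅x, y⁆⁆⁆ = 0) (hy : ⁅y, ⁅y, ⁅y, x⁆⁆⁆ = 0) (n : ℕ) :
    P K x y n ∧ Q K x y n := by
  induction n using Nat.strong_induction_on with
  | _ n ih =>
    have hP := stepP h2 x y hx hy n (fun m hm => (ih m hm).1) (fun m hm => (ih m hm).2)
    refine ⟨hP, stepQ3 h2 x y h3 n (fun m hm => ?_) (fun m hm => (ih m hm).2)⟩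
    rcases hm.lt_or_eq with hm | rfl
    · exact (ih m hm).1
    · exact hP

end SerreAux

theorem serre3 (h2 : (2 : K) ≠ 0) (x y : L) (h3 : sC K x y 2 = 0)
    (hx : ⁅x, ⁅x, ⁅x, y⁆⁆⁆ = 0) (hy : ⁅y, ⁅y, ⁅y, x⁆⁆⁆ = 0) :
    (∀ i j, ⁅sE K x y i, sE K x y j⁆ = 0) ∧
    (∀ i j, ⁅sF K x y i, sF K x y j⁆ = 0) ∧
    (∀ i j, ⁅sE K x y i, sF K x y j⁆ = sH K x y (i + j) + i • sC K x y (i + j)) ∧
    (∀ i j, ⁅sH K x y i, sE K x y j⁆ = 2 • sE K x y (i + j + 1)) ∧
    (∀ i j, ⁅sH K x y i, sF K x y j⁆ = -(2 • sF K x y (i + j + 1))) ∧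
    (∀ i j, ⁅sH K x y i, sH K x y j⁆ = (2 * (i + 1)) • sC K x y (i + j + 1)) ∧
    (∀ l, ⁅x, sC K x y l⁆ = 0 ∧ ⁅y, sC K x y l⁆ = 0) ∧
    (∀ l, (l + 1) • sC K x y l = 0) := by
  have A := SerreAux.all3 h2 x y h3 hx hy
  exact ⟨fun i j => (A _).1.ee i j rfl, fun i j => (A _).1.ff i j rfl,
    fun i j => (A _).1.ef i j rfl, fun i j => (A _).2.he i j rfl, fun i j => (A _).2.hf i j rfl,
    fun i j => (A _).1.hh i j rfl, fun l => ⟨(A l).2.cx, (A l).2.cy⟩, fun l => (A l).1.t⟩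

end Serre

end Pool.Agent.Lib.MP_0813d1_al
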