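import Mathlib
import Pool.Agent.Lib.MP_0813d1_al.Model3
import Pool.Agent.Lib.MP_0813d1_al.PC3Words

namespace Pool.Agent.Lib.MP_0813d1_al.Three

open PC

/-! ### computable truncated polynomials over `F_3` -/

def padd : List ℕ → List ℕ → List ℕ
  | [], m => m
  | a :: l, [] => a :: l
  | a :: l, b :: m => (a + b) :: padd l m

def psm (c : ℕ) (l : List ℕ) : List ℕ := l.map (c * ·)

def pmul : ℕ → List ℕ → List ℕ → List ℕ
  | 0, _, _ => []
  | _ + 1, [], _ => []
  | K + 1, 0 :: l, m => 0 :: pmul K l m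
  | K + 1, (a + 1) :: l, m => padd (psm (a + 1) (m.take (K + 1))) (0 :: pmul K l m)

def red3 (n : ℕ) (k : ℕ → Bool) : Bool :=
  match n % 3 with
  | 0 => k 0
  | 1 => k 1
  | _ => k 2

def forceL : List ℕ → (List ℕ → Bool) → Bool
  | [], k => k []
  | a :: l, k => red3 a fun a' => forceL l fun l' => k (a' :: l')

theorem red3_eq (n : ℕ) (k : ℕ → Bool) : red3 n k = k (n % 3) := by
  have h : n % 3 < 3 := Nat.mod_lt _ (by omega)
  unfold red3
  generalize n % 3 = m at h
  interval_cases m <;> rfl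

theorem forceL_eq (l : List ℕ) (k : List ℕ → Bool) : forceL l k = k (l.map (· % 3)) := by
  induction l generalizing k with
  | nil => rfl
  | cons a l ih => rw [forceL, red3_eq, ih]; rfl

def isZ (l : List ℕ) : Bool := l.all fun a => a % 3 == 0

structure PM where
  a : List ℕ
  b : List ℕ
  c : List ℕ
  d : List ℕ

def forceM (A : PM) (k : PM → Bool) : Bool :=
  match A with
  | ⟨a, b, c, d⟩ => forceL a fun a' => forceL b fun b' => forceL c fun c' => forceL d fun d' =>
      k ⟨a', b', c', d'⟩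

def PM.one : PM := ⟨[1], [], [], [1]⟩
def PM.zero : PM := ⟨[], [], [], []⟩
def PM.add (A B : PM) : PM := ⟨padd A.a B.a, padd A.b B.b, padd A.c B.c, padd A.d B.d⟩
def PM.sm (e : ℕ) (A : PM) : PM := ⟨psm e A.a, psm e A.b, psm e A.c, psm e A.d⟩
def PM.adj (A : PM) : PM := ⟨A.d, psm 2 A.b, psm 2 A.c, A.a⟩
def PM.mul (K : ℕ) (A B : PM) : PM :=
  ⟨padd (pmul K A.a B.a) (pmul K A.b B.c), padd (pmul K A.a B.b) (pmul K A.b B.d),
    padd (pmul K A.c B.a) (pmul K A.d B.c), padd (pmul K A.c B.b) (pmul K A.d B.d)⟩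
def PM.isZ (A : PM) : Bool := Three.isZ A.a && Three.isZ A.b && Three.isZ A.c && Three.isZ A.d

def pX : PM := ⟨[1], [0, 1], [], [1]⟩
def pY : PM := ⟨[1], [], [0, 1], [1]⟩

def powK (A : PM) : ℕ → (PM → Bool) → Bool
  | 0, k => k PM.one
  | e + 1, k => powK A e fun B => forceM (PM.mul 21 B A) k

def cmK (A B : PM) (k : PM → Bool) : Bool :=
  forceM A.adj fun A' => forceM B.adj fun B' => forceM (PM.mul 21 A' B') fun C =>
    forceM (PM.mul 21 C A) fun C' => forceM (PM.mul 21 C' B) k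

def kapK : List (ℕ × ℕ × ℕ) → List PM → (List PM → Bool) → Bool
  | [], acc, k => k acc
  | d :: ds, acc, k => forceM (acc.getD d.2.1 PM.one) fun A =>
      if d.1 = 1 then powK A 3 fun C => kapK ds (acc ++ [C]) k
      else forceM (acc.getD d.2.2 PM.one) fun B => cmK A B fun C => kapK ds (acc ++ [C]) k

def evwK (κ : List PM) : List (ℕ × ℕ) → (PM → Bool) → Bool
  | [], k => k PM.one
  | q :: w, k => evwK κ w fun B => forceM (κ.getD q.1 PM.one) fun A => powK A q.2 fun C =>
      forceM (PM.mul 21 C B) k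

def chk1 : Bool := kapK D3.defs [pX, pY] fun κ => evwK κ D3.s1 fun A => evwK κ D3.s2 fun B =>
  powK pY 3 fun C => (A.add (PM.one.sm 2)).isZ && (B.add (C.sm 2)).isZ

theorem chk1_true : chk1 = true := by decide +kernel

def pG (b : ℕ) : PM := if b = 0 then pX else pY

def cmA (X : PM) (b : ℕ) (k : PM → Bool) : Bool :=
  forceM (pG b) fun G => forceM G.adj fun G' => forceM (PM.mul 19 G' X) fun C =>
    forceM (PM.mul 19 C G) fun C' => forceM ((X.sm 2).add C') k

def muK : List (ℕ × ℕ) → List PM → (List PM → Bool) → Bool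
  | [], acc, k => k acc
  | d :: ds, acc, k => forceM (acc.getD d.1 PM.zero) fun A => cmA A d.2 fun C =>
      muK ds (acc ++ [C]) k

def evwA (μ : List PM) : List (ℕ × ℕ) → (PM → Bool) → Bool
  | [], k => k PM.zero
  | q :: w, k => evwA μ w fun B => forceM (μ.getD q.1 PM.zero) fun A =>
      forceM ((A.sm q.2).add B) k

def chk2 : Bool := muK D3.md [⟨[], [], [1], []⟩] fun μ => D3.rels.all fun r =>
  evwA μ r.2.2 fun A => forceM (μ.getD r.1 PM.zero) fun X => cmA X r.2.1 fun B =>
    ((A.sm 2).add B).isZ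

theorem chk2_true : chk2 = true := by decide +kernel

end Pool.Agent.Lib.MP_0813d1_al.Three
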