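import Mathlib
import Pool.Agent.Lib.MP_0813d1_al.Three2

namespace Pool.Agent.Lib.MP_0813d1_al.Three

open PC

variable {N a : ℕ}

noncomputable def ev (N : ℕ) : List ℕ → Tr 3 N
  | [] => 0
  | a :: l => a + wv 3 N * ev N l

theorem three_eq_zero : (3 : Tr 3 N) = 0 := by
  have := natCast_p_eq_zero (p := 3) (N := N)
  exact_mod_cast this

theorem cast_mod (c : ℕ) : ((c % 3 : ℕ) : Tr 3 N) = c := by
  conv_rhs => rw [← Nat.mod_add_div c 3]
  push_cast
  rw [three_eq_zero]; ring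

theorem ev_padd (l m : List ℕ) : ev N (padd l m) = ev N l + ev N m := by
  induction l generalizing m with
  | nil => simp [padd, ev]
  | cons a l ih =>
    cases m with
    | nil => simp [padd, ev]
    | cons b m => simp only [padd, ev, ih]; push_cast; ring

theorem ev_psm (c : ℕ) (l : List ℕ) : ev N (psm c l) = c * ev N l := by
  induction l with
  | nil => simp [psm, ev]
  | cons a l ih =>
    have : psm c (a :: l) = (c * a) :: psm c l := rfl
    simp only [this, ev, ih]; push_cast; ring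

theorem ev_mod (l : List ℕ) : ev N (l.map (· % 3)) = ev N l := by
  induction l with
  | nil => rfl
  | cons a l ih => simp only [List.map_cons, ev, ih, cast_mod]

theorem w_mul_mem {K : ℕ} {x : Tr 3 N} (h : x ∈ Iw 3 N K) : wv 3 N * x ∈ Iw 3 N (K + 1) := by
  have := mul_mem_Iw (wv_pow_mem_Iw 3 N 1) h
  rwa [pow_one, add_comm] at this

theorem ev_take (K : ℕ) (l : List ℕ) : ev N (l.take K) - ev N l ∈ Iw 3 N K := by
  induction K generalizing l with
  | zero => exact mem_Iw_zero _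
  | succ K ih =>
    cases l with
    | nil => simp [ev]
    | cons a l =>
      have e : ev N ((a :: l).take (K + 1)) - ev N (a :: l) =
          wv 3 N * (ev N (l.take K) - ev N l) := by
        simp only [List.take_succ_cons, ev]; ring
      rw [e]; exact w_mul_mem (ih l)

theorem ev_pmul (K : ℕ) (l m : List ℕ) : ev N (pmul K l m) - ev N l * ev N m ∈ Iw 3 N K := by
  induction K generalizing l with
  | zero => exact mem_Iw_zero _
  | succ K ih =>
    rcases l with _ | ⟨_ | c, l⟩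
    · simp [pmul, ev]
    · have e : ev N (pmul (K + 1) (0 :: l) m) - ev N (0 :: l) * ev N m =
          wv 3 N * (ev N (pmul K l m) - ev N l * ev N m) := by
        simp only [pmul, ev]; push_cast; ring
      rw [e]; exact w_mul_mem (ih l)
    · have e : ev N (pmul (K + 1) ((c + 1) :: l) m) - ev N ((c + 1) :: l) * ev N m =
          wv 3 N * (ev N (pmul K l m) - ev N l * ev N m) +
            ((c + 1 : ℕ) : Tr 3 N) * (ev N (m.take (K + 1)) - ev N m) := by
        simp only [pmul, ev, ev_padd, ev_psm]; push_cast; ring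
      rw [e]; exact Ideal.add_mem _ (w_mul_mem (ih l)) (Ideal.mul_mem_left _ _ (ev_take _ _))

theorem ev_isZ {l : List ℕ} (h : isZ l = true) : ev N l = 0 := by
  induction l with
  | nil => rfl
  | cons c l ih =>
    simp only [isZ, List.all_cons, Bool.and_eq_true, beq_iff_eq] at h
    rw [ev, ih h.2, ← cast_mod, h.1]; simp

noncomputable def evM (N : ℕ) (A : PM) : Mat (Tr 3 N) :=
  !![ev N A.a, ev N A.b; ev N A.c, ev N A.d]

theorem forceM_spec {A : PM} {k : PM → Bool} (h : forceM A k = true) :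
    ∃ B, evM N B = evM N A ∧ k B = true := by
  obtain ⟨a, b, c, d⟩ := A
  simp only [forceM, forceL_eq] at h
  exact ⟨_, by simp only [evM, ev_mod], h⟩

theorem evM_one : evM N PM.one = 1 := by
  ext r s; fin_cases r <;> fin_cases s <;> simp [evM, PM.one, ev]

theorem evM_zero : evM N PM.zero = 0 := by
  ext r s; fin_cases r <;> fin_cases s <;> simp [evM, PM.zero, ev]

theorem evM_add (A B : PM) : evM N (A.add B) = evM N A + evM N B := by
  ext r s; fin_cases r <;> fin_cases s <;> simp [evM, PM.add, ev_padd]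

theorem evM_sm (e : ℕ) (A : PM) : evM N (A.sm e) = e • evM N A := by
  ext r s; fin_cases r <;> fin_cases s <;> simp [evM, PM.sm, ev_psm]

theorem two_eq : (2 : Tr 3 N) = -1 := by linear_combination three_eq_zero (N := N)

theorem evM_sm_two (A : PM) : evM N (A.sm 2) = -evM N A := by
  ext r s; fin_cases r <;> fin_cases s <;> simp [evM, PM.sm, ev_psm, two_eq]

theorem evM_adj (A : PM) : evM N A.adj = (evM N A).adjugate := by
  rw [evM, evM, Matrix.adjugate_fin_two_of]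
  simp [PM.adj, ev_psm, two_eq]

theorem evM_mul (K : ℕ) (A B : PM) : InI K (evM N (PM.mul K A B) - evM N A * evM N B) := by
  have key : ∀ l m l' m' : List ℕ, ev N (padd (pmul K l m) (pmul K l' m')) -
      (ev N l * ev N m + ev N l' * ev N m') ∈ Iw 3 N K := by
    intro l m l' m'
    have := Ideal.add_mem _ (ev_pmul (N := N) K l m) (ev_pmul (N := N) K l' m')
    rw [ev_padd]; convert this using 1; ring
  intro r s
  fin_cases r <;> fin_cases s <;> simpa [evM, PM.mul, Matrix.mul_apply, Fin.sum_univ_two] using key _ _ _ _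

theorem evM_isZ {A : PM} (h : A.isZ = true) : evM N A = 0 := by
  simp only [PM.isZ, Bool.and_eq_true] at h
  ext r s; fin_cases r <;> fin_cases s <;> simp [evM, ev_isZ, h]

theorem evM_pX : evM N pX = !![1, wv 3 N; 0, 1] := by simp [evM, pX, ev]
theorem evM_pY : evM N pY = !![1, 0; wv 3 N, 1] := by simp [evM, pY, ev]

theorem InI.adj {n : ℕ} {X Y : Mat (Tr 3 N)} (h : InI n (X - Y)) :
    InI n (X.adjugate - Y.adjugate) := by
  have h00 := h 0 0
  have h01 := neg_mem (h 0 1)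
  have h10 := neg_mem (h 1 0)
  have h11 := h 1 1
  simp only [Matrix.sub_apply, neg_sub] at h00 h01 h10 h11
  intro r s
  fin_cases r <;> fin_cases s <;>
    simp [Matrix.adjugate_fin_two, h00, h11, neg_add_eq_sub, h01, h10]

/-! ### first check -/

def Sim (u : Qs 3 N a) (A : PM) : Prop := InI 21 (u.1.m - evM N A)

theorem Sim.congr {u : Qs 3 N a} {A B : PM} (h : Sim u A) (e : evM N B = evM N A) : Sim u B := by
  unfold Sim; rw [e]; exact h

theorem Sim.one : Sim (1 : Qs 3 N a) PM.one := by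
  unfold Sim; rw [evM_one]
  change InI 21 ((1 : TM 3 N).m - 1)
  rw [TM.one_m, sub_self]; exact InI.zero _

theorem Sim.mul (hq : 21 ≤ 3 ^ a) {u v : Qs 3 N a} {A B : PM} (hu : Sim u A) (hv : Sim v B) :
    Sim (u * v) (PM.mul 21 A B) := by
  have h1 : InI 21 (u.1.g.mapMatrix v.1.m - v.1.m) :=
    (Qn_twist' (n := 0) le_rfl (mem_Qn_one u) (mem_Qn_one v)).mono (by omega)
  have e : (u * v).1.m - evM N (PM.mul 21 A B) = u.1.m * (u.1.g.mapMatrix v.1.m - v.1.m) +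
      (u.1.m - evM N A) * v.1.m + evM N A * (v.1.m - evM N B) -
        (evM N (PM.mul 21 A B) - evM N A * evM N B) := by
    rw [Subgroup.coe_mul, TM.mul_m]; noncomm_ring
  unfold Sim; rw [e]
  exact (((h1.mul_left _).add (InI.mul_right hu _)).add (InI.mul_left _ hv)).sub (evM_mul _ _ _)

theorem Sim.inv (hq : 21 ≤ 3 ^ a) {u : Qs 3 N a} {A : PM} (hu : Sim u A) : Sim u⁻¹ A.adj := by
  have h1 : InI 21 ((u⁻¹).1.g.mapMatrix u.1.m.adjugate - u.1.m.adjugate) :=
    (Qn_twist' (n := 0) le_rfl (mem_Qn_one u⁻¹) (InI.adj_sub_one (mem_Qn_one u))).mono (by omega)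
  have e : (u⁻¹).1.m - evM N A.adj = ((u⁻¹).1.g.mapMatrix u.1.m.adjugate - u.1.m.adjugate) +
      (u.1.m.adjugate - (evM N A).adjugate) := by
    have : (u⁻¹).1.m = (u⁻¹).1.g.mapMatrix u.1.m.adjugate := rfl
    rw [this, evM_adj]; abel
  unfold Sim; rw [e]
  exact h1.add (InI.adj hu)

theorem force_sim {u : Qs 3 N a} {A : PM} {k : PM → Bool} (hu : Sim u A)
    (h : forceM A k = true) : ∃ B, Sim u B ∧ k B = true := by
  obtain ⟨B, e, hB⟩ := forceM_spec (N := N) h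
  exact ⟨B, hu.congr e, hB⟩

theorem powK_sim (hq : 21 ≤ 3 ^ a) {u : Qs 3 N a} {A : PM} (hu : Sim u A) (e : ℕ)
    {k : PM → Bool} (h : powK A e k = true) : ∃ B, Sim (u ^ e) B ∧ k B = true := by
  induction e generalizing k with
  | zero => exact ⟨_, by rw [pow_zero]; exact Sim.one, h⟩
  | succ e ih =>
    obtain ⟨B, hB, h1⟩ := ih h
    rw [pow_succ]
    exact force_sim (hB.mul hq hu) h1

theorem cmK_sim (hq : 21 ≤ 3 ^ a) {u v : Qs 3 N a} {A B : PM} (hu : Sim u A) (hv : Sim v B)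
    {k : PM → Bool} (h : cmK A B k = true) : ∃ C, Sim (cm u v) C ∧ k C = true := by
  obtain ⟨A', hA, h⟩ := force_sim (hu.inv hq) h
  obtain ⟨B', hB, h⟩ := force_sim (hv.inv hq) h
  obtain ⟨C, hC, h⟩ := force_sim (hA.mul hq hB) h
  obtain ⟨C', hC', h⟩ := force_sim (hC.mul hq hu) h
  exact force_sim (hC'.mul hq hv) h

theorem forall₂_getD {α β : Type*} {R : α → β → Prop} {l : List α} {l' : List β}
    (h : List.Forall₂ R l l') {x : α} {y : β} (hxy : R x y) (i : ℕ) :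
    R (l.getD i x) (l'.getD i y) := by
  induction h generalizing i with
  | nil => simpa using hxy
  | cons h1 _ ih =>
    cases i with
    | zero => simpa using h1
    | succ i => simpa using ih i

theorem forall₂_snoc {α β : Type*} {R : α → β → Prop} {l : List α} {l' : List β}
    (h : List.Forall₂ R l l') {x : α} {y : β} (hxy : R x y) :
    List.Forall₂ R (l ++ [x]) (l' ++ [y]) :=
  List.rel_append h (List.Forall₂.cons hxy List.Forall₂.nil)

theorem kapK_sim (hq : 21 ≤ 3 ^ a) (ds : List (ℕ × ℕ × ℕ)) {us : List (Qs 3 N a)}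
    {acc : List PM} (hu : List.Forall₂ Sim us acc) {k : List PM → Bool}
    (h : kapK ds acc k = true) :
    ∃ κ, List.Forall₂ Sim (ds.foldl (kstep 3) us) κ ∧ k κ = true := by
  induction ds generalizing us acc with
  | nil => exact ⟨acc, hu, h⟩
  | cons d ds ih =>
    obtain ⟨A, hA, h⟩ := force_sim (forall₂_getD hu Sim.one d.2.1) h
    rw [List.foldl_cons]
    by_cases hd : d.1 = 1
    · rw [if_pos hd] at h
      obtain ⟨C, hC, h⟩ := powK_sim hq hA 3 h
      exact ih (by unfold kstep; rw [if_pos hd]; exact forall₂_snoc hu hC) h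
    · rw [if_neg hd] at h
      obtain ⟨B, hB, h⟩ := force_sim (forall₂_getD hu Sim.one d.2.2) h
      obtain ⟨C, hC, h⟩ := cmK_sim hq hA hB h
      exact ih (by unfold kstep; rw [if_neg hd]; exact forall₂_snoc hu hC) h

theorem evw_cons {Γ : Type*} [Group Γ] (κ : ℕ → Γ) (q : ℕ × ℕ) (w : List (ℕ × ℕ)) :
    evw κ (q :: w) = κ q.1 ^ q.2 * evw κ w := by simp [evw]

theorem evwK_sim (hq : 21 ≤ 3 ^ a) {us : List (Qs 3 N a)} {κ : List PM}
    (hu : List.Forall₂ Sim us κ) (w : List (ℕ × ℕ)) {k : PM → Bool} (h : evwK κ w k = true) :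
    ∃ A, Sim (evw (fun i => us.getD i 1) w) A ∧ k A = true := by
  induction w generalizing k with
  | nil => exact ⟨_, Sim.one, h⟩
  | cons q w ih =>
    obtain ⟨B, hB, h⟩ := ih h
    obtain ⟨A, hA, h⟩ := force_sim (forall₂_getD hu Sim.one q.1) h
    obtain ⟨C, hC, h⟩ := powK_sim hq hA q.2 h
    rw [evw_cons]
    exact force_sim (hC.mul hq hB) h

theorem check1_gen (hq : 21 ≤ 3 ^ a) {x y : Qs 3 N a} (hx : x.1.m = !![1, wv 3 N; 0, 1])
    (hy : y.1.m = !![1, 0; wv 3 N, 1]) (ds : List (ℕ × ℕ × ℕ)) (s1 s2 : List (ℕ × ℕ))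
    (h : (kapK ds [pX, pY] fun κ => evwK κ s1 fun A => evwK κ s2 fun B =>
      powK pY 3 fun C => (A.add (PM.one.sm 2)).isZ && (B.add (C.sm 2)).isZ) = true) :
    evw (kap 3 ds x y) s1 ∈ Qn 3 N a 21 ∧ (evw (kap 3 ds x y) s2)⁻¹ * y ^ 3 ∈ Qn 3 N a 21 := by
  have sx : Sim x pX := by unfold Sim; rw [evM_pX, hx, sub_self]; exact InI.zero _
  have sy : Sim y pY := by unfold Sim; rw [evM_pY, hy, sub_self]; exact InI.zero _
  obtain ⟨κ, hκ, h⟩ := kapK_sim hq ds (.cons sx (.cons sy .nil)) h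
  obtain ⟨A, hA, h⟩ := evwK_sim hq hκ s1 h
  obtain ⟨B, hB, h⟩ := evwK_sim hq hκ s2 h
  obtain ⟨C, hC, h⟩ := powK_sim hq sy 3 h
  rw [Bool.and_eq_true] at h
  have h1 := evM_isZ (N := N) h.1
  have h2 := evM_isZ (N := N) h.2
  rw [evM_add, evM_sm_two, ← sub_eq_add_neg, sub_eq_zero] at h1 h2
  rw [evM_one] at h1
  have e : kap 3 ds x y = fun i => (ds.foldl (kstep 3) [x, y]).getD i 1 := rfl
  rw [e]
  constructor
  · unfold Sim at hA
    rw [h1] at hA
    exact hA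
  · have h3 := (hB.inv hq).mul hq (hC.congr h2)
    have h4 := (hB.inv hq).mul hq hB
    rw [inv_mul_cancel] at h4
    have h5 := InI.sub h3 h4
    rw [sub_sub_sub_cancel_right] at h5
    exact h5

theorem check1 (hq : 21 ≤ 3 ^ a) {x y : Qs 3 N a} (hx : x.1.m = !![1, wv 3 N; 0, 1])
    (hy : y.1.m = !![1, 0; wv 3 N, 1]) :
    evw (kap 3 D3.defs x y) D3.s1 ∈ Qn 3 N a 21 ∧
      (evw (kap 3 D3.defs x y) D3.s2)⁻¹ * y ^ 3 ∈ Qn 3 N a 21 := by
  have h := chk1_true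
  unfold chk1 at h
  exact check1_gen hq hx hy _ _ _ h

/-! ### second check -/

def Ap (n : ℕ) (u : Qs 3 N a) (X : Mat (Tr 3 N)) : Prop :=
  InI (n + 19) (u.1.m - 1 - wv 3 N ^ n • X)

theorem InI.wsmul {n K : ℕ} {X : Mat (Tr 3 N)} (h : InI K X) : InI (n + K) (wv 3 N ^ n • X) :=
  fun r c => mul_mem_Iw (wv_pow_mem_Iw 3 N n) (h r c)

theorem InI.wsmul0 (n : ℕ) (X : Mat (Tr 3 N)) : InI n (wv 3 N ^ n • X) :=
  fun r c => mem_Iw.2 ⟨X r c, rfl⟩

theorem Ap.mem {n : ℕ} {u : Qs 3 N a} {X : Mat (Tr 3 N)} (h : Ap n u X) : u ∈ Qn 3 N a n := by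
  have := (InI.mono h (Nat.le_add_right n 19)).add (InI.wsmul0 n X)
  rwa [sub_add_cancel] at this

theorem Ap.of_sub {n : ℕ} {u : Qs 3 N a} {X Y : Mat (Tr 3 N)} (h : Ap n u X)
    (e : InI 19 (Y - X)) : Ap n u Y := by
  have := InI.sub h (InI.wsmul (n := n) e)
  have e : u.1.m - 1 - wv 3 N ^ n • X - wv 3 N ^ n • (Y - X) = u.1.m - 1 - wv 3 N ^ n • Y := by
    rw [smul_sub]; abel
  rw [e] at this
  exact this

theorem Ap.one (n : ℕ) : Ap n (1 : Qs 3 N a) 0 := by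
  unfold Ap
  change InI _ ((1 : TM 3 N).m - 1 - _)
  rw [TM.one_m, sub_self, smul_zero, sub_zero]; exact InI.zero _

theorem Ap.mul (hq : 21 ≤ 3 ^ a) {n : ℕ} (hn : 19 ≤ n) {u v : Qs 3 N a} {X Y : Mat (Tr 3 N)}
    (hu : Ap n u X) (hv : Ap n v Y) : Ap n (u * v) (X + Y) := by
  obtain ⟨k, rfl⟩ : ∃ k, n = k + 1 := ⟨n - 1, by omega⟩
  have h1 : InI (k + 1 + 19) (u.1.g.mapMatrix v.1.m - v.1.m) :=
    (Qn_twist' (by omega) hu.mem hv.mem).mono (by nlinarith)
  have h2 : InI (k + 1 + 19) ((u.1.m - 1) * (u.1.g.mapMatrix v.1.m - 1)) :=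
    (InI.mul hu.mem (InI.map_sub_one hv.mem _ (Qs.isQ u).gw)).mono (by omega)
  have e : (u * v).1.m - 1 - wv 3 N ^ (k + 1) • (X + Y) =
      (u.1.m - 1) * (u.1.g.mapMatrix v.1.m - 1) + (u.1.g.mapMatrix v.1.m - v.1.m) +
        (u.1.m - 1 - wv 3 N ^ (k + 1) • X) + (v.1.m - 1 - wv 3 N ^ (k + 1) • Y) := by
    rw [smul_add, Subgroup.coe_mul, TM.mul_m]; noncomm_ring
  unfold Ap
  rw [e]
  exact ((h2.add h1).add hu).add hv

theorem Ap.pow (hq : 21 ≤ 3 ^ a) {n : ℕ} (hn : 19 ≤ n) {u : Qs 3 N a} {X : Mat (Tr 3 N)}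
    (hu : Ap n u X) (k : ℕ) : Ap n (u ^ k) (k • X) := by
  induction k with
  | zero => simpa using Ap.one n
  | succ k ih => rw [pow_succ, succ_nsmul]; exact ih.mul hq hn hu

theorem Ap.zero_iff {n : ℕ} {u : Qs 3 N a} : Ap n u 0 ↔ u ∈ Qn 3 N a (n + 19) := by
  rw [Ap, smul_zero, sub_zero]; rfl

theorem three_nsmul (X : Mat (Tr 3 N)) : 3 • X = 0 := by
  ext r s; simp [three_eq_zero]

theorem Ap.inv (hq : 21 ≤ 3 ^ a) {n : ℕ} (hn : 19 ≤ n) {u : Qs 3 N a} {X : Mat (Tr 3 N)}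
    (hu : Ap n u X) : Ap n u⁻¹ (2 • X) := by
  have h3 := hu.pow hq hn 3
  rw [three_nsmul, Ap.zero_iff] at h3
  have h4 := (Ap.zero_iff.2 (inv_mem h3)).mul hq hn (hu.pow hq hn 2)
  rwa [zero_add, show (u ^ 3)⁻¹ * u ^ 2 = u⁻¹ by group] at h4

theorem Ap.conj (hq : 21 ≤ 3 ^ a) {n : ℕ} (hn : 19 ≤ n) {u : Qs 3 N a} {X : Mat (Tr 3 N)}
    (hu : Ap n u X) (g : Qs 3 N a) : Ap n (g⁻¹ * u * g) (g.1.m.adjugate * X * g.1.m) := by
  obtain ⟨k, rfl⟩ : ∃ k, n = k + 1 := ⟨n - 1, by omega⟩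
  set Y := g.1.m.adjugate * u.1.m * u.1.g.mapMatrix g.1.m with hY
  have e1 : (g⁻¹ * u * g).1.m = (g⁻¹).1.g.mapMatrix Y := by
    have e0 : (g⁻¹).1.m = (g⁻¹).1.g.mapMatrix g.1.m.adjugate := rfl
    rw [hY, map_mul, map_mul, ← mapMatrix_mul_apply, Subgroup.coe_mul, TM.mul_m, Subgroup.coe_mul,
      TM.mul_m, TM.mul_g, e0]
  have h1 : InI (k + 1 + 19) (u.1.g.mapMatrix g.1.m - g.1.m) :=
    (Qn_twist' (n := 0) (by omega) hu.mem (mem_Qn_one g)).mono (by nlinarith)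
  have h2 : InI (k + 1 + 19) (Y - 1 - wv 3 N ^ (k + 1) • (g.1.m.adjugate * X * g.1.m)) := by
    have e : Y - 1 - wv 3 N ^ (k + 1) • (g.1.m.adjugate * X * g.1.m) =
        g.1.m.adjugate * (u.1.m - 1 - wv 3 N ^ (k + 1) • X) * g.1.m +
          g.1.m.adjugate * u.1.m * (u.1.g.mapMatrix g.1.m - g.1.m) := by
      rw [hY, ← g.1.adj_mul]
      simp only [mul_sub, sub_mul, Matrix.mul_smul, Matrix.smul_mul, g.1.adj_mul, mul_one]
      abel
    rw [e]
    exact ((InI.mul_left _ hu).mul_right _).add (h1.mul_left _)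
  have h3 : InI (k + 1) (Y - 1) := by
    have := (InI.mono h2 (Nat.le_add_right _ 19)).add
      (InI.wsmul0 (k + 1) (g.1.m.adjugate * X * g.1.m))
    rwa [sub_add_cancel] at this
  have h4 : InI (k + 1 + 19) ((g⁻¹).1.g.mapMatrix Y - Y) :=
    (Qn_twist' le_rfl (mem_Qn_one g⁻¹) h3).mono (by omega)
  have h5 := h4.add h2
  rw [show ∀ A B C D : Mat (Tr 3 N), A - B + (B - C - D) = A - C - D from fun A B C D => by abel,
    ← e1] at h5
  exact h5

def ApP (n : ℕ) (u : Qs 3 N a) (A : PM) : Prop := Ap n u (evM N A)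

theorem ApP.one (n : ℕ) : ApP n (1 : Qs 3 N a) PM.zero := by
  unfold ApP; rw [evM_zero]; exact Ap.one n

theorem force_ap {n : ℕ} {u : Qs 3 N a} {A : PM} {k : PM → Bool} (hu : ApP n u A)
    (h : forceM A k = true) : ∃ B, ApP n u B ∧ k B = true := by
  obtain ⟨B, e, hB⟩ := forceM_spec (N := N) h
  exact ⟨B, by unfold ApP; rw [e]; exact hu, hB⟩

theorem cmA_sim (hq : 21 ≤ 3 ^ a) {n : ℕ} (hn : 19 ≤ n) {x y : Qs 3 N a}
    (hx : x.1.m = !![1, wv 3 N; 0, 1]) (hy : y.1.m = !![1, 0; wv 3 N, 1]) {u : Qs 3 N a} {X : PM}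
    (hu : ApP n u X) (b : ℕ) {k : PM → Bool} (h : cmA X b k = true) :
    ∃ C, ApP n (cm u (gen x y b)) C ∧ k C = true := by
  have hg : (gen x y b).1.m = evM N (pG b) := by
    unfold gen pG; split_ifs
    · rw [hx, evM_pX]
    · rw [hy, evM_pY]
  obtain ⟨G, eG, h⟩ := forceM_spec (N := N) h
  obtain ⟨G', eG', h⟩ := forceM_spec (N := N) h
  obtain ⟨C, eC, h⟩ := forceM_spec (N := N) h
  obtain ⟨C', eC', h⟩ := forceM_spec (N := N) h
  refine force_ap ?_ h
  have h1 := (Ap.inv hq hn hu).mul hq hn (Ap.conj hq hn hu (gen x y b))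
  rw [show u⁻¹ * ((gen x y b)⁻¹ * u * gen x y b) = cm u (gen x y b) by unfold cm; group] at h1
  refine h1.of_sub ?_
  have h2 := evM_mul (N := N) 19 G' X
  have h3 := evM_mul (N := N) 19 C G
  rw [← eC, eG', evM_adj, eG, ← hg] at h2
  rw [← eC', eG, ← hg] at h3
  rw [evM_add, evM_sm]
  have h4 := h3.add (h2.mul_right (gen x y b).1.m)
  rw [show ∀ A B C D : Mat (Tr 3 N), A - B * C + (B - D) * C = A - D * C from
    fun A B C D => by noncomm_ring] at h4
  rw [add_sub_add_left_eq_sub]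
  exact h4

theorem muK_sim (hq : 21 ≤ 3 ^ a) {n : ℕ} (hn : 19 ≤ n) {x y : Qs 3 N a}
    (hx : x.1.m = !![1, wv 3 N; 0, 1]) (hy : y.1.m = !![1, 0; wv 3 N, 1]) (ds : List (ℕ × ℕ))
    {us : List (Qs 3 N a)} {acc : List PM} (hu : List.Forall₂ (ApP n) us acc)
    {k : List PM → Bool} (h : muK ds acc k = true) :
    ∃ μ, List.Forall₂ (ApP n) (ds.foldl (mstep x y) us) μ ∧ k μ = true := by
  induction ds generalizing us acc with
  | nil => exact ⟨acc, hu, h⟩
  | cons d ds ih =>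
    obtain ⟨A, hA, h⟩ := force_ap (forall₂_getD hu (ApP.one n) d.1) h
    obtain ⟨C, hC, h⟩ := cmA_sim hq hn hx hy hA d.2 h
    rw [List.foldl_cons]
    exact ih (forall₂_snoc hu hC) h

theorem evwA_sim (hq : 21 ≤ 3 ^ a) {n : ℕ} (hn : 19 ≤ n) {us : List (Qs 3 N a)} {μ : List PM}
    (hu : List.Forall₂ (ApP n) us μ) (w : List (ℕ × ℕ)) {k : PM → Bool} (h : evwA μ w k = true) :
    ∃ A, ApP n (evw (fun i => us.getD i 1) w) A ∧ k A = true := by
  induction w generalizing k with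
  | nil => exact ⟨_, ApP.one n, h⟩
  | cons q w ih =>
    obtain ⟨B, hB, h⟩ := ih h
    obtain ⟨A, hA, h⟩ := force_ap (forall₂_getD hu (ApP.one n) q.1) h
    rw [evw_cons]
    refine force_ap ?_ h
    unfold ApP
    rw [evM_add, evM_sm]
    exact (Ap.pow hq hn hA q.2).mul hq hn hB

theorem check2_gen (hq : 21 ≤ 3 ^ a) {n : ℕ} (hn : 19 ≤ n) {x y z : Qs 3 N a}
    (hx : x.1.m = !![1, wv 3 N; 0, 1]) (hy : y.1.m = !![1, 0; wv 3 N, 1])
    (hz : z.1.m = !![1, 0; wv 3 N ^ n, 1]) (md : List (ℕ × ℕ))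
    (rels : List (ℕ × ℕ × List (ℕ × ℕ)))
    (h : (muK md [⟨[], [], [1], []⟩] fun μ => rels.all fun r =>
      evwA μ r.2.2 fun A => forceM (μ.getD r.1 PM.zero) fun X => cmA X r.2.1 fun B =>
        ((A.sm 2).add B).isZ) = true) :
    ∀ r ∈ rels, relw md x y z r ∈ Qn 3 N a (n + 19) := by
  have sz : ApP n z ⟨[], [], [1], []⟩ := by
    unfold ApP Ap
    have : z.1.m - 1 - wv 3 N ^ n • evM N ⟨[], [], [1], []⟩ = 0 := by
      rw [hz]; ext r s; fin_cases r <;> fin_cases s <;> simp [evM, ev]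
    rw [this]; exact InI.zero _
  obtain ⟨μ, hμ, h⟩ := muK_sim hq hn hx hy md (.cons sz .nil) h
  intro r hr
  obtain ⟨A, hA, h⟩ := evwA_sim hq hn hμ r.2.2 (List.all_eq_true.1 h r hr)
  obtain ⟨X, hX, h⟩ := force_ap (forall₂_getD hμ (ApP.one n) r.1) h
  obtain ⟨B, hB, h⟩ := cmA_sim hq hn hx hy hX r.2.1 h
  have h1 := (Ap.inv hq hn hA).mul hq hn hB
  rw [← evM_sm, ← evM_add, evM_isZ h, Ap.zero_iff] at h1
  exact h1

theorem check2 (hq : 21 ≤ 3 ^ a) {n : ℕ} (hn : 19 ≤ n) {x y z : Qs 3 N a}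
    (hx : x.1.m = !![1, wv 3 N; 0, 1]) (hy : y.1.m = !![1, 0; wv 3 N, 1])
    (hz : z.1.m = !![1, 0; wv 3 N ^ n, 1]) :
    ∀ r ∈ D3.rels, relw D3.md x y z r ∈ Qn 3 N a (n + 19) := by
  have h := chk2_true
  unfold chk2 at h
  exact check2_gen hq hn hx hy hz _ _ h

end Pool.Agent.Lib.MP_0813d1_al.Three
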