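import Mathlib
import Pool.Agent.Lib.MP_0813d1_al.Main
import Pool.Agent.Lib.MP_0813d1_al.Three1
import Pool.Agent.Lib.MP_0813d1_al.Three3

namespace Pool.Agent.Lib.MP_0813d1_al.Three

open PC
open scoped commutatorElement

section words
variable {Γ : Type*} [Group Γ]

theorem cm_mem_commutator (g h : Γ) : cm g h ∈ commutator Γ := by
  have e : cm g h = ⁅g⁻¹, h⁻¹⁆ := by unfold cm; rw [commutatorElement_def]; group
  rw [e]
  exact Subgroup.commutator_mem_commutator (Subgroup.mem_top _) (Subgroup.mem_top _)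

theorem foldl_kstep (p : ℕ) (ds : List (ℕ × ℕ × ℕ)) (acc : List Γ) :
    ∃ l, ds.foldl (kstep p) acc = acc ++ l ∧
      List.Forall₂ (fun (d : ℕ × ℕ × ℕ) g => d.1 ≠ 1 → g ∈ commutator Γ) ds l := by
  induction ds generalizing acc with
  | nil => exact ⟨[], by simp, .nil⟩
  | cons d ds ih =>
    obtain ⟨l, e, h⟩ := ih (kstep p acc d)
    refine ⟨_ :: l, by rw [List.foldl_cons, e, kstep, List.append_assoc]; rfl, .cons ?_ h⟩
    intro hd
    rw [if_neg hd]; exact cm_mem_commutator _ _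

theorem kap_mem_commutator (p : ℕ) (ds : List (ℕ × ℕ × ℕ)) (x y : Γ) (i : ℕ)
    (h : (ds.getD i (0, 0, 0)).1 ≠ 1) : kap p ds x y (i + 2) ∈ commutator Γ := by
  obtain ⟨l, e, hl⟩ := foldl_kstep p ds [x, y]
  have := forall₂_getD hl (x := (0, 0, 0)) (y := 1) (fun _ => one_mem _) i h
  unfold kap kapL
  rw [e]
  simpa using this

theorem kap_three (ds : List (ℕ × ℕ × ℕ)) (x y : Γ) :
    kap 3 ((2, 1, 0) :: (1, 0, 0) :: ds) x y 3 = x ^ 3 := by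
  unfold kap kapL
  rw [List.foldl_cons, List.foldl_cons]
  obtain ⟨l, e, -⟩ := foldl_kstep 3 ds (kstep 3 (kstep 3 [x, y] (2, 1, 0)) (1, 0, 0))
  rw [e]
  simp [kstep]

theorem map_evw_kap {Δ : Type*} [Group Δ] (f : Γ →* Δ) (p : ℕ) (ds : List (ℕ × ℕ × ℕ)) (x y : Γ)
    (w : List (ℕ × ℕ)) : f (evw (kap p ds x y) w) = evw (kap p ds (f x) (f y)) w := by
  rw [map_evw]; simp only [map_kap]

theorem evw_mem {κ : ℕ → Γ} {B : Subgroup Γ} {w : List (ℕ × ℕ)} (h : ∀ q ∈ w, κ q.1 ∈ B) :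
    evw κ w ∈ B := by
  induction w with
  | nil => exact one_mem _
  | cons q w ih =>
    rw [evw_cons]
    exact mul_mem (pow_mem (h q (by simp)) _) (ih fun q' hq => h q' (by simp [hq]))

theorem evw_mem_commutator (x y : Γ) {w : List (ℕ × ℕ)}
    (h : ∀ q ∈ w, 2 ≤ q.1 ∧ (D3.defs.getD (q.1 - 2) (0, 0, 0)).1 ≠ 1) :
    evw (kap 3 D3.defs x y) w ∈ commutator Γ := by
  refine evw_mem fun q hq => ?_
  have := kap_mem_commutator 3 D3.defs x y _ (h q hq).2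
  rwa [Nat.sub_add_cancel (h q hq).1] at this

theorem s1_eq (x y : Γ) : ∃ c ∈ commutator Γ, evw (kap 3 D3.defs x y) D3.s1 = x ^ 3 * c := by
  have e1 : D3.s1 = (3, 1) :: D3.s1.tail := rfl
  have e2 : D3.defs = (2, 1, 0) :: (1, 0, 0) :: D3.defs.tail.tail := rfl
  refine ⟨_, evw_mem_commutator x y (w := D3.s1.tail) (by decide +kernel), ?_⟩
  have e3 : kap 3 D3.defs x y 3 = x ^ 3 := by rw [e2]; exact kap_three _ x y
  rw [← e3]
  conv_lhs => rw [e1, evw_cons, pow_one]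

theorem s2_mem (x y : Γ) : evw (kap 3 D3.defs x y) D3.s2 ∈ commutator Γ :=
  evw_mem_commutator x y (by decide +kernel)

theorem mu_mem {B : Subgroup Γ} [B.Normal] (md : List (ℕ × ℕ)) (x y : Γ) {z : Γ} (hz : z ∈ B)
    (k : ℕ) : mu md x y z k ∈ B := by
  have key : ∀ acc : List Γ, (∀ g ∈ acc, g ∈ B) → ∀ g ∈ md.foldl (mstep x y) acc, g ∈ B := by
    induction md with
    | nil => exact fun acc h => h
    | cons d md ih =>
      intro acc h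
      rw [List.foldl_cons]
      refine ih _ fun g hg => ?_
      unfold mstep at hg
      rcases List.mem_append.1 hg with hg | hg
      · exact h g hg
      · rw [List.mem_singleton.1 hg]
        have h1 : acc.getD d.1 1 ∈ B := by
          rw [List.getD_eq_getElem?_getD]
          cases e : acc[d.1]? with
          | none => exact one_mem _
          | some u => exact h u (List.mem_of_getElem? e)
        have e : cm (acc.getD d.1 1) (gen x y d.2) = ⁅(acc.getD d.1 1)⁻¹, (gen x y d.2)⁻¹⁆ := by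
          unfold cm; rw [commutatorElement_def]; group
        rw [e]; exact comm_mem_left (inv_mem h1) _
  unfold mu muL
  rw [List.getD_eq_getElem?_getD]
  cases e : (md.foldl (mstep x y) [z])[k]? with
  | none => exact one_mem _
  | some u => exact key [z] (by simpa using hz) u (List.mem_of_getElem? e)

theorem relw_mem {B : Subgroup Γ} [B.Normal] (md : List (ℕ × ℕ)) (x y : Γ) {z : Γ} (hz : z ∈ B)
    (r : ℕ × ℕ × List (ℕ × ℕ)) : relw md x y z r ∈ B := by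
  refine mul_mem (inv_mem (evw_mem fun q _ => mu_mem md x y hz _)) ?_
  have e : cm (mu md x y z r.1) (gen x y r.2.1) = ⁅(mu md x y z r.1)⁻¹, (gen x y r.2.1)⁻¹⁆ := by
    unfold cm; rw [commutatorElement_def]; group
  rw [e]; exact comm_mem_left (inv_mem (mu_mem md x y hz _)) _

end words

variable {N a : ℕ}

theorem cube_mem_Qn {i k : ℕ} (hi : 1 ≤ i) (h1 : k ≤ i * 3) (h2 : k ≤ i - 1 + i * 3 ^ a)
    {u : Qs 3 N a} (hu : u ∈ Qn 3 N a i) : u ^ 3 ∈ Qn 3 N a k := by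
  have h1' := (pow_m_sub hi hu 3).mono h2
  have h2' := (InI.pow hu 3).mono h1
  have h3 : (3 : Mat (Tr 3 N)) = 0 := by
    have := three_nsmul (1 : Mat (Tr 3 N))
    rwa [nsmul_one] at this
  have e : (u ^ 3).1.m - 1 = ((u ^ 3).1.m - u.1.m ^ 3) + (u.1.m - 1) ^ 3 +
      3 * (u.1.m ^ 2 - u.1.m) := by noncomm_ring
  rw [h3, zero_mul, add_zero] at e
  rw [mem_Qn, e]
  exact h1'.add h2'

/-- first relator up to deep corrections -/
def s10 : Fr := evw (kap 3 D3.defs gX gY) D3.s1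
/-- second relator up to deep corrections -/
def s20 : Fr := (evw (kap 3 D3.defs gX gY) D3.s2)⁻¹ * gY ^ 3

/-- the presentation data -/
structure Dat (N a n : ℕ) where
  pr : Fr →* Qs 3 N a
  s1 : Fr
  s2 : Fr
  w1 : Fr
  w2 : Fr
  cert : D3.Cert
  hq : 21 ≤ 3 ^ a
  hn : 21 ≤ n
  hN : 21 ≤ N
  hno : Odd n
  hx : (pr gX).1.m = !![1, wv 3 N; 0, 1]
  hy : (pr gY).1.m = !![1, 0; wv 3 N, 1]
  hw1 : w1 ∈ gam Fr 21
  hw2 : w2 ∈ gam Fr 21
  e1 : s1 = s10 * w1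
  e2 : s2 = s20 * w2
  hz : (pr s1).1.m = !![1, 0; wv 3 N ^ n, 1]
  z2 : pr s2 = 1

theorem exists_dat (hc : D3.Cert) (hq : 21 ≤ 3 ^ a) (hN : 21 ≤ N) (n : ℕ) (hn : 21 ≤ n)
    (hno : Odd n) : Nonempty (Dat N a n) := by
  have hp : 3 ≠ 2 := by omega
  have hw := wv_pow_mem_Iw 3 N 1
  rw [pow_one] at hw
  obtain ⟨x, hx⟩ := exists_eQ (N := N) (a := a) (by omega) hw (iota_wv 3 N)
  obtain ⟨y, hy⟩ := exists_fQ (N := N) (a := a) (by omega) hw (iota_wv 3 N)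
  obtain ⟨z, hz⟩ := exists_fQ (N := N) (a := a) (by omega)
    (Iw_anti (show 1 ≤ n by omega) (wv_pow_mem_Iw 3 N n))
    (by rw [map_pow, iota_wv, hno.neg_pow])
  obtain ⟨pr, hX, hY⟩ : ∃ pr : Fr →* Qs 3 N a, pr gX = x ∧ pr gY = y :=
    ⟨FreeGroup.lift fun b => if b then x else y, by simp [gX], by simp [gY]⟩
  have lx : Lead 1 (pr gX) (mE 3) := lead_e (by rw [hX, hx, pow_one])
  have ly : Lead 1 (pr gY) (mF 3) := lead_f (by rw [hY, hy, pow_one])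
  have lz : Lead n z (mF 3) := lead_f hz
  have hq3 : 3 ≤ 3 ^ a := by omega
  obtain ⟨c1, c2⟩ := check1 hq hx hy
  have h1 : pr s10 ∈ Qn 3 N a 21 := by
    rw [s10, map_evw_kap, hX, hY]; exact c1
  have h2 : pr s20 ∈ Qn 3 N a 21 := by
    rw [s20, map_mul, map_inv, map_pow, map_evw_kap, hX, hY]; exact c2
  have hz5 : z ∈ Qn 3 N a 21 := Qn_anti hn lz.mem
  obtain ⟨w1, hw1, e1⟩ := gam_surj hp hq3 pr lx ly (by omega) (mul_mem (inv_mem h1) hz5)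
  obtain ⟨w2, hw2, e2⟩ := gam_surj hp hq3 pr lx ly (by omega) (inv_mem h2)
  refine ⟨⟨pr, _, _, w1, w2, hc, hq, hn, hN, hno, by rw [hX, hx], by rw [hY, hy], hw1, hw2, rfl, rfl,
    ?_, ?_⟩⟩
  · rw [map_mul, e1, mul_inv_cancel_left, hz]
  · rw [map_mul, e2, mul_inv_cancel]

theorem hp2 : 3 ≠ 2 := by omega

namespace Dat
variable {n : ℕ} (D : Dat N a n)

theorem hq3 (D : Dat N a n) : 3 ≤ 3 ^ a := by have := D.hq; omega
theorem hq2 (D : Dat N a n) : 2 ≤ 3 ^ a := by have := D.hq; omega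
theorem lx : Lead 1 (D.pr gX) (mE 3) := lead_e (by rw [D.hx, pow_one])
theorem ly : Lead 1 (D.pr gY) (mF 3) := lead_f (by rw [D.hy, pow_one])
theorem z1 : Lead n (D.pr D.s1) (mF 3) := lead_f D.hz

def R : Subgroup Fr := Subgroup.normalClosure {D.s1, D.s2} ⊔ gam Fr N

instance : D.R.Normal := by unfold R; infer_instance

noncomputable def Qc (i : ℕ) : Subgroup Fr := (Qn 3 N a i).comap D.pr

instance (i : ℕ) : (D.Qc i).Normal := (Qn_normal D.hq3 i).comap _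

theorem mem_Qc {i : ℕ} {g : Fr} : g ∈ D.Qc i ↔ D.pr g ∈ Qn 3 N a i := Iff.rfl

theorem Qc_anti {i j : ℕ} (h : i ≤ j) : D.Qc j ≤ D.Qc i := fun _ hg => Qn_anti h hg

theorem gam_le_Qc (i : ℕ) : gam Fr i ≤ D.Qc i := fun _ hg => map_gam_le D.hq3 D.pr i hg

theorem comm_mem_Qc {i j : ℕ} (hi : 1 ≤ i) (hj : 1 ≤ j) {g h : Fr} (hg : g ∈ D.Qc i)
    (hh : h ∈ D.Qc j) : ⁅g, h⁆ ∈ D.Qc (i + j) := by
  rw [mem_Qc, map_commutatorElement]; exact comm_mem_Qn D.hq3 hi hj hg hh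

theorem Qc_le_ker {i : ℕ} (h : N ≤ i) : D.Qc i ≤ D.pr.ker := fun _ hg => eq_one_of_mem_Qn h hg

theorem ker_le_Qc (i : ℕ) : D.pr.ker ≤ D.Qc i := fun g hg => by
  rw [mem_Qc, (MonoidHom.mem_ker).1 hg]; exact one_mem _

theorem s1_mem_R : D.s1 ∈ D.R :=
  Subgroup.mem_sup_left (Subgroup.subset_normalClosure (by simp))

theorem s2_mem_R : D.s2 ∈ D.R :=
  Subgroup.mem_sup_left (Subgroup.subset_normalClosure (by simp))

theorem gam_le_R {i : ℕ} (h : N ≤ i) : gam Fr i ≤ D.R := (gam_anti h).trans le_sup_right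

theorem R_le_Qc : D.R ≤ D.Qc n := by
  refine sup_le (Subgroup.normalClosure_le_normal ?_) ?_
  · rintro g (rfl | rfl)
    · exact D.z1.mem
    · exact D.ker_le_Qc n D.z2
  · exact (D.gam_le_Qc N).trans ((D.Qc_le_ker le_rfl).trans (D.ker_le_Qc n))

noncomputable def Rj (j : ℕ) : Subgroup Fr := D.R ⊓ D.Qc (n + j - 2)

instance (j : ℕ) : (D.Rj j).Normal := by unfold Rj; infer_instance

theorem Rj_anti {i j : ℕ} (h : i ≤ j) : D.Rj j ≤ D.Rj i :=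
  inf_le_inf_left _ (D.Qc_anti (by omega))

noncomputable def Fj (j : ℕ) : Subgroup Fr := gam Fr j ⊔ D.Rj j

instance (j : ℕ) : (D.Fj j).Normal := by unfold Fj; infer_instance

theorem gam_le_Fj (j : ℕ) : gam Fr j ≤ D.Fj j := le_sup_left
theorem Rj_le_Fj (j : ℕ) : D.Rj j ≤ D.Fj j := le_sup_right

theorem Fj_anti {i j : ℕ} (h : i ≤ j) : D.Fj j ≤ D.Fj i :=
  sup_le_sup (gam_anti h) (D.Rj_anti h)

theorem Fj_one : D.Fj 1 = ⊤ := eq_top_iff.2 (D.gam_le_Fj 1)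
theorem Fj_zero : D.Fj 0 = ⊤ := eq_top_iff.2 (D.gam_le_Fj 0)
theorem mem_Fj_one (g : Fr) : g ∈ D.Fj 1 := by rw [D.Fj_one]; trivial

theorem Fj_le_Qc (j : ℕ) : D.Fj j ≤ D.Qc j :=
  sup_le (D.gam_le_Qc j) (inf_le_right.trans (D.Qc_anti (by have := D.hn; omega)))

theorem comm_mem_Rj {i j : ℕ} (hi : 1 ≤ i) {g r : Fr} (hg : g ∈ D.Qc i) (hr : r ∈ D.Rj j) :
    ⁅g, r⁆ ∈ D.Rj (i + j) := by
  have := D.hn
  exact ⟨comm_mem_right g hr.1, D.Qc_anti (by omega) (D.comm_mem_Qc hi (by omega) hg hr.2)⟩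

theorem Fj_comm (i j : ℕ) : ⁅D.Fj i, D.Fj j⁆ ≤ D.Fj (i + j) := by
  rcases Nat.eq_zero_or_pos i with rfl | hi
  · rw [zero_add]; exact Subgroup.commutator_le_right _ _
  rcases Nat.eq_zero_or_pos j with rfl | hj
  · exact Subgroup.commutator_le_left _ _
  refine comm_sup_le (comm_sup_le' ((gam_comm i j hi hj).trans (D.gam_le_Fj _)) ?_) ?_
  · rw [Subgroup.commutator_le]
    intro g hg r hr
    exact D.Rj_le_Fj _ (D.comm_mem_Rj hi (D.gam_le_Qc i hg) hr)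
  · rw [Subgroup.commutator_le]
    intro r hr g hg
    rw [add_comm]
    exact comm_swap_mem (D.Rj_le_Fj _ (D.comm_mem_Rj hj (D.Fj_le_Qc j hg) hr))

noncomputable def NS : NSeries Fr where
  N := D.Fj
  one := D.Fj_one
  anti := fun _ _ h => D.Fj_anti h
  comm := D.Fj_comm

theorem comm_mem_Fj {i j : ℕ} {g h : Fr} (hg : g ∈ D.Fj i) (hh : h ∈ D.Fj j) :
    ⁅g, h⁆ ∈ D.Fj (i + j) := D.Fj_comm i j (Subgroup.commutator_mem_commutator hg hh)

theorem Fj_eq {j : ℕ} (h : N ≤ j) : D.Fj j = D.R ⊓ D.pr.ker := by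
  have := D.hn
  apply le_antisymm
  · exact le_inf (sup_le (D.gam_le_R h) inf_le_left) ((D.Fj_le_Qc j).trans (D.Qc_le_ker h))
  · exact (inf_le_inf_left _ (D.ker_le_Qc _)).trans (D.Rj_le_Fj j)

theorem s1_mem_R2 : D.s1 ∈ D.Rj 2 := ⟨D.s1_mem_R, D.R_le_Qc D.s1_mem_R⟩

theorem s2_mem_Rj (j : ℕ) : D.s2 ∈ D.Rj j := ⟨D.s2_mem_R, D.ker_le_Qc _ D.z2⟩

theorem commutator_le_Fj : commutator Fr ≤ D.Fj 2 := D.gam_le_Fj 2

theorem gX_pow_mem : gX ^ 3 ∈ D.Fj 2 := by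
  obtain ⟨c, hc, e⟩ := s1_eq gX gY
  have e' : gX ^ 3 = D.s1 * D.w1⁻¹ * c⁻¹ := by rw [D.e1, s10, e]; group
  rw [e']
  exact mul_mem (mul_mem (D.Rj_le_Fj 2 D.s1_mem_R2)
    (inv_mem (D.gam_le_Fj 2 (gam_anti (by omega) D.hw1)))) (inv_mem (D.commutator_le_Fj hc))

theorem gY_pow_mem : gY ^ 3 ∈ D.Fj 2 := by
  have e' : gY ^ 3 = evw (kap 3 D3.defs gX gY) D3.s2 * D.s2 * D.w2⁻¹ := by rw [D.e2, s20]; group
  rw [e']
  exact mul_mem (mul_mem (D.commutator_le_Fj (s2_mem gX gY)) (D.Rj_le_Fj 2 (D.s2_mem_Rj 2)))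
    (inv_mem (D.gam_le_Fj 2 (gam_anti (by omega) D.hw2)))

theorem Rj_pow {j : ℕ} {r : Fr} (hr : r ∈ D.Rj j) : r ^ 3 ∈ D.Rj (j + 1) := by
  have := D.hn
  refine ⟨pow_mem hr.1 _, ?_⟩
  have h0 : (n + j - 2) * 3 ≤ (n + j - 2) * 3 ^ a := Nat.mul_le_mul_left _ D.hq3
  have h1 := cube_mem_Qn (k := n + (j + 1) - 2) (show 1 ≤ n + j - 2 by omega) (by omega) (by omega)
    hr.2
  rw [← map_pow] at h1
  exact h1

theorem Fj_pow (j : ℕ) (g : Fr) (hg : g ∈ D.Fj j) : g ^ 3 ∈ D.Fj (j + 1) := by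
  rcases Nat.eq_zero_or_pos j with rfl | hj
  · exact D.mem_Fj_one _
  let π := QuotientGroup.mk' (D.Fj (j + 1))
  have hπ : ∀ g, π g = 1 ↔ g ∈ D.Fj (j + 1) := fun g => QuotientGroup.eq_one_iff g
  have hc : ∀ g ∈ D.Fj j, ∀ h, Commute (π g) (π h) := by
    intro g hg h
    rw [← commutatorElement_eq_one_iff_commute, ← map_commutatorElement, hπ]
    exact D.comm_mem_Fj hg (D.mem_Fj_one h)
  let B : Subgroup Fr :=
    { carrier := {g | g ∈ D.Fj j ∧ g ^ 3 ∈ D.Fj (j + 1)}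
      one_mem' := ⟨one_mem _, by rw [one_pow]; exact one_mem _⟩
      mul_mem' := fun {g h} hg hh => ⟨mul_mem hg.1 hh.1, by
        rw [← hπ, map_pow, map_mul, (hc g hg.1 h).mul_pow, ← map_pow, ← map_pow, (hπ _).2 hg.2,
          (hπ _).2 hh.2, mul_one]⟩
      inv_mem' := fun {g} hg => ⟨inv_mem hg.1, by rw [inv_pow]; exact inv_mem hg.2⟩ }
  suffices h : D.Fj j ≤ B from (h hg).2
  refine sup_le ?_ fun r hr => ⟨D.Rj_le_Fj j hr, D.Rj_le_Fj _ (D.Rj_pow hr)⟩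
  rcases Nat.eq_or_lt_of_le hj with h1 | hj2
  · obtain rfl : j = 1 := by omega
    rw [gam_one, ← closure_XY, Subgroup.closure_le]
    rintro g (rfl | rfl)
    · exact ⟨D.mem_Fj_one _, D.gX_pow_mem⟩
    · exact ⟨D.mem_Fj_one _, D.gY_pow_mem⟩
  · obtain ⟨i, rfl⟩ : ∃ i, j = i + 1 := ⟨j - 1, by omega⟩
    refine (gam_succ_le _ closure_XY i (by omega)).trans (sup_le ?_ ?_)
    · rw [Subgroup.closure_le]
      rintro u ⟨s, hs, g, hg, rfl⟩
      have h1 : ⁅s, g⁆ ∈ D.Fj (i + 1) := D.gam_le_Fj _ (comm_mem_gam_succ (by omega) _ hg)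
      refine ⟨h1, ?_⟩
      have h2 : s ^ 3 ∈ D.Fj 2 := by
        rcases hs with rfl | rfl
        · exact D.gX_pow_mem
        · exact D.gY_pow_mem
      have h3 : π ⁅s ^ 3, g⁆ = 1 := by
        rw [hπ, show i + 1 + 1 = 2 + i by ring]
        exact D.comm_mem_Fj h2 (D.gam_le_Fj i hg)
      have h4 := (hc _ h1 s).eq
      have e : ⁅s ^ 3, g⁆ = s * (s * ⁅s, g⁆ * s⁻¹ * ⁅s, g⁆) * s⁻¹ * ⁅s, g⁆ := by
        simp only [commutatorElement_def, pow_three]; group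
      rw [e] at h3
      simp only [map_mul, map_inv] at h3
      rw [← h4, mul_inv_cancel_right, ← mul_assoc, ← h4, mul_assoc (π ⁅s, g⁆), ← h4,
        ← mul_assoc, mul_inv_cancel_right] at h3
      rw [← hπ, map_pow, pow_three, ← mul_assoc]
      exact h3
    · intro g hg
      exact ⟨D.gam_le_Fj _ (gam_anti (by omega) hg), pow_mem (D.gam_le_Fj _ hg) _⟩

theorem Fj_pow_pow (j : ℕ) (g : Fr) (hg : g ∈ D.Fj j) (k : ℕ) : g ^ 3 ^ k ∈ D.Fj (j + k) := by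
  induction k with
  | zero => simpa using hg
  | succ k ih => rw [pow_succ, pow_mul]; exact D.Fj_pow (j + k) _ ih

theorem R_shapes (i : ℕ) (hi : n + 1 ≤ i) : ∀ M, Shape i M → ∃ r ∈ D.R, Lead i (D.pr r) M := by
  induction i, hi using Nat.le_induction with
  | base =>
    exact shapes_step_odd hp2 D.hq3 D.pr D.lx D.hno (fun f hf => comm_mem_right _ hf)
      D.s1_mem_R D.z1
  | succ i hi ih =>
    exact shapes_step hp2 D.hq3 D.pr D.lx D.ly (by omega)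
      (fun f hf => ⟨comm_mem_right _ hf, comm_mem_right _ hf⟩) ih

theorem gam_surj' {i : ℕ} (hi : 1 ≤ i) {u : Qs 3 N a} (hu : u ∈ Qn 3 N a i) :
    ∃ f ∈ gam Fr i, D.pr f = u := gam_surj hp2 D.hq3 D.pr D.lx D.ly hi hu

/-- kernel of `pr` in `F_j` -/
noncomputable def V (j : ℕ) : Subgroup Fr := D.Fj j ⊓ D.pr.ker

instance (j : ℕ) : (D.V j).Normal := by unfold V; infer_instance

theorem V_anti {i j : ℕ} (h : i ≤ j) : D.V j ≤ D.V i := inf_le_inf_right _ (D.Fj_anti h)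

theorem comm_mem_V {i j : ℕ} {g v : Fr} (hg : g ∈ D.Fj i) (hv : v ∈ D.V j) :
    ⁅g, v⁆ ∈ D.V (i + j) := ⟨D.comm_mem_Fj hg hv.1, comm_mem_right g hv.2⟩

theorem split {m i : ℕ} (hi : 1 ≤ i) (hmi : m ≤ i) {g : Fr} (hg : g ∈ D.Fj m) (hQ : g ∈ D.Qc i) :
    ∃ f ∈ gam Fr i, ∃ v ∈ D.V m, g = f * v := by
  obtain ⟨f, hf, e⟩ := D.gam_surj' hi hQ
  have h1 : f⁻¹ * g ∈ D.Fj m := mul_mem (inv_mem (D.Fj_anti hmi (D.gam_le_Fj i hf))) hg
  refine ⟨f, hf, f⁻¹ * g, ⟨h1, ?_⟩, by group⟩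
  change f⁻¹ * g ∈ D.pr.ker
  rw [MonoidHom.mem_ker, map_mul, map_inv, e, inv_mul_cancel]

theorem R_comm_ker {r v : Fr} (hr : r ∈ D.R) (hv : v ∈ D.pr.ker) (j : ℕ) : ⁅v, r⁆ ∈ D.Fj j :=
  D.Rj_le_Fj j ⟨comm_mem_right v hr, D.ker_le_Qc _ (comm_mem_left hv r)⟩

/-! ### the certificate -/

theorem hyp : D3.Hyp D.NS gX gY D.s1 where
  pow := fun j g hg => D.Fj_pow j g hg
  gen := closure_XY
  h1 := by
    change D.s1⁻¹ * s10 ∈ D.Fj 21
    rw [D.e1, show (s10 * D.w1)⁻¹ * s10 = D.w1⁻¹ by group]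
    exact inv_mem (D.gam_le_Fj 21 D.hw1)
  h2 := by
    change s20 ∈ D.Fj 21
    rw [show s20 = D.s2 * D.w2⁻¹ by rw [D.e2]; group]
    exact mul_mem (D.Rj_le_Fj _ (D.s2_mem_Rj _)) (inv_mem (D.gam_le_Fj 21 D.hw2))
  h3 := by
    change D.s1 ^ 3 ∈ D.Fj 21
    have := D.hn
    have h0 : n * 3 ≤ n * 3 ^ a := Nat.mul_le_mul_left _ D.hq3
    refine D.Rj_le_Fj _ ⟨pow_mem D.s1_mem_R _, ?_⟩
    have h1 := cube_mem_Qn (k := n + 21 - 2) (show 1 ≤ n by omega) (by omega) (by omega) D.z1.mem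
    rw [← map_pow] at h1
    exact h1
  h4 := by
    intro r hr
    change relw D3.md gX gY D.s1 r ∈ D.Fj 21
    have := D.hn
    refine D.Rj_le_Fj _ ⟨relw_mem _ _ _ D.s1_mem_R r, ?_⟩
    have h1 := check2 D.hq (by omega) D.hx D.hy D.hz r hr
    rw [← map_relw] at h1
    exact h1

/-- the series given by the certificate -/
noncomputable def A (j : ℕ) : Subgroup Fr := D3.A D.NS gX gY j

theorem F21_le_A (j : ℕ) : D.Fj 21 ≤ D.A j := le_sup_right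

theorem A_comm (j : ℕ) : ⁅D.A j, ⊤⁆ ≤ D.A (j + 1) := (D.cert Fr D.NS gX gY D.s1 D.hyp).comm j

theorem gam_le_A (j : ℕ) (hj : 1 ≤ j) : gam Fr j ≤ D.A j := by
  induction j, hj using Nat.le_induction with
  | base => exact (D.cert Fr D.NS gX gY D.s1 D.hyp).one.ge
  | succ j hj ih => rw [gam_succ hj]; exact (Subgroup.commutator_mono ih le_rfl).trans (D.A_comm j)

theorem s1_mem_A : D.s1 ∈ D.A 2 := by
  rw [D.e1]
  refine mul_mem (evw_mem fun q hq => ?_) (D.F21_le_A 2 (D.gam_le_Fj 21 D.hw1))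
  have h : ∀ q ∈ D3.s1, q.1 < D3.wts.length ∧ 2 ≤ D3.wts.getD q.1 0 := by decide +kernel
  exact Subgroup.mem_sup_left (Subgroup.subset_closure ⟨q.1, (h q hq).1, (h q hq).2, rfl⟩)

theorem A21_le : D.A 21 ≤ D.Fj 21 := by
  refine sup_le ?_ le_rfl
  rw [Subgroup.closure_le]
  rintro g ⟨i, h1, h2, -⟩
  have h : ∀ i < D3.wts.length, ¬ 21 ≤ D3.wts.getD i 0 := by decide +kernel
  exact absurd h2 (h i h1)

theorem A20_le : D.A 20 ≤ Subgroup.zpowers (D3.k gX gY 71) ⊔ D.Fj 21 := by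
  refine sup_le_sup_right ?_ _
  rw [Subgroup.closure_le]
  rintro g ⟨i, h1, h2, rfl⟩
  have h : ∀ i < D3.wts.length, 20 ≤ D3.wts.getD i 0 → i = 71 := by decide +kernel
  rw [h i h1 h2]
  exact Subgroup.mem_zpowers _

theorem kap_mem_A20 : D3.k gX gY 71 ∈ D.A 20 :=
  Subgroup.mem_sup_left (Subgroup.subset_closure ⟨71, by decide +kernel, by decide +kernel, rfl⟩)

theorem F20_le_A : D.Fj 20 ≤ D.A 20 := by
  have hn := D.hn
  refine sup_le (D.gam_le_A 20 (by omega)) ?_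
  let K : ℕ → Subgroup Fr := fun k => D.A (k + 2) ⊓ D.R
  have hK : ∀ (k : ℕ) (s : Fr), ∀ f ∈ K k, ⁅s, f⁆ ∈ K (k + 1) := fun k s f hf =>
    ⟨comm_swap_mem (D.A_comm (k + 2) (Subgroup.commutator_mem_commutator hf.1 (Subgroup.mem_top s))),
      comm_mem_right s hf.2⟩
  have hsh : ∀ k, 1 ≤ k → ∀ M, Shape (n + k) M → ∃ f ∈ K k, Lead (n + k) (D.pr f) M := by
    intro k hk
    induction k, hk using Nat.le_induction with
    | base =>
      exact shapes_step_odd hp2 D.hq3 D.pr D.lx D.hno (hK 0 gX) ⟨D.s1_mem_A, D.s1_mem_R⟩ D.z1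
    | succ k hk ih =>
      exact shapes_step hp2 D.hq3 D.pr D.lx D.ly (i := n + k) (by omega)
        (fun f hf => ⟨hK k _ f hf, hK k _ f hf⟩) ih
  intro r hr
  obtain ⟨M, hM, hl⟩ := exists_lead_shape hp2 (i := n + 18) (by omega) hr.2
  obtain ⟨f, hf, hfl⟩ := hsh 18 (by omega) M hM
  have h1 : f⁻¹ * r ∈ D.Rj 21 := by
    refine ⟨D.R.mul_mem (D.R.inv_mem hf.2) hr.1, ?_⟩
    have := hfl.div_mem D.hq2 (by omega) hl
    rw [← map_inv, ← map_mul] at this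
    exact this
  simpa using mul_mem hf.1 (D.F21_le_A 20 (D.Rj_le_Fj _ h1))

theorem F20_inf_le {g : Fr} (hg : g ∈ D.Fj 20) (hQ : g ∈ D.Qc 21) : g ∈ D.Fj 21 := by
  set κ := D3.k gX gY 71 with hκ
  have h3 : κ ^ 3 ∈ D.Fj 21 :=
    D.A21_le ((D.cert Fr D.NS gX gY D.s1 D.hyp).pow 20 κ D.kap_mem_A20)
  have hnot : κ ∉ D.Qc 21 := by
    intro h
    obtain ⟨f, hf, hl⟩ := gam_shapes hp2 D.hq3 D.pr D.lx D.ly 20 (by omega) _
      (shape_even (p := 3) (by decide) 1)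
    have h1 : f ∈ D.Qc 21 :=
      (sup_le (Subgroup.zpowers_le.2 h) (D.Fj_le_Qc 21)) (D.A20_le (D.gam_le_A 20 (by omega) hf))
    have h2 := hl.unique (by have := D.hN; omega) (lead_zero_iff.2 h1)
    have h4 := congrFun (congrFun h2 0) 0
    simp [mH] at h4
  obtain ⟨u, ⟨k, rfl⟩, f, hf, rfl⟩ := Subgroup.mem_sup_of_normal_right.1 (D.A20_le (D.F20_le_A hg))
  have hk : κ ^ k ∈ D.Qc 21 := by
    have := mul_mem hQ (inv_mem (D.Fj_le_Qc 21 hf))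
    simpa using this
  have h3Q : κ ^ (3 : ℤ) ∈ D.Fj 21 := by exact_mod_cast h3
  refine mul_mem ?_ hf
  obtain ⟨m, hm | hm | hm⟩ : ∃ m : ℤ, k = 3 * m ∨ k = 3 * m + 1 ∨ k = 3 * m - 1 :=
    ⟨(k + 1) / 3, by omega⟩
  · change κ ^ k ∈ _
    rw [hm, zpow_mul]; exact zpow_mem h3Q m
  · refine absurd ?_ hnot
    have := mul_mem (inv_mem (zpow_mem (D.Fj_le_Qc 21 h3Q) m)) hk
    rwa [hm, ← zpow_mul, show (κ ^ (3 * m))⁻¹ * κ ^ (3 * m + 1) = κ by group] at this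
  · refine absurd ?_ hnot
    have := mul_mem (zpow_mem (D.Fj_le_Qc 21 h3Q) m) (inv_mem hk)
    rwa [hm, ← zpow_mul, show κ ^ (3 * m) * (κ ^ (3 * m - 1))⁻¹ = κ by group] at this

theorem V20_le : D.V 20 ≤ D.Fj 21 := fun _ hg => D.F20_inf_le hg.1 (D.ker_le_Qc _ hg.2)

theorem Rj_le_succ (j : ℕ) (hj : 20 ≤ j) : D.Rj j ≤ D.Fj (j + 1) := by
  have hn := D.hn
  induction j, hj using Nat.le_induction with
  | base => exact fun r hr => D.F20_inf_le (D.Rj_le_Fj _ hr) (D.Qc_anti (by omega) hr.2)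
  | succ j hj ih =>
    intro r hr
    have h1 := shapes_step hp2 D.hq3 D.pr D.lx D.ly (i := n + j - 2) (by omega)
      (K := D.R ⊓ D.Fj (j + 1)) (K' := D.R ⊓ D.Fj (1 + (j + 1)))
      (fun f hf => ⟨⟨comm_mem_right _ hf.1, D.comm_mem_Fj (D.mem_Fj_one _) hf.2⟩,
        ⟨comm_mem_right _ hf.1, D.comm_mem_Fj (D.mem_Fj_one _) hf.2⟩⟩)
      (fun M hM => by
        obtain ⟨r, hr, hl⟩ := D.R_shapes (n + j - 2) (by omega) M hM
        exact ⟨r, ⟨hr, ih ⟨hr, hl.mem⟩⟩, hl⟩)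
    obtain ⟨M, hM, hl⟩ := exists_lead_shape hp2 (i := n + j - 2 + 1) (by omega)
      (D.Qc_anti (by omega) hr.2)
    obtain ⟨f, hf, hfl⟩ := h1 M hM
    have h2 : f⁻¹ * r ∈ D.Rj (j + 1 + 1) := by
      refine ⟨D.R.mul_mem (D.R.inv_mem hf.1) hr.1, ?_⟩
      have := hfl.div_mem D.hq2 (by omega) hl
      rw [← map_inv, ← map_mul] at this
      exact D.Qc_anti (by omega) this
    have h3 := hf.2
    rw [add_comm 1] at h3
    simpa using mul_mem h3 (D.Rj_le_Fj _ h2)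

end Dat

end Pool.Agent.Lib.MP_0813d1_al.Three
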