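import Mathlib
import Pool.Agent.Lib.MP_0813d1_al.Three4

namespace Pool.Agent.Lib.MP_0813d1_al.Three

open scoped commutatorElement

variable {N a n : ℕ}

namespace Dat

variable (D : Dat N a n) {L : Type*} [LieRing L] (Gd : GrData D.NS L)

theorem gam_cls_induction (A : ℕ → AddSubgroup L) (hx : Gd.cls 1 gX ∈ A 1) (hy : Gd.cls 1 gY ∈ A 1)
    (hA : ∀ j u, 1 ≤ j → u ∈ A j → ⁅Gd.cls 1 gX, u⁆ ∈ A (j + 1) ∧ ⁅Gd.cls 1 gY, u⁆ ∈ A (j + 1))
    (j : ℕ) (hj : 1 ≤ j) (g : Fr) (hg : g ∈ gam Fr j) : Gd.cls j g ∈ A j := by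
  let B : ℕ → Subgroup Fr := fun j =>
    { carrier := {g | g ∈ D.Fj j ∧ Gd.cls j g ∈ A j}
      one_mem' := ⟨one_mem _, by rw [Gd.cls_one]; exact zero_mem _⟩
      mul_mem' := fun {g h} hg hh => ⟨mul_mem hg.1 hh.1, by
        rw [Gd.cls_mul j g h hg.1 hh.1]; exact add_mem hg.2 hh.2⟩
      inv_mem' := fun {g} hg => ⟨inv_mem hg.1, by rw [Gd.cls_inv hg.1]; exact neg_mem hg.2⟩ }
  suffices h : gam Fr j ≤ B j from (h hg).2
  clear hg g
  induction j, hj using Nat.le_induction with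
  | base =>
    rw [gam_one, ← closure_XY, Subgroup.closure_le]
    rintro g (rfl | rfl)
    · exact ⟨D.mem_Fj_one _, hx⟩
    · exact ⟨D.mem_Fj_one _, hy⟩
  | succ j hj ih =>
    refine (gam_succ_le _ closure_XY j hj).trans (sup_le ?_ ?_)
    · rw [Subgroup.closure_le]
      rintro u ⟨s, hs, g, hg, rfl⟩
      refine ⟨D.gam_le_Fj _ (comm_mem_gam_succ hj _ hg), ?_⟩
      rw [add_comm j 1, ← Gd.cls_lie 1 j s g (D.mem_Fj_one _) (D.gam_le_Fj j hg), add_comm 1 j]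
      rcases hs with rfl | rfl
      · exact (hA j _ hj (ih hg).2).1
      · exact (hA j _ hj (ih hg).2).2
    · intro g hg
      refine ⟨D.gam_le_Fj _ (gam_anti (by omega) hg), ?_⟩
      rw [Gd.cls_succ (D.gam_le_Fj _ hg)]; exact zero_mem _

theorem cls_split {j : ℕ} {g : Fr} (hg : g ∈ D.Fj j) :
    ∃ f ∈ gam Fr j, ∃ r ∈ D.Rj j, Gd.cls j g = Gd.cls j f + Gd.cls j r := by
  obtain ⟨f, hf, r, hr, rfl⟩ := Subgroup.mem_sup_of_normal_right.1 hg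
  exact ⟨f, hf, r, hr, Gd.cls_mul j f r (D.gam_le_Fj j hf) (D.Rj_le_Fj j hr)⟩

/-- class of an element of `F_j` with prescribed leading matrix -/
def IsW (j : ℕ) (M : Mat (ZMod 3)) (u : L) : Prop :=
  ∃ g ∈ D.Fj j, Lead j (D.pr g) M ∧ u = Gd.cls j g

variable {D Gd}

theorem IsW.congr {j : ℕ} {M M' : Mat (ZMod 3)} {u : L} (h : D.IsW Gd j M u) (e : M = M') :
    D.IsW Gd j M' u := e ▸ h

theorem IsW.zero (j : ℕ) : D.IsW Gd j 0 0 :=
  ⟨1, one_mem _, by rw [map_one]; exact Lead.one _, (Gd.cls_one j).symm⟩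

theorem IsW.add {j : ℕ} (hj : 1 ≤ j) {M M' : Mat (ZMod 3)} {u u' : L} (h : D.IsW Gd j M u)
    (h' : D.IsW Gd j M' u') : D.IsW Gd j (M + M') (u + u') := by
  obtain ⟨r, hr, l, rfl⟩ := h
  obtain ⟨r', hr', l', rfl⟩ := h'
  exact ⟨r * r', mul_mem hr hr', by rw [map_mul]; exact l.mul D.hq2 hj l',
    (Gd.cls_mul j _ _ hr hr').symm⟩

theorem IsW.neg {j : ℕ} (hj : 1 ≤ j) {M : Mat (ZMod 3)} {u : L} (h : D.IsW Gd j M u) :
    D.IsW Gd j (-M) (-u) := by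
  obtain ⟨r, hr, l, rfl⟩ := h
  exact ⟨r⁻¹, inv_mem hr, by rw [map_inv]; exact l.inv D.hq2 hj, (Gd.cls_inv hr).symm⟩

theorem IsW.smul [LieAlgebra (ZMod 3) L] {j : ℕ} (hj : 1 ≤ j) {M : Mat (ZMod 3)} {u : L}
    (h : D.IsW Gd j M u) (c : ZMod 3) : D.IsW Gd j (c • M) (c • u) := by
  obtain ⟨r, hr, l, rfl⟩ := h
  exact ⟨r ^ c.val, pow_mem hr _, by rw [map_pow]; exact l.smul D.hq2 hj c,
    by rw [Gd.cls_pow hr, zmod_smul_eq]⟩

theorem IsW.lie {i j : ℕ} (hi : 1 ≤ i) (hj : 1 ≤ j) {M M' : Mat (ZMod 3)} {u u' : L}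
    (h : D.IsW Gd i M u) (h' : D.IsW Gd j M' u') : D.IsW Gd (i + j) (M * M' - M' * M) ⁅u, u'⁆ := by
  obtain ⟨r, hr, l, rfl⟩ := h
  obtain ⟨r', hr', l', rfl⟩ := h'
  exact ⟨⁅r, r'⁆, D.comm_mem_Fj hr hr', by rw [map_commutatorElement]; exact l.comm D.hq3 hi hj l',
    Gd.cls_lie i j _ _ hr hr'⟩

theorem IsW.proj {j : ℕ} {M : Mat (ZMod 3)} {u : L} (h : D.IsW Gd j M u) : Gd.proj j u = u := by
  obtain ⟨r, hr, -, rfl⟩ := h
  exact Gd.proj_self j r hr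

theorem IsW.unique {j : ℕ} (hj : 1 ≤ j) (hN : j < N) {M M' : Mat (ZMod 3)} {u : L}
    (h : D.IsW Gd j M u) (h' : D.IsW Gd j M' u) : M = M' := by
  obtain ⟨r, hr, l, rfl⟩ := h
  obtain ⟨r', hr', l', e⟩ := h'
  have h1 : D.pr (r⁻¹ * r') ∈ Qn 3 N a (j + 1) := D.Fj_le_Qc _ (Gd.div_mem_of_cls_eq hr hr' e)
  have h2 := l.mul D.hq2 hj (lead_zero_iff.2 h1)
  rw [← map_mul, mul_inv_cancel_left, add_zero] at h2
  exact h2.unique hN l'

theorem isW_of_mem {j : ℕ} {g : Fr} (hg : g ∈ D.Fj j) : ∃ M, D.IsW Gd j M (Gd.cls j g) := by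
  obtain ⟨M, l⟩ := exists_lead_mat (D.Fj_le_Qc j hg)
  exact ⟨M, g, hg, l, rfl⟩

variable (D Gd)

theorem isW_x : D.IsW Gd 1 (mE 3) (Gd.cls 1 gX) := ⟨_, D.mem_Fj_one _, D.lx, rfl⟩
theorem isW_y : D.IsW Gd 1 (mF 3) (Gd.cls 1 gY) := ⟨_, D.mem_Fj_one _, D.ly, rfl⟩

theorem isW_h1 : D.IsW Gd 2 (mH 3) ⁅Gd.cls 1 gX, Gd.cls 1 gY⁆ :=
  ((D.isW_x Gd).lie le_rfl le_rfl (D.isW_y Gd)).congr mE_mF

variable [LieAlgebra (ZMod 3) L]

theorem isW_sE (l : ℕ) :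
    D.IsW Gd (2 * l + 1) (mE 3) (sE (ZMod 3) (Gd.cls 1 gX) (Gd.cls 1 gY) l) := by
  induction l with
  | zero => exact D.isW_x Gd
  | succ l ih =>
    have := ((D.isW_h1 Gd).lie (by omega) (by omega) ih).smul (by omega) (2 : ZMod 3)⁻¹
    rw [show 2 * (l + 1) + 1 = 2 + (2 * l + 1) by ring]
    refine this.congr ?_
    have h2 := two_ne_zero_zmod hp2
    rw [← neg_sub, mE_mH, neg_neg, ← Nat.cast_smul_eq_nsmul (ZMod 3), smul_smul]
    simp [inv_mul_cancel₀ h2]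

theorem isW_sF (l : ℕ) :
    D.IsW Gd (2 * l + 1) (mF 3) (sF (ZMod 3) (Gd.cls 1 gX) (Gd.cls 1 gY) l) := by
  induction l with
  | zero => exact D.isW_y Gd
  | succ l ih =>
    have := (((D.isW_h1 Gd).lie (by omega) (by omega) ih).smul (by omega) (2 : ZMod 3)⁻¹).neg
      (by omega)
    rw [show 2 * (l + 1) + 1 = 2 + (2 * l + 1) by ring]
    refine this.congr ?_
    have h2 := two_ne_zero_zmod hp2
    rw [← neg_sub, mF_mH, smul_neg, neg_neg, ← Nat.cast_smul_eq_nsmul (ZMod 3), smul_smul]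
    simp [inv_mul_cancel₀ h2]

theorem isW_sH (l : ℕ) :
    D.IsW Gd (2 * l + 2) (mH 3) (sH (ZMod 3) (Gd.cls 1 gX) (Gd.cls 1 gY) l) := by
  rw [show 2 * l + 2 = 1 + (2 * l + 1) by ring]
  exact ((D.isW_x Gd).lie le_rfl (by omega) (D.isW_sF Gd l)).congr mE_mF

theorem isW_sC (l : ℕ) :
    D.IsW Gd (2 * l + 2) 0 (sC (ZMod 3) (Gd.cls 1 gX) (Gd.cls 1 gY) l) := by
  cases l with
  | zero => exact IsW.zero _
  | succ l =>
    have h1 := (D.isW_sE Gd 1).lie (by omega) (by omega) (D.isW_sF Gd l)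
    rw [show 2 * 1 + 1 + (2 * l + 1) = 2 * (l + 1) + 2 by ring] at h1
    have := h1.add (by omega) ((D.isW_sH Gd (l + 1)).neg (by omega))
    rw [← sub_eq_add_neg, ← sub_eq_add_neg, mE_mF, sub_self] at this
    exact this

/-- generators of the ideal `J` -/
def Jgen : Set L :=
  {u | ∃ j, j < 20 ∧ ∃ v ∈ D.V j, u = Gd.cls j v} ∪ {u | ∃ j, ∃ r ∈ D.Rj j, u = Gd.cls j r}

theorem lie_R_mem {j : ℕ} {r : Fr} (hr : r ∈ D.Rj j) (m : L) :
    ⁅m, Gd.cls j r⁆ ∈ Submodule.span (ZMod 3) (D.Jgen Gd) := by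
  have hm : m ∈ AddSubgroup.closure {u | ∃ n g, g ∈ D.NS.N n ∧ u = Gd.cls n g} := by
    rw [Gd.span]; trivial
  induction hm using AddSubgroup.closure_induction with
  | mem u hu =>
    obtain ⟨i, g, hg, rfl⟩ := hu
    rcases Nat.eq_zero_or_pos i with rfl | hi
    · rw [Gd.cls_zero, zero_lie]; exact zero_mem _
    · rw [Gd.cls_lie i j g r hg (D.Rj_le_Fj j hr)]
      exact Submodule.subset_span (Or.inr ⟨_, _, D.comm_mem_Rj hi (D.Fj_le_Qc i hg) hr, rfl⟩)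
  | zero => rw [zero_lie]; exact zero_mem _
  | add u v _ _ hu hv => rw [add_lie]; exact add_mem hu hv
  | neg u _ hu => rw [neg_lie]; exact neg_mem hu

theorem lie_mem_J (u m : L) (hm : m ∈ Submodule.span (ZMod 3) (D.Jgen Gd)) :
    ⁅u, m⁆ ∈ Submodule.span (ZMod 3) (D.Jgen Gd) := by
  let P : AddSubgroup L :=
    { carrier := {u | ∀ m ∈ Submodule.span (ZMod 3) (D.Jgen Gd),
        ⁅u, m⁆ ∈ Submodule.span (ZMod 3) (D.Jgen Gd)}
      zero_mem' := fun m _ => by rw [zero_lie]; exact zero_mem _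
      add_mem' := fun {u v} hu hv m hm => by rw [add_lie]; exact add_mem (hu m hm) (hv m hm)
      neg_mem' := fun {u} hu m hm => by rw [neg_lie]; exact neg_mem (hu m hm) }
  have hgen : ∀ b : Bool, (if b then Gd.cls 1 gX else Gd.cls 1 gY) ∈ P := by
    intro b m hm
    induction hm using Submodule.span_induction with
    | mem m hm =>
      rcases hm with ⟨j, hj, v, hv, rfl⟩ | ⟨j, r, hr, rfl⟩
      · have key : ∀ s : Fr, ⁅Gd.cls 1 s, Gd.cls j v⁆ ∈ Submodule.span (ZMod 3) (D.Jgen Gd) := by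
          intro s
          have h1 := D.comm_mem_V (D.mem_Fj_one s) hv
          rw [Gd.cls_lie 1 j s v (D.mem_Fj_one s) hv.1]
          rcases Nat.lt_or_ge (1 + j) 20 with h | h
          · exact Submodule.subset_span (Or.inl ⟨_, h, _, h1, rfl⟩)
          · have e : 1 + j = 20 := by omega
            rw [e] at h1 ⊢
            rw [Gd.cls_succ (D.V20_le h1)]; exact zero_mem _
        cases b
        · exact key gY
        · exact key gX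
      · exact D.lie_R_mem Gd hr _
    | zero => rw [lie_zero]; exact zero_mem _
    | add m m' _ _ h h' => rw [lie_add]; exact add_mem h h'
    | smul c m _ h => rw [lie_smul]; exact Submodule.smul_mem _ _ h
  have hlie : ∀ u v, u ∈ P → v ∈ P → ⁅u, v⁆ ∈ P := by
    intro u v hu hv m hm
    rw [lie_lie]
    exact sub_mem (hu _ (hv m hm)) (hv _ (hu m hm))
  have hall : ∀ u, u ∈ P := by
    intro u
    have hu : u ∈ AddSubgroup.closure {u | ∃ n g, g ∈ D.NS.N n ∧ u = Gd.cls n g} := by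
      rw [Gd.span]; trivial
    refine (AddSubgroup.closure_le P).2 ?_ hu
    rintro _ ⟨j, g, hg, rfl⟩
    rcases Nat.eq_zero_or_pos j with rfl | hj
    · rw [Gd.cls_zero]; exact zero_mem P
    obtain ⟨f, hf, r, hr, e⟩ := D.cls_split Gd hg
    rw [e]
    refine add_mem (D.gam_cls_induction Gd (fun _ => P) (hgen true) (hgen false)
      (fun _ u _ hu => ⟨hlie _ _ (hgen true) hu, hlie _ _ (hgen false) hu⟩) j hj f hf) ?_
    intro m _
    rw [← lie_skew]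
    exact neg_mem (D.lie_R_mem Gd hr m)
  exact hall u m hm

/-- the ideal `J` -/
def J : LieIdeal (ZMod 3) L :=
  { Submodule.span (ZMod 3) (D.Jgen Gd) with lie_mem := fun {u m} hm => D.lie_mem_J Gd u m hm }

theorem mem_J {u : L} : u ∈ D.J Gd ↔ u ∈ Submodule.span (ZMod 3) (D.Jgen Gd) := Iff.rfl

theorem proj_J {j : ℕ} (hj : 20 ≤ j) {u : L} (hu : u ∈ D.J Gd) : Gd.proj j u = 0 := by
  rw [mem_J] at hu
  induction hu using Submodule.span_induction with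
  | mem m hm =>
    rcases hm with ⟨i, hi, v, hv, rfl⟩ | ⟨i, r, hr, rfl⟩
    · exact Gd.proj_ne _ _ _ hv.1 (by omega)
    · by_cases hi : 20 ≤ i
      · rw [Gd.cls_succ (D.Rj_le_succ i hi hr), map_zero]
      · exact Gd.proj_ne _ _ _ (D.Rj_le_Fj i hr) (by omega)
  | zero => exact map_zero _
  | add m m' _ _ h h' => rw [map_add, h, h', add_zero]
  | smul c m _ h => rw [zmod_smul_eq, map_nsmul, h, smul_zero]

theorem eq_of_mk_eq {j : ℕ} (hj : 20 ≤ j) {M M' : Mat (ZMod 3)} {u u' : L} (h : D.IsW Gd j M u)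
    (h' : D.IsW Gd j M' u') (e : mkLie (D.J Gd) u = mkLie (D.J Gd) u') : u = u' := by
  have h1 : u - u' ∈ D.J Gd := by rw [← mkLie_eq_zero, map_sub, e, sub_self]
  have h2 := D.proj_J Gd hj h1
  rwa [map_sub, h.proj, h'.proj, sub_eq_zero] at h2

theorem mk_zero_of_isW {j : ℕ} (hj : j < 20) {u : L} (h : D.IsW Gd j 0 u) :
    mkLie (D.J Gd) u = 0 := by
  obtain ⟨g, hg, l, rfl⟩ := h
  obtain ⟨f, hf, v, hv, rfl⟩ := D.split (m := j) (i := j + 1) (by omega) (by omega) hg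
    (lead_zero_iff.1 l)
  have hf' := D.gam_le_Fj _ hf
  rw [mkLie_eq_zero, Gd.cls_mul j f v (D.Fj_anti (by omega) hf') hv.1, Gd.cls_succ hf', zero_add]
  exact Submodule.subset_span (Or.inl ⟨j, hj, v, hv, rfl⟩)

theorem serre_x : ⁅mkLie (D.J Gd) (Gd.cls 1 gX), ⁅mkLie (D.J Gd) (Gd.cls 1 gX),
    ⁅mkLie (D.J Gd) (Gd.cls 1 gX), mkLie (D.J Gd) (Gd.cls 1 gY)⁆⁆⁆ = 0 := by
  rw [← LieHom.map_lie, ← LieHom.map_lie, ← LieHom.map_lie]
  refine D.mk_zero_of_isW Gd (j := 4) (by omega) (((D.isW_x Gd).lie le_rfl (by omega)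
    ((D.isW_x Gd).lie le_rfl (by omega) ((D.isW_x Gd).lie le_rfl le_rfl (D.isW_y Gd)))).congr ?_)
  ext r s; fin_cases r <;> fin_cases s <;> simp [mE, mF]

theorem serre_y : ⁅mkLie (D.J Gd) (Gd.cls 1 gY), ⁅mkLie (D.J Gd) (Gd.cls 1 gY),
    ⁅mkLie (D.J Gd) (Gd.cls 1 gY), mkLie (D.J Gd) (Gd.cls 1 gX)⁆⁆⁆ = 0 := by
  rw [← LieHom.map_lie, ← LieHom.map_lie, ← LieHom.map_lie]
  refine D.mk_zero_of_isW Gd (j := 4) (by omega) (((D.isW_y Gd).lie le_rfl (by omega)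
    ((D.isW_y Gd).lie le_rfl (by omega) ((D.isW_y Gd).lie le_rfl le_rfl (D.isW_x Gd)))).congr ?_)
  ext r s; fin_cases r <;> fin_cases s <;> simp [mE, mF]

theorem serre_c : sC (ZMod 3) (mkLie (D.J Gd) (Gd.cls 1 gX)) (mkLie (D.J Gd) (Gd.cls 1 gY)) 2 = 0 := by
  rw [← map_sC]
  exact D.mk_zero_of_isW Gd (by omega) (D.isW_sC Gd 2)

theorem span_mk (j : ℕ) (hj : 1 ≤ j) (g : Fr) (hg : g ∈ D.Fj j) :
    (∀ l, j = 2 * l + 1 → ∃ b c : ZMod 3, mkLie (D.J Gd) (Gd.cls j g) =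
      mkLie (D.J Gd) (b • sE (ZMod 3) (Gd.cls 1 gX) (Gd.cls 1 gY) l +
        c • sF (ZMod 3) (Gd.cls 1 gX) (Gd.cls 1 gY) l)) ∧
    (∀ l, j = 2 * l + 2 → ∃ b c : ZMod 3, mkLie (D.J Gd) (Gd.cls j g) =
      mkLie (D.J Gd) (b • sH (ZMod 3) (Gd.cls 1 gX) (Gd.cls 1 gY) l +
        c • sC (ZMod 3) (Gd.cls 1 gX) (Gd.cls 1 gY) l)) := by
  set φ := mkLie (D.J Gd) with hφ
  set x := φ (Gd.cls 1 gX) with hx
  set y := φ (Gd.cls 1 gY) with hy
  obtain ⟨hEE, hFF, hEF, hHE, hHF, -, hC, -⟩ :=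
    serre3 (ZMod 3) (two_ne_zero_zmod hp2) x y (D.serre_c Gd) (D.serre_x Gd) (D.serre_y Gd)
  simp only [map_add, map_smul, map_sE, map_sF, map_sH, map_sC, ← hx, ← hy]
  let A : ℕ → AddSubgroup L := fun j =>
    { carrier := {u | (∀ l, j = 2 * l + 1 → ∃ b c : ZMod 3,
          φ u = b • sE (ZMod 3) x y l + c • sF (ZMod 3) x y l) ∧
        (∀ l, j = 2 * l + 2 → ∃ b c : ZMod 3,
          φ u = b • sH (ZMod 3) x y l + c • sC (ZMod 3) x y l)}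
      zero_mem' := ⟨fun _ _ => ⟨0, 0, by simp⟩, fun _ _ => ⟨0, 0, by simp⟩⟩
      add_mem' := fun {u v} hu hv => by
        constructor
        · intro l hl
          obtain ⟨b, c, e⟩ := hu.1 l hl
          obtain ⟨b', c', e'⟩ := hv.1 l hl
          exact ⟨b + b', c + c', by rw [map_add, e, e']; module⟩
        · intro l hl
          obtain ⟨b, c, e⟩ := hu.2 l hl
          obtain ⟨b', c', e'⟩ := hv.2 l hl
          exact ⟨b + b', c + c', by rw [map_add, e, e']; module⟩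
      neg_mem' := fun {u} hu => by
        constructor
        · intro l hl
          obtain ⟨b, c, e⟩ := hu.1 l hl
          exact ⟨-b, -c, by rw [map_neg, e]; module⟩
        · intro l hl
          obtain ⟨b, c, e⟩ := hu.2 l hl
          exact ⟨-b, -c, by rw [map_neg, e]; module⟩ }
  obtain ⟨f, hf, r, hr, e⟩ := D.cls_split Gd hg
  have hr0 : φ (Gd.cls j r) = 0 :=
    (mkLie_eq_zero _ _).2 (Submodule.subset_span (Or.inr ⟨j, r, hr, rfl⟩))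
  rw [e, map_add, hr0, add_zero]
  refine D.gam_cls_induction Gd A ?_ ?_ ?_ j hj f hf
  · refine ⟨fun l hl => ?_, fun l hl => by omega⟩
    obtain rfl : l = 0 := by omega
    exact ⟨1, 0, by simp [sE, hx]⟩
  · refine ⟨fun l hl => ?_, fun l hl => by omega⟩
    obtain rfl : l = 0 := by omega
    exact ⟨0, 1, by simp [sF, hy]⟩
  · intro j u hj hu
    have e0 : sE (ZMod 3) x y 0 = x := rfl
    have f0 : sF (ZMod 3) x y 0 = y := rfl
    refine ⟨⟨fun l hl => ?_, fun l hl => ?_⟩, ⟨fun l hl => ?_, fun l hl => ?_⟩⟩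
    · obtain ⟨k, rfl⟩ : ∃ k, l = k + 1 := ⟨l - 1, by omega⟩
      obtain ⟨b, c, e⟩ := hu.2 k (by omega)
      have h1 := hHE k 0
      rw [e0, add_zero] at h1
      refine ⟨-(2 * b), 0, ?_⟩
      rw [LieHom.map_lie, e, ← hx, lie_add, lie_smul, lie_smul, (hC k).1, ← lie_skew, h1]
      module
    · obtain ⟨b, c, e⟩ := hu.1 l (by omega)
      have h1 := hEE 0 l
      rw [e0] at h1
      refine ⟨c, 0, ?_⟩
      rw [LieHom.map_lie, e, ← hx, lie_add, lie_smul, lie_smul, h1, sH]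
      module
    · obtain ⟨k, rfl⟩ : ∃ k, l = k + 1 := ⟨l - 1, by omega⟩
      obtain ⟨b, c, e⟩ := hu.2 k (by omega)
      have h1 := hHF k 0
      rw [f0, add_zero] at h1
      refine ⟨0, 2 * b, ?_⟩
      rw [LieHom.map_lie, e, ← hy, lie_add, lie_smul, lie_smul, (hC k).2, ← lie_skew, h1]
      module
    · obtain ⟨b, c, e⟩ := hu.1 l (by omega)
      have h1 := hFF 0 l
      have h2 := hEF l 0
      rw [f0] at h1 h2
      rw [add_zero] at h2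
      refine ⟨-b, -(b * l), ?_⟩
      rw [LieHom.map_lie, e, ← hy, lie_add, lie_smul, lie_smul, h1, ← lie_skew, h2,
        ← Nat.cast_smul_eq_nsmul (ZMod 3)]
      module

theorem span_odd {l : ℕ} (hl : 20 ≤ 2 * l + 1) {g : Fr} (hg : g ∈ D.Fj (2 * l + 1)) :
    ∃ b c : ZMod 3, Gd.cls (2 * l + 1) g = b • sE (ZMod 3) (Gd.cls 1 gX) (Gd.cls 1 gY) l +
        c • sF (ZMod 3) (Gd.cls 1 gX) (Gd.cls 1 gY) l := by
  obtain ⟨b, c, e⟩ := (D.span_mk Gd _ (by omega) g hg).1 l rfl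
  obtain ⟨M, hM⟩ := isW_of_mem (Gd := Gd) hg
  exact ⟨b, c, D.eq_of_mk_eq Gd hl hM
    (((D.isW_sE Gd l).smul (by omega) b).add (by omega) ((D.isW_sF Gd l).smul (by omega) c)) e⟩

theorem span_even {l : ℕ} (hl : 20 ≤ 2 * l + 2) {g : Fr} (hg : g ∈ D.Fj (2 * l + 2)) :
    ∃ b c : ZMod 3, Gd.cls (2 * l + 2) g = b • sH (ZMod 3) (Gd.cls 1 gX) (Gd.cls 1 gY) l +
        c • sC (ZMod 3) (Gd.cls 1 gX) (Gd.cls 1 gY) l := by
  obtain ⟨b, c, e⟩ := (D.span_mk Gd _ (by omega) g hg).2 l rfl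
  obtain ⟨M, hM⟩ := isW_of_mem (Gd := Gd) hg
  exact ⟨b, c, D.eq_of_mk_eq Gd hl hM
    (((D.isW_sH Gd l).smul (by omega) b).add (by omega) ((D.isW_sC Gd l).smul (by omega) c)) e⟩

theorem span_even' {l : ℕ} (hl : 20 ≤ 2 * l + 2) (hN : 2 * l + 2 < N) {g : Fr}
    (hg : g ∈ D.Fj (2 * l + 2)) {α : ZMod 3} (hα : Lead (2 * l + 2) (D.pr g) (α • mH 3)) :
    ∃ c : ZMod 3, Gd.cls (2 * l + 2) g = α • sH (ZMod 3) (Gd.cls 1 gX) (Gd.cls 1 gY) l +
        c • sC (ZMod 3) (Gd.cls 1 gX) (Gd.cls 1 gY) l := by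
  obtain ⟨b, c, e⟩ := D.span_even Gd hl hg
  have h1 := ((D.isW_sH Gd l).smul (by omega) b).add (by omega) ((D.isW_sC Gd l).smul (by omega) c)
  rw [← e] at h1
  have h2 := IsW.unique (by omega) hN h1 ⟨g, hg, hα, rfl⟩
  have h3 : b = α := by simpa [mH] using congrFun (congrFun h2 0) 0
  exact ⟨c, h3 ▸ e⟩

theorem sC_torsion {l : ℕ} (hl : 20 ≤ 2 * l + 2) :
    ((l + 1 : ℕ) : ZMod 3) • sC (ZMod 3) (Gd.cls 1 gX) (Gd.cls 1 gY) l = 0 := by
  refine D.eq_of_mk_eq Gd hl ((D.isW_sC Gd l).smul (by omega) _) (IsW.zero _) ?_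
  rw [map_smul, map_sC, map_zero, Nat.cast_smul_eq_nsmul]
  exact (serre3 (ZMod 3) (two_ne_zero_zmod hp2) _ _ (D.serre_c Gd) (D.serre_x Gd)
    (D.serre_y Gd)).2.2.2.2.2.2.2 l

theorem lie_torus {i j : ℕ} (hl : 20 ≤ 2 * (i + j + 1) + 2) (α β α' β' : ZMod 3) :
    ⁅α • sH (ZMod 3) (Gd.cls 1 gX) (Gd.cls 1 gY) i + β • sC (ZMod 3) (Gd.cls 1 gX) (Gd.cls 1 gY) i,
      α' • sH (ZMod 3) (Gd.cls 1 gX) (Gd.cls 1 gY) j +
        β' • sC (ZMod 3) (Gd.cls 1 gX) (Gd.cls 1 gY) j⁆ =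
      (α * α' * (2 * (i + 1 : ℕ))) • sC (ZMod 3) (Gd.cls 1 gX) (Gd.cls 1 gY) (i + j + 1) := by
  have h1 := (((D.isW_sH Gd i).smul (by omega) α).add (by omega)
    ((D.isW_sC Gd i).smul (by omega) β)).lie (by omega) (by omega)
    (((D.isW_sH Gd j).smul (by omega) α').add (by omega) ((D.isW_sC Gd j).smul (by omega) β'))
  rw [show 2 * i + 2 + (2 * j + 2) = 2 * (i + j + 1) + 2 by ring] at h1
  refine D.eq_of_mk_eq Gd hl h1 ((D.isW_sC Gd _).smul (by omega) _) ?_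
  obtain ⟨-, -, -, -, -, hHH, hC, -⟩ :=
    serre3 (ZMod 3) (two_ne_zero_zmod hp2) _ _ (D.serre_c Gd) (D.serre_x Gd) (D.serre_y Gd)
  simp only [LieHom.map_lie, map_add, map_smul, map_sH, map_sC, add_lie, lie_add, smul_lie,
    lie_smul]
  rw [hHH, sH_lie_central (hC j).1 (hC j).2, sC_lie_central (hC j).1 (hC j).2,
    ← lie_skew (sC _ _ _ i), sH_lie_central (hC i).1 (hC i).2, ← Nat.cast_smul_eq_nsmul (ZMod 3)]
  push_cast
  module

end Dat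

end Pool.Agent.Lib.MP_0813d1_al.Three
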