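import Mathlib
import Pool.Agent.Lib.MP_0813d1_al.Three5

namespace Pool.Agent.Lib.MP_0813d1_al.Three

open scoped commutatorElement

variable {N a n : ℕ}

namespace Dat

variable (D : Dat N a n)

theorem exists_lie : ∃ (L : Type) (_ : LieRing L) (_ : LieAlgebra (ZMod 3) L),
    Nonempty (GrData D.NS L) := by
  obtain ⟨L, inst, ⟨Gd⟩⟩ := exists_grData D.NS
  have h : ∀ u : L, 3 • u = 0 := by
    intro u
    have hu : u ∈ AddSubgroup.closure {u | ∃ n g, g ∈ D.NS.N n ∧ u = Gd.cls n g} := by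
      rw [Gd.span]; trivial
    induction hu using AddSubgroup.closure_induction with
    | mem u hu =>
      obtain ⟨i, g, hg, rfl⟩ := hu
      rw [← Gd.cls_pow hg]
      exact Gd.cls_succ (D.Fj_pow i g hg)
    | zero => exact smul_zero _
    | add u v _ _ hu hv => rw [smul_add, hu, hv, add_zero]
    | neg u _ hu => rw [smul_neg, hu, neg_zero]
  exact ⟨L, inst, zmodLieAlgebra h, ⟨Gd⟩⟩

theorem lead_zero_of_V {j : ℕ} {g : Fr} (hg : g ∈ D.V j) : Lead j (D.pr g) 0 := by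
  rw [(MonoidHom.mem_ker).1 hg.2]; exact Lead.one _

theorem V_le_of_ge {j : ℕ} (h : N ≤ j) (k : ℕ) : D.V j ≤ D.Fj k := by
  intro g hg
  have h1 := hg.1
  rw [D.Fj_eq h] at h1
  exact D.Rj_le_Fj k ⟨h1.1, D.ker_le_Qc _ h1.2⟩

theorem T1 {j : ℕ} (hj : 20 ≤ j) (h : ¬ 2 * 3 ∣ j) : D.V j ≤ D.Fj (j + 1) := by
  rcases le_or_gt N j with hN | hN
  · exact D.V_le_of_ge hN _
  obtain ⟨L, i1, i2, ⟨Gd⟩⟩ := D.exists_lie
  intro g hg
  rw [← show _ ↔ g ∈ D.Fj (j + 1) from Gd.cls_eq_zero j g hg.1]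
  rcases Nat.even_or_odd j with ⟨k, hk⟩ | ⟨l, rfl⟩
  · obtain ⟨l, rfl⟩ : ∃ l, j = 2 * l + 2 := ⟨k - 1, by omega⟩
    obtain ⟨c, e⟩ := D.span_even' Gd hj hN hg.1 (α := 0) ((D.lead_zero_of_V hg).congr (by simp))
    have h1 := D.sC_torsion Gd hj
    have h2 : ((l + 1 : ℕ) : ZMod 3) ≠ 0 := by
      rw [Ne, ZMod.natCast_eq_zero_iff]
      intro h3
      exact h (by rw [show 2 * l + 2 = 2 * (l + 1) by ring]; exact Nat.mul_dvd_mul_left 2 h3)
    rw [e, (smul_eq_zero.1 h1).resolve_left h2]; simp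
  · obtain ⟨b, c, e⟩ := D.span_odd Gd hj hg.1
    have h1 := ((D.isW_sE Gd l).smul (by omega) b).add (by omega)
      ((D.isW_sF Gd l).smul (by omega) c)
    rw [← e] at h1
    have h2 := IsW.unique (by omega) hN h1 ⟨g, hg.1, D.lead_zero_of_V hg, rfl⟩
    have hb : b = 0 := by simpa [mE, mF] using congrFun (congrFun h2 0) 1
    have hc : c = 0 := by simpa [mE, mF] using congrFun (congrFun h2 1) 0
    rw [e, hb, hc]; simp

theorem T2 {l r : ℕ} (h1 : 20 ≤ 2 * r) (h2 : 20 ≤ 2 * (l - r)) (hr : ¬ 3 ∣ r) {t t' : Fr}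
    (ht : t ∈ D.Fj (2 * r)) (ht' : t' ∈ D.Fj (2 * (l - r))) {α α' : ZMod 3} (hα : α ≠ 0)
    (hα' : α' ≠ 0) (lt : Lead (2 * r) (D.pr t) (α • mH 3))
    (lt' : Lead (2 * (l - r)) (D.pr t') (α' • mH 3)) {g : Fr} (hg : g ∈ D.V (2 * l)) :
    ∃ k : ℕ, (⁅t, t'⁆ ^ k)⁻¹ * g ∈ D.Fj (2 * l + 1) := by
  rcases le_or_gt N (2 * l) with hN | hN
  · exact ⟨0, by simpa using D.V_le_of_ge hN _ hg⟩
  obtain ⟨L, i1, i2, ⟨Gd⟩⟩ := D.exists_lie
  obtain ⟨i, rfl⟩ : ∃ i, r = i + 1 := ⟨r - 1, by omega⟩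
  obtain ⟨j, rfl⟩ : ∃ j, l = i + j + 2 := ⟨l - i - 2, by omega⟩
  rw [show i + j + 2 - (i + 1) = j + 1 by omega] at *
  have hc : ⁅t, t'⁆ ∈ D.Fj (2 * (i + j + 1) + 2) := D.Fj_anti (by omega) (D.comm_mem_Fj ht ht')
  obtain ⟨β, e⟩ := D.span_even' Gd (l := i) h1 (by omega) ht lt
  obtain ⟨β', e'⟩ := D.span_even' Gd (l := j) h2 (by omega) ht' lt'
  obtain ⟨c, e''⟩ := D.span_even' Gd (l := i + j + 1) (by omega) hN hg.1 (α := 0)
    ((D.lead_zero_of_V hg).congr (by simp))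
  have h3 := Gd.cls_lie (2 * i + 2) (2 * j + 2) t t' ht ht'
  rw [e, e', D.lie_torus Gd (by omega), show 2 * i + 2 + (2 * j + 2) = 2 * (i + j + 1) + 2 by ring]
    at h3
  have h4 : α * α' * (2 * (i + 1 : ℕ)) ≠ 0 :=
    mul_ne_zero (mul_ne_zero hα hα') (mul_ne_zero (two_ne_zero_zmod hp2)
      (by rwa [Ne, ZMod.natCast_eq_zero_iff]))
  refine ⟨(c / (α * α' * (2 * (i + 1 : ℕ)))).val, ?_⟩
  refine Gd.div_mem_of_cls_eq (n := 2 * (i + j + 1) + 2) (pow_mem hc _) hg.1 ?_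
  rw [Gd.cls_pow hc, ← zmod_smul_eq, ← h3, e'', smul_smul, div_mul_cancel₀ _ h4]; simp

theorem V_step {j j' : ℕ} (hj : 20 ≤ j) (hjj : j ≤ j') (h : ∀ k, j ≤ k → k < j' → ¬ 2 * 3 ∣ k) :
    D.V j ≤ D.V j' := by
  induction j', hjj using Nat.le_induction with
  | base => exact le_rfl
  | succ k hk ih =>
    refine (ih fun k' h1 h2 => h k' h1 (by omega)).trans ?_
    exact le_inf (D.T1 (by omega) (h k hk (by omega))) inf_le_right

theorem V_succ_le {i : ℕ} (hi : 4 ≤ i) : D.V (2 * 3 * i + 1) ≤ D.V (2 * 3 * (i + 1)) := by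
  refine D.V_step (by omega) (by omega) ?_
  rintro k h1 h2 ⟨c, rfl⟩
  omega

theorem V_comm_Fj {m T : ℕ} (h : ⁅D.V m, gam Fr m⁆ ≤ D.Fj T) : ⁅D.V m, D.Fj m⁆ ≤ D.Fj T := by
  refine comm_sup_le' h ?_
  rw [Subgroup.commutator_le]
  intro v hv r hr
  exact D.R_comm_ker hr.1 hv.2 T

/-- the group `F_m / F_(L+1)` -/
abbrev Gam (m L : ℕ) : Type := D.Fj m ⧸ (D.Fj (L + 1)).subgroupOf (D.Fj m)

noncomputable def rho0 {m L : ℕ} (hm : 1 ≤ m) (hL : L + 1 ≤ N) (htw : L + 1 ≤ m - 1 + m * 3 ^ a) :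
    D.Fj m →* Matrix.SpecialLinearGroup (Fin 2) (Tr 3 (L + 1)) where
  toFun g := ⟨redM hL (D.pr g), redM_det hL _⟩
  map_one' := Subtype.ext (by simp [redM_one])
  map_mul' g h := Subtype.ext (by
    simp only [Subgroup.coe_mul, map_mul, Matrix.SpecialLinearGroup.coe_mul]
    exact redM_mul hL hm (D.Fj_le_Qc m g.2) (j := m - 1)
      (Qn_anti (by omega) (D.Fj_le_Qc m h.2)) htw)

noncomputable def rho {m L : ℕ} (hm : 1 ≤ m) (hL : L + 1 ≤ N) (htw : L + 1 ≤ m - 1 + m * 3 ^ a) :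
    D.Gam m L →* Matrix.SpecialLinearGroup (Fin 2) (Tr 3 (L + 1)) :=
  QuotientGroup.lift _ (D.rho0 hm hL htw) fun g hg => Subtype.ext (by
    have := (redM_sub_one_iff hL le_rfl (D.pr g)).2 (D.Fj_le_Qc _ hg)
    exact sub_eq_zero.1 (this.eq_zero le_rfl))

theorem rho_mk {m L : ℕ} (hm : 1 ≤ m) (hL : L + 1 ≤ N) (htw : L + 1 ≤ m - 1 + m * 3 ^ a)
    (g : D.Fj m) : (D.rho hm hL htw (QuotientGroup.mk g) : Mat (Tr 3 (L + 1))) =
      redM hL (D.pr g) := rfl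

theorem mk_eq_one {m L : ℕ} (g : D.Fj m) :
    (QuotientGroup.mk g : D.Gam m L) = 1 ↔ (g : Fr) ∈ D.Fj (L + 1) := by
  rw [QuotientGroup.eq_one_iff]; rfl

theorem commute_mk {m L : ℕ} (g h : D.Fj m) :
    Commute (QuotientGroup.mk g : D.Gam m L) (QuotientGroup.mk h) ↔
      ⁅(g : Fr), (h : Fr)⁆ ∈ D.Fj (L + 1) := by
  rw [← commutatorElement_eq_one_iff_commute]
  exact D.mk_eq_one ⁅g, h⁆

theorem split_level {m L i : ℕ} (hL : L + 1 ≤ N) (hi : i ≤ L + 1) {g : Fr}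
    (hg : g ∈ D.Fj m) (h : InI i (redM hL (D.pr g) - 1)) :
    ∃ f ∈ D.Fj i, ∃ v ∈ D.V m, g = f * v := by
  rcases le_or_gt i m with him | him
  · exact ⟨g, D.Fj_anti him hg, 1, one_mem _, by simp⟩
  · obtain ⟨f, hf, v, hv, e⟩ := D.split (by omega) him.le hg ((redM_sub_one_iff hL hi _).1 h)
    exact ⟨f, D.gam_le_Fj i hf, v, hv, e⟩

theorem rho_ker {m L : ℕ} (hm : 1 ≤ m) (hL : L + 1 ≤ N) (htw : L + 1 ≤ m - 1 + m * 3 ^ a)
    (g : D.Gam m L) (h : D.rho hm hL htw g = 1) :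
    ∃ v : D.Fj m, (v : Fr) ∈ D.V m ∧ g = QuotientGroup.mk v := by
  obtain ⟨g, rfl⟩ := QuotientGroup.mk_surjective g
  have h1 := D.rho_mk hm hL htw g
  rw [h] at h1
  obtain ⟨f, hf, v, hv, e⟩ := D.split_level hL le_rfl g.2
    (by rw [← h1]; simpa using InI.zero _)
  refine ⟨⟨v, hv.1⟩, hv, QuotientGroup.eq.2 ?_⟩
  change (g : Fr)⁻¹ * v ∈ D.Fj (L + 1)
  have e2 : (g : Fr)⁻¹ * v = v⁻¹ * f⁻¹ * v⁻¹⁻¹ := by rw [e]; group
  rw [e2]
  exact Subgroup.Normal.conj_mem inferInstance _ (inv_mem hf) _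

theorem exists_lift {m : ℕ} (hm : 1 ≤ m) {u : Qs 3 N a} (hu : u ∈ Qn 3 N a m) :
    ∃ g : D.Fj m, D.pr g = u := by
  obtain ⟨f, hf, e⟩ := D.gam_surj' hm hu
  exact ⟨⟨f, D.gam_le_Fj m hf⟩, e⟩

noncomputable def setup {j L : ℕ} (hj : 1 ≤ j) (hL : L + 1 ≤ N)
    (htw : L + 1 ≤ 2 * j - 1 + 2 * j * 3 ^ a)
    (hcen : ⁅D.V (2 * j), D.Fj (2 * j)⁆ ≤ D.Fj (L + 1)) :
    SymSetup 3 (Tr 3 (L + 1)) (D.Gam (2 * j) L) where
  w := wv 3 (L + 1)
  ι := (iota 3 (L + 1) : Tr 3 (L + 1) →+* Tr 3 (L + 1))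
  j := j
  L := L
  ρ := D.rho (by omega) hL htw
  j_pos := hj
  ι_w := iota_wv _ _
  ι_ι := iota_iota _ _
  nil := wv_pow_self _ _
  ann := fun _ _ hi h => ann_Iw hi h
  cen := fun g g' h => by
    obtain ⟨v, hv, rfl⟩ := D.rho_ker _ hL htw g h
    obtain ⟨g', rfl⟩ := QuotientGroup.mk_surjective g'
    exact (D.commute_mk _ _).2 (hcen (Subgroup.commutator_mem_commutator hv g'.2))
  pgrp := fun g h => by
    obtain ⟨v, hv, rfl⟩ := D.rho_ker _ hL htw g h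
    refine ⟨L, ?_⟩
    rw [← QuotientGroup.mk_pow, D.mk_eq_one]
    exact D.Fj_anti (by omega) (D.Fj_pow_pow _ _ v.2 L)
  exE := fun b hb ho => by
    obtain ⟨c, hc, hco, rfl⟩ := exists_odd_lift hp2 hL hb ho
    obtain ⟨u, hu⟩ := exists_eQ D.hq2 (Iw_anti (by omega) hc) hco
    obtain ⟨g, rfl⟩ := D.exists_lift (m := 2 * j) (u := u) (by omega) (by
      intro r s; fin_cases r <;> fin_cases s <;> simp [hu, hc])
    exact ⟨QuotientGroup.mk g, by rw [D.rho_mk, redM_eq hL hu]; simp⟩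
  exF := fun b hb ho => by
    obtain ⟨c, hc, hco, rfl⟩ := exists_odd_lift hp2 hL hb ho
    obtain ⟨u, hu⟩ := exists_fQ D.hq2 (Iw_anti (by omega) hc) hco
    obtain ⟨g, rfl⟩ := D.exists_lift (m := 2 * j) (u := u) (by omega) (by
      intro r s; fin_cases r <;> fin_cases s <;> simp [hu, hc])
    exact ⟨QuotientGroup.mk g, by rw [D.rho_mk, redM_eq hL hu]; simp⟩
  exH := fun v v' hvv hv he => by
    obtain ⟨c, hc, hce, hcr⟩ := exists_even_lift hp2 hL hv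
      (by rw [map_sub, map_one]; exact congrArg (· - 1) he)
    have hc1 : c + 1 - 1 ∈ Iw 3 N 1 := by simpa using Iw_anti (by omega) hc
    obtain ⟨k, hk⟩ := (isUnit_of_sub_one_mem hc1).exists_right_inv
    obtain ⟨u, hu⟩ := exists_hQ D.hq2 hk hc1 (by rw [map_add, hce, map_one])
    have hk1 : k - 1 ∈ Iw 3 N (2 * j) := by
      have e : k - 1 = -k * c := by linear_combination hk
      rw [e]; exact Ideal.mul_mem_left _ _ hc
    obtain ⟨g, rfl⟩ := D.exists_lift (m := 2 * j) (u := u) (by omega) (by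
      intro r s; fin_cases r <;> fin_cases s <;> simp [hu, hc, hk1])
    have h1 : red 3 hL (c + 1) = v := by rw [map_add, hcr, map_one]; ring
    have h2 : red 3 hL k = v' := by
      have := congrArg (red 3 hL) hk
      rw [map_mul, h1, map_one] at this
      linear_combination v' * this - red 3 hL k * hvv
    exact ⟨QuotientGroup.mk g, by rw [D.rho_mk, redM_eq hL hu, h1, h2]; simp⟩
  tv := fun i i' g g' hii h h' => by
    obtain ⟨g, rfl⟩ := QuotientGroup.mk_surjective g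
    obtain ⟨g', rfl⟩ := QuotientGroup.mk_surjective g'
    obtain ⟨f, hf, v, hv, e⟩ := D.split_level hL (min_le_right i (L + 1)) g.2
      (InI.mono h (min_le_left _ _))
    obtain ⟨f', hf', v', hv', e'⟩ := D.split_level hL (min_le_right i' (L + 1)) g'.2
      (InI.mono h' (min_le_left _ _))
    have hf1 : f ∈ D.Fj (2 * j) := by
      have : f = g * v⁻¹ := by rw [e]; group
      rw [this]; exact mul_mem g.2 (inv_mem hv.1)
    have hf1' : f' ∈ D.Fj (2 * j) := by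
      have : f' = g' * v'⁻¹ := by rw [e']; group
      rw [this]; exact mul_mem g'.2 (inv_mem hv'.1)
    have eg : g = ⟨f, hf1⟩ * ⟨v, hv.1⟩ := Subtype.ext e
    have eg' : g' = ⟨f', hf1'⟩ * ⟨v', hv'.1⟩ := Subtype.ext e'
    rw [eg, eg', QuotientGroup.mk_mul, QuotientGroup.mk_mul]
    refine Commute.mul_left (Commute.mul_right ?_ ?_) (Commute.mul_right ?_ ?_)
    · exact (D.commute_mk _ _).2 (D.Fj_anti (by omega) (D.comm_mem_Fj hf hf'))
    · exact ((D.commute_mk _ _).2 (hcen (Subgroup.commutator_mem_commutator hv' hf1))).symm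
    · exact (D.commute_mk _ _).2 (hcen (Subgroup.commutator_mem_commutator hv hf1'))
    · exact (D.commute_mk _ _).2 (hcen (Subgroup.commutator_mem_commutator hv hv'.1))

theorem exists_torus {i : ℕ} (hi : 1 ≤ i) (c : ZMod 3) :
    ∃ t ∈ D.Fj (2 * i), ∃ v' : Tr 3 N,
      (D.pr t).1.m = !![1 + wv 3 N ^ (2 * i) * algebraMap (ZMod 3) (Tr 3 N) c, 0; 0, v'] ∧
      Lead (2 * i) (D.pr t) (c • mH 3) := by
  have hc1 : 1 + wv 3 N ^ (2 * i) * algebraMap (ZMod 3) (Tr 3 N) c - 1 ∈ Iw 3 N 1 := by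
    rw [add_sub_cancel_left]
    exact Iw_anti (show 1 ≤ 2 * i by omega) (mem_Iw.2 ⟨_, rfl⟩)
  obtain ⟨k, hk⟩ := (isUnit_of_sub_one_mem hc1).exists_right_inv
  obtain ⟨u, hu⟩ := exists_hQ D.hq2 hk hc1 (by
    rw [map_add, map_one, map_mul, AlgHom.commutes, map_pow, iota_wv, Even.neg_pow (by simp)])
  have hl : Lead (2 * i) u (c • mH 3) := lead_h (by omega) hu (by simp)
  obtain ⟨g, rfl⟩ := D.exists_lift (m := 2 * i) (by omega) hl.mem
  exact ⟨g, g.2, k, hu, hl⟩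

theorem top_kill {j l r : ℕ} (hj : 1 ≤ j) (hL : 2 * l + 1 ≤ N)
    (htw : 2 * l + 1 ≤ 2 * j - 1 + 2 * j * 3 ^ a)
    (hcen : ⁅D.V (2 * j), D.Fj (2 * j)⁆ ≤ D.Fj (2 * l + 1)) (hpl : 3 ∣ l)
    (hcase : ((∀ v ∈ D.V (2 * j), v ^ 3 ∈ D.Fj (2 * l + 1)) ∧ 3 * (8 * j + 8) ≤ l) ∨
      3 ^ 3 * (8 * j + 8) ^ 2 ≤ l)
    (hr : j ≤ r) (hr6 : 10 ≤ r) (hr' : r + (8 * j + 8) ≤ l) (hpr : ¬ 3 ∣ r) :
    D.V (2 * l) ≤ D.Fj (2 * l + 1) := by
  obtain ⟨t, ht, v, hm, hl⟩ := D.exists_torus (i := r) (by omega) 1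
  obtain ⟨t', ht', v', hm', hl'⟩ := D.exists_torus (i := l - r) (by omega) (-1)
  have key := (D.setup hj hL htw hcen).top_comm Fact.out hp2 l r rfl hpl
    (by
      rcases hcase with ⟨h1, h2⟩ | h
      · refine Or.inl ⟨fun g hg => ?_, h2⟩
        obtain ⟨v, hv, rfl⟩ := D.rho_ker _ hL htw g hg
        rw [← QuotientGroup.mk_pow, D.mk_eq_one]
        exact h1 v hv
      · exact Or.inr h) hr hr'
    (QuotientGroup.mk ⟨t, D.Fj_anti (by omega) ht⟩)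
    (QuotientGroup.mk ⟨t', D.Fj_anti (by omega) ht'⟩) (red 3 hL v) (red 3 hL v')
    (by
      refine (D.rho_mk _ hL htw _).trans ((redM_eq hL hm).trans ?_)
      simp [setup])
    (by
      refine (D.rho_mk _ hL htw _).trans ((redM_eq hL hm').trans ?_)
      simp [setup, sub_eq_add_neg])
  have h1 : ⁅t, t'⁆ ∈ D.Fj (2 * l + 1) := (D.commute_mk _ _).1 key
  intro g hg
  obtain ⟨k, hk⟩ := D.T2 (by omega) (by omega) hpr ht ht' one_ne_zero (neg_ne_zero.2 one_ne_zero)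
    hl hl' hg
  simpa using mul_mem (pow_mem h1 k) hk

end Dat

end Pool.Agent.Lib.MP_0813d1_al.Three
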