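import Mathlib
import Pool.Agent.Lib.MP_0813d1_al.Three6

namespace Pool.Agent.Lib.MP_0813d1_al.Three

open scoped commutatorElement

variable {N a n : ℕ}

namespace Dat

variable (D : Dat N a n)

/-- conjugation on `F_m / F_(L+1)` -/
noncomputable def conjG (m L : ℕ) (s : Fr) : D.Gam m L →* D.Gam m L :=
  QuotientGroup.map _ _ (MulAut.conjNormal (H := D.Fj m) s).toMonoidHom fun g hg => by
    change s * (g : Fr) * s⁻¹ ∈ D.Fj (L + 1)
    exact Subgroup.Normal.conj_mem inferInstance (g : Fr) (Subgroup.mem_subgroupOf.1 hg) s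

theorem conjG_mk (m L : ℕ) (s : Fr) (g : D.Fj m) :
    D.conjG m L s (QuotientGroup.mk g) =
      QuotientGroup.mk (⟨s * g * s⁻¹, Subgroup.Normal.conj_mem inferInstance _ g.2 _⟩ : D.Fj m) :=
  rfl

theorem out_central {j L i i' : ℕ} (hj : 1 ≤ j) (hL : L + 1 ≤ N) (hq : L + 1 ≤ 3 ^ a)
    (hcen : ⁅D.V (2 * j), D.Fj (2 * j)⁆ ≤ D.Fj (L + 1)) (hi : 3 * j ≤ i) (hi' : 3 * j ≤ i')
    {t t' : Fr} (ht : t ∈ D.Fj (2 * i)) (ht' : t' ∈ D.Fj (2 * i')) {c c' : ZMod 3}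
    {v v' : Tr 3 N}
    (hm : (D.pr t).1.m = !![1 + wv 3 N ^ (2 * i) * algebraMap (ZMod 3) (Tr 3 N) c, 0; 0, v])
    (hm' : (D.pr t').1.m = !![1 + wv 3 N ^ (2 * i') * algebraMap (ZMod 3) (Tr 3 N) c', 0; 0, v'])
    (g : Fr) : ⁅⁅t, t'⁆, g⁆ ∈ D.Fj (L + 1) := by
  have htw : L + 1 ≤ 2 * j - 1 + 2 * j * 3 ^ a := by
    have : 3 ^ a ≤ 2 * j * 3 ^ a := Nat.le_mul_of_pos_left _ (by omega)
    omega
  have key : ∀ s : Fr, ((D.pr s).1.m = !![1, wv 3 N; 0, 1] ∨ (D.pr s).1.m = !![1, 0; wv 3 N, 1]) →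
      ⁅s, ⁅t, t'⁆⁆ ∈ D.Fj (L + 1) := by
    intro s hs
    have h1 := (D.setup hj hL htw hcen).out_fixed Fact.out hp2 (D.conjG (2 * j) L s)
      (wv 3 (L + 1)) (iota_wv _ _) (Ideal.mem_span_singleton_self _)
      ⟨redM hL (D.pr s), redM_det hL _⟩
      (by
        rcases hs with hs | hs
        · exact Or.inl ((redM_eq hL hs).trans (by simp))
        · exact Or.inr ((redM_eq hL hs).trans (by simp)))
      (by
        intro g
        obtain ⟨g, rfl⟩ := QuotientGroup.mk_surjective g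
        rw [eq_mul_inv_iff_mul_eq]
        apply Subtype.ext
        change redM hL (D.pr (s * g * s⁻¹)) * redM hL (D.pr s) =
          redM hL (D.pr s) * redM hL (D.pr g)
        rw [← MP_0813d1_al.Dat.redM_mul' hL hq, ← MP_0813d1_al.Dat.redM_mul' hL hq, ← map_mul, ← map_mul, inv_mul_cancel_right])
      (QuotientGroup.mk ⟨t, D.Fj_anti (by omega) ht⟩)
      (QuotientGroup.mk ⟨t', D.Fj_anti (by omega) ht'⟩)
      (1 + wv 3 (L + 1) ^ (2 * i) * algebraMap (ZMod 3) _ c) (red 3 hL v)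
      (1 + wv 3 (L + 1) ^ (2 * i') * algebraMap (ZMod 3) _ c') (red 3 hL v')
      (by
        rw [add_sub_cancel_left]
        exact Iw_anti (show 6 * j ≤ 2 * i by omega) (mem_Iw.2 ⟨_, rfl⟩))
      (by
        rw [add_sub_cancel_left]
        exact Iw_anti (show 6 * j ≤ 2 * i' by omega) (mem_Iw.2 ⟨_, rfl⟩))
      (by
        change iota 3 (L + 1) _ = _
        rw [map_add, map_one, map_mul, AlgHom.commutes, map_pow, iota_wv, Even.neg_pow (by simp)])
      (by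
        change iota 3 (L + 1) _ = _
        rw [map_add, map_one, map_mul, AlgHom.commutes, map_pow, iota_wv, Even.neg_pow (by simp)])
      (by
        refine (D.rho_mk _ hL htw _).trans ((redM_eq hL hm).trans ?_)
        simp [-AdjoinRoot.algebraMap_eq])
      (by
        refine (D.rho_mk _ hL htw _).trans ((redM_eq hL hm').trans ?_)
        simp [-AdjoinRoot.algebraMap_eq])
    have h2 := QuotientGroup.eq.1 (show D.conjG (2 * j) L s (QuotientGroup.mk
      ⁅(⟨t, D.Fj_anti (by omega) ht⟩ : D.Fj (2 * j)), (⟨t', D.Fj_anti (by omega) ht'⟩ : D.Fj (2 * j))⁆) =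
      QuotientGroup.mk
      ⁅(⟨t, D.Fj_anti (by omega) ht⟩ : D.Fj (2 * j)), (⟨t', D.Fj_anti (by omega) ht'⟩ : D.Fj (2 * j))⁆
      from h1)
    change (s * ⁅t, t'⁆ * s⁻¹)⁻¹ * ⁅t, t'⁆ ∈ D.Fj (L + 1) at h2
    have e : ⁅s, ⁅t, t'⁆⁆ = ⁅t, t'⁆ * ((s * ⁅t, t'⁆ * s⁻¹)⁻¹ * ⁅t, t'⁆)⁻¹ * ⁅t, t'⁆⁻¹ := by
      rw [commutatorElement_def s]; group
    rw [e]
    exact Subgroup.Normal.conj_mem inferInstance _ (inv_mem h2) _
  exact comm_mem_of_gens (key _ (Or.inl D.hx)) (key _ (Or.inr D.hy)) g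

theorem torus_comm_mem {L : ℕ} (hL : L + 1 ≤ N) (hq : L + 1 ≤ 3 ^ a) {t t' : Fr}
    {u v u' v' : Tr 3 N} (hm : (D.pr t).1.m = !![u, 0; 0, v])
    (hm' : (D.pr t').1.m = !![u', 0; 0, v']) : ⁅t, t'⁆ ∈ D.Qc (L + 1) := by
  rw [mem_Qc, ← redM_sub_one_iff hL le_rfl]
  have h1 : redM hL (D.pr ⁅t, t'⁆) * redM hL (D.pr (t' * t)) = redM hL (D.pr (t' * t)) := by
    rw [← MP_0813d1_al.Dat.redM_mul' hL hq, ← map_mul, show ⁅t, t'⁆ * (t' * t) = t * t' by
      rw [commutatorElement_def]; group, map_mul, map_mul, MP_0813d1_al.Dat.redM_mul' hL hq, MP_0813d1_al.Dat.redM_mul' hL hq,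
      redM_eq hL hm, redM_eq hL hm']
    ext r s; fin_cases r <;> fin_cases s <;> simp [Matrix.mul_apply, mul_comm]
  have h2 : redM hL (D.pr (t' * t)) * redM hL (D.pr (t' * t)⁻¹) = 1 := by
    rw [← MP_0813d1_al.Dat.redM_mul' hL hq, ← map_mul, mul_inv_cancel, map_one, redM_one]
  have h3 : redM hL (D.pr ⁅t, t'⁆) = 1 := by
    rw [← mul_one (redM hL (D.pr ⁅t, t'⁆)), ← h2, ← mul_assoc, h1]
  rw [h3, sub_self]; exact InI.zero _

theorem cent {L : ℕ} (hL : L + 1 ≤ N) (hq : L + 1 ≤ 3 ^ a) (i : ℕ) (hi : 25 ≤ i) :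
    ⁅D.V (2 * 3 * i), (⊤ : Subgroup Fr)⁆ ≤ D.Fj (L + 1) := by
  induction hd : L + 1 - i generalizing i with
  | zero =>
    exact (Subgroup.commutator_le_left _ _).trans (inf_le_left.trans (D.Fj_anti (by omega)))
  | succ d ih =>
    have ih' := ih (i + 1) (by omega) (by omega)
    rcases le_or_gt (L + 1) (2 * 3 * i) with hbig | hsmall
    · exact (Subgroup.commutator_le_left _ _).trans (inf_le_left.trans (D.Fj_anti hbig))
    obtain ⟨j, hj⟩ : ∃ j, j = (i - 1) / 2 := ⟨_, rfl⟩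
    obtain ⟨k0, hk0⟩ : ∃ k0, k0 = j / 3 := ⟨_, rfl⟩
    let W : ℕ → Subgroup Fr := fun k =>
      if k + k0 ≤ i + 1 then D.V (2 * 3 * (k + k0)) ⊔ D.Fj (L + 1) else D.Fj (L + 1)
    have hWn : ∀ k, (W k).Normal := by
      intro k; simp only [W]; split_ifs <;> infer_instance
    have hW : ∀ k, ⁅W k, (⊤ : Subgroup Fr)⁆ ≤ W (k + 1) := by
      intro k
      have := hWn (k + 1)
      have hF : D.Fj (L + 1) ≤ W (k + 1) := by
        simp only [W]; split_ifs
        · exact le_sup_right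
        · exact le_rfl
      have hF' : ⁅D.Fj (L + 1), (⊤ : Subgroup Fr)⁆ ≤ W (k + 1) :=
        (Subgroup.commutator_le_left _ _).trans hF
      by_cases hk : k + k0 ≤ i + 1
      · have e : W k = D.V (2 * 3 * (k + k0)) ⊔ D.Fj (L + 1) := if_pos hk
        rw [e]
        refine comm_sup_le ?_ hF'
        by_cases hk' : k + 1 + k0 ≤ i + 1
        · have e' : W (k + 1) = D.V (2 * 3 * (k + 1 + k0)) ⊔ D.Fj (L + 1) := if_pos hk'
          rw [e', show k + 1 + k0 = k + k0 + 1 by ring]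
          refine le_sup_of_le_left (le_trans ?_ (D.V_succ_le (by omega)))
          rw [Subgroup.commutator_le]
          intro v hv g _
          rw [add_comm]
          exact comm_swap_mem (D.comm_mem_V (D.mem_Fj_one g) hv)
        · rw [show k + k0 = i + 1 by omega]
          exact ih'.trans hF
      · have e : W k = D.Fj (L + 1) := if_neg hk
        rw [e]; exact hF'
    have hcen : ⁅D.V (2 * j), D.Fj (2 * j)⁆ ≤ D.Fj (L + 1) := by
      apply D.V_comm_Fj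
      have h1 : D.V (2 * j) ≤ W 0 := by
        have e : W 0 = D.V (2 * 3 * (0 + k0)) ⊔ D.Fj (L + 1) := if_pos (by omega)
        rw [e]
        exact le_sup_of_le_left (D.V_anti (by omega))
      have h2 := chain_comm W hWn hW 0 (2 * j) (by omega)
      have e : W (0 + 2 * j) = D.Fj (L + 1) := if_neg (by omega)
      rw [e] at h2
      exact (Subgroup.commutator_mono h1 le_rfl).trans h2
    obtain ⟨r, hr1, hr2, hpr⟩ : ∃ r, 3 * i / 2 - 1 ≤ r ∧ r ≤ 3 * i / 2 ∧ ¬ 3 ∣ r := by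
      by_cases h : 3 ∣ 3 * i / 2
      · exact ⟨3 * i / 2 - 1, le_rfl, by omega, by omega⟩
      · exact ⟨3 * i / 2, by omega, le_rfl, h⟩
    obtain ⟨t, ht, v, hm, hlt⟩ := D.exists_torus (i := r) (by omega) 1
    obtain ⟨t', ht', v', hm', hlt'⟩ := D.exists_torus (i := 3 * i - r) (by omega) 1
    have hZ := D.out_central (j := j) (by omega) hL hq hcen (by omega) (by omega) ht ht' hm hm'
    rw [← le_cmod_iff]
    intro g hg
    rw [mul_assoc] at hg hsmall
    obtain ⟨k, hk⟩ := D.T2 (by omega) (by omega) hpr ht ht' one_ne_zero one_ne_zero hlt hlt' hg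
    have hQ : (⁅t, t'⁆ ^ k)⁻¹ * g ∈ D.Qc (L + 1) :=
      mul_mem (inv_mem (pow_mem (D.torus_comm_mem hL hq hm hm') k))
        (D.ker_le_Qc _ hg.2)
    obtain ⟨f, hf, w, hw, e⟩ := D.split (by omega) (by omega) hk hQ
    have e' : g = ⁅t, t'⁆ ^ k * (f * w) := by rw [← e]; group
    rw [e']
    have hZ' : ⁅t, t'⁆ ∈ cmod ⊤ (D.Fj (L + 1)) := fun c _ => hZ c
    refine mul_mem (pow_mem hZ' k) (mul_mem ?_ ?_)
    · exact fun c _ => comm_mem_left (D.gam_le_Fj _ hf) c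
    · rw [← mul_assoc] at hw
      exact le_cmod_iff.2 ih' (D.V_succ_le (by omega) hw)

/-- the constant -/
def l0 : ℕ := 9980928

theorem kill (hq : 48 * (l0 + 1) + 1 ≤ 3 ^ a) (k : ℕ) (hk : 2 * l0 ≤ k) :
    D.V k ≤ D.Fj (k + 1) := by
  have hl0 : l0 = 9980928 := rfl
  induction k using Nat.strong_induction_on with
  | _ k ih =>
  by_cases hd : 2 * 3 ∣ k
  swap
  · exact D.T1 (by omega) hd
  rcases le_or_gt N k with hN | hN
  · exact D.V_le_of_ge hN _
  obtain ⟨l, rfl⟩ : ∃ l, k = 2 * l := ⟨k / 2, by omega⟩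
  have hpl : 3 ∣ l := by omega
  rcases le_or_gt (2 * l + 1) (3 ^ a) with h1 | h1
  · have hc := D.cent (L := 2 * l) hN h1 25 le_rfl
    refine D.top_kill (j := 75) (r := 76) (by omega) hN (by omega) ?_ hpl
      (Or.inr (by omega)) (by omega) (by omega) (by omega) (by omega)
    exact (Subgroup.commutator_mono le_rfl le_top).trans hc
  · obtain ⟨j, hj⟩ : ∃ j, l / 24 = j + 1 := ⟨l / 24 - 1, by omega⟩
    have hV : D.V (2 * j) ≤ D.V (2 * l) := by
      have : ∀ k', 2 * j ≤ k' → k' ≤ 2 * l → D.V (2 * j) ≤ D.V k' := by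
        intro k' h1
        induction k', h1 using Nat.le_induction with
        | base => exact fun _ => le_rfl
        | succ k' h1 ih' =>
          intro h2'
          exact (ih' (by omega)).trans (le_inf (ih k' (by omega) (by omega)) inf_le_right)
      exact this _ (by omega) le_rfl
    obtain ⟨r, hr1, hr2, hpr⟩ : ∃ r, j ≤ r ∧ r ≤ j + 1 ∧ ¬ 3 ∣ r := by
      by_cases h : 3 ∣ j
      · exact ⟨j + 1, by omega, le_rfl, by omega⟩
      · exact ⟨j, le_rfl, by omega, h⟩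
    refine D.top_kill (j := j) (r := r) (by omega) hN ?_ ?_ hpl (Or.inl ⟨?_, by omega⟩) hr1
      (by omega) (by omega) hpr
    · have h7 : 2 * j * 48 ≤ 2 * j * 3 ^ a := Nat.mul_le_mul_left _ (by omega)
      omega
    · refine le_trans (Subgroup.commutator_mono (hV.trans inf_le_left) le_rfl)
        ((D.Fj_comm _ _).trans (D.Fj_anti (by omega)))
    · intro v hv
      exact D.Fj_pow _ v (hV hv).1

theorem V_le_R (hq : 48 * (l0 + 1) + 1 ≤ 3 ^ a) {k : ℕ} (hk : 2 * l0 ≤ k) :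
    D.V k ≤ D.R := by
  have : ∀ k', k ≤ k' → D.V k ≤ D.V k' := by
    intro k' h1
    induction k', h1 using Nat.le_induction with
    | base => exact le_rfl
    | succ k' h1 ih => exact ih.trans (le_inf (D.kill hq k' (by omega)) inf_le_right)
  intro g hg
  have h1 := (this (k + N) (by omega) hg).1
  rw [D.Fj_eq (by omega)] at h1
  exact h1.1

theorem gam_le_R' (hq : 48 * (l0 + 1) + 1 ≤ 3 ^ a) (hN : N = n + 2 * l0 + 1) :
    gam Fr (n + 2 * l0) ≤ D.R := by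
  have hn := D.hn
  have hl0 : l0 = 9980928 := rfl
  let K : ℕ → Subgroup Fr := fun k => gam Fr (n + k) ⊓ (D.V (k + 1) ⊔ D.R)
  have hK : ∀ (k : ℕ) (s : Fr), ∀ f ∈ K k, ⁅s, f⁆ ∈ K (k + 1) := by
    intro k s f hf
    refine ⟨comm_mem_gam_succ (j := n + k) (by omega) s hf.1, ?_⟩
    have : ⁅(⊤ : Subgroup Fr), D.V (k + 1) ⊔ D.R⁆ ≤ D.V (k + 1 + 1) ⊔ D.R := by
      refine comm_sup_le' (le_sup_of_le_left ?_)
        (le_sup_of_le_right (Subgroup.commutator_le_right _ _))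
      rw [Subgroup.commutator_le]
      intro g _ v hv
      rw [add_comm]
      exact D.comm_mem_V (D.mem_Fj_one g) hv
    exact this (Subgroup.commutator_mem_commutator (Subgroup.mem_top s) hf.2)
  obtain ⟨z, hz, ez⟩ := D.gam_surj' (by omega) D.z1.mem
  have hz0 : z ∈ K 0 := by
    refine ⟨hz, ?_⟩
    have e : z = z * D.s1⁻¹ * D.s1 := by group
    change z ∈ D.V (0 + 1) ⊔ D.R
    rw [e]
    refine mul_mem (Subgroup.mem_sup_left ⟨D.mem_Fj_one _, ?_⟩)
      (Subgroup.mem_sup_right D.s1_mem_R)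
    change z * D.s1⁻¹ ∈ D.pr.ker
    rw [MonoidHom.mem_ker, map_mul, ez, ← map_mul, mul_inv_cancel, map_one]
  have hsh : ∀ k, 1 ≤ k → ∀ M, Shape (n + k) M → ∃ f ∈ K k, Lead (n + k) (D.pr f) M := by
    intro k hk
    induction k, hk using Nat.le_induction with
    | base =>
      exact shapes_step_odd hp2 D.hq3 D.pr D.lx D.hno (hK 0 gX) hz0 (by rw [ez]; exact D.z1)
    | succ k hk ih =>
      exact shapes_step hp2 D.hq3 D.pr D.lx D.ly (i := n + k) (by omega)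
        (fun f hf => ⟨hK k _ f hf, hK k _ f hf⟩) ih
  intro g hg
  obtain ⟨M, hM, hl⟩ := exists_lead_shape hp2 (by omega) (D.gam_le_Qc _ hg)
  obtain ⟨f, hf, hfl⟩ := hsh (2 * l0) (by omega) M hM
  have hfR : f ∈ D.R := (sup_le (D.V_le_R hq (by omega)) le_rfl) hf.2
  have h1 : f⁻¹ * g ∈ D.V (n + 2 * l0) := by
    refine ⟨D.gam_le_Fj _ (mul_mem (inv_mem hf.1) hg), D.Qc_le_ker (i := n + 2 * l0 + 1)
      (by omega) ?_⟩
    rw [mem_Qc, map_mul, map_inv]
    exact hfl.div_mem D.hq2 (by omega) hl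
  simpa using mul_mem hfR (D.V_le_R hq (by omega) h1)

theorem indep (x y : ℤ) (h : D.s1 ^ x * D.s2 ^ y ∈ commutator Fr) : x = 0 ∧ y = 0 := by
  obtain ⟨c, hc, e⟩ := s1_eq gX gY
  obtain ⟨c', hc', e'⟩ : ∃ c' ∈ commutator Fr, s20 = c'⁻¹ * gY ^ 3 := ⟨_, s2_mem gX gY, rfl⟩
  have e1 : D.s1 = gX ^ 3 * c * D.w1 := by rw [D.e1, ← e]; rfl
  have e2 : D.s2 = c'⁻¹ * gY ^ 3 * D.w2 := by rw [D.e2, e']
  have h1 := Abelianization.commutator_subset_ker (expo true) h
  have h2 := Abelianization.commutator_subset_ker (expo false) h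
  rw [MonoidHom.mem_ker, map_mul, map_zpow, map_zpow, e1, e2] at h1 h2
  simp only [map_mul, map_inv, map_pow, expo_gam _ (i := 2) le_rfl hc, expo_gam _ (i := 2) le_rfl hc',
    expo_gam _ (by omega) D.hw1, expo_gam _ (by omega) D.hw2, mul_one, inv_one, one_mul] at h1 h2
  have h3 := congrArg Multiplicative.toAdd h1
  have h4 := congrArg Multiplicative.toAdd h2
  simp [expo, gX, gY] at h3 h4
  exact ⟨h3, h4⟩

include D in
theorem embed (hq : 48 * (l0 + 1) + 1 ≤ 3 ^ a) (hN : N = n + 2 * l0 + 1) {G : Type}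
    [Group G] (f : G →* Qs 3 N a) (h1 : ∀ σ, f σ ∈ Qn 3 N a (2 * l0))
    (h2 : ∀ σ, f σ ∈ Qn 3 N a n → σ = 1) :
    ∃ (H : Type) (_ : Group H) (_ : Finite H), IsPGroup 3 H ∧
      Subsingleton (groupHomology (Rep.trivial ℤ H ℤ) 2) ∧
      ∃ φ : G →* H, Function.Injective φ := by
  have hn := D.hn
  have hl0 : l0 = 9980928 := rfl
  have hP : IsPGroup 3 (Fr ⧸ D.R) := by
    intro g
    obtain ⟨g, rfl⟩ := QuotientGroup.mk_surjective g
    refine ⟨N, ?_⟩
    rw [← QuotientGroup.mk_pow, QuotientGroup.eq_one_iff]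
    have := D.Fj_pow_pow 1 g (D.mem_Fj_one g) N
    rw [D.Fj_eq (by omega)] at this
    exact this.1
  have hnil : Group.IsNilpotent (Fr ⧸ D.R) := by
    rw [Subgroup.nilpotent_iff_lowerCentralSeries]
    refine ⟨N - 1, ?_⟩
    have e : (⊤ : Subgroup (Fr ⧸ D.R)) = (⊤ : Subgroup Fr).map (QuotientGroup.mk' D.R) :=
      (Subgroup.map_top_of_surjective _ (QuotientGroup.mk'_surjective _)).symm
    rw [e, ← Subgroup.map_lowerCentralSeries, Subgroup.map_eq_bot_iff, QuotientGroup.ker_mk']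
    exact D.gam_le_R le_rfl
  have hfin : Finite (Fr ⧸ D.R) := finite_of_fg_nilpotent_torsion fun g => by
    obtain ⟨k, hk⟩ := hP g
    exact isOfFinOrder_iff_pow_eq_one.2 ⟨_, pow_pos (by omega : 0 < 3) k, hk⟩
  refine ⟨Fr ⧸ D.R, inferInstance, hfin, hP, ?_, ?_⟩
  · refine H2_trivial_of_balanced (QuotientGroup.mk' D.R) (QuotientGroup.mk'_surjective _) D.s1 D.s2
      ((QuotientGroup.eq_one_iff _).2 D.s1_mem_R) ((QuotientGroup.eq_one_iff _).2 D.s2_mem_R) ?_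
      D.indep
    rw [QuotientGroup.ker_mk']
    refine sup_le_sup_left ?_ _
    have e : gam Fr N = ⁅gam Fr (n + 2 * l0), ⊤⁆ := by rw [hN, gam_succ (by omega)]
    rw [e]
    exact Subgroup.commutator_mono (D.gam_le_R' hq hN) le_rfl
  · choose g hg eg using fun σ => D.gam_surj' (by omega) (h1 σ)
    let φ : G →* Fr ⧸ D.R := MonoidHom.mk' (fun σ => QuotientGroup.mk (g σ)) fun σ τ => by
      rw [← QuotientGroup.mk_mul, QuotientGroup.eq]
      refine D.V_le_R hq le_rfl ⟨D.gam_le_Fj _ (mul_mem (inv_mem (hg _)) (mul_mem (hg _) (hg _))), ?_⟩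
      change (g (σ * τ))⁻¹ * (g σ * g τ) ∈ D.pr.ker
      rw [MonoidHom.mem_ker, map_mul, map_mul, map_inv, eg, eg, eg, map_mul, inv_mul_cancel]
    refine ⟨φ, (injective_iff_map_eq_one φ).2 fun σ hσ => h2 σ ?_⟩
    rw [← eg]
    exact D.R_le_Qc ((QuotientGroup.eq_one_iff _).1 hσ)

end Dat

theorem main_three (hc : PC.D3.Cert) (G : Type) [Group G] [Finite G] (hG : IsPGroup 3 G) :
    ∃ (H : Type) (_ : Group H) (_ : Finite H), IsPGroup 3 H ∧
      Subsingleton (groupHomology (Rep.trivial ℤ H ℤ) 2) ∧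
      ∃ φ : G →* H, Function.Injective φ := by
  have hl0 : Dat.l0 = 9980928 := rfl
  obtain ⟨a, ha⟩ : ∃ a, a = 48 * (Dat.l0 + 1) + 1 := ⟨_, rfl⟩
  have hq : a ≤ 3 ^ a := (Nat.lt_pow_self (by omega)).le
  obtain ⟨n0, hn0⟩ := universality 3 (by omega) a (2 * Dat.l0) G hG
  obtain ⟨α, β, h1, h2, h3, h4, h5'⟩ := hn0 (2 * n0 + 21 + 2 * Dat.l0 + 1)
  obtain ⟨f, hf1, hf2⟩ := exists_embedding (a := a) (n := 2 * n0 + 21) (by omega) α β h1 h2 h3 h4
    (fun σ h => h5' (by omega) σ (Iw_anti (by omega) h))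
  obtain ⟨D⟩ := exists_dat (N := 2 * n0 + 21 + 2 * Dat.l0 + 1) (a := a) hc (by omega) (by omega)
    (2 * n0 + 21) (by omega) ⟨n0 + 10, by ring⟩
  exact D.embed (by omega) rfl f hf1 hf2

end Pool.Agent.Lib.MP_0813d1_al.Three
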