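import Pool.Agent.Lib.MP_0813d1_al.TwoBlue

namespace Pool.Agent.Lib.MP_0813d1_al.Two

open PC Univ

namespace A1

section fil
variable {Q : Type} [Group Q] {N : ℕ} (Fl : Fil Q N)

theorem cm_G {i j : ℕ} {g h : Q} (hi : 1 ≤ i) (hj : 1 ≤ j) (hg : g ∈ Fl.G i) (hh : h ∈ Fl.G j) :
    cm g h ∈ Fl.G (i + j) := by
  obtain ⟨X, hX⟩ := Fl.ex hi hg
  obtain ⟨Y, hY⟩ := Fl.ex hj hh
  exact Fl.mem (Fl.comm hi hj hX hY)

theorem span {K : Subgroup Q} {l : ℕ} (hl : 1 ≤ l) (h : ∀ i, ∃ g ∈ K, Fl.Lead l g (sB i))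
    (X : su) : ∃ g ∈ K, Fl.Lead l g X :=
  su_ind (P := fun X => ∃ g ∈ K, Fl.Lead l g X) ⟨1, one_mem _, Fl.zero.2 (one_mem _)⟩ h
    (fun _ _ ⟨g, hg, h1⟩ ⟨g', hg', h2⟩ => ⟨g * g', mul_mem hg hg', Fl.mul hl h1 h2⟩) X

theorem fill (K : Subgroup Q) (j : ℕ) (hj : 1 ≤ j)
    (h : ∀ l, j ≤ l → ∀ i, ∃ g ∈ K, Fl.Lead l g (sB i)) : Fl.G j ≤ K := by
  have key : ∀ d l, j ≤ l → N ≤ l + d → Fl.G l ≤ K := fun d => by
    induction d with
    | zero => exact fun l _ hl => (Fl.anti hl).trans (Fl.bot.le.trans bot_le)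
    | succ d ih =>
      intro l h1 h2 g hg
      obtain ⟨X, hX⟩ := Fl.ex (hj.trans h1) hg
      obtain ⟨k, hk, h3⟩ := span Fl (hj.trans h1) (h l h1) X
      have h4 := Fl.mul (hj.trans h1) (Fl.inv (hj.trans h1) h3) hX
      rw [su_add_self] at h4
      simpa using mul_mem hk (ih (l + 1) (by omega) (by omega) (Fl.zero.1 h4))
  exact key N j le_rfl (by omega)

end fil

theorem map_wd {Γ Δ : Type} [Group Γ] [Group Δ] (f : Γ →* Δ) (a b : Γ) (l : List ℕ) :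
    f (wd (D2.k a b) l) = wd (D2.k (f a) (f b)) l := by
  rw [wd, wd, map_list_prod, List.map_map]
  exact congrArg (fun κ => (l.map κ).prod) (funext fun i => D2.map_k f a b i)

theorem map_ev {Γ Δ : Type} [Group Γ] [Group Δ] (f : Γ →* Δ) (a b : Γ) (w : List (ℕ × ℕ)) :
    f (evw (D2.k a b) w) = evw (D2.k (f a) (f b)) w := by
  rw [map_evw]
  exact congrArg (fun κ => evw κ w) (funext fun i => D2.map_k f a b i)

theorem map_list {Γ Δ : Type} [Group Γ] [Group Δ] (f : Γ →* Δ) (a b : Γ) :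
    [v62 a b, v64 a b, v67 a b, w1 a b, w2 a b].map f = [v62 (f a) (f b), v64 (f a) (f b),
      v67 (f a) (f b), w1 (f a) (f b), w2 (f a) (f b)] := by
  simp only [List.map_cons, List.map_nil, v62, v64, v67, w1, w2, map_wd, map_ev, map_mul, map_inv,
    map_pow]

variable {E Q : Type} [Group E] [Group Q] {N n : ℕ} (P : Pre E Q N n)

theorem C_mono {k k' j j' : ℕ} (hk : k ≤ k') (hj : j ≤ j') : P.C k' j' ≤ P.C k j :=
  inf_le_inf (lam_anti hk) (Subgroup.comap_mono (P.Fl.anti hj))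

theorem C_normal (k j : ℕ) : (P.C k j).Normal :=
  haveI := (P.Fl.normal j).comap P.θ
  Subgroup.normal_inf_normal _ _

theorem cm_C {k l i j : ℕ} {x y : E} (hi : 1 ≤ i) (hj : 1 ≤ j) (hx : x ∈ P.C k i)
    (hy : y ∈ P.C l j) : cm x y ∈ P.C (k + l) (i + j) :=
  ⟨cm_mem_lam hx.1 hy.1, by
    change P.θ (cm x y) ∈ P.Fl.G (i + j)
    rw [map_cm]
    exact cm_G P.Fl hi hj hx.2 hy.2⟩

theorem Psi_normal (m : ℕ) : (P.Psi m).Normal := ⟨fun g hg c => by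
  refine (Subgroup.closure_le ((P.Psi m).comap (MulAut.conj c).toMonoidHom)).2 ?_ hg
  rintro _ ⟨i, j, x, y, hi, hj, hm, hx, hy, rfl⟩
  exact Subgroup.subset_closure ⟨i, j, _, _, hi, hj, hm, (C_normal P _ _).conj_mem x hx c,
    (C_normal P _ _).conj_mem y hy c, map_cm (MulAut.conj c).toMonoidHom x y⟩⟩

theorem Kq_le (k : ℕ) : Kq (P.θ P.a) (P.θ P.b) k ≤ (lam 2 E k).map P.θ := by
  refine (Subgroup.closure_le _).2 ?_
  rintro g ⟨i, hi, hk, e⟩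
  exact ⟨D2.k P.a P.b i, lam_anti hk (P.km i hi), (D2.map_k P.θ P.a P.b i).trans e.symm⟩

theorem Cq_le : Cq (P.θ P.a) (P.θ P.b) ≤ (lam 2 E 45).map P.θ := by
  refine (Subgroup.closure_le _).2 ?_
  rintro _ ⟨i, j, hi, hj, hk, rfl⟩
  exact ⟨_, lam_anti hk (cm_mem_lam (P.km i hi) (P.km j hj)), by
    rw [map_cm, D2.map_k, D2.map_k]⟩

/-- all leading terms in level `j` occur in weight `k` -/
def Sp (j k : ℕ) : Prop := ∀ X, ∃ x ∈ lam 2 E k, P.Fl.Lead j (P.θ x) X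

variable {P}

theorem Sp.mono {j k k' : ℕ} (h : Sp P j k) (hk : k' ≤ k) : Sp P j k' := fun X =>
  (h X).imp fun _ hx => ⟨lam_anti hk hx.1, hx.2⟩

theorem Sp.of {j k : ℕ} (hj : 1 ≤ j)
    (h : ∀ i, ∃ g ∈ (lam 2 E k).map P.θ, P.Fl.Lead j g (sB i)) : Sp P j k := fun X => by
  obtain ⟨_, ⟨x, hx, rfl⟩, h1⟩ := span P.Fl hj h X
  exact ⟨x, hx, h1⟩

theorem Sp.add {i j k l : ℕ} (h : Sp P i k) (h' : Sp P j l) (hi : 1 ≤ i) (hj : 1 ≤ j) :
    Sp P (i + j) (k + l) := Sp.of (by omega) fun s => by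
  obtain ⟨t, u, e⟩ := sB_br s
  obtain ⟨x, hx, h1⟩ := h (sB t)
  obtain ⟨y, hy, h2⟩ := h' (sB u)
  exact ⟨_, ⟨_, cm_mem_lam hx hy, map_cm _ _ _⟩, e ▸ P.Fl.comm hi hj h1 h2⟩

theorem Sp.fill {j k : ℕ} (hj : 1 ≤ j) (h : ∀ l, j ≤ l → Sp P l k) :
    P.Fl.G j ≤ (lam 2 E k).map P.θ :=
  A1.fill P.Fl _ j hj fun l hl i => let ⟨x, hx, h1⟩ := h l hl (sB i); ⟨_, ⟨x, hx, rfl⟩, h1⟩

variable (P)

theorem base {j k : ℕ} (h : (j, k) ∈ spL) (hj : 1 ≤ j) : Sp P j k :=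
  Sp.of hj fun i => (P.qf.sp _ h i).imp fun _ hg => ⟨Kq_le P k hg.1, hg.2⟩

theorem lead (j : ℕ) (hj : 2 ≤ j) : Sp P j (Kw j) := by
  induction j using Nat.strong_induction_on with
  | _ j ih =>
    by_cases h : j ≤ 6
    · interval_cases j <;> exact base P (by decide) (by decide)
    · obtain ⟨j, rfl⟩ : ∃ i, j = i + 2 := ⟨j - 2, by omega⟩
      exact ((ih j (by omega) (by omega)).add (base P (j := 2) (k := 5) (by decide) (by decide))
        (by omega) (by omega)).mono (by unfold Kw; omega)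

theorem lead45 (j : ℕ) (hj : 11 ≤ j) : Sp P j 45 := by
  obtain ⟨j, rfl⟩ : ∃ i, j = i + 6 := ⟨j - 6, by omega⟩
  exact ((lead P j (by omega)).add (lead P 6 (by omega)) (by omega) (by omega)).mono
    (by unfold Kw; omega)

theorem lead_D (j : ℕ) (hj : 2 ≤ j) (X : su) : ∃ x ∈ P.D j, P.Fl.Lead j (P.θ x) X :=
  (lead P j hj X).imp fun _ hx => ⟨⟨lam_anti (le_max_left _ _) hx.1, P.Fl.mem hx.2⟩, hx.2⟩

theorem Psi_full (m : ℕ) (hm : 4 ≤ m) : P.Fl.G m ≤ (P.Psi m).map P.θ :=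
  fill P.Fl _ m (by omega) fun l hl s => by
    obtain ⟨l, rfl⟩ : ∃ i, l = 2 + i := ⟨l - 2, by omega⟩
    obtain ⟨t, u, e⟩ := sB_br s
    obtain ⟨x, hx, h1⟩ := lead_D P 2 le_rfl (sB t)
    obtain ⟨y, hy, h2⟩ := lead_D P l (by omega) (sB u)
    exact ⟨_, ⟨_, Subgroup.subset_closure ⟨2, l, x, y, le_rfl, by omega, hl, hx, hy, rfl⟩,
      map_cm _ _ _⟩, e ▸ P.Fl.comm (by omega) (by omega) h1 h2⟩

end A1

open A1 in
theorem blk_A1 : St_A1 := fun E _ _ _ _ _ P =>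
  { C_normal := C_normal P
    V_normal := fun _ => Subgroup.normal_inf_normal _ _
    Psi_normal := Psi_normal P
    C_mono := C_mono P
    cm_C := cm_C P
    Psi_anti := fun _ _ h => Subgroup.closure_mono fun _ ⟨i, j, x, y, hi, hj, hm, hr⟩ =>
      ⟨i, j, x, y, hi, hj, h.trans hm, hr⟩
    Psi_le := fun m => (Subgroup.closure_le _).2 (by
      rintro _ ⟨i, j, x, y, hi, hj, hm, hx, hy, rfl⟩
      exact C_mono P (by omega) hm (cm_C P (by omega) (by omega) hx hy))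
    fill := fill P.Fl
    lead := lead P
    full := fun j hj => Sp.fill (by omega) fun l hl =>
      (lead P l (hj.trans hl)).mono (by unfold Kw; omega)
    lead45 := lead45 P
    full45 := Sp.fill (by omega) (lead45 P)
    Psi_full := Psi_full P
    Kq_lift := Kq_le P
    cor := fun g hg => by
      obtain ⟨x, hx, e⟩ := sup_le (Cq_le P) (Sp.fill (by omega) (lead45 P))
        (P.qf.cor (P.θ g) (map_list P.θ P.a P.b ▸ List.mem_map_of_mem hg))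
      exact ⟨x⁻¹, inv_mem hx, by rw [map_mul, map_inv, e, mul_inv_cancel]⟩ }

end Pool.Agent.Lib.MP_0813d1_al.Two
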