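import Pool.Agent.Lib.MP_0813d1_al.PCWords

namespace Pool.Agent.Lib.MP_0813d1_al.PC

def D2 : Data where
  p := 2
  c := 44
  defs :=
    [(2, 1, 0), (1, 0, 0), (2, 2, 0), (2, 2, 1), (1, 3, 0), (2, 4, 0), (2, 5, 1), (2, 7, 0), (2,
    7, 1), (2, 9, 0), (2, 10, 0), (2, 11, 0), (2, 11, 1), (2, 12, 0), (2, 13, 0), (2, 13, 1), (2,
    14, 0), (2, 16, 0), (2, 16, 1), (2, 17, 0), (2, 18, 0), (2, 19, 0), (2, 21, 0), (2, 21, 1),
    (2, 22, 0), (2, 23, 0), (2, 23, 1), (2, 24, 0), (2, 24, 1), (2, 26, 0), (2, 27, 0), (2, 29,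
    0), (2, 29, 1), (2, 30, 0), (2, 32, 0), (2, 32, 1), (2, 33, 0), (2, 33, 1), (2, 35, 0), (2,
    36, 0), (2, 37, 0), (2, 39, 0), (2, 40, 0), (2, 41, 0), (2, 43, 0), (2, 43, 1), (2, 44, 0),
    (2, 45, 0), (2, 46, 0), (2, 46, 1), (2, 48, 0), (2, 49, 1), (2, 50, 0), (2, 50, 1), (2, 51,
    0), (2, 52, 0), (2, 52, 1), (2, 54, 0), (2, 54, 1), (2, 55, 0), (2, 57, 1), (2, 59, 0), (2,
    59, 1), (2, 60, 0), (2, 61, 0), (2, 61, 1), (2, 62, 0), (2, 63, 1), (2, 64, 0), (2, 65, 0),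
    (2, 65, 1), (2, 68, 0), (2, 71, 0), (2, 74, 0), (2, 74, 1), (2, 75, 0), (2, 75, 1), (2, 78,
    0), (2, 79, 0), (2, 79, 1), (2, 80, 0), (2, 82, 0), (2, 82, 1), (2, 83, 0), (2, 83, 1), (2,
    86, 0), (2, 87, 0), (2, 87, 1), (2, 88, 0), (2, 90, 0), (2, 90, 1), (2, 91, 0), (2, 91, 1),
    (2, 94, 0), (2, 95, 0), (2, 95, 1), (2, 96, 0), (2, 98, 0), (2, 98, 1), (2, 99, 0), (2, 99,
    1), (2, 101, 1), (2, 102, 0), (2, 104, 0), (2, 104, 1), (2, 105, 0), (2, 107, 0), (2, 107, 1),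
    (2, 108, 0), (2, 108, 1), (2, 111, 0)]
  wts :=
    [1, 1, 2, 2, 3, 3, 3, 4, 4, 5, 5, 6, 6, 7, 7, 7, 8, 8, 8, 9, 9, 9, 9, 10, 10, 10, 10, 11, 11,
    11, 11, 11, 12, 12, 12, 12, 13, 13, 13, 13, 13, 14, 14, 14, 14, 15, 15, 15, 15, 16, 16, 16,
    16, 17, 17, 17, 17, 17, 17, 18, 18, 18, 18, 19, 19, 19, 19, 19, 19, 20, 20, 20, 20, 20, 21,
    22, 22, 23, 23, 24, 25, 25, 26, 27, 27, 28, 28, 29, 30, 30, 31, 32, 32, 33, 33, 34, 35, 35,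
    36, 37, 37, 38, 38, 39, 39, 40, 40, 41, 42, 42, 43, 43, 44]
  s1 :=
    [(5, 1), (6, 1), (7, 1), (8, 1), (11, 1), (17, 1), (19, 1), (21, 1), (24, 1), (25, 1), (27,
    1), (30, 1), (34, 1), (39, 1), (46, 1), (47, 1), (48, 1), (52, 1), (54, 1), (55, 1), (57, 1),
    (59, 1), (62, 1), (63, 1), (64, 1), (65, 1), (66, 1), (67, 1), (68, 1), (69, 1), (71, 1), (74,
    1), (78, 1), (80, 1), (81, 1), (82, 1), (83, 1), (84, 1), (87, 1), (88, 1), (90, 1), (94, 1),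
    (96, 1), (97, 1), (104, 1), (105, 1), (111, 1), (112, 1)]
  s2 :=
    [(8, 1), (16, 1), (21, 1), (23, 1), (24, 1), (25, 1), (26, 1), (30, 1), (32, 1), (34, 1), (40,
    1), (43, 1), (44, 1), (45, 1), (46, 1), (48, 1), (51, 1), (56, 1), (57, 1), (60, 1), (63, 1),
    (64, 1), (66, 1), (67, 1), (68, 1), (69, 1), (71, 1), (73, 1), (75, 1), (79, 1), (81, 1), (83,
    1), (84, 1), (86, 1), (90, 1), (95, 1), (97, 1), (98, 1), (100, 1), (102, 1), (105, 1), (106,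
    1), (107, 1), (108, 1), (109, 1), (111, 1), (112, 1)]
  md :=
    [(0, 0), (1, 0), (2, 0), (3, 0), (3, 1), (4, 0), (6, 0), (6, 1), (7, 0), (7, 1), (10, 0), (11,
    0), (11, 1), (12, 0), (14, 0), (14, 1), (15, 0), (15, 1), (18, 0), (19, 0), (19, 1), (20, 0),
    (22, 0), (22, 1), (23, 0), (23, 1), (26, 0), (27, 0), (27, 1), (28, 0), (30, 0), (30, 1), (31,
    0), (31, 1), (34, 0), (35, 0), (35, 1), (36, 0), (38, 0), (38, 1), (39, 0), (39, 1), (42, 0),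
    (43, 0), (43, 1), (44, 0), (46, 0), (46, 1), (47, 0), (47, 1), (50, 0), (51, 0), (51, 1), (52,
    0), (54, 0), (54, 1), (55, 0), (55, 1), (58, 0), (59, 0), (59, 1), (60, 0), (62, 0), (62, 1),
    (63, 0), (63, 1), (66, 0), (67, 0), (67, 1), (68, 0), (70, 0), (70, 1), (71, 0), (71, 1), (74,
    0), (75, 0), (75, 1), (76, 0), (78, 0), (78, 1), (79, 0), (79, 1), (82, 0), (83, 0), (84, 0),
    (85, 0), (86, 0)]
  rels :=
    [(0, 1, []), (1, 1, [(2, 1), (3, 1), (4, 1), (5, 1), (8, 1), (9, 1), (10, 1)]), (2, 1, [(5,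
    1)]), (4, 1, [(13, 1), (16, 1), (24, 1), (29, 1), (37, 1), (40, 1), (42, 1), (45, 1), (48, 1),
    (58, 1), (61, 1), (64, 1), (72, 1), (80, 1), (84, 1), (85, 1), (86, 1)]), (5, 0, [(6, 1), (7,
    1), (8, 1), (11, 1), (13, 1), (14, 1), (15, 1), (16, 1), (17, 1), (19, 1), (24, 1), (29, 1),
    (30, 1), (32, 1), (35, 1), (36, 1), (38, 1), (39, 1), (40, 1), (42, 1), (48, 1), (49, 1), (51,
    1), (52, 1), (53, 1), (55, 1), (56, 1), (57, 1), (62, 1), (63, 1), (64, 1), (66, 1), (67, 1),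
    (68, 1), (69, 1), (70, 1), (71, 1), (72, 1), (73, 1), (74, 1), (85, 1)])]

end Pool.Agent.Lib.MP_0813d1_al.PC
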