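import Mathlib
import Pool.Agent.Lib.MP_0813d1_al.Model1
import Pool.Agent.Lib.MP_0813d1_al.PC2Words

namespace Pool.Agent.Lib.MP_0813d1_al.Two

open PC

/-- the lower exponent-`p` central series, `lam p G 0 = lam p G 1 = ⊤` -/
def lam (p : ℕ) (G : Type*) [Group G] : ℕ → Subgroup G
  | 0 => ⊤
  | 1 => ⊤
  | j + 2 => ⁅lam p G (j + 1), ⊤⁆ ⊔ Subgroup.closure {x | ∃ g ∈ lam p G (j + 1), x = g ^ p}

/-- `A[ω]` with `ω ^ 2 = 1 + ω` -/
abbrev Bq (A : Type) [CommRing A] : Type := QuadraticAlgebra A 1 1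

abbrev M3 (R : Type) : Type := Matrix (Fin 3) (Fin 3) R

abbrev F4 : Type := Bq (ZMod 2)

section ring
variable {A A' A'' : Type} [CommRing A] [CommRing A'] [CommRing A'']

/-- the element `ω` -/
def om (A : Type) [CommRing A] : Bq A := ⟨0, 1⟩

/-- real elements -/
def re (x : A) : Bq A := ⟨x, 0⟩

def bmap (f : A →+* A') : Bq A →+* Bq A' where
  toFun x := ⟨f x.re, f x.im⟩
  map_one' := by ext <;> simp [QuadraticAlgebra.re_one, QuadraticAlgebra.im_one]
  map_mul' x y := by ext <;> simp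
  map_zero' := by ext <;> simp
  map_add' x y := by ext <;> simp

@[simp] theorem bmap_re (f : A →+* A') (x : Bq A) : (bmap f x).re = f x.re := rfl
@[simp] theorem bmap_im (f : A →+* A') (x : Bq A) : (bmap f x).im = f x.im := rfl

theorem bmap_star (f : A →+* A') (x : Bq A) : bmap f (star x) = star (bmap f x) := by
  ext <;> simp

/-- `J * conjugate transpose * J` for the antidiagonal matrix `J` -/
def adj (X : M3 (Bq A)) : M3 (Bq A) := Matrix.of fun i j => star (X j.rev i.rev)

theorem adj_apply (X : M3 (Bq A)) (i j : Fin 3) : adj X i j = star (X j.rev i.rev) := rfl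

theorem adj_mul (X Y : M3 (Bq A)) : adj (X * Y) = adj Y * adj X := by
  ext1 i j
  simp only [adj_apply, Matrix.mul_apply, Fin.sum_univ_three, star_add, star_mul']
  have e0 : (0 : Fin 3).rev = 2 := rfl
  have e1 : (1 : Fin 3).rev = 1 := rfl
  have e2 : (2 : Fin 3).rev = 0 := rfl
  rw [e0, e1, e2]; ring

theorem adj_adj (X : M3 (Bq A)) : adj (adj X) = X := by
  ext1 i j; simp [adj_apply]

theorem adj_one : adj (1 : M3 (Bq A)) = 1 := by
  ext1 i j
  simp only [adj_apply, Matrix.one_apply, Fin.rev_inj]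
  by_cases h : i = j
  · simp [h]
  · simp [h, Ne.symm h]

theorem adj_add (X Y : M3 (Bq A)) : adj (X + Y) = adj X + adj Y := by
  ext1 i j; simp [adj_apply]

/-- conjugation of the entries, or the identity -/
def sg (A : Type) [CommRing A] (e : Bool) : Bq A →+* Bq A :=
  bif e then starRingEnd (Bq A) else RingHom.id _

@[simp] theorem sg_false (x : Bq A) : sg A false x = x := rfl
@[simp] theorem sg_true (x : Bq A) : sg A true x = star x := rfl

theorem sg_sg (e e' : Bool) (x : Bq A) : sg A e (sg A e' x) = sg A (xor e e') x := by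
  cases e <;> cases e' <;> simp

theorem sg_star (e : Bool) (x : Bq A) : sg A e (star x) = star (sg A e x) := by
  cases e <;> simp

theorem bmap_sg (f : A →+* A') (e : Bool) (x : Bq A) : bmap f (sg A e x) = sg A' e (bmap f x) := by
  cases e
  · rfl
  · exact bmap_star f x

theorem adj_map (φ : Bq A →+* Bq A') (h : ∀ x, φ (star x) = star (φ x)) (X : M3 (Bq A)) :
    adj (X.map φ) = (adj X).map φ := by
  ext1 i j; simp [adj_apply, h]

/-- special unitary and unipotent upper triangular modulo nilpotent elements -/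
structure IsP (m : M3 (Bq A)) : Prop where
  uni : m * adj m = 1
  det : m.det = 1
  low : ∀ i j, j < i → IsNilpotent (m i j)
  dia : ∀ i, IsNilpotent (m i i - 1)

theorem IsP.uni' {m : M3 (Bq A)} (h : IsP m) : adj m * m = 1 := mul_eq_one_comm.1 h.uni

theorem IsP.one : IsP (1 : M3 (Bq A)) where
  uni := by rw [adj_one, mul_one]
  det := Matrix.det_one
  low i j h := by rw [Matrix.one_apply_ne h.ne']; exact IsNilpotent.zero
  dia i := by simp

theorem IsP.map {m : M3 (Bq A)} (h : IsP m) (φ : Bq A →+* Bq A')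
    (hφ : ∀ x, φ (star x) = star (φ x)) : IsP (m.map φ) where
  uni := by rw [adj_map φ hφ, ← Matrix.map_mul, h.uni]; exact φ.mapMatrix.map_one
  det := by
    have := φ.map_det m
    rw [h.det, map_one] at this
    exact this.symm
  low i j hij := (h.low i j hij).map φ
  dia i := by simpa using (h.dia i).map φ

theorem IsP.mul {m m' : M3 (Bq A)} (h : IsP m) (h' : IsP m') : IsP (m * m') where
  uni := by rw [adj_mul, mul_assoc, ← mul_assoc m', h'.uni, one_mul, h.uni]
  det := by rw [Matrix.det_mul, h.det, h'.det, mul_one]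
  low i j hij := by
    rw [← mem_nilradical, Matrix.mul_apply]
    refine sum_mem fun k _ => ?_
    rcases lt_or_ge k i with hk | hk
    · exact Ideal.mul_mem_right _ _ (h.low i k hk)
    · exact Ideal.mul_mem_left _ _ (h'.low k j (hij.trans_le hk))
  dia i := by
    rw [← mem_nilradical, Matrix.mul_apply, ← Finset.add_sum_erase _ _ (Finset.mem_univ i)]
    have e : ∀ s, m i i * m' i i + s - 1 = (m i i - 1) * m' i i + (m' i i - 1) + s := by
      intro s; ring
    rw [e]
    refine add_mem (add_mem (Ideal.mul_mem_right _ _ (h.dia i)) (h'.dia i)) (sum_mem fun k hk => ?_)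
    rcases lt_or_gt_of_ne (Finset.ne_of_mem_erase hk) with hk | hk
    · exact Ideal.mul_mem_right _ _ (h.low i k hk)
    · exact Ideal.mul_mem_left _ _ (h'.low k i hk)

theorem IsP.adj {m : M3 (Bq A)} (h : IsP m) : IsP (adj m) where
  uni := by rw [adj_adj, h.uni']
  det := by
    have := congrArg Matrix.det h.uni
    rwa [Matrix.det_mul, h.det, one_mul, Matrix.det_one] at this
  low i j hij := (h.low _ _ (Fin.rev_lt_rev.2 hij)).map (starRingEnd (Bq A))
  dia i := by
    have := (h.dia i.rev).map (starRingEnd (Bq A))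
    rw [map_sub, map_one, starRingEnd_apply] at this
    exact this

/-- the group of pairs (matrix, power of the conjugation) -/
@[ext] structure Pg (A : Type) [CommRing A] where
  m : M3 (Bq A)
  e : Bool
  isP : IsP m

namespace Pg

instance : Mul (Pg A) where
  mul x y := ⟨x.m * y.m.map (sg A x.e), xor x.e y.e, x.isP.mul (y.isP.map _ (sg_star _))⟩

instance : One (Pg A) where
  one := ⟨1, false, IsP.one⟩

instance : Inv (Pg A) where
  inv x := ⟨(adj x.m).map (sg A x.e), x.e, x.isP.adj.map _ (sg_star _)⟩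

theorem mul_m (x y : Pg A) : (x * y).m = x.m * y.m.map (sg A x.e) := rfl
theorem mul_e (x y : Pg A) : (x * y).e = xor x.e y.e := rfl
theorem one_m : (1 : Pg A).m = 1 := rfl
theorem one_e : (1 : Pg A).e = false := rfl
theorem inv_m (x : Pg A) : (x⁻¹).m = (adj x.m).map (sg A x.e) := rfl
theorem inv_e (x : Pg A) : (x⁻¹).e = x.e := rfl

instance : Group (Pg A) := Group.ofLeftAxioms
  (fun x y z => by
    ext1
    · simp only [mul_m, mul_e, Matrix.map_mul, Matrix.map_map, mul_assoc]
      congr 3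
      ext1 w; exact (sg_sg _ _ _).symm
    · simp only [mul_e, Bool.xor_assoc])
  (fun x => by
    ext1
    · rw [mul_m, one_m, one_mul]; rfl
    · simp [mul_e, one_e])
  (fun x => by
    ext1
    · rw [mul_m, inv_m, inv_e, ← Matrix.map_mul, x.isP.uni']
      exact (sg A x.e).mapMatrix.map_one
    · simp [mul_e, inv_e, one_e])

/-- functoriality in the ring -/
def map (f : A →+* A') : Pg A →* Pg A' := MonoidHom.mk'
  (fun x => ⟨x.m.map (bmap f), x.e, x.isP.map _ (bmap_star f)⟩) fun x y => by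
    ext1
    · simp only [mul_m, Matrix.map_mul, Matrix.map_map]
      congr 2
      ext1 w; exact bmap_sg f _ _
    · rfl

theorem map_m (f : A →+* A') (x : Pg A) : (map f x).m = x.m.map (bmap f) := rfl
theorem map_e (f : A →+* A') (x : Pg A) : (map f x).e = x.e := rfl
theorem map_map (f : A →+* A') (g : A' →+* A'') (x : Pg A) :
    map g (map f x) = map (g.comp f) x := rfl
theorem map_id (x : Pg A) : map (RingHom.id A) x = x := rfl

end Pg

end ring

/-- the Lie algebra `su_3` over the field with two elements -/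
def su : AddSubgroup (M3 F4) where
  carrier := {X | X.trace = 0 ∧ adj X = X}
  zero_mem' := ⟨Matrix.trace_zero _ _, by ext1 i j; simp [adj_apply]⟩
  add_mem' := fun {X Y} hX hY =>
    ⟨by rw [Matrix.trace_add, hX.1, hY.1, add_zero], by rw [adj_add, hX.2, hY.2]⟩
  neg_mem' := fun {X} hX => ⟨by rw [Matrix.trace_neg, hX.1, neg_zero], by
    have h := hX.2
    ext1 i j
    rw [adj_apply, Matrix.neg_apply, star_neg, ← adj_apply, h, Matrix.neg_apply]⟩

theorem f4_add_self (x : F4) : x + x = 0 := by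
  ext <;> simp [CharTwo.add_self_eq_zero]

/-- the bracket -/
def sbr (X Y : su) : su := ⟨X.1 * Y.1 + Y.1 * X.1, by
    rw [Matrix.trace_add, Matrix.trace_mul_comm]; exact f4_add_self _, by
    rw [adj_add, adj_mul, adj_mul, X.2.2, Y.2.2, add_comm]⟩

def sE : su := ⟨!![0, 0, 1; 0, 0, 0; 0, 0, 0], by decide, by decide⟩
def sF : su := ⟨!![0, 0, 0; 0, 0, 0; 1, 0, 0], by decide, by decide⟩

section trunc
variable {N : ℕ}

theorem tr_add_self (x : Tr 2 N) : x + x = 0 := by
  have h : ((2 : ℕ) : Tr 2 N) = 0 := natCast_p_eq_zero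
  rw [← two_mul]; push_cast at h; rw [h, zero_mul]

theorem tr_neg (x : Tr 2 N) : -x = x := neg_eq_of_add_eq_zero_left (tr_add_self x)

theorem nilp_of_mem {x : Tr 2 N} (h : x ∈ Iw 2 N 1) : IsNilpotent x :=
  ⟨N, eq_zero_of_mem_Iw le_rfl (by simpa using pow_mem_Iw h N)⟩

theorem nilp_re {x : Tr 2 N} (h : x ∈ Iw 2 N 1) : IsNilpotent (re x) :=
  (nilp_of_mem h).map (algebraMap (Tr 2 N) (Bq (Tr 2 N)))

/-- both coordinates lie in `(w ^ n)` -/
def InB (n : ℕ) (x : Bq (Tr 2 N)) : Prop := x.re ∈ Iw 2 N n ∧ x.im ∈ Iw 2 N n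

def InM (n : ℕ) (X : M3 (Bq (Tr 2 N))) : Prop := ∀ i j, InB n (X i j)

/-- `w ^ n * X` -/
noncomputable def cM (N n : ℕ) (X : M3 F4) : M3 (Bq (Tr 2 N)) :=
  X.map fun x => re (wv 2 N ^ n) * bmap (algebraMap (ZMod 2) (Tr 2 N)) x

/-- congruence level -/
def Lev (n : ℕ) (g : Pg (Tr 2 N)) : Prop := g.e = false ∧ InM n (g.m - 1)

/-- leading term -/
def PLead (n : ℕ) (g : Pg (Tr 2 N)) (X : su) : Prop :=
  g.e = false ∧ InM (n + 1) (g.m - 1 - cM N n X.1)

/-- level nine with upper triangular leading term -/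
def Up9 (g : Pg (Tr 2 N)) : Prop := Lev 9 g ∧ ∀ i j, j < i → InB 10 (g.m i j)

/-- action of a ring automorphism -/
noncomputable def act (σ : Au 2 N) : Pg (Tr 2 N) →* Pg (Tr 2 N) :=
  Pg.map (σ : Tr 2 N →+* Tr 2 N)

theorem act_one (g : Pg (Tr 2 N)) : act 1 g = g := rfl
theorem act_mul (σ τ : Au 2 N) (g : Pg (Tr 2 N)) : act (σ * τ) g = act σ (act τ g) := rfl

/-- reduction -/
noncomputable def redP {M : ℕ} (h : M ≤ N) : Pg (Tr 2 N) →* Pg (Tr 2 M) :=
  Pg.map (red 2 h : Tr 2 N →+* Tr 2 M)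

noncomputable def eP (x : Tr 2 N) : Pg (Tr 2 N) :=
  ⟨!![1, 0, re x; 0, 1, 0; 0, 0, 1], false, by
    ext i j <;> fin_cases i <;> fin_cases j <;>
      simp [Matrix.mul_apply, Fin.sum_univ_three, adj_apply, re, Fin.rev, tr_add_self], by
    simp [Matrix.det_fin_three], by
    intro i j h; fin_cases i <;> fin_cases j <;> simp_all, by
    intro i; fin_cases i <;> simp⟩

noncomputable def fP (y : Tr 2 N) (hy : y ∈ Iw 2 N 1) (e : Bool) : Pg (Tr 2 N) :=
  ⟨!![1, 0, 0; 0, 1, 0; re y, 0, 1], e, by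
    ext i j <;> fin_cases i <;> fin_cases j <;>
      simp [Matrix.mul_apply, Fin.sum_univ_three, adj_apply, re, Fin.rev, tr_add_self], by
    simp [Matrix.det_fin_three], by
    intro i j h; fin_cases i <;> fin_cases j <;> simp_all [nilp_re], by
    intro i; fin_cases i <;> simp⟩

noncomputable def aP (N : ℕ) : Pg (Tr 2 N) :=
  ⟨!![1, om _, om _; 0, 1, 1 + om _; 0, 0, 1], true, by
    ext i j <;> fin_cases i <;> fin_cases j <;>
      simp [Matrix.mul_apply, Fin.sum_univ_three, adj_apply, om, Fin.rev, tr_add_self, tr_neg,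
        QuadraticAlgebra.re_one, QuadraticAlgebra.im_one], by
    simp [Matrix.det_fin_three], by
    intro i j h; fin_cases i <;> fin_cases j <;> simp_all, by
    intro i; fin_cases i <;> simp⟩

theorem wv_mem (N : ℕ) : wv 2 N ∈ Iw 2 N 1 := Ideal.subset_span (by simp)

noncomputable def bP (N : ℕ) : Pg (Tr 2 N) := fP (wv 2 N) (wv_mem N) true

noncomputable def zP (N n : ℕ) : Pg (Tr 2 N) :=
  fP (wv 2 N ^ (n - 1 + 1)) (Iw_anti (by omega) (wv_pow_mem_Iw 2 N _)) false

end trunc

/-- a twist of the group structure by ring automorphisms -/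
structure Tw (N : ℕ) where
  ρ : Pg (Tr 2 N) → Au 2 N
  one : ρ 1 = 1
  mul : ∀ g h, ρ (g * act (ρ g) h) = ρ g * ρ h
  dep0 : ∀ g, ρ g (wv 2 N) - wv 2 N ∈ Iw 2 N 14
  dep : ∀ j g, Lev j g → ρ g (wv 2 N) - wv 2 N ∈ Iw 2 N (2 * j + 14)

namespace Tw

variable {N : ℕ} (τ : Tw N)

/-- the twisted group -/
@[ext] structure Q (τ : Tw N) where
  g : Pg (Tr 2 N)

noncomputable instance : Mul τ.Q where
  mul x y := ⟨x.g * act (τ.ρ x.g) y.g⟩

noncomputable instance : One τ.Q where
  one := ⟨1⟩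

noncomputable instance : Inv τ.Q where
  inv x := ⟨act (τ.ρ x.g)⁻¹ x.g⁻¹⟩

theorem mul_g (x y : τ.Q) : (x * y).g = x.g * act (τ.ρ x.g) y.g := rfl
theorem one_g : (1 : τ.Q).g = 1 := rfl
theorem inv_g (x : τ.Q) : (x⁻¹).g = act (τ.ρ x.g)⁻¹ x.g⁻¹ := rfl

theorem rho_inv (x : τ.Q) : τ.ρ (x⁻¹).g = (τ.ρ x.g)⁻¹ := by
  have h := τ.mul x.g (x⁻¹).g
  rw [inv_g, ← act_mul, mul_inv_cancel, act_one, mul_inv_cancel, τ.one] at h
  exact (eq_inv_of_mul_eq_one_right h.symm)

noncomputable instance : Group τ.Q := Group.ofLeftAxioms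
  (fun x y z => by
    ext1
    simp only [mul_g, τ.mul, act_mul, map_mul, mul_assoc])
  (fun x => by ext1; rw [mul_g, one_g, τ.one, act_one, one_mul])
  (fun x => by ext1; rw [mul_g, rho_inv, inv_g, ← map_mul, inv_mul_cancel, map_one, one_g])

theorem rho_mul (x y : τ.Q) : τ.ρ (x * y).g = τ.ρ x.g * τ.ρ y.g := τ.mul _ _

end Tw

end Pool.Agent.Lib.MP_0813d1_al.Two
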