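import Mathlib
import Pool.Agent.Lib.MP_0813d1_al.TwoDefs
import Pool.Agent.Lib.MP_0813d1_al.Hopf

namespace Pool.Agent.Lib.MP_0813d1_al.Two

open PC
open scoped commutatorElement

section cm
variable {G : Type*} [Group G]

theorem cm_eq (g h : G) : cm g h = ⁅g⁻¹, h⁻¹⁆ := by simp [cm, commutatorElement_def]
theorem cm_inv (g h : G) : (cm g h)⁻¹ = cm h g := by simp [cm, mul_assoc]
theorem cm_mul_left (x y z : G) : cm (x * y) z = y⁻¹ * cm x z * y * cm y z := by
  simp [cm, mul_assoc]
theorem cm_mul_right (x y z : G) : cm x (y * z) = cm x z * (z⁻¹ * cm x y * z) := by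
  simp [cm, mul_assoc]
theorem conj_eq_mul_cm (x y : G) : y⁻¹ * x * y = x * cm x y := by simp [cm, mul_assoc]
theorem mul_eq_mul_cm (x y : G) : x * y = y * x * cm x y := by simp [cm, mul_assoc]
theorem cm_eq_one_iff {x y : G} : cm x y = 1 ↔ Commute x y := by
  rw [Commute, SemiconjBy, mul_eq_mul_cm x y]; simp
theorem cm_mem_comm {A B : Subgroup G} {x y : G} (hx : x ∈ A) (hy : y ∈ B) : cm x y ∈ ⁅A, B⁆ := by
  rw [cm_eq]; exact Subgroup.commutator_mem_commutator (inv_mem hx) (inv_mem hy)
theorem cm_mem_left {A : Subgroup G} [hA : A.Normal] {x : G} (hx : x ∈ A) (y : G) : cm x y ∈ A := by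
  have := hA.conj_mem _ hx y⁻¹
  have e : cm x y = x⁻¹ * (y⁻¹ * x * y⁻¹⁻¹) := by simp [cm, mul_assoc]
  rw [e]; exact mul_mem (inv_mem hx) this
theorem cm_mem_right {A : Subgroup G} [A.Normal] (x : G) {y : G} (hy : y ∈ A) : cm x y ∈ A := by
  rw [← cm_inv]; exact inv_mem (cm_mem_left hy x)
theorem comm_le_iff_cm {A B K : Subgroup G} : ⁅A, B⁆ ≤ K ↔ ∀ x ∈ A, ∀ y ∈ B, cm x y ∈ K := by
  constructor
  · intro h x hx y hy; exact h (cm_mem_comm hx hy)
  · intro h
    rw [Subgroup.commutator_le]
    intro x hx y hy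
    have := h _ (inv_mem hx) _ (inv_mem hy)
    rwa [cm_eq, inv_inv, inv_inv] at this

/-- the elements commuting with `A` modulo a normal subgroup form a subgroup -/
theorem comm_sup_le {A B C K : Subgroup G} [K.Normal] (h1 : ⁅A, B⁆ ≤ K) (h2 : ⁅A, C⁆ ≤ K) :
    ⁅A, B ⊔ C⁆ ≤ K := by
  have e : ∀ X : Subgroup G, ⁅A, X⁆ ≤ K ↔
      X ≤ (Subgroup.centralizer (A.map (QuotientGroup.mk' K) : Set (G ⧸ K))).comap
        (QuotientGroup.mk' K) := by
    intro X
    rw [← Subgroup.map_le_iff_le_comap, ← Subgroup.commutator_eq_bot_iff_le_centralizer,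
      Subgroup.commutator_comm (X.map _), ← Subgroup.map_commutator, Subgroup.map_eq_bot_iff,
      QuotientGroup.ker_mk']
  rw [e] at h1 h2 ⊢
  exact sup_le h1 h2

theorem comm_closure_le {A K : Subgroup G} [K.Normal] {s : Set G}
    (h : ∀ x ∈ A, ∀ y ∈ s, cm x y ∈ K) : ⁅A, Subgroup.closure s⁆ ≤ K := by
  rw [comm_le_iff_cm]
  intro x hx y hy
  induction hy using Subgroup.closure_induction with
  | mem y hy => exact h x hx y hy
  | one => simp [cm]
  | mul y z _ _ h1 h2 =>
    rw [cm_mul_right]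
    exact mul_mem h2 (by simpa using ‹K.Normal›.conj_mem _ h1 z⁻¹)
  | inv y _ h1 =>
    have e : cm x y⁻¹ = y * (cm x y)⁻¹ * y⁻¹ := by simp [cm, mul_assoc]
    rw [e]; exact ‹K.Normal›.conj_mem _ (inv_mem h1) y

end cm

section lam
variable {p : ℕ} {G H : Type*} [Group G] [Group H]

theorem lam_zero : lam p G 0 = ⊤ := rfl
theorem lam_one : lam p G 1 = ⊤ := rfl

theorem lam_succ {j : ℕ} (hj : 1 ≤ j) :
    lam p G (j + 1) = ⁅lam p G j, ⊤⁆ ⊔ Subgroup.closure {x | ∃ g ∈ lam p G j, x = g ^ p} := by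
  obtain ⟨k, rfl⟩ : ∃ k, j = k + 1 := ⟨j - 1, by omega⟩
  rfl

theorem lam_pow {j : ℕ} {g : G} (hg : g ∈ lam p G j) : g ^ p ∈ lam p G (j + 1) := by
  rcases Nat.eq_zero_or_pos j with rfl | hj
  · trivial
  · rw [lam_succ hj]
    exact Subgroup.mem_sup_right (Subgroup.subset_closure ⟨g, hg, rfl⟩)

theorem lam_comm_top (j : ℕ) : ⁅lam p G j, ⊤⁆ ≤ lam p G (j + 1) := by
  rcases Nat.eq_zero_or_pos j with rfl | hj
  · exact le_top
  · rw [lam_succ hj]; exact le_sup_left

instance lam_normal (j : ℕ) : (lam p G j).Normal := by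
  induction j with
  | zero => exact Subgroup.normal_top
  | succ j ih =>
    rcases Nat.eq_zero_or_pos j with rfl | hj
    · exact Subgroup.normal_top
    · rw [lam_succ hj]
      have : (Subgroup.closure {x | ∃ g ∈ lam p G j, x = g ^ p}).Normal := by
        constructor
        intro x hx g
        induction hx using Subgroup.closure_induction with
        | mem x hx =>
          obtain ⟨y, hy, rfl⟩ := hx
          exact Subgroup.subset_closure ⟨g * y * g⁻¹, ih.conj_mem _ hy g, by simp⟩
        | one => simp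
        | mul x y _ _ h1 h2 =>
          have e : g * (x * y) * g⁻¹ = g * x * g⁻¹ * (g * y * g⁻¹) := by group
          rw [e]; exact mul_mem h1 h2
        | inv x _ h1 =>
          have e : g * x⁻¹ * g⁻¹ = (g * x * g⁻¹)⁻¹ := by group
          rw [e]; exact inv_mem h1
      infer_instance

theorem lam_succ_le (j : ℕ) : lam p G (j + 1) ≤ lam p G j := by
  rcases Nat.eq_zero_or_pos j with rfl | hj
  · exact le_top
  · rw [lam_succ hj]
    refine sup_le (Subgroup.commutator_le_left _ _) ((Subgroup.closure_le _).2 ?_)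
    rintro _ ⟨g, hg, rfl⟩
    exact pow_mem hg p

theorem lam_anti : Antitone (lam p G) := antitone_nat_of_succ_le lam_succ_le

theorem cm_pow_mem {K : Subgroup G} [K.Normal] {x g : G} (h : cm (cm x g) g ∈ K) (k : ℕ) :
    (cm x g ^ k)⁻¹ * cm x (g ^ k) ∈ K := by
  rw [← QuotientGroup.eq_one_iff] at h ⊢
  change QuotientGroup.mk' K _ = 1 at h ⊢
  rw [map_cm, map_cm, cm_eq_one_iff] at h
  rw [map_mul, map_inv, map_pow, map_cm, map_cm, map_pow, inv_mul_eq_one]
  generalize QuotientGroup.mk' K x = a at h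
  generalize QuotientGroup.mk' K g = b at h
  induction k with
  | zero => simp [cm]
  | succ k ih =>
    rw [pow_succ b, cm_mul_right, ← ih, mul_assoc b⁻¹, (h.pow_left k).eq, pow_succ']
    simp

/-- a chain of normal subgroups that moves under commutators and `p`-th powers -/
theorem pchain (W : ℕ → Subgroup G) (hn : ∀ k, (W k).Normal)
    (hc : ∀ k, ⁅W k, (⊤ : Subgroup G)⁆ ≤ W (k + 1))
    (hp : ∀ k g, g ∈ W k → g ^ p ∈ W (k + 1)) (k b : ℕ) (hb : 1 ≤ b) :
    ⁅W k, lam p G b⁆ ≤ W (k + b) := by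
  induction b, hb using Nat.le_induction generalizing k with
  | base => exact hc k
  | succ b hb ih =>
    rw [lam_succ hb]
    have := hn (k + (b + 1))
    refine comm_sup_le ?_ (comm_closure_le ?_)
    · rw [Subgroup.commutator_comm]
      apply HopfAux.three_subgroups
      · rw [Subgroup.commutator_comm ⊤]
        refine le_trans (Subgroup.commutator_mono (hc k) le_rfl) ?_
        have := ih (k + 1)
        rwa [show k + 1 + b = k + (b + 1) by ring] at this
      · exact le_trans (Subgroup.commutator_mono (ih k) le_rfl) (hc (k + b))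
    · rintro x hx _ ⟨g, hg, rfl⟩
      have h1 : cm x g ∈ W (k + b) := ih k (cm_mem_comm hx hg)
      have h2 : cm (cm x g) g ∈ W (k + (b + 1)) := hc _ (cm_mem_comm h1 (Subgroup.mem_top g))
      have h3 := mul_mem (hp _ _ h1) (cm_pow_mem h2 p)
      rwa [mul_inv_cancel_left] at h3

theorem lam_comm (i j : ℕ) : ⁅lam p G i, lam p G j⁆ ≤ lam p G (i + j) := by
  rcases Nat.eq_zero_or_pos j with rfl | hj
  · exact Subgroup.commutator_le_left _ _
  · exact pchain (lam p G) lam_normal lam_comm_top (fun _ _ => lam_pow) i j hj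

theorem cm_mem_lam {i j : ℕ} {x y : G} (hx : x ∈ lam p G i) (hy : y ∈ lam p G j) :
    cm x y ∈ lam p G (i + j) := lam_comm i j (cm_mem_comm hx hy)

/-- the series as an N-series -/
def lamS (p : ℕ) (G : Type*) [Group G] : NSeries G where
  N := lam p G
  one := rfl
  anti := lam_anti
  comm := lam_comm

theorem lam_le_of_series (A : ℕ → Subgroup G) (h1 : A 1 = ⊤)
    (hc : ∀ j, ⁅A j, (⊤ : Subgroup G)⁆ ≤ A (j + 1))
    (hp : ∀ j g, g ∈ A j → g ^ p ∈ A (j + 1)) {j : ℕ} (hj : 1 ≤ j) : lam p G j ≤ A j := by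
  induction j, hj using Nat.le_induction with
  | base => exact h1.ge
  | succ j hj ih =>
    rw [lam_succ hj]
    refine sup_le ((Subgroup.commutator_mono ih le_rfl).trans (hc j)) ((Subgroup.closure_le _).2 ?_)
    rintro _ ⟨g, hg, rfl⟩
    exact hp j g (ih hg)

theorem map_mem_lam (f : G →* H) {j : ℕ} {g : G} (hg : g ∈ lam p G j) : f g ∈ lam p H j := by
  rcases Nat.eq_zero_or_pos j with rfl | hj
  · trivial
  refine lam_le_of_series (p := p) (fun j => (lam p H j).comap f) rfl (fun j => ?_)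
    (fun j g hg => ?_) hj hg
  · rw [comm_le_iff_cm]
    intro x hx y _
    rw [Subgroup.mem_comap, map_cm]
    exact cm_mem_lam hx (j := 1) trivial
  · rw [Subgroup.mem_comap, map_pow]; exact lam_pow hg

theorem map_lam (f : G →* H) (hf : Function.Surjective f) (j : ℕ) :
    (lam p G j).map f = lam p H j := by
  refine le_antisymm (Subgroup.map_le_iff_le_comap.2 fun g hg => map_mem_lam f hg) ?_
  have h1 : (⊤ : Subgroup G).map f = ⊤ := Subgroup.map_top_of_surjective f hf
  rcases Nat.eq_zero_or_pos j with rfl | hj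
  · exact h1.ge
  refine lam_le_of_series (p := p) (fun j => (lam p G j).map f) h1 (fun j => ?_)
    (fun j g hg => ?_) hj
  · rw [← h1, ← Subgroup.map_commutator]
    exact Subgroup.map_mono (lam_comm_top j)
  · obtain ⟨x, hx, rfl⟩ := hg
    exact ⟨x ^ p, lam_pow hx, map_pow f x p⟩

theorem exists_lam_lift (f : G →* H) (hf : Function.Surjective f) {j : ℕ} {h : H}
    (hh : h ∈ lam p H j) : ∃ g ∈ lam p G j, f g = h := by
  rw [← map_lam f hf] at hh
  exact hh

theorem exists_lam_bot_aux [Fact p.Prime] (n : ℕ) : ∀ (G : Type) [Group G] [Finite G],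
    Nat.card G = n → IsPGroup p G → ∃ T, lam p G T = ⊥ := by
  induction n using Nat.strong_induction_on with
  | _ n ih =>
    intro G _ _ hn hG
    rcases subsingleton_or_nontrivial G with h | h
    · exact ⟨0, Subsingleton.elim _ _⟩
    have hc : Nontrivial (Subgroup.center G) := hG.center_nontrivial
    have hd : p ∣ Nat.card (Subgroup.center G) := by
      obtain ⟨k, hk, e⟩ := (hG.to_subgroup (Subgroup.center G)).nontrivial_iff_card.1 hc
      rw [e]; exact dvd_pow_self p hk.ne'
    obtain ⟨z, hz⟩ := exists_prime_orderOf_dvd_card' p hd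
    have hz' : orderOf (z : G) = p := by rw [← hz]; exact Subgroup.orderOf_coe z
    have hle : Subgroup.zpowers (z : G) ≤ Subgroup.center G := (Subgroup.zpowers_le).2 z.2
    have : (Subgroup.zpowers (z : G)).Normal := ⟨fun x hx g => by
      rw [Subgroup.mem_center_iff.1 (hle hx) g, mul_inv_cancel_right]; exact hx⟩
    have hlt : Nat.card (G ⧸ Subgroup.zpowers (z : G)) < n := by
      rw [← hn, Subgroup.card_eq_card_quotient_mul_card_subgroup (Subgroup.zpowers (z : G)),
        Nat.card_zpowers, hz']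
      have h1 : 0 < Nat.card (G ⧸ Subgroup.zpowers (z : G)) := Nat.card_pos
      have h2 := (Fact.out : p.Prime).one_lt
      nlinarith
    obtain ⟨T, hT⟩ := ih _ hlt _ rfl (hG.to_quotient _)
    have h1 : lam p G (T + 1) ≤ Subgroup.zpowers (z : G) := fun g hg => by
      have := map_mem_lam (QuotientGroup.mk' (Subgroup.zpowers (z : G))) (lam_succ_le T hg)
      rw [hT, Subgroup.mem_bot] at this
      exact (QuotientGroup.eq_one_iff _).1 this
    refine ⟨T + 2, eq_bot_iff.2 ?_⟩
    rw [lam_succ (by omega)]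
    refine sup_le ?_ ((Subgroup.closure_le _).2 ?_)
    · rw [comm_le_iff_cm]
      intro x hx y _
      rw [Subgroup.mem_bot, cm_eq_one_iff]
      exact (Subgroup.mem_center_iff.1 (hle (h1 hx)) y).symm
    · rintro _ ⟨g, hg, rfl⟩
      obtain ⟨k, rfl⟩ := h1 hg
      change ((z : G) ^ k) ^ p = 1
      rw [← zpow_natCast, ← zpow_mul, mul_comm, zpow_mul, zpow_natCast, ← hz', pow_orderOf_eq_one,
        one_zpow]

theorem exists_lam_bot [Fact p.Prime] {G : Type} [Group G] [Finite G] (hG : IsPGroup p G) :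
    ∃ T, lam p G T = ⊥ := exists_lam_bot_aux _ G rfl hG

/-- if a term lies in `K` modulo the next term, it lies in `K` -/
theorem lam_le_of_le_sup [Fact p.Prime] {G : Type} [Group G] [Finite G] (hG : IsPGroup p G)
    {K : Subgroup G} [K.Normal] {j : ℕ} (hj : 1 ≤ j) (h : lam p G j ≤ K ⊔ lam p G (j + 1)) :
    lam p G j ≤ K := by
  let f := QuotientGroup.mk' K
  have hf : Function.Surjective f := QuotientGroup.mk'_surjective K
  have h1 : lam p (G ⧸ K) j ≤ lam p (G ⧸ K) (j + 1) := by
    rw [← map_lam f hf, ← map_lam f hf]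
    refine (Subgroup.map_mono h).trans ?_
    rw [Subgroup.map_sup]
    refine sup_le ?_ le_rfl
    rintro _ ⟨x, hx, rfl⟩
    rw [show f x = 1 from (QuotientGroup.eq_one_iff _).2 hx]
    exact one_mem _
  have h2 : ∀ k, lam p (G ⧸ K) (j + k) = lam p (G ⧸ K) (j + k + 1) := by
    intro k
    induction k with
    | zero => exact le_antisymm h1 (lam_succ_le _)
    | succ k ih =>
      rw [← add_assoc, lam_succ (j := j + k + 1) (by omega), ← ih, ← lam_succ (by omega)]
      exact ih
  have h3 : ∀ k, lam p (G ⧸ K) j = lam p (G ⧸ K) (j + k) := by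
    intro k
    induction k with
    | zero => rfl
    | succ k ih => rw [ih, h2, add_assoc]
  obtain ⟨T, hT⟩ := exists_lam_bot (hG.to_quotient K)
  intro g hg
  have h4 := map_mem_lam f hg
  rw [h3 T] at h4
  have h5 := lam_anti (Nat.le_add_left T j) h4
  rw [hT, Subgroup.mem_bot] at h5
  exact (QuotientGroup.eq_one_iff _).1 h5

/-- a subgroup generated by its own commutators and powers is trivial -/
theorem eq_bot_of_le [Fact p.Prime] {G : Type} [Group G] [Finite G] (hG : IsPGroup p G)
    {L : Subgroup G} (h : L ≤ ⁅L, ⊤⁆ ⊔ Subgroup.closure {x | ∃ g ∈ L, x = g ^ p}) : L = ⊥ := by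
  have h1 : ∀ j, L ≤ lam p G (j + 1) := by
    intro j
    induction j with
    | zero => exact le_top
    | succ j ih =>
      rw [lam_succ (by omega)]
      refine h.trans (sup_le_sup (Subgroup.commutator_mono ih le_rfl) (Subgroup.closure_mono ?_))
      rintro _ ⟨g, hg, rfl⟩
      exact ⟨g, ih hg, rfl⟩
  obtain ⟨T, hT⟩ := exists_lam_bot hG
  exact eq_bot_iff.2 ((h1 T).trans ((lam_succ_le T).trans hT.le))

theorem isPGroup_of_lam {T : ℕ} (h : lam p G T = ⊥) : IsPGroup p G := by
  intro g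
  have h1 : ∀ k, g ^ p ^ k ∈ lam p G (k + 1) := by
    intro k
    induction k with
    | zero => trivial
    | succ k ih => rw [pow_succ, pow_mul]; exact lam_pow ih
  exact ⟨T, by simpa [h] using lam_succ_le T (h1 T)⟩

theorem finite_of_lam [Fact p.Prime] [Group.FG G] {T : ℕ} (h : lam p G T = ⊥) : Finite G := by
  have h1 : ∀ k, (⊤ : Subgroup G).lowerCentralSeries k ≤ lam p G (k + 1) := by
    intro k
    induction k with
    | zero => exact le_top
    | succ k ih => exact (Subgroup.commutator_mono ih le_rfl).trans (lam_comm_top _)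
  have : Group.IsNilpotent G := by
    rw [Subgroup.nilpotent_iff_lowerCentralSeries]
    exact ⟨T, eq_bot_iff.2 ((h1 T).trans ((lam_succ_le T).trans h.le))⟩
  exact finite_of_fg_nilpotent_torsion fun g => by
    obtain ⟨k, hk⟩ := isPGroup_of_lam h g
    exact isOfFinOrder_iff_pow_eq_one.2 ⟨_, pow_pos (Fact.out : p.Prime).pos k, hk⟩

theorem lam_quot_bot {K : Subgroup G} [K.Normal] {T : ℕ} (h : lam p G T ≤ K) :
    lam p (G ⧸ K) T = ⊥ := by
  rw [← map_lam (QuotientGroup.mk' K) (QuotientGroup.mk'_surjective K), Subgroup.map_eq_bot_iff,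
    QuotientGroup.ker_mk']
  exact h

end lam

end Pool.Agent.Lib.MP_0813d1_al.Two
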