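import Mathlib
import Pool.Agent.Lib.MP_0813d1_al.TwoLam

namespace Pool.Agent.Lib.MP_0813d1_al.Two

/-- a basis of `su`: `E, F, U, U', L, L', T, T'` -/
def sB : Fin 8 → su :=
  ![sE, sF,
    ⟨!![0, 1, 0; 0, 0, 1; 0, 0, 0], by decide, by decide⟩,
    ⟨!![0, ⟨0, 1⟩, 0; 0, 0, ⟨1, 1⟩; 0, 0, 0], by decide, by decide⟩,
    ⟨!![0, 0, 0; 1, 0, 0; 0, 1, 0], by decide, by decide⟩,
    ⟨!![0, 0, 0; ⟨0, 1⟩, 0, 0; 0, ⟨1, 1⟩, 0], by decide, by decide⟩,
    ⟨!![1, 0, 0; 0, 0, 0; 0, 0, 1], by decide, by decide⟩,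
    ⟨!![⟨0, 1⟩, 0, 0; 0, 1, 0; 0, 0, ⟨1, 1⟩], by decide, by decide⟩]

/-- coordinates with respect to `sB` -/
def sco (X : su) : Fin 8 → ZMod 2 :=
  ![(X.1 0 2).re, (X.1 2 0).re, (X.1 0 1).re, (X.1 0 1).im, (X.1 1 0).re, (X.1 1 0).im,
    (X.1 0 0).re, (X.1 0 0).im]

theorem su_add_self (X : su) : X + X = 0 := by
  apply Subtype.ext; ext1 i j; exact f4_add_self _

theorem su_neg (X : su) : -X = X := neg_eq_of_add_eq_zero_left (su_add_self X)

theorem sco_add (X Y : su) : sco (X + Y) = sco X + sco Y := by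
  funext i; fin_cases i <;> rfl

theorem sco_zero : sco 0 = 0 := by
  funext i; fin_cases i <;> rfl

theorem sco_sB : ∀ i j, sco (sB i) j = if i = j then 1 else 0 := by decide

theorem su_eq_zero {X : su} (h : sco X = 0) : X = 0 := by
  have a := fun i j => congrFun (congrFun X.2.2 i) j
  have t := X.2.1
  have h0 : (X.1 0 2).re = 0 := congrFun h 0
  have h1 : (X.1 2 0).re = 0 := congrFun h 1
  have h2 : X.1 0 1 = 0 := QuadraticAlgebra.ext (congrFun h 2) (congrFun h 3)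
  have h4 : X.1 1 0 = 0 := QuadraticAlgebra.ext (congrFun h 4) (congrFun h 5)
  have h6 : X.1 0 0 = 0 := QuadraticAlgebra.ext (congrFun h 6) (congrFun h 7)
  have k : ∀ x : F4, x.re = 0 → star x = x → x = 0 := by
    rintro ⟨x, y⟩
    revert x y
    decide
  have e02 : X.1 0 2 = 0 := k _ h0 (a 0 2)
  have e20 : X.1 2 0 = 0 := k _ h1 (a 2 0)
  have e12 : X.1 1 2 = 0 := by rw [← a 1 2]; change star (X.1 0 1) = 0; rw [h2, star_zero]
  have e21 : X.1 2 1 = 0 := by rw [← a 2 1]; change star (X.1 1 0) = 0; rw [h4, star_zero]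
  have e22 : X.1 2 2 = 0 := by rw [← a 2 2]; change star (X.1 0 0) = 0; rw [h6, star_zero]
  have e11 : X.1 1 1 = 0 := by
    rw [Matrix.trace_fin_three, h6, e22] at t; simpa using t
  apply Subtype.ext; ext1 i j
  fin_cases i <;> fin_cases j <;> assumption

theorem su_ext {X Y : su} (h : sco X = sco Y) : X = Y := by
  have h1 : X + Y = 0 := su_eq_zero (by
    rw [sco_add, h]; funext i; exact CharTwo.add_self_eq_zero _)
  rw [← su_neg Y]; exact eq_neg_of_add_eq_zero_left h1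

/-- the coordinate map as an additive homomorphism -/
def scoH : su →+ (Fin 8 → ZMod 2) := AddMonoidHom.mk' sco sco_add

theorem su_sum (X : su) : X = ∑ i, (sco X i).val • sB i := by
  apply su_ext
  change scoH X = scoH _
  rw [map_sum]
  funext j
  simp only [map_nsmul, Finset.sum_apply, Pi.smul_apply]
  have e : ∀ i, scoH (sB i) j = if i = j then 1 else 0 := fun i => sco_sB i j
  simp only [e]
  simp [scoH]

/-- induction over the basis -/
theorem su_ind {P : su → Prop} (h0 : P 0) (hb : ∀ i, P (sB i))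
    (ha : ∀ X Y, P X → P Y → P (X + Y)) (X : su) : P X := by
  rw [su_sum X]
  refine Finset.sum_induction _ P ha h0 fun i _ => ?_
  generalize (sco X i).val = k
  induction k with
  | zero => simpa using h0
  | succ k ih => rw [succ_nsmul]; exact ha _ _ ih (hb i)

theorem sbr_add_left (X Y Z : su) : sbr (X + Y) Z = sbr X Z + sbr Y Z := by
  apply Subtype.ext
  change (X.1 + Y.1) * Z.1 + Z.1 * (X.1 + Y.1) = X.1 * Z.1 + Z.1 * X.1 + (Y.1 * Z.1 + Z.1 * Y.1)
  noncomm_ring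

theorem sbr_comm (X Y : su) : sbr X Y = sbr Y X := Subtype.ext (add_comm _ _)

theorem sbr_add_right (X Y Z : su) : sbr X (Y + Z) = sbr X Y + sbr X Z := by
  rw [sbr_comm, sbr_add_left, sbr_comm Y, sbr_comm Z]

theorem sbr_zero_left (X : su) : sbr 0 X = 0 := by
  apply Subtype.ext; change (0 : M3 F4) * X.1 + X.1 * 0 = 0; simp

theorem sbr_zero_right (X : su) : sbr X 0 = 0 := by rw [sbr_comm, sbr_zero_left]

/-- every basis vector is a bracket of two basis vectors -/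
theorem sB_br : ∀ i, ∃ j k, sB i = sbr (sB j) (sB k) := by
  intro i
  fin_cases i
  · exact ⟨2, 3, su_ext (by decide)⟩
  · exact ⟨4, 5, su_ext (by decide)⟩
  · exact ⟨0, 4, su_ext (by decide)⟩
  · exact ⟨3, 6, su_ext (by decide)⟩
  · exact ⟨1, 2, su_ext (by decide)⟩
  · exact ⟨5, 6, su_ext (by decide)⟩
  · exact ⟨0, 1, su_ext (by decide)⟩
  · exact ⟨2, 5, su_ext (by decide)⟩

end Pool.Agent.Lib.MP_0813d1_al.Two
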