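import Mathlib
import Pool.Agent.Lib.MP_0813d1_al.TwoSu
import Pool.Agent.Lib.MP_0813d1_al.Universal
import Pool.Agent.Lib.MP_0813d1_al.Asm1

namespace Pool.Agent.Lib.MP_0813d1_al.Two

open PC Univ
open scoped commutatorElement

/-! ### words in the polycyclic generators -/
section words
variable {Γ : Type} [Group Γ]

def wt (i : ℕ) : ℕ := D2.wts.getD i 0

def wd (κ : ℕ → Γ) (l : List ℕ) : Γ := (l.map κ).prod

def v62 (a b : Γ) : Γ := wd (D2.k a b) [62, 72, 78, 92, 94, 97, 101, 104, 108, 111, 112]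
def v64 (a b : Γ) : Γ := wd (D2.k a b) [64, 72, 81, 84, 86, 89, 94, 97, 101, 102, 104, 112]
def v67 (a b : Γ) : Γ :=
  wd (D2.k a b) [67, 86, 89, 96, 97, 98, 101, 104, 105, 106, 107, 109, 110, 111]
def w1 (a b : Γ) : Γ := evw (D2.k a b) D2.s1
def w2 (a b : Γ) : Γ := (evw (D2.k a b) D2.s2)⁻¹ * b ^ 2

/-- ordered product of all generators with exponents `e` -/
def nfw (a b : Γ) (e : ℕ → ℕ) : Γ := ((List.range 113).map fun i => D2.k a b i ^ e i).prod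

/-- generated by the generators of weight at least `k` -/
def Kq (a b : Γ) (k : ℕ) : Subgroup Γ :=
  Subgroup.closure {g | ∃ i, i < 113 ∧ k ≤ wt i ∧ g = D2.k a b i}

/-- generated by the commutators of generators of total weight at least `45` -/
def Cq (a b : Γ) : Subgroup Γ :=
  Subgroup.closure {g | ∃ i j, i < 113 ∧ j < 113 ∧ 45 ≤ wt i + wt j ∧
    g = cm (D2.k a b i) (D2.k a b j)}

/-- pairs (level, weight) -/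
def spL : List (ℕ × ℕ) := [(2, 5), (3, 10), (4, 15), (5, 20), (6, 25)]

/-- independence of the generators `74, ..., 111` modulo the elements satisfying `T` -/
def Ind (a b : Γ) (T : Γ → Prop) : Prop :=
  ∀ e : ℕ → ℕ, (∀ i, e i < 2) → (∀ i < 74, e i = 0) → T (nfw a b e) →
    (∀ i < 112, i ≠ 103 → i ≠ 106 → e i = 0) ∧ e 103 = e 106

/-- what the polycyclic certificate gives -/
structure Extra (a b z : Γ) : Prop where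
  nf21 : ∀ g ∈ lam 2 Γ 21, ∃ e : ℕ → ℕ, (∀ i, e i < 2) ∧ (∀ i < 74, e i = 0) ∧
    (nfw a b e)⁻¹ * g ∈ lam 2 Γ 45
  l44 : lam 2 Γ 44 ≤ Subgroup.zpowers (D2.k a b 112) ⊔ lam 2 Γ 45
  c67a : cm (v67 a b) a ∈ lam 2 Γ 45
  c67b : cm (v67 a b) b ∈ lam 2 Γ 45
  sq62 : v62 a b ^ 2 ∈ lam 2 Γ 21
  sq64 : v64 a b ^ 2 ∈ lam 2 Γ 21
  sq67 : (D2.k a b 103 * D2.k a b 106)⁻¹ * v67 a b ^ 2 ∈ lam 2 Γ 45
  p67 : v67 a b ^ 4 ∈ lam 2 Γ 45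
  idc : (v67 a b ^ 2)⁻¹ * (cm (cm (v62 a b) a) a * cm (v64 a b) a * cm (mu D2.md a b z 11) a) ∈
    lam 2 Γ 45
  k112 : (D2.k a b 112)⁻¹ * cm (D2.k a b 74) (D2.k a b 78) ∈ lam 2 Γ 45
  m62 : v62 a b ∈ lam 2 Γ 18
  m64 : v64 a b ∈ lam 2 Γ 19
  m67 : v67 a b ∈ lam 2 Γ 19
  m11 : mu D2.md a b z 11 ∈ lam 2 Γ 11

end words

def St_Cert : Prop :=
  ∀ (Γ : Type) [Group Γ] (a b z : Γ), D2.Hyp (lamS 2 Γ) a b z → Extra a b z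

def St_KMem : Prop :=
  ∀ (Γ : Type) [Group Γ] (a b : Γ) (i : ℕ), i < 113 → D2.k a b i ∈ lam 2 Γ (wt i)

/-! ### abstract congruence filtrations -/

structure Fil (Q : Type) [Group Q] (N : ℕ) where
  G : ℕ → Subgroup Q
  Lead : ℕ → Q → su → Prop
  anti : Antitone G
  normal : ∀ j, (G j).Normal
  bot : G N = ⊥
  mem : ∀ {a g X}, Lead a g X → g ∈ G a
  ex : ∀ {a g}, 1 ≤ a → g ∈ G a → ∃ X, Lead a g X
  zero : ∀ {a g}, Lead a g 0 ↔ g ∈ G (a + 1)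
  uniq : ∀ {a g X Y}, a < N → Lead a g X → Lead a g Y → X = Y
  mul : ∀ {a g h X Y}, 1 ≤ a → Lead a g X → Lead a h Y → Lead a (g * h) (X + Y)
  inv : ∀ {a g X}, 1 ≤ a → Lead a g X → Lead a g⁻¹ X
  comm : ∀ {a b g h X Y}, 1 ≤ a → 1 ≤ b → Lead a g X → Lead b h Y →
    Lead (a + b) (cm g h) (sbr X Y)
  sq : ∀ {a g}, g ∈ G a → g ^ 2 ∈ G (2 * a)

/-- the elements used to kill the central extension in even degree `2 * ν` -/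
def KillQ {Q : Type} [Group Q] {N : ℕ} (Fl : Fil Q N) (a s : Q) (e : ℕ → Q) : Prop :=
  ∀ ν, 5 ≤ ν → ∃ t ∈ Fl.G ν, cm t s ∈ Fl.G (ν + 4) ∧ ∀ i, i = 1 ∨ i = 2 → ∃ f g u,
    Fl.Lead (ν - i) f sF ∧ f ^ 2 ∈ Fl.G (2 * ν + 1) ∧ g ∈ Fl.G (ν - 3) ∧
    cm t g ∈ Fl.G (2 * ν + 1) ∧ f⁻¹ * cm g s ∈ Fl.G (ν + 1) ∧ u ∈ Fl.G (ν + i) ∧
    Fl.Lead (ν + i) (cm u a) sE ∧ (t * cm u a)⁻¹ * cm (e i) f ∈ Fl.G (ν + 3)

structure QFacts {Q : Type} [Group Q] {N : ℕ} (Fl : Fil Q N) (n : ℕ) (a b z : Q) : Prop where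
  sp : ∀ q ∈ spL, ∀ i, ∃ g ∈ Kq a b q.2, Fl.Lead q.1 g (sB i)
  cor : ∀ g ∈ [v62 a b, v64 a b, v67 a b, w1 a b, w2 a b], g ∈ Cq a b ⊔ Fl.G 11
  hz : z ∈ Fl.G n
  zspan : ∀ i, ∃ r ∈ Subgroup.closure (Set.range (mu D2.md a b z)), Fl.Lead n r (sB i)
  rels : ∀ r ∈ D2.rels, relw D2.md a b z r ∈ Fl.G (n + 11)
  ind : ∃ T : Subgroup Q, T.Normal ∧ D2.k a b 112 ∈ T ∧ Ind a b (· ∈ T)
  k74 : D2.k a b 74 ∈ Fl.G 4
  k78 : D2.k a b 78 ∈ Fl.G 5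
  kill : ∃ (s : Q) (e : ℕ → Q), s ∈ Kq a b 1 ⊔ Fl.G 2 ∧
    e 1 ∈ Kq a b 8 ⊔ Fl.G 3 ∧ e 2 ∈ Kq a b 13 ⊔ Fl.G 4 ∧ KillQ Fl a s e

/-! ### the group theoretic part -/

structure Pre (E Q : Type) [Group E] [Group Q] (N n : ℕ) where
  θ : E →* Q
  a : E
  b : E
  Fl : Fil Q N
  z : Q
  gen : Subgroup.closure {a, b} = ⊤
  qf : QFacts Fl n (θ a) (θ b) z
  hn : 11 ≤ n
  km : ∀ i < 113, D2.k a b i ∈ lam 2 E (wt i)

/-- the weight available in level `j` -/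
def Kw (j : ℕ) : ℕ := max ((5 * j + 1) / 2) (min (5 * j - 5) 25)

namespace Pre
variable {E Q : Type} [Group E] [Group Q] {N n : ℕ} (P : Pre E Q N n)

/-- weight at least `k` and level at least `j` -/
def C (k j : ℕ) : Subgroup E := lam 2 E k ⊓ (P.Fl.G j).comap P.θ
def D (j : ℕ) : Subgroup E := P.C ((5 * j + 1) / 2) j
def V (k : ℕ) : Subgroup E := lam 2 E k ⊓ P.θ.ker
def Psi (m : ℕ) : Subgroup E :=
  Subgroup.closure {g | ∃ i j x y, 2 ≤ i ∧ 2 ≤ j ∧ m ≤ i + j ∧ x ∈ P.D i ∧ y ∈ P.D j ∧ g = cm x y}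

/-- elementary facts (block A1) -/
structure Basic : Prop where
  C_normal : ∀ k j, (P.C k j).Normal
  V_normal : ∀ k, (P.V k).Normal
  Psi_normal : ∀ m, (P.Psi m).Normal
  C_mono : ∀ {k k' j j'}, k ≤ k' → j ≤ j' → P.C k' j' ≤ P.C k j
  cm_C : ∀ {k l i j x y}, 1 ≤ i → 1 ≤ j → x ∈ P.C k i → y ∈ P.C l j →
    cm x y ∈ P.C (k + l) (i + j)
  Psi_anti : Antitone P.Psi
  Psi_le : ∀ m, P.Psi m ≤ P.D m
  /-- a subgroup containing all leading terms in the levels `≥ j` contains the level `j` -/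
  fill : ∀ (K : Subgroup Q) (j : ℕ), 1 ≤ j →
    (∀ l, j ≤ l → ∀ i, ∃ g ∈ K, P.Fl.Lead l g (sB i)) → P.Fl.G j ≤ K
  lead : ∀ j, 2 ≤ j → ∀ X, ∃ x ∈ lam 2 E (Kw j), P.Fl.Lead j (P.θ x) X
  full : ∀ j, 2 ≤ j → ∀ g ∈ P.Fl.G j, ∃ x ∈ lam 2 E (Kw j), P.θ x = g
  lead45 : ∀ j, 11 ≤ j → ∀ X, ∃ x ∈ lam 2 E 45, P.Fl.Lead j (P.θ x) X
  full45 : ∀ g ∈ P.Fl.G 11, ∃ x ∈ lam 2 E 45, P.θ x = g
  Psi_full : ∀ m, 4 ≤ m → ∀ g ∈ P.Fl.G m, ∃ x ∈ P.Psi m, P.θ x = g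
  Kq_lift : ∀ k, ∀ g ∈ Kq (P.θ P.a) (P.θ P.b) k, ∃ x ∈ lam 2 E k, P.θ x = g
  cor : ∀ g ∈ [v62 P.a P.b, v64 P.a P.b, v67 P.a P.b, w1 P.a P.b, w2 P.a P.b],
    ∃ w ∈ lam 2 E 45, P.θ (g * w) = 1

/-- the last term of the kernel is central of exponent two -/
def Cen : Prop := ∀ v ∈ P.V 44, (∀ x, Commute v x) ∧ v ^ 2 = 1

structure Core : Prop where
  cen : ∀ v ∈ P.V 21, (∀ x, Commute v x) ∧ v ^ 2 = 1
  comm : ∀ k l, 22 ≤ k + l → ∀ v ∈ P.V k, ∀ x ∈ lam 2 E l, Commute v x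
  l44 : lam 2 E 44 ≤ P.Psi 9

structure PsiFacts : Prop where
  pa : ∀ {k l i j m x y}, 2 ≤ i → 2 ≤ j → m ≤ i + j → 22 ≤ min k (Kw i) + min l (Kw j) →
    x ∈ P.C k i → y ∈ P.C l j → cm x y ∈ P.Psi m
  pb : ∀ {m x}, 9 ≤ m → x ∈ P.C 21 m → (∀ y, cm x y ∈ P.Psi m) ∧ x ^ 2 ∈ P.Psi m
  pc : ∀ {k l m x y}, 4 ≤ m → 22 ≤ min k ((5 * m + 1) / 2) + l → x ∈ P.C k m → y ∈ lam 2 E l →
    cm x y ∈ P.Psi m

def Kill (ν : ℕ) : Prop :=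
  ∃ x₁ ∈ P.D (ν + 1), ∃ f₁ ∈ P.D (ν - 1), ∃ x₂ ∈ P.D (ν + 2), ∃ f₂ ∈ P.D (ν - 2),
    P.Fl.Lead (ν + 1) (P.θ x₁) sE ∧ P.Fl.Lead (ν - 1) (P.θ f₁) sF ∧
    P.Fl.Lead (ν + 2) (P.θ x₂) sE ∧ P.Fl.Lead (ν - 2) (P.θ f₂) sF ∧
    (cm x₁ f₁)⁻¹ * cm x₂ f₂ ∈ P.Psi (2 * ν + 1)

end Pre

structure Setup (E Q : Type) [Group E] [Group Q] (N n : ℕ) extends Pre E Q N n where
  fin : Finite E
  pg : IsPGroup 2 E
  zt : E
  hz : θ zt = z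
  h1 : zt⁻¹ * w1 a b ∈ lam 2 E 45
  h2 : w2 a b ∈ lam 2 E 45
  inj : Subgroup.normalClosure {zt} ⊓ θ.ker = ⊥
  hN : 2 * (n + 11) ≤ N

/-- facts about the normal closure of the first relator (block A1R) -/
structure Setup.RFacts {E Q : Type} [Group E] [Group Q] {N n : ℕ} (S : Setup E Q N n) : Prop where
  level : ∀ r ∈ Subgroup.normalClosure {S.zt}, S.θ r ∈ S.Fl.G n
  mu_mem : ∀ k, mu D2.md S.a S.b S.zt k ∈ Subgroup.normalClosure {S.zt}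
  full : ∀ g ∈ S.Fl.G (n + 11), ∃ r ∈ Subgroup.normalClosure {S.zt}, r ∈ lam 2 E 45 ∧ S.θ r = g
  deep : ∀ r ∈ Subgroup.normalClosure {S.zt}, S.θ r ∈ S.Fl.G (n + 11) → r ∈ lam 2 E 45
  comm : ∀ r ∈ Subgroup.normalClosure {S.zt}, ∀ v ∈ S.θ.ker, Commute r v
  hyp : D2.Hyp (lamS 2 E) S.a S.b S.zt

def St_A1 : Prop :=
  ∀ (E Q : Type) [Group E] [Group Q] (N n : ℕ) (P : Pre E Q N n), P.Basic

def St_A1R : Prop :=
  ∀ (E Q : Type) [Group E] [Group Q] (N n : ℕ) (S : Setup E Q N n), S.toPre.Basic → S.RFacts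

def St_A2 : Prop :=
  ∀ (E Q : Type) [Group E] [Group Q] (N n : ℕ) (S : Setup E Q N n), S.toPre.Basic → S.RFacts →
    Extra S.a S.b S.zt → S.toPre.Cen → S.toPre.Core

def St_A3 : Prop :=
  ∀ (E Q : Type) [Group E] [Group Q] (N n : ℕ) (P : Pre E Q N n), P.Basic → P.Core → P.PsiFacts

def St_WIN : Prop :=
  ∀ (Y : Type) [AddCommGroup Y] (m : ℕ) (W : ℕ → su →+ su →+ Y), 8 ≤ m →
    (∀ a, 2 ≤ a → a + 2 ≤ m → ∀ X Z, W a X Z = W (m - a) Z X) →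
    (∀ a b, 2 ≤ a → 2 ≤ b → a + b + 2 ≤ m → ∀ X Y Z,
      W (a + b) (sbr X Y) Z = W a X (sbr Y Z) + W b Y (sbr X Z)) →
    (Odd m ∨ ∃ a, 2 ≤ a ∧ a + 3 ≤ m ∧ W (a + 1) sE sF = W a sE sF) →
    ∃ y : su →+ Y, ∀ a, 2 ≤ a → a + 2 ≤ m → ∀ X Z, W a X Z = y (sbr X Z)

def St_A4 : Prop :=
  ∀ (E Q : Type) [Group E] [Group Q] (N n : ℕ) (P : Pre E Q N n), P.Basic → P.PsiFacts →
    ∀ m, 9 ≤ m → m < N → (∀ ν, m = 2 * ν → P.Kill ν) → P.Psi m ⊓ P.θ.ker ≤ P.Psi (m + 1)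

def St_A5 : Prop :=
  ∀ (E Q : Type) [Group E] [Group Q] (N n : ℕ) (P : Pre E Q N n), P.Basic → P.PsiFacts →
    ∀ ν, 5 ≤ ν → P.Kill ν

def St_A6 : Prop :=
  ∀ (E Q : Type) [Group E] [Group Q] (N n : ℕ) (S : Setup E Q N n), S.toPre.V 44 = ⊥

def St_HOPF : Prop :=
  ∀ (H : Type) [Group H] [Finite H], IsPGroup 2 H → ∀ (θ : Fr →* H), Function.Surjective θ →
    ∀ s t : Fr, θ s = 1 → θ t = 1 →
    θ.ker ≤ Subgroup.normalClosure {s, t} ⊔ ⁅θ.ker, (⊤ : Subgroup Fr)⁆ ⊔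
      Subgroup.closure {x | ∃ r ∈ θ.ker, x = r ^ 2} →
    Subsingleton (groupHomology (Rep.trivial ℤ H ℤ) 2)

/-! ### the matrix model -/

section model
variable {A : Type} [CommRing A]

/-- leading term of `cm u g` if `X` is the leading term of `u` -/
def xc (g : Pg A) (X : M3 (Bq A)) : M3 (Bq A) := (adj g.m * X * g.m).map (sg A g.e) + X

def xstep (a b : Pg A) (acc : List (M3 (Bq A))) (d : ℕ × ℕ) : List (M3 (Bq A)) :=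
  acc ++ [xc (gen a b d.2) (acc.getD d.1 0)]

def muX (a b : Pg A) (k : ℕ) : M3 (Bq A) :=
  (D2.md.foldl (xstep a b) [!![0, 0, 0; 0, 0, 0; 1, 0, 0]]).getD k 0

end model

/-- finite facts in the untwisted group modulo `w ^ 11`, first part -/
structure PFacts : Prop where
  sp : ∀ q ∈ spL, ∀ i, ∃ g ∈ Kq (aP 11) (bP 11) q.2, PLead q.1 g (sB i)
  cor : ∀ g ∈ [v62 (aP 11) (bP 11), v64 (aP 11) (bP 11), v67 (aP 11) (bP 11), w1 (aP 11) (bP 11),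
    w2 (aP 11) (bP 11)], g ∈ Cq (aP 11) (bP 11)
  e1 : ∃ g ∈ Kq (aP 11) (bP 11) 8, Lev 3 (g⁻¹ * eP (wv 2 11))
  e2 : ∃ g ∈ Kq (aP 11) (bP 11) 13, Lev 4 (g⁻¹ * eP (wv 2 11 ^ 2))
  sT : ∃ g ∈ Kq (aP 11) (bP 11) 1, PLead 1 g (sB 7)
  k74 : Lev 4 (D2.k (aP 11) (bP 11) 74)
  k78 : Lev 5 (D2.k (aP 11) (bP 11) 78)
  k112 : Up9 (D2.k (aP 11) (bP 11) 112)

def St_Ind : Prop := Ind (aP 11) (bP 11) Up9

structure XFacts : Prop where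
  rel : ∀ r ∈ D2.rels, (r.2.2.map fun q => q.2 • muX (aP 11) (bP 11) q.1).sum =
    xc (gen (aP 11) (bP 11) r.2.1) (muX (aP 11) (bP 11) r.1)
  span : ∀ i, ∃ l : List ℕ, InM 1 ((l.map (muX (aP 11) (bP 11))).sum - cM 11 0 (sB i).1)

/-- the filtration of the twisted group is the congruence filtration -/
def IsFil {N : ℕ} {τ : Tw N} (Fl : Fil τ.Q N) : Prop :=
  (∀ j x, x ∈ Fl.G j ↔ Lev j x.g) ∧ ∀ j x X, Fl.Lead j x X ↔ PLead j x.g X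

def St_Fil : Prop := ∀ (N : ℕ) (τ : Tw N), ∃ Fl : Fil τ.Q N, IsFil Fl

def St_PG : Prop := ∀ (N : ℕ) (τ : Tw N), Finite τ.Q ∧ IsPGroup 2 τ.Q

def St_Up9 : Prop := ∃ T : Subgroup (Pg (Tr 2 11)), T.Normal ∧ ∀ g, g ∈ T ↔ Up9 g

def St_KillQ : Prop :=
  ∀ (N : ℕ) (τ : Tw N) (Fl : Fil τ.Q N), IsFil Fl →
    ∃ s : τ.Q, Fl.Lead 1 s (sB 7) ∧ KillQ Fl ⟨aP N⟩ s fun i => ⟨eP (wv 2 N ^ i)⟩

def St_MOD : Prop :=
  ∀ (N n : ℕ) (τ : Tw N) (Fl : Fil τ.Q N), IsFil Fl → 11 ≤ n → n + 11 ≤ N →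
    (∀ i, ∃ r ∈ Subgroup.closure (Set.range (mu D2.md (⟨aP N⟩ : τ.Q) ⟨bP N⟩ ⟨zP N n⟩)),
      Fl.Lead n r (sB i)) ∧
    ∀ r ∈ D2.rels, relw D2.md (⟨aP N⟩ : τ.Q) ⟨bP N⟩ ⟨zP N n⟩ r ∈ Fl.G (n + 11)

def St_QF : Prop :=
  ∀ (N n : ℕ) (τ : Tw N) (Fl : Fil τ.Q N), IsFil Fl → 11 ≤ n → n + 11 ≤ N →
    QFacts Fl n ⟨aP N⟩ ⟨bP N⟩ ⟨zP N n⟩

/-! ### universality -/

/-- an action of `T` on a discretely valued field of characteristic two with residue field of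
two elements, together with an invariant element that is not a square in a strong sense -/
structure Real (T : Type) [Group T] where
  L : Type
  [fld : Field L]
  [chr : CharP L 2]
  S : Filt L
  act : T → L →+* L
  one : ∀ x, act 1 x = x
  mul : ∀ g h x, act (g * h) x = act g (act h x)
  hF : ∀ g n x, x ∈ S.F n → act g x ∈ S.F n
  res : ∀ x ∈ S.F 0, ∃ c : ℕ, x - c ∈ S.F 1
  t : L
  ht : S.Ex 1 t
  s : L
  y : L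
  z : L
  k : ℤ
  hs : ∀ g, act g s = s
  hyz : s = y ^ 2 + z
  hz : S.Ex k z
  hk : Odd k
  hs1 : s ∈ S.F 1

attribute [instance] Real.fld Real.chr

namespace Real
variable {T K : Type} [Group T] [Group K]

def ker (R : Real T) : Subgroup T where
  carrier := {g | ∀ x, R.act g x = x}
  one_mem' := R.one
  mul_mem' := fun {g h} hg hh x => by rw [R.mul, hh x, hg x]
  inv_mem' := fun {g} hg x => by rw [← hg x, ← R.mul, inv_mul_cancel, R.one, hg x]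

def comap (R : Real T) (φ : K →* T) : Real K :=
  { R with
    act := fun g => R.act (φ g)
    one := fun x => by rw [map_one, R.one]
    mul := fun g h x => by rw [map_mul, R.mul]
    hF := fun g => R.hF (φ g)
    hs := fun g => R.hs (φ g) }

open Classical in
/-- the class of an integral element modulo `t ^ D` -/
noncomputable def cl (R : Real T) (D : ℕ) (x : R.L) : Tr 2 D :=
  if h : ∃ P : Polynomial (ZMod 2), x - ev 2 R.t P ∈ R.S.F D then AdjoinRoot.mk _ h.choose else 0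

/-- `α` is the action induced on the truncated ring -/
def IsAl (R : Real T) (D : ℕ) (α : T →* Au 2 D) : Prop :=
  ∀ g, ∀ x ∈ R.S.F 0, α g (R.cl D x) = R.cl D (R.act g x)

structure ClApi (R : Real T) : Prop where
  add : ∀ D, ∀ x ∈ R.S.F 0, ∀ y ∈ R.S.F 0, R.cl D (x + y) = R.cl D x + R.cl D y
  mul : ∀ D, ∀ x ∈ R.S.F 0, ∀ y ∈ R.S.F 0, R.cl D (x * y) = R.cl D x * R.cl D y
  ev : ∀ D P, R.cl D (ev 2 R.t P) = AdjoinRoot.mk _ P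
  t : ∀ D, R.cl D R.t = wv 2 D
  mem : ∀ D k : ℕ, k ≤ D → ∀ x ∈ R.S.F 0, (R.cl D x ∈ Iw 2 D k ↔ x ∈ R.S.F k)
  surj : ∀ D y, ∃ x ∈ R.S.F 0, R.cl D x = y
  red : ∀ {D M : ℕ} (h : M ≤ D), ∀ x ∈ R.S.F 0, red 2 h (R.cl D x) = R.cl M x
  al : ∀ D, ∃ α, R.IsAl D α

/-- a ramified quadratic extension on which the kernel of the action is smaller -/
structure Enl (R R' : Real T) (ι : R.L →+* R'.L) (m : ℕ) : Prop where
  lt : R'.ker < R.ker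
  comm : ∀ g x, R'.act g (ι x) = ι (R.act g x)
  dbl : ∀ n x, x ∈ R.S.F n → ι x ∈ R'.S.F (2 * n)
  sqrt : ∀ n x, x ∈ R.S.F n → ∃ u, u ^ 2 - ι x ∈ R'.S.F (2 * n + m)
  tt : R'.t ^ 2 - ι R.t ∈ R'.S.F (2 + m)

def Coc (R : Real T) (φ : K →* T) (c : K → R.L) : Prop :=
  ∀ g h, c (g * h) = c g + R.act (φ g) (c h)

/-- the shape of the cocycles that can be transported to extensions -/
def Form (R : Real T) (φ : K →* T) (c : K → R.L) : Prop :=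
  ∃ (b t₀ : R.L) (A : K → R.L), (∀ g, R.act (φ g) t₀ = t₀) ∧ R.Coc φ A ∧
    (∀ w, φ w ∈ R.ker → A w ^ 2 = A w) ∧ ∀ g, c g = R.act (φ g) b - b + t₀ ^ 2 * A g

end Real

def St_U1 : Prop :=
  (∀ (T : Type) [Group T] (R : Real T), R.ClApi) ∧
  (∀ (T : Type) [Group T] (R R' : Real T) (ι : R.L →+* R'.L) (D : ℕ),
    (∀ n x, x ∈ R.S.F n → ι x ∈ R'.S.F (2 * n)) → R'.t ^ 2 - ι R.t ∈ R'.S.F (2 * D) →
    ∀ x ∈ R.S.F 0, ∀ u, u ^ 2 - ι x ∈ R'.S.F (2 * D) → u ∈ R'.S.F 0 ∧ R'.cl D u = R.cl D x) ∧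
  ∀ (T : Type) [Group T], Nonempty (Real T)

def St_U2 : Prop :=
  ∀ (T : Type) [Group T] [Finite T], IsPGroup 2 T → ∀ R : Real T, R.ker ≠ ⊥ → ∀ m : ℕ,
    ∃ (R' : Real T) (ι : R.L →+* R'.L), R.Enl R' ι m

def St_U3 : Prop :=
  ∀ (T K : Type) [Group T] [Finite T] [Group K] [Finite K], IsPGroup 2 T →
    ∀ (φ : K →* T) (R : Real T) (D : ℕ) (c : K → R.L), R.Form φ c → (∀ g, c g ∈ R.S.F 0) →
    (∀ w w', φ w ∈ R.ker → φ w' ∈ R.ker → w ≠ 1 → w' ≠ 1 → w = w') →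
    ∃ (R' : Real T) (c' : K → R'.L), R'.ker = ⊥ ∧
      (∀ g, R'.cl D (R'.act g R'.t) = R.cl D (R.act g R.t)) ∧ R'.Coc φ c' ∧
      (∀ g, c' g ∈ R'.S.F 0) ∧ ∀ g, R'.cl D (c' g) = R.cl D (c g)

def St_Univ : Prop :=
  ∀ (K : Type) [Group K] [Finite K], IsPGroup 2 K → ∃ n₀, ∀ N, n₀ ≤ N →
    ∃ (τ : Tw N) (f : K →* τ.Q), (∀ g, Lev 11 (f g).g) ∧ ∀ g, Lev n₀ (f g).g → g = 1

def St_Main : Prop :=
  ∀ (G : Type) [Group G] [Finite G], IsPGroup 2 G →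
    ∃ (H : Type) (_ : Group H) (_ : Finite H), IsPGroup 2 H ∧
      Subsingleton (groupHomology (Rep.trivial ℤ H ℤ) 2) ∧
      ∃ φ : G →* H, Function.Injective φ

end Pool.Agent.Lib.MP_0813d1_al.Two
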