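import Mathlib
import Pool.Agent.Lib.MP_0813d1_al.TwoBlue

namespace Pool.Agent.Lib.MP_0813d1_al.Two

open PC Univ

namespace A1R

section words
variable {Γ : Type} [Group Γ]

theorem getD_mem {B : Subgroup Γ} {l : List Γ} (h : ∀ g ∈ l, g ∈ B) (k : ℕ) :
    l.getD k 1 ∈ B := by
  rw [List.getD_eq_getElem?_getD]
  cases e : l[k]? with
  | none => exact one_mem _
  | some g => exact h g (List.mem_of_getElem? e)

theorem mu_mem {B : Subgroup Γ} [B.Normal] (md : List (ℕ × ℕ)) (x y : Γ) {z : Γ} (hz : z ∈ B)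
    (k : ℕ) : mu md x y z k ∈ B := by
  have key : ∀ acc : List Γ, (∀ g ∈ acc, g ∈ B) → ∀ g ∈ md.foldl (mstep x y) acc, g ∈ B := by
    induction md with
    | nil => exact fun acc h => h
    | cons d md ih =>
      intro acc h
      rw [List.foldl_cons]
      refine ih _ fun g hg => ?_
      unfold mstep at hg
      rcases List.mem_append.1 hg with hg | hg
      · exact h g hg
      · rw [List.mem_singleton.1 hg]
        exact cm_mem_left (getD_mem h _) _
  refine getD_mem (key [z] fun g hg => ?_) k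
  rw [List.mem_singleton.1 hg]; exact hz

theorem evw_mem {B : Subgroup Γ} {κ : ℕ → Γ} (h : ∀ i, κ i ∈ B) (w : List (ℕ × ℕ)) :
    evw κ w ∈ B := by
  unfold evw
  refine list_prod_mem fun g hg => ?_
  obtain ⟨q, -, rfl⟩ := List.mem_map.1 hg
  exact pow_mem (h _) _

theorem relw_mem {B : Subgroup Γ} [B.Normal] (md : List (ℕ × ℕ)) (x y : Γ) {z : Γ} (hz : z ∈ B)
    (r : ℕ × ℕ × List (ℕ × ℕ)) : relw md x y z r ∈ B :=
  mul_mem (inv_mem (evw_mem (mu_mem md x y hz) _)) (cm_mem_left (mu_mem md x y hz _) _)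

end words

variable {E Q : Type} [Group E] [Group Q] {N n : ℕ} (S : Setup E Q N n)

theorem zt_mem : S.zt ∈ Subgroup.normalClosure {S.zt} :=
  Subgroup.subset_normalClosure (Set.mem_singleton _)

theorem level : ∀ r ∈ Subgroup.normalClosure {S.zt}, S.θ r ∈ S.Fl.G n := by
  have := S.Fl.normal n
  have h : Subgroup.normalClosure {S.zt} ≤ (S.Fl.G n).comap S.θ := by
    refine Subgroup.normalClosure_le_normal ?_
    rintro _ rfl
    change S.θ S.zt ∈ S.Fl.G n
    rw [S.hz]; exact S.qf.hz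
  exact fun r hr => h hr

theorem zspan (i : Fin 8) :
    ∃ r ∈ Subgroup.normalClosure {S.zt}, S.Fl.Lead n (S.θ r) (sB i) := by
  obtain ⟨r, hr, hl⟩ := S.qf.zspan i
  have h : Subgroup.closure (Set.range (mu D2.md (S.θ S.a) (S.θ S.b) S.z)) ≤
      (Subgroup.normalClosure {S.zt}).map S.θ := by
    rw [Subgroup.closure_le]
    rintro _ ⟨k, rfl⟩
    exact ⟨mu D2.md S.a S.b S.zt k, mu_mem _ _ _ (zt_mem S) k, by rw [map_mu, S.hz]⟩
  obtain ⟨r', hr', rfl⟩ := h hr
  exact ⟨r', hr', hl⟩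

theorem full (B : S.toPre.Basic) : ∀ g ∈ S.Fl.G (n + 11),
    ∃ r ∈ Subgroup.normalClosure {S.zt}, r ∈ lam 2 E 45 ∧ S.θ r = g := by
  have hn := S.hn
  have h := B.fill ((Subgroup.normalClosure {S.zt} ⊓ lam 2 E 45).map S.θ) (n + 11) (by omega)
    (fun l hl i => by
      obtain ⟨j, k, e⟩ := sB_br i
      obtain ⟨r, hr, h1⟩ := zspan S j
      obtain ⟨x, hx, h2⟩ := B.lead45 (l - n) (by omega) (sB k)
      have h3 := S.Fl.comm (by omega) (by omega) h1 h2
      rw [← map_cm, ← e, show n + (l - n) = l by omega] at h3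
      exact ⟨S.θ (cm r x), ⟨cm r x, ⟨cm_mem_left hr x, cm_mem_right r hx⟩, rfl⟩, h3⟩)
  intro g hg
  obtain ⟨r, ⟨h1, h2⟩, rfl⟩ := h hg
  exact ⟨r, h1, h2, rfl⟩

theorem eq_one {r : E} (h1 : r ∈ Subgroup.normalClosure {S.zt}) (h2 : r ∈ S.θ.ker) : r = 1 := by
  have h : r ∈ Subgroup.normalClosure {S.zt} ⊓ S.θ.ker := ⟨h1, h2⟩
  rw [S.inj] at h
  exact h

theorem deep (B : S.toPre.Basic) : ∀ r ∈ Subgroup.normalClosure {S.zt},
    S.θ r ∈ S.Fl.G (n + 11) → r ∈ lam 2 E 45 := by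
  intro r hr hg
  obtain ⟨r', h1, h2, h3⟩ := full S B _ hg
  have h : r⁻¹ * r' = 1 := eq_one S (mul_mem (inv_mem hr) h1) (by
    rw [MonoidHom.mem_ker, map_mul, map_inv, h3, inv_mul_cancel])
  rw [inv_mul_eq_one.1 h]; exact h2

theorem comm : ∀ r ∈ Subgroup.normalClosure {S.zt}, ∀ v ∈ S.θ.ker, Commute r v :=
  fun r hr v hv => cm_eq_one_iff.1 (eq_one S (cm_mem_left hr v) (cm_mem_right r hv))

theorem hyp (B : S.toPre.Basic) : D2.Hyp (lamS 2 E) S.a S.b S.zt where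
  pow := fun _ _ hg => lam_pow hg
  gen := S.gen
  h1 := S.h1
  h2 := S.h2
  h3 := by
    have hn := S.hn
    refine deep S B (S.zt ^ 2) (pow_mem (zt_mem S) 2) ?_
    rw [map_pow, S.hz]
    exact S.Fl.anti (by omega) (S.Fl.sq S.qf.hz)
  h4 := fun r hr => by
    refine deep S B _ (relw_mem _ _ _ (zt_mem S) r) ?_
    rw [map_relw, S.hz]
    exact S.qf.rels r hr

end A1R

theorem blk_A1R : St_A1R := fun _ _ _ _ _ _ S B =>
  { level := A1R.level S
    mu_mem := A1R.mu_mem _ _ _ (A1R.zt_mem S)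
    full := A1R.full S B
    deep := A1R.deep S B
    comm := A1R.comm S
    hyp := A1R.hyp S B }

end Pool.Agent.Lib.MP_0813d1_al.Two
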