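import Pool.Agent.Lib.MP_0813d1_al.TwoBlue

namespace Pool.Agent.Lib.MP_0813d1_al.Two

open PC
open scoped commutatorElement

namespace A2

section grp
variable {G : Type*} [Group G]

theorem cm_closure {K : Subgroup G} [hK : K.Normal] {x : G} {s : Set G}
    (h : ∀ y ∈ s, cm x y ∈ K) {y : G} (hy : y ∈ Subgroup.closure s) : cm x y ∈ K := by
  induction hy using Subgroup.closure_induction with
  | mem y hy => exact h y hy
  | one => simp [cm]
  | mul y z _ _ h1 h2 =>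
    rw [cm_mul_right]
    exact mul_mem h2 (by simpa using hK.conj_mem _ h1 z⁻¹)
  | inv y _ h1 =>
    have e : cm x y⁻¹ = y * (cm x y)⁻¹ * y⁻¹ := by simp [cm, mul_assoc]
    rw [e]; exact hK.conj_mem _ (inv_mem h1) y

theorem cm_sq {u g : G} (h : Commute (cm u g) u) : cm u g ^ 2 = cm (u ^ 2) g := by
  rw [pow_two, pow_two, cm_mul_left, mul_assoc u⁻¹, h.eq, inv_mul_cancel_left]

theorem mem_of_mk {K : Subgroup G} [K.Normal] {x y : G} (hy : y ∈ K)
    (h : QuotientGroup.mk' K x = QuotientGroup.mk' K y) : x ∈ K := by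
  rw [← QuotientGroup.eq_one_iff] at hy ⊢
  exact h.trans hy

theorem mk_one {K : Subgroup G} [K.Normal] {x : G} (hx : x ∈ K) : QuotientGroup.mk' K x = 1 :=
  (QuotientGroup.eq_one_iff _).2 hx

theorem prod_range (f : ℕ → G) (h : ∀ i < 113, i ≠ 103 → i ≠ 106 → f i = 1) :
    ((List.range 113).map f).prod = f 103 * f 106 := by
  have e : List.range 113 = List.range 103 ++ [103, 104, 105, 106, 107, 108, 109, 110, 111, 112] :=
    by decide
  have h0 : ((List.range 103).map f).prod = 1 := List.prod_eq_one fun x hx => by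
    obtain ⟨i, hi, rfl⟩ := List.mem_map.1 hx
    have := List.mem_range.1 hi
    exact h i (by omega) (by omega) (by omega)
  rw [e, List.map_append, List.prod_append, h0]
  simp [h 104, h 105, h 107, h 108, h 109, h 110, h 111, h 112]

end grp

theorem map_nfw {Γ Δ : Type} [Group Γ] [Group Δ] (f : Γ →* Δ) (a b : Γ) (e : ℕ → ℕ) :
    f (nfw a b e) = nfw (f a) (f b) e := by
  rw [nfw, nfw, map_list_prod, List.map_map]
  congr 1
  refine List.map_congr_left fun i _ => ?_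
  rw [Function.comp_apply, map_pow, Data.map_k]

variable {E Q : Type} [Group E] [Group Q] {N n : ℕ} (P : Pre E Q N n)

instance V_normal (k : ℕ) : (P.V k).Normal := by unfold Pre.V; infer_instance

variable {P}

theorem mkV {k : ℕ} {v : E} (h1 : v ∈ lam 2 E k) (h2 : v ∈ P.θ.ker) : v ∈ P.V k := ⟨h1, h2⟩

theorem V_ker {k : ℕ} {v : E} (h : v ∈ P.V k) : v ∈ P.θ.ker := h.2

theorem V_anti {k l : ℕ} (h : k ≤ l) {v : E} (hv : v ∈ P.V l) : v ∈ P.V k :=
  ⟨lam_anti h hv.1, hv.2⟩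

theorem cm_V {k : ℕ} {v : E} (hv : v ∈ P.V k) (x : E) : cm v x ∈ P.V (k + 1) :=
  ⟨cm_mem_lam hv.1 (j := 1) trivial, cm_mem_left hv.2 x⟩

/-- commutators of the kernel with the terms of the central series -/
theorem chain (Z : Subgroup E) (hZ : ∀ z ∈ Z, (∀ x, Commute z x) ∧ z ^ 2 = 1)
    (h21 : ∀ v ∈ P.V 21, (∀ x, Commute v x) ∧ v ^ 2 ∈ Z) {k l : ℕ} (hkl : 22 ≤ k + l) {v x : E}
    (hv : v ∈ P.V k) (hx : x ∈ lam 2 E l) : cm v x ∈ Z ∧ (23 ≤ k + l → Commute v x) := by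
  by_cases hk : 21 ≤ k
  · have := (h21 v (V_anti hk hv)).1 x
    exact ⟨by rw [cm_eq_one_iff.2 this]; exact one_mem _, fun _ => this⟩
  have key := pchain (p := 2) (fun k => if k ≤ 21 then P.V k else if k = 22 then Z else ⊥)
    (fun k => by
      split_ifs
      · infer_instance
      · exact ⟨fun z hz g => by rwa [← ((hZ z hz).1 g).eq, mul_inv_cancel_right]⟩
      · infer_instance)
    (fun k => by
      rw [comm_le_iff_cm]
      intro y hy g _
      by_cases h1 : k ≤ 20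
      · rw [if_pos (by omega)] at hy ⊢
        exact cm_V hy g
      · have : Commute y g := by
          split_ifs at hy with h2 h3
          · exact (h21 y (V_anti (by omega) hy)).1 g
          · exact (hZ y hy).1 g
          · rw [Subgroup.mem_bot.1 hy]; exact Commute.one_left g
        rw [cm_eq_one_iff.2 this]; exact one_mem _)
    (fun k y hy => by
      by_cases h1 : k ≤ 20
      · rw [if_pos (by omega)] at hy ⊢
        exact ⟨lam_pow hy.1, pow_mem hy.2 2⟩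
      · split_ifs at hy with h2 h3
        · rw [if_neg (by omega), if_pos (by omega)]
          exact (h21 y (V_anti (by omega) hy)).2
        · rw [(hZ y hy).2]; exact one_mem _
        · rw [Subgroup.mem_bot.1 hy, one_pow]; exact one_mem _)
    k l (by omega) (cm_mem_comm (x := v) (by rwa [if_pos (by omega)]) hx)
  rw [if_neg (by omega)] at key
  split_ifs at key with h
  · exact ⟨key, fun _ => by omega⟩
  · rw [Subgroup.mem_bot] at key
    exact ⟨by rw [key]; exact one_mem _, fun _ => cm_eq_one_iff.1 key⟩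

/-- the square of the corrected element is central -/
theorem sq_central (hc : P.Cen) {k : E} (hk : k ∈ P.θ.ker) (ha : cm k P.a ∈ lam 2 E 45)
    (hb : cm k P.b ∈ lam 2 E 45) (x : E) : Commute (k ^ 2) x := by
  have h1 : cm k x ∈ P.V 44 := cm_closure (s := {P.a, P.b}) (by
    rintro y (rfl | rfl)
    · exact ⟨lam_succ_le _ ha, cm_mem_left hk _⟩
    · exact ⟨lam_succ_le _ hb, cm_mem_left hk _⟩) (by rw [P.gen]; trivial)
  rw [← cm_eq_one_iff, ← cm_sq ((hc _ h1).1 k), (hc _ h1).2]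

/-- normal form of the elements of the kernel of weight `21` -/
theorem nf [Finite E] (hE : IsPGroup 2 E) {z : E} (X : Extra P.a P.b z) {c : E}
    (hc : c ∈ P.θ.ker)
    (hq : QuotientGroup.mk' (lam 2 E 44) c = QuotientGroup.mk' (lam 2 E 44) (v67 P.a P.b ^ 2))
    {g : E} (hg : g ∈ P.V 21) : ∃ ε : ℕ, (c ^ ε)⁻¹ * g ∈ P.V 44 := by
  obtain ⟨T, hT, h112, hI⟩ := P.qf.ind
  have hK : lam 2 E 44 ≤ T.comap P.θ := by
    refine lam_le_of_le_sup hE (by omega) (X.l44.trans (sup_le_sup_right ?_ _))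
    rw [Subgroup.zpowers_le, Subgroup.mem_comap, Data.map_k]
    exact h112
  obtain ⟨e, e1, e2, e3⟩ := X.nf21 g hg.1
  have h1 : nfw P.a P.b e ∈ T.comap P.θ := by
    have h2 : g ∈ T.comap P.θ := by
      rw [Subgroup.mem_comap, MonoidHom.mem_ker.1 hg.2]; exact one_mem _
    simpa using mul_mem h2 (inv_mem (hK (lam_succ_le _ e3)))
  rw [Subgroup.mem_comap, map_nfw] at h1
  obtain ⟨h3, h4⟩ := hI e e1 e2 h1
  refine ⟨e 103, mkV ?_ (mul_mem (inv_mem (pow_mem hc _)) (V_ker hg))⟩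
  refine mem_of_mk (lam_succ_le _ e3) ?_
  have h5 := mk_one (lam_succ_le _ X.sq67)
  have h6 : QuotientGroup.mk' (lam 2 E 44) (D2.k P.a P.b 112) = 1 := mk_one (P.km 112 (by omega))
  rw [map_mul, map_inv, inv_mul_eq_one, ← hq, map_mul] at h5
  rw [map_mul, map_mul, map_inv, map_inv, map_pow, ← h5, nfw, map_list_prod, List.map_map,
    prod_range _ fun i hi h7 h8 => ?_]
  · simp only [Function.comp_apply, map_pow, ← h4]
    rcases (by have := e1 103; omega : e 103 = 0 ∨ e 103 = 1) with h | h <;> simp [h]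
  · rw [Function.comp_apply, map_pow]
    by_cases h9 : i = 112
    · rw [h9, h6, one_pow]
    · rw [h3 i (by omega) h7 h8, pow_zero]

/-- the identity that forces the exponent two -/
theorem c_sq (hc : P.Cen)
    (hcomm : ∀ {k l v x}, 23 ≤ k + l → v ∈ P.V k → x ∈ lam 2 E l → Commute v x)
    {c k62 k64 η : E} (hcc : ∀ x, Commute c x) (hck : c ∈ P.θ.ker) (h62 : k62 ∈ P.V 18)
    (h64 : k64 ∈ P.V 19) (hη : η ∈ P.V 11) (s62 : Commute (k62 ^ 2) P.a)
    (s64 : Commute (k64 ^ 2) P.a) (sη : Commute (η ^ 2) P.a)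
    (hid : c⁻¹ * (cm (cm k62 P.a) P.a * cm k64 P.a * cm η P.a) ∈ lam 2 E 45) : c ^ 2 = 1 := by
  have hx := cm_V h62 P.a
  have hy1 := cm_V hx P.a
  have hy2 := cm_V h64 P.a
  have hy3 := cm_V hη P.a
  have q0 : cm k62 P.a ^ 2 = 1 := by
    rw [cm_sq (hcomm (by omega) hx h62.1), cm_eq_one_iff.2 s62]
  have q1 : cm (cm k62 P.a) P.a ^ 2 = 1 := by
    rw [cm_sq (hcomm (by omega) hy1 hx.1), q0, cm_eq_one_iff.2 (Commute.one_left _)]
  have q2 : cm k64 P.a ^ 2 = 1 := by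
    rw [cm_sq (hcomm (by omega) hy2 h64.1), cm_eq_one_iff.2 s64]
  have q3 : cm η P.a ^ 2 = 1 := by
    rw [cm_sq (hcomm (by omega) hy3 hη.1), cm_eq_one_iff.2 sη]
  have hv := (hc _ (mkV (lam_succ_le _ hid)
    (mul_mem (inv_mem hck) (mul_mem (mul_mem (V_ker hy1) (V_ker hy2)) (V_ker hy3))))).2
  rw [(hcc _).inv_left.mul_pow, ((hcomm (by omega) hy1 hy3.1).mul_left
    (hcomm (by omega) hy2 hy3.1)).mul_pow, (hcomm (by omega) hy1 hy2.1).mul_pow, q1, q2, q3] at hv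
  simpa using hv

end A2

open A2 in
theorem blk_A2 : St_A2 := by
  intro E Q _ _ N n S B R X hc
  have := S.fin
  obtain ⟨w62, a1, a2⟩ := B.cor (v62 S.a S.b) (by simp)
  obtain ⟨w64, b1, b2⟩ := B.cor (v64 S.a S.b) (by simp)
  obtain ⟨w67, c1, c2⟩ := B.cor (v67 S.a S.b) (by simp)
  have h62 : v62 S.a S.b * w62 ∈ S.toPre.V 18 := ⟨mul_mem X.m62 (lam_anti (by omega) a1), a2⟩
  have h64 : v64 S.a S.b * w64 ∈ S.toPre.V 19 := ⟨mul_mem X.m64 (lam_anti (by omega) b1), b2⟩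
  have h67 : v67 S.a S.b * w67 ∈ S.θ.ker := c2
  have hcc := sq_central hc h67
    (mem_of_mk X.c67a (by simp only [map_cm, map_mul, mk_one c1, mul_one]))
    (mem_of_mk X.c67b (by simp only [map_cm, map_mul, mk_one c1, mul_one]))
  have hck := pow_mem h67 2
  have hc4 : ((v67 S.a S.b * w67) ^ 2) ^ 2 ∈ S.toPre.V 44 :=
    ⟨lam_succ_le _ (mem_of_mk X.p67 (by
      simp only [← pow_mul, map_pow, map_mul, mk_one c1, mul_one])), pow_mem hck 2⟩
  have hnf := fun g hg => nf (g := g) S.pg X hck (by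
    simp only [map_pow, map_mul, mk_one (lam_succ_le _ c1), mul_one]) hg
  have hid : ∀ ζ ∈ lam 2 E 45, ((v67 S.a S.b * w67) ^ 2)⁻¹ *
      (cm (cm (v62 S.a S.b * w62) S.a) S.a * cm (v64 S.a S.b * w64) S.a *
        cm (mu D2.md S.a S.b S.zt 11 * ζ⁻¹) S.a) ∈ lam 2 E 45 := fun ζ hζ =>
    mem_of_mk X.idc (by simp only [map_cm, map_mul, map_inv, map_pow, mk_one a1, mk_one b1,
      mk_one c1, mk_one hζ, mul_one, inv_one])
  have s62 : (v62 S.a S.b * w62) ^ 2 ∈ S.toPre.V 21 :=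
    ⟨mem_of_mk X.sq62 (by simp only [map_pow, map_mul,
      mk_one (lam_anti (show 21 ≤ 45 by omega) a1), mul_one]), pow_mem h62.2 2⟩
  have s64 : (v64 S.a S.b * w64) ^ 2 ∈ S.toPre.V 21 :=
    ⟨mem_of_mk X.sq64 (by simp only [map_pow, map_mul,
      mk_one (lam_anti (show 21 ≤ 45 by omega) b1), mul_one]), pow_mem h64.2 2⟩
  have m1 := R.mu_mem 11
  have m2 := X.m11
  generalize (v67 S.a S.b * w67) ^ 2 = c at hcc hck hc4 hnf hid
  generalize mu D2.md S.a S.b S.zt 11 = μ at hid m1 m2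
  have h21 : ∀ v ∈ S.toPre.V 21, (∀ x, Commute v x) ∧ v ^ 2 ∈ Subgroup.zpowers (c ^ 2) := by
    intro v hv
    obtain ⟨ε, hε⟩ := hnf v hv
    obtain ⟨d1, d2⟩ := hc _ hε
    rw [← mul_inv_cancel_left (c ^ ε) v]
    refine ⟨fun x => ((hcc x).pow_left ε).mul_left (d1 x), ?_⟩
    rw [((hcc _).pow_left ε).mul_pow, d2, mul_one, ← pow_mul, mul_comm ε, pow_mul]
    exact pow_mem (Subgroup.mem_zpowers _) ε
  have hZ : ∀ z ∈ Subgroup.zpowers (c ^ 2), (∀ x, Commute z x) ∧ z ^ 2 = 1 := by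
    rintro _ ⟨k, rfl⟩
    exact hc _ (zpow_mem hc4 k)
  have hn := S.hn
  obtain ⟨ζ, z1, z2⟩ := B.full45 _ (S.Fl.anti hn (R.level _ m1))
  have hη : μ * ζ⁻¹ ∈ S.toPre.V 11 := mkV (mul_mem m2 (inv_mem (lam_anti (by omega) z1))) (by
    rw [MonoidHom.mem_ker, map_mul, map_inv, z2, mul_inv_cancel])
  have sη : (μ * ζ⁻¹) ^ 2 ∈ S.toPre.V 44 := by
    refine ⟨lam_succ_le _ ?_, pow_mem hη.2 2⟩
    have e1 : Commute μ ζ⁻¹ := by
      simpa using (Commute.refl μ).inv_right.mul_right (R.comm μ m1 _ hη.2)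
    rw [e1.mul_pow]
    refine mul_mem (R.deep _ (pow_mem m1 2) ?_) (pow_mem (inv_mem z1) 2)
    rw [map_pow]
    exact S.Fl.anti (by omega) (S.Fl.sq (R.level _ m1))
  have hc2 : c ^ 2 = 1 := c_sq hc
    (fun hkl hv hx => (chain _ hZ h21 (by omega) hv hx).2 hkl) hcc hck h62 h64 hη
    ((h21 _ s62).1 _) ((h21 _ s64).1 _) ((hc _ sη).1 _) (hid ζ z1)
  rw [hc2, Subgroup.zpowers_one_eq_bot] at h21 hZ
  refine ⟨fun v hv => ⟨(h21 v hv).1, (h21 v hv).2⟩, fun k l hkl v hv x hx =>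
    cm_eq_one_iff.1 (chain _ hZ h21 hkl hv hx).1, ?_⟩
  have := B.Psi_normal 9
  refine lam_le_of_le_sup S.pg (by omega) (X.l44.trans (sup_le ?_ le_sup_right))
  have k74 : D2.k S.a S.b 74 ∈ S.toPre.D 4 :=
    Subgroup.mem_inf.2 ⟨lam_anti (by decide) (S.km 74 (by omega)), by
      rw [Subgroup.mem_comap, Data.map_k]; exact S.qf.k74⟩
  have k78 : D2.k S.a S.b 78 ∈ S.toPre.D 5 :=
    Subgroup.mem_inf.2 ⟨lam_anti (by decide) (S.km 78 (by omega)), by
      rw [Subgroup.mem_comap, Data.map_k]; exact S.qf.k78⟩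
  have k9 : cm (D2.k S.a S.b 74) (D2.k S.a S.b 78) ∈ S.toPre.Psi 9 :=
    Subgroup.subset_closure ⟨4, 5, _, _, by omega, by omega, by omega, k74, k78, rfl⟩
  rw [Subgroup.zpowers_le]
  simpa using mul_mem (Subgroup.mem_sup_left (T := lam 2 E 45) k9)
    (inv_mem (Subgroup.mem_sup_right X.k112))

end Pool.Agent.Lib.MP_0813d1_al.Two
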