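import Mathlib
import Pool.Agent.Lib.MP_0813d1_al.TwoBlue

namespace Pool.Agent.Lib.MP_0813d1_al.Two

open PC

namespace A3

variable {E Q : Type} [Group E] [Group Q] {N n : ℕ} {P : Pre E Q N n}

theorem split {k l : ℕ} {x d : E} (hx : x ∈ lam 2 E k) (hd : d ∈ lam 2 E l)
    (h : P.θ d = P.θ x) : ∃ v ∈ P.V (min k l), x = d * v :=
  ⟨d⁻¹ * x, ⟨Subgroup.mul_mem _ (Subgroup.inv_mem _ (lam_anti (min_le_right _ _) hd))
    (lam_anti (min_le_left _ _) hx), by simp [h]⟩, by simp⟩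

theorem left {K : Subgroup E} [hK : K.Normal] {d v y : E} (h : cm d y ∈ K) (hv : Commute v y) :
    cm (d * v) y ∈ K := by
  rw [cm_mul_left, cm_eq_one_iff.2 hv, mul_one]
  exact hK.conj_mem' _ h v

theorem right {K : Subgroup E} [hK : K.Normal] {d v y : E} (h : cm y d ∈ K) (hv : Commute v y) :
    cm y (d * v) ∈ K := by
  rw [← cm_inv] at h ⊢
  exact inv_mem (left (inv_mem_iff.1 h) hv)

theorem split_psi (hB : P.Basic) {k m : ℕ} {x : E} (hm : 4 ≤ m) (hx : x ∈ P.C k m) :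
    ∃ d ∈ P.Psi m, ∃ v ∈ P.V (min k ((5 * m + 1) / 2)), x = d * v := by
  obtain ⟨d, hd, e⟩ := hB.Psi_full m hm _ hx.2
  exact ⟨d, hd, split hx.1 (hB.Psi_le m hd).1 e⟩

theorem split_D (hB : P.Basic) {k i : ℕ} {x : E} (hi : 2 ≤ i) (hx : x ∈ P.C k i) :
    ∃ d ∈ P.D i, d ∈ lam 2 E (Kw i) ∧ ∃ v ∈ P.V (min k (Kw i)), x = d * v := by
  obtain ⟨d, hd, e⟩ := hB.full i hi _ hx.2
  refine ⟨d, ⟨lam_anti (le_max_left _ _) hd, ?_⟩, hd, split hx.1 hd e⟩
  change P.θ d ∈ P.Fl.G i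
  rw [e]
  exact hx.2

end A3

open A3 in
theorem blk_A3 : St_A3 := by
  intro E Q _ _ N n P hB hC
  refine ⟨fun {k l i j m x y} hi hj hm h hx hy => ?_, fun {m x} hm hx => ?_,
    fun {k l m x y} hm h hx hy => ?_⟩
  · have := hB.Psi_normal m
    obtain ⟨d, h1, h5, v, h2, rfl⟩ := split_D hB hi hx
    refine left ?_ (hC.comm _ l (by omega) v h2 y hy.1)
    obtain ⟨d', h3, -, v', h4, rfl⟩ := split_D hB hj hy
    exact right (Subgroup.subset_closure ⟨i, j, d, d', hi, hj, hm, h1, h3, rfl⟩)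
      (hC.comm _ (Kw i) (by omega) v' h4 d h5)
  · have := hB.Psi_normal m
    obtain ⟨d, h1, v, h2, rfl⟩ := split_psi hB (by omega) hx
    rw [min_eq_left (by omega)] at h2
    obtain ⟨h3, h4⟩ := hC.cen v h2
    refine ⟨fun y => left (cm_mem_left h1 y) (h3 y), ?_⟩
    rw [(h3 d).symm.mul_pow, h4, mul_one]
    exact pow_mem h1 2
  · have := hB.Psi_normal m
    obtain ⟨d, h1, v, h2, rfl⟩ := split_psi hB hm hx
    exact left (cm_mem_left h1 y) (hC.comm _ l h v h2 y hy)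

end Pool.Agent.Lib.MP_0813d1_al.Two
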