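import Pool.Agent.Lib.MP_0813d1_al.TwoBlue

/-! Block A4: one step down in the filtration `Psi`. -/

namespace Pool.Agent.Lib.MP_0813d1_al.Two

open PC Univ

namespace A4

theorem hall_witt {G : Type} [Group G] (x y z : G) :
    y⁻¹ * cm (cm x y⁻¹) z * y * (z⁻¹ * cm (cm y z⁻¹) x * z) * (x⁻¹ * cm (cm z x⁻¹) y * x) = 1 := by
  simp [cm, mul_assoc]

variable {E Q : Type} [Group E] [Group Q] {N n : ℕ} {P : Pre E Q N n}

/-- `x` has weight and level `a` and leading term `X` -/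
def Has (P : Pre E Q N n) (a : ℕ) (x : E) (X : su) : Prop := x ∈ P.D a ∧ P.Fl.Lead a (P.θ x) X

theorem gen_mem {i j m : ℕ} {x y : E} (hi : 2 ≤ i) (hj : 2 ≤ j) (h : m ≤ i + j) (hx : x ∈ P.D i)
    (hy : y ∈ P.D j) : cm x y ∈ P.Psi m :=
  Subgroup.subset_closure ⟨i, j, x, y, hi, hj, h, hx, hy, rfl⟩

theorem Has.mul {a : ℕ} {x y : E} {X Y : su} (ha : 1 ≤ a) (h : Has P a x X) (h' : Has P a y Y) :
    Has P a (x * y) (X + Y) :=
  ⟨mul_mem h.1 h'.1, by rw [map_mul]; exact P.Fl.mul ha h.2 h'.2⟩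

theorem Has.inv {a : ℕ} {x : E} {X : su} (ha : 1 ≤ a) (h : Has P a x X) : Has P a x⁻¹ X :=
  ⟨inv_mem h.1, by rw [map_inv]; exact P.Fl.inv ha h.2⟩

theorem Has.br (hB : P.Basic) {a b : ℕ} {x y : E} {X Y : su} (ha : 1 ≤ a) (hb : 1 ≤ b)
    (h : Has P a x X) (h' : Has P b y Y) : Has P (a + b) (cm x y) (sbr X Y) :=
  ⟨hB.C_mono (k := (5 * (a + b) + 1) / 2) (k' := (5 * a + 1) / 2 + (5 * b + 1) / 2) (by omega)
    le_rfl (hB.cm_C ha hb h.1 h'.1),
    by rw [map_cm]; exact P.Fl.comm ha hb h.2 h'.2⟩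

theorem exists_has (hB : P.Basic) (a : ℕ) (X : su) : ∃ x, 2 ≤ a → Has P a x X := by
  by_cases ha : 2 ≤ a
  · obtain ⟨x, hx, hl⟩ := hB.lead a ha X
    exact ⟨x, fun _ => ⟨⟨lam_anti (le_max_left _ _) hx, P.Fl.mem hl⟩, hl⟩⟩
  · exact ⟨1, fun h => absurd h ha⟩

section quot

variable {H : Type} [Group H] {m : ℕ} (π : E →* H) (hπ : ∀ x, π x = 1 ↔ x ∈ P.Psi (m + 1))
include hπ

theorem conj {j : ℕ} {c d : E} (hm : 2 ≤ m) (hj : 2 ≤ j) (hc : c ∈ P.D m) (hd : d ∈ P.D j) :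
    π (d⁻¹ * c * d) = π c := by
  rw [conj_eq_mul_cm, map_mul, (hπ _).2 (gen_mem hm hj (by omega) hc hd), mul_one]

theorem left_mul (hB : P.Basic) {a b : ℕ} {x y z : E} (ha : 2 ≤ a) (hb : 2 ≤ b) (hm : a + b = m)
    (hx : x ∈ P.D a) (hy : y ∈ P.D a) (hz : z ∈ P.D b) :
    π (cm (x * y) z) = π (cm x z) * π (cm y z) := by
  rw [cm_mul_left, map_mul, conj π hπ (by omega) ha (hB.Psi_le m (gen_mem ha hb hm.ge hx hz)) hy]

theorem indep (hB : P.Basic) (hP : P.PsiFacts) (h9 : 9 ≤ m) {a b : ℕ} {x y z : E} {X : su}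
    (ha : 2 ≤ a) (hb : 2 ≤ b) (hm : a + b = m) (hx : Has P a x X) (hy : Has P a y X)
    (hz : z ∈ P.D b) : π (cm x z) = π (cm y z) := by
  have hd := (hx.inv (by omega)).mul (by omega) hy
  rw [su_add_self] at hd
  have h1 : cm (x⁻¹ * y) z ∈ P.Psi (m + 1) :=
    hP.pa (k := (5 * a + 1) / 2) (l := (5 * b + 1) / 2) (i := a + 1) (j := b) (by omega) hb
      (by omega) (by unfold Kw; omega) ⟨hd.1.1, P.Fl.zero.1 hd.2⟩ hz
  have := left_mul π hπ hB ha hb hm hx.1 hd.1 hz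
  rw [mul_inv_cancel_left, (hπ _).2 h1, mul_one] at this
  exact this.symm

theorem indep₂ (hB : P.Basic) (hP : P.PsiFacts) (h9 : 9 ≤ m) {a b : ℕ} {x y z w : E} {X Z : su}
    (ha : 2 ≤ a) (hb : 2 ≤ b) (hm : a + b = m) (hx : Has P a x X) (hy : Has P a y X)
    (hz : Has P b z Z) (hw : Has P b w Z) : π (cm x z) = π (cm y w) := by
  rw [indep π hπ hB hP h9 ha hb hm hx hy hz.1, ← cm_inv z, ← cm_inv w, map_inv, map_inv,
    indep π hπ hB hP h9 hb ha (by omega) hz hw hy.1]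

theorem main (hW : St_WIN) (hB : P.Basic) (hP : P.PsiFacts) (h9 : 9 ≤ m) (hN : m < N)
    (hK : ∀ ν, m = 2 * ν → P.Kill ν) : P.Psi m ⊓ P.θ.ker ≤ P.Psi (m + 1) := by
  let Z : Subgroup H := (P.Psi m).map π
  let _ : CommGroup Z :=
    { (inferInstance : Group Z) with
      mul_comm := fun u v => Subtype.ext (by
        obtain ⟨u, hu, hu'⟩ := u.2
        obtain ⟨v, hv, hv'⟩ := v.2
        have := conj π hπ (by omega) (by omega) (hB.Psi_le m hu) (hB.Psi_le m hv)
        rw [map_mul, map_mul, map_inv, hu', hv', mul_assoc, inv_mul_eq_iff_eq_mul] at this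
        exact this) }
  choose L hL using exists_has hB
  have mem : ∀ a, 2 ≤ a ∧ a + 2 ≤ m → ∀ X Y, π (cm (L a X) (L (m - a) Y)) ∈ Z := fun a h X Y =>
    ⟨_, gen_mem h.1 (j := m - a) (by omega) (by omega) (hL a X h.1).1 (hL _ Y (by omega)).1, rfl⟩
  let w : ∀ a, 2 ≤ a ∧ a + 2 ≤ m → su → su → Additive Z := fun a h X Y =>
    Additive.ofMul ⟨_, mem a h X Y⟩
  have val : ∀ a (h : 2 ≤ a ∧ a + 2 ≤ m) {b x y X Y}, a + b = m → Has P a x X → Has P b y Y →
      ((Additive.toMul (w a h X Y) : Z) : H) = π (cm x y) := fun a h b x y X Y e hx hy => by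
    obtain rfl : b = m - a := by omega
    exact indep₂ π hπ hB hP h9 h.1 (by omega) e (hL a X h.1) hx (hL _ Y (by omega)) hy
  have ext : ∀ {u v : Additive Z}, ((Additive.toMul u : Z) : H) = (Additive.toMul v : Z) → u = v :=
    fun h => Additive.toMul.injective (Subtype.ext h)
  have addl : ∀ a h X X' Y, w a h (X + X') Y = w a h X Y + w a h X' Y := fun a h X X' Y => by
    have h1 := hL a X h.1
    have h2 := hL a X' h.1
    have h3 := hL (m - a) Y (by omega)
    refine ext ?_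
    rw [val a h (by omega) (h1.mul (by omega) h2) h3,
      left_mul π hπ hB h.1 (b := m - a) (by omega) (by omega) h1.1 h2.1 h3.1]
    rfl
  have neg : ∀ a h h' X Y, w a h X Y = -w (m - a) h' Y X := fun a h h' X Y => by
    refine ext ?_
    rw [toMul_neg, Subgroup.coe_inv, val (m - a) h' (by omega) (hL _ Y h'.1) (hL a X h.1),
      ← map_inv, cm_inv]
    rfl
  have two : ∀ a h X Y, -w a h X Y = w a h X Y := fun a h X Y => by
    have h0 := addl a h 0 0 Y
    rw [add_zero, left_eq_add] at h0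
    exact neg_eq_of_add_eq_zero_left (by rw [← addl a h X X Y, su_add_self, h0])
  have sym : ∀ a h h' X Y, w a h X Y = w (m - a) h' Y X := fun a h h' X Y => by
    rw [neg a h h', two _ h']
  have addr : ∀ a h X Y Y', w a h X (Y + Y') = w a h X Y + w a h X Y' := fun a h X Y Y' => by
    have h' : 2 ≤ m - a ∧ m - a + 2 ≤ m := by omega
    rw [sym a h h' X, sym a h h' X Y, sym a h h' X Y', addl _ h']
  let W : ℕ → su →+ su →+ Additive Z := fun a => if h : 2 ≤ a ∧ a + 2 ≤ m then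
    AddMonoidHom.mk' (fun X => AddMonoidHom.mk' (w a h X) (addr a h X))
      fun X X' => AddMonoidHom.ext (addl a h X X') else 0
  have hWw : ∀ a h X Y, W a X Y = w a h X Y := fun a h X Y => by
    simp only [W, dif_pos h]
    rfl
  obtain ⟨y, hy⟩ := hW (Additive Z) m W (by omega)
    (fun a h1 h2 X Y => by
      have h' : 2 ≤ m - a ∧ m - a + 2 ≤ m := by omega
      rw [hWw a ⟨h1, h2⟩, hWw (m - a) h', sym a ⟨h1, h2⟩ h'])
    (fun a b ha hb hab X Y U => by
      obtain ⟨c, hc⟩ : ∃ c, a + b + c = m := ⟨m - (a + b), by omega⟩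
      have h1 := hL a X ha
      have h2 := hL b Y hb
      have h3 := hL c U (by omega)
      have k1 := h1.br hB (by omega) (by omega) (h2.inv (by omega))
      have k2 := h2.br hB (by omega) (by omega) (h3.inv (by omega))
      have k3 := h3.br hB (by omega) (by omega) (h1.inv (by omega))
      have hD : ∀ {i j u v U V}, 2 ≤ i → 2 ≤ j → i + j = m → Has P i u U → Has P j v V →
          cm u v ∈ P.D m := fun hi hj e hu hv => hB.Psi_le m (gen_mem hi hj e.ge hu.1 hv.1)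
      have e := congrArg π (hall_witt (L a X) (L b Y) (L c U))
      rw [map_mul, map_mul, map_one,
        conj π hπ (by omega) hb (hD (by omega) (by omega) hc k1 h3) h2.1,
        conj π hπ (by omega) (by omega) (hD (by omega) ha (by omega) k2 h1) h3.1,
        conj π hπ (by omega) ha (hD (by omega) hb (by omega) k3 h2) h1.1,
        ← val (a + b) (by omega) hc k1 h3, ← cm_inv (L a X), ← cm_inv (L b Y) (cm _ _), map_inv,
        map_inv, ← val a (by omega) (by omega) h1 k2, ← val b (by omega) (by omega) h2 k3,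
        sbr_comm U X] at e
      rw [hWw (a + b) (by omega), hWw a (by omega), hWw b (by omega)]
      have e' : w (a + b) (by omega) (sbr X Y) U + -w a (by omega) X (sbr Y U) +
          -w b (by omega) Y (sbr X U) = 0 := ext e
      rw [← sub_eq_zero, ← e']
      abel)
    (by
      rcases Nat.even_or_odd' m with ⟨ν, h | h⟩
      · obtain ⟨x₁, a1, f₁, a2, x₂, a3, f₂, a4, b1, b2, b3, b4, hk⟩ := hK ν h
        refine Or.inr ⟨ν + 1, by omega, by omega, ?_⟩
        rw [hWw (ν + 1 + 1) (by omega), hWw (ν + 1) (by omega)]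
        refine ext ?_
        rw [val (ν + 1 + 1) (by omega) (b := ν - 2) (by omega) ⟨a3, b3⟩ ⟨a4, b4⟩,
          val (ν + 1) (by omega) (b := ν - 1) (by omega) ⟨a1, b1⟩ ⟨a2, b2⟩]
        rw [← h, ← hπ, map_mul, map_inv, inv_mul_eq_one] at hk
        exact hk.symm
      · exact Or.inl ⟨ν, h⟩)
  have key : ∀ ψ ∈ P.Psi m, ∃ X, P.Fl.Lead m (P.θ ψ) X ∧ π ψ = (Additive.toMul (y X) : Z) := by
    intro ψ hψ
    induction hψ using Subgroup.closure_induction with
    | mem g hg =>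
      obtain ⟨i, j, u, v, hi, hj, hij, hu, hv, rfl⟩ := hg
      obtain ⟨U, hU⟩ := P.Fl.ex (a := i) (by omega) hu.2
      obtain ⟨V, hV⟩ := P.Fl.ex (a := j) (by omega) hv.2
      have k := Has.br hB (by omega) (by omega) ⟨hu, hU⟩ ⟨hv, hV⟩
      rcases hij.eq_or_lt with e | e
      · refine ⟨sbr U V, e ▸ k.2, ?_⟩
        rw [← hy i hi (by omega), hWw i (by omega), val i (by omega) e.symm ⟨hu, hU⟩ ⟨hv, hV⟩]
      · refine ⟨0, P.Fl.zero.2 (P.Fl.anti e k.1.2), ?_⟩
        rw [map_zero, (hπ _).2 (gen_mem hi hj e hu hv)]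
        rfl
    | one => exact ⟨0, P.Fl.zero.2 (by rw [map_one]; exact one_mem _), by rw [map_one, map_zero]; rfl⟩
    | mul g h _ _ hg hh =>
      obtain ⟨X, h1, h2⟩ := hg
      obtain ⟨Y, h3, h4⟩ := hh
      exact ⟨X + Y, by rw [map_mul]; exact P.Fl.mul (by omega) h1 h3,
        by rw [map_mul, map_add, h2, h4]; rfl⟩
    | inv g _ hg =>
      obtain ⟨X, h1, h2⟩ := hg
      refine ⟨X, by rw [map_inv]; exact P.Fl.inv (by omega) h1, ?_⟩
      conv_rhs => rw [← su_neg X, map_neg]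
      rw [map_inv, h2]
      rfl
  rintro ψ ⟨h1, h2⟩
  obtain ⟨X, h3, h4⟩ := key ψ h1
  rw [show P.θ ψ = 1 from h2] at h3
  rw [P.Fl.uniq hN h3 (P.Fl.zero.2 (one_mem _)), map_zero] at h4
  exact (hπ ψ).1 h4

end quot

end A4

theorem blk_A4 : St_WIN → St_A4 := by
  intro hW E Q _ _ N n P hB hP m h9 hN hK
  have := hB.Psi_normal (m + 1)
  exact A4.main (QuotientGroup.mk' (P.Psi (m + 1))) (fun x => QuotientGroup.eq_one_iff x) hW hB hP
    h9 hN hK

end Pool.Agent.Lib.MP_0813d1_al.Two
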