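import Mathlib
import Pool.Agent.Lib.MP_0813d1_al.TwoBlue

namespace Pool.Agent.Lib.MP_0813d1_al.Two

open PC

namespace A5

section grp
variable {G : Type*} [Group G]

theorem cm_comm {h x f : G} (h1 : Commute h x) (h2 : Commute h f) : Commute h (cm x f) :=
  ((h1.inv_right.mul_right h2.inv_right).mul_right h1).mul_right h2

theorem l1 {t g s : G} (h1 : ∀ y, Commute (cm t g) y) (h2 : Commute (cm t s) g)
    (h3 : Commute (cm t s) (cm g s)) : Commute t (cm g s) := by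
  have e1 : t⁻¹ * g * t = g * (cm t g)⁻¹ := by simp [cm, mul_assoc]
  have e2 : t⁻¹ * s * t = s * (cm t s)⁻¹ := by simp [cm, mul_assoc]
  have e3 : t⁻¹ * cm g s * t = cm (t⁻¹ * g * t) (t⁻¹ * s * t) := by simp [cm, mul_assoc]
  rw [e1, e2, cm_mul_left, cm_eq_one_iff.2 (h1 _).inv_left, mul_one, inv_inv, (h1 _).eq,
    mul_inv_cancel_right, cm_mul_right, cm_eq_one_iff.2 h2.symm.inv_right, one_mul, inv_inv,
    h3.eq, mul_inv_cancel_right] at e3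
  rw [Commute, SemiconjBy]
  calc t * cm g s = t * (t⁻¹ * cm g s * t) := by rw [e3]
    _ = cm g s * t := by group

theorem l2 {e f t x h : G} (h1 : Commute (f ^ 2) e) (hc : cm e f = t * x * h)
    (tx : Commute t x) (th : Commute t h) (xh : Commute x h) (tf : Commute t f)
    (hf : Commute h f) (x2 : x ^ 2 = 1) (h2 : h ^ 2 = 1) : cm x f = (t ^ 2)⁻¹ := by
  have e1 := cm_eq_one_iff.2 h1.symm
  rw [sq, cm_mul_right, conj_eq_mul_cm, ← mul_assoc, ← sq, hc, (th.mul_left xh).mul_pow,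
    tx.mul_pow, x2, h2, mul_one, mul_one, cm_mul_left, cm_eq_one_iff.2 hf, mul_one,
    cm_mul_left, cm_eq_one_iff.2 tf, mul_one, inv_mul_cancel, one_mul, mul_assoc,
    ← (cm_comm xh.symm hf).eq, inv_mul_cancel_left] at e1
  exact eq_inv_of_mul_eq_one_right e1

theorem l3 {u a : G} (h1 : Commute (cm u a) u) (h2 : Commute (u ^ 2) a) : cm u a ^ 2 = 1 := by
  have e1 := cm_eq_one_iff.2 h2
  rwa [sq, cm_mul_left, mul_assoc u⁻¹, h1.eq, inv_mul_cancel_left, ← sq] at e1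

theorem l4 {p q : G} (h1 : Commute (cm p q) q) (h2 : Commute (q ^ 2) p) : cm p q ^ 2 = 1 := by
  have e1 := cm_eq_one_iff.2 h2.symm
  rwa [sq, cm_mul_right, mul_assoc q⁻¹, h1.eq, inv_mul_cancel_left, ← sq] at e1

theorem com {K : Subgroup G} [K.Normal] {x y : G} (h : cm x y ∈ K) :
    Commute (QuotientGroup.mk' K x) (QuotientGroup.mk' K y) := by
  rw [← cm_eq_one_iff, ← map_cm]
  exact (QuotientGroup.eq_one_iff _).2 h

theorem com_all {K : Subgroup G} [K.Normal] {x : G} (h : ∀ y, cm x y ∈ K) (z : G ⧸ K) :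
    Commute (QuotientGroup.mk' K x) z := by
  obtain ⟨y, rfl⟩ := QuotientGroup.mk'_surjective K z
  exact com (h y)

end grp

variable {E Q : Type} [Group E] [Group Q] {N n : ℕ} {P : Pre E Q N n}

theorem mem_C {k j : ℕ} {x : E} : x ∈ P.C k j ↔ x ∈ lam 2 E k ∧ P.θ x ∈ P.Fl.G j := Iff.rfl

theorem sq_C {k j : ℕ} {x : E} (h : x ∈ P.C k j) : x ^ 2 ∈ P.C (k + 1) (2 * j) :=
  mem_C.2 ⟨lam_pow h.1, by rw [map_pow]; exact P.Fl.sq h.2⟩

theorem lift_sup (B : P.Basic) {k j : ℕ} (hj : 2 ≤ j) (hk : k ≤ Kw j) {g : Q}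
    (hg : g ∈ Kq (P.θ P.a) (P.θ P.b) k ⊔ P.Fl.G j) : ∃ x ∈ lam 2 E k, P.θ x = g := by
  have : Kq (P.θ P.a) (P.θ P.b) k ⊔ P.Fl.G j ≤ (lam 2 E k).map P.θ :=
    sup_le (fun g hg => B.Kq_lift k g hg) fun g hg => by
      obtain ⟨x, hx, e⟩ := B.full j hj g hg
      exact ⟨x, lam_anti hk hx, e⟩
  exact this hg

theorem sq_h (B : P.Basic) (F : P.PsiFacts) {ν : ℕ} (hν : 5 ≤ ν) [(P.Psi (2 * ν + 1)).Normal]
    {h : E} (hh : h ∈ P.C 23 (ν + 3)) :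
    QuotientGroup.mk' (P.Psi (2 * ν + 1)) h ^ 2 = 1 := by
  set π := QuotientGroup.mk' (P.Psi (2 * ν + 1)) with hπ
  set Th : Subgroup E :=
    Subgroup.closure {g | ∃ p ∈ P.C 5 2, ∃ q ∈ P.C 25 (ν + 1), g = cm p q} with hTh
  have gen : ∀ p ∈ P.C 5 2, ∀ q ∈ P.C 25 (ν + 1), cm p q ∈ P.C 30 (ν + 3) := fun p hp q hq =>
    B.C_mono le_rfl (by omega) (B.cm_C (by omega) (by omega) hp hq)
  have h1 : Th ≤ P.C 30 (ν + 3) := (Subgroup.closure_le _).2 fun g ⟨p, hp, q, hq, e⟩ =>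
    e ▸ gen p hp q hq
  have h2 : P.Fl.G (ν + 3) ≤ Th.map P.θ := B.fill _ _ (by omega) fun l hl i => by
    obtain ⟨j, k, e⟩ := sB_br i
    obtain ⟨p, hp, lp⟩ := B.lead 2 le_rfl (sB j)
    obtain ⟨q, hq, lq⟩ := B.lead (l - 2) (by omega) (sB k)
    refine ⟨P.θ (cm p q), Subgroup.mem_map_of_mem _ (Subgroup.subset_closure
      ⟨p, mem_C.2 ⟨hp, P.Fl.mem lp⟩, q, mem_C.2 ⟨lam_anti (by unfold Kw; omega) hq,
        P.Fl.anti (by omega) (P.Fl.mem lq)⟩, rfl⟩), ?_⟩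
    have := P.Fl.comm (by omega) (by omega) lp lq
    rwa [show 2 + (l - 2) = l by omega, ← e, ← map_cm] at this
  have h3 : ∀ d ∈ Th, π d ^ 2 = 1 := fun d hd => by
    induction hd using Subgroup.closure_induction with
    | mem d hd =>
      obtain ⟨p, hp, q, hq, rfl⟩ := hd
      rw [map_cm]
      refine l4 ?_ ?_
      · rw [← map_cm]
        exact com (F.pa (by omega) (by omega) (by omega) (by unfold Kw; omega) (gen p hp q hq) hq)
      · rw [← map_pow]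
        exact com_all (F.pb (by omega) (B.C_mono (by omega) (by omega) (sq_C hq))).1 _
    | one => simp
    | mul x y hx hy e1 e2 =>
      rw [map_mul, (com (F.pa (by omega) (by omega) (by omega) (by unfold Kw; omega) (h1 hx)
        (h1 hy))).mul_pow, e1, e2, mul_one]
    | inv x _ e1 => rw [map_inv, inv_pow, e1, inv_one]
  obtain ⟨d, hd, e⟩ := h2 hh.2
  have h4 : d⁻¹ * h ∈ P.C 21 (2 * ν + 1) := mem_C.2
    ⟨mul_mem (inv_mem (lam_anti (by omega) (h1 hd).1)) (lam_anti (by omega) hh.1), by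
      rw [map_mul, map_inv, e, inv_mul_cancel]; exact one_mem _⟩
  obtain ⟨h5, h6⟩ := F.pb (by omega) h4
  rw [← mul_inv_cancel_left d h, map_mul, (com_all h5 _).symm.mul_pow, h3 d hd, one_mul,
    ← map_pow]
  exact (QuotientGroup.eq_one_iff _).2 h6

theorem main (B : P.Basic) (F : P.PsiFacts) {ν i ke kf : ℕ} (hν : 5 ≤ ν) (hi1 : 1 ≤ i)
    (hi2 : i ≤ 2) (hk : ke + kf = 23) (hkf : kf ≤ Kw (ν - i)) (hkf' : 10 ≤ kf) (hkf'' : kf ≤ 15)
    [(P.Psi (2 * ν + 1)).Normal] {t s e : E} (ht : t ∈ P.C 23 ν) (he : e ∈ lam 2 E ke)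
    (hts : cm (P.θ t) (P.θ s) ∈ P.Fl.G (ν + 4)) {f g u : Q}
    (a1 : P.Fl.Lead (ν - i) f sF) (a2 : f ^ 2 ∈ P.Fl.G (2 * ν + 1)) (a3 : g ∈ P.Fl.G (ν - 3))
    (a4 : cm (P.θ t) g ∈ P.Fl.G (2 * ν + 1)) (a5 : f⁻¹ * cm g (P.θ s) ∈ P.Fl.G (ν + 1))
    (a6 : u ∈ P.Fl.G (ν + i)) (a7 : P.Fl.Lead (ν + i) (cm u (P.θ P.a)) sE)
    (a8 : (P.θ t * cm u (P.θ P.a))⁻¹ * cm (P.θ e) f ∈ P.Fl.G (ν + 3)) :
    ∃ x ∈ P.D (ν + i), ∃ y ∈ P.D (ν - i), P.Fl.Lead (ν + i) (P.θ x) sE ∧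
      P.Fl.Lead (ν - i) (P.θ y) sF ∧ QuotientGroup.mk' (P.Psi (2 * ν + 1)) (cm x y) =
        (QuotientGroup.mk' (P.Psi (2 * ν + 1)) t ^ 2)⁻¹ := by
  set π := QuotientGroup.mk' (P.Psi (2 * ν + 1)) with hπ
  obtain ⟨f, hf, rfl⟩ := B.full (ν - i) (by omega) f (P.Fl.mem a1)
  obtain ⟨g, hg, rfl⟩ := B.full (ν - 3) (by omega) g a3
  obtain ⟨u, hu, rfl⟩ := B.full (ν + i) (by omega) u a6
  rw [← map_cm] at a7 hts a4
  have hx : cm u P.a ∈ lam 2 E (Kw (ν + i)) := cm_mem_left hu _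
  have cf : f ∈ P.C kf (ν - i) := mem_C.2 ⟨lam_anti hkf hf, P.Fl.mem a1⟩
  have cg : g ∈ P.C 5 (ν - 3) := mem_C.2 ⟨lam_anti (by unfold Kw; omega) hg, a3⟩
  have cu : u ∈ P.C 25 (ν + i) := mem_C.2 ⟨lam_anti (by unfold Kw; omega) hu, a6⟩
  have cx : cm u P.a ∈ P.C 25 (ν + i) :=
    mem_C.2 ⟨lam_anti (by unfold Kw; omega) hx, P.Fl.mem a7⟩
  have := B.C_normal 5 (ν - 3)
  have cgs : cm g s ∈ P.C 5 (ν - 3) := cm_mem_left cg _
  have cal : cm t g ∈ P.C 21 (2 * ν + 1) :=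
    mem_C.2 ⟨lam_anti (by omega) (cm_mem_left ht.1 g), a4⟩
  have cbe : cm t s ∈ P.C 23 (ν + 4) := mem_C.2 ⟨cm_mem_left ht.1 s, hts⟩
  have cr : f⁻¹ * cm g s ∈ P.C 5 (ν + 1) :=
    mem_C.2 ⟨mul_mem (inv_mem (lam_anti (by omega) cf.1)) cgs.1, by
      rwa [map_mul, map_inv, map_cm]⟩
  have ch : (t * cm u P.a)⁻¹ * cm e f ∈ P.C 23 (ν + 3) :=
    mem_C.2 ⟨mul_mem (inv_mem (mul_mem ht.1 (lam_anti (by omega) cx.1)))
      (hk ▸ cm_mem_lam he cf.1), by rwa [map_mul, map_inv, map_mul, map_cm, map_cm]⟩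
  have cff : f ^ 2 ∈ P.C (kf + 1) (2 * ν + 1) := mem_C.2 ⟨lam_pow cf.1, by rwa [map_pow]⟩
  have tf : Commute (π t) (π f) := by
    have b1 : Commute (π t) (π (cm g s)) := by
      rw [map_cm]
      refine l1 ?_ ?_ ?_
      · rw [← map_cm]; exact com_all (F.pb (by omega) cal).1
      · rw [← map_cm]
        exact com (F.pa (by omega) (by omega) (by omega) (by unfold Kw; omega) cbe cg)
      · rw [← map_cm, ← map_cm]
        exact com (F.pa (by omega) (by omega) (by omega) (by unfold Kw; omega) cbe cgs)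
    have b2 : Commute (π t) (π (f⁻¹ * cm g s)) :=
      com (F.pa (by omega) (by omega) (by omega) (by unfold Kw; omega) ht cr)
    have e1 : f = cm g s * (f⁻¹ * cm g s)⁻¹ := by group
    rw [e1, map_mul, map_inv]
    exact b1.mul_right b2.inv_right
  refine ⟨cm u P.a, mem_C.2 ⟨lam_anti (le_max_left _ _) hx, cx.2⟩, f,
    mem_C.2 ⟨lam_anti (le_max_left _ _) hf, cf.2⟩, a7, a1, ?_⟩
  rw [map_cm]
  refine l2 (e := π e) (h := π ((t * cm u P.a)⁻¹ * cm e f)) ?_ ?_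
    (com (F.pa (by omega) (by omega) (by omega) (by unfold Kw; omega) ht cx))
    (com (F.pa (by omega) (by omega) (by omega) (by unfold Kw; omega) ht ch))
    (com (F.pa (by omega) (by omega) (by omega) (by unfold Kw; omega) cx ch)) tf
    (com (F.pa (by omega) (by omega) (by omega) (by unfold Kw; omega) ch cf)) ?_
    (sq_h B F hν ch)
  · rw [← map_pow]
    exact com (F.pc (by omega) (by omega) cff he)
  · rw [← map_mul, ← map_mul, mul_inv_cancel_left, map_cm]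
  · rw [map_cm]
    refine l3 ?_ ?_
    · rw [← map_cm]
      exact com (F.pa (by omega) (by omega) (by omega) (by unfold Kw; omega) cx cu)
    · rw [← map_pow]
      exact com_all (F.pb (by omega) (B.C_mono (by omega) (by omega) (sq_C cu))).1 _

end A5

open A5 in
theorem blk_A5 : St_A5 := by
  intro E Q _ _ N n P B F ν hν
  obtain ⟨s, e, hs, he1, he2, hK⟩ := P.qf.kill
  obtain ⟨t, ht, hts, hK⟩ := hK ν hν
  obtain ⟨f₁, g₁, u₁, a1, a2, a3, a4, a5, a6, a7, a8⟩ := hK 1 (Or.inl rfl)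
  obtain ⟨f₂, g₂, u₂, b1, b2, b3, b4, b5, b6, b7, b8⟩ := hK 2 (Or.inr rfl)
  obtain ⟨s, -, rfl⟩ := lift_sup B le_rfl (by decide) hs
  obtain ⟨e₁, he₁, q₁⟩ := lift_sup B (by omega) (by decide) he1
  obtain ⟨e₂, he₂, q₂⟩ := lift_sup B (by omega) (by decide) he2
  rw [← q₁] at a8
  rw [← q₂] at b8
  obtain ⟨t, ht', rfl⟩ : ∃ x ∈ lam 2 E 23, P.θ x = t := by
    obtain ⟨f, hf, rfl⟩ := B.full (ν - 1) (by omega) f₁ (P.Fl.mem a1)
    have h1 : (cm (P.θ e₁) (P.θ f))⁻¹ * t ∈ P.Fl.G (ν + 1) := by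
      have := mul_mem (inv_mem (P.Fl.anti (show ν + 1 ≤ ν + 3 by omega) a8))
        (inv_mem (P.Fl.mem a7))
      convert this using 1
      group
    obtain ⟨y, hy, e1⟩ := B.full (ν + 1) (by omega) _ h1
    refine ⟨cm e₁ f * y, mul_mem (cm_mem_lam he₁ (lam_anti (show 15 ≤ _ by unfold Kw; omega) hf))
      (lam_anti (by unfold Kw; omega) hy), ?_⟩
    rw [map_mul, e1, map_cm, mul_inv_cancel_left]
  have := B.Psi_normal (2 * ν + 1)
  obtain ⟨x₁, hx₁, y₁, hy₁, c1, c2, c3⟩ := main B F (kf := 15) hν le_rfl (by omega) rfl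
    (by unfold Kw; omega) (by omega) le_rfl (mem_C.2 ⟨ht', ht⟩) he₁ hts a1 a2 a3 a4 a5 a6 a7 a8
  obtain ⟨x₂, hx₂, y₂, hy₂, d1, d2, d3⟩ := main B F (kf := 10) hν (by omega) le_rfl rfl
    (by unfold Kw; omega) le_rfl (by omega) (mem_C.2 ⟨ht', ht⟩) he₂ hts b1 b2 b3 b4 b5 b6 b7 b8
  exact ⟨x₁, hx₁, y₁, hy₁, x₂, hx₂, y₂, hy₂, c1, c2, d1, d2, QuotientGroup.eq.1 (c3.trans d3.symm)⟩

end Pool.Agent.Lib.MP_0813d1_al.Two
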