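import Pool.Agent.Lib.MP_0813d1_al.TwoBlue

namespace Pool.Agent.Lib.MP_0813d1_al.Two

open PC
open scoped commutatorElement

namespace A6

variable {E Q : Type} [Group E] [Group Q] {N n : ℕ}

theorem cen (h1 : St_A1) (h1R : St_A1R) (hC : St_Cert) (h2 : St_A2) (h3 : St_A3) (h4 : St_A4)
    (h5 : St_A5) (S : Setup E Q N n) (hc : S.toPre.Cen) : S.toPre.V 44 = ⊥ := by
  have B := h1 E Q N n S.toPre
  have R := h1R E Q N n S B
  have C := h2 E Q N n S B R (hC E _ _ _ R.hyp) hc
  have F := h3 E Q N n S.toPre B C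
  have hN := S.hN
  have hn := S.hn
  have a1 : ∀ m, 9 ≤ m → m ≤ 2 * (n + 11) → S.toPre.V 44 ≤ S.toPre.Psi m := by
    intro m hm
    induction m, hm using Nat.le_induction with
    | base => exact fun _ => inf_le_left.trans C.l44
    | succ m hm ih =>
      exact fun h => (le_inf (ih (by omega)) inf_le_right).trans
        (h4 E Q N n _ B F m hm (by omega) fun ν e => h5 E Q N n _ B F ν (by omega))
  have a2 : ∀ i x y, n + 11 ≤ i → x ∈ S.toPre.D i → cm x y ∈ Subgroup.normalClosure {S.zt} := by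
    intro i x y hi hx
    obtain ⟨r, r1, r2, r3⟩ := R.full _ (S.Fl.anti hi hx.2)
    have hv : r⁻¹ * x ∈ S.toPre.V 44 :=
      Subgroup.mem_inf.mpr ⟨mul_mem (inv_mem (lam_anti (by omega) r2)) (lam_anti (by omega) hx.1),
        by rw [MonoidHom.mem_ker, map_mul, map_inv, r3, inv_mul_cancel]⟩
    rw [← mul_inv_cancel_left r x, cm_mul_left, cm_eq_one_iff.mpr ((hc _ hv).1 y), mul_one]
    exact Subgroup.Normal.conj_mem' inferInstance _ (cm_mem_left r1 y) _
  have a3 : S.toPre.Psi (2 * (n + 11)) ≤ Subgroup.normalClosure {S.zt} := by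
    refine (Subgroup.closure_le _).2 ?_
    rintro _ ⟨i, j, x, y, -, -, h, hx, hy, rfl⟩
    rcases le_total (n + 11) i with hi | hi
    · exact a2 i x y hi hx
    · rw [← cm_inv]
      exact inv_mem (a2 j y x (by omega) hy)
  exact eq_bot_iff.mpr ((le_inf ((a1 _ (by omega) le_rfl).trans a3) inf_le_right).trans S.inj.le)

theorem map_w1 {Γ Δ : Type} [Group Γ] [Group Δ] (f : Γ →* Δ) (a b : Γ) :
    f (w1 a b) = w1 (f a) (f b) := by
  simp only [w1, map_evw, Data.map_k]

theorem map_w2 {Γ Δ : Type} [Group Γ] [Group Δ] (f : Γ →* Δ) (a b : Γ) :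
    f (w2 a b) = w2 (f a) (f b) := by
  simp only [w2, map_mul, map_inv, map_pow, map_evw, Data.map_k]

/-- the quotient by a normal subgroup of the kernel -/
def quot (S : Setup E Q N n) (K : Subgroup E) [K.Normal] (hK : K ≤ S.θ.ker) :
    Setup (E ⧸ K) Q N n where
  θ := QuotientGroup.lift K S.θ hK
  a := QuotientGroup.mk' K S.a
  b := QuotientGroup.mk' K S.b
  Fl := S.Fl
  z := S.z
  gen := by
    rw [← Set.image_pair, ← MonoidHom.map_closure, S.gen,
      Subgroup.map_top_of_surjective _ (QuotientGroup.mk'_surjective K)]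
  qf := S.qf
  hn := S.hn
  km i hi := by rw [← Data.map_k]; exact map_mem_lam _ (S.km i hi)
  fin := by have := S.fin; infer_instance
  pg := S.pg.to_quotient K
  zt := QuotientGroup.mk' K S.zt
  hz := S.hz
  h1 := by rw [← map_w1, ← map_inv, ← map_mul]; exact map_mem_lam _ S.h1
  h2 := by rw [← map_w2]; exact map_mem_lam _ S.h2
  inj := by
    rw [← Set.image_singleton, ← Subgroup.map_normalClosure _ _ (QuotientGroup.mk'_surjective K),
      eq_bot_iff]
    rintro _ ⟨⟨r, hr, rfl⟩, h⟩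
    have : r ∈ Subgroup.normalClosure {S.zt} ⊓ S.θ.ker := ⟨hr, h⟩
    rw [S.inj, Subgroup.mem_bot] at this
    rw [this, map_one]
    exact one_mem _
  hN := S.hN

end A6

theorem blk_A6 : St_A1 → St_A1R → St_Cert → St_A2 → St_A3 → St_A4 → St_A5 → St_A6 := by
  intro h1 h1R hC h2 h3 h4 h5 E Q _ _ N n S
  have := S.fin
  have := (h1 E Q N n S.toPre).V_normal 44
  let K : Subgroup E := ⁅S.toPre.V 44, ⊤⁆ ⊔ Subgroup.closure {x | ∃ g ∈ S.toPre.V 44, x = g ^ 2}
  have hK : K ≤ S.toPre.V 44 := by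
    refine sup_le (Subgroup.commutator_le_left _ _) ((Subgroup.closure_le _).2 ?_)
    rintro _ ⟨g, hg, rfl⟩
    exact pow_mem hg 2
  have : K.Normal := ⟨fun x hx g => by
    have := conj_eq_mul_cm x g⁻¹
    rw [inv_inv] at this
    rw [this]
    exact mul_mem hx (Subgroup.mem_sup_left (cm_mem_comm (hK hx) (Subgroup.mem_top _)))⟩
  have hs := QuotientGroup.mk'_surjective K
  have h0 := A6.cen h1 h1R hC h2 h3 h4 h5 (A6.quot S K (hK.trans inf_le_right)) fun v hv => by
    obtain ⟨g, hg, rfl⟩ := exists_lam_lift _ hs hv.1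
    have hg' : g ∈ S.toPre.V 44 := ⟨hg, hv.2⟩
    refine ⟨fun x => ?_, ?_⟩
    · obtain ⟨x, rfl⟩ := hs x
      rw [← cm_eq_one_iff, ← map_cm]
      exact (QuotientGroup.eq_one_iff _).2
        (Subgroup.mem_sup_left (cm_mem_comm hg' (Subgroup.mem_top _)))
    · rw [← map_pow]
      exact (QuotientGroup.eq_one_iff _).2
        (Subgroup.mem_sup_right (Subgroup.subset_closure ⟨g, hg', rfl⟩))
  refine eq_bot_of_le S.pg fun v hv => (QuotientGroup.eq_one_iff (N := K) v).1 ?_
  rw [← Subgroup.mem_bot, ← h0]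
  exact ⟨map_mem_lam (QuotientGroup.mk' K) hv.1, hv.2⟩

end Pool.Agent.Lib.MP_0813d1_al.Two
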