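import Pool.Agent.Lib.MP_0813d1_al.PC2Tab

namespace Pool.Agent.Lib.MP_0813d1_al.PC.T2

theorem eq14_ok : allL P.chkA eq14 = true := by decide +kernel

theorem ch15_ok : allL (chkCh P) ch15 = true := by decide +kernel

theorem ch19_ok : allL (chkCh P) ch19 = true := by decide +kernel

theorem ch22_ok : allL (chkCh P) ch22 = true := by decide +kernel

theorem ch10_ok : allL (chkCh P) ch10 = true := by decide +kernel

end Pool.Agent.Lib.MP_0813d1_al.PC.T2
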