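import Pool.Agent.Lib.MP_0813d1_al.PC2Tab

namespace Pool.Agent.Lib.MP_0813d1_al.PC.T2

theorem ch0_ok : allL (chkCh P) ch0 = true := by decide +kernel

theorem eq3_ok : allL P.chkA eq3 = true := by decide +kernel

theorem ch38_ok : allL (chkCh P) ch38 = true := by decide +kernel

theorem ch20_ok : allL (chkCh P) ch20 = true := by decide +kernel

theorem ch7_ok : allL (chkCh P) ch7 = true := by decide +kernel

end Pool.Agent.Lib.MP_0813d1_al.PC.T2
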