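import Pool.Agent.Lib.MP_0813d1_al.PC2Tab

namespace Pool.Agent.Lib.MP_0813d1_al.PC.T2

theorem eq13_ok : allL P.chkA eq13 = true := by decide +kernel

theorem ch42_ok : allL (chkCh P) ch42 = true := by decide +kernel

theorem ch36_ok : allL (chkCh P) ch36 = true := by decide +kernel

theorem ch37_ok : allL (chkCh P) ch37 = true := by decide +kernel

theorem ch29_ok : allL (chkCh P) ch29 = true := by decide +kernel

theorem ch31_ok : allL (chkCh P) ch31 = true := by decide +kernel

end Pool.Agent.Lib.MP_0813d1_al.PC.T2
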