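import Pool.Agent.Lib.MP_0813d1_al.PC2Tab

namespace Pool.Agent.Lib.MP_0813d1_al.PC.T2

theorem eq12_ok : allL P.chkA eq12 = true := by decide +kernel

theorem eq8_ok : allL P.chkA eq8 = true := by decide +kernel

theorem eq0_ok : allL P.chkA eq0 = true := by decide +kernel

theorem ch43_ok : allL (chkCh P) ch43 = true := by decide +kernel

theorem eq4_ok : allL P.chkA eq4 = true := by decide +kernel

theorem ch35_ok : allL (chkCh P) ch35 = true := by decide +kernel

end Pool.Agent.Lib.MP_0813d1_al.PC.T2
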