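import Pool.Agent.Lib.MP_0813d1_al.PC2Tab

namespace Pool.Agent.Lib.MP_0813d1_al.PC.T2

theorem eq11_ok : allL P.chkA eq11 = true := by decide +kernel

theorem ch21_ok : allL (chkCh P) ch21 = true := by decide +kernel

theorem ch24_ok : allL (chkCh P) ch24 = true := by decide +kernel

theorem eq6_ok : allL P.chkA eq6 = true := by decide +kernel

theorem ch28_ok : allL (chkCh P) ch28 = true := by decide +kernel

theorem ch25_ok : allL (chkCh P) ch25 = true := by decide +kernel

end Pool.Agent.Lib.MP_0813d1_al.PC.T2
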