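import Pool.Agent.Lib.MP_0813d1_al.PC2Tab

namespace Pool.Agent.Lib.MP_0813d1_al.PC.T2

theorem ch1_ok : allL (chkCh P) ch1 = true := by decide +kernel

theorem ch11_ok : allL (chkCh P) ch11 = true := by decide +kernel

theorem ch30_ok : allL (chkCh P) ch30 = true := by decide +kernel

theorem eq1_ok : allL P.chkA eq1 = true := by decide +kernel

theorem ch16_ok : allL (chkCh P) ch16 = true := by decide +kernel

theorem ch18_ok : allL (chkCh P) ch18 = true := by decide +kernel

end Pool.Agent.Lib.MP_0813d1_al.PC.T2
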