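import Pool.Agent.Lib.MP_0813d1_al.PC2Tab

namespace Pool.Agent.Lib.MP_0813d1_al.PC.T2

theorem eq10_ok : allL P.chkA eq10 = true := by decide +kernel

theorem ch4_ok : allL (chkCh P) ch4 = true := by decide +kernel

theorem ch9_ok : allL (chkCh P) ch9 = true := by decide +kernel

theorem ch27_ok : allL (chkCh P) ch27 = true := by decide +kernel

theorem ch17_ok : allL (chkCh P) ch17 = true := by decide +kernel

theorem eq7_ok : allL P.chkA eq7 = true := by decide +kernel

theorem ch2_ok : allL (chkCh P) ch2 = true := by decide +kernel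

end Pool.Agent.Lib.MP_0813d1_al.PC.T2
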