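import Pool.Agent.Lib.MP_0813d1_al.PC2Tab

namespace Pool.Agent.Lib.MP_0813d1_al.PC.T2

theorem ch3_ok : allL (chkCh P) ch3 = true := by decide +kernel

theorem ch12_ok : allL (chkCh P) ch12 = true := by decide +kernel

theorem ch26_ok : allL (chkCh P) ch26 = true := by decide +kernel

theorem ch40_ok : allL (chkCh P) ch40 = true := by decide +kernel

theorem eq5_ok : allL P.chkA eq5 = true := by decide +kernel

theorem ch13_ok : allL (chkCh P) ch13 = true := by decide +kernel

end Pool.Agent.Lib.MP_0813d1_al.PC.T2
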