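import Pool.Agent.Lib.MP_0813d1_al.PC2Tab

namespace Pool.Agent.Lib.MP_0813d1_al.PC.T2

theorem ch5_ok : allL (chkCh P) ch5 = true := by decide +kernel

theorem eq9_ok : allL P.chkA eq9 = true := by decide +kernel

theorem ch32_ok : allL (chkCh P) ch32 = true := by decide +kernel

theorem eq2_ok : allL P.chkA eq2 = true := by decide +kernel

theorem ch34_ok : allL (chkCh P) ch34 = true := by decide +kernel

theorem ch23_ok : allL (chkCh P) ch23 = true := by decide +kernel

end Pool.Agent.Lib.MP_0813d1_al.PC.T2
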