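import Mathlib
import Pool.Agent.Lib.MP_0813d1_al.TwoBlue
import Pool.Agent.Lib.MP_0813d1_al.PC2Final

namespace Pool.Agent.Lib.MP_0813d1_al.Two

open PC PC.T2

namespace Cert

theorem wt_eq {i : ℕ} (hi : i < 113) : wt i = P.w i := P_match.w i hi

theorem kmem {Γ : Type} [Group Γ] (a b : Γ) {i : ℕ} (hi : i < 113) :
    D2.k a b i ∈ lam 2 Γ (wt i) := by
  rw [wt_eq hi]
  exact Par.k_mem P_ok P_match (lamS 2 Γ) (fun _ _ => lam_pow) a b hi

theorem wd_mem {Γ : Type} [Group Γ] (a b : Γ) (k : ℕ) (l : List ℕ)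
    (h : ∀ i ∈ l, i < 113 ∧ k ≤ wt i) : wd (D2.k a b) l ∈ lam 2 Γ k := by
  refine list_prod_mem fun q hq => ?_
  obtain ⟨i, hi, rfl⟩ := List.mem_map.1 hq
  exact lam_anti (h i hi).2 (kmem a b (h i hi).1)

/-- the words used below -/
noncomputable def ws : List ℕ :=
  [1, 2, 8135964767697548968159071608766464, 5220364153212183434439682403860480,
    4850586489952225212468535578591232, 4646904302090318406894726726811648,
    10034419095360459245153996685443072, 8073693732940304323462745066307584, C.ms.getD 11 0,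
    5925987916186711523039418865680384, 91270843216432516907762630787072]

noncomputable def wf (i : ℕ) : ℕ := ws.getD i 0

/-- two products agree up to tails -/
noncomputable def chk (f g : ℕ → ℕ) (l l' : List ℕ) : Bool :=
  bind P.T.F (P.mulW f (l.map fun i => (i, 1)) 0) fun x =>
    bind P.T.F (P.mulW g (l'.map fun i => (i, 1)) 0) fun y =>
      Nat.beq (Nat.mod x (2 ^ 113)) (Nat.mod y (2 ^ 113))

theorem bind_eq {F a : ℕ} {f : ℕ → Bool} (h : bind F a f = true) : a ≠ F ∧ f a = true := by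
  unfold PC.bind at h
  by_cases e : a = F
  · have hb : Nat.beq a F = true := Nat.beq_eq ▸ e
    rw [hb] at h
    exact absurd h (by simp)
  · have hb : Nat.beq a F = false := by
      rw [← Bool.not_eq_true, Nat.beq_eq]; exact e
    rw [hb] at h
    refine ⟨e, ?_⟩
    cases a <;> exact h

theorem wf_nr (i : ℕ) : P.Nr (wf i) := by
  have h : ∀ i < 11, P.nrm (wf i) = true := by decide +kernel
  by_cases hi : i < 11
  · exact P_ok.nrm_ok _ (h i hi)
  · have : wf i = 0 := List.getD_eq_default _ _ (by simp [ws]; omega)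
    rw [this]; exact Par.nr_zero P_ok

theorem let1_eq (i : ℕ) : P.let1 i = if i < 113 then P.B ^ i else 0 := by
  unfold Par.let1
  split_ifs with h
  · rw [show Nat.blt i P.n = true from Nat.blt_eq ▸ h]; rfl
  · rw [show Nat.blt i P.n = false from by rw [← Bool.not_eq_true, Nat.blt_eq]; exact h]; rfl

theorem let1_nr (i : ℕ) : P.Nr (P.let1 i) := by
  rw [let1_eq]
  split_ifs with h
  · exact Par.nr_pow P_ok (h.trans P_ok.nN)
  · exact Par.nr_zero P_ok

section
variable {Q : Type} [Group Q] {κ : ℕ → Q}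

theorem evw_one (φ : ℕ → Q) (l : List ℕ) : evw φ (l.map fun i => (i, 1)) = wd φ l := by
  simp [evw, wd, Function.comp_def]

theorem ev_mod (ht : ∀ k, P.n ≤ k → k < P.N → κ k = 1) (x : ℕ) :
    P.ev κ x = P.evR κ 0 113 (x % 2 ^ 113) := by
  rw [Par.ev_split (k := 113) P_ok.nN.le, Par.evR_eq_one (a := 113), mul_one]
  · refine Par.evR_congr fun i _ hi => ?_
    have := dig_mod P_ok.hB x 113 i
    rw [if_pos (by omega)] at this
    exact this.symm
  · intro i h1 h2
    have := P_ok.nN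
    exact Or.inr (ht i h1 (by change (113 : ℕ) < P.N at this; omega))

theorem chk_ok (hc : P.Ctx κ 0) (ht : ∀ k, P.n ≤ k → k < P.N → κ k = 1) {f g : ℕ → ℕ}
    (hf : ∀ i, P.Nr (f i)) (hg : ∀ i, P.Nr (g i)) {l l' : List ℕ} (h : chk f g l l' = true) :
    wd (fun i => P.ev κ (f i)) l = wd (fun i => P.ev κ (g i)) l' := by
  obtain ⟨h1, h⟩ := bind_eq h
  obtain ⟨h2, h⟩ := bind_eq h
  have h3 := Nat.eq_of_beq_eq_true h
  have a1 := (Par.mulW_ok P_ok hc f hf (l.map fun i => (i, 1))
    (Or.inr ⟨Par.nr_zero P_ok, Par.ev_zero⟩)).resolve_left h1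
  have a2 := (Par.mulW_ok P_ok hc g hg (l'.map fun i => (i, 1))
    (Or.inr ⟨Par.nr_zero P_ok, Par.ev_zero⟩)).resolve_left h2
  rw [one_mul, evw_one] at a1 a2
  rw [← a1.2, ← a2.2, ev_mod ht, ev_mod ht]
  exact congrArg _ h3

theorem eq_cm {x y z : Q} (h : y * (x * z) = x * y) : z = cm x y := by
  rw [cm, mul_assoc, mul_assoc, ← h]; simp

end

theorem c0 : chk wf P.let1 [0] [0] = true := by decide +kernel
theorem c2 : chk wf P.let1 [2] [62, 72, 78, 92, 94, 97, 101, 104, 108, 111, 112] = true := by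
  decide +kernel
theorem c3 : chk wf P.let1 [3] [64, 72, 81, 84, 86, 89, 94, 97, 101, 102, 104, 112] = true := by
  decide +kernel
theorem c4 : chk wf P.let1 [4] [67, 86, 89, 96, 97, 98, 101, 104, 105, 106, 107, 109, 110, 111] =
    true := by decide +kernel
theorem c1 : chk wf P.let1 [1] [1] = true := by decide +kernel
theorem c10 : chk wf P.let1 [10] [103, 106] = true := by decide +kernel
theorem c5 : chk wf wf [0, 2, 5] [2, 0] = true := by decide +kernel
theorem c6 : chk wf wf [0, 5, 6] [5, 0] = true := by decide +kernel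
theorem c7 : chk wf wf [0, 3, 7] [3, 0] = true := by decide +kernel
theorem c9 : chk wf wf [0, 8, 9] [8, 0] = true := by decide +kernel
theorem d1 : chk wf wf [0, 4] [4, 0] = true := by decide +kernel
theorem d2 : chk wf wf [1, 4] [4, 1] = true := by decide +kernel
theorem d3 : chk wf wf [2, 2] [10] = true := by decide +kernel
theorem d4 : chk wf wf [3, 3] [10] = true := by decide +kernel
theorem d5 : chk wf wf [4, 4] [10] = true := by decide +kernel
theorem d6 : chk wf wf [10, 10] [] = true := by decide +kernel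
theorem d7 : chk wf wf [6, 7, 9] [10] = true := by decide +kernel
theorem d8 : chk P.let1 P.let1 [78, 74, 112] [74, 78] = true := by decide +kernel
theorem d9 : P.B ^ 49 ∣ C.ms.getD 11 0 := by decide +kernel
theorem w74 : ∀ i < 74, P.w i < 21 := by decide +kernel
theorem w112 : ∀ i < 112, P.w i < 44 := by decide +kernel
theorem w49 : ∀ i < 113, 49 ≤ i → 11 ≤ wt i := by decide +kernel

variable {Γ : Type} [Group Γ] {a b z : Γ}

theorem mem_of_mk {k : ℕ} (hk : k ≤ 45) {g g' : Γ} (hg : g' ∈ lam 2 Γ k)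
    (h : (QuotientGroup.mk g : Γ ⧸ lam 2 Γ 45) = QuotientGroup.mk g') : g ∈ lam 2 Γ k := by
  have := mul_mem hg (lam_anti hk (QuotientGroup.eq.1 h.symm))
  simpa using this

theorem extra (h : D2.Hyp (lamS 2 Γ) a b z) : Extra a b z := by
  obtain ⟨hc, ht⟩ := Par.final_ctx P_ok P_match T1_ok C_ok h
  have hcon := Par.concl_of_ctx P_ok P_match h.gen hc ht
  have hnf : ∀ j, 1 ≤ j → ∀ g ∈ lam 2 Γ j, ∃ e : ℕ → ℕ, (∀ i, e i < 2) ∧
      (∀ i, P.w i < j → e i = 0) ∧ (nfw a b e)⁻¹ * g ∈ lam 2 Γ 45 := fun j hj g hg =>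
    Par.normal_form P_ok P_match h.gen hc ht j
      (lam_le_of_series (p := 2) _ hcon.one hcon.comm hcon.pow hj hg)
  have hm := (Par.ev_ms P_ok P_match C_ok h le_rfl hc 11).2
  let π : Γ →* Γ ⧸ lam 2 Γ 45 := QuotientGroup.mk' _
  let κ : ℕ → Γ ⧸ lam 2 Γ 45 := P.kq D2 (lamS 2 Γ) a b (P.c + 1)
  have hκ : ∀ i < 113, κ i = π (D2.k a b i) := fun i hi => by
    change QuotientGroup.mk (P.kh D2 a b i) = _
    rw [Par.kh, if_pos (show i < P.n from hi)]; rfl
  have hl : (fun i => P.ev κ (P.let1 i)) = fun i => π (D2.k a b i) := by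
    funext i
    rw [let1_eq]
    split_ifs with hi
    · rw [Par.ev_pow P_ok (hi.trans P_ok.nN), hκ i hi]
    · rw [Par.ev_zero, Par.k_ge P_match a b (show P.n ≤ i from not_lt.1 hi), map_one]
  have hw : ∀ l, wd (fun i => π (D2.k a b i)) l = π (wd (D2.k a b) l) := fun l => by
    simp only [wd, map_list_prod, List.map_map, Function.comp_def]
  have hc' : P.Ctx κ 0 := hc
  have ht' : ∀ k, P.n ≤ k → k < P.N → κ k = 1 := ht
  have A := fun {l l'} (e : chk wf P.let1 l l' = true) => chk_ok hc' ht' wf_nr let1_nr e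
  have B := fun {l l'} (e : chk wf wf l l' = true) => chk_ok hc' ht' wf_nr wf_nr e
  have e0 := A c0
  have e1 := A c1
  have e2 := A c2
  have e3 := A c3
  have e4 := A c4
  have e10 := A c10
  have f8 := chk_ok hc' ht' let1_nr let1_nr d8
  rw [hl, hw] at e0 e1 e2 e3 e4 e10
  rw [hl] at f8
  have e8 : P.ev κ (wf 8) = π (mu D2.md a b z 11) := hm
  have e5 := B c5
  have e6 := B c6
  have e7 := B c7
  have e9 := B c9
  have f1 := B d1
  have f2 := B d2
  have f3 := B d3
  have f4 := B d4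
  have f5 := B d5
  have f6 := B d6
  have f7 := B d7
  change _ = π (v62 a b) at e2
  change _ = π (v64 a b) at e3
  change _ = π (v67 a b) at e4
  simp only [wd, List.map_cons, List.map_nil, List.prod_cons, List.prod_nil, mul_one,
    Par.k_zero, Par.k_one] at e0 e1 e2 e3 e4 e5 e6 e7 e9 e10 f1 f2 f3 f4 f5 f6 f7 f8
  have e5' := eq_cm e5
  have e6' := eq_cm e6
  have e7' := eq_cm e7
  have e9' := eq_cm e9
  have f8' := eq_cm f8
  rw [e6', e7', e9', e5'] at f7
  simp only [e0, e1, e2, e3, e4, e8, e10] at f1 f2 f3 f4 f5 f6 f7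
  have one : ∀ {g : Γ}, π g = 1 → g ∈ lam 2 Γ 45 := fun hg => (QuotientGroup.eq_one_iff _).1 hg
  have c21 : D2.k a b 103 * D2.k a b 106 ∈ lam 2 Γ 21 :=
    mul_mem (lam_anti (by decide) (kmem a b (i := 103) (by omega)))
      (lam_anti (by decide) (kmem a b (i := 106) (by omega)))
  refine ⟨fun g hg => ?_, fun g hg => ?_, one ?_, one ?_, mem_of_mk (by omega) c21 ?_,
    mem_of_mk (by omega) c21 ?_, one ?_, one ?_, one ?_, one ?_, wd_mem a b _ _ (by decide),
    wd_mem a b _ _ (by decide), wd_mem a b _ _ (by decide), ?_⟩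
  · obtain ⟨e, h1, h2, h3⟩ := hnf 21 (by omega) g hg
    exact ⟨e, h1, fun i hi => h2 i (w74 i hi), h3⟩
  · obtain ⟨e, -, h2, h3⟩ := hnf 44 (by omega) g hg
    have e1 : nfw a b e = D2.k a b 112 ^ e 112 := by
      rw [nfw, List.range_succ, List.map_append, List.prod_append, List.prod_eq_one, one_mul]
      · simp
      · intro x hx
        obtain ⟨i, hi, rfl⟩ := List.mem_map.1 hx
        rw [h2 i (w112 i (List.mem_range.1 hi)), pow_zero]
    rw [e1] at h3
    have := mul_mem (Subgroup.mem_sup_left (T := lam 2 Γ 45)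
      (Subgroup.npow_mem_zpowers (D2.k a b 112) (e 112))) (Subgroup.mem_sup_right h3)
    simpa using this
  · rw [map_cm, cm_eq_one_iff]; exact f1.symm
  · rw [map_cm, cm_eq_one_iff]; exact f2.symm
  · change π _ = π _
    rw [map_pow, pow_two, f3]
  · change π _ = π _
    rw [map_pow, pow_two, f4]
  · rw [map_mul, map_inv, map_pow, pow_two, f5, inv_mul_cancel]
  · rw [map_pow, show (4 : ℕ) = 2 * 2 from rfl, pow_mul, pow_two, pow_two, f5, f6]
  · rw [map_mul, map_inv, map_pow, pow_two, f5, inv_mul_eq_one, ← f7]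
    simp only [map_mul, map_cm, mul_assoc]
  · rw [map_mul, map_inv, map_cm, f8', inv_mul_cancel]
  · have h1 : P.ev κ (wf 8) ∈ (lam 2 Γ 11).map π := by
      refine Par.evR_mem _ fun i _ hi => ?_
      rcases lt_or_ge i 49 with h2 | h2
      · exact Or.inl ((dvd_iff_dig P_ok.hB _ 49).1 d9 i h2)
      rcases lt_or_ge i 113 with h3 | h3
      · exact Or.inr ⟨_, lam_anti (w49 i h3 h2) (kmem a b h3), (hκ i h3).symm⟩
      · refine Or.inr ?_
        rw [show κ i = 1 from ht i h3 (by omega)]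
        exact one_mem _
    obtain ⟨g, hg, e⟩ := h1
    exact mem_of_mk (by omega) hg (e8.symm.trans e.symm)

end Cert

theorem blk_KMem : St_KMem := fun _ _ a b _ hi => Cert.kmem a b hi

theorem blk_Cert : St_Cert := fun _ _ _ _ _ h => Cert.extra h

end Pool.Agent.Lib.MP_0813d1_al.Two
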