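import Pool.Agent.Lib.MP_0813d1_al.TwoCM

/-! The finite facts about the untwisted group modulo `w ^ 11`, first part. -/

namespace Pool.Agent.Lib.MP_0813d1_al.Two

open PC CM

namespace F1a

/-- right multiplication by the images of the letters of a word -/
noncomputable def run {α : Type} (f : α → ℕ) (l : List α) : ℕ → ℕ :=
  List.rec (motive := fun _ => ℕ → ℕ) (fun c => c) (fun a _ ih c => frc (gm c (f a)) ih) l

theorem sim_run {α : Type} {f : α → ℕ} {F : α → Pg (Tr 2 11)} (l : List α)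
    (h : ∀ a ∈ l, Sim (f a) (F a)) {c : ℕ} {g : Pg (Tr 2 11)} (hc : Sim c g) :
    Sim (run f l c) (g * (l.map F).prod) := by
  induction l generalizing c g with
  | nil => exact (mul_one g).symm ▸ hc
  | cons a l ih =>
    change Sim (frc (gm c (f a)) (run f l)) _
    rw [frc_eq, List.map_cons, List.prod_cons, ← mul_assoc]
    exact ih (fun b hb => h b (List.mem_cons_of_mem _ hb)) (hc.mul (h a List.mem_cons_self))

/-- all letters are generators of weight at least `k` -/
def ok (k : ℕ) (l : List ℕ) : Bool := l.all fun i => Nat.blt i 113 && Nat.ble k (wt i)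

noncomputable def wc (l : List ℕ) : ℕ := run kt l cOne

theorem sim_wc {k : ℕ} {l : List ℕ} (h : ok k l = true) :
    Sim (wc l) (wd (D2.k (aP 11) (bP 11)) l) ∧
      wd (D2.k (aP 11) (bP 11)) l ∈ Kq (aP 11) (bP 11) k := by
  simp only [ok, List.all_eq_true, Bool.and_eq_true, Nat.blt_eq, Nat.ble_eq] at h
  have h1 := sim_run l (fun i hi => sim_kt (h i hi).1) sim_one
  rw [one_mul] at h1
  refine ⟨h1, Subgroup.list_prod_mem _ fun g hg => ?_⟩
  obtain ⟨i, hi, rfl⟩ := List.mem_map.1 hg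
  exact Subgroup.subset_closure ⟨i, (h i hi).1, (h i hi).2, rfl⟩

theorem lead_of {j k : ℕ} {l : List ℕ} {X : su} (h : (ok k l && chkP j (wc l) X) = true) :
    ∃ g ∈ Kq (aP 11) (bP 11) k, PLead j g X := by
  obtain ⟨h1, h2⟩ := Bool.and_eq_true_iff.1 h
  exact ⟨_, (sim_wc h1).2, (sim_wc h1).1.lead h2⟩

theorem lev_of {j k n : ℕ} {l : List ℕ} (h : (ok k l && chkL j (gm (gi (wc l)) (cE n))) = true) :
    ∃ g ∈ Kq (aP 11) (bP 11) k, Lev j (g⁻¹ * eP (wv 2 11 ^ n)) := by
  obtain ⟨h1, h2⟩ := Bool.and_eq_true_iff.1 h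
  exact ⟨_, (sim_wc h1).2, ((sim_wc h1).1.inv.mul (sim_E n)).lev h2⟩

noncomputable def chkC (c : ℕ) (l : List (ℕ × ℕ)) : Bool :=
  (l.all fun q => Nat.blt q.1 113 && Nat.blt q.2 113 && Nat.ble 45 (wt q.1 + wt q.2)) &&
    Nat.beq (run (fun q => gc (kt q.1) (kt q.2)) l c) cOne

theorem cor_of {c : ℕ} {g : Pg (Tr 2 11)} (hc : Sim c g) {l : List (ℕ × ℕ)}
    (h : chkC c l = true) : g ∈ Cq (aP 11) (bP 11) := by
  simp only [chkC, List.all_eq_true, Bool.and_eq_true, Nat.blt_eq, Nat.ble_eq, Nat.beq_eq] at h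
  have h1 := sim_run (f := fun q => gc (kt q.1) (kt q.2))
    (F := fun q => cm (D2.k (aP 11) (bP 11) q.1) (D2.k (aP 11) (bP 11) q.2)) l
    (fun q hq => by
      have h2 := (sim_kt (h.1 q hq).1.1).cm (sim_kt (h.1 q hq).1.2)
      exact h2) hc
  rw [h.2] at h1
  rw [eq_inv_of_mul_eq_one_left (h1.eq sim_one)]
  refine inv_mem (Subgroup.list_prod_mem _ fun x hx => ?_)
  obtain ⟨q, hq, rfl⟩ := List.mem_map.1 hx
  exact Subgroup.subset_closure ⟨q.1, q.2, (h.1 q hq).1.1, (h.1 q hq).1.2, (h.1 q hq).2, rfl⟩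

theorem evw_eq {Γ : Type} [Group Γ] (κ : ℕ → Γ) {w : List (ℕ × ℕ)} (h : ∀ q ∈ w, q.2 = 1) :
    evw κ w = wd κ (w.map Prod.fst) := by
  rw [evw, wd, List.map_map]
  exact congrArg _ (List.map_congr_left fun q hq => by simp [h q hq])

def spW : ℕ → Fin 8 → List ℕ
  | 2 => ![[38], [9, 10, 12, 15, 22, 14, 15, 18, 22], [34], [31, 34], [17, 26, 34],
      [14, 15, 18, 22, 38], [26, 34, 38], [22, 34]]
  | 3 => ![[61], [25, 26, 38, 43, 47, 33, 34, 55], [55], [50, 61], [39], [33, 34, 55], [47],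
      [43, 47, 61]]
  | 4 => ![[77], [46, 47, 50, 72], [76], [74, 77], [60], [54, 55, 72], [72], [66, 76]]
  | 5 => ![[85], [71, 72, 74, 81], [84], [82, 85], [78], [75, 76, 81], [81], [79, 81, 85]]
  | _ => ![[93], [80, 81, 82, 89], [92], [90, 93], [86], [83, 84, 89], [89], [87, 89, 93]]

theorem chk_sp : ∀ q ∈ spL, ∀ i, (ok q.2 (spW q.1 i) && chkP q.1 (wc (spW q.1 i)) (sB i)) = true := by
  decide +kernel

theorem up9 : Up9 (D2.k (aP 11) (bP 11) 112) := by
  have h := sim_kt (i := 112) (by norm_num)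
  have h1 : ∀ i j : Fin 3, j < i → ent (kt 112) (6 * i + 2 * j) &&& Mk 10 = 0 ∧
      ent (kt 112) (6 * i + 2 * j + 1) &&& Mk 10 = 0 := by decide +kernel
  refine ⟨h.lev (by decide +kernel), fun i j hij => ?_⟩
  rw [h.1]
  exact ⟨dec_mem (h1 i j hij).1, dec_mem (h1 i j hij).2⟩

end F1a

open F1a in
theorem blk_PF : PFacts where
  sp q hq i := lead_of (chk_sp q hq i)
  cor g hg := by
    simp only [List.mem_cons, List.not_mem_nil, or_false] at hg
    rcases hg with rfl | rfl | rfl | rfl | rfl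
    · exact cor_of (sim_wc (k := 0) (by decide +kernel)).1 (l := [(106, 10), (107, 8), (108, 4)])
        (by decide +kernel)
    · exact cor_of (sim_wc (k := 0) (by decide +kernel)).1
        (l := [(104, 11), (105, 9), (106, 10), (107, 7), (108, 4), (111, 2), (112, 1)])
        (by decide +kernel)
    · exact cor_of (sim_wc (k := 0) (by decide +kernel)).1
        (l := [(103, 11), (104, 11), (105, 9), (106, 9), (107, 8), (111, 2), (112, 1)])
        (by decide +kernel)
    · rw [w1, evw_eq _ (by decide +kernel)]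
      exact cor_of (sim_wc (k := 0) (by decide +kernel)).1
        (l := [(103, 11), (105, 9), (106, 9), (107, 7), (109, 4), (111, 2), (112, 1)])
        (by decide +kernel)
    · rw [w2, evw_eq _ (by decide +kernel), pow_two (bP 11)]
      have h := (sim_wc (k := 0) (l := D2.s2.map Prod.fst) (by decide +kernel)).1.inv.mul
        (sim_B.mul sim_B)
      generalize wd (D2.k (aP 11) (bP 11)) _ = g at h ⊢
      exact cor_of h
        (l := [(103, 11), (104, 11), (106, 9), (107, 8), (109, 4), (112, 1)]) (by decide +kernel)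
  e1 := by
    simpa only [pow_one] using lev_of (l := [18, 22, 17, 26, 34]) (n := 1) (by decide +kernel)
  e2 := lev_of (l := [38, 50, 55, 61]) (by decide +kernel)
  sT := lead_of (l := [7, 9, 13]) (by decide +kernel)
  k74 := (sim_kt (by norm_num)).lev (by decide +kernel)
  k78 := (sim_kt (by norm_num)).lev (by decide +kernel)
  k112 := up9

end Pool.Agent.Lib.MP_0813d1_al.Two
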