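import Pool.Agent.Lib.MP_0813d1_al.TwoApi
import Pool.Agent.Lib.MP_0813d1_al.TwoCM

/-! Independence of the generators `74, ..., 111` modulo the level nine Borel type subgroup. -/

namespace Pool.Agent.Lib.MP_0813d1_al.Two

open PC

namespace F1b

variable {N : ℕ}

theorem mul_sub {g h : Pg (Tr 2 N)} (hg : g.e = false) :
    (g * h).m - 1 = (g.m - 1) + (h.m - 1) + (g.m - 1) * (h.m - 1) := by
  rw [mul_m_of_false hg]; noncomm_ring

/-- on a congruence subgroup a functional that kills twice the level is additive -/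
theorem add_prod {a : ℕ} (f : M3 (Bq (Tr 2 N)) →+ ZMod 2) (hf : ∀ X, InM (a + a) X → f X = 0)
    (κ : ℕ → Pg (Tr 2 N)) (e : ℕ → ℕ) (he : ∀ i, e i < 2) (l : List ℕ)
    (hl : ∀ i ∈ l, e i = 0 ∨ Lev a (κ i)) :
    Lev a (l.map fun i => κ i ^ e i).prod ∧
      f ((l.map fun i => κ i ^ e i).prod.m - 1) =
        (l.map fun i => (e i : ZMod 2) * f ((κ i).m - 1)).sum := by
  induction l with
  | nil => exact ⟨lev_one a, by simp [Pg.one_m]⟩
  | cons i l ih =>
    obtain ⟨h1, h2⟩ := ih fun j hj => hl j (by simp [hj])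
    simp only [List.map_cons, List.prod_cons, List.sum_cons]
    by_cases h0 : e i = 0
    · rw [h0, pow_zero, one_mul, Nat.cast_zero, zero_mul, zero_add]; exact ⟨h1, h2⟩
    · have h3 := (hl i (by simp)).resolve_left h0
      have h4 : e i = 1 := by have := he i; omega
      rw [h4, pow_one, mul_sub h3.1, map_add, map_add, hf _ (h3.2.mul h1.2), h2]
      exact ⟨h3.mul h1, by simp⟩

/-- real or imaginary part of an entry -/
noncomputable def ent (q r : ℕ) : M3 (Bq (Tr 2 N)) →+ Tr 2 N where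
  toFun X := if r = 0 then (X (Fin.ofNat 3 (q / 3)) (Fin.ofNat 3 q)).re
    else (X (Fin.ofNat 3 (q / 3)) (Fin.ofNat 3 q)).im
  map_zero' := by simp
  map_add' X Y := by split_ifs <;> rfl

theorem ent_mem {k q r : ℕ} {X : M3 (Bq (Tr 2 N))}
    (h : InB k (X (Fin.ofNat 3 (q / 3)) (Fin.ofNat 3 q))) : ent q r X ∈ Iw 2 N k := by
  unfold ent
  simp only [AddMonoidHom.coe_mk, ZeroHom.coe_mk]
  split_ifs
  exacts [h.1, h.2]

/-- the functional with code list `L`; the code `100 q + 10 r + d` stands for the coefficient of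
degree `d` of part `r` of entry `q` -/
noncomputable def fn (co : ℕ → Tr 2 N →+ ZMod 2) (L : List ℕ) : M3 (Bq (Tr 2 N)) →+ ZMod 2 :=
  (L.map fun c => (co (c % 10)).comp (ent (c / 100) (c / 10 % 10))).sum

theorem fn_apply (co : ℕ → Tr 2 N →+ ZMod 2) (L : List ℕ) (X : M3 (Bq (Tr 2 N))) :
    fn co L X = (L.map fun c => co (c % 10) (ent (c / 100) (c / 10 % 10) X)).sum := by
  induction L with
  | nil => rfl
  | cons c L ih => simp only [fn, List.map_cons, List.sum_cons] at ih ⊢; rw [← ih]; rfl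

theorem fn_zero {co : ℕ → Tr 2 N →+ ZMod 2} {L : List ℕ} {X : M3 (Bq (Tr 2 N))}
    (h : ∀ c ∈ L, co (c % 10) (ent (c / 100) (c / 10 % 10) X) = 0) : fn co L X = 0 := by
  rw [fn_apply]
  exact List.sum_eq_zero fun x hx => by
    obtain ⟨c, hc, rfl⟩ := List.mem_map.1 hx
    exact h c hc

/-- the functionals dual to the generators `74, ..., 111` -/
def FL : List (List ℕ) :=
  [[114], [104, 315], [315], [114, 204], [305], [15], [5, 15, 606], [606], [5, 15, 115, 606],
  [105, 316], [316], [15, 115, 205], [305, 306], [15, 16], [5, 6, 15, 16, 606, 607], [316, 607],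
  [5, 6, 15, 16, 115, 116, 606, 607], [105, 106, 316, 317], [316, 317], [15, 16, 115, 116, 205,
  206], [305, 306, 307], [15, 16, 17], [5, 6, 7, 15, 16, 17, 606, 607, 608], [317, 606, 608], [5,
  6, 7, 15, 16, 17, 115, 116, 117, 606, 607, 608], [105, 106, 107, 316, 317, 318], [305, 316, 317,
  318], [16, 17, 115, 116, 117, 205, 206, 207], [15, 305, 306, 307, 308], [], [5, 15, 16, 17, 18,
  606], [5, 6, 7, 8, 16, 17, 18, 115, 606, 607, 608, 609], [316, 318, 607, 609], [5, 6, 7, 8, 16,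
  17, 18, 105, 116, 117, 118, 316, 606, 607, 608, 609], [15, 106, 107, 108, 205, 317, 318, 319],
  [15, 306, 316, 317, 318, 319], [17, 18, 105, 115, 116, 117, 118, 206, 207, 208, 305, 316], [5,
  15, 16, 305, 307, 308, 309, 316, 606]]

def Ft (t : ℕ) : List ℕ := FL.getD (t - 74) []

theorem deg1 : ∀ t < 78, ∀ c ∈ Ft t, c % 10 < 8 := by decide +kernel

theorem deg2 : ∀ t < 112, ∀ c ∈ Ft t,
    c % 10 < 9 ∨ Fin.ofNat 3 (c / 100) < Fin.ofNat 3 (c / 100 / 3) := by
  decide +kernel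

theorem sum_range (e : ℕ → ℕ) (v : ℕ → ZMod 2) (s : Finset ℕ) (hs : ∀ i ∈ s, i < 113)
    (h : ∀ i < 113, e i = 0 ∨ v i = if i ∈ s then 1 else 0) :
    ((List.range 113).map fun i => (e i : ZMod 2) * v i).sum = ∑ i ∈ s, (e i : ZMod 2) := by
  change ∑ i ∈ Finset.range 113, (e i : ZMod 2) * v i = _
  rw [← Finset.sum_subset (s₁ := s) (fun i hi => Finset.mem_range.2 (hs i hi))]
  · refine Finset.sum_congr rfl fun i hi => ?_
    rcases h i (hs i hi) with h0 | h0 <;> simp [h0, hi]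
  · intro i hi hi'
    rcases h i (Finset.mem_range.1 hi) with h0 | h0 <;> simp [h0, hi']

theorem ind_of (co : ℕ → Tr 2 11 →+ ZMod 2)
    (hco : ∀ d k x, d < k → k ≤ 11 → x ∈ Iw 2 11 k → co d x = 0) (a b : Pg (Tr 2 11))
    (l4 : ∀ i, 74 ≤ i → i < 113 → Lev 4 (D2.k a b i))
    (l5 : ∀ i, 78 ≤ i → i < 113 → Lev 5 (D2.k a b i))
    (c4 : ∀ t, 74 ≤ t → t < 78 → ∀ i, 74 ≤ i → i < 113 →
      fn co (Ft t) ((D2.k a b i).m - 1) = if i = t then 1 else 0)
    (c5 : ∀ t, 78 ≤ t → t < 112 → t ≠ 103 → ∀ i, 78 ≤ i → i < 113 →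
      fn co (Ft t) ((D2.k a b i).m - 1) = if i = t ∨ (t = 106 ∧ i = 103) then 1 else 0) :
    Ind a b Up9 := by
  intro e he h74 hT
  have par : ∀ i, (e i : ZMod 2) = 0 → e i = 0 := by
    intro i hi
    have := he i
    have := (ZMod.natCast_eq_zero_iff _ _).1 hi
    omega
  have up : ∀ t < 112, fn co (Ft t) ((nfw a b e).m - 1) = 0 := fun t ht => fn_zero fun c hc => by
    rcases deg2 t ht c hc with h | h
    · exact hco _ 9 _ h (by omega) (ent_mem (hT.1.2 _ _))
    · refine hco _ 10 _ (Nat.mod_lt _ (by omega)) (by omega) (ent_mem ?_)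
      rw [Matrix.sub_apply, Matrix.one_apply_ne h.ne', sub_zero]
      exact hT.2 _ _ h
  have h78 : ∀ i < 78, e i = 0 := by
    intro t ht
    by_cases h : t < 74
    · exact h74 t h
    have := (add_prod (a := 4) (fn co (Ft t)) (fun X hX => fn_zero fun c hc =>
      hco _ 8 _ (deg1 t ht c hc) (by omega) (ent_mem (hX _ _))) (D2.k a b) e he (List.range 113) fun i hi =>
        (lt_or_ge i 74).imp (h74 i) fun h => l4 i h (List.mem_range.1 hi)).2
    rw [sum_range e _ {t} (by simp; omega) fun i hi => (lt_or_ge i 74).imp (h74 i) fun h' => by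
      simpa using c4 t (by omega) ht i h' hi] at this
    exact par t (by simpa using this.symm.trans (up t (by omega)))
  have key : ∀ t, 78 ≤ t → t < 112 → ∀ s : Finset ℕ, (∀ i ∈ s, i < 113) →
      (∀ i, 78 ≤ i → i < 113 → fn co (Ft t) ((D2.k a b i).m - 1) = if i ∈ s then 1 else 0) →
      ∑ i ∈ s, (e i : ZMod 2) = 0 := by
    intro t h1 h2 s hs hv
    have := (add_prod (a := 5) (fn co (Ft t)) (fun X hX => fn_zero fun c hc =>
      hco _ 10 _ (Nat.mod_lt _ (by omega)) (by omega) (ent_mem (hX _ _))) (D2.k a b) e he (List.range 113)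
        fun i hi => (lt_or_ge i 78).imp (h78 i) fun h => l5 i h (List.mem_range.1 hi)).2
    rw [sum_range e _ s hs fun i hi => (lt_or_ge i 78).imp (h78 i) fun h' => hv i h' hi] at this
    exact this.symm.trans (up t h2)
  refine ⟨fun t h1 h2 h3 => ?_, ?_⟩
  · by_cases h : t < 78
    · exact h78 t h
    have := key t (by omega) h1 {t} (by simp; omega) fun i a1 a2 => by
      simpa [h3] using c5 t (by omega) h1 h2 i a1 a2
    exact par t (by simpa using this)
  · have := key 106 (by omega) (by omega) {106, 103} (by simp) fun i a1 a2 => by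
      simpa using c5 106 (by omega) (by omega) (by omega) i a1 a2
    rw [Finset.sum_pair (by omega), ← Nat.cast_add, ZMod.natCast_eq_zero_iff] at this
    have := he 103
    have := he 106
    omega

theorem ent_mat {q r : ℕ} (hq : q < 9) (hr : r < 2) (x : ℕ) :
    ent q r (CM.mat x) = CM.dec (CM.ent x (2 * q + r)) := by
  have h1 : 6 * (q / 3 % 3) + 2 * (q % 3) = 2 * q := by omega
  obtain rfl | rfl : r = 0 ∨ r = 1 := by omega
  · change CM.dec (CM.ent x (6 * (q / 3 % 3) + 2 * (q % 3))) = _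
    rw [h1]; rfl
  · change CM.dec (CM.ent x (6 * (q / 3 % 3) + 2 * (q % 3) + 1)) = _
    rw [h1]

/-- the value of a functional on a code -/
def fv (L : List ℕ) (x : ℕ) : ℕ :=
  (L.map fun c => CM.ent x (2 * (c / 100) + c / 10 % 10) / 256 ^ (c % 10) % 2).sum % 2

theorem rng : ∀ t < 112, ∀ c ∈ Ft t, c / 100 < 9 ∧ c / 10 % 10 < 2 := by decide +kernel

theorem fn_kt {t i : ℕ} (ht : t < 112) (hi : i < 113) :
    fn CM.co (Ft t) ((D2.k (aP 11) (bP 11) i).m - 1) =
      (fv (Ft t) (CM.kt i ^^^ CM.cOne) : ZMod 2) := by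
  rw [(CM.sim_kt hi).1, ← CM.mat_one, CM.m3_sub, ← CM.mat_xor, fn_apply, fv, ZMod.natCast_mod,
    Nat.cast_list_sum, List.map_map]
  refine congrArg _ (List.map_congr_left fun c hc => ?_)
  rw [ent_mat (rng t ht c hc).1 (rng t ht c hc).2,
    CM.co_dec ((Nat.mod_lt _ (by omega)).trans (by omega))]
  rfl

theorem chk_lev : ∀ i < 113, (74 ≤ i → CM.chkL 4 (CM.kt i) = true) ∧
    (78 ≤ i → CM.chkL 5 (CM.kt i) = true) := by decide +kernel

theorem chk4 : ∀ t < 78, 74 ≤ t → ∀ i < 113, 74 ≤ i →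
    fv (Ft t) (CM.kt i ^^^ CM.cOne) = if i = t then 1 else 0 := by decide +kernel

theorem chk5 : ∀ t < 112, 78 ≤ t → t ≠ 103 → ∀ i < 113, 78 ≤ i →
    fv (Ft t) (CM.kt i ^^^ CM.cOne) = if i = t ∨ (t = 106 ∧ i = 103) then 1 else 0 := by
  decide +kernel

end F1b

theorem blk_Ind : St_Ind :=
  F1b.ind_of CM.co (fun _ _ _ h1 h2 h3 => CM.co_of_mem h1 h2 h3) _ _
    (fun i h1 h2 => (CM.sim_kt h2).lev ((F1b.chk_lev i h2).1 h1))
    (fun i h1 h2 => (CM.sim_kt h2).lev ((F1b.chk_lev i h2).2 h1))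
    (fun t h1 h2 i h3 h4 => by
      rw [F1b.fn_kt (by omega) h4, F1b.chk4 t h2 h1 i h4 h3]; split_ifs <;> rfl)
    (fun t h1 h2 h5 i h3 h4 => by
      rw [F1b.fn_kt h2 h4, F1b.chk5 t h2 h1 h5 i h4 h3]; split_ifs <;> rfl)

end Pool.Agent.Lib.MP_0813d1_al.Two
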