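import Mathlib
import Pool.Agent.Lib.MP_0813d1_al.TwoBlue

namespace Pool.Agent.Lib.MP_0813d1_al.Two

open PC

namespace XF

abbrev T : Type := Tr 2 11

/-- the truncated polynomial with the given bits as coefficients -/
noncomputable def dec (x : ℕ) : T := ∑ i ∈ Finset.range 11, if x.testBit i then wv 2 11 ^ i else 0

theorem dec_zero : dec 0 = 0 := by simp [dec]

theorem dec_one : dec 1 = 1 := by
  simp [dec, Finset.sum_range_succ, Nat.testBit_succ]

theorem dec_xor (x y : ℕ) : dec (x ^^^ y) = dec x + dec y := by
  unfold dec
  rw [← Finset.sum_add_distrib]
  refine Finset.sum_congr rfl fun i _ => ?_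
  rw [Nat.testBit_xor]
  cases x.testBit i <;> cases y.testBit i <;> simp [tr_add_self]

theorem dec_mod (x : ℕ) : dec (x % 2048) = dec x := by
  unfold dec
  refine Finset.sum_congr rfl fun i hi => ?_
  have : (x % 2048).testBit i = x.testBit i := by
    rw [show 2048 = 2 ^ 11 by norm_num, Nat.testBit_mod_two_pow]; simp [Finset.mem_range.1 hi]
  rw [this]

theorem dec_two_mul (x : ℕ) : dec (2 * x) = wv 2 11 * dec x := by
  unfold dec
  rw [Finset.sum_range_succ', Finset.sum_range_succ _ 10, mul_add, Finset.mul_sum]
  congr 1
  · refine Finset.sum_congr rfl fun i _ => ?_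
    rw [Nat.testBit_succ, Nat.mul_div_cancel_left _ (by norm_num)]
    split_ifs
    · ring
    · simp
  · have : wv 2 11 * wv 2 11 ^ 10 = 0 := by rw [← pow_succ', wv_pow_self]
    split_ifs with h1 h2 h2
    · simp [Nat.testBit_zero] at h1
    · simp [Nat.testBit_zero] at h1
    · exact this.symm
    · simp

theorem dec_shift (s x : ℕ) : dec (x <<< s) = wv 2 11 ^ s * dec x := by
  induction s with
  | zero => simp
  | succ s ih => rw [Nat.shiftLeft_succ, dec_two_mul, ih]; ring

theorem dec_lead (x : ℕ) : dec x - algebraMap (ZMod 2) T ((x % 2 : ℕ) : ZMod 2) ∈ Iw 2 11 1 := by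
  unfold dec
  rw [Finset.sum_range_succ', add_sub_assoc]
  refine add_mem (sum_mem fun i _ => ?_) ?_
  · split_ifs
    · exact Iw_anti (by omega) (wv_pow_mem_Iw 2 11 _)
    · exact zero_mem _
  · rcases Nat.mod_two_eq_zero_or_one x with h | h <;> simp [Nat.testBit_zero, h]

/-- coordinate number `q` of a packed matrix -/
def fld (x q : ℕ) : ℕ := (x >>> (11 * q)) % 2048

theorem dec_fld_xor (x y q : ℕ) : dec (fld (x ^^^ y) q) = dec (fld x q) + dec (fld y q) := by
  unfold fld
  rw [dec_mod, dec_mod, dec_mod, Nat.shiftRight_xor_distrib, dec_xor]

/-- the matrix with the given coordinates -/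
def mat {A : Type} [CommRing A] (c : ℕ → A) : M3 (Bq A) :=
  Matrix.of fun i j => ⟨c (2 * (3 * i.val + j.val)), c (2 * (3 * i.val + j.val) + 1)⟩

noncomputable def decM (x : ℕ) : M3 (Bq T) := mat fun q => dec (fld x q)

theorem decM_zero : decM 0 = 0 := by
  ext i j <;> simp [decM, mat, fld, dec_zero]

theorem decM_xor (x y : ℕ) : decM (x ^^^ y) = decM x + decM y := by
  ext i j <;> simp [decM, mat, dec_fld_xor]

/-- value of a linear form -/
def lf {A : Type} [CommRing A] (w : A) (c : ℕ → A) (l : List (ℕ × ℕ)) : A :=
  (l.map fun t => w ^ t.2 * c t.1).sum

def lfN (x : ℕ) (l : List (ℕ × ℕ)) : ℕ := l.foldr (fun t s => (fld x t.1 <<< t.2) ^^^ s) 0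

theorem dec_lfN (x : ℕ) (l : List (ℕ × ℕ)) :
    dec (lfN x l) = lf (wv 2 11) (fun q => dec (fld x q)) l := by
  induction l with
  | nil => exact dec_zero
  | cons t l ih =>
    have : lfN x (t :: l) = (fld x t.1 <<< t.2) ^^^ lfN x l := rfl
    rw [this, dec_xor, ih, dec_shift]
    simp [lf]

def LA : List (List (ℕ × ℕ)) :=
  [[(1, 0), (6, 0), (13, 0)], [(6, 0), (7, 0), (12, 0)], [(0, 0), (3, 0), (7, 0), (8, 0), (12,
    0), (13, 0), (15, 0)], [(0, 0), (1, 0), (6, 0), (8, 0), (9, 0), (13, 0), (14, 0)], [(0, 0),
    (3, 0), (5, 0), (7, 0), (8, 0), (9, 0), (10, 0), (12, 0), (13, 0), (14, 0), (17, 0)], [(0,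
    0), (1, 0), (2, 0), (6, 0), (9, 0), (10, 0), (11, 0), (13, 0), (14, 0), (15, 0), (16, 0)],
    [(7, 0), (13, 0)], [(12, 0)], [(6, 0), (9, 0), (12, 0), (13, 0), (15, 0)], [(6, 0), (7, 0),
    (13, 0), (14, 0)], [(6, 0), (9, 0), (11, 0), (12, 0), (13, 0), (14, 0), (17, 0)], [(6, 0),
    (7, 0), (8, 0), (13, 0), (14, 0), (15, 0), (16, 0)], [(13, 0)], [], [(12, 0), (15, 0)],
    [(12, 0), (13, 0)], [(12, 0), (15, 0), (17, 0)], [(12, 0), (13, 0), (14, 0)]]

def LB : List (List (ℕ × ℕ)) :=
  [[(1, 0), (4, 1), (5, 1)], [(5, 1)], [(3, 0)], [], [(5, 0)], [], [(7, 0), (10, 1), (11, 1)],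
    [(11, 1)], [(9, 0)], [], [(11, 0)], [], [(0, 1), (1, 1), (4, 2), (5, 2), (13, 0), (16, 1),
    (17, 1)], [(1, 1), (5, 2), (17, 1)], [(2, 1), (3, 1), (15, 0)], [(3, 1)], [(4, 1), (5, 1),
    (17, 0)], [(5, 1)]]

theorem two_zero : (2 : T) = 0 := by rw [← one_add_one_eq_two, tr_add_self]

theorem xc_a (c : ℕ → T) : xc (aP 11) (mat c) = mat fun q => lf (wv 2 11) c (LA.getD q []) := by
  have h2 := two_zero
  ext i j <;> fin_cases i <;> fin_cases j <;>
    simp [xc, aP, mat, lf, LA, adj_apply, Matrix.mul_apply, Fin.sum_univ_three, om, Fin.rev,
      QuadraticAlgebra.re_one, QuadraticAlgebra.im_one] <;> grind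

theorem xc_b (c : ℕ → T) : xc (bP 11) (mat c) = mat fun q => lf (wv 2 11) c (LB.getD q []) := by
  have h2 := two_zero
  ext i j <;> fin_cases i <;> fin_cases j <;>
    simp [xc, bP, fP, mat, lf, LB, adj_apply, Matrix.mul_apply, Fin.sum_univ_three, re, Fin.rev] <;>
    grind

/-- `y` is the image of `x` -/
def chk (b x y : ℕ) : Bool :=
  (List.range 18).all fun q => fld y q == lfN x ((if b = 0 then LA else LB).getD q []) % 2048

theorem chk_sound {b x y : ℕ} (h : chk b x y = true) :
    decM y = xc (gen (aP 11) (bP 11) b) (decM x) := by
  have key : ∀ q < 18, dec (fld y q) =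
      lf (wv 2 11) (fun q => dec (fld x q)) ((if b = 0 then LA else LB).getD q []) := by
    intro q hq
    have := List.all_eq_true.1 h q (List.mem_range.2 hq)
    rw [beq_iff_eq.1 this, dec_mod, dec_lfN]
  have e : xc (gen (aP 11) (bP 11) b) (decM x) = mat fun q =>
      lf (wv 2 11) (fun q => dec (fld x q)) ((if b = 0 then LA else LB).getD q []) := by
    unfold gen decM
    split_ifs
    · exact xc_a _
    · exact xc_b _
  rw [e]
  ext i j
  · exact key _ (by have := i.2; have := j.2; omega)
  · exact key _ (by have := i.2; have := j.2; omega)

def chkAll : List ℕ → List (ℕ × ℕ) → List ℕ → Bool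
  | _, [], [] => true
  | acc, d :: md, y :: rest => chk d.2 (acc.getD d.1 0) y && chkAll (acc ++ [y]) md rest
  | _, _, _ => false

theorem getD_decM (l : List ℕ) (k : ℕ) : (l.map decM).getD k 0 = decM (l.getD k 0) := by
  rw [← decM_zero, List.getD_map]

theorem chkAll_sound : ∀ (md : List (ℕ × ℕ)) (acc rest : List ℕ), chkAll acc md rest = true →
    md.foldl (xstep (aP 11) (bP 11)) (acc.map decM) = (acc ++ rest).map decM
  | [], acc, [], _ => by simp
  | [], _, _ :: _, h => by simp [chkAll] at h
  | _ :: _, _, [], h => by simp [chkAll] at h
  | d :: md, acc, y :: rest, h => by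
    simp only [chkAll, Bool.and_eq_true] at h
    have e : xstep (aP 11) (bP 11) (acc.map decM) d = (acc ++ [y]).map decM := by
      unfold xstep
      rw [getD_decM, ← chk_sound h.1, List.map_append, List.map_singleton]
    rw [List.foldl_cons, e, chkAll_sound md _ rest h.2, List.append_assoc, List.singleton_append]

def x0 : ℕ := 5444517870735015415413993718908291383296

def tab : List ℕ :=
  [196255256993026249595705854853807962091879277120247040000,
    196159429253669736955822233564051467843806482906528876545,
    196255210202137891926174272156315786582803755624703199232,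
    95780971304118053647396689196894323976188787322519553,
    287436450017176005837477587727405383940073885897064451,
    2658455991569831745807631721340862464, 1298074214633706907150216272543744,
    191655478713047063154339428499680231976464874177822722, 17592186044416,
    191561988280184051956992512320601473885014977362788354,
    1177339886433772546127877170349469632885172242155749519362,
    784829278957287183935900639617739323514793502274698092550,
    1341120944498940552684357612467518413039991230388240398,
    785020840808551567710016596756832077236644516005278654464,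
    383123885216472214592182905216844709719020397463076868,
    1149932963622134712107468958728383141478572794209894412,
    10633823966279326983230562069735538688,
    766247861776883874646537661552103555624466001602543624,
    3924721828811755089032035003495682289488609368896327163908,
    3138933991943932263518394724638465994262924670396864167956,
    4215112122346214898539772539137371828596656780922060844,
    3140083363234206270829427370764190447135719288114415435776,
    1532495540865888858363539324008844011247551093506310160,
    3833109756948645929449653345454208138768864581842370600,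
    42535295865117307932922177910197977088,
    3064991264419830832223285870747809542666676190712954912,
    14129611881400350165169192658178336673850277713182013407240,
    12554969720005296109623121692514013098838171197263013085256,
    14561705178085764969763774335084083667260010842426441880,
    12560333452936825083296431450530486064921159037694309957632,
    6129982163463555433443772702318306389733143381333246016,
    13799194832714797879838168402898183700784605137375068304,
    170141183460469231731688570903303553024,
    12259964692303913996167413932070028811004329131457380480,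
    53379896657908060278758875921104561727192791327921463132176,
    50218346384480318549591572357976350638925629820403165167888,
    53649334089744870630264465697405527374786810807182164528,
    50241333811747300333143169737069392812441199921250536259584,
    24519928653854221733754321621839086248418451539948994816,
    52130290940699619843431783653755437094556714169511445024,
    680564733841876926926754002138237501440,
    49039858038464837319218196626437696524692565263040643584,
    207242484896245560351199714261200676972354526262072671535136,
    200870320546839542420564460607745999042848409344314886325280,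
    9242887114874634819516266887464585652385441284186177632,
    200965335246989201332487566818172468355277927225948737896448,
    98079714615416886934975748112488066372645562189028000768,
    6132976780319143353171007911459511290067219824552968256,
    2722258935367507707707015445602996584448, 1461501637330902918203684837438649502525577756672,
    12554203470773361527671578846435139872833278099226361987136,
    6129982163463555603657648318807025708219874595548692544,
    18389946490392756995162526571723229177012930250094411968,
    170224260210205788973744918106814283776, 83076749736557242056487941535956992,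
    12265953560638286703683559831349190834326825519955312768, 1125899906842624,
    2923003274661805836407369674877299005051155513344,
    25108406941546723055343157692870279745666556198452723974272,
    12259964326927111207315296637614051416439749191097385088,
    36779892980785513990325053143446458354025860500188823936,
    340448520420411577947489836213628567552, 166153499473114484112975883071913984,
    24531907121276573407367119662698381668653651039910625536, 2251799813685248,
    5846006549323611672814739349754598010102311026688,
    50216813883093446110686315385740559491333112396905447948544,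
    24519928653854222414630593275228102832879498382194770176,
    73559785961571027980650106286892916708051721000377647872,
    680897040840823155894979672427257135104, 332306998946228968225951766143827968,
    49063814242553146814734239325396763337307302079821251072, 4503599627370496,
    11692013098647223345629478699509196020204622053376,
    100433627766186892221372630771481118982666224793810895897088,
    49039857307708444829261186550456205665758996764389540352,
    147119571923130905588700947262215065556967117820002305536,
    1361794081681646311789959344854514270208, 664613997892457936451903532287655936,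
    98127628485095143256869213339222758815478279978889511936, 9007199254740992,
    23384026197294446691258957399018392040409244106752,
    200867255532373784442745261542962237965332449587621791794176,
    98079714615416889658522373100912411331517993528779080704,
    2723588163363292623579918689709028540416, 1329227995784915872903807064575311872,
    18014398509481984]

theorem tab_ok : chkAll [x0] D2.md tab = true := by decide +kernel

theorem decM_x0 : decM x0 = !![0, 0, 0; 0, 0, 0; 1, 0, 0] := by
  have h : ∀ q < 18, fld x0 q = if q = 12 then 1 else 0 := by decide +kernel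
  ext i j <;> fin_cases i <;> fin_cases j <;>
    simp [decM, mat, h, dec_zero, dec_one, QuadraticAlgebra.re_one, QuadraticAlgebra.im_one]

def mN (k : ℕ) : ℕ := (x0 :: tab).getD k 0

theorem muX_eq (k : ℕ) : muX (aP 11) (bP 11) k = decM (mN k) := by
  have h := chkAll_sound D2.md [x0] tab tab_ok
  rw [List.map_singleton, decM_x0] at h
  unfold muX mN
  rw [h, getD_decM, List.singleton_append]

def sumN (l : List ℕ) : ℕ := l.foldr (fun k s => mN k ^^^ s) 0

theorem sum_muX (l : List ℕ) : (l.map (muX (aP 11) (bP 11))).sum = decM (sumN l) := by
  induction l with
  | nil => exact decM_zero.symm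
  | cons k l ih =>
    have : sumN (k :: l) = mN k ^^^ sumN l := rfl
    rw [this, decM_xor, List.map_cons, List.sum_cons, ih, muX_eq]

theorem rels_ok : (D2.rels.all fun r => (r.2.2.all fun q => q.2 == 1) &&
    chk r.2.1 (mN r.1) (sumN (r.2.2.map Prod.fst))) = true := by decide +kernel

theorem lead_of {y : ℕ} {X : M3 F4} (h : ∀ i j : Fin 3,
    (X i j).re = ((fld y (2 * (3 * i.val + j.val)) % 2 : ℕ) : ZMod 2) ∧
      (X i j).im = ((fld y (2 * (3 * i.val + j.val) + 1) % 2 : ℕ) : ZMod 2)) :
    InM 1 (decM y - cM 11 0 X) := by
  intro i j
  obtain ⟨h1, h2⟩ := h i j
  constructor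
  · have := dec_lead (fld y (2 * (3 * i.val + j.val)))
    rw [← h1] at this
    simpa [decM, mat, cM, re] using this
  · have := dec_lead (fld y (2 * (3 * i.val + j.val) + 1))
    rw [← h2] at this
    simpa [decM, mat, cM, re] using this

def spanL : Fin 8 → List ℕ :=
  ![[9], [0], [8], [6, 7], [2, 3, 4, 9], [1, 3, 6, 7], [4, 9], [3, 6]]

theorem span_ok : ∀ (k : Fin 8) (i j : Fin 3),
    ((sB k).1 i j).re = ((fld (sumN (spanL k)) (2 * (3 * i.val + j.val)) % 2 : ℕ) : ZMod 2) ∧
      ((sB k).1 i j).im =
        ((fld (sumN (spanL k)) (2 * (3 * i.val + j.val) + 1) % 2 : ℕ) : ZMod 2) := by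
  decide +kernel

end XF

open XF in
theorem blk_XF : XFacts where
  rel r hr := by
    have h := List.all_eq_true.1 rels_ok r hr
    rw [Bool.and_eq_true] at h
    rw [muX_eq, ← chk_sound h.2, ← sum_muX, List.map_map]
    refine congrArg List.sum (List.map_congr_left fun q hq => ?_)
    rw [beq_iff_eq.1 (List.all_eq_true.1 h.1 q hq), one_smul, Function.comp_apply]
  span i := ⟨spanL i, by rw [sum_muX]; exact lead_of (span_ok i)⟩

end Pool.Agent.Lib.MP_0813d1_al.Two
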