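import Pool.Agent.Lib.MP_0813d1_al.TwoBlue

/-! The congruence filtration of the twisted group. -/

namespace Pool.Agent.Lib.MP_0813d1_al.Two

open PC

namespace FIL

variable {N : ℕ}

/-- the ideal of elements of level `n` -/
def IB (N n : ℕ) : Ideal (Bq (Tr 2 N)) where
  carrier := {x | InB n x}
  zero_mem' := ⟨zero_mem _, zero_mem _⟩
  add_mem' := fun hx hy => ⟨add_mem hx.1 hy.1, add_mem hx.2 hy.2⟩
  smul_mem' := fun c x hx => by
    refine ⟨?_, ?_⟩
    · simpa using add_mem (Ideal.mul_mem_left _ c.re hx.1) (Ideal.mul_mem_left _ c.im hx.2)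
    · simpa using add_mem (add_mem (Ideal.mul_mem_left _ c.re hx.2)
        (Ideal.mul_mem_left _ c.im hx.1)) (Ideal.mul_mem_left _ c.im hx.2)

theorem ib_mul {m n : ℕ} {x y : Bq (Tr 2 N)} (hx : x ∈ IB N m) (hy : y ∈ IB N n) :
    x * y ∈ IB N (m + n) := by
  refine ⟨?_, ?_⟩
  · simpa using add_mem (mul_mem_Iw hx.1 hy.1) (mul_mem_Iw hx.2 hy.2)
  · simpa using add_mem (add_mem (mul_mem_Iw hx.1 hy.2) (mul_mem_Iw hx.2 hy.1))
      (mul_mem_Iw hx.2 hy.2)

theorem ib_mono {m n : ℕ} (h : m ≤ n) {x : Bq (Tr 2 N)} (hx : x ∈ IB N n) : x ∈ IB N m :=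
  ⟨Iw_anti h hx.1, Iw_anti h hx.2⟩

theorem ib_star {n : ℕ} {x : Bq (Tr 2 N)} (hx : x ∈ IB N n) : star x ∈ IB N n := by
  refine ⟨?_, ?_⟩
  · simpa using add_mem hx.1 hx.2
  · simpa using hx.2

theorem ib_sg {n : ℕ} (e : Bool) {x : Bq (Tr 2 N)} (hx : x ∈ IB N n) : sg _ e x ∈ IB N n := by
  cases e
  · exact hx
  · exact ib_star hx

theorem bq_add_self (x : Bq (Tr 2 N)) : x + x = 0 := by
  ext <;> simp [tr_add_self]

theorem m_add_self (X : M3 (Bq (Tr 2 N))) : X + X = 0 := by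
  ext1 i j; exact bq_add_self _

variable {m n a b : ℕ} {X Y : M3 (Bq (Tr 2 N))}

theorem im_add (hX : InM n X) (hY : InM n Y) : InM n (X + Y) :=
  fun i j => (IB N n).add_mem (hX i j) (hY i j)

theorem im_sub (hX : InM n X) (hY : InM n Y) : InM n (X - Y) :=
  fun i j => (IB N n).sub_mem (hX i j) (hY i j)

theorem im_neg (hX : InM n X) : InM n (-X) := fun i j => (IB N n).neg_mem (hX i j)

theorem im_zero : InM n (0 : M3 (Bq (Tr 2 N))) := fun _ _ => (IB N n).zero_mem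

theorem im_mono (hX : InM n X) (h : m ≤ n) : InM m X := fun i j => ib_mono h (hX i j)

theorem im_mul (hX : InM m X) (hY : InM n Y) : InM (m + n) (X * Y) := fun i j => by
  change (X * Y) i j ∈ IB N (m + n)
  rw [Matrix.mul_apply]
  exact sum_mem fun k _ => ib_mul (hX i k) (hY k j)

theorem im_top (X : M3 (Bq (Tr 2 N))) : InM 0 X := fun _ _ => ⟨mem_Iw_zero _, mem_Iw_zero _⟩

theorem im_mul_left (X : M3 (Bq (Tr 2 N))) (hY : InM n Y) : InM n (X * Y) := by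
  simpa using im_mul (im_top X) hY

theorem im_mul_right (hX : InM n X) (Y : M3 (Bq (Tr 2 N))) : InM n (X * Y) := by
  simpa using im_mul hX (im_top Y)

theorem im_sg (e : Bool) (hX : InM n X) : InM n (X.map (sg _ e)) := fun i j => ib_sg e (hX i j)

theorem im_adj (hX : InM n X) : InM n (adj X) := fun _ _ => ib_star (hX _ _)

theorem im_eq_zero (hX : InM n X) (h : N ≤ n) : X = 0 := by
  ext i j
  · exact eq_zero_of_mem_Iw h (hX i j).1
  · exact eq_zero_of_mem_Iw h (hX i j).2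

theorem adj_sub (X Y : M3 (Bq (Tr 2 N))) : adj (X - Y) = adj X - adj Y := by
  ext1 i j; simp [adj_apply]

theorem map_sub_one (φ : Bq (Tr 2 N) →+* Bq (Tr 2 N)) (X : M3 (Bq (Tr 2 N))) :
    (X - 1).map φ = X.map φ - 1 := by
  have := map_sub φ.mapMatrix X 1
  rwa [map_one] at this

/-! ### constant matrices -/

theorem cM_eq (n : ℕ) (X : M3 F4) : cM N n X =
    re (wv 2 N ^ n) • X.map (bmap (algebraMap (ZMod 2) (Tr 2 N))) := by
  ext1 i j; simp [cM]

theorem cM_add (n : ℕ) (X Y : M3 F4) : cM N n (X + Y) = cM N n X + cM N n Y := by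
  ext1 i j; simp [cM, mul_add]

theorem cM_zero (n : ℕ) : cM N n 0 = 0 := by
  ext1 i j; simp [cM]

theorem cM_mul (a b : ℕ) (X Y : M3 F4) : cM N a X * cM N b Y = cM N (a + b) (X * Y) := by
  have : re (wv 2 N ^ (a + b)) = re (wv 2 N ^ a) * re (wv 2 N ^ b) := by
    ext <;> simp [re, pow_add]
  rw [cM_eq, cM_eq, cM_eq, Matrix.map_mul, smul_mul_smul_comm, this]

theorem cM_mem (n : ℕ) (X : M3 F4) : InM n (cM N n X) := fun _ _ =>
  (IB N n).mul_mem_right _ ⟨wv_pow_mem_Iw 2 N n, zero_mem _⟩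

theorem cM_adj (n : ℕ) (X : M3 F4) : adj (cM N n X) = cM N n (adj X) := by
  have : star (re (wv 2 N ^ n)) = re (wv 2 N ^ n) := by ext <;> simp [re]
  ext1 i j
  simp only [cM, adj_apply, Matrix.map_apply, star_mul', this, bmap_star]

theorem lead_zero (h : n < N) {x : F4}
    (hx : re (wv 2 N ^ n) * bmap (algebraMap (ZMod 2) (Tr 2 N)) x ∈ IB N (n + 1)) : x = 0 := by
  ext
  · exact lead_eq_zero h (by simpa [re] using hx.1)
  · exact lead_eq_zero h (by simpa [re] using hx.2)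

theorem cM_inj (h : n < N) {X Y : M3 F4} (hX : InM (n + 1) (cM N n X - cM N n Y)) : X = Y := by
  ext1 i j
  refine sub_eq_zero.1 (lead_zero h ?_)
  rw [map_sub, mul_sub]
  exact hX i j

/-! ### the untwisted group -/

variable {g h : Pg (Tr 2 N)}

theorem mul_m' (hg : g.e = false) (h : Pg (Tr 2 N)) : (g * h).m = g.m * h.m := by
  rw [Pg.mul_m, hg]; rfl

theorem inv_m' (hg : g.e = false) : (g⁻¹).m = adj g.m := by
  rw [Pg.inv_m, hg]; rfl

theorem lev_inv_mul (he : g.e = h.e) (hm : InM n (h.m - g.m)) : Lev n (g⁻¹ * h) := by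
  refine ⟨by simp [Pg.mul_e, Pg.inv_e, he], ?_⟩
  rw [Pg.mul_m, Pg.inv_m, Pg.inv_e, ← Matrix.map_mul, ← map_sub_one, ← g.isP.uni', ← mul_sub]
  exact im_sg _ (im_mul_left _ hm)

/-- the congruence subgroups -/
def LS (N n : ℕ) : Subgroup (Pg (Tr 2 N)) where
  carrier := {g | Lev n g}
  one_mem' := ⟨rfl, by rw [Pg.one_m, sub_self]; exact im_zero⟩
  mul_mem' := fun {g h} hg hh => ⟨by simp [Pg.mul_e, hg.1, hh.1], by
    rw [mul_m' hg.1, show g.m * h.m - 1 = (g.m - 1) * h.m + (h.m - 1) by noncomm_ring]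
    exact im_add (im_mul_right hg.2 _) hh.2⟩
  inv_mem' := fun {g} hg => by
    have := lev_inv_mul (g := g) (h := 1) hg.1 (by
      rw [Pg.one_m, ← neg_sub]; exact im_neg hg.2)
    rwa [mul_one] at this

theorem ls_anti (hg : g ∈ LS N n) (h : m ≤ n) : g ∈ LS N m := ⟨hg.1, im_mono hg.2 h⟩

instance ls_normal (n : ℕ) : (LS N n).Normal := ⟨fun h hh g => by
  refine ⟨by simp [Pg.mul_e, Pg.inv_e, hh.1], ?_⟩
  have e1 := congrArg Pg.m (mul_inv_cancel g)
  rw [Pg.mul_m, Pg.one_m] at e1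
  have e2 : (g * h).e = g.e := by simp [Pg.mul_e, hh.1]
  rw [Pg.mul_m, e2, Pg.mul_m, ← e1, ← sub_mul]
  refine im_mul_right ?_ _
  rw [show g.m * h.m.map (sg _ g.e) - g.m = g.m * (h.m.map (sg _ g.e) - 1) by noncomm_ring,
    ← map_sub_one]
  exact im_mul_left _ (im_sg _ hh.2)⟩

variable {σ : Au 2 N} {k : ℕ}

theorem act_m (σ : Au 2 N) (g : Pg (Tr 2 N)) :
    (act σ g).m = g.m.map (bmap (σ : Tr 2 N →+* Tr 2 N)) := rfl

theorem act_near0 (hσ : σ (wv 2 N) - wv 2 N ∈ Iw 2 N k) (g : Pg (Tr 2 N)) :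
    g⁻¹ * act σ g ∈ LS N k :=
  lev_inv_mul rfl fun _ _ => ⟨algHom_sub_mem (σ : Tr 2 N →ₐ[ZMod 2] Tr 2 N) hσ _,
    algHom_sub_mem (σ : Tr 2 N →ₐ[ZMod 2] Tr 2 N) hσ _⟩

theorem act_near (hk : 1 ≤ k) (hσ : σ (wv 2 N) - wv 2 N ∈ Iw 2 N k) (hg : g ∈ LS N (n + 1)) :
    g⁻¹ * act σ g ∈ LS N (n + k) := by
  refine lev_inv_mul rfl ?_
  rw [← sub_sub_sub_cancel_right _ _ 1, act_m, ← map_sub_one]
  exact fun i j => ⟨algHom_sub_mem' hk (σ : Tr 2 N →ₐ[ZMod 2] Tr 2 N) hσ (hg.2 i j).1,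
    algHom_sub_mem' hk (σ : Tr 2 N →ₐ[ZMod 2] Tr 2 N) hσ (hg.2 i j).2⟩

theorem act_mem (hσ : σ (wv 2 N) - wv 2 N ∈ Iw 2 N 14) (hg : g ∈ LS N n) : act σ g ∈ LS N n := by
  rw [← mul_inv_cancel_left g (act σ g)]
  refine mul_mem hg ?_
  rcases n with _ | n
  · exact ls_anti (act_near0 hσ g) (by omega)
  · exact ls_anti (act_near (by omega) hσ hg) (by omega)

variable {U V : su}

theorem lead_mem (hg : PLead a g U) : g ∈ LS N a := ⟨hg.1, by
  rw [← sub_add_cancel (g.m - 1) (cM N a U.1)]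
  exact im_add (im_mono hg.2 (by omega)) (cM_mem _ _)⟩

theorem lead_zero_iff : PLead a g 0 ↔ g ∈ LS N (a + 1) := by
  rw [PLead, ZeroMemClass.coe_zero, cM_zero, sub_zero]; rfl

theorem lead_mul (ha : 1 ≤ a) (hg : PLead a g U) (hh : PLead a h V) : PLead a (g * h) (U + V) := by
  refine ⟨by simp [Pg.mul_e, hg.1, hh.1], ?_⟩
  rw [mul_m' hg.1, AddMemClass.coe_add, cM_add, show g.m * h.m - 1 - (cM N a U.1 + cM N a V.1) =
    (g.m - 1 - cM N a U.1) + (h.m - 1 - cM N a V.1) + (g.m - 1) * (h.m - 1) by noncomm_ring]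
  exact im_add (im_add hg.2 hh.2) (im_mono (im_mul (lead_mem hg).2 (lead_mem hh).2) (by omega))

theorem lead_mul_right (ha : 1 ≤ a) (hg : PLead a g U) (hh : h ∈ LS N (a + 1)) :
    PLead a (g * h) U := by simpa using lead_mul ha hg (lead_zero_iff.2 hh)

theorem lead_mul_left (ha : 1 ≤ a) (hh : h ∈ LS N (a + 1)) (hg : PLead a g U) :
    PLead a (h * g) U := by simpa using lead_mul ha (lead_zero_iff.2 hh) hg

theorem lead_act (ha : 1 ≤ a) (hσ : σ (wv 2 N) - wv 2 N ∈ Iw 2 N 14) (hg : PLead a g U) :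
    PLead a (act σ g) U := by
  rw [← mul_inv_cancel_left g (act σ g)]
  obtain ⟨n, rfl⟩ : ∃ n, a = n + 1 := ⟨a - 1, by omega⟩
  exact lead_mul_right ha hg (ls_anti (act_near (by omega) hσ (lead_mem hg)) (by omega))

theorem adj_near (ha : 1 ≤ a) (hg : g ∈ LS N a) : InM (a + 1) (adj g.m - g.m) := by
  have e : adj g.m - g.m = -((adj g.m - 1) * (g.m - 1)) - ((g.m - 1) + (g.m - 1)) := by
    have := g.isP.uni'
    rw [sub_mul, mul_sub, this]; noncomm_ring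
  have h1 := (inv_mem hg).2
  rw [inv_m' hg.1] at h1
  rw [e, m_add_self, sub_zero]
  exact im_neg (im_mono (im_mul h1 hg.2) (by omega))

theorem lead_inv (ha : 1 ≤ a) (hg : PLead a g U) : PLead a g⁻¹ U := by
  refine ⟨hg.1, ?_⟩
  rw [inv_m' hg.1, show adj g.m - 1 - cM N a U.1 = (adj g.m - g.m) + (g.m - 1 - cM N a U.1) by
    noncomm_ring]
  exact im_add (adj_near ha (lead_mem hg)) hg.2

theorem prod_near (hg : PLead a g U) (hh : PLead b h V) :
    InM (a + b + 1) ((g.m - 1) * (h.m - 1) - cM N (a + b) (U.1 * V.1)) := by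
  rw [← cM_mul, show (g.m - 1) * (h.m - 1) - cM N a U.1 * cM N b V.1 =
    (g.m - 1 - cM N a U.1) * (h.m - 1) + cM N a U.1 * (h.m - 1 - cM N b V.1) by noncomm_ring]
  exact im_add (im_mono (im_mul hg.2 (lead_mem hh).2) (by omega))
    (im_mono (im_mul (cM_mem _ _) hh.2) (by omega))

theorem lead_cm (ha : 1 ≤ a) (hb : 1 ≤ b) (hg : PLead a g U) (hh : PLead b h V) :
    PLead (a + b) (cm g h) (sbr U V) := by
  have g1 := ls_anti (lead_mem hg) ha
  have h1 := ls_anti (lead_mem hh) hb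
  have k1 := mul_mem h1 g1
  have e0 : cm g h = (h * g)⁻¹ * (g * h) := by simp [cm, mul_assoc]
  have d : (g * h).m - (h * g).m = (g.m - 1) * (h.m - 1) - (h.m - 1) * (g.m - 1) := by
    rw [mul_m' hg.1, mul_m' hh.1]; noncomm_ring
  have c0 : Lev (a + b) (cm g h) := by
    rw [e0]
    refine lev_inv_mul (by simp [Pg.mul_e, hg.1, hh.1]) ?_
    rw [d]
    exact im_sub (im_mul (lead_mem hg).2 (lead_mem hh).2)
      (im_mono (im_mul (lead_mem hh).2 (lead_mem hg).2) (by omega))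
  have e1 : (g * h).m = (h * g).m * (cm g h).m := by
    rw [← mul_m' k1.1, ← mul_eq_mul_cm]
  refine ⟨c0.1, ?_⟩
  have e2 : (cm g h).m - 1 - cM N (a + b) (sbr U V).1 =
      ((g.m - 1) * (h.m - 1) - cM N (a + b) (U.1 * V.1)) -
      ((h.m - 1) * (g.m - 1) - cM N (b + a) (V.1 * U.1)) - ((h * g).m - 1) * ((cm g h).m - 1) -
      (cM N (a + b) (V.1 * U.1) + cM N (a + b) (V.1 * U.1)) := by
    have e3 : (sbr U V).1 = U.1 * V.1 + V.1 * U.1 := rfl
    rw [e3, cM_add, add_comm b a, sub_sub_sub_comm, ← d, e1]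
    noncomm_ring
  rw [e2, m_add_self, sub_zero]
  exact im_sub (im_sub (prod_near hg hh) (im_mono (prod_near hh hg) (by omega)))
    (im_mono (im_mul k1.2 c0.2) (by omega))

theorem sq_mem (hg : g ∈ LS N a) : g * g ∈ LS N (2 * a) := by
  refine ⟨(mul_mem hg hg).1, ?_⟩
  rw [mul_m' hg.1, show g.m * g.m - 1 = (g.m - 1) * (g.m - 1) + ((g.m - 1) + (g.m - 1)) by
    noncomm_ring, m_add_self, add_zero, two_mul]
  exact im_mul hg.2 hg.2

theorem trace_mem (hX : InM a X) (hd : (X + 1).det = 1) : X.trace ∈ IB N (a + a) := by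
  have e : X.trace = X 0 1 * X 1 0 * (1 + X 2 2) + X 0 2 * X 2 0 * (1 + X 1 1) +
      X 1 2 * X 2 1 * (1 + X 0 0) - X 0 0 * X 1 1 * (1 + X 2 2) - X 0 0 * X 2 2 - X 1 1 * X 2 2 -
      X 0 1 * X 1 2 * X 2 0 - X 0 2 * X 1 0 * X 2 1 := by
    rw [Matrix.det_fin_three] at hd
    simp only [Matrix.add_apply, Matrix.one_apply_eq, Matrix.one_apply_ne, ne_eq, Fin.reduceEq,
      not_false_eq_true, add_zero] at hd
    rw [Matrix.trace_fin_three]
    linear_combination hd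
  have p : ∀ i j k l, X i j * X k l ∈ IB N (a + a) := fun i j k l => ib_mul (hX i j) (hX k l)
  have q : ∀ i j k l y, X i j * X k l * y ∈ IB N (a + a) := fun i j k l y =>
    Ideal.mul_mem_right _ _ (p i j k l)
  rw [e]
  exact sub_mem (sub_mem (sub_mem (sub_mem (sub_mem (add_mem (add_mem (q ..) (q ..)) (q ..))
    (q ..)) (p ..)) (p ..)) (q ..)) (q ..)

theorem lead_ex (ha : 1 ≤ a) (hg : g ∈ LS N a) : ∃ U, PLead a g U := by
  rcases le_or_gt N a with hN | hN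
  · refine ⟨0, lead_zero_iff.2 ⟨hg.1, ?_⟩⟩
    rw [im_eq_zero hg.2 hN]; exact im_zero
  choose c hc using fun i j => exists_lead a (hg.2 i j).1
  choose d hd using fun i j => exists_lead a (hg.2 i j).2
  let Z : M3 F4 := Matrix.of fun i j => ⟨c i j, d i j⟩
  have hZ : InM (a + 1) (g.m - 1 - cM N a Z) := fun i j =>
    ⟨by simpa [cM, re, Z] using hc i j, by simpa [cM, re, Z] using hd i j⟩
  refine ⟨⟨Z, lead_zero hN ?_, cM_inj hN ?_⟩, hg.1, hZ⟩
  · have t := trace_mem hg.2 (by rw [sub_add_cancel]; exact g.isP.det)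
    have e : re (wv 2 N ^ a) * bmap (algebraMap (ZMod 2) (Tr 2 N)) Z.trace =
        (g.m - 1).trace - (g.m - 1 - cM N a Z).trace := by
      rw [← Matrix.trace_sub, sub_sub_cancel]
      simp [Matrix.trace_fin_three, cM, mul_add]
    rw [e]
    exact sub_mem (ib_mono (by omega) t) (sum_mem fun i _ => hZ i i)
  · rw [← cM_adj, show adj (cM N a Z) - cM N a Z = (adj g.m - g.m) + (g.m - 1 - cM N a Z) -
      adj (g.m - 1 - cM N a Z) by rw [adj_sub, adj_sub, adj_one]; noncomm_ring]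
    exact im_sub (im_add (adj_near ha hg) hZ) (im_adj hZ)

/-! ### the twisted group -/

variable {τ : Tw N}

theorem inv_mul_g (x y : τ.Q) : (x⁻¹ * y).g = act (τ.ρ (x⁻¹).g) (x.g⁻¹ * y.g) := by
  rw [Tw.mul_g, map_mul, Tw.rho_inv, Tw.inv_g]

theorem inv_g' (x : τ.Q) : (x⁻¹).g = act (τ.ρ (x⁻¹).g) x.g⁻¹ := by
  rw [Tw.rho_inv, Tw.inv_g]

/-- the congruence subgroups of the twisted group -/
def GS (τ : Tw N) (n : ℕ) : Subgroup τ.Q where
  carrier := {x | x.g ∈ LS N n}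
  one_mem' := one_mem (LS N n)
  mul_mem' := fun hx hy => mul_mem hx (act_mem (τ.dep0 _) hy)
  inv_mem' := fun {x} hx => by
    change (x⁻¹).g ∈ LS N n
    rw [inv_g']
    exact act_mem (τ.dep0 _) (inv_mem hx)

theorem gs_normal (n : ℕ) : (GS τ n).Normal := ⟨fun y hy x => by
  have e : x * y * x⁻¹ = (x⁻¹)⁻¹ * (y * x⁻¹) := by group
  change (x * y * x⁻¹).g ∈ LS N n
  rw [e, inv_mul_g, Tw.mul_g]
  refine act_mem (τ.dep0 _) ?_
  rw [show (x⁻¹).g⁻¹ * (y.g * act (τ.ρ y.g) (x⁻¹).g) = (x⁻¹).g⁻¹ * y.g * (x⁻¹).g *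
    ((x⁻¹).g⁻¹ * act (τ.ρ y.g) (x⁻¹).g) by group]
  exact mul_mem ((ls_normal n).conj_mem' _ hy _) (ls_anti (act_near0 (τ.dep n _ hy) _) (by omega))⟩

theorem lead_cm' (ha : 1 ≤ a) (hb : 1 ≤ b) {x y : τ.Q} (hx : PLead a x.g U) (hy : PLead b y.g V) :
    PLead (a + b) (cm x y).g (sbr U V) := by
  have e0 : cm x y = (y * x)⁻¹ * (x * y) := by simp [cm, mul_assoc]
  obtain ⟨a, rfl⟩ : ∃ n, a = n + 1 := ⟨a - 1, by omega⟩
  obtain ⟨b, rfl⟩ : ∃ n, b = n + 1 := ⟨b - 1, by omega⟩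
  have e1 := act_near (by omega) (τ.dep _ _ (lead_mem hx)) (lead_mem hy)
  have e2 := act_near (by omega) (τ.dep _ _ (lead_mem hy)) (lead_mem hx)
  rw [e0, inv_mul_g, Tw.mul_g, Tw.mul_g]
  refine lead_act (by omega) (τ.dep0 _) ?_
  rw [show (y.g * act (τ.ρ y.g) x.g)⁻¹ * (x.g * act (τ.ρ x.g) y.g) =
    (x.g⁻¹ * act (τ.ρ y.g) x.g)⁻¹ * cm x.g y.g * (y.g⁻¹ * act (τ.ρ x.g) y.g) by
      rw [cm]; group]
  exact lead_mul_right (by omega) (lead_mul_left (by omega) (ls_anti (inv_mem e2) (by omega))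
    (lead_cm ha hb hx hy)) (ls_anti e1 (by omega))

end FIL

open FIL in
theorem blk_FIL : St_Fil := fun N τ => ⟨{
    G := GS τ
    Lead := fun j x X => PLead j x.g X
    anti := fun _ _ h _ hx => ls_anti hx h
    normal := gs_normal
    bot := by
      refine eq_bot_iff.2 fun x hx => ?_
      rw [Subgroup.mem_bot]
      ext1; ext1
      · exact sub_eq_zero.1 (im_eq_zero hx.2 le_rfl)
      · exact hx.1
    mem := lead_mem
    ex := lead_ex
    zero := FIL.lead_zero_iff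
    uniq := fun {a g X Y} ha hX hY => Subtype.ext (cM_inj ha (by
      rw [← sub_sub_sub_cancel_left _ _ (g.g.m - 1)]
      exact im_sub hY.2 hX.2))
    mul := fun ha hX hY => lead_mul ha hX (lead_act ha (τ.dep0 _) hY)
    inv := fun {a g X} ha hX => by
      rw [inv_g']
      exact lead_act ha (τ.dep0 _) (lead_inv ha hX)
    comm := fun ha hb hx hy => lead_cm' ha hb hx hy
    sq := fun {a g} hg => by
      rcases a with _ | a
      · exact pow_mem hg 2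
      · change (g ^ 2).g ∈ LS N _
        rw [sq, Tw.mul_g, ← mul_inv_cancel_left g.g (act _ g.g), ← mul_assoc]
        exact mul_mem (sq_mem hg) (ls_anti (act_near (by omega) (τ.dep _ _ hg) hg) (by omega)) },
  fun _ _ => Iff.rfl, fun _ _ _ => Iff.rfl⟩

end Pool.Agent.Lib.MP_0813d1_al.Two
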