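import Mathlib
import Pool.Agent.Lib.MP_0813d1_al.TwoBlue

namespace Pool.Agent.Lib.MP_0813d1_al.Two

open scoped commutatorElement

namespace HOPF

/-- exponent sums -/
def ex : Fr →* Multiplicative (ℤ × ℤ) :=
  FreeGroup.lift fun b => Multiplicative.ofAdd (if b then (1, 0) else (0, 1))

theorem ex_ker : ex.ker = commutator Fr := by
  refine le_antisymm (fun f hf => ?_) (Abelianization.commutator_subset_ker ex)
  let ψ : Multiplicative (ℤ × ℤ) →* Abelianization Fr :=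
    { toFun := fun v => Abelianization.of gX ^ v.toAdd.1 * Abelianization.of gY ^ v.toAdd.2
      map_one' := by simp
      map_mul' := fun v w => by
        simp only [toAdd_mul, Prod.fst_add, Prod.snd_add, zpow_add]
        exact mul_mul_mul_comm _ _ _ _ }
  have h : ψ.comp ex = Abelianization.of := FreeGroup.ext_hom _ _ fun b => by
    cases b <;> simp [ψ, ex, gX, gY]
  rw [← Abelianization.ker_of, MonoidHom.mem_ker, ← h, MonoidHom.comp_apply,
    MonoidHom.mem_ker.mp hf, map_one]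

/-- exponent sums, written additively -/
def pe (f : Fr) : ℤ × ℤ := (ex f).toAdd

theorem pe_mul (f g : Fr) : pe (f * g) = pe f + pe g := by simp [pe]
theorem pe_zpow (f : Fr) (n : ℤ) : pe (f ^ n) = n • pe f := by simp [pe]
theorem pe_pow (f : Fr) (n : ℕ) : pe (f ^ n) = (n : ℤ) • pe f := by simp [pe]
theorem pe_inv (f : Fr) : pe f⁻¹ = -pe f := by simp [pe]
theorem pe_eq_zero {f : Fr} : pe f = 0 ↔ f ∈ commutator Fr := by
  rw [← ex_ker, MonoidHom.mem_ker, pe, toAdd_eq_zero]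
theorem pe_X : pe gX = (1, 0) := by simp [pe, ex, gX]
theorem pe_Y : pe gY = (0, 1) := by simp [pe, ex, gY]

theorem lat (L : Submodule ℤ (ℤ × ℤ)) {u v : ℤ × ℤ} (hu : u ∈ L)
    (h : ∀ l ∈ L, ∃ x y : ℤ, ∃ l' ∈ L, l = x • u + y • v + (2 : ℤ) • l') {k : ℕ}
    (h1 : ((2 : ℤ) ^ k, (0 : ℤ)) ∈ L) (h2 : ((0 : ℤ), (2 : ℤ) ^ k) ∈ L) {x y : ℤ} {l : ℤ × ℤ}
    (hl : l ∈ L) (h0 : x • u + y • v + (2 : ℤ) • l = 0) : Even x := by
  refine (Int.even_or_odd x).resolve_right ?_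
  rintro ⟨a, rfl⟩
  have h3 : ∀ l₁ ∈ L, ∃ y : ℤ, ∃ l' ∈ L, l₁ = y • v + (2 : ℤ) • l' := fun l₁ hl₁ => by
    obtain ⟨x', y', l', hl', e⟩ := h l₁ hl₁
    refine ⟨y' - x' * y, l' - x' • (a • u + l), L.sub_mem hl'
      (L.smul_mem _ (L.add_mem (L.smul_mem _ hu) hl)), ?_⟩
    rw [e]
    linear_combination (norm := module) x' • h0
  have h4 : ∀ j : ℕ, ∀ l₁ ∈ L, ∃ y : ℤ, ∃ l' : ℤ × ℤ, l₁ = y • v + (2 : ℤ) ^ j • l' := fun j => by
    induction j with
    | zero => exact fun l₁ _ => ⟨0, l₁, by simp⟩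
    | succ j ih =>
      intro l₁ hl₁
      obtain ⟨y₁, l', hl', e⟩ := h3 l₁ hl₁
      obtain ⟨y₂, l'', e'⟩ := ih l' hl'
      exact ⟨y₁ + 2 * y₂, l'', by rw [e, e', pow_succ]; module⟩
  have h5 : ∀ l₁ ∈ L, v.2 * l₁.1 - v.1 * l₁.2 = 0 := fun l₁ hl₁ => by
    obtain ⟨y₁, l', e⟩ := h4 (v.2 * l₁.1 - v.1 * l₁.2).natAbs l₁ hl₁
    generalize hj : (v.2 * l₁.1 - v.1 * l₁.2).natAbs = j at e
    refine Int.eq_zero_of_abs_lt_dvd (m := 2 ^ j) ⟨v.2 * l'.1 - v.1 * l'.2, ?_⟩ ?_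
    · rw [e]
      simp only [Prod.fst_add, Prod.snd_add, Prod.smul_fst, Prod.smul_snd, smul_eq_mul]
      ring
    · rw [Int.abs_eq_natAbs, hj]
      exact_mod_cast Nat.lt_two_pow_self
  have h6 : (2 : ℤ) ^ k ≠ 0 := by positivity
  have h7 : v.2 = 0 := by simpa [h6] using h5 _ h1
  have h8 : v.1 = 0 := by simpa [h6] using h5 _ h2
  obtain ⟨y₁, l', e⟩ := h4 (k + 1) _ h1
  have h9 := congrArg Prod.fst e
  simp only [Prod.fst_add, Prod.smul_fst, smul_eq_mul, h8, mul_zero, zero_add, pow_succ,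
    mul_assoc] at h9
  have h10 : (1 : ℤ) = 2 * l'.1 := mul_left_cancel₀ h6 (by rw [mul_one]; exact h9)
  omega

/-- the lattice of exponent sums of a subgroup -/
def lt (R : Subgroup Fr) : Submodule ℤ (ℤ × ℤ) where
  carrier := {l | ∃ r ∈ R, pe r = l}
  zero_mem' := ⟨1, R.one_mem, by simp [pe]⟩
  add_mem' := by
    rintro _ _ ⟨r, hr, rfl⟩ ⟨r', hr', rfl⟩
    exact ⟨r * r', R.mul_mem hr hr', pe_mul _ _⟩
  smul_mem' := by
    rintro n _ ⟨r, hr, rfl⟩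
    exact ⟨r ^ n, R.zpow_mem hr n, pe_zpow _ _⟩

theorem inf_le (R : Subgroup Fr) [R.Normal] {k : ℕ} (hk : R.index = 2 ^ k) {s t : Fr} (hs : s ∈ R)
    (ht : t ∈ R) (h1 : ((2 : ℤ) ^ k, (0 : ℤ)) ∈ lt R) (h2 : ((0 : ℤ), (2 : ℤ) ^ k) ∈ lt R)
    (h : R ≤ Subgroup.normalClosure {s, t} ⊔ ⁅R, (⊤ : Subgroup Fr)⁆ ⊔
      Subgroup.closure {x | ∃ r ∈ R, x = r ^ 2}) :
    ∀ m ∈ R, m ∈ commutator Fr → m ∈ ⁅R, (⊤ : Subgroup Fr)⁆ := by
  set N := ⁅R, (⊤ : Subgroup Fr)⁆ with hN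
  let q := QuotientGroup.mk' N
  have hq : ∀ f, q f = 1 ↔ f ∈ N := fun f => QuotientGroup.eq_one_iff f
  have hc : ∀ r ∈ R, ∀ g, Commute (q r) g := fun r hr g => by
    obtain ⟨f, rfl⟩ := QuotientGroup.mk'_surjective N g
    rw [← commutatorElement_eq_one_iff_commute, ← map_commutatorElement, hq]
    exact Subgroup.commutator_mem_commutator hr (Subgroup.mem_top _)
  have hp : ∀ f g, q f = q g → pe f = pe g := fun f g e => by
    have h3 : f⁻¹ * g ∈ N := by rw [← hq, map_mul, map_inv, e, inv_mul_cancel]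
    have h4 := pe_eq_zero.mpr (Subgroup.commutator_mono le_top le_rfl h3)
    rwa [pe_mul, pe_inv, neg_add_eq_zero] at h4
  have hw : ∀ (x y : ℤ) (b : Fr) (x' y' : ℤ) (b' : Fr), b ∈ R →
      q (s ^ x * t ^ y * b) * q (s ^ x' * t ^ y' * b') =
        q (s ^ (x + x') * t ^ (y + y') * (b * b')) := fun x y b x' y' b' hb => by
    simp only [map_mul, map_zpow, zpow_add]
    rw [(hc b hb _).mul_mul_mul_comm, ((hc t ht _).zpow_left y).mul_mul_mul_comm]
  have hsq : ∀ b ∈ R, ∀ b', q (b ^ 2 * b' ^ 2) = q ((b * b') ^ 2) := fun b hb b' => by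
    simp only [map_mul, map_pow, (hc b hb _).mul_pow]
  let K : Subgroup Fr :=
    { carrier := {r | ∃ x y : ℤ, ∃ b ∈ R, q r = q (s ^ x * t ^ y * b ^ 2)}
      one_mem' := ⟨0, 0, 1, R.one_mem, by simp⟩
      mul_mem' := by
        rintro r r' ⟨x, y, b, hb, e⟩ ⟨x', y', b', hb', e'⟩
        refine ⟨x + x', y + y', b * b', R.mul_mem hb hb', ?_⟩
        rw [map_mul, e, e', hw _ _ _ _ _ _ (R.pow_mem hb 2), map_mul, hsq b hb, ← map_mul]
      inv_mem' := by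
        rintro r ⟨x, y, b, hb, e⟩
        refine ⟨-x, -y, b⁻¹, R.inv_mem hb, ?_⟩
        rw [map_inv, e, inv_eq_iff_mul_eq_one, hw _ _ _ _ _ _ (R.pow_mem hb 2)]
        simp }
  have : K.Normal := ⟨by
    rintro r ⟨x, y, b, hb, e⟩ g
    refine ⟨x, y, b, hb, ?_⟩
    rw [map_mul, map_mul, map_inv, e, ← (hc _ (R.mul_mem (R.mul_mem (R.zpow_mem hs x)
      (R.zpow_mem ht y)) (R.pow_mem hb 2)) (q g)).eq, mul_inv_cancel_right]⟩
  have hK : R ≤ K := h.trans (sup_le (sup_le (Subgroup.normalClosure_le_normal (by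
      rintro x (rfl | rfl)
      · exact ⟨1, 0, 1, R.one_mem, by simp⟩
      · exact ⟨0, 1, 1, R.one_mem, by simp⟩))
    fun f hf => ⟨0, 0, 1, R.one_mem, by simpa using (hq f).mpr hf⟩)
    ((Subgroup.closure_le _).mpr (by
      rintro _ ⟨r, hr, rfl⟩
      exact ⟨0, 0, r, hr, by simp⟩)))
  have hL : ∀ l ∈ lt R, ∃ x y : ℤ, ∃ l' ∈ lt R, l = x • pe s + y • pe t + (2 : ℤ) • l' := by
    rintro _ ⟨r, hr, rfl⟩
    obtain ⟨x, y, b, hb, e⟩ := hK hr
    exact ⟨x, y, pe b, ⟨b, hb, rfl⟩, by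
      rw [hp _ _ e, pe_mul, pe_mul, pe_zpow, pe_zpow, pe_pow]; rfl⟩
  have step : ∀ m ∈ R, m ∈ commutator Fr → ∃ m' ∈ R, m' ∈ commutator Fr ∧ q m = q m' ^ 2 := by
    intro m hm hm'
    obtain ⟨x, y, b, hb, e⟩ := hK hm
    have h3 : x • pe s + y • pe t + (2 : ℤ) • pe b = 0 := by
      rw [← pe_eq_zero.mpr hm', hp _ _ e, pe_mul, pe_mul, pe_zpow, pe_zpow, pe_pow]; rfl
    obtain ⟨a, rfl⟩ := lat (lt R) ⟨s, hs, rfl⟩ hL h1 h2 ⟨b, hb, rfl⟩ h3
    obtain ⟨c, rfl⟩ := lat (lt R) (v := pe s) ⟨t, ht, rfl⟩ (fun l hl => by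
      obtain ⟨x, y, l', hl', e⟩ := hL l hl
      exact ⟨y, x, l', hl', by rw [e, add_comm (x • pe s)]⟩) h1 h2 ⟨b, hb, rfl⟩
      (by rw [← h3, add_comm (y • pe t)])
    refine ⟨s ^ a * t ^ c * b, R.mul_mem (R.mul_mem (R.zpow_mem hs a) (R.zpow_mem ht c)) hb,
      pe_eq_zero.mp ?_, by rw [e, sq, sq, hw _ _ _ _ _ _ hb]⟩
    rw [pe_mul, pe_mul, pe_zpow, pe_zpow]
    refine (smul_eq_zero_iff_right (two_ne_zero (α := ℤ))).mp ?_
    rw [← h3]
    module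
  have iter : ∀ j : ℕ, ∀ m ∈ R, m ∈ commutator Fr →
      ∃ m' ∈ commutator Fr, q m = q m' ^ 2 ^ j := fun j => by
    induction j with
    | zero => exact fun m _ hm' => ⟨m, hm', by simp⟩
    | succ j ih =>
      intro m hm hm'
      obtain ⟨m₁, a1, a2, a3⟩ := step m hm hm'
      obtain ⟨m₂, b1, b2⟩ := ih m₁ a1 a2
      exact ⟨m₂, b1, by rw [a3, b2, ← pow_mul, pow_succ]⟩
  have hB : R.map q ≤ Subgroup.center (Fr ⧸ N) := by
    rintro _ ⟨r, hr, rfl⟩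
    exact Subgroup.mem_center_iff.mpr fun g => (hc r hr g).eq.symm
  have hi : (Subgroup.center (Fr ⧸ N)).index ∣ 2 ^ k := by
    rw [← hk, ← Subgroup.index_map_eq R (QuotientGroup.mk'_surjective N) (by
      rw [QuotientGroup.ker_mk']
      exact Subgroup.commutator_le_left _ _)]
    exact Subgroup.index_dvd_of_le hB
  have : (Subgroup.center (Fr ⧸ N)).FiniteIndex := ⟨fun h0 => by
    rw [h0, zero_dvd_iff] at hi
    exact absurd hi (by positivity)⟩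
  intro m hm hm'
  obtain ⟨m', a1, a2⟩ := iter k m hm hm'
  obtain ⟨c, hc'⟩ := hi
  have h3 : ((MonoidHom.transferCenterPow (Fr ⧸ N)).comp q) m' = 1 := by
    have h4 : commutator Fr ≤ ((MonoidHom.transferCenterPow (Fr ⧸ N)).comp q).ker := by
      rw [commutator_def, Subgroup.commutator_le]
      intro x _ y _
      rw [MonoidHom.mem_ker, map_commutatorElement, commutatorElement_eq_one_iff_mul_comm]
      exact Subtype.ext (Subgroup.mem_center_iff.mp (Subtype.prop _) _)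
    exact h4 a1
  have h4 := congrArg Subtype.val h3
  rw [MonoidHom.comp_apply, MonoidHom.transferCenterPow_apply] at h4
  rw [← hq, a2, hc', pow_mul, h4, OneMemClass.coe_one, one_pow]

end HOPF

open HOPF in
theorem blk_HOPF : St_HOPF := by
  intro H _ _ hH θ hθ s t hs ht h
  obtain ⟨k, hk⟩ := hH.exists_card_eq
  have hpow : ∀ f : Fr, f ^ 2 ^ k ∈ θ.ker := fun f => by
    rw [MonoidHom.mem_ker, map_pow, ← hk, pow_card_eq_one']
  have h1 : ((2 : ℤ) ^ k, (0 : ℤ)) ∈ lt θ.ker := ⟨_, hpow gX, by simp [pe_pow, pe_X]⟩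
  have h2 : ((0 : ℤ), (2 : ℤ) ^ k) ∈ lt θ.ker := ⟨_, hpow gY, by simp [pe_pow, pe_Y]⟩
  have main := inf_le θ.ker (k := k) (by
    rw [Subgroup.index_ker, MonoidHom.range_eq_top.mpr hθ, Subgroup.card_top, hk]) hs ht h1 h2 h
  have hr : Module.finrank ℤ (lt θ.ker) = 2 := by
    refine le_antisymm ((Submodule.finrank_le _).trans (by simp)) ?_
    have h3 : LinearIndependent ℤ ![(⟨_, h1⟩ : lt θ.ker), ⟨_, h2⟩] := by
      rw [LinearIndependent.pair_iff]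
      intro a b e
      have h4 : (2 : ℤ) ^ k ≠ 0 := by positivity
      simpa [Subtype.ext_iff, h4] using e
    simpa using h3.fintype_card_le_finrank
  let B := Module.finBasisOfFinrankEq ℤ (lt θ.ker) hr
  obtain ⟨s', hs', es⟩ := (B 0).2
  obtain ⟨t', ht', et⟩ := (B 1).2
  have hst : ∀ a b : ℤ, pe (s' ^ a * t' ^ b) = (a • B 0 + b • B 1 : lt θ.ker) := fun a b => by
    rw [pe_mul, pe_zpow, pe_zpow, es, et]; rfl
  refine H2_trivial_of_balanced θ hθ s' t' hs' ht' (fun r hr => ?_) fun a b hab => ?_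
  · have h3 := B.sum_repr ⟨pe r, r, hr, rfl⟩
    rw [Fin.sum_univ_two] at h3
    generalize B.repr ⟨pe r, r, hr, rfl⟩ 0 = a, B.repr ⟨pe r, r, hr, rfl⟩ 1 = b at h3
    have h4 : s' ^ a * t' ^ b ∈ Subgroup.normalClosure {s', t'} :=
      mul_mem (zpow_mem (Subgroup.subset_normalClosure (by simp)) _)
        (zpow_mem (Subgroup.subset_normalClosure (by simp)) _)
    have h5 := main ((s' ^ a * t' ^ b)⁻¹ * r)
      (mul_mem (inv_mem (mul_mem (zpow_mem hs' _) (zpow_mem ht' _))) hr)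
      (pe_eq_zero.mp (by rw [pe_mul, pe_inv, hst, h3, neg_add_cancel]))
    simpa only [mul_inv_cancel_left] using Subgroup.mul_mem_sup h4 h5
  · have h3 : LinearIndependent ℤ ![B 0, B 1] := by
      convert B.linearIndependent using 1
      funext i
      fin_cases i <;> rfl
    exact LinearIndependent.pair_iff.mp h3 a b
      (Subtype.ext ((hst a b).symm.trans (pe_eq_zero.mpr hab)))

end Pool.Agent.Lib.MP_0813d1_al.Two
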