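import Mathlib
import Pool.Agent.Lib.MP_0813d1_al.TwoBlue

/-! The matrix identities used to kill the central extension in even degree. -/

namespace Pool.Agent.Lib.MP_0813d1_al.Two

open PC

namespace KQ

section generic
variable {A A' : Type} [CommRing A] [CommRing A']

theorem adj3 (a b c d e f g h i : Bq A) : adj !![a, b, c; d, e, f; g, h, i] =
    !![star i, star f, star c; star h, star e, star b; star g, star d, star a] := by
  ext1 p q; fin_cases p <;> fin_cases q <;> rfl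

theorem map3 {R R' : Type} (φ : R → R') (a b c d e f g h i : R) :
    (!![a, b, c; d, e, f; g, h, i]).map φ =
      !![φ a, φ b, φ c; φ d, φ e, φ f; φ g, φ h, φ i] := by
  ext1 p q; fin_cases p <;> fin_cases q <;> rfl

theorem ext3 {R : Type} {a b c d e f g h i a' b' c' d' e' f' g' h' i' : R} (h1 : a = a')
    (h2 : b = b') (h3 : c = c') (h4 : d = d') (h5 : e = e') (h6 : f = f') (h7 : g = g')
    (h8 : h = h') (h9 : i = i') :
    !![a, b, c; d, e, f; g, h, i] = !![a', b', c'; d', e', f'; g', h', i'] := by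
  subst h1 h2 h3 h4 h5 h6 h7 h8 h9; rfl

theorem add3 {R : Type} [Add R] (a b c d e f g h i a' b' c' d' e' f' g' h' i' : R) :
    !![a, b, c; d, e, f; g, h, i] + !![a', b', c'; d', e', f'; g', h', i'] =
      !![a + a', b + b', c + c'; d + d', e + e', f + f'; g + g', h + h', i + i'] := by
  ext1 p q; fin_cases p <;> fin_cases q <;> rfl

theorem star_re (x : A) : star (re x) = re x := by ext <;> simp [re]
theorem re_mul (x y : A) : re (x * y) = re x * re y := by ext <;> simp [re]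
theorem re_add (x y : A) : re (x + y) = re x + re y := by ext <;> simp [re]
theorem re_one : re (1 : A) = 1 := rfl
theorem re_pow (x : A) (k : ℕ) : re (x ^ k) = re x ^ k := map_pow (algebraMap A (Bq A)) x k
theorem om_sq : om A * om A = 1 + om A := by
  ext <;> simp [om, QuadraticAlgebra.re_one, QuadraticAlgebra.im_one]
theorem star_om : star (om A) = 1 - om A := by
  ext <;> simp [om, QuadraticAlgebra.re_one, QuadraticAlgebra.im_one]
theorem bmap_om (f : A →+* A') : bmap f (om A) = om A' := by ext <;> simp [om]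

theorem mul_m0 {x : Pg A} (h : x.e = false) (y : Pg A) : (x * y).m = x.m * y.m := by
  rw [Pg.mul_m, h]; rfl

theorem cm_e (x y : Pg A) : (cm x y).e = false := by
  simp only [cm, Pg.mul_e, Pg.inv_e]; cases x.e <;> cases y.e <;> rfl

theorem cm_m0 {x y : Pg A} (hx : x.e = false) (hy : y.e = false) :
    (cm x y).m = adj x.m * adj y.m * x.m * y.m := by
  simp only [cm, Pg.mul_m, Pg.mul_e, Pg.inv_e, Pg.inv_m, hx, hy]; rfl

theorem cm_m1 {x y : Pg A} (hx : x.e = false) (hy : y.e = true) :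
    (cm x y).m = adj x.m * (adj y.m).map star * x.m.map star * y.m.map star := by
  simp only [cm, Pg.mul_m, Pg.mul_e, Pg.inv_e, Pg.inv_m, hx, hy]; rfl

theorem ex_diag {a b c : Bq A} (h1 : a * star c = 1) (h2 : b * star b = 1) (h3 : a * b * c = 1)
    (na : IsNilpotent (a - 1)) (nb : IsNilpotent (b - 1)) (nc : IsNilpotent (c - 1)) :
    ∃ g : Pg A, g.m = !![a, 0, 0; 0, b, 0; 0, 0, c] ∧ g.e = false := by
  have h4 : c * star a = 1 := by simpa [mul_comm] using congrArg star h1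
  refine ⟨⟨_, false, ?_, ?_, ?_, ?_⟩, rfl, rfl⟩
  · rw [adj3, Matrix.mul_fin_three, Matrix.one_fin_three]
    apply ext3 <;> simp [h1, h2, h4]
  · simp [Matrix.det_fin_three, h3]
  · intro i j h; fin_cases i <;> fin_cases j <;> simp_all
  · intro i; fin_cases i; exacts [na, nb, nc]

theorem ex_u (h2 : (2 : Bq A) = 0) {b : Bq A} (hb : star b = b) :
    ∃ g : Pg A, g.m = !![1, b, om A * b ^ 2; 0, 1, b; 0, 0, 1] ∧ g.e = false := by
  refine ⟨⟨_, false, ?_, ?_, ?_, ?_⟩, rfl, rfl⟩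
  · rw [adj3, Matrix.mul_fin_three, Matrix.one_fin_three]
    apply ext3 <;> simp only [star_one, star_zero, star_mul', star_pow, star_om, hb] <;> grind
  · simp [Matrix.det_fin_three]
  · intro i j h; fin_cases i <;> fin_cases j <;> simp_all
  · intro i; fin_cases i <;> simp

theorem cm_dd {x y : Pg A} {a b c a' b' c' : Bq A} (hx : x.m = !![a, 0, 0; 0, b, 0; 0, 0, c])
    (hx' : x.e = false) (hy : y.m = !![a', 0, 0; 0, b', 0; 0, 0, c']) (hy' : y.e = false) :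
    cm x y = 1 := by
  refine cm_eq_one_iff.2 (Pg.ext ?_ (by simp [Pg.mul_e, hx', hy']))
  rw [mul_m0 hx', mul_m0 hy', hx, hy, Matrix.mul_fin_three, Matrix.mul_fin_three]
  apply ext3 <;> ring

theorem sq_f (h2 : (2 : Bq A) = 0) {x : Pg A} {y : Bq A} (hx : x.m = !![1, 0, 0; 0, 1, 0; y, 0, 1])
    (hx' : x.e = false) : x * x = 1 := by
  refine Pg.ext ?_ (by simp [Pg.mul_e, Pg.one_e])
  rw [mul_m0 hx', hx, Matrix.mul_fin_three, Pg.one_m, Matrix.one_fin_three]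
  apply ext3 <;> grind

theorem cm_fd (h2 : (2 : Bq A) = 0) {x z : Pg A} {y a b c : Bq A}
    (hx : x.m = !![1, 0, 0; 0, 1, 0; y, 0, 1]) (hx' : x.e = false) (hy : star y = y)
    (hz : z.m = !![a, 0, 0; 0, b, 0; 0, 0, c]) (hz' : z.e = false) :
    (cm x z).m = !![1, 0, 0; 0, 1, 0; y * (1 + a * star a), 0, 1] := by
  have h := z.isP.uni'
  rw [hz, adj3, Matrix.mul_fin_three, Matrix.one_fin_three] at h
  have h0 := congrFun (congrFun h 0) 0
  have h1 := congrFun (congrFun h 1) 1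
  have h3 := congrFun (congrFun h 2) 2
  simp at h0 h1 h3
  rw [cm_m0 hx' hz', hx, hz, adj3, adj3]
  simp only [Matrix.mul_fin_three]
  apply ext3 <;> simp only [star_one, star_zero, hy] <;> grind

theorem cm_ua (h2 : (2 : Bq A) = 0) {u a : Pg A} {b : Bq A}
    (hu : u.m = !![1, b, om A * b ^ 2; 0, 1, b; 0, 0, 1]) (hu' : u.e = false) (hb : star b = b)
    (hb2 : b ^ 2 = 0) (ha : a.m = !![1, om A, om A; 0, 1, 1 + om A; 0, 0, 1]) (ha' : a.e = true) :
    (cm u a).m = !![1, 0, b; 0, 1, 0; 0, 0, 1] := by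
  have := om_sq (A := A)
  rw [cm_m1 hu' ha', hu, ha, hb2, mul_zero, adj3, adj3]
  simp only [map3, Matrix.mul_fin_three]
  apply ext3 <;>
    simp only [star_one, star_zero, star_add, star_sub, star_om, hb] <;> grind

theorem cm_ef (h2 : (2 : Bq A) = 0) {e f : Pg A} {x y : Bq A}
    (he : e.m = !![1, 0, x; 0, 1, 0; 0, 0, 1]) (he' : e.e = false) (hx : star x = x)
    (hf : f.m = !![1, 0, 0; 0, 1, 0; y, 0, 1]) (hf' : f.e = false) (hy : star y = y)
    (h : x * y * y = 0) :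
    (cm e f).m = !![1 + x * y, 0, x * x * y; 0, 1, 0; 0, 0, 1 + x * y] := by
  rw [cm_m0 he' hf', he, hf, adj3, adj3]
  simp only [Matrix.mul_fin_three]
  apply ext3 <;> simp only [star_one, star_zero, hx, hy] <;> grind

end generic

section near
variable {N : ℕ}

/-- reduction of scalars modulo `w ^ n` -/
noncomputable def ph (N n : ℕ) : Bq (Tr 2 N) →+* Bq (Tr 2 N ⧸ Iw 2 N n) :=
  bmap (Ideal.Quotient.mk _)

/-- reduction of group elements modulo `w ^ n` -/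
noncomputable def pq (N n : ℕ) : Pg (Tr 2 N) →* Pg (Tr 2 N ⧸ Iw 2 N n) :=
  Pg.map (Ideal.Quotient.mk _)

/-- the uniformizer -/
noncomputable def W (N : ℕ) : Bq (Tr 2 N) := re (wv 2 N)

theorem pq_m (n : ℕ) (g : Pg (Tr 2 N)) : (pq N n g).m = g.m.map (ph N n) := rfl
theorem pq_e (n : ℕ) (g : Pg (Tr 2 N)) : (pq N n g).e = g.e := rfl
theorem ph_om (n : ℕ) : ph N n (om _) = om _ := bmap_om _
theorem ph_star (n : ℕ) (x : Bq (Tr 2 N)) : star (ph N n x) = ph N n (star x) :=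
  (bmap_star _ x).symm
theorem star_W : star (W N) = W N := star_re _
theorem re_W (k : ℕ) : re (wv 2 N ^ k) = W N ^ k := re_pow _ _

theorem two0 : (2 : Bq (Tr 2 N)) = 0 := by
  have h : (1 : Bq (Tr 2 N)) + 1 = 0 := QuadraticAlgebra.ext (tr_add_self 1) (add_zero 0)
  rwa [one_add_one_eq_two] at h

theorem two1 (N n : ℕ) : (2 : Bq (Tr 2 N ⧸ Iw 2 N n)) = 0 := by
  rw [← map_ofNat (ph N n), two0, map_zero]

theorem inB_iff {n : ℕ} {x : Bq (Tr 2 N)} : InB n x ↔ ph N n x = 0 := by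
  simp only [InB, ← Ideal.Quotient.eq_zero_iff_mem]
  exact ⟨fun h => QuadraticAlgebra.ext h.1 h.2,
    fun h => ⟨congrArg QuadraticAlgebra.re h, congrArg QuadraticAlgebra.im h⟩⟩

theorem W_pow {n m : ℕ} (h : n ≤ m) : ph N n (W N) ^ m = 0 := by
  rw [← map_pow, ← re_W, ← inB_iff]
  exact ⟨Iw_anti h (wv_pow_mem_Iw _ _ _), zero_mem _⟩

theorem nil_W {x : Bq (Tr 2 N)} (y : Bq (Tr 2 N)) (h : x = W N * y) : IsNilpotent x :=
  h ▸ (Commute.all _ _).isNilpotent_mul_right (nilp_re (wv_mem N))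

theorem inM_iff {n : ℕ} {X Y : M3 (Bq (Tr 2 N))} :
    InM n (X - Y) ↔ X.map (ph N n) = Y.map (ph N n) := by
  simp only [InM, inB_iff, Matrix.sub_apply, map_sub, sub_eq_zero, ← Matrix.ext_iff,
    Matrix.map_apply]

theorem lev_iff {n : ℕ} {g : Pg (Tr 2 N)} : Lev n g ↔ pq N n g = 1 := by
  rw [Lev, inM_iff, Pg.ext_iff, and_comm, Matrix.map_one _ (map_zero _) (map_one _)]
  rfl

theorem plead_of {n : ℕ} {g : Pg (Tr 2 N)} {X : su} (he : g.e = false)
    (h : (pq N (n + 1) g).m = (1 + cM N n X.1).map (ph N (n + 1))) : PLead n g X :=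
  ⟨he, by rw [sub_sub]; exact inM_iff.2 h⟩

theorem cM_E (n : ℕ) : 1 + cM N n sE.1 = !![1, 0, W N ^ n; 0, 1, 0; 0, 0, 1] := by
  rw [Matrix.one_fin_three, cM, sE, map3, add3]
  apply ext3 <;> simp [re_W]

theorem cM_F (n : ℕ) : 1 + cM N n sF.1 = !![1, 0, 0; 0, 1, 0; W N ^ n, 0, 1] := by
  rw [Matrix.one_fin_three, cM, sF, map3, add3]
  apply ext3 <;> simp [re_W]

theorem cM_T : 1 + cM N 1 (sB 7).1 =
    !![1 + W N * om _, 0, 0; 0, 1 + W N, 0; 0, 0, 1 + W N * (1 + om _)] := by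
  have h : (sB 7).1 = !![om _, 0, 0; 0, 1, 0; 0, 0, 1 + om _] := by decide
  rw [Matrix.one_fin_three, cM, h, map3, add3]
  apply ext3 <;> simp [W, bmap_om]

theorem act_pq {n : ℕ} {σ : Au 2 N} {g : Pg (Tr 2 N)}
    (h : ∀ x, (∃ i j, x = ((g.m - 1) i j).re ∨ x = ((g.m - 1) i j).im) → σ x - x ∈ Iw 2 N n) :
    pq N n (act σ g) = pq N n g := by
  refine Pg.ext (inM_iff.1 fun i j => ?_) rfl
  have h1 := h _ ⟨i, j, Or.inl rfl⟩
  have h2 := h _ ⟨i, j, Or.inr rfl⟩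
  change σ (g.m i j).re - (g.m i j).re ∈ _ ∧ σ (g.m i j).im - (g.m i j).im ∈ _
  by_cases e : i = j
  · subst e
    simp only [Matrix.sub_apply, Matrix.one_apply_eq, QuadraticAlgebra.re_sub,
      QuadraticAlgebra.im_sub, QuadraticAlgebra.re_one, QuadraticAlgebra.im_one, sub_zero, map_sub,
      map_one, sub_sub_sub_cancel_right] at h1 h2
    exact ⟨h1, h2⟩
  · simp only [Matrix.sub_apply, Matrix.one_apply_ne e, sub_zero] at h1 h2
    exact ⟨h1, h2⟩

variable {τ : Tw N}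

/-- the twist by `x` does not move `y` modulo `w ^ n` -/
def Fix (n : ℕ) (x y : τ.Q) : Prop := pq N n (act (τ.ρ x.g) y.g) = pq N n y.g

theorem fixA {n j : ℕ} {x : τ.Q} (hx : Lev j x.g) (h : n ≤ 2 * j + 14) (y : τ.Q) : Fix n x y :=
  act_pq fun a _ => Iw_anti h (algHom_sub_mem (τ.ρ x.g : Tr 2 N →ₐ[ZMod 2] Tr 2 N) (τ.dep j _ hx) a)

theorem actB {n j : ℕ} {g : Pg (Tr 2 N)} (hg : Lev j g) (hj : 1 ≤ j) (h : n ≤ j + 13)
    (x : Pg (Tr 2 N)) : pq N n (act (τ.ρ x) g) = pq N n g := by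
  obtain ⟨j, rfl⟩ := Nat.exists_eq_add_of_le' hj
  exact act_pq fun a ha => Iw_anti h
    (algHom_sub_mem' (by omega) (τ.ρ x : Tr 2 N →ₐ[ZMod 2] Tr 2 N) (τ.dep0 x) (by
      obtain ⟨i, k, rfl | rfl⟩ := ha
      exacts [(hg.2 i k).1, (hg.2 i k).2]))

theorem fixB {n j : ℕ} {y : τ.Q} (hy : Lev j y.g) (hj : 1 ≤ j) (h : n ≤ j + 13) (x : τ.Q) :
    Fix n x y := actB hy hj h _

theorem pq_mul {n : ℕ} {x y : τ.Q} (h : Fix n x y) : pq N n (x * y).g = pq N n x.g * pq N n y.g := by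
  rw [Tw.mul_g, map_mul, h]

theorem pq_cm {n : ℕ} {x y : τ.Q} (h1 : Fix n x y) (h2 : Fix n y x) (h3 : Fix n (y * x) (cm x y)) :
    pq N n (cm x y).g = cm (pq N n x.g) (pq N n y.g) := by
  have h := pq_mul h3
  rw [← mul_eq_mul_cm, pq_mul h1, pq_mul h2, mul_eq_mul_cm] at h
  exact (mul_left_cancel h).symm

theorem lev_inv_mul {n : ℕ} {x y : τ.Q} (hn : 1 ≤ n) (h : pq N n x.g = pq N n y.g) :
    Lev n (x⁻¹ * y).g := by
  have h1 : Lev n (x.g⁻¹ * y.g) := lev_iff.2 (by rw [map_mul, map_inv, h, inv_mul_cancel])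
  rw [Tw.mul_g, lev_iff]
  conv_lhs => arg 2; arg 1; rw [Tw.inv_g, ← Tw.rho_inv]
  rw [← map_mul, actB h1 hn (by omega)]
  exact lev_iff.1 h1

variable {Fl : Fil τ.Q N}

theorem cm_left (hF : IsFil Fl) {n j : ℕ} {x : τ.Q} (hx : Lev j x.g) (hj : 1 ≤ j)
    (h : n ≤ j + 13) (y : τ.Q) : pq N n (cm x y).g = cm (pq N n x.g) (pq N n y.g) :=
  haveI := Fl.normal j
  pq_cm (fixA hx (by omega) _) (fixB hx hj h _)
    (fixB ((hF.1 _ _).1 (cm_mem_left ((hF.1 _ _).2 hx) y)) hj h _)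

theorem cm_right (hF : IsFil Fl) {n j : ℕ} {y : τ.Q} (hy : Lev j y.g) (hj : 1 ≤ j)
    (h : n ≤ j + 13) (x : τ.Q) : pq N n (cm x y).g = cm (pq N n x.g) (pq N n y.g) :=
  haveI := Fl.normal j
  pq_cm (fixB hy hj h _) (fixA hy (by omega) _)
    (fixB ((hF.1 _ _).1 (cm_mem_right x ((hF.1 _ _).2 hy))) hj h _)

theorem cm_both (hF : IsFil Fl) {n j : ℕ} {x y : τ.Q} (hx : Lev j x.g) (hy : Lev j y.g)
    (h : n ≤ 2 * j + 14) : pq N n (cm x y).g = cm (pq N n x.g) (pq N n y.g) :=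
  pq_cm (fixA hx h _) (fixA hy h _)
    (fixA ((hF.1 _ _).1 (mul_mem ((hF.1 _ _).2 hy) ((hF.1 _ _).2 hx))) h _)

end near

section elements
variable {N : ℕ}

theorem ex_inv {x : Tr 2 N} (h : x ∈ Iw 2 N 1) :
    ∃ D : Bq (Tr 2 N), star D = D ∧ (1 + re x) * D = 1 := by
  obtain ⟨d, hd⟩ := (isUnit_of_sub_one_mem (u := 1 + x) (by simpa using h)).exists_right_inv
  exact ⟨re d, star_re d, by rw [← re_one, ← re_add, ← re_mul, hd]⟩

theorem lev_of {n : ℕ} {g : Pg (Tr 2 N)} (he : g.e = false)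
    (h : (pq N n g).m = !![1, 0, 0; 0, 1, 0; 0, 0, 1]) : Lev n g :=
  lev_iff.2 (Pg.ext (h.trans Matrix.one_fin_three.symm) he)

theorem ex_s (N : ℕ) : ∃ (s : Pg (Tr 2 N)) (a b c : Bq (Tr 2 N)),
    s.m = !![a, 0, 0; 0, b, 0; 0, 0, c] ∧ s.e = false ∧ 1 + a * star a = W N * (1 + W N) ∧
      PLead 1 s (sB 7) := by
  obtain ⟨D, sD, hD⟩ := ex_inv (x := wv 2 N * (1 + wv 2 N)) (Ideal.mul_mem_right _ _ (wv_mem N))
  rw [re_mul, re_add, re_one] at hD
  change (1 + W N * (1 + W N)) * D = 1 at hD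
  have h2 := two0 (N := N)
  have ho := om_sq (A := Tr 2 N)
  obtain ⟨s, hs, hs'⟩ := ex_diag (a := 1 + W N * om _) (b := (1 + W N * (1 + om _)) ^ 2 * D)
    (c := (1 + W N * om _) * D)
    (by simp only [star_mul', star_add, star_one, star_W, star_om, sD]; grind)
    (by simp only [star_mul', star_add, star_one, star_W, star_om, star_pow, sD]; grind)
    (by grind) (nil_W (om _) (by ring))
    (nil_W ((1 + W N) * D + (1 + om _) ^ 2 * W N * D) (by grind))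
    (nil_W (om _ * D + (1 + W N) * D) (by grind))
  refine ⟨s, _, _, _, hs, hs', ?_, plead_of hs' ?_⟩
  · simp only [star_mul', star_add, star_one, star_W, star_om]; grind
  · have e1 := congrArg (ph N (1 + 1)) hD
    have e2 := W_pow (N := N) (le_refl (1 + 1))
    have e3 := two1 N (1 + 1)
    have e4 := om_sq (A := Tr 2 N ⧸ Iw 2 N (1 + 1))
    rw [cM_T, pq_m, hs, map3, map3]
    simp only [map_mul, map_add, map_one, map_pow, ph_om] at e1 ⊢
    apply ext3 <;> grind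

theorem ex_t (N : ℕ) {ν : ℕ} (hν : 1 ≤ ν) : ∃ (t : Pg (Tr 2 N)) (c : Bq (Tr 2 N)),
    t.m = !![1 + W N ^ ν, 0, 0; 0, 1, 0; 0, 0, c] ∧ t.e = false ∧ (1 + W N ^ ν) * c = 1 := by
  obtain ⟨D, sD, hD⟩ := ex_inv (x := wv 2 N ^ ν) (Iw_anti hν (wv_pow_mem_Iw _ _ _))
  rw [re_W] at hD
  obtain ⟨k, rfl⟩ := Nat.exists_eq_add_of_le' hν
  have h2 := two0 (N := N)
  obtain ⟨t, ht, ht'⟩ := ex_diag (a := 1 + W N ^ (k + 1)) (b := 1) (c := D) (by rw [sD, hD])
    (by simp) (by rw [mul_one, hD]) (nil_W (W N ^ k) (by ring)) (by simp)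
    (nil_W (W N ^ k * D) (by rw [pow_succ] at hD; grind))
  exact ⟨t, D, ht, ht', hD⟩

theorem ex_f (N : ℕ) {k : ℕ} (hk : 1 ≤ k) {D : Bq (Tr 2 N)} (sD : star D = D) :
    ∃ g : Pg (Tr 2 N), g.m = !![1, 0, 0; 0, 1, 0; W N ^ k * D, 0, 1] ∧ g.e = false ∧ Lev k g := by
  have e : W N ^ k * D = re (wv 2 N ^ k * D.re) := by
    have h := congrArg QuadraticAlgebra.re sD
    have : D = re D.re := QuadraticAlgebra.ext rfl (by simpa [re] using h)
    rw [re_mul, re_W, ← this]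
  have hm : (fP _ (Ideal.mul_mem_right D.re _ (Iw_anti hk (wv_pow_mem_Iw 2 N k))) false).m =
      !![1, 0, 0; 0, 1, 0; W N ^ k * D, 0, 1] := by rw [e]; rfl
  refine ⟨_, hm, rfl, lev_of rfl ?_⟩
  rw [pq_m, hm, map3]
  simp only [map_mul, map_one, map_zero, map_pow, W_pow le_rfl, zero_mul]

theorem cm_ua' {n k : ℕ} (h : n ≤ 2 * k) {u : Pg (Tr 2 N)}
    (hu : u.m = !![1, W N ^ k, om _ * (W N ^ k) ^ 2; 0, 1, W N ^ k; 0, 0, 1]) (hu' : u.e = false) :
    (cm (pq N n u) (pq N n (aP N))).m = !![1, 0, ph N n (W N) ^ k; 0, 1, 0; 0, 0, 1] := by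
  refine cm_ua (two1 N n) ?_ hu' ?_ ?_ ?_ rfl
  · rw [pq_m, hu, map3]
    simp only [map_mul, map_one, map_zero, map_pow, ph_om]
  · rw [star_pow, ph_star, star_W]
  · rw [← pow_mul]; exact W_pow (by omega)
  · rw [pq_m, aP, map3]
    simp only [map_add, map_one, map_zero, ph_om]

end elements

end KQ

open KQ in
theorem blk_KQ : St_KillQ := by
  intro N τ Fl hF
  obtain ⟨s, a, b, c, hs, hs', ha, hL⟩ := ex_s N
  refine ⟨⟨s⟩, (hF.2 _ _ _).2 hL, fun ν hν => ?_⟩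
  obtain ⟨t, l, ht, ht', hl⟩ := ex_t N (ν := ν) (by omega)
  have h2 := two0 (N := N)
  have tl : Lev ν t := lev_of ht' (by
    have e1 := congrArg (ph N ν) hl
    rw [pq_m, ht, map3]
    simp only [map_mul, map_add, map_one, map_zero, map_pow, W_pow le_rfl, add_zero,
      one_mul] at e1 ⊢
    rw [e1])
  refine ⟨⟨t⟩, (hF.1 _ _).2 tl, (hF.1 _ _).2 ?_, fun i hi => ?_⟩
  · rw [lev_iff, cm_left hF (x := ⟨t⟩) tl (by omega) (by omega), ← map_cm, cm_dd ht ht' hs hs',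
      map_one]
  obtain ⟨j, rfl⟩ : ∃ j, ν = j + 1 + i := ⟨ν - 1 - i, by omega⟩
  obtain ⟨V, sV, hV⟩ := ex_inv (wv_mem N)
  change (1 + W N) * V = 1 at hV
  obtain ⟨f, hf, hf', fl⟩ := ex_f N (k := j + 1) (by omega) (star_one _)
  rw [mul_one] at hf
  obtain ⟨g, hg, hg', gl⟩ := ex_f N (k := j) (by omega) sV
  have sy : star (W N ^ j * V) = W N ^ j * V := by rw [star_mul', star_pow, star_W, sV]
  obtain ⟨u, hu, hu'⟩ := ex_u h2 (b := W N ^ (j + 1 + i + i)) (by rw [star_pow, star_W])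
  have ul : Lev (j + 1 + i + i) u := lev_of hu' (by
    rw [pq_m, hu, map3]
    simp only [map_mul, map_one, map_zero, map_pow, W_pow le_rfl, mul_zero, ne_eq,
      OfNat.ofNat_ne_zero, not_false_eq_true, zero_pow])
  have g3 : Lev (j + 1 + i - 3) g :=
    (hF.1 _ ⟨g⟩).1 (Fl.anti (by omega) ((hF.1 _ _).2 gl))
  have t3 : Lev (j + 1 + i - 3) t :=
    (hF.1 _ ⟨t⟩).1 (Fl.anti (by omega) ((hF.1 _ _).2 tl))
  refine ⟨⟨f⟩, ⟨g⟩, ⟨u⟩, (hF.2 _ _ _).2 (plead_of hf' ?_), (hF.1 _ _).2 ?_, (hF.1 _ _).2 g3, ?_,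
    (hF.1 _ _).2 (lev_inv_mul (by omega) ?_), (hF.1 _ _).2 ul, (hF.2 _ _ _).2 ?_,
    (hF.1 _ _).2 (lev_inv_mul (by omega) ?_)⟩
  · rw [cM_F, pq_m, hf, Nat.add_sub_cancel]
  · rw [lev_iff, sq, pq_mul (fixA (x := ⟨f⟩) fl (by omega) _), ← map_mul, sq_f h2 hf hf', map_one]
  · rw [← cm_inv]
    refine inv_mem ((hF.1 _ _).2 ?_)
    rw [lev_iff, cm_both hF (x := ⟨g⟩) (y := ⟨t⟩) g3 t3 (by omega), ← map_cm, ← lev_iff]
    refine lev_of (cm_e _ _) ?_
    have e : W N ^ j * V * (1 + (1 + W N ^ (j + 1 + i)) * star (1 + W N ^ (j + 1 + i))) =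
        W N ^ (j + 2 * (j + 1 + i)) * V := by
      rw [star_add, star_one, star_pow, star_W, pow_add _ j (2 * _), pow_mul']
      grind
    rw [pq_m, cm_fd h2 hg hg' sy ht ht', e, map3]
    simp only [map_mul, map_one, map_zero, map_pow]
    rw [W_pow (by omega), zero_mul]
  · rw [cm_left hF (x := ⟨g⟩) gl (by omega) (by omega), ← map_cm]
    refine congrArg _ (Pg.ext ?_ (hf'.trans (cm_e _ _).symm))
    rw [cm_fd h2 hg hg' sy hs hs', ha, hf, pow_succ]
    apply ext3 <;> grind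
  · have h := cm_left hF (n := j + 1 + i + i + 1) (x := ⟨u⟩) ul (by omega) (by omega) ⟨aP N⟩
    refine plead_of ((pq_e _ _).symm.trans (h ▸ cm_e _ _)) ?_
    rw [h, cm_ua' (by omega) hu hu', cM_E, map3]
    simp only [map_one, map_zero, map_pow]
  · rw [pq_mul (fixA (x := ⟨t⟩) tl (by omega) _),
      cm_left hF (x := ⟨u⟩) ul (by omega) (by omega),
      cm_right hF (y := ⟨f⟩) fl (by omega) (by omega)]
    refine Pg.ext ?_ (by rw [Pg.mul_e, pq_e, cm_e, cm_e]; exact congrArg (xor · false) ht')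
    have e1 := congrArg (ph N (j + 1 + i + 3)) hl
    have e2 := two1 N (j + 1 + i + 3)
    have e3 : ph N (j + 1 + i + 3) (W N) ^ i * ph N (j + 1 + i + 3) (W N) ^ (j + 1) *
        ph N (j + 1 + i + 3) (W N) ^ (j + 1) = 0 := by
      rw [← pow_add, ← pow_add]; exact W_pow (by omega)
    rw [mul_m0 (x := pq N _ t) ht', cm_ua' (by omega) hu hu',
      cm_ef e2 (x := ph N _ (W N) ^ i) (y := ph N _ (W N) ^ (j + 1)) ?_ rfl
        (by rw [star_pow, ph_star, star_W]) ?_ hf' (by rw [star_pow, ph_star, star_W]) e3,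
      pq_m, ht, map3, Matrix.mul_fin_three]
    · simp only [map_mul, map_add, map_one, map_zero, map_pow, pow_add _ (j + 1 + i) i,
        pow_add _ (j + 1) i] at e1 ⊢
      generalize ph N (j + 1 + i + 3) (W N) ^ (j + 1) = y at *
      generalize ph N (j + 1 + i + 3) (W N) ^ i = x at *
      apply ext3 <;> grind
    · simp only [pq_m, eP, map3, map_one, map_zero, map_pow, re_W]
    · rw [pq_m, hf, map3]
      simp only [map_one, map_zero, map_pow]

end Pool.Agent.Lib.MP_0813d1_al.Two
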