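import Mathlib
import Pool.Agent.Lib.MP_0813d1_al.TwoBlue

namespace Pool.Agent.Lib.MP_0813d1_al.Two

open PC

variable {N : ℕ}

/-! ### entries -/

theorem bq_add_self (x : Bq (Tr 2 N)) : x + x = 0 := by
  ext <;> simp [tr_add_self]

theorem m3_add_self (X : M3 (Bq (Tr 2 N))) : X + X = 0 := by
  ext1 i j; exact bq_add_self _

theorem m3_neg (X : M3 (Bq (Tr 2 N))) : -X = X := neg_eq_of_add_eq_zero_left (m3_add_self X)

theorem re_eq (x : Tr 2 N) : re x = algebraMap (Tr 2 N) (Bq (Tr 2 N)) x := rfl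
theorem re_add (x y : Tr 2 N) : re (x + y) = re x + re y := by simp only [re_eq, map_add]
theorem re_mul (x y : Tr 2 N) : re (x * y) = re x * re y := by simp only [re_eq, map_mul]
theorem re_one : re (1 : Tr 2 N) = 1 := by simp only [re_eq, map_one]
theorem re_zero : re (0 : Tr 2 N) = 0 := by simp only [re_eq, map_zero]
theorem star_re (x : Tr 2 N) : star (re x) = re x := by ext <;> simp [re]
theorem sg_re (e : Bool) (x : Tr 2 N) : sg _ e (re x) = re x := by cases e <;> simp [star_re]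
theorem bmap_re' {A A' : Type} [CommRing A] [CommRing A'] (f : A →+* A') (x : A) :
    bmap f (re x) = re (f x) := by ext <;> simp [re]
theorem bmap_om {A A' : Type} [CommRing A] [CommRing A'] (f : A →+* A') :
    bmap f (om A) = om A' := by ext <;> simp [om]

namespace InB
variable {m n : ℕ} {x y : Bq (Tr 2 N)}

theorem zero (n : ℕ) : InB n (0 : Bq (Tr 2 N)) := ⟨zero_mem _, zero_mem _⟩
theorem add (hx : InB n x) (hy : InB n y) : InB n (x + y) := ⟨add_mem hx.1 hy.1, add_mem hx.2 hy.2⟩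
theorem neg (hx : InB n x) : InB n (-x) := ⟨neg_mem hx.1, neg_mem hx.2⟩
theorem sub (hx : InB n x) (hy : InB n y) : InB n (x - y) := by
  rw [sub_eq_add_neg]; exact hx.add hy.neg
theorem mono (hx : InB n x) (h : m ≤ n) : InB m x := ⟨Iw_anti h hx.1, Iw_anti h hx.2⟩
theorem zero_level (x : Bq (Tr 2 N)) : InB 0 x := ⟨mem_Iw_zero _, mem_Iw_zero _⟩
theorem mul (hx : InB m x) (hy : InB n y) : InB (m + n) (x * y) := by
  constructor
  · simpa using add_mem (mul_mem_Iw hx.1 hy.1) (mul_mem_Iw hx.2 hy.2)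
  · simpa using add_mem (add_mem (mul_mem_Iw hx.1 hy.2) (mul_mem_Iw hx.2 hy.1))
      (mul_mem_Iw hx.2 hy.2)
theorem mul_left (x : Bq (Tr 2 N)) (hy : InB n y) : InB n (x * y) := by
  simpa using (zero_level x).mul hy
theorem mul_right (hx : InB n x) (y : Bq (Tr 2 N)) : InB n (x * y) := by
  simpa using hx.mul (zero_level y)
theorem star (hx : InB n x) : InB n (star x) := by
  constructor
  · simpa using add_mem hx.1 hx.2
  · simpa using hx.2
theorem sg (e : Bool) (hx : InB n x) : InB n (sg _ e x) := by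
  cases e
  · exact hx
  · exact hx.star
theorem sum {ι : Type*} {s : Finset ι} {f : ι → Bq (Tr 2 N)} (h : ∀ i ∈ s, InB n (f i)) :
    InB n (∑ i ∈ s, f i) :=
  Finset.sum_induction f (InB n) (fun _ _ => add) (zero n) h
theorem eq_zero (hx : InB n x) (h : N ≤ n) : x = 0 :=
  QuadraticAlgebra.ext (eq_zero_of_mem_Iw h hx.1) (eq_zero_of_mem_Iw h hx.2)
theorem pow (hx : InB n x) (k : ℕ) : InB (n * k) (x ^ k) := by
  induction k with
  | zero => exact zero_level _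
  | succ k ih => rw [pow_succ, Nat.mul_succ]; exact ih.mul hx
theorem nilp (hx : InB 1 x) : IsNilpotent x := ⟨N, (hx.pow N).eq_zero (by simp)⟩

end InB

theorem inB_re {n : ℕ} {x : Tr 2 N} (h : x ∈ Iw 2 N n) : InB n (re x) := ⟨h, zero_mem _⟩

theorem exists_leadB {n : ℕ} {x : Bq (Tr 2 N)} (h : InB n x) :
    ∃ c : F4, InB (n + 1) (x - re (wv 2 N ^ n) * bmap (algebraMap (ZMod 2) (Tr 2 N)) c) := by
  obtain ⟨c, hc⟩ := exists_lead n h.1
  obtain ⟨d, hd⟩ := exists_lead n h.2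
  exact ⟨⟨c, d⟩, by simpa [re] using hc, by simpa [re] using hd⟩

theorem leadB_eq_zero {n : ℕ} (hn : n < N) {c : F4}
    (h : InB (n + 1) (re (wv 2 N ^ n) * bmap (algebraMap (ZMod 2) (Tr 2 N)) c)) : c = 0 :=
  QuadraticAlgebra.ext (lead_eq_zero hn (by simpa [re] using h.1))
    (lead_eq_zero hn (by simpa [re] using h.2))

theorem inB_of_nilpotent {x : Bq (Tr 2 N)} (h : IsNilpotent x) : InB 1 x := by
  rcases Nat.eq_zero_or_pos N with rfl | hN
  · have : ∀ y : Tr 2 0, y = 0 := fun y => eq_zero_of_mem_Iw le_rfl (mem_Iw_zero y)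
    exact ⟨by rw [this x.re]; exact zero_mem _, by rw [this x.im]; exact zero_mem _⟩
  obtain ⟨c, hc⟩ := exists_leadB (InB.zero_level x)
  rw [pow_zero, re_one, one_mul] at hc
  have h1 : IsNilpotent (bmap (algebraMap (ZMod 2) (Tr 2 N)) c) := by
    have := (Commute.all _ _).isNilpotent_sub h (InB.nilp hc)
    simpa using this
  obtain ⟨k, hk⟩ := h1
  have h2 : c ^ k = 0 := leadB_eq_zero hN (by
    rw [map_pow, hk, mul_zero]; exact InB.zero _)
  have h3 : ∀ c : F4, c = 0 ∨ c ^ 3 = 1 := by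
    rintro ⟨x, y⟩; revert x y; decide
  rcases h3 c with rfl | h4
  · simpa using hc
  · have : (c ^ 3) ^ k = 0 := by rw [← pow_mul, mul_comm, pow_mul, h2]; simp
    rw [h4, one_pow] at this
    exact absurd this (by decide)

theorem mem_one_of_nilpotent {x : Tr 2 N} (h : IsNilpotent x) : x ∈ Iw 2 N 1 :=
  (inB_of_nilpotent (h.map (algebraMap (Tr 2 N) (Bq (Tr 2 N))))).1

namespace InM
variable {m n : ℕ} {X Y : M3 (Bq (Tr 2 N))}

theorem zero (n : ℕ) : InM n (0 : M3 (Bq (Tr 2 N))) := fun _ _ => InB.zero n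
theorem add (hX : InM n X) (hY : InM n Y) : InM n (X + Y) := fun i j => (hX i j).add (hY i j)
theorem neg (hX : InM n X) : InM n (-X) := fun i j => (hX i j).neg
theorem sub (hX : InM n X) (hY : InM n Y) : InM n (X - Y) := fun i j => (hX i j).sub (hY i j)
theorem mono (hX : InM n X) (h : m ≤ n) : InM m X := fun i j => (hX i j).mono h
theorem zero_level (X : M3 (Bq (Tr 2 N))) : InM 0 X := fun _ _ => InB.zero_level _
theorem mul (hX : InM m X) (hY : InM n Y) : InM (m + n) (X * Y) := fun i j => by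
  rw [Matrix.mul_apply]; exact InB.sum fun k _ => (hX i k).mul (hY k j)
theorem mul_left (X : M3 (Bq (Tr 2 N))) (hY : InM n Y) : InM n (X * Y) := by
  simpa using (zero_level X).mul hY
theorem mul_right (hX : InM n X) (Y : M3 (Bq (Tr 2 N))) : InM n (X * Y) := by
  simpa using hX.mul (zero_level Y)
theorem sg (e : Bool) (hX : InM n X) : InM n (X.map (sg _ e)) := fun i j => (hX i j).sg e
theorem adj (hX : InM n X) : InM n (adj X) := fun _ _ => (hX _ _).star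
theorem eq_zero (hX : InM n X) (h : N ≤ n) : X = 0 := by
  ext1 i j; exact (hX i j).eq_zero h
theorem congr (hX : InM n X) (h : X = Y) : InM n Y := h ▸ hX

end InM

theorem cM_mem (n : ℕ) (X : M3 F4) : InM n (cM N n X) := fun _ _ =>
  (inB_re (wv_pow_mem_Iw 2 N n)).mul_right _
theorem cM_add (n : ℕ) (X Y : M3 F4) : cM N n (X + Y) = cM N n X + cM N n Y := by
  ext1 i j; simp [cM, mul_add]
theorem cM_zero (n : ℕ) : cM N n 0 = 0 := by ext1 i j; simp [cM]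
theorem cM_mul (m n : ℕ) (X Y : M3 F4) : cM N m X * cM N n Y = cM N (m + n) (X * Y) := by
  ext1 i j
  simp only [cM, Matrix.mul_apply, Matrix.map_apply, map_sum, map_mul, Finset.mul_sum, pow_add,
    re_mul]
  exact Finset.sum_congr rfl fun k _ => by ring
theorem cM_adj (n : ℕ) (X : M3 F4) : adj (cM N n X) = cM N n (adj X) := by
  ext1 i j; simp [cM, adj_apply, star_re, bmap_star]
theorem cM_eq_zero {n : ℕ} (hn : n < N) {X : M3 F4} (h : InM (n + 1) (cM N n X)) : X = 0 := by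
  ext1 i j; exact leadB_eq_zero hn (h i j)
theorem exists_leadM {n : ℕ} {X : M3 (Bq (Tr 2 N))} (h : InM n X) :
    ∃ Y : M3 F4, InM (n + 1) (X - cM N n Y) := by
  choose c hc using fun i j => exists_leadB (h i j)
  exact ⟨Matrix.of c, hc⟩

/-! ### levels -/

theorem map_sg_sub_one (e : Bool) (X : M3 (Bq (Tr 2 N))) :
    (X - 1).map (sg _ e) = X.map (sg _ e) - 1 := by
  have := (sg (Tr 2 N) e).mapMatrix.map_sub X 1
  rw [map_one] at this; exact this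

theorem adj_sub_one (X : M3 (Bq (Tr 2 N))) : adj (X - 1) = adj X - 1 := by
  rw [sub_eq_add_neg, sub_eq_add_neg, m3_neg, adj_add, adj_one]

theorem mul_m_of_false {x : Pg (Tr 2 N)} (h : x.e = false) (y : Pg (Tr 2 N)) :
    (x * y).m = x.m * y.m := by rw [Pg.mul_m, h]; rfl

theorem inv_m_of_false {x : Pg (Tr 2 N)} (h : x.e = false) : (x⁻¹).m = adj x.m := by
  rw [Pg.inv_m, h]; rfl

/-- conjugation -/
theorem conj_m (g u : Pg (Tr 2 N)) (hu : u.e = false) :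
    (g⁻¹ * u * g).m = (adj g.m * u.m * g.m).map (sg _ g.e) := by
  rw [Pg.mul_m, Pg.mul_m, Pg.mul_e, Pg.inv_m, Pg.inv_e, hu, Bool.xor_false, Matrix.map_mul,
    Matrix.map_mul]

theorem lev_inv_mul {k : ℕ} {g h : Pg (Tr 2 N)} :
    Lev k (g⁻¹ * h) ↔ g.e = h.e ∧ InM k (h.m - g.m) := by
  have e1 : (g⁻¹ * h).m - 1 = (adj g.m * (h.m - g.m)).map (sg _ g.e) := by
    rw [mul_sub, g.isP.uni', map_sg_sub_one, Pg.mul_m, Pg.inv_m, Pg.inv_e, Matrix.map_mul]
  have e2 : h.m - g.m = g.m * ((g⁻¹ * h).m - 1).map (sg _ g.e) := by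
    rw [map_sg_sub_one, mul_sub, mul_one, ← Pg.mul_m, mul_inv_cancel_left]
  have e3 : (g⁻¹ * h).e = false ↔ g.e = h.e := by
    rw [Pg.mul_e, Pg.inv_e]; cases g.e <;> cases h.e <;> simp
  constructor
  · rintro ⟨h1, h2⟩
    exact ⟨e3.1 h1, e2 ▸ InM.mul_left _ (h2.sg _)⟩
  · rintro ⟨h1, h2⟩
    exact ⟨e3.2 h1, e1 ▸ (InM.mul_left _ h2).sg _⟩

/-- the congruence subgroups of the untwisted group -/
def Gp (N k : ℕ) : Subgroup (Pg (Tr 2 N)) where
  carrier := {g | Lev k g}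
  one_mem' := ⟨rfl, by rw [Pg.one_m, sub_self]; exact InM.zero k⟩
  mul_mem' := fun {g h} hg hh => ⟨by rw [Pg.mul_e, hg.1, hh.1]; rfl, by
    rw [mul_m_of_false hg.1]
    exact ((hg.2.mul_right h.m).add hh.2).congr (by noncomm_ring)⟩
  inv_mem' := fun {g} hg => ⟨hg.1, by
    rw [inv_m_of_false hg.1, ← adj_sub_one]; exact hg.2.adj⟩

theorem mem_Gp {k : ℕ} {g : Pg (Tr 2 N)} : g ∈ Gp N k ↔ Lev k g := Iff.rfl

instance Gp_normal (k : ℕ) : (Gp N k).Normal := ⟨fun u hu g => by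
  have e : g * u * g⁻¹ = g⁻¹⁻¹ * u * g⁻¹ := by rw [inv_inv]
  rw [e]
  generalize g⁻¹ = h
  refine ⟨by simp [Pg.mul_e, Pg.inv_e, hu.1], ?_⟩
  rw [conj_m _ _ hu.1, ← map_sg_sub_one]
  refine InM.sg _ (((InM.mul_left (adj h.m) hu.2).mul_right h.m).congr ?_)
  rw [mul_sub, sub_mul, mul_one, h.isP.uni']⟩

theorem Lev.mono {j k : ℕ} {g : Pg (Tr 2 N)} (h : Lev k g) (hj : j ≤ k) : Lev j g :=
  ⟨h.1, h.2.mono hj⟩
theorem Lev.mul {k : ℕ} {g h : Pg (Tr 2 N)} (hg : Lev k g) (hh : Lev k h) : Lev k (g * h) :=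
  (Gp N k).mul_mem hg hh
theorem Lev.inv {k : ℕ} {g : Pg (Tr 2 N)} (hg : Lev k g) : Lev k g⁻¹ := (Gp N k).inv_mem hg
theorem lev_one (k : ℕ) : Lev k (1 : Pg (Tr 2 N)) := (Gp N k).one_mem
theorem Lev.eq_one {k : ℕ} {g : Pg (Tr 2 N)} (hg : Lev k g) (h : N ≤ k) : g = 1 :=
  Pg.ext (sub_eq_zero.1 (hg.2.eq_zero h)) hg.1
theorem PLead.lev {k : ℕ} {g : Pg (Tr 2 N)} {X : su} (h : PLead k g X) : Lev k g :=
  ⟨h.1, ((h.2.mono (Nat.le_succ k)).add (cM_mem k X.1)).congr (by abel)⟩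
theorem PLead.congr {k : ℕ} {g h : Pg (Tr 2 N)} {X : su} (hg : PLead k g X)
    (hh : Lev (k + 1) (g⁻¹ * h)) : PLead k h X := by
  obtain ⟨h1, h2⟩ := lev_inv_mul.1 hh
  exact ⟨h1 ▸ hg.1, (hg.2.add h2).congr (by abel)⟩

theorem lev_cm {i j : ℕ} {g h : Pg (Tr 2 N)} (hg : Lev i g) (hh : Lev j h) :
    Lev (i + j) (cm g h) := by
  have e : cm g h = (h * g)⁻¹ * (g * h) := by simp [cm, mul_assoc]
  rw [e, lev_inv_mul, mul_m_of_false hg.1, mul_m_of_false hh.1]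
  refine ⟨by simp [Pg.mul_e, hg.1, hh.1], ?_⟩
  have h2 := hh.2.mul hg.2
  rw [add_comm] at h2
  exact ((hg.2.mul hh.2).sub h2).congr (by noncomm_ring)

/-! ### automorphisms and reduction -/

theorem au_wv_mem (σ : Au 2 N) : σ (wv 2 N) ∈ Iw 2 N 1 :=
  mem_one_of_nilpotent ((nilp_of_mem (wv_mem N)).map σ)

theorem act_m (σ : Au 2 N) (g : Pg (Tr 2 N)) :
    (act σ g).m = g.m.map (bmap (σ : Tr 2 N →+* Tr 2 N)) := rfl
theorem act_e (σ : Au 2 N) (g : Pg (Tr 2 N)) : (act σ g).e = g.e := rfl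

theorem map_sub_one {A A' : Type} [CommRing A] [CommRing A'] (f : A →+* A') (X : M3 (Bq A)) :
    (X - 1).map (bmap f) = X.map (bmap f) - 1 := by
  have := (bmap f).mapMatrix.map_sub X 1
  rw [map_one] at this; exact this

theorem InM.act {n : ℕ} {X : M3 (Bq (Tr 2 N))} (h : InM n X) (σ : Au 2 N) :
    InM n (X.map (bmap (σ : Tr 2 N →+* Tr 2 N))) := fun i j =>
  ⟨algHom_mem_Iw (σ : Tr 2 N →ₐ[ZMod 2] Tr 2 N) (au_wv_mem σ) (h i j).1,
    algHom_mem_Iw (σ : Tr 2 N →ₐ[ZMod 2] Tr 2 N) (au_wv_mem σ) (h i j).2⟩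

theorem inM_act_sub0 {d : ℕ} {σ : Au 2 N} (hσ : σ (wv 2 N) - wv 2 N ∈ Iw 2 N d)
    (X : M3 (Bq (Tr 2 N))) : InM d (X.map (bmap (σ : Tr 2 N →+* Tr 2 N)) - X) := fun i j =>
  ⟨algHom_sub_mem (σ : Tr 2 N →ₐ[ZMod 2] Tr 2 N) hσ (X i j).re,
    algHom_sub_mem (σ : Tr 2 N →ₐ[ZMod 2] Tr 2 N) hσ (X i j).im⟩

theorem InM.act_sub {d j : ℕ} {σ : Au 2 N} (hσ : σ (wv 2 N) - wv 2 N ∈ Iw 2 N (d + 1))
    {X : M3 (Bq (Tr 2 N))} (h : InM j X) :
    InM (j + d) (X.map (bmap (σ : Tr 2 N →+* Tr 2 N)) - X) := by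
  rcases j with _ | j
  · exact (inM_act_sub0 hσ X).mono (by omega)
  · intro a b
    rw [show j + 1 + d = j + (d + 1) by ring]
    exact ⟨algHom_sub_mem' (by omega) (σ : Tr 2 N →ₐ[ZMod 2] Tr 2 N) hσ (h a b).1,
      algHom_sub_mem' (by omega) (σ : Tr 2 N →ₐ[ZMod 2] Tr 2 N) hσ (h a b).2⟩

theorem Lev.act {k : ℕ} {g : Pg (Tr 2 N)} (h : Lev k g) (σ : Au 2 N) : Lev k (act σ g) :=
  ⟨h.1, by rw [act_m, ← map_sub_one]; exact h.2.act σ⟩

theorem lev_act_iff {k : ℕ} {g : Pg (Tr 2 N)} (σ : Au 2 N) : Lev k (act σ g) ↔ Lev k g :=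
  ⟨fun h => by simpa [← act_mul, act_one] using h.act σ⁻¹, fun h => h.act σ⟩

theorem act_near0 {d : ℕ} {σ : Au 2 N} (hσ : σ (wv 2 N) - wv 2 N ∈ Iw 2 N d) (g : Pg (Tr 2 N)) :
    Lev d (g⁻¹ * act σ g) := lev_inv_mul.2 ⟨rfl, inM_act_sub0 hσ _⟩

theorem act_near {d j : ℕ} {σ : Au 2 N} (hσ : σ (wv 2 N) - wv 2 N ∈ Iw 2 N (d + 1))
    {g : Pg (Tr 2 N)} (h : Lev j g) : Lev (j + d) (g⁻¹ * act σ g) :=
  lev_inv_mul.2 ⟨rfl, (h.2.act_sub hσ).congr (by rw [map_sub_one, act_m]; abel)⟩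

theorem inM_red_iff {M k : ℕ} (h : M ≤ N) (hk : k ≤ M) {X : M3 (Bq (Tr 2 N))} :
    InM k (X.map (bmap (red 2 h : Tr 2 N →+* Tr 2 M))) ↔ InM k X :=
  forall₂_congr fun i j => and_congr (red_mem_iff h hk (X i j).re) (red_mem_iff h hk (X i j).im)

theorem redP_m {M : ℕ} (h : M ≤ N) (g : Pg (Tr 2 N)) :
    (redP h g).m = g.m.map (bmap (red 2 h : Tr 2 N →+* Tr 2 M)) := rfl
theorem redP_e {M : ℕ} (h : M ≤ N) (g : Pg (Tr 2 N)) : (redP h g).e = g.e := rfl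

theorem redP_lev {M k : ℕ} (h : M ≤ N) (hk : k ≤ M) {g : Pg (Tr 2 N)} :
    Lev k (redP h g) ↔ Lev k g :=
  and_congr Iff.rfl (by rw [redP_m, ← map_sub_one, inM_red_iff h hk])

theorem Lev.red {M k : ℕ} (h : M ≤ N) {g : Pg (Tr 2 N)} (hg : Lev k g) : Lev k (redP h g) := by
  rcases le_total k M with hk | hk
  · exact (redP_lev h hk).2 hg
  · rw [((redP_lev h le_rfl).2 (hg.mono hk)).eq_one le_rfl]; exact lev_one k

theorem cM_red {M : ℕ} (h : M ≤ N) (n : ℕ) (X : M3 F4) :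
    (cM N n X).map (bmap (red 2 h : Tr 2 N →+* Tr 2 M)) = cM M n X := by
  ext1 i j
  simp only [cM, Matrix.map_apply, map_mul, bmap_re', map_pow, RingHom.coe_coe, red_wv]
  congr 1
  exact QuadraticAlgebra.ext ((red 2 h).commutes _) ((red 2 h).commutes _)

theorem redP_lead {M k : ℕ} (h : M ≤ N) (hk : k + 1 ≤ M) {g : Pg (Tr 2 N)} {X : su} :
    PLead k (redP h g) X ↔ PLead k g X := by
  refine and_congr Iff.rfl ?_
  rw [← inM_red_iff h hk, redP_m, ← cM_red h, ← map_sub_one]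
  have := (bmap (red 2 h : Tr 2 N →+* Tr 2 M)).mapMatrix.map_sub (g.m - 1) (cM N k X.1)
  simp only [RingHom.mapMatrix_apply] at this
  rw [this]

theorem redP_act {M : ℕ} (h : M ≤ N) {σ : Au 2 N} {σ' : Au 2 M}
    (hσ : ∀ x, red 2 h (σ x) = σ' (red 2 h x)) (g : Pg (Tr 2 N)) :
    redP h (act σ g) = act σ' (redP h g) := by
  unfold redP act
  rw [Pg.map_map, Pg.map_map]
  congr 2
  exact RingHom.ext hσ

theorem map_eP {M : ℕ} (f : Tr 2 N →+* Tr 2 M) (x : Tr 2 N) : Pg.map f (eP x) = eP (f x) := by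
  refine Pg.ext ?_ rfl
  ext1 i j; fin_cases i <;> fin_cases j <;> simp [Pg.map_m, eP, bmap_re']

theorem redP_eP {M : ℕ} (h : M ≤ N) (x : Tr 2 N) : redP h (eP x) = eP (red 2 h x) := map_eP _ x
theorem act_eP (σ : Au 2 N) (x : Tr 2 N) : act σ (eP x) = eP (σ x) := map_eP _ x

theorem eP_mul (x y : Tr 2 N) : eP x * eP y = eP (x + y) := by
  refine Pg.ext ?_ rfl
  rw [mul_m_of_false rfl]
  ext1 i j
  fin_cases i <;> fin_cases j <;> simp [eP, Matrix.mul_apply, Fin.sum_univ_three, re_add, add_comm]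

theorem lev_eP {k : ℕ} {x : Tr 2 N} : Lev k (eP x) ↔ x ∈ Iw 2 N k := by
  constructor
  · intro h; simpa [eP, re] using (h.2 0 2).1
  · intro h
    refine ⟨rfl, fun i j => ?_⟩
    fin_cases i <;> fin_cases j <;> simp [eP, InB.zero, inB_re h]

theorem lev_fP {k : ℕ} {y : Tr 2 N} {hy : y ∈ Iw 2 N 1} (h : y ∈ Iw 2 N k) :
    Lev k (fP y hy false) := by
  refine ⟨rfl, fun i j => ?_⟩
  fin_cases i <;> fin_cases j <;> simp [fP, InB.zero, inB_re h]

theorem redP_aP {M : ℕ} (h : M ≤ N) : redP h (aP N) = aP M := by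
  refine Pg.ext ?_ rfl
  ext1 i j; fin_cases i <;> fin_cases j <;> simp [redP_m, aP, bmap_om]

theorem redP_bP {M : ℕ} (h : M ≤ N) : redP h (bP N) = bP M := by
  refine Pg.ext ?_ rfl
  ext1 i j; fin_cases i <;> fin_cases j <;> simp [redP_m, bP, fP, bmap_re']

/-! ### the twisted group -/

namespace Tw
variable (τ : Tw N)

/-- any element moves an element of level `j` by level `j + 13` -/
theorem near (x : τ.Q) {j : ℕ} {g : Pg (Tr 2 N)} (h : Lev j g) :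
    Lev (j + 13) (g⁻¹ * act (τ.ρ x.g) g) := act_near (τ.dep0 x.g) h

theorem near0 (x : τ.Q) (g : Pg (Tr 2 N)) : Lev 14 (g⁻¹ * act (τ.ρ x.g) g) :=
  act_near0 (τ.dep0 x.g) g

theorem near_deep {x : τ.Q} {i j : ℕ} (hx : Lev i x.g) {g : Pg (Tr 2 N)} (h : Lev j g) :
    Lev (j + (2 * i + 13)) (g⁻¹ * act (τ.ρ x.g) g) := act_near (τ.dep i x.g hx) h

theorem near_deep0 {x : τ.Q} {i : ℕ} (hx : Lev i x.g) (g : Pg (Tr 2 N)) :
    Lev (2 * i + 14) (g⁻¹ * act (τ.ρ x.g) g) := act_near0 (τ.dep i x.g hx) g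

theorem mul_near (x y : τ.Q) {k : ℕ} (h : Lev k (y.g⁻¹ * act (τ.ρ x.g) y.g)) :
    Lev k ((x.g * y.g)⁻¹ * (x * y).g) := by
  rw [mul_g]; simpa [mul_assoc] using h

theorem inv_near (x : τ.Q) {j : ℕ} (h : Lev j x.g) : Lev (j + 13) ((x.g⁻¹)⁻¹ * (x⁻¹).g) := by
  rw [inv_g, ← rho_inv]; exact τ.near _ h.inv

/-- `x⁻¹ * y` in the twisted group has the same level as in the untwisted group -/
theorem lev_inv_mul_iff (x y : τ.Q) {k : ℕ} : Lev k (x⁻¹ * y).g ↔ Lev k (x.g⁻¹ * y.g) := by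
  rw [mul_g, rho_inv, inv_g, ← map_mul, lev_act_iff]

/-- comparison of the twisted and the untwisted commutator -/
theorem cm_near (x y : τ.Q) {j k : ℕ} (h1 : Lev k (y.g⁻¹ * act (τ.ρ x.g) y.g))
    (h2 : Lev k (x.g⁻¹ * act (τ.ρ y.g) x.g)) (h3 : Lev j (cm x.g y.g)) (hj : j ≤ k)
    (hk : k ≤ j + 13) : Lev k ((cm x.g y.g)⁻¹ * (cm x y).g) := by
  have e : cm x y = (y * x)⁻¹ * (x * y) := by simp [cm, mul_assoc]
  have e1 : act (τ.ρ (y * x).g) (cm x y).g = (y * x).g⁻¹ * (x * y).g := by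
    rw [eq_inv_mul_iff_mul_eq, ← mul_g, e, mul_inv_cancel_left]
  have h4 : Lev k ((cm x.g y.g)⁻¹ * act (τ.ρ (y * x).g) (cm x y).g) := by
    rw [e1, ← mem_Gp, ← QuotientGroup.eq]
    have a1 := QuotientGroup.eq.2 (mem_Gp.2 (τ.mul_near x y h1))
    have a2 := QuotientGroup.eq.2 (mem_Gp.2 (τ.mul_near y x h2))
    rw [QuotientGroup.mk_mul, QuotientGroup.mk_inv, ← a1, ← a2]
    simp [cm, mul_assoc]
  have h5 : Lev j (cm x y).g := by
    rw [← lev_act_iff (τ.ρ (y * x).g)]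
    simpa using h3.mul (h4.mono hj)
  have h6 := ((τ.near (y * x) h5).mono hk).inv
  simpa [mul_assoc] using h4.mul h6

/-- reduction modulo `w ^ 11` is a homomorphism to the untwisted group -/
noncomputable def red11 (h : 11 ≤ N) : τ.Q →* Pg (Tr 2 11) :=
  MonoidHom.mk' (fun x => redP h x.g) fun x y => by
    rw [mul_g, map_mul]
    congr 1
    have := (((τ.near0 x y.g).mono (by omega : 11 ≤ 14)).red h).eq_one le_rfl
    rw [map_mul, map_inv, inv_mul_eq_one] at this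
    exact this.symm

theorem red11_apply (h : 11 ≤ N) (x : τ.Q) : τ.red11 h x = redP h x.g := rfl

end Tw

end Pool.Agent.Lib.MP_0813d1_al.Two
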