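import Mathlib
import Pool.Agent.Lib.MP_0813d1_al.TwoApi

namespace Pool.Agent.Lib.MP_0813d1_al.Two

open PC

namespace MOD

variable {N n : ℕ}

/-- reduction of matrices modulo `w ^ 11` -/
noncomputable def rM (h : 11 ≤ N) : M3 (Bq (Tr 2 N)) →+* M3 (Bq (Tr 2 11)) :=
  (bmap (red 2 h : Tr 2 N →+* Tr 2 11)).mapMatrix

theorem rM_apply (h : 11 ≤ N) (X : M3 (Bq (Tr 2 N))) :
    rM h X = X.map (bmap (red 2 h : Tr 2 N →+* Tr 2 11)) := rfl

theorem smul_mem {k : ℕ} (n : ℕ) {Y : M3 (Bq (Tr 2 N))} (hY : InM k Y) :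
    InM (n + k) (re (wv 2 N ^ n) • Y) := fun i j =>
  (inB_re (wv_pow_mem_Iw 2 N n)).mul (hY i j)

/-- `g = 1 + w ^ n * Y` modulo `w ^ (n + 11)`, where `Y` lifts `X` -/
def MdP (h : 11 ≤ N) (n : ℕ) (g : Pg (Tr 2 N)) (X : M3 (Bq (Tr 2 11))) : Prop :=
  g.e = false ∧ ∃ Y, rM h Y = X ∧ InM (n + 11) (g.m - 1 - re (wv 2 N ^ n) • Y)

variable {h : 11 ≤ N} {g g' : Pg (Tr 2 N)} {X X' : M3 (Bq (Tr 2 11))}

theorem MdP.lev (hg : MdP h n g X) : Lev n g := by
  obtain ⟨he, Y, -, hY⟩ := hg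
  have h1 := (smul_mem n (InM.zero_level Y)).mono (Nat.le_add_right n 0)
  exact ⟨he, ((hY.mono (Nat.le_add_right n 11)).add h1).congr (sub_add_cancel _ _)⟩

theorem MdP.one : MdP h n 1 0 :=
  ⟨rfl, 0, map_zero _, (InM.zero _).congr (by rw [Pg.one_m, smul_zero, sub_self, sub_zero])⟩

theorem MdP.congr (hg : MdP h n g X) (hh : Lev (n + 11) (g⁻¹ * g')) : MdP h n g' X := by
  obtain ⟨he, Y, hX, hY⟩ := hg
  obtain ⟨h1, h2⟩ := lev_inv_mul.1 hh
  exact ⟨h1 ▸ he, Y, hX, (hY.add h2).congr (by abel)⟩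

theorem MdP.mul (hn : 11 ≤ n) (hg : MdP h n g X) (hg' : MdP h n g' X') :
    MdP h n (g * g') (X + X') := by
  have l := hg.lev
  have l' := hg'.lev
  obtain ⟨he, Y, hX, hY⟩ := hg
  obtain ⟨he', Y', hX', hY'⟩ := hg'
  refine ⟨(l.mul l').1, Y + Y', by rw [map_add, hX, hX'], ?_⟩
  rw [mul_m_of_false he]
  refine ((((l.2.mul l'.2).mono (by omega : n + 11 ≤ n + n)).add hY).add hY').congr ?_
  rw [smul_add]; noncomm_ring

theorem MdP.inv (hn : 11 ≤ n) (hg : MdP h n g X) : MdP h n g⁻¹ X := by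
  have l := hg.lev
  have l' := l.inv
  obtain ⟨he, Y, hX, hY⟩ := hg
  refine ⟨l'.1, -Y, by rw [map_neg, hX, m3_neg], ?_⟩
  have e : (g⁻¹).m * g.m = 1 := by rw [← mul_m_of_false l'.1, inv_mul_cancel, Pg.one_m]
  refine (((l'.2.mul l.2).mono (by omega : n + 11 ≤ n + n)).add hY).neg.congr ?_
  rw [smul_neg, sub_mul, mul_sub, e]; noncomm_ring

theorem MdP.conj (hg : MdP h n g X) (k : Pg (Tr 2 N)) :
    MdP h n (k⁻¹ * g * k)
      ((adj (redP h k).m * X * (redP h k).m).map (sg _ (redP h k).e)) := by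
  obtain ⟨he, Y, hX, hY⟩ := hg
  refine ⟨by simp [Pg.mul_e, Pg.inv_e, he], (adj k.m * Y * k.m).map (sg _ k.e), ?_, ?_⟩
  · rw [← hX, redP_m, redP_e, adj_map _ (bmap_star _), ← rM_apply, ← rM_apply, ← map_mul,
      ← map_mul]
    ext1 i j
    exact bmap_sg _ _ _
  · rw [conj_m _ _ he]
    refine (InM.sg k.e ((InM.mul_left (adj k.m) hY).mul_right k.m)).congr ?_
    have e : adj k.m * (g.m - 1 - re (wv 2 N ^ n) • Y) * k.m =
        adj k.m * g.m * k.m - 1 - re (wv 2 N ^ n) • (adj k.m * Y * k.m) := by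
      rw [mul_sub, sub_mul, mul_sub, sub_mul, mul_one, k.isP.uni', Matrix.mul_smul,
        Matrix.smul_mul]
    rw [e, ← map_sg_sub_one]
    ext1 i j
    simp only [Matrix.map_apply, Matrix.sub_apply, Matrix.smul_apply, smul_eq_mul, map_sub,
      map_mul, sg_re]

theorem MdP.cm (hn : 11 ≤ n) (hg : MdP h n g X) (k : Pg (Tr 2 N)) :
    MdP h n (cm g k) (xc (redP h k) X) := by
  have e : PC.cm g k = g⁻¹ * (k⁻¹ * g * k) := by simp [PC.cm, mul_assoc]
  rw [e, xc, add_comm]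
  exact (hg.inv hn).mul hn (hg.conj k)

theorem MdP.lev_of_zero (hg : MdP h n g 0) : Lev (n + 11) g := by
  obtain ⟨he, Y, hX, hY⟩ := hg
  have h1 : InM 11 Y := (inM_red_iff h le_rfl).1 (by rw [← rM_apply, hX]; exact InM.zero _)
  exact ⟨he, (hY.add (smul_mem n h1)).congr (by abel)⟩

theorem MdP.lead (hg : MdP h n g X) {Z : su} (hZ : InM 1 (X - cM 11 0 Z.1)) : PLead n g Z := by
  obtain ⟨he, Y, hX, hY⟩ := hg
  have h1 : InM 1 (Y - cM N 0 Z.1) := (inM_red_iff h (by omega)).1 (by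
    rw [← rM_apply, map_sub, hX, rM_apply, cM_red]; exact hZ)
  have e : re (wv 2 N ^ n) • cM N 0 Z.1 = cM N n Z.1 := by
    ext1 i j; simp [cM, re_one]
  refine ⟨he, ((hY.mono (by omega : n + 1 ≤ n + 11)).add (smul_mem n h1)).congr ?_⟩
  rw [smul_sub, e]; abel

theorem mdP_z (hn : 11 ≤ n) : MdP h n (zP N n) !![0, 0, 0; 0, 0, 0; 1, 0, 0] := by
  refine ⟨rfl, !![0, 0, 0; 0, 0, 0; 1, 0, 0], ?_, (InM.zero _).congr ?_⟩
  · rw [rM_apply]
    ext1 i j; fin_cases i <;> fin_cases j <;> simp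
  · have e : n - 1 + 1 = n := by omega
    ext1 i j; fin_cases i <;> fin_cases j <;> simp [zP, fP, e]

section twisted
variable {τ : Tw N} {u v : τ.Q}

theorem md_mul (hn : 11 ≤ n) (hu : MdP h n u.g X) (hv : MdP h n v.g X') :
    MdP h n (u * v).g (X + X') :=
  (hu.mul hn hv).congr (τ.mul_near u v ((τ.near u hv.lev).mono (by omega)))

theorem md_inv (hn : 11 ≤ n) (hu : MdP h n u.g X) : MdP h n (u⁻¹).g X :=
  (hu.inv hn).congr ((τ.inv_near u hu.lev).mono (by omega))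

theorem md_cm (hn : 11 ≤ n) (hu : MdP h n u.g X) (k : τ.Q) :
    MdP h n (cm u k).g (xc (redP h k.g) X) :=
  (hu.cm hn k.g).congr (τ.cm_near u k ((τ.near_deep0 hu.lev k.g).mono (by omega))
    ((τ.near k hu.lev).mono (by omega)) (hu.cm hn k.g).lev (by omega) (by omega))

theorem md_pow (hn : 11 ≤ n) (hu : MdP h n u.g X) (k : ℕ) : MdP h n (u ^ k).g (k • X) := by
  induction k with
  | zero => rw [pow_zero, zero_smul]; exact MdP.one
  | succ k ih => rw [pow_succ, succ_nsmul]; exact md_mul hn ih hu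

theorem md_prod (hn : 11 ≤ n) {ι : Type} (f : ι → τ.Q) (F : ι → M3 (Bq (Tr 2 11)))
    (hf : ∀ i, MdP h n (f i).g (F i)) (l : List ι) :
    MdP h n (l.map f).prod.g (l.map F).sum := by
  induction l with
  | nil => exact MdP.one
  | cons i l ih => rw [List.map_cons, List.map_cons, List.prod_cons, List.sum_cons]
                   exact md_mul hn (hf i) ih

theorem getD_rel {α β : Type} {R : α → β → Prop} {L : List α} {L' : List β}
    (hL : List.Forall₂ R L L') {d : α} {d' : β} (hd : R d d') (k : ℕ) :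
    R (L.getD k d) (L'.getD k d') := by
  induction hL generalizing k with
  | nil => exact hd
  | cons h1 _ ih =>
    cases k with
    | zero => exact h1
    | succ k => exact ih k

theorem red_gen (τ : Tw N) (k : ℕ) :
    redP h (gen (⟨aP N⟩ : τ.Q) ⟨bP N⟩ k).g = gen (aP 11) (bP 11) k := by
  unfold gen
  split_ifs
  · exact redP_aP h
  · exact redP_bP h

theorem md_foldl (hn : 11 ≤ n) (md : List (ℕ × ℕ)) {L : List τ.Q} {L' : List (M3 (Bq (Tr 2 11)))}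
    (hL : List.Forall₂ (fun u X => MdP h n u.g X) L L') :
    List.Forall₂ (fun u X => MdP h n u.g X) (md.foldl (mstep ⟨aP N⟩ ⟨bP N⟩) L)
      (md.foldl (xstep (aP 11) (bP 11)) L') := by
  induction md generalizing L L' with
  | nil => exact hL
  | cons d md ih =>
    rw [List.foldl_cons, List.foldl_cons]
    refine ih (List.rel_append hL (List.Forall₂.cons ?_ List.Forall₂.nil))
    rw [← red_gen (h := h) τ]
    exact md_cm hn (getD_rel hL (d := 1) MdP.one d.1) _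

theorem md_mu (hn : 11 ≤ n) (τ : Tw N) (k : ℕ) :
    MdP h n (mu D2.md (⟨aP N⟩ : τ.Q) ⟨bP N⟩ ⟨zP N n⟩ k).g (muX (aP 11) (bP 11) k) :=
  getD_rel (md_foldl hn D2.md (List.Forall₂.cons (mdP_z hn) List.Forall₂.nil)) (d := 1)
    MdP.one k

end twisted

end MOD

open MOD in
theorem blk_MOD : XFacts → St_MOD := by
  intro hX N n τ Fl hF hn hN
  have h : 11 ≤ N := by omega
  constructor
  · intro i
    obtain ⟨l, hl⟩ := hX.span i
    refine ⟨(l.map (mu D2.md (⟨aP N⟩ : τ.Q) ⟨bP N⟩ ⟨zP N n⟩)).prod, ?_, ?_⟩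
    · refine Subgroup.list_prod_mem _ fun x hx => ?_
      obtain ⟨k, -, rfl⟩ := List.mem_map.1 hx
      exact Subgroup.subset_closure ⟨k, rfl⟩
    · exact (hF.2 _ _ _).2 ((md_prod (h := h) hn _ _ (md_mu hn τ) l).lead hl)
  · intro r hr
    have h1 := md_inv hn (md_prod (h := h) hn
      (fun q : ℕ × ℕ => mu D2.md (⟨aP N⟩ : τ.Q) ⟨bP N⟩ ⟨zP N n⟩ q.1 ^ q.2) _
      (fun q => md_pow hn (md_mu hn τ q.1) q.2) r.2.2)
    have h2 := md_cm hn (md_mu (h := h) hn τ r.1) (gen ⟨aP N⟩ ⟨bP N⟩ r.2.1)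
    rw [red_gen, ← hX.rel r hr] at h2
    have h3 := md_mul hn h1 h2
    rw [m3_add_self] at h3
    exact (hF.1 _ _).2 h3.lev_of_zero

end Pool.Agent.Lib.MP_0813d1_al.Two
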