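import Pool.Agent.Lib.MP_0813d1_al.TwoBlue

namespace Pool.Agent.Lib.MP_0813d1_al.Two

namespace PGU

theorem pow_mem {R : Type} [CommRing R] (I : Ideal R) {X : M3 R} (h : ∀ i j, X i j ∈ I) (k : ℕ) :
    ∀ i j, (X ^ (k + 1)) i j ∈ I ^ (k + 1) := by
  induction k with
  | zero => simpa using h
  | succ k ih =>
    intro i j
    rw [pow_succ X, Matrix.mul_apply, pow_succ I]
    exact sum_mem fun l _ => Ideal.mul_mem_mul (ih i l) (h l j)

theorem nilp {R : Type} [CommRing R] [Finite R] {X : M3 R}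
    (h : ∀ i j, j ≤ i → IsNilpotent (X i j)) : IsNilpotent X := by
  have h0 : ∀ i j, j ≤ i → Ideal.Quotient.mk (nilradical R) (X i j) = 0 := fun i j e =>
    Ideal.Quotient.eq_zero_iff_mem.2 (h i j e)
  have h1 : ∀ i j, (X ^ 3) i j ∈ nilradical R := fun i j => by
    rw [← Ideal.Quotient.eq_zero_iff_mem]
    have a00 := h0 0 0 le_rfl
    have a11 := h0 1 1 le_rfl
    have a22 := h0 2 2 le_rfl
    have a10 := h0 1 0 (by decide)
    have a20 := h0 2 0 (by decide)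
    have a21 := h0 2 1 (by decide)
    fin_cases i <;> fin_cases j <;>
      simp [pow_succ, Matrix.mul_apply, Fin.sum_univ_three, a00, a11, a22, a10, a20, a21]
  obtain ⟨k, hk⟩ := IsNoetherianRing.isNilpotent_nilradical R
  refine ⟨3 * (k + 1), ?_⟩
  ext1 i j
  have := pow_mem _ h1 k i j
  rwa [pow_succ (nilradical R), hk, zero_mul, ← pow_mul] at this

instance {A : Type} [CommRing A] [Finite A] : Finite (Bq A) :=
  Finite.of_injective (fun x => (x.re, x.im)) fun _ _ h =>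
    QuadraticAlgebra.ext (congrArg Prod.fst h) (congrArg Prod.snd h)

instance {A : Type} [CommRing A] [Finite A] : Finite (Pg A) :=
  Finite.of_injective (fun x => (x.m, x.e)) fun _ _ h =>
    Pg.ext (congrArg Prod.fst h) (congrArg Prod.snd h)

variable {N : ℕ}

theorem pow_m {g : Pg (Tr 2 N)} (h : g.e = false) (n : ℕ) :
    (g ^ n).m = g.m ^ n ∧ (g ^ n).e = false := by
  induction n with
  | zero => exact ⟨rfl, rfl⟩
  | succ n ih =>
    rw [pow_succ, Pg.mul_m, Pg.mul_e, ih.1, ih.2, h, pow_succ]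
    exact ⟨rfl, rfl⟩

theorem one_add_pow (Y : M3 (Bq (Tr 2 N))) (k : ℕ) : (1 + Y) ^ 2 ^ k = 1 + Y ^ 2 ^ k := by
  induction k with
  | zero => simp
  | succ k ih =>
    have h : Y ^ 2 ^ k + Y ^ 2 ^ k = 0 := by
      ext i j <;> simp [tr_add_self]
    rw [pow_succ, pow_mul, pow_mul, ih, sq, sq, add_mul, mul_add, mul_add, one_mul, one_mul,
      mul_one, add_assoc, ← add_assoc (Y ^ 2 ^ k), h, zero_add]

theorem pg : IsPGroup 2 (Pg (Tr 2 N)) := fun g => by
  have he : (g ^ 2).e = false := by rw [sq, Pg.mul_e, Bool.xor_self]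
  obtain ⟨k, hk⟩ : IsNilpotent ((g ^ 2).m - 1) := nilp fun i j h => by
    rcases h.eq_or_lt with rfl | h
    · simpa using (g ^ 2).isP.dia j
    · simpa [Matrix.one_apply_ne h.ne'] using (g ^ 2).isP.low i j h
  refine ⟨k + 1, ?_⟩
  rw [pow_succ', pow_mul]
  refine Pg.ext ?_ (pow_m he _).2
  rw [(pow_m he _).1, ← add_sub_cancel 1 (g ^ 2).m, one_add_pow,
    pow_eq_zero_of_le Nat.lt_two_pow_self.le hk, add_zero, Pg.one_m]

theorem add {n : ℕ} {x y : Bq (Tr 2 N)} (h : InB n x) (h' : InB n y) : InB n (x + y) :=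
  ⟨add_mem h.1 h'.1, add_mem h.2 h'.2⟩

theorem sum {n : ℕ} {f : Fin 3 → Bq (Tr 2 N)} (h : ∀ k, InB n (f k)) : InB n (∑ k, f k) := by
  rw [Fin.sum_univ_three]; exact add (add (h 0) (h 1)) (h 2)

theorem mul {m n : ℕ} {x y : Bq (Tr 2 N)} (h : InB m x) (h' : InB n y) : InB (m + n) (x * y) := by
  constructor
  · simpa using add_mem (mul_mem_Iw h.1 h'.1) (mul_mem_Iw h.2 h'.2)
  · simpa using add_mem (add_mem (mul_mem_Iw h.1 h'.2) (mul_mem_Iw h.2 h'.1))
      (mul_mem_Iw h.2 h'.2)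

theorem zero (x : Bq (Tr 2 N)) : InB 0 x := ⟨mem_Iw.2 ⟨_, by simp; rfl⟩, mem_Iw.2 ⟨_, by simp; rfl⟩⟩

theorem left {n : ℕ} (x : Bq (Tr 2 N)) {y : Bq (Tr 2 N)} (h : InB n y) : InB n (x * y) := by
  simpa using mul (zero x) h

theorem sta {n : ℕ} {x : Bq (Tr 2 N)} (h : InB n x) : InB n (star x) :=
  ⟨by simpa using add_mem h.1 h.2, by simpa using h.2⟩

theorem of_nilp {x : Bq (Tr 2 11)} (h : IsNilpotent x) : InB 1 x := by
  let φ : Tr 2 11 →+* ZMod 2 := AdjoinRoot.lift (RingHom.id _) 0 (by simp)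
  have hφ : ∀ a, φ a = 0 → a ∈ Iw 2 11 1 := fun a ha => by
    obtain ⟨f, rfl⟩ := AdjoinRoot.mk_surjective a
    rw [mk_mem_Iw (by norm_num), pow_one, Polynomial.X_dvd_iff, Polynomial.coeff_zero_eq_eval_zero]
    exact (AdjoinRoot.lift_mk _ f).symm.trans ha
  have k : ∀ y : F4, y = 0 ∨ y ^ 3 = 1 := by
    rintro ⟨a, b⟩
    revert a b
    decide
  obtain ⟨n, hn⟩ := h.map (bmap φ)
  rcases k (bmap φ x) with e | e
  · exact ⟨hφ _ (congrArg QuadraticAlgebra.re e), hφ _ (congrArg QuadraticAlgebra.im e)⟩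
  · have := congrArg (· ^ n) e
    simp only [← pow_mul, mul_comm 3 n, one_pow] at this
    rw [pow_mul, hn] at this
    exact absurd this (by decide)

/-- level nine and upper triangular at that level -/
def U (Y : M3 (Bq (Tr 2 11))) : Prop := InM 9 Y ∧ ∀ i j, j < i → InB 10 (Y i j)

theorem up_iff (g : Pg (Tr 2 11)) : Up9 g ↔ g.e = false ∧ U (g.m - 1) := by
  rw [Up9, Lev, U, and_assoc]
  refine and_congr_right' (and_congr_right' (forall₃_congr fun i j h => ?_))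
  rw [Matrix.sub_apply, Matrix.one_apply_ne h.ne', sub_zero]

theorem U.add {Y Z : M3 (Bq (Tr 2 11))} (h : U Y) (h' : U Z) : U (Y + Z) :=
  ⟨fun i j => PGU.add (h.1 i j) (h'.1 i j), fun i j e => PGU.add (h.2 i j e) (h'.2 i j e)⟩

theorem U.left {P Y : M3 (Bq (Tr 2 11))} (hP : IsP P) (h : U Y) : U (P * Y) := by
  refine ⟨fun i j => ?_, fun i j e => ?_⟩
  · rw [Matrix.mul_apply]
    exact sum fun k => PGU.left _ (h.1 k j)
  · rw [Matrix.mul_apply]
    refine sum fun k => ?_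
    rcases lt_or_ge k i with hk | hk
    · exact mul (m := 1) (n := 9) (of_nilp (hP.low i k hk)) (h.1 k j)
    · exact PGU.left _ (h.2 k j (e.trans_le hk))

theorem U.adj {Y : M3 (Bq (Tr 2 11))} (h : U Y) : U (adj Y) :=
  ⟨fun _ _ => sta (h.1 _ _), fun _ _ e => sta (h.2 _ _ (Fin.rev_lt_rev.2 e))⟩

theorem U.right {P Y : M3 (Bq (Tr 2 11))} (hP : IsP P) (h : U Y) : U (Y * P) := by
  have := (h.adj.left hP.adj).adj
  rwa [← adj_mul, adj_adj] at this

theorem U.map {Y : M3 (Bq (Tr 2 11))} (h : U Y) (e : Bool) : U (Y.map (sg _ e)) := by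
  cases e
  · exact h
  · exact ⟨fun i j => sta (h.1 i j), fun i j e => sta (h.2 i j e)⟩

end PGU

theorem blk_PG : St_PG := fun N τ => by
  let e : τ.Q ≃ Pg (Tr 2 N) := ⟨fun x => x.g, fun g => ⟨g⟩, fun _ => rfl, fun _ => rfl⟩
  have : Finite τ.Q := Finite.of_equiv _ e.symm
  obtain ⟨n, hn⟩ := IsPGroup.iff_card.1 (PGU.pg (N := N))
  exact ⟨this, IsPGroup.of_card ((Nat.card_congr e).trans hn)⟩

open PGU in
theorem blk_Up9 : St_Up9 := by
  refine ⟨{ carrier := {g | Up9 g}, mul_mem' := ?_, one_mem' := ?_, inv_mem' := ?_ },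
    ⟨fun g hg h => ?_⟩, fun g => Iff.rfl⟩
  · intro g h hg hh
    rw [Set.mem_ofPred_eq, up_iff] at hg hh ⊢
    rw [Pg.mul_e, Pg.mul_m, hg.1, hh.1]
    refine ⟨rfl, ?_⟩
    have := (hh.2.left g.isP).add hg.2
    rwa [mul_sub, mul_one, sub_add_sub_cancel] at this
  · rw [Set.mem_ofPred_eq, up_iff, Pg.one_m, sub_self]
    exact ⟨rfl, fun _ _ => ⟨zero_mem _, zero_mem _⟩, fun _ _ _ => ⟨zero_mem _, zero_mem _⟩⟩
  · intro g hg
    rw [Set.mem_ofPred_eq, up_iff] at hg ⊢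
    rw [Pg.inv_e, Pg.inv_m, hg.1]
    refine ⟨rfl, ?_⟩
    have e := adj_add (g.m - 1) 1
    rw [sub_add_cancel, adj_one] at e
    have := hg.2.adj
    rwa [eq_sub_of_add_eq e.symm] at this
  · change Up9 g at hg
    change Up9 _
    rw [up_iff] at hg ⊢
    simp only [Pg.mul_e, Pg.mul_m, Pg.inv_e, Pg.inv_m, hg.1, Bool.xor_false, Bool.xor_self,
      true_and]
    have e1 : ((adj h.m).map (sg _ h.e)).map (sg _ h.e) = adj h.m := by
      ext1 i j
      simp [sg_sg]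
    have e2 : (g.m - 1).map (sg _ h.e) = g.m.map (sg _ h.e) - 1 := by
      have := map_sub (sg (Tr 2 11) h.e).mapMatrix g.m 1
      rwa [map_one] at this
    have := ((hg.2.map h.e).left h.isP).right h.isP.adj
    rwa [e2, mul_sub, sub_mul, mul_one, h.isP.uni, ← e1] at this

end Pool.Agent.Lib.MP_0813d1_al.Two
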