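import Pool.Agent.Lib.MP_0813d1_al.TwoApi

namespace Pool.Agent.Lib.MP_0813d1_al.Two

open PC Univ

namespace QF

section maps
variable {Γ Δ : Type} [Group Γ] [Group Δ] (f : Γ →* Δ) (a b : Γ)

theorem map_wd (l : List ℕ) : f (wd (D2.k a b) l) = wd (D2.k (f a) (f b)) l := by
  rw [wd, wd, map_list_prod, List.map_map]
  exact congrArg (fun κ => (l.map κ).prod) (funext fun i => D2.map_k f a b i)

theorem map_ev (w : List (ℕ × ℕ)) : f (evw (D2.k a b) w) = evw (D2.k (f a) (f b)) w := by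
  rw [map_evw]
  exact congrArg (fun κ => evw κ w) (funext fun i => D2.map_k f a b i)

theorem map_list :
    [v62 a b, v64 a b, v67 a b, w1 a b, w2 a b].map f = [v62 (f a) (f b), v64 (f a) (f b),
      v67 (f a) (f b), w1 (f a) (f b), w2 (f a) (f b)] := by
  simp only [List.map_cons, List.map_nil, v62, v64, v67, w1, w2, map_wd, map_ev, map_mul, map_inv,
    map_pow]

theorem map_nfw (e : ℕ → ℕ) : f (nfw a b e) = nfw (f a) (f b) e := by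
  rw [nfw, nfw, map_list_prod, List.map_map]
  exact congrArg (fun κ => ((List.range 113).map κ).prod)
    (funext fun i => by rw [Function.comp_apply, map_pow, D2.map_k])

theorem Kq_le (k : ℕ) : Kq (f a) (f b) k ≤ (Kq a b k).map f := by
  refine (Subgroup.closure_le _).2 ?_
  rintro g ⟨i, hi, hk, e⟩
  exact ⟨D2.k a b i, Subgroup.subset_closure ⟨i, hi, hk, rfl⟩, (D2.map_k f a b i).trans e.symm⟩

theorem Cq_le : Cq (f a) (f b) ≤ (Cq a b).map f := by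
  refine (Subgroup.closure_le _).2 ?_
  rintro g ⟨i, j, hi, hj, hk, e⟩
  exact ⟨_, Subgroup.subset_closure ⟨i, j, hi, hj, hk, rfl⟩, by
    rw [map_cm, D2.map_k, D2.map_k, e]⟩

end maps

variable {N : ℕ} {τ : Tw N} {Fl : Fil τ.Q N} (h : 11 ≤ N)

theorem ra : τ.red11 h ⟨aP N⟩ = aP 11 := redP_aP h
theorem rb : τ.red11 h ⟨bP N⟩ = bP 11 := redP_bP h

theorem mem_iff (hF : IsFil Fl) {j : ℕ} (hj : j ≤ 11) (x : τ.Q) :
    x ∈ Fl.G j ↔ Lev j (τ.red11 h x) := by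
  rw [hF.1, Tw.red11_apply, redP_lev h hj]

theorem lead_iff (hF : IsFil Fl) {j : ℕ} (hj : j + 1 ≤ 11) (x : τ.Q) (X : su) :
    Fl.Lead j x X ↔ PLead j (τ.red11 h x) X := by
  rw [hF.2, Tw.red11_apply, redP_lead h hj]

include h in
theorem lift_K {k : ℕ} {g : Pg (Tr 2 11)} (hg : g ∈ Kq (aP 11) (bP 11) k) :
    ∃ x ∈ Kq (⟨aP N⟩ : τ.Q) ⟨bP N⟩ k, τ.red11 h x = g := by
  rw [← ra (τ := τ) h, ← rb (τ := τ) h] at hg
  exact Kq_le _ _ _ k hg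

include h in
theorem lift_C {g : Pg (Tr 2 11)} (hg : g ∈ Cq (aP 11) (bP 11)) :
    ∃ x ∈ Cq (⟨aP N⟩ : τ.Q) ⟨bP N⟩, τ.red11 h x = g := by
  rw [← ra (τ := τ) h, ← rb (τ := τ) h] at hg
  exact Cq_le _ _ _ hg

theorem red_k (i : ℕ) :
    τ.red11 h (D2.k (⟨aP N⟩ : τ.Q) ⟨bP N⟩ i) = D2.k (aP 11) (bP 11) i := by
  rw [D2.map_k, ra, rb]

theorem mem_sup {Q : Type} [Group Q] {K L : Subgroup Q} {x g : Q} (hx : x ∈ K)
    (hg : x⁻¹ * g ∈ L) : g ∈ K ⊔ L := by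
  have := mul_mem (Subgroup.mem_sup_left (T := L) hx) (Subgroup.mem_sup_right (S := K) hg)
  rwa [mul_inv_cancel_left] at this

include h in
theorem lift_e (hF : IsFil Fl) {k j i : ℕ} (hj : j ≤ 11)
    (he : ∃ g ∈ Kq (aP 11) (bP 11) k, Lev j (g⁻¹ * eP (wv 2 11 ^ i))) :
    (⟨eP (wv 2 N ^ i)⟩ : τ.Q) ∈ Kq (⟨aP N⟩ : τ.Q) ⟨bP N⟩ k ⊔ Fl.G j := by
  obtain ⟨g, hg, h1⟩ := he
  obtain ⟨x, hx, rfl⟩ := lift_K (τ := τ) h hg
  refine mem_sup hx ((mem_iff h hF hj _).2 ?_)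
  have e : τ.red11 h ⟨eP (wv 2 N ^ i)⟩ = eP (wv 2 11 ^ i) := by
    rw [Tw.red11_apply, redP_eP, map_pow, red_wv]
  rw [map_mul, map_inv, e]
  exact h1

end QF

open QF in
theorem blk_QF : PFacts → St_Ind → St_Up9 → St_KillQ → St_MOD → St_QF := by
  intro PF hI hU hK hM N n τ Fl hF hn hN
  have h : 11 ≤ N := by omega
  obtain ⟨T, hT, hT'⟩ := hU
  obtain ⟨s, hs, hk⟩ := hK N τ Fl hF
  refine ⟨fun q hq i => ?_, fun g hg => ?_, ?_, (hM N n τ Fl hF hn hN).1,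
    (hM N n τ Fl hF hn hN).2, ⟨T.comap (τ.red11 h), hT.comap _, ?_, fun e h1 h2 h3 => ?_⟩, ?_, ?_,
    s, fun i => ⟨eP (wv 2 N ^ i)⟩, ?_, lift_e h hF (by omega) ?_, lift_e h hF (by omega) PF.e2, hk⟩
  · obtain ⟨g, hg, h1⟩ := PF.sp q hq i
    obtain ⟨x, hx, rfl⟩ := lift_K (τ := τ) h hg
    have hq1 : q.1 + 1 ≤ 11 := (by decide : ∀ q ∈ spL, q.1 + 1 ≤ 11) q hq
    exact ⟨x, hx, (lead_iff h hF hq1 _ _).2 h1⟩
  · have h1 := List.mem_map_of_mem (f := τ.red11 h) hg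
    rw [map_list, ra, rb] at h1
    obtain ⟨x, hx, e⟩ := lift_C (τ := τ) h (PF.cor _ h1)
    refine mem_sup hx ((mem_iff h hF le_rfl _).2 ?_)
    rw [map_mul, map_inv, e, inv_mul_cancel]
    exact lev_one 11
  · have h1 : wv 2 N ^ (n - 1 + 1) ∈ Iw 2 N n := by
      rw [show n - 1 + 1 = n by omega]
      exact wv_pow_mem_Iw 2 N n
    exact (hF.1 _ _).2 (lev_fP (hy := Iw_anti (by omega) (wv_pow_mem_Iw 2 N _)) h1)
  · rw [Subgroup.mem_comap, red_k, hT']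
    exact PF.k112
  · refine hI e h1 h2 ?_
    have h4 := Subgroup.mem_comap.1 h3
    rw [map_nfw, ra, rb, hT'] at h4
    exact h4
  · rw [mem_iff h hF (by omega), red_k]; exact PF.k74
  · rw [mem_iff h hF (by omega), red_k]; exact PF.k78
  · obtain ⟨g, hg, h1⟩ := PF.sT
    obtain ⟨x, hx, rfl⟩ := lift_K (τ := τ) h hg
    have h2 := Fl.mul le_rfl (Fl.inv le_rfl ((lead_iff h hF (by omega) _ _).2 h1)) hs
    rw [su_add_self] at h2
    exact mem_sup hx (Fl.zero.1 h2)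
  · rw [pow_one]; exact PF.e1

end Pool.Agent.Lib.MP_0813d1_al.Two
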