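import Mathlib
import Pool.Agent.Lib.MP_0813d1_al.TwoBlue

namespace Pool.Agent.Lib.MP_0813d1_al.Two

open PC Univ
open scoped commutatorElement

namespace U2

theorem cocycle {T : Type} [Group T] [Finite T] (hT : IsPGroup 2 T) (R : Real T) (h : R.ker ≠ ⊥) :
    ∃ (A : T → R.L) (b : R.L) (z : T), (∀ g h, A (g * h) = A g + R.act g (A h)) ∧ z ∈ R.ker ∧
      A z = 1 ∧ ∀ g, R.act g b - b = A g ^ 2 - A g := by
  have hN : R.ker.Normal := ⟨fun n hn g x => by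
    rw [R.mul, R.mul, hn, ← R.mul, mul_inv_cancel, R.one]⟩
  set M := ⁅R.ker, ⊤⁆ ⊔ Subgroup.closure {x | ∃ g ∈ R.ker, x = g ^ 2} with hM
  have h1 : M < R.ker := lt_of_le_not_ge (sup_le (Subgroup.commutator_le_left _ _)
    ((Subgroup.closure_le _).2 fun x ⟨g, hg, e⟩ => e ▸ pow_mem hg 2)) fun k => h (eq_bot_of_le hT k)
  obtain ⟨N, ⟨h2, h3⟩, hmax⟩ := (Set.toFinite {N | M ≤ N ∧ N < R.ker}).exists_maximal
    ⟨M, le_rfl, h1⟩
  have hc : ∀ x ∈ R.ker, ∀ g, ⁅x, g⁆ ∈ N := fun x hx g =>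
    h2 (Subgroup.mem_sup_left (Subgroup.commutator_mem_commutator hx (Subgroup.mem_top g)))
  have hNn : N.Normal := ⟨fun n hn g => by
    have := N.mul_mem (N.inv_mem (hc n (h3.le hn) g)) hn
    simpa [commutatorElement_def, mul_assoc] using this⟩
  obtain ⟨z, hz, hzN⟩ := SetLike.exists_of_lt h3
  have h4 : N ⊔ Subgroup.zpowers z = R.ker := by
    by_contra k
    exact hzN (hmax ⟨h2.trans le_sup_left, lt_of_le_of_ne (sup_le h3.le
      (Subgroup.zpowers_le_of_mem hz)) k⟩ le_sup_left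
        (Subgroup.mem_sup_right (Subgroup.mem_zpowers z)))
  let act : T ⧸ R.ker → R.L →+* R.L := fun q => R.act q.out
  have ha : ∀ (g : T) x, act g x = R.act g x := fun g x => by
    obtain ⟨n, hn⟩ := QuotientGroup.mk_out_eq_mul R.ker g
    simp only [act, hn]
    rw [R.mul, n.2 x]
  obtain ⟨A, b, a1, a2, a3⟩ := exists_cocycle 2 (QuotientGroup.map N R.ker (MonoidHom.id T) h3.le)
    (fun q => QuotientGroup.induction_on q fun g => ⟨g, rfl⟩) (z : T ⧸ N)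
    (fun q => QuotientGroup.induction_on q fun g => commutatorElement_eq_one_iff_mul_comm.1
      ((QuotientGroup.eq_one_iff (⁅z, g⁆ : T)).2 (hc z hz g)))
    (orderOf_eq_prime ((QuotientGroup.eq_one_iff (z ^ 2)).2
      (h2 (Subgroup.mem_sup_right (Subgroup.subset_closure ⟨z, hz, rfl⟩))))
      fun k => hzN ((QuotientGroup.eq_one_iff z).1 k))
    (fun q => QuotientGroup.induction_on q fun g => by
      refine (QuotientGroup.eq_one_iff (N := R.ker) g).trans ⟨fun k => ?_, fun ⟨k, hk⟩ => ?_⟩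
      · have := Subgroup.mem_map_of_mem (QuotientGroup.mk' N) (h4 ▸ k)
        rwa [Subgroup.map_sup, QuotientGroup.map_mk'_self, bot_sup_eq,
          MonoidHom.map_zpowers] at this
      · simpa using mul_mem (zpow_mem hz k) (h3.le (QuotientGroup.eq.1 (hk : ((z ^ k : T) : T ⧸ N) = g))))
    act (fun x => (ha 1 x).trans (R.one x))
    (fun q q' x => QuotientGroup.induction_on q fun g => QuotientGroup.induction_on q' fun g' => by
      rw [← QuotientGroup.mk_mul, ha, ha, ha, R.mul])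
    fun q => QuotientGroup.induction_on q fun g k =>
      (QuotientGroup.eq_one_iff g).2 fun x => (ha g x).symm.trans (k x)
  exact ⟨fun g => A g, b, z, fun g h => (a1 g h).trans (congrArg _ (ha g _)), hz, a2,
    fun g => ha g b ▸ a3 g⟩

variable {L : Type} [Field L] [CharP L 2] {S : Filt L}

omit [CharP L 2] in
theorem ex_sq {k : ℤ} {u : L} (h : S.Ex k (u ^ 2)) : ∃ a, S.Ex a u ∧ k = 2 * a := by
  obtain ⟨a, ha⟩ := Filt.exists_ex (S := S) (x := u) fun e => h.ne_zero (by simp [e])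
  exact ⟨a, ha, h.unique (ha.pow 2)⟩

theorem approx (hres : ∀ x ∈ S.F 0, ∃ c : ℕ, x - c ∈ S.F 1) {t a : L} (ht : S.Ex 1 t) {m : ℤ}
    (ha : S.Ex (-m) a) (hm : Odd m) {n : ℤ} {x : L} (hx : x ∈ S.F n) (d : ℕ) :
    ∃ x₁ x₂, x - x₁ ^ 2 - a * x₂ ^ 2 ∈ S.F (n + d) ∧ x₁ ^ 2 ∈ S.F n ∧ a * x₂ ^ 2 ∈ S.F n := by
  have sq : ∀ c : ℕ, (c : L) ^ 2 = c := fun c => by
    induction c with
    | zero => simp
    | succ c ih => rw [Nat.cast_succ, CharTwo.add_sq, ih, one_pow]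
  have st : ∀ {l : ℤ} {r e : L}, r ∈ S.F l → S.Ex l e →
      ∃ c : L, r - c ^ 2 * e ∈ S.F (l + 1) ∧ c ^ 2 * e ∈ S.F l := fun {l r e} hr he => by
    obtain ⟨c, hc⟩ := hres (r * e⁻¹) (Filt.mul hr he.inv.1 (by omega))
    refine ⟨c, ?_, by rw [sq]; exact Filt.mul (Filt.natCast_mem c) he.1 (by omega)⟩
    have := Filt.mul hc he.1 (show l + 1 ≤ _ by omega)
    rwa [sub_mul, inv_mul_cancel_right₀ he.ne_zero, ← sq c] at this
  induction d with
  | zero => exact ⟨0, 0, by simpa using hx, by simp, by simp⟩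
  | succ d ih =>
    obtain ⟨x₁, x₂, h1, h2, h3⟩ := ih
    obtain ⟨q, hq⟩ := hm
    push_cast
    rw [← add_assoc]
    rcases Int.even_or_odd' (n + d) with ⟨i, hi | hi⟩
    · obtain ⟨c, c1, c2⟩ := st h1 (((ht.zpow i).pow 2).congr (by omega))
      refine ⟨x₁ + c * t ^ i, x₂, ?_, ?_, h3⟩ <;> rw [CharTwo.add_sq, mul_pow]
      · convert c1 using 1
        ring
      · exact add_mem h2 (Filt.mono c2 (by omega))
    · obtain ⟨c, c1, c2⟩ := st h1 ((ha.mul ((ht.zpow (i + q + 1)).pow 2)).congr (by omega))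
      refine ⟨x₁, x₂ + c * t ^ (i + q + 1), ?_, h2, ?_⟩ <;> rw [CharTwo.add_sq, mul_pow]
      · convert c1 using 1
        ring
      · rw [mul_add, mul_left_comm]
        exact add_mem h3 (Filt.mono c2 (by omega))

end U2

open U2 in
theorem blk_U2 : St_U2 := by
  intro T _ _ hT R hker m
  obtain ⟨A, b, z₀, hA, hz₀, hAz, hAb⟩ := cocycle hT R hker
  obtain ⟨q, hq⟩ := R.hk
  obtain ⟨v, hv⟩ := Filt.exists_ex (S := R.S) (x := R.s) fun e => by
    have h1 : R.z = -R.y ^ 2 := by linear_combination e - R.hyz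
    obtain ⟨a, -, ha⟩ := ex_sq (by simpa [h1] using R.hz.neg : R.S.Ex R.k (R.y ^ 2))
    omega
  have hv1 := hv.le R.hs1
  obtain ⟨c, hc⟩ := Filt.exists_bound (S := R.S) ![R.y, b]
  obtain ⟨j, hj⟩ : ∃ j : ℕ, j = c + R.k.natAbs + m + 1 := ⟨_, rfl⟩
  have hjv : (j : ℤ) ≤ j * v := le_mul_of_one_le_right (by positivity) hv1
  obtain ⟨M, hM⟩ : ∃ M : ℕ, (M : ℤ) = 2 * (j * v) - R.k := ⟨_, Int.toNat_of_nonneg (by omega)⟩
  obtain ⟨w, hw⟩ : ∃ w, w = R.s⁻¹ ^ j := ⟨_, rfl⟩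
  have hwv : R.S.Ex (-(j * v)) w := hw ▸ (hv.inv.pow j).congr (by ring)
  have hwf : ∀ g, R.act g w = w := fun g => by rw [hw, map_pow, map_inv₀, R.hs]
  have ha : R.S.Ex (-M) (R.z * w ^ 2 + (b + R.y * w)) :=
    ((R.hz.mul (hwv.pow 2)).congr (by omega)).add
      (add_mem (Filt.mono (hc 1) (by omega)) (Filt.mul (hc 0) hwv.1 (by omega)))
  obtain ⟨L, _, _, S, ι, θ, act, hθ2, hθv, hι, hιx, hres, h1, hmul, hF, hact, hθ⟩ :=
    as_ext 2 R.S M _ ha (by omega) (by omega) R.res R.act R.one R.mul R.hF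
      (fun g => A g - (R.act g (R.y * w) - R.y * w))
      (fun g h => by simp only [hA, R.mul, map_sub]; ring) fun g => by
        have e := R.hs g
        rw [R.hyz] at e
        simp only [map_add, map_mul, map_pow, hwf, sub_pow_char] at e ⊢
        linear_combination hAb g + w ^ 2 * e
  generalize R.z * w ^ 2 + (b + R.y * w) = a at ha hθ2
  have rt : ∀ n x, x ∈ R.S.F n → ∃ u, u ^ 2 - ι x ∈ S.F (2 * n + M) ∧
      (R.S.Ex n x → Odd n → S.Ex (2 * n + M) (ι x - u ^ 2)) := fun n x hx => by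
    obtain ⟨x₁, x₂, e1, e2, e3⟩ := approx R.res R.ht ha ⟨j * v - q - 1, by omega⟩ hx M
    have e4 : ι x - (ι x₁ + θ * ι x₂) ^ 2 = -(θ * ι (x₂ ^ 2)) + ι (x - x₁ ^ 2 - a * x₂ ^ 2) := by
      rw [CharTwo.add_sq, mul_pow, hθ2]
      simp only [map_sub, map_mul, map_pow]
      ring
    have e5 : ι (x - x₁ ^ 2 - a * x₂ ^ 2) ∈ S.F (2 * n + M + 1) := Filt.mono (hι _ _ e1) (by omega)
    refine ⟨ι x₁ + θ * ι x₂, ?_, fun hx' ⟨i, hi⟩ => ?_⟩
    · rw [← neg_sub, e4]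
      exact neg_mem (add_mem (neg_mem (Filt.mul hθv.1 (hι (n + M) _ (Filt.mem_of_mul_mem ha
        (Filt.mono e3 (by omega)))) (by omega))) (Filt.mono e5 (by omega)))
    · have e6 : x₁ ^ 2 ∈ R.S.F (n + 1) := by_contra fun k => by
        obtain ⟨a, -, ha⟩ := ex_sq ⟨e2, k⟩
        omega
      have e7 := ha.inv.mul (hx'.add (neg_mem (add_mem e6 (Filt.mono e1 (by omega)))))
      rw [show x + -(x₁ ^ 2 + (x - x₁ ^ 2 - a * x₂ ^ 2)) = a * x₂ ^ 2 by ring,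
        inv_mul_cancel_left₀ ha.ne_zero] at e7
      rw [e4]
      exact ((hθv.mul (hιx _ _ e7)).neg.congr (by omega)).add e5
  obtain ⟨t, t1, -⟩ := rt 1 R.t R.ht.1
  obtain ⟨u, -, u1⟩ := rt R.k R.z R.hz.1
  obtain ⟨i, t2, hi⟩ := ex_sq (S := S) (k := 2) (u := t) (by
    simpa using ((hιx _ _ R.ht).congr (show _ = 2 by omega)).add (Filt.mono t1 (by omega)))
  refine ⟨⟨L, S, act, h1, hmul, hF, hres, t, t2.congr (by omega), ι R.s, ι R.y + u, ι R.z - u ^ 2,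
    2 * R.k + M, fun g => by rw [hact, R.hs], ?_, u1 R.hz R.hk, ⟨R.k + j * v - q - 1, by omega⟩,
    Filt.mono (hι _ _ R.hs1) (by omega)⟩, ι, lt_of_le_not_ge (fun g hg x => ι.injective ?_) fun k => ?_,
    hact, hι, fun n x hx => ?_, Filt.mono t1 (by omega)⟩
  · rw [R.hyz, CharTwo.add_sq, map_add, map_pow]
    ring
  · exact (hact g x).symm.trans (hg _)
  · have := (hθ z₀).symm.trans (k hz₀ θ)
    simp [hAz, hz₀ (R.y * w)] at this
  · obtain ⟨u, e, -⟩ := rt n x hx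
    exact ⟨u, Filt.mono e (by omega)⟩

end Pool.Agent.Lib.MP_0813d1_al.Two
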