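import Mathlib
import Pool.Agent.Lib.MP_0813d1_al.TwoBlue

namespace Pool.Agent.Lib.MP_0813d1_al.Two

open PC Univ

namespace U3

/-- a transversal of the kernel of an action together with an element of trace one -/
theorem exists_trans {K : Type} [Group K] [Finite K] {L : Type} [Field L] (act : K → L →+* L)
    (h1 : ∀ x, act 1 x = x) (hmul : ∀ g h x, act (g * h) x = act g (act h x)) :
    ∃ (I : Type) (_ : Fintype I) (σ : I → K) (e : L), ∑ i, act (σ i) e = 1 ∧
      ∀ (M : Type) [AddCommMonoid M] (g : K) (f : K → M),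
        (∀ h w, (∀ x, act w x = x) → f (h * w) = f h) → ∑ i, f (g * σ i) = ∑ i, f (σ i) := by
  classical
  let W : Subgroup K :=
    { carrier := {g | ∀ x, act g x = x}
      one_mem' := h1
      mul_mem' := fun {g h} hg hh x => by rw [hmul, hh x, hg x]
      inv_mem' := fun {g} hg x => by rw [← hg x, ← hmul, inv_mul_cancel, h1, hg x] }
  have hW : ∀ g, g ∈ W ↔ ∀ x, act g x = x := fun g => Iff.rfl
  have hN : W.Normal := ⟨fun w hw g => (hW _).2 fun x => by
    rw [hmul, hmul, (hW w).1 hw, ← hmul, mul_inv_cancel, h1]⟩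
  have : Fintype (K ⧸ W) := Fintype.ofFinite _
  have hout : ∀ g : K, ∃ w ∈ W, (QuotientGroup.mk g : K ⧸ W).out = g * w := by
    intro g
    obtain ⟨w, hw⟩ := QuotientGroup.mk_out_eq_mul W g
    exact ⟨w, w.2, hw⟩
  have hact : ∀ g x, act (QuotientGroup.mk g : K ⧸ W).out x = act g x := by
    intro g x
    obtain ⟨w, hw, he⟩ := hout g
    rw [he, hmul, (hW w).1 hw]
  obtain ⟨e, he⟩ := exists_trace_one (H := K ⧸ W) (fun q => act q.out)
    (fun x => by rw [← QuotientGroup.mk_one, hact, h1])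
    (fun p q x => by
      induction p using QuotientGroup.induction_on with
      | H p =>
      induction q using QuotientGroup.induction_on with
      | H q => rw [← QuotientGroup.mk_mul, hact, hact, hact, hmul])
    (fun q hq => by
      induction q using QuotientGroup.induction_on with
      | H q =>
      rw [QuotientGroup.eq_one_iff]
      exact (hW q).2 fun x => by rw [← hact, hq x])
  refine ⟨K ⧸ W, inferInstance, Quotient.out, e, he, fun M _ g f hf => ?_⟩
  refine Fintype.sum_equiv (Equiv.mulLeft (QuotientGroup.mk g : K ⧸ W)) _ _ fun q => ?_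
  simp only [Equiv.coe_mulLeft]
  have h2 : (QuotientGroup.mk g : K ⧸ W) * q = QuotientGroup.mk (g * q.out) := by
    rw [QuotientGroup.mk_mul, QuotientGroup.out_eq']
  obtain ⟨w, hw, he⟩ := hout (g * q.out)
  rw [h2, he, hf _ w ((hW w).1 hw)]

/-- a cocycle vanishing on the kernel of the action is a coboundary -/
theorem h90 {K : Type} [Group K] [Finite K] {L : Type} [Field L] (act : K → L →+* L)
    (h1 : ∀ x, act 1 x = x) (hmul : ∀ g h x, act (g * h) x = act g (act h x)) (B : K → L)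
    (hB : ∀ g h, B (g * h) = B g + act g (B h)) (h0 : ∀ w, (∀ x, act w x = x) → B w = 0) :
    ∃ b, ∀ g, B g = act g b - b := by
  obtain ⟨I, _, σ, e, he, hs⟩ := exists_trans act h1 hmul
  refine ⟨-∑ i, B (σ i) * act (σ i) e, fun g => ?_⟩
  have h2 := hs L g (fun h => B h * act h e) fun h w hw => by
    rw [hB, h0 w hw, map_zero, add_zero, hmul, hw]
  have h3 := hs L g (fun h => act h e) fun h w hw => by
    rw [hmul, hw]
  rw [he] at h3
  have h4 : act g (∑ i, B (σ i) * act (σ i) e) =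
      ∑ i, B (g * σ i) * act (g * σ i) e - B g * ∑ i, act (g * σ i) e := by
    rw [map_sum, Finset.mul_sum, ← Finset.sum_sub_distrib]
    refine Finset.sum_congr rfl fun i _ => ?_
    rw [map_mul, hB, hmul]
    ring
  rw [map_neg, h4, h2, h3]
  ring

variable {T K : Type} [Group T] [Group K]

theorem mem_ker (R : Real T) (g : T) : g ∈ R.ker ↔ ∀ x, R.act g x = x := Iff.rfl

theorem coc_of_form (R : Real T) (φ : K →* T) (c : K → R.L) (h : R.Form φ c) : R.Coc φ c := by
  obtain ⟨b, t₀, A, ht, hA, -, hc⟩ := h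
  intro g h
  rw [hc, hc, hc, hA, map_mul φ, R.mul]
  simp only [map_add, map_sub, map_mul, map_pow, ht]
  ring

theorem sq_sub (R : Real T) (x y : R.L) : (x - y) ^ 2 = x ^ 2 - y ^ 2 := sub_pow_char x y

theorem sq_add (R : Real T) (x y : R.L) : (x + y) ^ 2 = x ^ 2 + y ^ 2 := add_pow_char x y 2

/-- one step of the tower -/
theorem step (hU1 : St_U1) (hU2 : St_U2) [Finite T] [Finite K] (hT : IsPGroup 2 T)
    (φ : K →* T) (R : Real T) (D : ℕ) (c : K → R.L) (hf : R.Form φ c) (hc0 : ∀ g, c g ∈ R.S.F 0)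
    (hsm : ∀ w w', φ w ∈ R.ker → φ w' ∈ R.ker → w ≠ 1 → w' ≠ 1 → w = w') (hne : R.ker ≠ ⊥) :
    ∃ (R' : Real T) (c' : K → R'.L), R'.ker < R.ker ∧
      (∀ g, R'.cl D (R'.act g R'.t) = R.cl D (R.act g R.t)) ∧ R'.Form φ c' ∧
      (∀ g, c' g ∈ R'.S.F 0) ∧ ∀ g, R'.cl D (c' g) = R.cl D (c g) := by
  obtain ⟨b, t₀, A, ht, hA, hAw, hc⟩ := hf
  have h1 : ∀ x, R.act (φ 1) x = x := fun x => by rw [map_one, R.one]
  have hmul : ∀ g h x, R.act (φ (g * h)) x = R.act (φ g) (R.act (φ h) x) := fun g h x => by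
    rw [map_mul, R.mul]
  obtain ⟨b₁, hb₁⟩ := h90 (fun g => R.act (φ g)) h1 hmul (fun g => A g ^ 2 - A g)
    (fun g h => by
      rw [hA, sq_add, map_sub, map_pow]
      ring)
    (fun w hw => by
      rw [hAw w hw, sub_self])
  obtain ⟨I, _, σ, e, he, hs⟩ := exists_trans (fun g => R.act (φ g)) h1 hmul
  set b₂ := b - t₀ ^ 2 * b₁ with hb₂
  have hc2 : ∀ g, c g = R.act (φ g) b₂ - b₂ + (t₀ * A g) ^ 2 := by
    intro g
    have := hb₁ g
    rw [hc, hb₂, map_sub, map_mul, map_pow, ht]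
    linear_combination (-t₀ ^ 2) * this
  clear_value b₂
  obtain ⟨k, hk⟩ := Filt.exists_bound (S := R.S) (Sum.elim A ![b₂, t₀, e])
  have hkA : ∀ g, A g ∈ R.S.F (-k) := fun g => hk (Sum.inl g)
  have hkb : b₂ ∈ R.S.F (-k) := hk (Sum.inr 0)
  have hkt : t₀ ∈ R.S.F (-k) := hk (Sum.inr 1)
  have hke : e ∈ R.S.F (-k) := hk (Sum.inr 2)
  obtain ⟨R', ι, hE⟩ := hU2 T hT R hne (2 * (D + 4 * k))
  have htt : R'.t ^ 2 - ι R.t ∈ R'.S.F (2 * D) := Filt.mono hE.tt (by push_cast; omega)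
  have htr := hU1.2.1 T R R' ι D hE.dbl htt
  have hact : ∀ g, R'.cl D (R'.act g R'.t) = R.cl D (R.act g R.t) := by
    intro g
    refine (htr _ (R.hF g _ _ (Filt.mono R.ht.1 (by omega))) _ ?_).2
    rw [← hE.comm, ← map_pow, ← map_sub]
    exact R'.hF g _ _ htt
  obtain ⟨u, hu⟩ := hE.sqrt _ _ hkb
  have hu' : u ^ 2 - ι b₂ ∈ R'.S.F (2 * D) := Filt.mono hu (by push_cast; omega)
  have h1' : ∀ x, R'.act (φ 1) x = x := fun x => by rw [map_one, R'.one]
  have hmul' : ∀ g h x, R'.act (φ (g * h)) x = R'.act (φ g) (R'.act (φ h) x) := fun g h x => by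
    rw [map_mul, R'.mul]
  have hmain : ∀ g, (R'.act (φ g) u - u + ι (t₀ * A g)) ^ 2 - ι (c g) ∈ R'.S.F (2 * D) := by
    intro g
    have e1 : (R'.act (φ g) u - u + ι (t₀ * A g)) ^ 2 - ι (c g) =
        R'.act (φ g) (u ^ 2 - ι b₂) - (u ^ 2 - ι b₂) := by
      rw [sq_add, sq_sub, hc2, map_add, map_sub, ← hE.comm, map_pow, map_sub, map_pow]
      ring
    rw [e1]
    exact sub_mem (R'.hF _ _ _ hu') hu'
  have hAι : R'.Coc φ fun g => ι (A g) := fun g h => by
    simp only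
    rw [hA, map_add, hE.comm]
  by_cases hW : ∀ w, φ w ∈ R'.ker → w = 1
  · have hA1 : A 1 = 0 := by
      have := hA 1 1
      rw [mul_one, h1] at this
      simpa using this
    obtain ⟨b', hb'⟩ := h90 (fun g => R'.act (φ g)) h1' hmul'
      (fun g => R'.act (φ g) u - u + ι (t₀ * A g))
      (fun g h => by
        rw [hA, hmul', map_add, map_sub, hE.comm (φ g) (t₀ * A h), map_mul (R.act (φ g)), ht,
          mul_add, map_add]
        ring)
      (fun w hw => by
        rw [hW w hw, h1', hA1]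
        simp)
    refine ⟨R', fun g => R'.act (φ g) u - u + ι (t₀ * A g), hE.lt, hact,
      ⟨b', 0, fun _ => 0, fun g => map_zero _, fun g h => by simp, fun w _ => by simp,
        fun g => by simpa using hb' g⟩,
      fun g => (htr _ (hc0 g) _ (hmain g)).1, fun g => (htr _ (hc0 g) _ (hmain g)).2⟩
  · push Not at hW
    obtain ⟨w', hw', hw1⟩ := hW
    have hWW : ∀ w, φ w ∈ R.ker → φ w ∈ R'.ker := by
      intro w hw
      by_cases h : w = 1
      · rw [h, map_one]; exact one_mem _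
      · rw [hsm w w' hw (hE.lt.le hw') h hw1]; exact hw'
    obtain ⟨u₀, hu₀⟩ := hE.sqrt _ _ hkt
    set t₁ := ∑ i, R'.act (φ (σ i)) (ι e * u₀) with ht₁
    have hinv : ∀ g, R'.act (φ g) t₁ = t₁ := by
      intro g
      have := hs R'.L g (fun h => R'.act (φ h) (ι e * u₀)) fun h w hw => by
        rw [hmul', (mem_ker R' _).1 (hWW w hw)]
      rw [ht₁, map_sum, ← this]
      exact Finset.sum_congr rfl fun i _ => (hmul' _ _ _).symm
    have hd : ∀ h, R'.act (φ h) u₀ - u₀ ∈ R'.S.F (D + 3 * k) := by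
      intro h
      refine Filt.mem_of_pow_mem (k := 2) (by omega) ?_
      have e1 : (R'.act (φ h) u₀ - u₀) ^ 2 =
          R'.act (φ h) (u₀ ^ 2 - ι t₀) - (u₀ ^ 2 - ι t₀) := by
        rw [sq_sub, map_sub, map_pow, hE.comm, ht]
        ring
      rw [e1]
      exact Filt.mono (sub_mem (R'.hF _ _ _ hu₀) hu₀) (by push_cast; omega)
    have hd2 : t₁ - u₀ ∈ R'.S.F (D + k) := by
      have e1 : t₁ - u₀ = ∑ i, ι (R.act (φ (σ i)) e) * (R'.act (φ (σ i)) u₀ - u₀) := by
        have e2 : ∑ i, ι (R.act (φ (σ i)) e) = 1 := by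
          rw [← map_sum]
          rw [he, map_one]
        conv_lhs => rw [← one_mul u₀, ← e2, Finset.sum_mul, ht₁, ← Finset.sum_sub_distrib]
        refine Finset.sum_congr rfl fun i _ => ?_
        rw [map_mul, hE.comm]
        ring
      rw [e1]
      exact sum_mem fun i _ =>
        Filt.mul (hE.dbl _ _ (R.hF _ _ _ hke)) (hd (σ i)) (by omega)
    have hd3 : t₁ ^ 2 - ι t₀ ∈ R'.S.F (D + 2 * k) := by
      have e1 : t₁ ^ 2 - ι t₀ = (t₁ - u₀) ^ 2 + (u₀ ^ 2 - ι t₀) := by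
        rw [sq_sub]; ring
      rw [e1]
      exact add_mem (Filt.mono (Filt.pow_mem hd2 2) (by push_cast; omega))
        (Filt.mono hu₀ (by push_cast; omega))
    have hmain' : ∀ g, (R'.act (φ g) u - u + t₁ ^ 2 * ι (A g)) ^ 2 - ι (c g) ∈
        R'.S.F (2 * D) := by
      intro g
      have e1 : (R'.act (φ g) u - u + t₁ ^ 2 * ι (A g)) ^ 2 - ι (c g) =
          ((R'.act (φ g) u - u + ι (t₀ * A g)) ^ 2 - ι (c g)) +
            ((t₁ ^ 2 - ι t₀) * ι (A g)) ^ 2 := by
        have e3 := sq_add R' (R'.act (φ g) u - u + ι (t₀ * A g)) ((t₁ ^ 2 - ι t₀) * ι (A g))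
        rw [map_mul] at e3 ⊢
        linear_combination e3
      rw [e1]
      have e2 : (t₁ ^ 2 - ι t₀) * ι (A g) ∈ R'.S.F D :=
        Filt.mul hd3 (hE.dbl _ _ (hkA g)) (by omega)
      exact add_mem (hmain g) (Filt.mono (Filt.pow_mem e2 2) (by push_cast; omega))
    refine ⟨R', fun g => R'.act (φ g) u - u + t₁ ^ 2 * ι (A g), hE.lt, hact,
      ⟨u, t₁, fun g => ι (A g), hinv, hAι, fun w hw => ?_, fun g => rfl⟩,
      fun g => (htr _ (hc0 g) _ (hmain' g)).1, fun g => (htr _ (hc0 g) _ (hmain' g)).2⟩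
    rw [← map_pow, hAw w (hE.lt.le hw)]

end U3

theorem blk_U3 : St_U1 → St_U2 → St_U3 := by
  intro hU1 hU2 T K _ _ _ _ hT φ R D c hf hc0 hsm
  induction hn : Nat.card R.ker using Nat.strong_induction_on generalizing R with
  | _ n ih =>
  by_cases hne : R.ker = ⊥
  · exact ⟨R, c, hne, fun _ => rfl, U3.coc_of_form R φ c hf, hc0, fun _ => rfl⟩
  obtain ⟨R₁, c₁, hlt, ha, hf₁, hc₁, hcl⟩ := U3.step hU1 hU2 hT φ R D c hf hc0 hsm hne
  have hcard : Nat.card R₁.ker < n := by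
    rw [← hn]
    exact Set.ncard_lt_ncard (s := (R₁.ker : Set T)) (t := (R.ker : Set T)) hlt (Set.toFinite _)
  obtain ⟨R', c', h1, h2, h3, h4, h5⟩ := ih _ hcard R₁ c₁ hf₁ hc₁
    (fun w w' hw hw' => hsm w w' (hlt.le hw) (hlt.le hw')) rfl
  exact ⟨R', c', h1, fun g => (h2 g).trans (ha g), h3, h4, fun g => (h5 g).trans (hcl g)⟩

end Pool.Agent.Lib.MP_0813d1_al.Two

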