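import Mathlib
import Pool.Agent.Lib.MP_0813d1_al.TwoApi

namespace Pool.Agent.Lib.MP_0813d1_al.Two

open PC Univ

namespace U4

section cl
variable {T : Type} [Group T] {R : Real T}

theorem mem0 {k : ℕ} {x : R.L} (h : x ∈ R.S.F k) : x ∈ R.S.F 0 := Filt.mono h (by positivity)

theorem t0 (R : Real T) : R.t ∈ R.S.F 0 := Filt.mono R.ht.1 (by omega)

theorem cl_mem (hA : R.ClApi) (D : ℕ) {k : ℕ} {x : R.L} (h : x ∈ R.S.F k) :
    R.cl D x ∈ Iw 2 D k := by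
  rcases le_total k D with hk | hk
  · exact (hA.mem D k hk x (mem0 h)).2 h
  · rw [eq_zero_of_mem_Iw le_rfl ((hA.mem D D le_rfl x (mem0 h)).2
      (Filt.mono h (by exact_mod_cast hk)))]
    exact zero_mem _

theorem cl_sub (hA : R.ClApi) (D : ℕ) {x y : R.L} (hx : x ∈ R.S.F 0) (hy : y ∈ R.S.F 0) :
    R.cl D (x - y) = R.cl D x - R.cl D y := by
  rw [eq_sub_iff_add_eq, ← hA.add D _ (sub_mem hx hy) _ hy, sub_add_cancel]

theorem cl_dep (hA : R.ClApi) (D : ℕ) (g : T) :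
    R.cl D (R.act g R.t - R.t) = R.cl D (R.act g R.t) - wv 2 D := by
  rw [cl_sub hA D (R.hF _ _ _ (t0 R)) (t0 R), hA.t]

theorem al_wv (hA : R.ClApi) {D : ℕ} {α : T →* Au 2 D} (h : R.IsAl D α) (g : T) :
    α g (wv 2 D) = R.cl D (R.act g R.t) := by
  rw [← hA.t, h g _ (t0 R)]

theorem s_ne (R : Real T) : R.s ≠ 0 := fun h => by
  have h1 : R.z = R.y ^ 2 := by
    have h2 := R.hyz
    rw [h, eq_comm, CharTwo.add_eq_zero] at h2
    exact h2.symm
  have h2 : R.y ≠ 0 := fun h3 => R.hz.ne_zero (by rw [h1, h3]; simp)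
  obtain ⟨a, ha⟩ := Filt.exists_ex (S := R.S) h2
  have h3 := (h1 ▸ R.hz).unique (ha.pow 2)
  obtain ⟨k, hk⟩ := R.hk
  omega

theorem coc_one {K : Type} [Group K] {φ : K →* T} {c : K → R.L} (h : R.Coc φ c) : c 1 = 0 := by
  have h1 := h 1 1
  rw [mul_one, map_one, R.one] at h1
  exact left_eq_add.1 h1

/-- additive Hilbert 90 -/
theorem h90 {K : Type} [Group K] [Finite K] {φ : K →* T} {c : K → R.L} (h : R.Coc φ c)
    (hf : ∀ g, (∀ x, R.act (φ g) x = x) → g = 1) : ∃ b, ∀ g, c g = R.act (φ g) b - b := by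
  have := Fintype.ofFinite K
  obtain ⟨e, he⟩ := exists_trace_one (fun g => R.act (φ g)) (fun x => by rw [map_one, R.one])
    (fun g h x => by rw [map_mul, R.mul]) hf
  refine ⟨-∑ k, c k * R.act (φ k) e, fun g => ?_⟩
  have h1 : ∑ k, c k * R.act (φ k) e = ∑ k, c (g * k) * R.act (φ (g * k)) e :=
    (Fintype.sum_equiv (Equiv.mulLeft g) _ _ fun k => rfl).symm
  have h2 : ∑ k, R.act (φ (g * k)) e = 1 :=
    (Fintype.sum_equiv (Equiv.mulLeft g) _ _ fun k => rfl).trans he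
  rw [map_neg, sub_neg_eq_add, map_sum]
  conv_rhs => arg 2; rw [h1]
  rw [neg_add_eq_sub, ← Finset.sum_sub_distrib, ← mul_one (c g), ← h2, Finset.mul_sum]
  refine Finset.sum_congr rfl fun k _ => ?_
  rw [map_mul (R.act _), ← R.mul, ← map_mul, h g k]
  ring

end cl

/-- the data that define a twist -/
structure Bs {T : Type} [Group T] (R : Real T) (M : ℕ) (π : Pg (Tr 2 M) → T)
    (α : T →* Au 2 M) : Prop where
  al : R.IsAl M α
  one : π 1 = 1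
  mul : ∀ g h, π (g * act (α (π g)) h) = π g * π h
  dep0 : ∀ g, R.act (π g) R.t - R.t ∈ R.S.F (14 : ℕ)
  dep : ∀ (j : ℕ) g, Lev j g → R.act (π g) R.t - R.t ∈ R.S.F (2 * j + 14 : ℕ)

theorem Bs.tw {T : Type} [Group T] {R : Real T} {M : ℕ} {π : Pg (Tr 2 M) → T} {α : T →* Au 2 M}
    (hB : Bs R M π α) (hA : R.ClApi) {N : ℕ} (h : M ≤ N) :
    ∃ (τ : Tw N) (ψ : τ.Q →* T), (∀ x, ψ x = π (redP h x.g)) ∧
      (∀ x, τ.ρ x.g (wv 2 N) = R.cl N (R.act (ψ x) R.t)) ∧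
      ∀ (K : Type) [Group K] (φ : K →* T) (c : K → R.L), R.Coc φ c → (∀ g, c g ∈ R.S.F 0) →
        (∀ g, π (eP (R.cl M (c g))) = φ g) →
        ∃ f : K →* τ.Q, (∀ g, (f g).g = eP (R.cl N (c g))) ∧ ∀ g, ψ (f g) = φ g := by
  obtain ⟨β, hβ⟩ := hA.al N
  have h1 : ∀ g g' : Pg (Tr 2 N), π (redP h (g * act (β (π (redP h g))) g')) =
      π (redP h g) * π (redP h g') := fun g g' => by
    rw [map_mul, redP_act h (σ' := α (π (redP h g))), hB.mul]
    intro x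
    obtain ⟨y, hy, rfl⟩ := hA.surj N x
    rw [hβ _ _ hy, hA.red h _ (R.hF _ _ _ hy), hA.red h _ hy, hB.al _ _ hy]
  have h2 : ∀ (u : T) (k : ℕ), R.act u R.t - R.t ∈ R.S.F k →
      β u (wv 2 N) - wv 2 N ∈ Iw 2 N k := fun u k hu => by
    rw [al_wv hA hβ, ← cl_dep hA]
    exact cl_mem hA N hu
  let τ : Tw N := ⟨fun g => β (π (redP h g)), by rw [map_one, hB.one, map_one],
    fun g g' => by rw [h1, map_mul], fun g => h2 _ _ (hB.dep0 _),
    fun j g hg => h2 _ _ (hB.dep j _ (hg.red h))⟩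
  refine ⟨τ, MonoidHom.mk' (fun x => π (redP h x.g)) fun x y => h1 x.g y.g, fun _ => rfl,
    fun x => al_wv hA hβ _, fun K _ φ c hc h0 hπ => ?_⟩
  have h3 : ∀ g, π (redP h (eP (R.cl N (c g)))) = φ g := fun g => by
    rw [redP_eP, hA.red h _ (h0 g), hπ]
  refine ⟨MonoidHom.mk' (fun g => ⟨eP (R.cl N (c g))⟩) fun g g' => Tw.Q.ext ?_, fun _ => rfl, h3⟩
  show eP _ = eP _ * act (β (π (redP h (eP _)))) (eP _)
  rw [h3, act_eP, eP_mul, hβ _ _ (h0 _), hc, hA.add N _ (h0 _) _ (R.hF _ _ _ (h0 _))]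

/-- the invariant of the induction -/
def Inv (K : Type) [Group K] : Prop :=
  ∃ (T : Type) (_ : Group T) (R : Real T) (M : ℕ) (π : Pg (Tr 2 M) → T) (α : T →* Au 2 M)
    (φ : K →* T) (c : K → R.L), R.ker = ⊥ ∧ 11 ≤ M ∧ Bs R M π α ∧ Function.Injective φ ∧
    R.Coc φ c ∧ (∀ g, c g ∈ R.S.F (11 : ℕ)) ∧ (∀ g, π (eP (R.cl M (c g))) = φ g) ∧
    ∀ g, c g ∈ R.S.F M → g = 1

theorem base (h1 : St_U1) (K : Type) [Group K] [Subsingleton K] : Inv K := by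
  obtain ⟨R⟩ := h1.2.2 K
  obtain ⟨α, hα⟩ := (h1.1 K R).al 11
  have h : ∀ k, R.act 1 R.t - R.t ∈ R.S.F k := fun k => by
    rw [R.one, sub_self]
    exact zero_mem _
  exact ⟨K, inferInstance, R, 11, fun _ => 1, α, MonoidHom.id K, fun _ => 0,
    Subgroup.eq_bot_of_subsingleton _, le_rfl,
    ⟨hα, rfl, fun _ _ => (mul_one _).symm, fun _ => h _, fun _ _ _ => h _⟩,
    Function.injective_id, fun _ _ => by simp, fun _ => zero_mem _,
    fun _ => Subsingleton.elim _ _, fun _ _ => Subsingleton.elim _ _⟩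

theorem step (h1 : St_U1) (h3 : St_U3) (hP : St_PG) {K H : Type} [Group K] [Finite K] [Group H]
    [Finite H] (mk : K →* H) (hmk : Function.Surjective mk) (ζ : K) (hζ : ∀ g, ζ * g = g * ζ)
    (ho : orderOf ζ = 2) (hker : ∀ g, mk g = 1 ↔ g ∈ Subgroup.zpowers ζ) (hH : Inv H) :
    Inv K := by
  classical
  obtain ⟨T, _, R, M, π, α, φ, c, hR, hM, hB, hφ, hc, h11, hπ, hsep⟩ := hH
  have hA := h1.1 T R
  have hf : ∀ g, (∀ x, R.act (φ g) x = x) → g = 1 := fun g hg =>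
    hφ (by rw [map_one]; exact Subgroup.mem_bot.1 (hR ▸ hg))
  have hk2 : ∀ g, mk g = 1 → g = 1 ∨ g = ζ := fun g hg => by
    obtain ⟨k, hk, rfl⟩ := Finset.mem_image.1 (mem_zpowers_iff_mem_range_orderOf.1
      ((hker g).1 hg))
    rw [ho, Finset.mem_range] at hk
    interval_cases k <;> simp
  have hmζ : mk ζ = 1 := (hker ζ).2 (Subgroup.mem_zpowers ζ)
  obtain ⟨A, -, hA1, hA2, -⟩ := exists_cocycle 2 mk hmk ζ hζ ho hker (fun g => R.act (φ g))
    (fun x => by rw [map_one, R.one]) (fun g h x => by rw [map_mul, R.mul]) hf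
  have hA0 : A 1 = 0 := coc_one (φ := φ.comp mk) hA1
  have hA3 : ∀ w, w = 1 ∨ w = ζ → A w ^ 2 = A w := by
    rintro _ (rfl | rfl) <;> simp [hA0, hA2]
  obtain ⟨b, hb⟩ := h90 hc hf
  obtain ⟨c0, hc0⟩ := Filt.exists_bound (S := R.S) A
  obtain ⟨u, hu0, hu1, hu2⟩ : ∃ u : R.L, u ≠ 0 ∧ (∀ g, R.act g u = u) ∧
      ∀ g, u ^ 2 * A g ∈ R.S.F M :=
    ⟨R.s ^ (M + c0), pow_ne_zero _ (s_ne R), fun g => by rw [map_pow, R.hs], fun g =>
      Filt.mul (Filt.pow_mem (Filt.pow_mem R.hs1 _) _) (hc0 g) (by push_cast; omega)⟩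
  obtain ⟨v, hv⟩ := Filt.exists_ex (S := R.S) (pow_ne_zero 2 hu0)
  obtain ⟨M', hM1, hM2⟩ : ∃ M' : ℕ, M ≤ M' ∧ v < M' := ⟨M + v.toNat + 1, by omega, by omega⟩
  obtain ⟨c1, hc1⟩ : ∃ c1 : K → R.L, ∀ g, c1 g = c (mk g) + u ^ 2 * A g := ⟨_, fun _ => rfl⟩
  have g11 : ∀ g, c1 g ∈ R.S.F (11 : ℕ) := fun g => by
    rw [hc1]
    exact add_mem (h11 _) (Filt.mono (hu2 g) (by exact_mod_cast hM))
  have gc : R.Coc (φ.comp mk) c1 := fun g h => by
    rw [hc1, hc1, hc1, map_mul, hc, hA1, map_add, map_mul, map_pow, hu1, MonoidHom.comp_apply]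
    ring
  have gsep : ∀ g, c1 g ∈ R.S.F M' → g = 1 := fun g hg => by
    have h2 := sub_mem (Filt.mono hg (by exact_mod_cast hM1 : (M : ℤ) ≤ M')) (hu2 g)
    rw [hc1, add_sub_cancel_right] at h2
    refine (hk2 g (hsep _ h2)).resolve_right ?_
    rintro rfl
    rw [hc1, hmζ, coc_one hc, hA2, zero_add, mul_one] at hg
    exact absurd (hv.le hg) (not_le.2 hM2)
  obtain ⟨τ, ψ, hψ, hρ, hf'⟩ := hB.tw hA hM1
  obtain ⟨f, f1, f2⟩ := hf' K (φ.comp mk) c1 gc (fun g => mem0 (g11 g)) fun g => by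
    rw [hc1, hA.add M _ (mem0 (h11 _)) _ (mem0 (hu2 g)),
      eq_zero_of_mem_Iw le_rfl (cl_mem hA M (hu2 g)), add_zero, hπ, MonoidHom.comp_apply]
  have hw : ∀ w, f w ∈ (R.comap ψ).ker → w = 1 ∨ w = ζ := fun w hw =>
    hk2 w (hf _ fun x => (congrArg (R.act · x) (f2 w)).symm.trans (hw x))
  have hc2 : ∀ g, c1 g = R.act (ψ (f g)) b - b + u ^ 2 * A g := fun g => by
    rw [hc1, hb, f2, MonoidHom.comp_apply]
  obtain ⟨_, hp⟩ := hP M' τ
  obtain ⟨R', c', k1, k2, k3, k4, k5⟩ := h3 τ.Q K hp f (R.comap ψ) (2 * M' + 14) c1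
    ⟨b, u, A, fun g => hu1 _, fun g h => (hA1 g h).trans (congrArg (A g + R.act · (A h))
      (f2 g).symm), fun w h => hA3 w (hw w h), hc2⟩ (fun g => mem0 (g11 g))
    fun w w' a a' e e' => ((hw w a).resolve_left e).trans ((hw w' a').resolve_left e').symm
  have hA' := h1.1 _ R'
  replace k2 : ∀ g, R'.cl _ (R'.act g R'.t) = R.cl _ (R.act (ψ g) R.t) := k2
  replace k5 : ∀ g, R'.cl _ (c' g) = R.cl _ (c1 g) := k5
  have hD : M' ≤ 2 * M' + 14 := by omega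
  obtain ⟨α', hα'⟩ := hA'.al M'
  have e1 : ∀ x : τ.Q, α' x = τ.ρ x.g := fun x => AlgEquiv.coe_toAlgHom_injective
    (tr_algHom_ext (by
      show α' x (wv 2 M') = τ.ρ x.g (wv 2 M')
      rw [al_wv hA' hα', hρ, ← hA'.red hD _ (R'.hF _ _ _ (t0 R')), k2,
        hA.red hD _ (R.hF _ _ _ (t0 R))]))
  have e2 : ∀ (x : τ.Q) (k : ℕ), k ≤ 2 * M' + 14 → R.act (π (redP hM1 x.g)) R.t - R.t ∈ R.S.F k →
      R'.act x R'.t - R'.t ∈ R'.S.F k := fun x k hk h => by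
    rw [← hA'.mem _ k hk _ (sub_mem (R'.hF _ _ _ (t0 R')) (t0 R')), cl_dep hA', k2, ← cl_dep hA,
      hψ]
    exact cl_mem hA _ h
  have e3 : ∀ g (k : ℕ), k ≤ 2 * M' + 14 → (c' g ∈ R'.S.F k ↔ c1 g ∈ R.S.F k) := fun g k hk => by
    rw [← hA'.mem _ k hk _ (k4 g), k5, hA.mem _ k hk _ (mem0 (g11 g))]
  refine ⟨τ.Q, inferInstance, R', M', fun g => ⟨g⟩, α', f, c', k1, hM.trans hM1,
    ⟨hα', rfl, fun g h => by rw [e1]; rfl, fun g => e2 _ _ (by omega) (hB.dep0 _),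
      fun j g hg => ?_⟩, (injective_iff_map_eq_one f).2 fun g hg => gsep g ?_, k3,
    fun g => (e3 g _ (by omega)).2 (g11 g), fun g => Tw.Q.ext ?_,
    fun g hg => gsep g ((e3 g _ hD).1 hg)⟩
  · rcases le_total j M' with hj | hj
    · exact e2 _ _ (by omega) (hB.dep j _ (hg.red hM1))
    · rw [hg.eq_one hj]
      show R'.act 1 _ - _ ∈ _
      rw [R'.one, sub_self]
      exact zero_mem _
  · rw [← hA.mem _ _ le_rfl _ (mem0 (g11 g)), ← lev_eP, ← f1, hg]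
    exact lev_one _
  · rw [f1, ← hA'.red hD _ (k4 g), k5, hA.red hD _ (mem0 (g11 g))]

theorem all (h1 : St_U1) (h3 : St_U3) (hP : St_PG) (n : ℕ) :
    ∀ (G : Type) [Group G] [Finite G], Nat.card G = 2 ^ n → Inv G := by
  induction n with
  | zero =>
    intro G _ _ hG
    have : Subsingleton G := (Nat.card_eq_one_iff_unique.1 (by simpa using hG)).1
    exact base h1 G
  | succ n ih =>
    intro G _ _ hG
    have hpG : IsPGroup 2 G := IsPGroup.of_card hG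
    have hnt : Nontrivial G := by
      rw [← Finite.one_lt_card_iff_nontrivial, hG]
      exact Nat.one_lt_pow (by omega) one_lt_two
    have hZ : Nontrivial (Subgroup.center G) := hpG.center_nontrivial
    have hdvd : 2 ∣ Nat.card (Subgroup.center G) := by
      obtain ⟨k, hk0, hk⟩ := (hpG.to_subgroup (Subgroup.center G)).nontrivial_iff_card.1 hZ
      rw [hk]
      exact dvd_pow_self 2 hk0.ne'
    obtain ⟨z0, hz0⟩ := exists_prime_orderOf_dvd_card' 2 hdvd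
    have hz : ∀ g : G, (z0 : G) * g = g * z0 := fun g =>
      (Subgroup.mem_center_iff.1 z0.2 g).symm
    have ho : orderOf (z0 : G) = 2 := by rw [Subgroup.orderOf_coe, hz0]
    have hN : (Subgroup.zpowers (z0 : G)).Normal := ⟨by
      rintro _ ⟨k, rfl⟩ g
      have : Commute g ((z0 : G) ^ k) := (show Commute g z0 from (hz g).symm).zpow_right k
      simp only
      rw [this.eq, mul_assoc, mul_inv_cancel, mul_one]
      exact ⟨k, rfl⟩⟩
    have hcard : Nat.card G = 2 * Nat.card (G ⧸ Subgroup.zpowers (z0 : G)) := by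
      rw [Subgroup.card_eq_card_quotient_mul_card_subgroup (Subgroup.zpowers (z0 : G)),
        Nat.card_zpowers, ho, mul_comm]
    have hQ : Nat.card (G ⧸ Subgroup.zpowers (z0 : G)) = 2 ^ n := by
      rw [hG, pow_succ'] at hcard
      exact (Nat.eq_of_mul_eq_mul_left two_pos hcard).symm
    exact step h1 h3 hP (QuotientGroup.mk' _) (QuotientGroup.mk'_surjective _) (z0 : G) hz ho
      (fun g => QuotientGroup.eq_one_iff g) (ih _ hQ)

end U4

open U4 in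
theorem blk_U4 : St_U1 → St_U3 → St_PG → St_Univ := by
  intro h1 h3 hP K _ _ hK
  obtain ⟨n, hn⟩ := hK.exists_card_eq
  obtain ⟨T, _, R, M, π, α, φ, c, -, -, hB, -, hc, h11, hπ, hsep⟩ := all h1 h3 hP n K hn
  have hA := h1.1 T R
  refine ⟨M, fun N hN => ?_⟩
  obtain ⟨τ, ψ, -, -, hf⟩ := hB.tw hA hN
  obtain ⟨f, f1, -⟩ := hf K φ c hc (fun g => mem0 (h11 g)) hπ
  refine ⟨τ, f, fun g => ?_, fun g hg => hsep g ?_⟩
  · rw [f1, lev_eP]
    exact cl_mem hA N (h11 g)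
  · rwa [f1, lev_eP, hA.mem N M hN _ (mem0 (h11 g))] at hg

end Pool.Agent.Lib.MP_0813d1_al.Two
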