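import Pool.Agent.Lib.MP_0813d1_al.TwoBlue

/-! Linear algebra over the field of two elements: a window of compatible pairings on `su` comes
from the bracket. -/

namespace Pool.Agent.Lib.MP_0813d1_al.Two

namespace WIN

/-- reduction of a bit mask by a list of masks -/
def red (B : List ℕ) (t : ℕ) : ℕ :=
  B.foldr (fun b t => bif Nat.ble t (t ^^^ b) then t else t ^^^ b) t

/-- incremental elimination -/
def bas (R : List ℕ) : List ℕ :=
  R.foldl (fun B r => bif Nat.beq (red B r) 0 then B else red B r :: B) []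

section span
variable {P : ℕ → Prop} (hx : ∀ a b, P a → P b → P (a ^^^ b))
include hx

theorem red_iff {B : List ℕ} (hB : ∀ b ∈ B, P b) (t : ℕ) : P (red B t) ↔ P t := by
  induction B with
  | nil => rfl
  | cons b B ih =>
    rw [← ih fun c hc => hB c (List.mem_cons_of_mem _ hc)]
    change P (bif Nat.ble (red B t) (red B t ^^^ b) then red B t else red B t ^^^ b) ↔ _
    have hb := hB b List.mem_cons_self
    cases Nat.ble (red B t) (red B t ^^^ b)
    · refine ⟨fun h => ?_, fun h => hx _ _ h hb⟩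
      simpa using hx _ _ h hb
    · rfl

theorem bas_mem {R : List ℕ} (hR : ∀ r ∈ R, P r) : ∀ b ∈ bas R, P b := by
  have : ∀ B : List ℕ, (∀ b ∈ B, P b) → ∀ b ∈ R.foldl
      (fun B r => bif Nat.beq (red B r) 0 then B else red B r :: B) B, P b := by
    induction R with
    | nil => exact fun B h => h
    | cons r R ih =>
      intro B hB
      refine ih (fun c hc => hR c (List.mem_cons_of_mem _ hc)) _ ?_
      change ∀ b ∈ (bif Nat.beq (red B r) 0 then B else red B r :: B), P b
      cases Nat.beq (red B r) 0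
      · intro b hb
        rcases List.mem_cons.1 hb with rfl | hb
        exacts [(red_iff hx hB r).2 (hR r List.mem_cons_self), hB b hb]
      · exact hB
  exact this [] (by simp)

end span

/-- the unknowns -/
abbrev Ix : Type := Fin 2 × Fin 8 × Fin 8

def idx (p : Ix) : ℕ := 64 * p.1.val + 8 * p.2.1.val + p.2.2.val

theorem idx_inj {p q : Ix} (h : idx p = idx q) : p = q := by
  obtain ⟨a, b, c⟩ := p
  obtain ⟨a', b', c'⟩ := q
  simp only [idx] at h
  have : a.val = a'.val ∧ b.val = b'.val ∧ c.val = c'.val := by omega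
  simp only [Prod.mk.injEq, Fin.ext_iff]
  exact this

/-- the mask of a formal sum of unknowns -/
def msk (L : List Ix) : ℕ := L.foldr (fun p m => 2 ^ idx p ^^^ m) 0

/-- all targets lie in the span of the rows -/
def chk (R T : List (List Ix)) : Bool := T.all fun t => Nat.beq (red (bas (R.map msk)) (msk t)) 0

variable {Y : Type} [AddCommGroup Y]

/-- the value of a mask -/
def ev (v : Ix → Y) (m : ℕ) : Y := ∑ p, if m.testBit (idx p) then v p else 0

theorem ev_xor {v : Ix → Y} (hv : ∀ p, v p + v p = 0) (a b : ℕ) :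
    ev v (a ^^^ b) = ev v a + ev v b := by
  rw [ev, ev, ev, ← Finset.sum_add_distrib]
  refine Finset.sum_congr rfl fun p _ => ?_
  rw [Nat.testBit_xor]
  cases a.testBit (idx p) <;> cases b.testBit (idx p) <;> simp [hv]

theorem ev_msk {v : Ix → Y} (hv : ∀ p, v p + v p = 0) (L : List Ix) :
    ev v (msk L) = (L.map v).sum := by
  induction L with
  | nil => simp [ev, msk]
  | cons p L ih =>
    rw [List.map_cons, List.sum_cons, ← ih, ← show ev v (2 ^ idx p) = v p from ?_, ← ev_xor hv]
    · rfl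
    · rw [ev, Finset.sum_eq_single p (fun q _ h => if_neg ?_) (by simp)]
      · simp
      · rw [Nat.testBit_two_pow]
        simpa using fun e => h (idx_inj e).symm

theorem of_chk {v : Ix → Y} (hv : ∀ p, v p + v p = 0) {R T : List (List Ix)} (h : chk R T = true)
    (hR : ∀ r ∈ R, (r.map v).sum = 0) : ∀ t ∈ T, (t.map v).sum = 0 := by
  intro t ht
  have hx : ∀ a b, ev v a = 0 → ev v b = 0 → ev v (a ^^^ b) = 0 := fun a b ha hb => by
    rw [ev_xor hv, ha, hb, add_zero]
  have h1 := Nat.eq_of_beq_eq_true (List.all_eq_true.1 h t ht)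
  rw [← ev_msk hv, ← red_iff (P := fun m => ev v m = 0) hx (bas_mem hx ?_), h1]
  · simp [ev]
  · intro r hr
    obtain ⟨r', hr', rfl⟩ := List.mem_map.1 hr
    rw [ev_msk hv, hR r' hr']

/-- structure constants -/
def sc : Fin 8 → Fin 8 → List (Fin 8) :=
  ![![[], [6], [], [], [2], [2, 3], [], [0]],
    ![[6], [], [4], [4, 5], [], [], [], [1]],
    ![[], [4], [], [0], [6], [7], [2], [2, 3]],
    ![[], [4, 5], [0], [], [7], [6, 7], [3], [2]],
    ![[2], [], [6], [7], [], [1], [4], [4, 5]],
    ![[2, 3], [], [7], [6, 7], [1], [], [5], [4]],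
    ![[], [], [2], [3], [4], [5], [], []],
    ![[0], [1], [2, 3], [2], [4, 5], [4], [], []]]

theorem sbr_sB (i j : Fin 8) : sbr (sB i) (sB j) = ((sc i j).map sB).sum := by
  apply su_ext
  revert i j
  decide +kernel

/-- all triples -/
def tri : List (Fin 8 × Fin 8 × Fin 8) :=
  (List.finRange 8) ×ˢ ((List.finRange 8) ×ˢ (List.finRange 8))

/-- all pairs -/
def prs : List (Fin 8 × Fin 8) := (List.finRange 8) ×ˢ (List.finRange 8)

theorem mem_prs (i j : Fin 8) : (i, j) ∈ prs := by simp [prs]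

def row1 (q : Fin 8 × Fin 8 × Fin 8) : List Ix :=
  (sc q.1 q.2.1).map (fun k => (1, k, q.2.2)) ++ (sc q.2.1 q.2.2).map fun k => (0, q.1, k)

def row2 (q : Fin 8 × Fin 8 × Fin 8) : List Ix :=
  (sc q.1 q.2.1).map (fun k => (0, k, q.2.2)) ++ ((sc q.2.1 q.2.2).map (fun k => (0, q.1, k)) ++
    (sc q.1 q.2.2).map fun k => (0, q.2.1, k))

/-- the pairs of basis vectors whose brackets are the basis vectors -/
def pr : Fin 8 → Ix :=
  ![(0, 2, 3), (0, 4, 5), (0, 0, 4), (0, 3, 6), (0, 1, 2), (0, 5, 6), (0, 0, 1), (0, 2, 5)]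

theorem chk1 : chk (tri.map row1) (prs.map (fun q => [(0, q), (1, q)]) ++
    prs.map fun q => [(0, q), (0, q.2, q.1)]) = true := by decide +kernel

theorem chk1' : chk ([(0, 0, 1)] :: tri.map row1) (prs.map fun q => [(0, q)]) = true := by
  decide +kernel

theorem chk2 : chk (tri.map row2) (prs.map fun q => (0, q) :: (sc q.1 q.2).map pr) = true := by
  decide +kernel

theorem two (u : su →+ su →+ Y) (X Z : su) : u X Z + u X Z = 0 := by
  rw [← map_add, su_add_self, map_zero]

theorem eq_of {u u' : su →+ su →+ Y} {X Z X' Z' : su} (h : u X Z + u' X' Z' = 0) :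
    u X Z = u' X' Z' := by
  rw [eq_neg_of_add_eq_zero_left h, neg_eq_of_add_eq_zero_left (two u' X' Z')]

theorem ext1 {f g : su →+ Y} (h : ∀ i, f (sB i) = g (sB i)) : f = g :=
  AddMonoidHom.ext (su_ind (by simp) h fun X Z a b => by rw [map_add, map_add, a, b])

theorem ext2 {u u' : su →+ su →+ Y} (h : ∀ i j, u (sB i) (sB j) = u' (sB i) (sB j)) : u = u' :=
  AddMonoidHom.ext (su_ind (by simp) (fun i => ext1 (h i)) fun X Z a b => by
    rw [map_add, map_add, a, b])

theorem br_left (u : su →+ su →+ Y) (i j : Fin 8) (Z : su) :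
    u (sbr (sB i) (sB j)) Z = ((sc i j).map fun k => u (sB k) Z).sum := by
  rw [sbr_sB, ← AddMonoidHom.flip_apply u, map_list_sum, List.map_map]
  rfl

theorem br_right (f : su →+ Y) (i j : Fin 8) :
    f (sbr (sB i) (sB j)) = ((sc i j).map fun k => f (sB k)).sum := by
  rw [sbr_sB, map_list_sum, List.map_map]
  rfl

theorem lemma1 (u u' : su →+ su →+ Y) (h : ∀ X Y Z, u' (sbr X Y) Z = u X (sbr Y Z)) :
    u = u' ∧ (∀ X Z, u X Z = u Z X) ∧ (u sE sF = 0 → u = 0) := by
  let v : Ix → Y := fun p => (![u, u'] p.1) (sB p.2.1) (sB p.2.2)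
  have hv : ∀ p, v p + v p = 0 := fun p => two _ _ _
  have hR : ∀ r ∈ tri.map row1, (r.map v).sum = 0 := fun r hr => by
    obtain ⟨⟨x, y, z⟩, -, rfl⟩ := List.mem_map.1 hr
    rw [row1, List.map_append, List.sum_append, List.map_map, List.map_map]
    refine ((congrArg₂ (· + ·) (br_left u' x y (sB z)) (br_right (u (sB x)) y z)).symm).trans ?_
    rw [h, two]
  have h1 := of_chk hv chk1 hR
  refine ⟨ext2 fun i j => eq_of ?_, fun X Z => ?_, fun h0 => ext2 fun i j => ?_⟩
  · simpa [v] using h1 _ (List.mem_append_left _ (List.mem_map_of_mem (mem_prs i j)))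
  · have : u = u.flip := ext2 fun i j => eq_of (u' := u) (by
      simpa [v] using h1 _ (List.mem_append_right _ (List.mem_map_of_mem (mem_prs i j))))
    exact DFunLike.congr_fun (DFunLike.congr_fun this X) Z
  · have h2 := of_chk hv chk1' (fun r hr => by
      rcases List.mem_cons.1 hr with rfl | hr
      exacts [(add_zero _).trans h0, hR r hr]) _ (List.mem_map_of_mem (mem_prs i j))
    simpa [v] using h2

/-- the additive map with given values on the basis -/
def mkY (c : Fin 8 → Y) (hc : ∀ i, c i + c i = 0) : su →+ Y :=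
  AddMonoidHom.mk' (fun X => ∑ i, if sco X i = 1 then c i else 0) fun X Z => by
    rw [← Finset.sum_add_distrib, sco_add]
    refine Finset.sum_congr rfl fun i _ => ?_
    rw [Pi.add_apply]
    generalize sco X i = a
    generalize sco Z i = b
    have e : (1 + 1 : ZMod 2) = 0 := rfl
    have k : ∀ a : ZMod 2, a = 0 ∨ a = 1 := by decide
    rcases k a with rfl | rfl <;> rcases k b with rfl | rfl <;> simp [e, hc]

theorem mkY_sB (c : Fin 8 → Y) (hc : ∀ i, c i + c i = 0) (i : Fin 8) : mkY c hc (sB i) = c i := by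
  change (∑ j, if sco (sB i) j = 1 then c j else 0) = c i
  rw [Finset.sum_eq_single i (fun j _ h => by simp [sco_sB, h.symm]) (by simp)]
  simp [sco_sB]

/-- the bracket followed by an additive map -/
def brY (y : su →+ Y) : su →+ su →+ Y :=
  AddMonoidHom.mk' (fun X => AddMonoidHom.mk' (fun Z => y (sbr X Z)) fun Z Z' => by
    rw [sbr_add_right, map_add]) fun X X' => AddMonoidHom.ext fun Z => by
      change y (sbr (X + X') Z) = y (sbr X Z) + y (sbr X' Z)
      rw [sbr_add_left, map_add]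

theorem lemma2 (w : su →+ su →+ Y)
    (h : ∀ X Y Z, w (sbr X Y) Z = w X (sbr Y Z) + w Y (sbr X Z)) :
    ∃ y : su →+ Y, ∀ X Z, w X Z = y (sbr X Z) := by
  let v : Ix → Y := fun p => w (sB p.2.1) (sB p.2.2)
  have hv : ∀ p, v p + v p = 0 := fun p => two _ _ _
  have hR : ∀ r ∈ tri.map row2, (r.map v).sum = 0 := fun r hr => by
    obtain ⟨⟨x, y, z⟩, -, rfl⟩ := List.mem_map.1 hr
    rw [row2, List.map_append, List.sum_append, List.map_append, List.sum_append, List.map_map,
      List.map_map, List.map_map]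
    refine ((congrArg₂ (· + ·) (br_left w x y (sB z)) (congrArg₂ (· + ·) (br_right (w (sB x)) y z)
      (br_right (w (sB y)) x z))).symm).trans ?_
    rw [← h, two]
  have hc : ∀ i, v (pr i) + v (pr i) = 0 := fun i => hv _
  refine ⟨mkY _ hc, fun X Z => ?_⟩
  have : w = brY (mkY _ hc) := ext2 fun i j => eq_of (by
    have h2 := of_chk hv chk2 hR _ (List.mem_map_of_mem (mem_prs i j))
    rw [List.map_cons, List.sum_cons, List.map_map] at h2
    change _ + mkY _ hc (sbr (sB i) (sB j)) = 0
    rw [br_right]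
    simp only [mkY_sB]
    exact h2)
  exact DFunLike.congr_fun (DFunLike.congr_fun this X) Z

theorem two' (u : su →+ su →+ Y) : u + u = 0 :=
  AddMonoidHom.ext fun X => AddMonoidHom.ext fun Z => two u X Z

end WIN

open WIN in
theorem blk_WIN : St_WIN := by
  intro Y _ m W hm sym jac hc
  have hD : ∀ a b, 2 ≤ a → 2 ≤ b → a + b + 3 ≤ m → ∀ X Y Z,
      (W (a + b + 1) + W (a + b)) (sbr X Y) Z = (W (a + 1) + W a) X (sbr Y Z) := by
    intro a b ha hb h X Y Z
    have h1 := jac (a + 1) b (by omega) hb (by omega) X Y Z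
    rw [add_right_comm a 1 b] at h1
    simp only [AddMonoidHom.add_apply]
    rw [h1, jac a b ha hb (by omega), add_add_add_comm, two, add_zero]
  obtain ⟨D, hD2⟩ : ∃ D, D = W (2 + 1) + W 2 := ⟨_, rfl⟩
  have h4 : ∀ c, 4 ≤ c → c + 3 ≤ m → W (c + 1) + W c = D := fun c h1 h2 => by
    obtain ⟨b, rfl⟩ : ∃ b, c = 2 + b := ⟨c - 2, by omega⟩
    rw [hD2]
    exact (lemma1 _ _ (hD 2 b le_rfl (by omega) h2)).1.symm
  have hall : ∀ c, 2 ≤ c → c + 3 ≤ m → W (c + 1) + W c = D := fun c h1 h2 => by
    by_cases h : 4 ≤ c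
    · exact h4 c h h2
    · obtain rfl | rfl : c = 2 ∨ c = 3 := by omega
      · exact hD2.symm
      · exact (lemma1 _ _ (hD 3 2 (by omega) le_rfl (by omega))).1.trans (h4 5 (by omega) (by omega))
  obtain ⟨-, hs, hz⟩ := lemma1 _ _ (hD 2 2 le_rfl le_rfl (by omega))
  rw [← hD2] at hs hz
  have hW : ∀ c, c + 4 ≤ m → W (c + 2) = W 2 + c • D := fun c => by
    induction c with
    | zero => simp
    | succ c ih =>
      intro h
      rw [succ_nsmul, ← add_assoc, ← ih (by omega), ← hall (c + 2) (by omega) (by omega),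
        add_left_comm, two', add_zero]
  have hW4 : W (2 + 2) = W 2 := by rw [hW 2 (by omega), two_nsmul, two', add_zero]
  obtain ⟨y, hy⟩ := lemma2 (W 2) fun X Y Z => by
    rw [← jac 2 2 le_rfl le_rfl (by omega), hW4]
  have h0 : D = 0 := by
    refine hz ?_
    rcases hc with ⟨k, hk⟩ | ⟨a, h1, h2, h3⟩
    · have h1 := sym 2 le_rfl (by omega) sE sF
      obtain ⟨j, hj⟩ : ∃ j, m - 2 = 2 * j + 1 + 2 := ⟨k - 2, by omega⟩
      rw [hj, hW (2 * j + 1) (by omega), succ_nsmul, mul_nsmul, two_nsmul, two', nsmul_zero, zero_add,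
        AddMonoidHom.add_apply, AddMonoidHom.add_apply, hy, hy, sbr_comm sF, hs sF] at h1
      exact left_eq_add.1 h1
    · rw [← hall a h1 h2, AddMonoidHom.add_apply, AddMonoidHom.add_apply, h3, two]
  refine ⟨y, fun a h1 h2 X Z => ?_⟩
  obtain ⟨c, rfl⟩ : ∃ c, a = c + 2 := ⟨a - 2, by omega⟩
  rw [hW c (by omega), h0, nsmul_zero, add_zero, hy]

end Pool.Agent.Lib.MP_0813d1_al.Two
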