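import Mathlib
import Pool.Agent.Lib.MP_0813d1_al.Main
import Pool.Agent.Lib.MP_0813d1_al.Three7
import Pool.Agent.Lib.MP_0813d1_al.PC3Final
import Pool.Agent.Lib.MP_0813d1_al.TwoA1
import Pool.Agent.Lib.MP_0813d1_al.TwoA1R
import Pool.Agent.Lib.MP_0813d1_al.TwoA2
import Pool.Agent.Lib.MP_0813d1_al.TwoA3
import Pool.Agent.Lib.MP_0813d1_al.TwoA4
import Pool.Agent.Lib.MP_0813d1_al.TwoA5
import Pool.Agent.Lib.MP_0813d1_al.TwoA6
import Pool.Agent.Lib.MP_0813d1_al.TwoA7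
import Pool.Agent.Lib.MP_0813d1_al.TwoCert
import Pool.Agent.Lib.MP_0813d1_al.TwoF1a
import Pool.Agent.Lib.MP_0813d1_al.TwoF1b
import Pool.Agent.Lib.MP_0813d1_al.TwoF1c
import Pool.Agent.Lib.MP_0813d1_al.TwoFIL
import Pool.Agent.Lib.MP_0813d1_al.TwoHOPF
import Pool.Agent.Lib.MP_0813d1_al.TwoKQ
import Pool.Agent.Lib.MP_0813d1_al.TwoMOD
import Pool.Agent.Lib.MP_0813d1_al.TwoPGU
import Pool.Agent.Lib.MP_0813d1_al.TwoQF
import Pool.Agent.Lib.MP_0813d1_al.TwoU1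
import Pool.Agent.Lib.MP_0813d1_al.TwoU2
import Pool.Agent.Lib.MP_0813d1_al.TwoU3
import Pool.Agent.Lib.MP_0813d1_al.TwoU4
import Pool.Agent.Lib.MP_0813d1_al.TwoWIN

namespace Pool.Agent.Lib.MP_0813d1_al

open Two in
theorem main_two : St_Main :=
  blk_A7 (blk_U4 blk_U1 (blk_U3 blk_U1 blk_U2) blk_PG) blk_PG blk_FIL
    (blk_QF blk_PF blk_Ind blk_Up9 blk_KQ (blk_MOD blk_XF)) blk_KMem blk_A1
    (blk_A6 blk_A1 blk_A1R blk_Cert blk_A2 blk_A3 (blk_A4 blk_WIN) blk_A5) blk_HOPF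

theorem main_all (p : ℕ) [hp : Fact p.Prime] (G : Type) [Group G] [Finite G] (hG : IsPGroup p G) :
    ∃ (H : Type) (_ : Group H) (_ : Finite H), IsPGroup p H ∧
      Subsingleton (groupHomology (Rep.trivial ℤ H ℤ) 2) ∧
      ∃ φ : G →* H, Function.Injective φ := by
  by_cases h5 : 5 ≤ p
  · exact main_ge_five p h5 G hG
  have h2 := hp.out.two_le
  have h4 : p ≠ 4 := by rintro rfl; exact absurd hp.out (by decide)
  obtain rfl | rfl : p = 2 ∨ p = 3 := by omega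
  · exact main_two G hG
  · exact Three.main_three PC.T3.cert G hG

end Pool.Agent.Lib.MP_0813d1_al
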