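import Mathlib

namespace Pool.Agent.Lib.MP_0813d1_al

/-- iterated bracket `[a_1,[a_2,...,[a_k, u]]]`, `a_i = x` for `true`, `y` for `false` -/
def word {L : Type*} [LieRing L] (x y : L) : List Bool → L → L
  | [], u => u
  | b :: l, u => ⁅(if b then x else y), word x y l u⁆

namespace LowDeg

abbrev V := List ℤ

def addv : V → V → V
  | [], w => w
  | a :: v, [] => a :: v
  | a :: v, b :: w => (a + b) :: addv v w

def smv (c : ℤ) : V → V
  | [] => []
  | a :: v => (c * a) :: smv c v

def zv : V → Bool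
  | [] => true
  | a :: v => a == 0 && zv v

def eqv (v w : V) : Bool := zv (addv v (smv (-1) w))

def comb (F : ℕ → V) : ℕ → V → V
  | _, [] => []
  | o, c :: v => if c = 0 then comb F (o + 1) v else addv (smv c (F o)) (comb F (o + 1) v)

def allOk (ok : ℕ → Bool) : ℕ → V → Bool
  | _, [] => true
  | o, c :: v => (c == 0 || ok o) && allOk ok (o + 1) v

def unitv : ℕ → ℤ → V
  | 0, c => [c]
  | i + 1, c => 0 :: unitv i c

def cand (g : ℕ) : V → V
  | [] => []
  | c :: v => if g = 0 then c :: 0 :: 0 :: cand g v else if g = 1 then 0 :: c :: 0 :: cand g v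
      else 0 :: 0 :: c :: cand g v

def isU (u : ℤ) : Bool := (6 : ℤ) ^ 60 % u == 0

inductive Rel
  | w0 (g : Bool) (l : List Bool)
  | w1 (l : List Bool)
  | a (a b : ℕ)
  | p (a b : ℕ)

structure Data where
  M : ℤ
  degL : List ℕ
  offL : List ℕ
  dimL : List ℕ
  SL : List ℤ
  dfnL : List V
  PL : List (List V)
  TL : List (List V)
  PiL : List V
  relL : List (List (Rel × V))
  lamL : List (List (ℤ × V))

def gw (g : ℕ) : ℕ := if g = 0 then 1 else if g = 1 then 1 else 4
def gi (g : ℕ) : ℕ := if g = 0 then 0 else if g = 1 then 1 else 5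
def gb (b : Bool) : ℕ := if b then 0 else 1
def isGen (a : ℕ) : Bool := a == 0 || a == 1 || a == 5
def ig (a : ℕ) : ℕ := if a = 0 then 0 else if a = 1 then 1 else 2

def W0 : List (List Bool) :=
  [[false], [true, true, true], [false, false, true],
   [true, true, false, true, true], [false, false, false, true, true],
   [true, true, false, true, false, true, true], [false, false, false, true, false, true, true]]

def W1 : List (List Bool) :=
  [[true], [false, true, true], [false, true, false, true, true]]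

def lists : ℕ → List (List Bool)
  | 0 => [[]]
  | k + 1 => (lists k).flatMap fun l => [true :: l, false :: l]

namespace Data
variable (D : Data)

def deg (a : ℕ) : ℕ := D.degL.getD a 0
def off (n : ℕ) : ℕ := D.offL.getD n 0
def dim (n : ℕ) : ℕ := D.dimL.getD n 0
def S (n : ℕ) : ℤ := D.SL.getD n 0
def dfn (a : ℕ) : V := D.dfnL.getD a []
def P (a b : ℕ) : V := (D.PL.getD a []).getD b []
def T (a b : ℕ) : V := (D.TL.getD a []).getD b []
def Pi (a : ℕ) : V := D.PiL.getD a []
def ci (n j : ℕ) : ℕ := D.off (n - gw (j % 3)) + j / 3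
def okj (n j : ℕ) : Bool := j / 3 < D.dim (n - gw (j % 3))
def blk (n : ℕ) : List ℕ := List.range' (D.off n) (D.dim n)

def wv (d : ℕ) (v : V) : List Bool → V
  | [] => v
  | b :: l => comb (D.P (gb b)) (D.off (d + l.length)) (wv d v l)

def ez : V := [1]
def ex : V := [1]
def ey : V := [0, 1]

def globalOk : Bool :=
  isU D.M && D.dim 0 == 0 && D.deg 0 == 1 && D.deg 1 == 1 && D.deg 5 == 4 && D.off 1 == 0 &&
  D.off 4 == 5 && D.dim 1 == 2 && 1 ≤ D.dim 4 &&
  ((List.range D.dimL.length).all fun m => (D.blk m).all fun k => D.deg k == m) &&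
  ((List.range D.degL.length).all fun a => D.off (D.deg a) ≤ a && a < D.off (D.deg a) + D.dim (D.deg a) &&
    (isGen a || allOk (fun j => D.okj (D.deg a) j && D.ci (D.deg a) j < a) 0 (D.dfn a)))

def pairs (n : ℕ) (f : ℕ → ℕ → Bool) : Bool :=
  (List.range D.degL.length).all fun a => n ≤ D.deg a || (D.blk (n - D.deg a)).all (f a)

def TJ (n b m j : ℕ) : V :=
  addv (smv (D.S n) (cand (j % 3) (D.P (D.ci m j) b)))
    (smv (-1) (comb (D.T (D.ci m j)) (D.off (gw (j % 3) + D.deg b)) (D.P (gi (j % 3)) b)))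

def chkT (n : ℕ) : Bool :=
  D.pairs n fun a b =>
    if isGen a then eqv (D.T a b) (unitv (3 * (b - D.off (D.deg b)) + ig a) (D.S n))
    else eqv (smv D.M (D.T a b)) (comb (D.TJ n b (D.deg a)) 0 (D.dfn a))

def relv : Rel → V
  | .w0 g l => cand (gb g) (D.wv 4 ez l)
  | .w1 l => addv (cand 1 (D.wv 4 ez (true :: l))) (smv (-1) (cand 0 (D.wv 4 ez (false :: l))))
  | .a a b => addv (D.T a b) (D.T b a)
  | .p a b => addv (comb (fun k => D.T k b) (D.off (D.deg a + 3)) (D.Pi a))
      (smv (-1) (comb (D.T a) (D.off (D.deg b + 3)) (D.Pi b)))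

def okR (n : ℕ) : Rel → Bool
  | .w0 g l => W0.contains (g :: l) && l.length + 5 == n
  | .w1 l => W1.contains l && l.length + 6 == n
  | .a a b => D.deg a != 0 && D.deg b != 0 && D.deg a + D.deg b == n
  | .p a b => D.deg a != 0 && D.deg b != 0 && D.deg a + D.deg b + 3 == n

def rels (n : ℕ) : List (Rel × V) := D.relL.getD n []
def RV (n r : ℕ) : V := ((D.rels n).map Prod.snd).getD r []
def lam (n j : ℕ) : ℤ × V := (D.lamL.getD n []).getD j (0, [])

def chkR (n : ℕ) : Bool := (D.rels n).all fun r => D.okR n r.1 && eqv r.2 (D.relv r.1)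

def chkC (n : ℕ) : Bool :=
  (List.range (3 * (D.dim (n - 1) + D.dim (n - 4)))).all fun j => !D.okj n j ||
    (isU (D.lam n j).1 && (D.P (gi (j % 3)) (D.ci n j)).length ≤ D.dim n &&
      allOk (fun k => !isGen k) (D.off n) (D.P (gi (j % 3)) (D.ci n j)) &&
      eqv (smv (D.lam n j).1 (addv (unitv j D.M)
        (smv (-1) (comb D.dfn (D.off n) (D.P (gi (j % 3)) (D.ci n j))))))
        (comb (D.RV n) 0 (D.lam n j).2))

def chkP (n : ℕ) : Bool :=
  D.pairs n fun a b => (D.P a b).length ≤ D.dim n && allOk (D.okj n) 0 (D.T a b) &&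
    eqv (smv (D.S n) (D.P a b)) (comb (fun j => D.P (gi (j % 3)) (D.ci n j)) 0 (D.T a b))

def chkPi (n : ℕ) : Bool :=
  (D.blk (n - 3)).all fun a => (D.Pi a).length ≤ D.dim n &&
    if a = 0 then eqv (smv (D.M ^ 2) (D.Pi a))
      (addv (D.wv 1 ey [true, true, true]) (smv (D.M ^ 3) ez))
    else if a = 1 then eqv (smv (D.M ^ 2) (D.Pi a))
      (addv (D.wv 1 ey [true, true, true]) (D.wv 1 ex [false, false, false]))
    else if a = 5 then zv (D.Pi a)
    else eqv (smv D.M (D.Pi a))
      (comb (fun j => comb (D.P (gi (j % 3))) (D.off (D.deg (D.ci (n - 3) j) + 3))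
        (D.Pi (D.ci (n - 3) j))) 0 (D.dfn a))

def chk (n : ℕ) : Bool :=
  isU (D.S n) && D.chkT n && D.chkR n && D.chkC n && D.chkP n && D.chkPi n

def chkGoal (v : V) (s : List Bool) : Bool :=
  (lists 7).all fun l => zv (D.wv 1 v (l ++ s))

end Data
end LowDeg
end Pool.Agent.Lib.MP_0813d1_al
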