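import Pool.Agent.Lib.MP_0813d1_al.LowDegreeCheck

namespace Pool.Agent.Lib.MP_0813d1_al.LowDeg

section Lin
variable {L : Type*} [AddCommGroup L]

def lin (f : ℕ → L) : ℕ → V → L
  | _, [] => 0
  | o, c :: v => c • f o + lin f (o + 1) v

def Sup (Q : ℕ → Prop) : ℕ → V → Prop
  | _, [] => True
  | o, c :: v => (c = 0 ∨ Q o) ∧ Sup Q (o + 1) v

theorem lin_addv (f : ℕ → L) : ∀ (v w : V) (o : ℕ), lin f o (addv v w) = lin f o v + lin f o w
  | [], w, o => by simp [addv, lin]
  | a :: v, [], o => by simp [addv, lin]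
  | a :: v, b :: w, o => by
    simp only [addv, lin, lin_addv f v w (o + 1), add_smul]
    abel

theorem lin_smv (f : ℕ → L) (c : ℤ) : ∀ (v : V) (o : ℕ), lin f o (smv c v) = c • lin f o v
  | [], o => by simp [smv, lin]
  | a :: v, o => by simp only [smv, lin, lin_smv f c v (o + 1), smul_add, mul_smul]

theorem lin_zv (f : ℕ → L) : ∀ (v : V) (o : ℕ), zv v = true → lin f o v = 0
  | [], o, _ => rfl
  | a :: v, o, h => by
    simp only [zv, Bool.and_eq_true, beq_iff_eq] at h
    simp [lin, h.1, lin_zv f v (o + 1) h.2]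

theorem lin_eqv (f : ℕ → L) {v w : V} (o : ℕ) (h : eqv v w = true) : lin f o v = lin f o w := by
  have := lin_zv f _ o h
  rw [lin_addv, lin_smv, neg_one_smul, add_neg_eq_zero] at this
  exact this

theorem Sup.mono {Q Q' : ℕ → Prop} (h : ∀ k, Q k → Q' k) :
    ∀ (v : V) (o : ℕ), Sup Q o v → Sup Q' o v
  | [], _, _ => trivial
  | _ :: v, o, hs => ⟨hs.1.imp id (h o), Sup.mono h v (o + 1) hs.2⟩

theorem Sup.and {Q Q' : ℕ → Prop} :
    ∀ (v : V) (o : ℕ), Sup Q o v → Sup Q' o v → Sup (fun k => Q k ∧ Q' k) o v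
  | [], _, _, _ => trivial
  | _ :: v, o, hs, hs' => ⟨by rcases hs.1 with h | h; exact Or.inl h; exact hs'.1.imp id fun h' => ⟨h, h'⟩,
      Sup.and v (o + 1) hs.2 hs'.2⟩

theorem sup_allOk (ok : ℕ → Bool) :
    ∀ (v : V) (o : ℕ), allOk ok o v = true → Sup (fun k => ok k = true) o v
  | [], _, _ => trivial
  | c :: v, o, h => by
    simp only [allOk, Bool.and_eq_true, Bool.or_eq_true, beq_iff_eq] at h
    exact ⟨h.1, sup_allOk ok v (o + 1) h.2⟩

theorem sup_len : ∀ (v : V) (o : ℕ), Sup (fun k => o ≤ k ∧ k < o + v.length) o v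
  | [], _ => trivial
  | c :: v, o => ⟨Or.inr ⟨le_rfl, by simp⟩,
      Sup.mono (fun k hk => ⟨by omega, by simp only [List.length_cons]; omega⟩) v (o + 1)
        (sup_len v (o + 1))⟩

theorem sup_true (Q : ℕ → Prop) (h : ∀ k, Q k) : ∀ (v : V) (o : ℕ), Sup Q o v
  | [], _ => trivial
  | _ :: v, o => ⟨Or.inr (h o), sup_true Q h v (o + 1)⟩

theorem lin_comb (f g : ℕ → L) (F : ℕ → V) (s : ℤ) (o' : ℕ) :
    ∀ (v : V) (o : ℕ), Sup (fun k => s • f k = lin g o' (F k)) o v →
      s • lin f o v = lin g o' (comb F o v)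
  | [], _, _ => by simp [lin, comb]
  | c :: v, o, h => by
    have ih := lin_comb f g F s o' v (o + 1) h.2
    by_cases hc : c = 0
    · simp [lin, comb, hc, ih]
    · have h1 := h.1.resolve_left hc
      simp only [lin, comb, hc, if_false, lin_addv, lin_smv, smul_add, ih, ← h1, smul_comm s c]

theorem lin_congr {f g : ℕ → L} :
    ∀ (v : V) (o : ℕ), Sup (fun k => f k = g k) o v → lin f o v = lin g o v
  | [], _, _ => rfl
  | c :: v, o, h => by
    have ih := lin_congr v (o + 1) h.2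
    rcases h.1 with hc | hc
    · simp [lin, hc, ih]
    · simp only [lin, ih, hc]

theorem lin_zero : ∀ (v : V) (o : ℕ), lin (fun _ => (0 : L)) o v = 0
  | [], _ => rfl
  | c :: v, o => by simp [lin, lin_zero v (o + 1)]

theorem lin_map {L' : Type*} [AddCommGroup L'] (φ : L →+ L') (f : ℕ → L) :
    ∀ (v : V) (o : ℕ), φ (lin f o v) = lin (fun k => φ (f k)) o v
  | [], _ => by simp [lin]
  | c :: v, o => by simp only [lin, map_add, map_zsmul, lin_map φ f v (o + 1)]

theorem lin_unitv (f : ℕ → L) (c : ℤ) : ∀ (i o : ℕ), lin f o (unitv i c) = c • f (o + i)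
  | 0, o => by simp [unitv, lin]
  | i + 1, o => by
    simp only [unitv, lin, zero_smul, zero_add, lin_unitv f c i (o + 1)]
    congr 2
    omega

theorem lin_shift (f : ℕ → L) (o : ℕ) :
    ∀ (v : V) (i : ℕ), lin (fun k => f (o + k)) i v = lin f (o + i) v
  | [], _ => rfl
  | c :: v, i => by simp only [lin, lin_shift f o v (i + 1), Nat.add_assoc]

theorem lin_cand (F : ℕ → ℕ → L) (g : ℕ) (hg : g < 3) :
    ∀ (v : V) (i : ℕ), lin (fun j => F (j % 3) (j / 3)) (3 * i) (cand g v) = lin (F g) i v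
  | [], _ => rfl
  | c :: v, i => by
    have ih := lin_cand F g hg v (i + 1)
    have e : 3 * i + 1 + 1 + 1 = 3 * (i + 1) := by ring
    have a0 : 3 * i % 3 = 0 := by omega
    have a1 : (3 * i + 1) % 3 = 1 := by omega
    have a2 : (3 * i + 1 + 1) % 3 = 2 := by omega
    have b0 : 3 * i / 3 = i := by omega
    have b1 : (3 * i + 1) / 3 = i := by omega
    have b2 : (3 * i + 1 + 1) / 3 = i := by omega
    obtain rfl | rfl | rfl : g = 0 ∨ g = 1 ∨ g = 2 := by omega
    · simp only [cand, if_true, lin, zero_smul, zero_add, e, ih, a0, b0]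
    · simp only [cand, one_ne_zero, if_false, if_true, lin, zero_smul, zero_add, e, ih, a1, b1]
    · simp only [cand, OfNat.ofNat_ne_zero, OfNat.ofNat_ne_one, if_false, lin, zero_smul, zero_add,
        e, ih, a2, b2]

theorem len_addv : ∀ (v w : V), (addv v w).length = max v.length w.length
  | [], w => by simp [addv]
  | a :: v, [] => by simp [addv]
  | a :: v, b :: w => by simp only [addv, List.length_cons, len_addv v w]; omega

theorem len_smv (c : ℤ) : ∀ v : V, (smv c v).length = v.length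
  | [] => rfl
  | a :: v => by simp only [smv, List.length_cons, len_smv c v]

theorem len_comb (F : ℕ → V) (d : ℕ) :
    ∀ (v : V) (o : ℕ), Sup (fun k => (F k).length ≤ d) o v → (comb F o v).length ≤ d
  | [], _, _ => by simp [comb]
  | c :: v, o, h => by
    have ih := len_comb F d v (o + 1) h.2
    by_cases hc : c = 0
    · simpa [comb, hc] using ih
    · have h1 := h.1.resolve_left hc
      simp only [comb, hc, if_false, len_addv, len_smv]
      exact max_le h1 ih

theorem cancel (h6 : ∀ v : L, (6 : ℤ) • v = 0 → v = 0) {u : ℤ} (hu : isU u = true) {v w : L}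
    (h : u • v = u • w) : v = w := by
  have h1 : ∀ (e : ℕ) (v : L), ((6 : ℤ) ^ e) • v = 0 → v = 0 := by
    intro e
    induction e with
    | zero => intro v hv; simpa using hv
    | succ e ih => intro v hv; rw [pow_succ, mul_smul] at hv; exact h6 v (ih _ hv)
  simp only [isU, beq_iff_eq] at hu
  obtain ⟨t, ht⟩ := Int.dvd_of_emod_eq_zero hu
  refine sub_eq_zero.mp (h1 60 _ ?_)
  rw [ht, mul_comm, mul_smul, smul_sub, h, sub_self, smul_zero]

theorem cancel_pow (h6 : ∀ v : L, (6 : ℤ) • v = 0 → v = 0) {u : ℤ} (hu : isU u = true) (e : ℕ)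
    {v w : L} (h : u ^ e • v = u ^ e • w) : v = w := by
  induction e generalizing v w with
  | zero => simpa using h
  | succ e ih =>
    rw [pow_succ, mul_smul, mul_smul] at h
    exact cancel h6 hu (ih h)

end Lin

theorem mem_lists : ∀ l : List Bool, l ∈ lists l.length
  | [] => by simp [lists]
  | b :: l => by
    simp only [List.length_cons, lists, List.mem_flatMap]
    exact ⟨l, mem_lists l, by cases b <;> simp⟩

variable {L : Type*} [LieRing L]

theorem lie_lin (u : L) (f : ℕ → L) :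
    ∀ (v : V) (o : ℕ), ⁅u, lin f o v⁆ = lin (fun k => ⁅u, f k⁆) o v
  | [], _ => by simp [lin]
  | c :: v, o => by simp only [lin, lie_add, lie_zsmul, lie_lin u f v (o + 1)]

theorem lin_lie (u : L) (f : ℕ → L) :
    ∀ (v : V) (o : ℕ), ⁅lin f o v, u⁆ = lin (fun k => ⁅f k, u⁆) o v
  | [], _ => by simp [lin]
  | c :: v, o => by simp only [lin, add_lie, zsmul_lie, lin_lie u f v (o + 1)]

theorem word_append (x y : L) : ∀ (l s : List Bool) (u : L),
    word x y (l ++ s) u = word x y l (word x y s u)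
  | [], _, _ => rfl
  | b :: l, s, u => by simp only [List.cons_append, word, word_append x y l s u]

structure Hyp (x y z : L) (π : L →+ L) : Prop where
  h6 : ∀ v : L, (6 : ℤ) • v = 0 → v = 0
  hπ : ∀ a b, π ⁅a, b⁆ = ⁅π a, b⁆
  hx : π x = word x y [true, true, true] y + z
  hy : π y = word x y [true, true, true] y + word x y [false, false, false] x
  hz : π z = 0
  w0 : ∀ l ∈ W0, word x y l z = 0
  w1 : ∀ l ∈ W1, word x y (false :: true :: l) z = word x y (true :: false :: l) z

def gen (x y z : L) (g : ℕ) : L := if g = 0 then x else if g = 1 then y else z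

noncomputable def bas (D : Data) (x y z : L) (k : ℕ) : L :=
  if isGen k then gen x y z (ig k) else
    lin (fun j => if _h : D.ci (D.deg k) j < k then ⁅gen x y z (j % 3), bas D x y z (D.ci (D.deg k) j)⁆
      else 0) 0 (D.dfn k)
termination_by k

noncomputable def cf (D : Data) (x y z : L) (n j : ℕ) : L :=
  ⁅gen x y z (j % 3), bas D x y z (D.ci n j)⁆

structure Glob (D : Data) : Prop where
  uM : isU D.M = true
  d0 : D.dim 0 = 0
  dx : D.deg 0 = 1
  dy : D.deg 1 = 1
  dz : D.deg 5 = 4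
  o1 : D.off 1 = 0
  o4 : D.off 4 = 5
  dim1 : D.dim 1 = 2
  dim4 : 1 ≤ D.dim 4
  blk : ∀ m k, D.off m ≤ k → k < D.off m + D.dim m → D.deg k = m
  pos : ∀ a, D.deg a ≠ 0 → D.off (D.deg a) ≤ a ∧ a < D.off (D.deg a) + D.dim (D.deg a)
  dfn : ∀ a, D.deg a ≠ 0 → isGen a = false →
    Sup (fun j => D.okj (D.deg a) j = true ∧ D.ci (D.deg a) j < a) 0 (D.dfn a)

theorem lt_of_deg (D : Data) {a : ℕ} (h : D.deg a ≠ 0) : a < D.degL.length := by
  by_contra h'
  exact h (List.getD_eq_default _ _ (not_lt.mp h'))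

theorem glob (D : Data) (h : D.globalOk = true) : Glob D := by
  simp only [Data.globalOk, Bool.and_eq_true, beq_iff_eq, decide_eq_true_eq, List.all_eq_true,
    List.mem_range, Bool.or_eq_true] at h
  obtain ⟨⟨⟨⟨⟨⟨⟨⟨⟨⟨h1, h2⟩, h3⟩, h4⟩, h5⟩, h6⟩, h7⟩, h8⟩, h9⟩, h10⟩, h11⟩ := h
  refine ⟨h1, h2, h3, h4, h5, h6, h7, h8, h9, fun m k hk hk' => ?_,
    fun a ha => (h11 a (lt_of_deg D ha)).1, fun a ha hg => ?_⟩
  · have hm : m < D.dimL.length := by
      by_contra h'
      have : D.dim m = 0 := List.getD_eq_default _ _ (not_lt.mp h')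
      omega
    exact h10 m hm k (by simp only [Data.blk, List.mem_range'_1]; exact ⟨hk, hk'⟩)
  · have := (h11 a (lt_of_deg D ha)).2.resolve_left (by simp [hg])
    refine Sup.mono (fun k hk => ?_) _ _ (sup_allOk _ _ _ this)
    simpa using hk

variable {D : Data} {x y z : L} {π : L →+ L}

theorem bas_gen {a : ℕ} (h : isGen a = true) : bas D x y z a = gen x y z (ig a) := by
  rw [bas, if_pos h]

theorem bas_gi (g : ℕ) : bas D x y z (gi g) = gen x y z g := by
  by_cases h0 : g = 0
  · subst h0; exact bas_gen rfl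
  · by_cases h1 : g = 1
    · subst h1; exact bas_gen rfl
    · have : gi g = 5 := by simp [gi, h0, h1]
      rw [this, bas_gen rfl]
      simp [gen, ig, h0, h1]

theorem deg_gi (G : Glob D) (g : ℕ) : D.deg (gi g) = gw g := by
  by_cases h0 : g = 0
  · subst h0; exact G.dx
  · by_cases h1 : g = 1
    · subst h1; exact G.dy
    · simp only [gi, gw, h0, h1, if_false]; exact G.dz

theorem gw_pos (g : ℕ) : gw g ≠ 0 := by
  unfold gw; split_ifs <;> simp

theorem bas_def (G : Glob D) {a : ℕ} (ha : D.deg a ≠ 0) (h : isGen a = false) :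
    bas D x y z a = lin (cf D x y z (D.deg a)) 0 (D.dfn a) := by
  rw [bas, if_neg (by simp [h])]
  refine lin_congr _ _ (Sup.mono (fun k hk => ?_) _ _ (G.dfn a ha h))
  rw [dif_pos hk.2, cf]

theorem okj_deg (G : Glob D) {n j : ℕ} (h : D.okj n j = true) :
    D.deg (D.ci n j) + gw (j % 3) = n ∧ D.deg (D.ci n j) ≠ 0 := by
  simp only [Data.okj, decide_eq_true_eq] at h
  have h1 : D.deg (D.ci n j) = n - gw (j % 3) :=
    G.blk _ _ (by simp [Data.ci]) (by simp only [Data.ci]; omega)
  have h2 : n - gw (j % 3) ≠ 0 := by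
    intro h0
    rw [h0, G.d0] at h
    omega
  omega

theorem sup_deg (G : Glob D) {m : ℕ} {v : V} (hv : v.length ≤ D.dim m) :
    Sup (fun k => D.deg k = m) (D.off m) v :=
  Sup.mono (fun k hk => G.blk m k hk.1 (by omega)) _ _ (sup_len v _)

theorem lin_cf_cand (n g : ℕ) (hg : g < 3) (v : V) :
    lin (cf D x y z n) 0 (cand g v) = ⁅gen x y z g, lin (bas D x y z) (D.off (n - gw g)) v⁆ := by
  have := lin_cand (fun g i => ⁅gen x y z g, bas D x y z (D.off (n - gw g) + i)⁆) g hg v 0
  rw [lie_lin]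
  exact this.trans (lin_shift (fun k => ⁅gen x y z g, bas D x y z k⁆) _ v 0)

theorem pairs_spec (G : Glob D) {n : ℕ} {f : ℕ → ℕ → Bool} (h : D.pairs n f = true) {a b : ℕ}
    (ha : D.deg a ≠ 0) (hb : D.deg b ≠ 0) (hn : D.deg a + D.deg b = n) : f a b = true := by
  simp only [Data.pairs, List.all_eq_true, List.mem_range, Bool.or_eq_true, decide_eq_true_eq] at h
  have := (h a (lt_of_deg D ha)).resolve_left (by omega) b
  apply this
  have e : n - D.deg a = D.deg b := by omega
  simp only [Data.blk, List.mem_range'_1, e]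
  exact G.pos b hb

def HP (D : Data) (x y z : L) (n : ℕ) : Prop :=
  ∀ a b, D.deg a ≠ 0 → D.deg b ≠ 0 → D.deg a + D.deg b = n →
    D.M • ⁅bas D x y z a, bas D x y z b⁆ = lin (bas D x y z) (D.off n) (D.P a b) ∧
      (D.P a b).length ≤ D.dim n

def HPi (D : Data) (x y z : L) (π : L →+ L) (n : ℕ) : Prop :=
  ∀ a, D.deg a ≠ 0 → D.deg a + 3 = n →
    D.M • π (bas D x y z a) = lin (bas D x y z) (D.off n) (D.Pi a) ∧ (D.Pi a).length ≤ D.dim n

def HT (D : Data) (x y z : L) (n : ℕ) : Prop :=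
  ∀ a b, D.deg a ≠ 0 → D.deg b ≠ 0 → D.deg a + D.deg b = n →
    D.S n • ⁅bas D x y z a, bas D x y z b⁆ = lin (cf D x y z n) 0 (D.T a b)

theorem gb_eq (b : Bool) : gi (gb b) = gb b := by cases b <;> rfl

omit [LieRing L] in
theorem gen_gb (b : Bool) : gen x y z (gb b) = if b then x else y := by cases b <;> rfl

theorem wv_sound (G : Glob D) {n : ℕ} (H : ∀ m ≤ n, HP D x y z m) {d : ℕ} (hd : d ≠ 0) {v : V}
    (hv : v.length ≤ D.dim d) : ∀ l : List Bool, d + l.length ≤ n →
    D.M ^ l.length • word x y l (lin (bas D x y z) (D.off d) v) =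
      lin (bas D x y z) (D.off (d + l.length)) (D.wv d v l) ∧
      (D.wv d v l).length ≤ D.dim (d + l.length)
  | [], _ => by simpa [word, Data.wv] using hv
  | b :: l, hl => by
    simp only [List.length_cons] at hl ⊢
    obtain ⟨ih1, ih2⟩ := wv_sound G H hd hv l (by omega)
    have hs := sup_deg G ih2
    have hg : D.deg (gb b) = 1 := by
      have := deg_gi G (gb b)
      rw [gb_eq] at this
      rw [this]; cases b <;> rfl
    have hb : bas D x y z (gb b) = if b then x else y := by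
      rw [← gen_gb, ← bas_gi (D := D), gb_eq]
    have key : ∀ k, D.deg k = d + l.length → _ := fun k hk =>
      H (d + (l.length + 1)) hl (gb b) k (by omega) (by omega) (by omega)
    refine ⟨?_, len_comb _ _ _ _ (Sup.mono (fun k hk => (key k hk).2) _ _ hs)⟩
    rw [Data.wv, ← lin_comb (fun k => ⁅bas D x y z (gb b), bas D x y z k⁆) _ _ D.M _ _ _
      (Sup.mono (fun k hk => (key k hk).1) _ _ hs), ← lie_lin, ← ih1, word, hb, lie_zsmul,
      pow_succ', mul_smul]

theorem T_sound (G : Glob D) (Hy : Hyp x y z π) {n : ℕ} (H : ∀ m < n, HP D x y z m)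
    (h : D.chkT n = true) : HT D x y z n := by
  intro a
  induction a using Nat.strong_induction_on with
  | _ a ih =>
  intro b ha hb hn
  have hc := pairs_spec G h ha hb hn
  by_cases hg : isGen a = true
  · rw [if_pos hg] at hc
    rw [lin_eqv _ _ hc, lin_unitv, bas_gen hg, cf]
    have h3 : ig a < 3 := by unfold ig; split_ifs <;> omega
    have hw : gw (ig a) = D.deg a := by
      simp only [isGen, Bool.or_eq_true, beq_iff_eq] at hg
      rcases hg with (rfl | rfl) | rfl
      · exact G.dx.symm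
      · exact G.dy.symm
      · exact G.dz.symm
    have e1 : (0 + (3 * (b - D.off (D.deg b)) + ig a)) % 3 = ig a := by omega
    have e2 : (0 + (3 * (b - D.off (D.deg b)) + ig a)) / 3 = b - D.off (D.deg b) := by omega
    have e3 : n - gw (ig a) = D.deg b := by omega
    have := (G.pos b hb).1
    rw [Data.ci, e1, e2, e3, Nat.add_sub_cancel' this]
  · rw [if_neg hg] at hc
    have hg' : isGen a = false := by simpa using hg
    refine cancel Hy.h6 G.uM ?_
    rw [← lin_smv, lin_eqv _ _ hc, bas_def G ha hg', lin_lie, smul_smul]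
    refine lin_comb _ _ _ _ _ _ _ (Sup.mono (fun j hj => ?_) _ _ (G.dfn a ha hg'))
    obtain ⟨h1, h2⟩ := okj_deg G hj.1
    have hw := gw_pos (j % 3)
    have hG := deg_gi G (j % 3)
    obtain ⟨p1, -⟩ := H (D.deg (D.ci (D.deg a) j) + D.deg b) (by omega) _ b h2 hb rfl
    obtain ⟨p2, p3⟩ := H (gw (j % 3) + D.deg b) (by omega) (gi (j % 3)) b (by omega) hb (by omega)
    have e : n - gw (j % 3) = D.deg (D.ci (D.deg a) j) + D.deg b := by omega
    rw [Data.TJ, lin_addv, lin_smv, lin_smv, lin_cf_cand _ _ (Nat.mod_lt _ (by norm_num)), e, ← p1,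
      ← lin_comb (fun k => ⁅bas D x y z (D.ci (D.deg a) j), bas D x y z k⁆) _ _ (D.S n) _ _ _
        (Sup.mono (fun k hk => ih _ hj.2 k h2 (by omega) (by omega)) _ _ (sup_deg G p3)),
      ← lie_lin, ← p2, bas_gi, cf, lie_lie, lie_zsmul, lie_zsmul]
    module

theorem pi_right (Hy : Hyp x y z π) (a b : L) : π ⁅a, b⁆ = ⁅a, π b⁆ := by
  rw [← lie_skew, map_neg, Hy.hπ, lie_skew]

theorem lin_ez (G : Glob D) : lin (bas D x y z) (D.off 4) Data.ez = z := by
  simp only [Data.ez, lin, one_smul, add_zero, G.o4]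
  exact bas_gen rfl

theorem lin_ex (G : Glob D) : lin (bas D x y z) (D.off 1) Data.ex = x := by
  simp only [Data.ex, lin, one_smul, add_zero, G.o1]
  exact bas_gen rfl

theorem lin_ey (G : Glob D) : lin (bas D x y z) (D.off 1) Data.ey = y := by
  simp only [Data.ey, lin, one_smul, zero_smul, add_zero, zero_add, G.o1]
  exact bas_gen rfl

theorem rel_sound (G : Glob D) (Hy : Hyp x y z π) {n : ℕ} (H : ∀ m < n, HP D x y z m)
    (H' : ∀ m < n, HPi D x y z π m) (hT : HT D x y z n) (r : Rel) (h : D.okR n r = true) :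
    lin (cf D x y z n) 0 (D.relv r) = 0 := by
  have hw : ∀ (g : Bool) (l : List Bool), l.length + 5 = n →
      lin (cf D x y z n) 0 (cand (gb g) (D.wv 4 Data.ez l)) =
        D.M ^ l.length • word x y (g :: l) z := by
    intro g l hl
    have h1 := (wv_sound G (n := n - 1) (fun m hm => H m (by omega)) (d := 4) (by norm_num)
      (v := Data.ez) G.dim4 l (by omega)).1
    have e : n - gw (gb g) = 4 + l.length := by cases g <;> simp [gb, gw] <;> omega
    rw [lin_cf_cand _ _ (by cases g <;> simp [gb]), e, ← h1, lin_ez G, gen_gb, word, lie_zsmul]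
  cases r with
  | w0 g l =>
    simp only [Data.okR, Bool.and_eq_true, List.contains_iff_mem, beq_iff_eq] at h
    rw [Data.relv, hw g l h.2, Hy.w0 _ h.1, smul_zero]
  | w1 l =>
    simp only [Data.okR, Bool.and_eq_true, List.contains_iff_mem, beq_iff_eq] at h
    have h1 := hw false (true :: l) (by simp only [List.length_cons]; omega)
    have h2 := hw true (false :: l) (by simp only [List.length_cons]; omega)
    rw [Data.relv, lin_addv, lin_smv]
    erw [h1, h2]
    rw [Hy.w1 _ h.1]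
    simp
  | a a b =>
    simp only [Data.okR, Bool.and_eq_true, bne_iff_ne, beq_iff_eq] at h
    rw [Data.relv, lin_addv, ← hT a b h.1.1 h.1.2 h.2, ← hT b a h.1.2 h.1.1 (by omega), ← smul_add,
      ← lie_skew, neg_add_cancel, smul_zero]
  | p a b =>
    simp only [Data.okR, Bool.and_eq_true, bne_iff_ne, beq_iff_eq] at h
    obtain ⟨⟨ha, hb⟩, hn⟩ := h
    obtain ⟨p1, p2⟩ := H' (D.deg a + 3) (by omega) a ha rfl
    obtain ⟨q1, q2⟩ := H' (D.deg b + 3) (by omega) b hb rfl
    rw [Data.relv, lin_addv, lin_smv,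
      ← lin_comb (fun k => ⁅bas D x y z k, bas D x y z b⁆) _ _ (D.S n) _ _ _
        (Sup.mono (fun k hk => hT k b (by omega) hb (by omega)) _ _ (sup_deg G p2)),
      ← lin_comb (fun k => ⁅bas D x y z a, bas D x y z k⁆) _ _ (D.S n) _ _ _
        (Sup.mono (fun k hk => hT a k ha (by omega) (by omega)) _ _ (sup_deg G q2)),
      ← lin_lie, ← lie_lin, ← p1, ← q1, zsmul_lie, lie_zsmul, ← Hy.hπ, ← pi_right Hy]
    simp

theorem C_sound (G : Glob D) (Hy : Hyp x y z π) {n : ℕ}
    (hR : ∀ r, lin (cf D x y z n) 0 (D.RV n r) = 0) (h : D.chkC n = true) {j : ℕ}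
    (hj : D.okj n j = true) :
    D.M • cf D x y z n j = lin (bas D x y z) (D.off n) (D.P (gi (j % 3)) (D.ci n j)) := by
  simp only [Data.chkC, List.all_eq_true, List.mem_range, Bool.or_eq_true, Bool.and_eq_true,
    decide_eq_true_eq, Bool.not_eq_true'] at h
  have hj' : j < 3 * (D.dim (n - 1) + D.dim (n - 4)) := by
    simp only [Data.okj, decide_eq_true_eq, gw] at hj
    split_ifs at hj <;> omega
  obtain ⟨⟨⟨h1, h2⟩, h3⟩, h4⟩ := (h j hj').resolve_left (by simp [hj])
  have hn : n ≠ 0 := by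
    have := okj_deg G hj
    omega
  have e := lin_eqv (cf D x y z n) 0 h4
  rw [← lin_comb (fun _ => (0 : L)) _ _ 1 _ _ _ (sup_true _ (fun k => by simp [hR k]) _ _),
    lin_zero, lin_smv, lin_addv, lin_smv, lin_unitv,
    ← lin_comb (bas D x y z) _ _ 1 _ _ _
      (Sup.mono (fun k hk => by
        have h5 : isGen k = false := by simpa using hk.2
        rw [one_smul, bas_def G (by rw [hk.1]; exact hn) h5, hk.1]) _ _
        (Sup.and _ _ (sup_deg G h2) (sup_allOk _ _ _ h3))),
    one_smul, one_smul, zero_add, neg_one_smul, ← smul_zero (D.lam n j).1] at e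
  exact add_neg_eq_zero.mp (cancel Hy.h6 h1 e)

theorem P_sound (G : Glob D) (Hy : Hyp x y z π) {n : ℕ} (hS : isU (D.S n) = true)
    (hT : HT D x y z n) (hC : ∀ j, D.okj n j = true →
      D.M • cf D x y z n j = lin (bas D x y z) (D.off n) (D.P (gi (j % 3)) (D.ci n j)))
    (h : D.chkP n = true) : HP D x y z n := by
  intro a b ha hb hn
  have hc := pairs_spec G h ha hb hn
  simp only [Bool.and_eq_true, decide_eq_true_eq] at hc
  obtain ⟨⟨h1, h2⟩, h3⟩ := hc
  refine ⟨cancel Hy.h6 hS ?_, h1⟩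
  rw [← lin_smv, lin_eqv _ _ h3, smul_comm, hT a b ha hb hn]
  exact lin_comb _ _ _ _ _ _ _ (Sup.mono (fun j hj => hC j hj) _ _ (sup_allOk _ _ _ h2))

theorem Pi_sound (G : Glob D) (Hy : Hyp x y z π) {n : ℕ} (H : ∀ m ≤ n, HP D x y z m)
    (H' : ∀ m < n, HPi D x y z π m) (h : D.chkPi n = true) : HPi D x y z π n := by
  intro a ha hn
  simp only [Data.chkPi, List.all_eq_true, Bool.and_eq_true, decide_eq_true_eq] at h
  have e : n - 3 = D.deg a := by omega
  obtain ⟨h1, h2⟩ := h a (by simp only [Data.blk, List.mem_range'_1, e]; exact G.pos a ha)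
  refine ⟨?_, h1⟩
  have hw : ∀ (v : V) (b : Bool), v.length ≤ 2 → n = 4 →
      D.M ^ 3 • word x y [b, b, b] (lin (bas D x y z) (D.off 1) v) =
        lin (bas D x y z) (D.off 4) (D.wv 1 v [b, b, b]) := fun v b hv h4 =>
    (wv_sound G H (d := 1) (by norm_num) (by rw [G.dim1]; exact hv) [b, b, b] (by simp [h4])).1
  by_cases h0 : a = 0
  · subst h0
    have h4 : n = 4 := by have := G.dx; omega
    rw [if_pos rfl] at h2
    refine cancel_pow Hy.h6 G.uM 2 ?_
    rw [← lin_smv, lin_eqv _ _ h2, h4, lin_addv, lin_smv, ← hw _ _ (by simp [Data.ey]) h4, lin_ey G,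
      lin_ez G, bas_gen rfl]
    erw [Hy.hx]
    module
  rw [if_neg h0] at h2
  by_cases h1' : a = 1
  · subst h1'
    have h4 : n = 4 := by have := G.dy; omega
    rw [if_pos rfl] at h2
    refine cancel_pow Hy.h6 G.uM 2 ?_
    rw [← lin_smv, lin_eqv _ _ h2, h4, lin_addv, ← hw _ _ (by simp [Data.ey]) h4,
      ← hw _ _ (by simp [Data.ex]) h4, lin_ey G, lin_ex G, bas_gen rfl]
    erw [Hy.hy]
    module
  rw [if_neg h1'] at h2
  by_cases h5 : a = 5
  · subst h5
    rw [if_pos rfl] at h2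
    rw [lin_zv _ _ _ h2, bas_gen rfl]
    erw [Hy.hz]
    simp
  rw [if_neg h5, e] at h2
  have hg : isGen a = false := by simp [isGen, h0, h1', h5]
  refine cancel Hy.h6 G.uM ?_
  rw [← lin_smv, lin_eqv _ _ h2, bas_def G ha hg, lin_map, smul_smul]
  refine lin_comb _ _ _ _ _ _ _ (Sup.mono (fun j hj => ?_) _ _ (G.dfn a ha hg))
  obtain ⟨q1, q2⟩ := okj_deg G hj.1
  have hw := gw_pos (j % 3)
  have hG := deg_gi G (j % 3)
  obtain ⟨p1, p2⟩ := H' (D.deg (D.ci (D.deg a) j) + 3) (by omega) _ q2 rfl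
  rw [← lin_comb (fun k => ⁅bas D x y z (gi (j % 3)), bas D x y z k⁆) _ _ D.M _ _ _
      (Sup.mono (fun k hk => (H n le_rfl _ k (by omega) (by omega) (by omega)).1) _ _ (sup_deg G p2)),
    ← lie_lin, ← p1, bas_gi, cf, pi_right Hy, lie_zsmul, smul_smul]

theorem step (G : Glob D) (Hy : Hyp x y z π) {n : ℕ} (H : ∀ m < n, HP D x y z m)
    (H' : ∀ m < n, HPi D x y z π m) (h : D.chk n = true) : HP D x y z n ∧ HPi D x y z π n := by
  simp only [Data.chk, Bool.and_eq_true] at h
  obtain ⟨⟨⟨⟨⟨h1, h2⟩, h3⟩, h4⟩, h5⟩, h6⟩ := h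
  have hT := T_sound G Hy H h2
  have hR : ∀ r, lin (cf D x y z n) 0 (D.RV n r) = 0 := by
    intro r
    simp only [Data.chkR, List.all_eq_true, Bool.and_eq_true] at h3
    by_cases hr : r < ((D.rels n).map Prod.snd).length
    · have hm : D.RV n r ∈ (D.rels n).map Prod.snd := by
        rw [Data.RV, List.getD_eq_getElem _ _ hr]
        exact List.getElem_mem hr
      obtain ⟨q, hq, e⟩ := List.mem_map.mp hm
      rw [← e, lin_eqv _ _ (h3 q hq).2]
      exact rel_sound G Hy H H' hT _ (h3 q hq).1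
    · rw [Data.RV, List.getD_eq_default _ _ (not_lt.mp hr)]
      rfl
  have hP := P_sound G Hy h1 hT (fun j hj => C_sound G Hy hR h4 hj) h5
  refine ⟨hP, Pi_sound G Hy (fun m hm => ?_) H' h6⟩
  rcases hm.lt_or_eq with hm | rfl
  · exact H m hm
  · exact hP

theorem all_sound (G : Glob D) (Hy : Hyp x y z π) (N : ℕ) (h : ∀ n ≤ N, D.chk n = true) :
    ∀ n ≤ N, HP D x y z n ∧ HPi D x y z π n := by
  intro n
  induction n using Nat.strong_induction_on with
  | _ n ih =>
  intro hn
  exact step G Hy (fun m hm => (ih m hm (by omega)).1) (fun m hm => (ih m hm (by omega)).2) (h n hn)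

theorem word_zero (G : Glob D) (Hy : Hyp x y z π) {N : ℕ} (H : ∀ m ≤ N, HP D x y z m) {d : ℕ}
    (hd : d ≠ 0) {v : V} (hv : v.length ≤ D.dim d) (l : List Bool) (hl : d + l.length ≤ N)
    (h : zv (D.wv d v l) = true) : word x y l (lin (bas D x y z) (D.off d) v) = 0 := by
  refine cancel_pow Hy.h6 G.uM l.length ?_
  rw [(wv_sound G H hd hv l hl).1, lin_zv _ _ _ h, smul_zero]

end Pool.Agent.Lib.MP_0813d1_al.LowDeg
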