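import Pool.Agent.Lib.MP_0813d1_al.PC2Tab

namespace Pool.Agent.Lib.MP_0813d1_al.PC.T2

theorem ch8_ok : allL (chkCh P) ch8 = true := by decide +kernel

theorem ch6_ok : allL (chkCh P) ch6 = true := by decide +kernel

theorem ch41_ok : allL (chkCh P) ch41 = true := by decide +kernel

theorem ch33_ok : allL (chkCh P) ch33 = true := by decide +kernel

theorem ch14_ok : allL (chkCh P) ch14 = true := by decide +kernel

theorem ch39_ok : allL (chkCh P) ch39 = true := by decide +kernel

end Pool.Agent.Lib.MP_0813d1_al.PC.T2
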