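import Pool.Agent.Lib.MP_0813d1_al.PCDefs

namespace Pool.Agent.Lib.MP_0813d1_al.PC

def fld (X k : Nat) : Nat := Nat.land (Nat.shiftRight X (Nat.mul 16 k)) 65535

noncomputable def nth (l : List Nat) : Nat → Nat :=
  List.rec (motive := fun _ => Nat → Nat) (fun _ => 0)
    (fun x _ ih i => Nat.rec (motive := fun _ => Nat) x (fun j _ => ih j) i) l

noncomputable def allL {α : Type} (f : α → Bool) (l : List α) : Bool :=
  List.rec (motive := fun _ => Bool) true
    (fun x _ ih => Bool.rec (motive := fun _ => Bool) false ih (f x)) l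

theorem allL_sound {α : Type} {f : α → Bool} {l : List α} (h : allL f l = true) :
    ∀ x ∈ l, f x = true := by
  induction l with
  | nil => intro x hx; cases hx
  | cons a l ih =>
    have e : allL f (a :: l) = Bool.rec (motive := fun _ => Bool) false (allL f l) (f a) := rfl
    rw [e] at h
    cases ha : f a with
    | false => rw [ha] at h; cases h
    | true =>
      rw [ha] at h
      intro x hx
      cases hx with
      | head => exact ha
      | tail _ hx => exact ih h x hx

noncomputable def rng (f : Nat → Bool) (lo len : Nat) : Bool :=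
  Nat.rec (motive := fun _ => Bool) true
    (fun i ih => Bool.rec (motive := fun _ => Bool) false ih (f (Nat.add lo i))) len

theorem rng_sound {f : Nat → Bool} {lo len : Nat} (h : rng f lo len = true) :
    ∀ i, lo ≤ i → i < lo + len → f i = true := by
  induction len with
  | zero => intro i h1 h2; omega
  | succ k ih =>
    have e : rng f lo (k + 1) =
      Bool.rec (motive := fun _ => Bool) false (rng f lo k) (f (lo + k)) := rfl
    rw [e] at h
    cases ha : f (lo + k) with
    | false => rw [ha] at h; cases h
    | true =>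
      rw [ha] at h
      intro i h1 h2
      by_cases hi : i = lo + k
      · rw [hi]; exact ha
      · exact ih h i h1 (by omega)

noncomputable def chkCh (P : Par) (ch : Nat × Nat × Nat) : Bool := rng (P.chkT ch.1) ch.2.1 ch.2.2

/-- the chunks run consecutively through the pairs `(j, i)`, `2 ≤ i < j`, from `(j0, i0)` on -/
def covL : Nat → Nat → List (Nat × Nat × Nat) → Nat
  | j, _, [] => j
  | j, i, ch :: l =>
    if ch.1 = j ∧ ch.2.1 = i then
      if j ≤ i + ch.2.2 then covL (j + 1) 2 l else
        if l.isEmpty then 0 else covL j (i + ch.2.2) l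
    else 0

theorem covL_sound {n : Nat} {l : List (Nat × Nat × Nat)} : ∀ {j0 i0 : Nat}, covL j0 i0 l = n →
    ∀ j, j0 ≤ j → j < n → ∀ i, (j = j0 → i0 ≤ i) → 2 ≤ i → i < j →
      ∃ ch, ch ∈ l ∧ ch.1 = j ∧ ch.2.1 ≤ i ∧ i < ch.2.1 + ch.2.2 := by
  induction l with
  | nil => intro j0 i0 h j h1 h2; simp only [covL] at h; omega
  | cons ch l ih =>
    intro j0 i0 h j h1 h2 i h3 h4 h5
    simp only [covL] at h
    split at h
    · rename_i hc
      split at h
      · by_cases hj : j = j0
        · exact ⟨ch, List.mem_cons_self, by omega, by have := h3 hj; omega, by omega⟩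
        · obtain ⟨c, hc1, hc2⟩ := ih h j (by omega) h2 i (fun _ => h4) h4 h5
          exact ⟨c, List.mem_cons_of_mem _ hc1, hc2⟩
      · split at h
        · omega
        · by_cases hj : j = j0 ∧ i < i0 + ch.2.2
          · exact ⟨ch, List.mem_cons_self, by omega, by have := h3 hj.1; omega, by omega⟩
          · obtain ⟨c, hc1, hc2⟩ := ih h j h1 h2 i (fun e => by omega) h4 h5
            exact ⟨c, List.mem_cons_of_mem _ hc1, hc2⟩
    · omega

end Pool.Agent.Lib.MP_0813d1_al.PC
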