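import Pool.Agent.Lib.MP_0813d1_al.TwoBlue

namespace Pool.Agent.Lib.MP_0813d1_al.Two

open PC Univ
open scoped commutatorElement

namespace A7

theorem map_w1 {Γ Δ : Type} [Group Γ] [Group Δ] (f : Γ →* Δ) (a b : Γ) :
    f (w1 a b) = w1 (f a) (f b) := by
  unfold w1
  rw [map_evw]
  simp only [Data.map_k]

theorem map_w2 {Γ Δ : Type} [Group Γ] [Group Δ] (f : Γ →* Δ) (a b : Γ) :
    f (w2 a b) = w2 (f a) (f b) := by
  unfold w2
  rw [map_mul, map_inv, map_pow, map_evw]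
  simp only [Data.map_k]

variable {Q : Type} [Group Q] {N n : ℕ}

/-- the kernel in weight `44` lies in the group of relations -/
theorem ker_le (hK : St_KMem) (h6 : St_A6) (P : Pre Fr Q N n) (hN : 2 * (n + 11) ≤ N)
    (R : Subgroup Fr) [R.Normal] {T : ℕ} (hT : lam 2 Fr T ≤ R ⊓ P.θ.ker) {s₁ s₂ : Fr}
    (m1 : s₁ ∈ R) (m2 : s₂ ∈ R) (z1 : P.θ s₁ = P.z) (z2 : P.θ s₂ = 1)
    (e1 : s₁⁻¹ * w1 P.a P.b ∈ lam 2 Fr 45) (e2 : s₂⁻¹ * w2 P.a P.b ∈ lam 2 Fr 45) :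
    lam 2 Fr 44 ⊓ P.θ.ker ≤ R := by
  let K : Subgroup Fr := R ⊓ P.θ.ker
  let π : Fr →* Fr ⧸ K := QuotientGroup.mk' K
  have hπ : Function.Surjective π := QuotientGroup.mk'_surjective K
  let θ' : Fr ⧸ K →* Q := QuotientGroup.lift K P.θ fun _ hx => hx.2
  have hθ : ∀ x, θ' (π x) = P.θ x := fun _ => rfl
  have hb : lam 2 (Fr ⧸ K) T = ⊥ := lam_quot_bot hT
  have hs2 : π s₂ = 1 := (QuotientGroup.eq_one_iff _).2 ⟨m2, z2⟩
  let S : Setup (Fr ⧸ K) Q N n :=
    { θ := θ'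
      a := π P.a
      b := π P.b
      Fl := P.Fl
      z := P.z
      gen := by
        have := congrArg (Subgroup.map π) P.gen
        rwa [MonoidHom.map_closure, Set.image_pair, Subgroup.map_top_of_surjective π hπ] at this
      qf := P.qf
      hn := P.hn
      km := fun i hi => hK _ _ _ i hi
      fin := finite_of_lam hb
      pg := isPGroup_of_lam hb
      zt := π s₁
      hz := z1
      h1 := by
        have := map_mem_lam π e1
        rwa [map_mul, map_inv, map_w1] at this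
      h2 := by
        have := map_mem_lam π e2
        rwa [map_mul, map_inv, map_w2, hs2, inv_one, one_mul] at this
      inj := by
        have : (R.map π).Normal := Subgroup.Normal.map inferInstance π hπ
        have h1 : Subgroup.normalClosure {π s₁} ≤ R.map π :=
          Subgroup.normalClosure_le_normal (by rintro _ rfl; exact ⟨s₁, m1, rfl⟩)
        refine eq_bot_iff.2 fun x hx => ?_
        obtain ⟨r, hr, rfl⟩ := h1 hx.1
        exact (QuotientGroup.eq_one_iff _).2 ⟨hr, hx.2⟩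
      hN := hN }
  intro g hg
  have h1 : π g ∈ S.toPre.V 44 := ⟨map_mem_lam π hg.1, hg.2⟩
  rw [h6 _ _ _ _ S, Subgroup.mem_bot] at h1
  exact ((QuotientGroup.eq_one_iff _).1 h1).1

theorem embed (hK : St_KMem) (h6 : St_A6) (hH : St_HOPF) [Finite Q] (hQ : IsPGroup 2 Q)
    (P : Pre Fr Q N n) (B : P.Basic) (hN : 2 * (n + 11) ≤ N) {G : Type} [Group G] (f : G →* Q)
    (h1 : ∀ σ, f σ ∈ P.Fl.G 11) (h2 : ∀ σ, f σ ∈ P.Fl.G n → σ = 1) :
    ∃ (H : Type) (_ : Group H) (_ : Finite H), IsPGroup 2 H ∧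
      Subsingleton (groupHomology (Rep.trivial ℤ H ℤ) 2) ∧
      ∃ φ : G →* H, Function.Injective φ := by
  obtain ⟨u, hu, eu⟩ := B.cor (w1 P.a P.b) (by simp)
  obtain ⟨v, hv, ev⟩ := B.cor (w2 P.a P.b) (by simp)
  obtain ⟨u', hu', eu'⟩ := B.full45 P.z (P.Fl.anti P.hn P.qf.hz)
  obtain ⟨T, hT⟩ := exists_lam_bot hQ
  have hk : ∀ j, T ≤ j → lam 2 Fr j ≤ P.θ.ker := fun j hj g hg => by
    have := map_mem_lam P.θ (lam_anti hj hg)
    rwa [hT, Subgroup.mem_bot] at this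
  generalize hs₁ : w1 P.a P.b * u * u' = s₁
  generalize hs₂ : w2 P.a P.b * v = s₂
  have z1 : P.θ s₁ = P.z := by rw [← hs₁, map_mul, eu, eu', one_mul]
  have z2 : P.θ s₂ = 1 := by rw [← hs₂, ev]
  have e1 : s₁⁻¹ * w1 P.a P.b ∈ lam 2 Fr 45 := by
    rw [← hs₁, mul_assoc, mul_inv_rev, inv_mul_cancel_right]
    exact inv_mem (mul_mem hu hu')
  have e2 : s₂⁻¹ * w2 P.a P.b ∈ lam 2 Fr 45 := by
    rw [← hs₂, mul_inv_rev, inv_mul_cancel_right]
    exact inv_mem hv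
  let R : Subgroup Fr := Subgroup.normalClosure {s₁, s₂} ⊔ lam 2 Fr (T + 45 + 1)
  have m1 : s₁ ∈ R := Subgroup.mem_sup_left (Subgroup.subset_normalClosure (by simp))
  have m2 : s₂ ∈ R := Subgroup.mem_sup_left (Subgroup.subset_normalClosure (by simp))
  have hR : lam 2 Fr 44 ⊓ P.θ.ker ≤ R :=
    ker_le hK h6 P hN R (le_inf le_sup_right (hk _ (by omega))) m1 m2 z1 z2 e1 e2
  have hb : lam 2 (Fr ⧸ R) (T + 45 + 1) = ⊥ := lam_quot_bot le_sup_right
  have hfin : Finite (Fr ⧸ R) := finite_of_lam hb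
  have hP : IsPGroup 2 (Fr ⧸ R) := isPGroup_of_lam hb
  refine ⟨Fr ⧸ R, inferInstance, hfin, hP, ?_, ?_⟩
  · refine hH _ hP (QuotientGroup.mk' R) (QuotientGroup.mk'_surjective _) s₁ s₂
      ((QuotientGroup.eq_one_iff _).2 m1) ((QuotientGroup.eq_one_iff _).2 m2) ?_
    rw [QuotientGroup.ker_mk', sup_assoc]
    refine sup_le_sup_left ?_ _
    have h3 : lam 2 Fr (T + 45) ≤ R :=
      (le_inf (lam_anti (by omega)) (hk _ (by omega))).trans hR
    rw [lam_succ (by omega)]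
    refine sup_le_sup (Subgroup.commutator_mono h3 le_rfl) (Subgroup.closure_mono ?_)
    rintro _ ⟨g, hg, rfl⟩
    exact ⟨g, h3 hg, rfl⟩
  · choose g hg eg using fun σ => B.full45 _ (h1 σ)
    let φ : G →* Fr ⧸ R := MonoidHom.mk' (fun σ => QuotientGroup.mk (g σ)) fun σ τ => by
      rw [← QuotientGroup.mk_mul, QuotientGroup.eq]
      refine hR ⟨lam_succ_le 44 (mul_mem (inv_mem (hg _)) (mul_mem (hg _) (hg _))), ?_⟩
      change (g (σ * τ))⁻¹ * (g σ * g τ) ∈ P.θ.ker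
      rw [MonoidHom.mem_ker, map_mul, map_mul, map_inv, eg, eg, eg, map_mul, inv_mul_cancel]
    refine ⟨φ, (injective_iff_map_eq_one φ).2 fun σ hσ => h2 σ ?_⟩
    have : (P.Fl.G n).Normal := P.Fl.normal n
    have h4 : R ≤ (P.Fl.G n).comap P.θ := by
      refine sup_le (Subgroup.normalClosure_le_normal ?_) fun x hx => ?_
      · rintro x (rfl | rfl)
        · change P.θ x ∈ P.Fl.G n
          rw [z1]; exact P.qf.hz
        · change P.θ x ∈ P.Fl.G n
          rw [z2]; exact one_mem _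
      · rw [Subgroup.mem_comap, (MonoidHom.mem_ker).1 (hk _ (by omega) hx)]
        exact one_mem _
    rw [← eg]
    exact h4 ((QuotientGroup.eq_one_iff _).1 hσ)

end A7

theorem blk_A7 : St_Univ → St_PG → St_Fil → St_QF → St_KMem → St_A1 → St_A6 → St_HOPF →
    St_Main := by
  intro hU hPG hF hQF hK h1 h6 hH G _ _ hG
  obtain ⟨n₀, hn₀⟩ := hU G hG
  obtain ⟨τ, f, f1, f2⟩ := hn₀ (2 * (n₀ + 11 + 11)) (by omega)
  obtain ⟨Fl, hFl⟩ := hF _ τ
  obtain ⟨hfin, hQ⟩ := hPG _ τ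
  let θ : Fr →* τ.Q := FreeGroup.lift fun c => if c then ⟨aP _⟩ else ⟨bP _⟩
  have hX : θ gX = ⟨aP _⟩ := by simp [θ, gX]
  have hY : θ gY = ⟨bP _⟩ := by simp [θ, gY]
  let P : Pre Fr τ.Q (2 * (n₀ + 11 + 11)) (n₀ + 11) :=
    { θ := θ
      a := gX
      b := gY
      Fl := Fl
      z := ⟨zP _ (n₀ + 11)⟩
      gen := closure_XY
      qf := by rw [hX, hY]; exact hQF _ _ τ Fl hFl (by omega) (by omega)
      hn := by omega
      km := fun i hi => hK _ _ _ i hi }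
  exact A7.embed hK h6 hH hQ P (h1 _ _ _ _ P) le_rfl f (fun σ => (hFl.1 _ _).2 (f1 σ))
    fun σ h => f2 σ ((hFl.1 _ _).1 (Fl.anti (by omega) h))

end Pool.Agent.Lib.MP_0813d1_al.Two
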