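import Mathlib
import Pool.Agent.Lib.MP_0813d1_al.TwoBlue

namespace Pool.Agent.Lib.MP_0813d1_al.Two

open PC Univ Polynomial

namespace U1

section one
variable {T : Type} [Group T] (R : Real T)

theorem t_mem : R.t ∈ R.S.F 0 := Filt.mono R.ht.1 (by omega)

theorem cl_eq {D : ℕ} {x : R.L} {P : (ZMod 2)[X]} (h : x - ev 2 R.t P ∈ R.S.F D) :
    R.cl D x = AdjoinRoot.mk _ P := by
  have hex : ∃ P : (ZMod 2)[X], x - ev 2 R.t P ∈ R.S.F D := ⟨P, h⟩
  have h1 : ev 2 R.t (hex.choose - P) ∈ R.S.F D := by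
    have := sub_mem h hex.choose_spec
    rw [map_sub]
    convert this using 1
    ring
  have h2 := dvd_of_ev_mem R.ht D h1
  unfold Real.cl
  rw [dif_pos hex, AdjoinRoot.mk_eq_mk]
  exact h2

theorem approx (D : ℕ) {x : R.L} (hx : x ∈ R.S.F 0) :
    ∃ P : (ZMod 2)[X], x - ev 2 R.t P ∈ R.S.F D :=
  exists_approx (p := 2) R.ht R.res D x hx

theorem cl_ev (D : ℕ) (P : (ZMod 2)[X]) : R.cl D (ev 2 R.t P) = AdjoinRoot.mk _ P :=
  cl_eq R (by simp)

theorem cl_congr {D : ℕ} {x y : R.L} (hx : x ∈ R.S.F 0) (h : y - x ∈ R.S.F D) :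
    R.cl D y = R.cl D x := by
  obtain ⟨P, hP⟩ := approx R D hx
  rw [cl_eq R hP]
  refine cl_eq R ?_
  have := add_mem h hP
  simpa using this

theorem cl_add (D : ℕ) {x y : R.L} (hx : x ∈ R.S.F 0) (hy : y ∈ R.S.F 0) :
    R.cl D (x + y) = R.cl D x + R.cl D y := by
  obtain ⟨P, hP⟩ := approx R D hx
  obtain ⟨Q, hQ⟩ := approx R D hy
  rw [cl_eq R hP, cl_eq R hQ, ← map_add]
  refine cl_eq R ?_
  have := add_mem hP hQ
  rw [map_add]
  convert this using 1
  ring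

theorem cl_mul (D : ℕ) {x y : R.L} (hx : x ∈ R.S.F 0) (hy : y ∈ R.S.F 0) :
    R.cl D (x * y) = R.cl D x * R.cl D y := by
  obtain ⟨P, hP⟩ := approx R D hx
  obtain ⟨Q, hQ⟩ := approx R D hy
  rw [cl_eq R hP, cl_eq R hQ, ← map_mul]
  refine cl_eq R ?_
  have h1 : x * y - ev 2 R.t (P * Q) =
      (x - ev 2 R.t P) * y + ev 2 R.t P * (y - ev 2 R.t Q) := by
    rw [map_mul]; ring
  rw [h1]
  exact add_mem (Filt.mul hP hy (by simp)) (Filt.mul (ev_mem (t_mem R) P) hQ (by simp))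

theorem cl_t (D : ℕ) : R.cl D R.t = wv 2 D := by
  have := cl_ev R D X
  rw [ev_X] at this
  rw [this, wv, AdjoinRoot.mk_X]

theorem cl_mem {D k : ℕ} (hk : k ≤ D) {x : R.L} (hx : x ∈ R.S.F 0) :
    R.cl D x ∈ Iw 2 D k ↔ x ∈ R.S.F k := by
  obtain ⟨P, hP⟩ := approx R D hx
  have hP' : x - ev 2 R.t P ∈ R.S.F k := Filt.mono hP (by exact_mod_cast hk)
  rw [cl_eq R hP, mk_mem_Iw hk]
  constructor
  · intro h
    have := add_mem hP' (ev_mem_of_dvd R.ht h)
    simpa using this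
  · intro h
    have := sub_mem h hP'
    rw [sub_sub_cancel] at this
    exact dvd_of_ev_mem R.ht k this

theorem cl_surj (D : ℕ) (y : Tr 2 D) : ∃ x ∈ R.S.F 0, R.cl D x = y := by
  obtain ⟨P, rfl⟩ := AdjoinRoot.mk_surjective y
  exact ⟨_, ev_mem (t_mem R) P, cl_ev R D P⟩

theorem cl_red {D M : ℕ} (h : M ≤ D) {x : R.L} (hx : x ∈ R.S.F 0) :
    red 2 h (R.cl D x) = R.cl M x := by
  obtain ⟨P, hP⟩ := approx R D hx
  rw [cl_eq R hP, red_mk, cl_eq R (Filt.mono hP (by exact_mod_cast h))]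

theorem cl_one (D : ℕ) : R.cl D 1 = 1 := by
  simpa using cl_ev R D 1

theorem cl_pow (D : ℕ) {x : R.L} (hx : x ∈ R.S.F 0) (n : ℕ) :
    R.cl D (x ^ n) = R.cl D x ^ n := by
  induction n with
  | zero => simpa using cl_one R D
  | succ n ih =>
    rw [pow_succ, pow_succ, cl_mul R D (by simpa using Filt.pow_mem hx n) hx, ih]

theorem cl_ev' (D : ℕ) {u : R.L} (hu : u ∈ R.S.F 0) (P : (ZMod 2)[X]) :
    R.cl D (ev 2 u P) = aeval (R.cl D u) P := by
  induction P using Polynomial.induction_on' with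
  | add P Q hP hQ => rw [map_add, map_add, cl_add R D (ev_mem hu P) (ev_mem hu Q), hP, hQ]
  | monomial n c =>
    rw [← C_mul_X_pow_eq_monomial, map_mul, map_pow, ev_X, map_mul, map_pow, aeval_X,
      cl_mul R D (ev_mem hu _) (by simpa using Filt.pow_mem hu n), cl_pow R D hu, aeval_C]
    congr 1
    have := cl_ev R D (C c)
    rw [ev_C] at this
    rw [ev_C, this]
    rfl

theorem cl_pow_self (D : ℕ) {x : R.L} (hx : x ∈ R.S.F 1) : R.cl D x ^ D = 0 := by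
  rw [← cl_pow R D (Filt.mono hx (by omega))]
  have h : x ^ D - ev 2 R.t 0 ∈ R.S.F D := by simpa using Filt.pow_mem hx D
  rw [cl_eq R h, map_zero]

/-- the induced endomorphism of the truncated ring -/
noncomputable def al0 (D : ℕ) (g : T) : Tr 2 D →ₐ[ZMod 2] Tr 2 D :=
  subst 2 D (R.cl D (R.act g R.t)) (cl_pow_self R D (R.hF g 1 _ R.ht.1))

theorem al0_cl (D : ℕ) (g : T) {x : R.L} (hx : x ∈ R.S.F 0) :
    al0 R D g (R.cl D x) = R.cl D (R.act g x) := by
  obtain ⟨P, hP⟩ := approx R D hx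
  have h0 : R.act g R.t ∈ R.S.F 0 := R.hF g 0 _ (t_mem R)
  have h1 : (AdjoinRoot.mk _ P : Tr 2 D) = aeval (wv 2 D) P := by
    rw [wv, AdjoinRoot.aeval_eq]
  rw [cl_eq R hP, h1, ← aeval_algHom_apply, al0, subst_wv, ← cl_ev' R D h0]
  refine (cl_congr R (ev_mem h0 P) ?_).symm
  rw [← map_ev, ← map_sub]
  exact R.hF g _ _ hP

theorem al0_one (D : ℕ) (y : Tr 2 D) : al0 R D 1 y = y := by
  obtain ⟨x, hx, rfl⟩ := cl_surj R D y
  rw [al0_cl R D 1 hx, R.one]

theorem al0_mul (D : ℕ) (g h : T) (y : Tr 2 D) :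
    al0 R D (g * h) y = al0 R D g (al0 R D h y) := by
  obtain ⟨x, hx, rfl⟩ := cl_surj R D y
  rw [al0_cl R D _ hx, al0_cl R D _ hx, al0_cl R D _ (R.hF h 0 _ hx), R.mul]

/-- the induced automorphism of the truncated ring -/
noncomputable def al1 (D : ℕ) (g : T) : Au 2 D :=
  AlgEquiv.ofAlgHom (al0 R D g) (al0 R D g⁻¹)
    (AlgHom.ext fun y => by
      rw [AlgHom.comp_apply, ← al0_mul, mul_inv_cancel, al0_one]; rfl)
    (AlgHom.ext fun y => by
      rw [AlgHom.comp_apply, ← al0_mul, inv_mul_cancel, al0_one]; rfl)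

theorem al1_apply (D : ℕ) (g : T) (y : Tr 2 D) : al1 R D g y = al0 R D g y := rfl

theorem exists_al (D : ℕ) : ∃ α, R.IsAl D α :=
  ⟨MonoidHom.mk' (al1 R D) fun g h => AlgEquiv.ext fun y => by
      rw [AlgEquiv.mul_apply, al1_apply, al1_apply, al1_apply, al0_mul],
    fun g x hx => by rw [MonoidHom.mk'_apply, al1_apply, al0_cl R D g hx]⟩

theorem clApi : R.ClApi where
  add D _ hx _ hy := cl_add R D hx hy
  mul D _ hx _ hy := cl_mul R D hx hy
  ev := cl_ev R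
  t := cl_t R
  mem _ _ hk _ hx := cl_mem R hk hx
  surj := cl_surj R
  red h _ hx := cl_red R h hx
  al := exists_al R

end one

section ev
variable {L L' : Type} [Field L] [CharP L 2] [Field L'] [CharP L' 2]

theorem map_ev' (φ : L →+* L') (u : L) (P : (ZMod 2)[X]) : φ (ev 2 u P) = ev 2 (φ u) P := by
  simp only [ev, coe_eval₂RingHom, hom_eval₂]
  rw [RingHom.ext_zmod (φ.comp _) (ZMod.castHom (dvd_refl 2) L')]

theorem ev_sq (u : L) (P : (ZMod 2)[X]) : ev 2 u P ^ 2 = ev 2 (u ^ 2) P :=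
  map_ev' (frobenius L 2) u P

theorem ev_sub_mem {S : Filt L} {u v : L} (hu : u ∈ S.F 0) (hv : v ∈ S.F 0) {a : ℤ}
    (h : u - v ∈ S.F a) (P : (ZMod 2)[X]) : ev 2 u P - ev 2 v P ∈ S.F a := by
  have hp : ∀ n : ℕ, u ^ n - v ^ n ∈ S.F a := by
    intro n
    induction n with
    | zero => simp
    | succ n ih =>
      have e : u ^ (n + 1) - v ^ (n + 1) = (u ^ n - v ^ n) * u + v ^ n * (u - v) := by ring
      rw [e]
      exact add_mem (Filt.mul ih hu (by simp)) (Filt.mul (Filt.pow_mem hv n) h (by simp))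
  induction P using Polynomial.induction_on' with
  | add P Q hP hQ =>
    have := add_mem hP hQ
    rw [map_add, map_add]
    convert this using 1
    ring
  | monomial n c =>
    rw [← C_mul_X_pow_eq_monomial, map_mul, map_pow, ev_X, map_mul, map_pow, ev_X, ev_C, ev_C,
      ← mul_sub]
    exact Filt.mul (cast_mem c) (hp n) (by simp)

end ev

theorem transfer (T : Type) [Group T] (R R' : Real T) (ι : R.L →+* R'.L) (D : ℕ)
    (hd : ∀ n x, x ∈ R.S.F n → ι x ∈ R'.S.F (2 * n))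
    (ht : R'.t ^ 2 - ι R.t ∈ R'.S.F (2 * D)) (x : R.L) (hx : x ∈ R.S.F 0) (u : R'.L)
    (hu : u ^ 2 - ι x ∈ R'.S.F (2 * D)) : u ∈ R'.S.F 0 ∧ R'.cl D u = R.cl D x := by
  obtain ⟨P, hP⟩ := approx R D hx
  have h1 := hd _ _ hP
  rw [map_sub, map_ev'] at h1
  have h2 : ev 2 (R'.t ^ 2) P - ev 2 (ι R.t) P ∈ R'.S.F (2 * D) :=
    ev_sub_mem (by simpa using Filt.pow_mem (t_mem R') 2) (by simpa using hd 0 _ (t_mem R)) ht P
  have h3 : (u - ev 2 R'.t P) ^ 2 ∈ R'.S.F ((2 : ℕ) * (D : ℤ)) := by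
    rw [sub_pow_char, ev_sq]
    have := sub_mem (add_mem hu h1) h2
    push_cast
    convert this using 1
    ring
  have h4 : u - ev 2 R'.t P ∈ R'.S.F D := Filt.mem_of_pow_mem (by omega) h3
  refine ⟨?_, by rw [cl_eq R' h4, cl_eq R hP]⟩
  have := add_mem (Filt.mono h4 (by positivity : (0 : ℤ) ≤ D)) (ev_mem (t_mem R') P)
  simpa using this

/-- Laurent series with the trivial action -/
noncomputable def base (T : Type) [Group T] : Real T :=
  @Real.mk T _ (HahnSeries ℤ (ZMod 2)) inferInstance (laurent_charP 2) (laurent (ZMod 2))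
    (fun _ => RingHom.id _) (fun _ => rfl) (fun _ _ _ => rfl) (fun _ _ _ h => h)
    (laurent_res 2) (HahnSeries.single 1 1) (laurent_ex _ _) (HahnSeries.single 1 1) 0
    (HahnSeries.single 1 1) 1 (fun _ => rfl) (by simp) (laurent_ex _ _) odd_one
    (laurent_ex _ _).1

end U1

theorem blk_U1 : St_U1 :=
  ⟨fun _ _ R => U1.clApi R, fun T _ R R' ι D hd ht x hx u hu => U1.transfer T R R' ι D hd ht x hx u hu,
    fun T _ => ⟨U1.base T⟩⟩

end Pool.Agent.Lib.MP_0813d1_al.Two
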